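import Mathlib

/-!
Project KM, block T: sets of ordinals that contain a club, or all points of a given cofinality of
a club, below an ordinal `d`.
-/

namespace Pool.Agent.KM

open Ordinal Cardinal Set Order

universe u v

/-- `D` is cofinal in `c` (strictly below `c`). -/
def Unb (D : Set Ordinal.{u}) (c : Ordinal.{u}) : Prop := ∀ a < c, ∃ b ∈ D, a < b ∧ b < c

/-- `G` contains a club of `d`: all nonzero limits below `d` of an unbounded set. -/
def Clb (d : Ordinal.{u}) (G : Set Ordinal.{u}) : Prop :=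
  ∃ D, Unb D d ∧ ∀ c < d, 0 < c → Unb D c → c ∈ G

/-- `G` contains all points of cofinality `t` of a club of `d`. -/
def Fat (t : Cardinal.{u}) (d : Ordinal.{u}) (G : Set Ordinal.{u}) : Prop :=
  ∃ D : Set Ordinal.{u}, (∀ a < d, ∃ b ∈ D, a < b ∧ b < d) ∧
    ∀ c < d, c.cof = t → (∀ a < c, ∃ b ∈ D, a < b ∧ b < c) → c ∈ G

/-- `f` is continuous at `b`. -/
def ContAt (f : Ordinal.{u} → Ordinal.{u}) (b : Ordinal.{u}) : Prop :=
  ∀ y < f b, ∃ a < b, y < f a

/-- `f` maps `d` monotonically and cofinally into `d'`. -/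
structure CofMap (f : Ordinal.{u} → Ordinal.{u}) (d d' : Ordinal.{u}) : Prop where
  mono : ∀ a b, a ≤ b → b < d → f a ≤ f b
  maps : ∀ a < d, f a < d'
  cof : ∀ y < d', ∃ a < d, y < f a

/-! ### Small sets and cofinality -/

theorem small_Iio {c : Cardinal.{u}} {b : Ordinal.{u}} (h : b.card < c) :
    HasCardinalLT (Iio b) c := by
  unfold HasCardinalLT
  rw [Cardinal.mk_Iio_ordinal, Cardinal.lift_lift, Cardinal.lift_lt]
  exact h

theorem small_Iio_ord {c : Cardinal.{u}} {b : Ordinal.{u}} (h : b < c.ord) :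
    HasCardinalLT (Iio b) c := small_Iio (Cardinal.lt_ord.1 h)

theorem small_mono {α : Type v} {c : Cardinal.{u}} {X Y : Set α} (h : HasCardinalLT Y c)
    (hXY : X ⊆ Y) : HasCardinalLT X c :=
  h.of_injective (Set.inclusion hXY) (Set.inclusion_injective hXY)

theorem small_image {α : Type v} {β : Type*} {c : Cardinal.{u}} {X : Set α}
    (h : HasCardinalLT X c) (f : α → β) : HasCardinalLT (f '' X) c :=
  h.of_surjective (Set.imageFactorization f X) Set.imageFactorization_surjective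

theorem small_range {α : Type v} {β : Type*} {c : Cardinal.{u}}
    (h : HasCardinalLT α c) (f : α → β) : HasCardinalLT (range f) c :=
  h.of_surjective (Set.rangeFactorization f) Set.rangeFactorization_surjective

theorem small_countable {α : Type v} [Countable α] {c : Cardinal.{u}} (h : ℵ₀ < c) :
    HasCardinalLT α c := by
  unfold HasCardinalLT
  refine lt_of_le_of_lt ?_ (Cardinal.lift_lt.2 h : Cardinal.lift.{v} ℵ₀ < _)
  simp

theorem limit_of_cof {d : Ordinal.{u}} (h : ℵ₀ ≤ d.cof) : IsSuccLimit d :=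
  one_lt_cof_iff.1 (aleph0_le_cof_iff.1 h)

/-- A family of fewer than `cof d` ordinals below `d` is bounded below `d`. -/
theorem bdd_fam {ι : Type v} {d : Ordinal.{u}} (hι : HasCardinalLT ι d.cof)
    (f : ι → Ordinal.{u}) (hf : ∀ i, f i < d) : ∃ b < d, ∀ i, f i < b := by
  have : Small.{u} ι := hι.small
  refine ⟨⨆ i, f i + 1, lift_iSup_add_one_lt_of_lt_cof ?_ hf, fun i => lt_iSup_add_one f i⟩
  rw [← lift_cof]
  exact hι

theorem bdd_set {d : Ordinal.{u}} {S : Set Ordinal.{u}} (hS : HasCardinalLT S d.cof)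
    (h : ∀ a ∈ S, a < d) : ∃ b < d, ∀ a ∈ S, a < b := by
  obtain ⟨b, hb, h'⟩ := bdd_fam hS (fun a : S => a.1) fun a => h a a.2
  exact ⟨b, hb, fun a ha => h' ⟨a, ha⟩⟩

/-- A cofinal family indexed by the ordinals below the cofinality. -/
theorem exists_cof_seq (d : Ordinal.{u}) : ∃ s : Ordinal.{u} → Ordinal.{u},
    (∀ i j, i < j → j < d.cof.ord → s i < s j) ∧ (∀ i < d.cof.ord, s i < d) ∧
      ∀ a < d, ∃ i < d.cof.ord, a ≤ s i := by
  classical
  obtain ⟨f, hf⟩ := exists_isFundamentalSeq (o := d) rfl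
  refine ⟨fun i => if h : i < d.cof.ord then (f ⟨i, h⟩).1 else 0, fun i j hij hj => ?_,
    fun i hi => ?_, fun a ha => ?_⟩
  · simp only [dif_pos hj, dif_pos (hij.trans hj)]
    exact hf.strictMono (show (⟨i, hij.trans hj⟩ : Iio d.cof.ord) < ⟨j, hj⟩ from hij)
  · simp only [dif_pos hi]; exact (f ⟨i, hi⟩).2
  · obtain ⟨_, ⟨i, rfl⟩, hi⟩ := hf.isCofinal_range ⟨a, ha⟩
    exact ⟨i.1, i.2, by simp only [dif_pos (show i.1 < d.cof.ord from i.2)]; exact hi⟩

theorem small_cof_ord {c : Cardinal.{u}} {d : Ordinal.{u}} (h : d.cof < c) :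
    HasCardinalLT (Iio d.cof.ord) c := small_Iio (by simpa using h)

/-- A monotone cofinal map preserves the cofinality. -/
theorem CofMap.cof_eq {f : Ordinal.{u} → Ordinal.{u}} {d d' : Ordinal.{u}}
    (h : CofMap f d d') : d.cof = d'.cof := by
  rcases lt_trichotomy d.cof d'.cof with hlt | heq | hlt
  · exfalso
    obtain ⟨s, -, hs, hs'⟩ := exists_cof_seq d
    obtain ⟨b, hb, hb'⟩ := bdd_fam (small_cof_ord hlt) (fun i => f (s i.1))
      fun i => h.maps _ (hs _ i.2)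
    obtain ⟨a, ha, ha'⟩ := h.cof b hb
    obtain ⟨i, hi, hi'⟩ := hs' a ha
    exact absurd ((ha'.trans_le (h.mono _ _ hi' (hs i hi))).trans (hb' ⟨i, hi⟩)) (lt_irrefl _)
  · exact heq
  · exfalso
    obtain ⟨s, -, hs, hs'⟩ := exists_cof_seq d'
    choose g hg hg' using fun i : Iio d'.cof.ord => h.cof _ (hs _ i.2)
    obtain ⟨b, hb, hb'⟩ := bdd_fam (small_cof_ord hlt) g hg
    obtain ⟨i, hi, hi'⟩ := hs' _ (h.maps b hb)
    exact absurd ((hi'.trans_lt (hg' ⟨i, hi⟩)).trans_le (h.mono _ _ (hb' ⟨i, hi⟩).le hb))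
      (lt_irrefl _)

/-- Closing off: a point of cofinality `t` that is a limit of points `c` with `f c` below it. -/
theorem exists_pt {t : Cardinal.{u}} {d : Ordinal.{u}} (ht : t.IsRegular) (hd : t < d.cof)
    (f : Ordinal.{u} → Ordinal.{u}) (hf : ∀ a < d, f a < d) {a0 : Ordinal.{u}} (h0 : a0 < d) :
    ∃ b < d, a0 < b ∧ b.cof = t ∧ ∀ a < b, ∃ c, a < c ∧ c < b ∧ f c < b := by
  have hl : IsSuccLimit d := limit_of_cof (ht.aleph0_le.trans hd.le)
  have htl : IsSuccLimit t.ord := Cardinal.isSuccLimit_ord ht.aleph0_le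
  let s : Ordinal.{u} → Ordinal.{u} := (wellFounded_lt (α := Ordinal.{u})).fix fun i rec =>
    max a0 (⨆ j : Iio i, max (rec j.1 j.2) (f (rec j.1 j.2)) + 1)
  have hs : ∀ i, s i = max a0 (⨆ j : Iio i, max (s j.1) (f (s j.1)) + 1) := fun i => by
    simp only [s]; rw [WellFounded.fix_eq]
  have hlt : ∀ i j, j < i → max (s j) (f (s j)) < s i := fun i j hji => by
    rw [hs i]
    exact (lt_iSup_add_one (fun j : Iio i => max (s j.1) (f (s j.1))) ⟨j, hji⟩).trans_le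
      (le_max_right _ _)
  have hd' : ∀ i, i < t.ord → s i < d := fun i => by
    induction i using WellFoundedLT.induction with
    | _ i ih =>
      intro hi
      rw [hs i]
      refine max_lt h0 (lift_iSup_add_one_lt_of_lt_cof ?_ fun j =>
        max_lt (ih j j.2 (j.2.trans hi)) (hf _ (ih j j.2 (j.2.trans hi))))
      rw [← lift_cof]
      exact (small_Iio_ord hi).of_le hd.le
  have hm : StrictMono fun i : Iio t.ord => s i.1 := fun i j hij =>
    (le_max_left _ _).trans_lt (hlt _ _ hij)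
  have hle : ∀ i, i < t.ord → s i < ⨆ i : Iio t.ord, s i.1 := fun i hi =>
    ((le_max_left _ _).trans_lt (hlt _ _ (lt_succ i))).trans_le
      (le_ciSup (f := fun i : Iio t.ord => s i.1) bddAbove_of_small ⟨_, htl.succ_lt hi⟩)
  refine ⟨⨆ i : Iio t.ord, s i.1, ?_, ?_, ?_, fun a ha => ?_⟩
  · refine lift_iSup_lt_of_lt_cof ?_ fun i => hd' _ i.2
    rw [← lift_cof]
    exact small_Iio (by simpa using hd)
  · refine lt_of_le_of_lt ?_ (hle 0 ht.ord_pos)
    rw [hs 0]; exact le_max_left _ _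
  · rw [cof_iSup_Iio hm htl.isSuccPrelimit, ht.cof_ord]
  · obtain ⟨i, hi⟩ := (Ordinal.lt_iSup_iff).1 ha
    exact ⟨s i.1, hi, hle _ i.2, ((le_max_right _ _).trans_lt (hlt _ _ (lt_succ i.1))).trans
      (hle _ (htl.succ_lt i.2))⟩

/-! ### Clubs -/

theorem Unb.mono {D D' : Set Ordinal.{u}} {c : Ordinal.{u}} (h : Unb D c) (hD : D ⊆ D') :
    Unb D' c := fun a ha => let ⟨b, hb, h'⟩ := h a ha; ⟨b, hD hb, h'⟩

theorem Unb.limit {D : Set Ordinal.{u}} {c : Ordinal.{u}} (h : Unb D c) (h0 : 0 < c) :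
    IsSuccLimit c := by
  refine ⟨h0.not_isMin, isSuccPrelimit_iff_succ_lt.2 fun a ha => ?_⟩
  obtain ⟨b, -, hab, hb⟩ := h a ha
  exact (succ_le_of_lt hab).trans_lt hb

/-- A limit of limits of `D` is a limit of `D`. -/
theorem Unb.trans {D : Set Ordinal.{u}} {c : Ordinal.{u}} (h : Unb {b | Unb D b} c) : Unb D c :=
  fun a ha => by
    obtain ⟨b, hb, hab, hbc⟩ := h a ha
    obtain ⟨e, he, h1, h2⟩ := hb a hab
    exact ⟨e, he, h1, h2.trans hbc⟩

namespace Clb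

variable {d : Ordinal.{u}} {G G' : Set Ordinal.{u}}

theorem mono (h : Clb d G) (hG : ∀ c < d, c ∈ G → c ∈ G') : Clb d G' :=
  let ⟨D, h1, h2⟩ := h; ⟨D, h1, fun c hc h0 hu => hG c hc (h2 c hc h0 hu)⟩

/-- The limits of an unbounded set. -/
theorem of_unb {D : Set Ordinal.{u}} (h : Unb D d) : Clb d {c | 0 < c ∧ Unb D c} :=
  ⟨D, h, fun _ _ h0 hu => ⟨h0, hu⟩⟩

theorem limits (hd : IsSuccLimit d) : Clb d {c | IsSuccLimit c} :=
  ⟨univ, fun a ha => ⟨succ a, trivial, lt_succ a, hd.succ_lt ha⟩, fun _ _ h0 hu => hu.limit h0⟩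

theorem of_forall (hd : IsSuccLimit d) (h : ∀ c < d, c ∈ G) : Clb d G :=
  (limits hd).mono fun c hc _ => h c hc

theorem gt (hd : IsSuccLimit d) {a : Ordinal.{u}} (ha : a < d) : Clb d {c | a < c} := by
  refine ⟨Ioi a, fun b hb => ⟨succ (max a b), (le_max_left a b).trans_lt (lt_succ _),
    (le_max_right _ _).trans_lt (lt_succ _), hd.succ_lt (max_lt ha hb)⟩, fun c _ h0 hu => ?_⟩
  obtain ⟨b, hb, -, hbc⟩ := hu 0 h0
  exact lt_trans hb hbc

/-- Completeness. -/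
theorem iInter {ι : Type v} (hd : ℵ₀ < d.cof) (hι : HasCardinalLT ι d.cof)
    {G : ι → Set Ordinal.{u}} (h : ∀ i, Clb d (G i)) : Clb d {c | ∀ i, c ∈ G i} := by
  classical
  choose D hD hG using h
  have : ∀ a, ∃ b, a < d → b < d ∧ ∀ i, ∃ e ∈ D i, a < e ∧ e < b := fun a => by
    by_cases ha : a < d
    · choose e he h1 h2 using fun i => hD i a ha
      obtain ⟨b, hb, hb'⟩ := bdd_fam hι e h2
      exact ⟨b, fun _ => ⟨hb, fun i => ⟨e i, he i, h1 i, hb' i⟩⟩⟩
    · exact ⟨0, fun h => absurd h ha⟩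
  choose f hf using this
  refine ⟨{b | ∀ i, Unb (D i) b}, fun a ha => ?_, fun c hc h0 hu i =>
    hG i c hc h0 (Unb.trans (hu.mono fun b hb => hb i))⟩
  obtain ⟨b, hb, hab, -, hb'⟩ := exists_pt isRegular_aleph0 hd f (fun a ha => (hf a ha).1) ha
  refine ⟨b, fun i x hx => ?_, hab, hb⟩
  obtain ⟨c, hxc, hcb, hfc⟩ := hb' x hx
  obtain ⟨e, he, h1, h2⟩ := (hf c (hcb.trans hb)).2 i
  exact ⟨e, he, hxc.trans h1, h2.trans hfc⟩

theorem biInter {α : Type v} (hd : ℵ₀ < d.cof) {S : Set α} (hS : HasCardinalLT S d.cof)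
    {G : α → Set Ordinal.{u}} (h : ∀ i ∈ S, Clb d (G i)) : Clb d {c | ∀ i ∈ S, c ∈ G i} :=
  (iInter hd hS (G := fun i : S => G i.1) fun i => h i i.2).mono fun _ _ hc i hi => hc ⟨i, hi⟩

theorem inter (hd : ℵ₀ < d.cof) (h : Clb d G) (h' : Clb d G') : Clb d (G ∩ G') :=
  (iInter hd (small_countable hd) (G := fun b : Bool => if b then G else G')
    fun b => by cases b <;> simpa).mono fun _ _ hc => ⟨by simpa using hc true, by simpa using hc false⟩

/-- A club has points of every regular cofinality below `cof d`. -/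
theorem exists_cof {t : Cardinal.{u}} (ht : t.IsRegular) (hd : t < d.cof) (h : Clb d G)
    {a : Ordinal.{u}} (ha : a < d) : ∃ c ∈ G, a < c ∧ c < d ∧ c.cof = t := by
  classical
  obtain ⟨D, hD, hG⟩ := h
  have : ∀ a, ∃ b, a < d → b ∈ D ∧ a < b ∧ b < d := fun a => by
    by_cases ha : a < d
    · obtain ⟨b, hb⟩ := hD a ha; exact ⟨b, fun _ => hb⟩
    · exact ⟨0, fun h => absurd h ha⟩
  choose f hf using this
  obtain ⟨b, hb, hab, hbt, hb'⟩ := exists_pt ht hd f (fun a ha => (hf a ha).2.2) ha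
  refine ⟨b, hG b hb (lt_of_le_of_lt zero_le hab) fun x hx => ?_, hab, hb, hbt⟩
  obtain ⟨c, hxc, hcb, hfc⟩ := hb' x hx
  obtain ⟨h1, h2, -⟩ := hf c (hcb.trans hb)
  exact ⟨f c, h1, hxc.trans h2, hfc⟩

theorem unb (hd : ℵ₀ < d.cof) (h : Clb d G) : Unb G d := fun _ ha =>
  let ⟨c, h1, h2, h3, _⟩ := h.exists_cof isRegular_aleph0 hd ha; ⟨c, h1, h2, h3⟩

/-- Club many points of a club are limits of it. -/
theorem lim (hd : ℵ₀ < d.cof) (h : Clb d G) : Clb d {c | c ∈ G ∧ 0 < c ∧ Unb G c} :=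
  h.inter hd (of_unb (h.unb hd))

/-- Closure points of a locally bounded function. -/
theorem closed_of_bdd (hd : ℵ₀ < d.cof) {f : Ordinal.{u} → Ordinal.{u}}
    (hf : ∀ b < d, ∃ e < d, ∀ a < b, f a < e) : Clb d {c | ∀ a < c, f a < c} := by
  classical
  have : ∀ b, ∃ e, b < d → e < d ∧ ∀ a < b, f a < e := fun b => by
    by_cases hb : b < d
    · obtain ⟨e, he⟩ := hf b hb; exact ⟨e, fun _ => he⟩
    · exact ⟨0, fun h => absurd h hb⟩
  choose g hg using this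
  refine ⟨{c | ∀ a < c, f a < c}, fun a ha => ?_, fun c _ _ hu a ha => ?_⟩
  · obtain ⟨b, hb, hab, -, hb'⟩ := exists_pt isRegular_aleph0 hd g (fun a ha => (hg a ha).1) ha
    refine ⟨b, fun x hx => ?_, hab, hb⟩
    obtain ⟨c, hxc, hcb, hfc⟩ := hb' x hx
    exact ((hg c (hcb.trans hb)).2 x hxc).trans hfc
  · obtain ⟨b, hb, hab, hbc⟩ := hu a ha
    exact (hb a hab).trans hbc

/-- Closure points of a monotone function. -/
theorem closed_of_mono (hd : ℵ₀ < d.cof) {f : Ordinal.{u} → Ordinal.{u}}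
    (hm : ∀ a b, a ≤ b → b < d → f a ≤ f b) (hf : ∀ a < d, f a < d) :
    Clb d {c | ∀ a < c, f a < c} :=
  closed_of_bdd hd fun b hb => ⟨succ (f b), (limit_of_cof hd.le).succ_lt (hf b hb),
    fun a ha => (hm a b ha.le hb).trans_lt (lt_succ _)⟩

/-- Witnesses below `c`: if for all `b < d` the witnesses for `a < b` are bounded. -/
theorem wit_of_bdd (hd : ℵ₀ < d.cof) {R : Ordinal.{u} → Ordinal.{u} → Prop}
    (h : ∀ b < d, ∃ e < d, ∀ a < b, ∃ y < e, R a y) : Clb d {c | ∀ a < c, ∃ y < c, R a y} := by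
  classical
  refine (closed_of_bdd hd (f := fun a => sInf {y | R a y}) fun b hb => ?_).mono
    fun c hc h' a ha => ?_
  · obtain ⟨e, he, he'⟩ := h b hb
    refine ⟨e, he, fun a ha => ?_⟩
    obtain ⟨y, hy, hR⟩ := he' a ha
    exact (csInf_le' (show y ∈ {y | R a y} from hR)).trans_lt hy
  · obtain ⟨e, -, he'⟩ := h c hc
    obtain ⟨y, -, hR⟩ := he' a ha
    exact ⟨_, h' a ha, csInf_mem (s := {y | R a y}) ⟨y, hR⟩⟩

section Regular

variable {W : Cardinal.{u}}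

theorem cof_reg (hW : W.IsRegular) (h0 : ℵ₀ < W) : ℵ₀ < W.ord.cof := by rwa [hW.cof_ord]

/-- Closure points below a regular cardinal. -/
theorem closed (hW : W.IsRegular) (h0 : ℵ₀ < W) {f : Ordinal.{u} → Ordinal.{u}}
    (hf : ∀ a < W.ord, f a < W.ord) : Clb W.ord {c | ∀ a < c, f a < c} :=
  closed_of_bdd (cof_reg hW h0) fun b hb => by
    obtain ⟨e, he, he'⟩ := bdd_fam (d := W.ord) (by rw [hW.cof_ord]; exact small_Iio_ord hb)
      (fun a : Iio b => f a.1) fun a => hf _ (a.2.trans hb)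
    exact ⟨e, he, fun a ha => he' ⟨a, ha⟩⟩

/-- Witnesses below closure points. -/
theorem wit (hW : W.IsRegular) (h0 : ℵ₀ < W) {R : Ordinal.{u} → Ordinal.{u} → Prop}
    (h : ∀ a < W.ord, ∃ y < W.ord, R a y) : Clb W.ord {c | ∀ a < c, ∃ y < c, R a y} :=
  wit_of_bdd (cof_reg hW h0) fun b hb => by
    choose y hy hR using fun a : Iio b => h a.1 (a.2.trans hb)
    obtain ⟨e, he, he'⟩ := bdd_fam (d := W.ord) (by rw [hW.cof_ord]; exact small_Iio_ord hb) y hy
    exact ⟨e, he, fun a ha => ⟨y ⟨a, ha⟩, he' _, hR ⟨a, ha⟩⟩⟩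

/-- Diagonal intersection. -/
theorem diag (hW : W.IsRegular) (h0 : ℵ₀ < W) {G : Ordinal.{u} → Set Ordinal.{u}}
    (h : ∀ i < W.ord, Clb W.ord (G i)) : Clb W.ord {c | ∀ i < c, c ∈ G i} := by
  classical
  have hd := cof_reg hW h0
  have h' : ∀ i, ∃ D, i < W.ord → Unb D W.ord ∧ ∀ c < W.ord, 0 < c → Unb D c → c ∈ G i :=
    fun i => by
      by_cases hi : i < W.ord
      · obtain ⟨D, hD⟩ := h i hi; exact ⟨D, fun _ => hD⟩
      · exact ⟨∅, fun h => absurd h hi⟩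
  choose D hD using h'
  have := wit hW h0 (R := fun a y => ∀ i ≤ a, ∃ e ∈ D i, a < e ∧ e < y) fun a ha => by
    have hs : succ a < W.ord := (limit_of_cof hd.le).succ_lt ha
    choose e he h1 h2 using fun i : Iio (succ a) => (hD i.1 (i.2.trans hs)).1 a ha
    obtain ⟨y, hy, hy'⟩ := bdd_fam (d := W.ord) (by rw [hW.cof_ord]; exact small_Iio_ord hs) e h2
    exact ⟨y, hy, fun i hi => ⟨e ⟨i, lt_succ_of_le hi⟩, he ⟨i, lt_succ_of_le hi⟩, h1 _, hy' _⟩⟩
  refine this.mono fun c hc hw i hi => (hD i (hi.trans hc)).2 c hc (lt_of_le_of_lt zero_le hi)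
    fun a ha => ?_
  obtain ⟨y, hy, hy'⟩ := hw (max a i) (max_lt ha hi)
  obtain ⟨e, he, h1, h2⟩ := hy' i (le_max_right _ _)
  exact ⟨e, he, (le_max_left _ _).trans_lt h1, h2.trans hy⟩

/-- Two filtrations: small pieces of `A` are absorbed by `B` below club many points. -/
theorem filtr (hW : W.IsRegular) (h0 : ℵ₀ < W) {α : Type v} {A B : Ordinal.{u} → Set α}
    (hA : ∀ i < W.ord, HasCardinalLT (A i) W)
    (h : ∀ i < W.ord, ∀ x ∈ A i, ∃ j < W.ord, x ∈ B j) :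
    Clb W.ord {c | ∀ i < c, ∀ x ∈ A i, ∃ j < c, x ∈ B j} :=
  (wit hW h0 (R := fun i y => ∀ x ∈ A i, ∃ j < y, x ∈ B j) fun i hi => by
    choose j hj hB using fun x : A i => h i hi x.1 x.2
    obtain ⟨y, hy, hy'⟩ := bdd_fam (d := W.ord) (by rw [hW.cof_ord]; exact hA i hi) j hj
    exact ⟨y, hy, fun x hx => ⟨j ⟨x, hx⟩, hy' _, hB ⟨x, hx⟩⟩⟩).mono fun c _ hc i hi x hx => by
      obtain ⟨y, hy, hy'⟩ := hc i hi
      obtain ⟨j, hj, hB⟩ := hy' x hx
      exact ⟨j, hj.trans hy, hB⟩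

end Regular

end Clb

/-! ### Fat sets -/

theorem fat_iff {t : Cardinal.{u}} {d : Ordinal.{u}} {G : Set Ordinal.{u}} (ht : t ≠ 0) :
    Fat t d G ↔ Clb d {c | c.cof = t → c ∈ G} :=
  ⟨fun ⟨D, h1, h2⟩ => ⟨D, h1, fun c hc _ hu h => h2 c hc h hu⟩,
    fun ⟨D, h1, h2⟩ => ⟨D, h1, fun c hc h hu =>
      h2 c hc (cof_pos.1 (h ▸ pos_iff_ne_zero.2 ht)) hu h⟩⟩

theorem Clb.fat {t : Cardinal.{u}} {d : Ordinal.{u}} {G : Set Ordinal.{u}} (ht : t ≠ 0)
    (h : Clb d G) : Fat t d G := (fat_iff ht).2 (h.mono fun _ _ hc _ => hc)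

namespace Fat

variable {t : Cardinal.{u}} {d d' : Ordinal.{u}} {G G' : Set Ordinal.{u}}

theorem mono (h : Fat t d G) (hG : ∀ c < d, c.cof = t → c ∈ G → c ∈ G') : Fat t d G' :=
  let ⟨D, h1, h2⟩ := h; ⟨D, h1, fun c hc h0 hu => hG c hc h0 (h2 c hc h0 hu)⟩

theorem subset (h : Fat t d G) (hG : G ⊆ G') : Fat t d G' := h.mono fun _ _ _ hc => hG hc

theorem of_forall (hd : IsSuccLimit d) (h : ∀ c < d, c.cof = t → c ∈ G) : Fat t d G :=
  ⟨univ, fun a ha => ⟨succ a, trivial, lt_succ a, hd.succ_lt ha⟩, fun c hc h0 _ => h c hc h0⟩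

theorem hcof (ht : t.IsRegular) (hd : t < d.cof) : ℵ₀ < d.cof := ht.aleph0_le.trans_lt hd

theorem iInter {ι : Type v} (ht : t.IsRegular) (hd : t < d.cof) (hι : HasCardinalLT ι d.cof)
    {G : ι → Set Ordinal.{u}} (h : ∀ i, Fat t d (G i)) : Fat t d {c | ∀ i, c ∈ G i} :=
  (fat_iff ht.ne_zero).2 ((Clb.iInter (hcof ht hd) hι fun i => (fat_iff ht.ne_zero).1 (h i)).mono
    fun _ _ hc h i => hc i h)

theorem biInter {α : Type v} (ht : t.IsRegular) (hd : t < d.cof) {S : Set α}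
    (hS : HasCardinalLT S d.cof) {G : α → Set Ordinal.{u}} (h : ∀ i ∈ S, Fat t d (G i)) :
    Fat t d {c | ∀ i ∈ S, c ∈ G i} :=
  (iInter ht hd hS (G := fun i : S => G i.1) fun i => h i i.2).subset fun _ hc i hi => hc ⟨i, hi⟩

theorem inter (ht : t.IsRegular) (hd : t < d.cof) (h : Fat t d G) (h' : Fat t d G') :
    Fat t d (G ∩ G') :=
  (fat_iff ht.ne_zero).2 ((((fat_iff ht.ne_zero).1 h).inter (hcof ht hd)
    ((fat_iff ht.ne_zero).1 h')).mono fun _ _ hc h => ⟨hc.1 h, hc.2 h⟩)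

theorem interC (ht : t.IsRegular) (hd : t < d.cof) (h : Fat t d G) (h' : Clb d G') :
    Fat t d (G ∩ G') := h.inter ht hd (h'.fat ht.ne_zero)

theorem exists_gt (ht : t.IsRegular) (hd : t < d.cof) (h : Fat t d G) {a : Ordinal.{u}}
    (ha : a < d) : ∃ c ∈ G, a < c ∧ c < d ∧ c.cof = t :=
  let ⟨c, h1, h2, h3, h4⟩ := ((fat_iff ht.ne_zero).1 h).exists_cof ht hd ha
  ⟨c, h1 h4, h2, h3, h4⟩

theorem unb (ht : t.IsRegular) (hd : t < d.cof) (h : Fat t d G) : Unb G d := fun _ ha =>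
  let ⟨c, h1, h2, h3, _⟩ := h.exists_gt ht hd ha; ⟨c, h1, h2, h3⟩

theorem gt (ht : t.IsRegular) (hd : t < d.cof) {a : Ordinal.{u}} (ha : a < d) :
    Fat t d {c | a < c} := (Clb.gt (limit_of_cof (hcof ht hd).le) ha).fat ht.ne_zero

/-- Almost all points of a fat set are limits of it. -/
theorem lim (ht : t.IsRegular) (hd : t < d.cof) (h : Fat t d G) :
    Fat t d {c | c ∈ G ∧ Unb G c} :=
  (h.interC ht hd (Clb.of_unb (h.unb ht hd))).subset fun _ hc => ⟨hc.1, hc.2.2⟩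

theorem diag {W : Cardinal.{u}} (ht : t.IsRegular) (hW : W.IsRegular) (h0 : t < W)
    {G : Ordinal.{u} → Set Ordinal.{u}} (h : ∀ i < W.ord, Fat t W.ord (G i)) :
    Fat t W.ord {c | ∀ i < c, c ∈ G i} :=
  (fat_iff ht.ne_zero).2 ((Clb.diag hW (ht.aleph0_le.trans_lt h0)
    fun i hi => (fat_iff ht.ne_zero).1 (h i hi)).mono fun _ _ hc h i hi => hc i hi h)

/-- Pressing down: if `f` is regressive on `S` and each fibre of `f` on `S` misses a fat set, then
so does `S`. -/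
theorem fodor {W : Cardinal.{u}} (ht : t.IsRegular) (hW : W.IsRegular) (h0 : t < W)
    {S : Set Ordinal.{u}} {f : Ordinal.{u} → Ordinal.{u}} (hS : ¬ Fat t W.ord Sᶜ)
    (hf : ∀ c ∈ S, c < W.ord → c.cof = t → f c < c) :
    ∃ i < W.ord, ¬ Fat t W.ord {c | c ∈ S ∧ f c = i}ᶜ := by
  by_contra h
  push Not at h
  exact hS ((diag ht hW h0 h).mono fun c hc hct h' hcS => h' _ (hf c hcS hc hct) ⟨hcS, rfl⟩)

/-- A set that meets every fat set meets every fat set above any bound. -/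
theorem meet (ht : t.IsRegular) (hd : t < d.cof) {S : Set Ordinal.{u}} (hS : ¬ Fat t d Sᶜ)
    (h : Fat t d G) : ∃ c ∈ S, c ∈ G ∧ c < d ∧ c.cof = t := by
  have _ := ht
  have _ := hd
  by_contra h'
  exact hS (h.mono fun c hc hct hG hcS => h' ⟨c, hcS, hG, hc, hct⟩)

end Fat

/-! ### Cofinal maps -/

namespace CofMap

variable {t : Cardinal.{u}} {d d' d'' : Ordinal.{u}} {G : Set Ordinal.{u}}
  {f g : Ordinal.{u} → Ordinal.{u}}

theorem of_strictMonoOn (hd : IsSuccLimit d) (hm : StrictMonoOn f (Iio d))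
    (h1 : ∀ a < d, f a < d') (h2 : ∀ y < d', ∃ a < d, y ≤ f a) : CofMap f d d' :=
  ⟨fun _ _ hab hb => hm.monotoneOn (hab.trans_lt hb) hb hab, h1, fun y hy =>
    let ⟨a, ha, hya⟩ := h2 y hy
    ⟨succ a, hd.succ_lt ha, hya.trans_lt (hm ha (hd.succ_lt ha) (lt_succ a))⟩⟩

theorem comp (hf : CofMap f d d') (hg : CofMap g d' d'') : CofMap (g ∘ f) d d'' :=
  ⟨fun a b hab hb => hg.mono _ _ (hf.mono a b hab hb) (hf.maps b hb),
    fun a ha => hg.maps _ (hf.maps a ha), fun y hy => by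
      obtain ⟨a, ha, hya⟩ := hg.cof y hy
      obtain ⟨b, hb, hab⟩ := hf.cof a ha
      exact ⟨b, hb, hya.trans_le (hg.mono _ _ hab.le (hf.maps b hb))⟩⟩

theorem lt_of_lt (hf : CofMap f d d') {a b : Ordinal.{u}} (ha : a < d) (h : f a < f b) :
    a < b := by
  by_contra h'
  exact absurd (hf.mono b a (not_lt.1 h') ha) (not_le.2 h)

/-- Below club many points the values of `f` reach a given family of bounded targets. -/
theorem reach (hd : ℵ₀ < d.cof) (hf : CofMap f d d') {g : Ordinal.{u} → Ordinal.{u}}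
    (hm : ∀ a b, a ≤ b → b < d → g a ≤ g b) (hg : ∀ a < d, g a < d') :
    Clb d {c | ∀ a < c, ∃ a' < c, g a < f a'} :=
  Clb.wit_of_bdd hd fun b hb => by
    obtain ⟨e, he, he'⟩ := hf.cof _ (hg b hb)
    exact ⟨succ e, (limit_of_cof hd.le).succ_lt he,
      fun a ha => ⟨e, lt_succ e, (hm a b ha.le hb).trans_lt he'⟩⟩

/-- At club many points `c`, the map is strictly below `f c` on `c`. -/
theorem strict (hd : ℵ₀ < d.cof) (hf : CofMap f d d') : Clb d {c | ∀ a < c, f a < f c} :=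
  (hf.reach hd hf.mono hf.maps).mono fun _ hc h a ha =>
    let ⟨_, ha', h'⟩ := h a ha; h'.trans_le (hf.mono _ _ ha'.le hc)

/-- Two cofinal maps agree at club many common continuity points. -/
theorem agree_clb (hd : ℵ₀ < d.cof) (hf : CofMap f d d') (hg : CofMap g d d') :
    Clb d {c | ContAt f c → ContAt g c → f c = g c} :=
  ((hf.reach hd hg.mono hg.maps).inter hd (hg.reach hd hf.mono hf.maps)).mono
    fun c hc h h1 h2 => by
      apply le_antisymm <;> by_contra h' <;> rw [not_le] at h'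
      · obtain ⟨a, ha, h3⟩ := h1 _ h'
        obtain ⟨a', ha', h4⟩ := h.2 a ha
        exact absurd ((h3.trans h4).trans_le (hg.mono _ _ ha'.le hc)) (lt_irrefl _)
      · obtain ⟨a, ha, h3⟩ := h2 _ h'
        obtain ⟨a', ha', h4⟩ := h.1 a ha
        exact absurd ((h3.trans h4).trans_le (hf.mono _ _ ha'.le hc)) (lt_irrefl _)

theorem agree (ht : t.IsRegular) (hd : t < d.cof) (hf : CofMap f d d') (hg : CofMap g d d')
    (cf : Fat t d {c | ContAt f c}) (cg : Fat t d {c | ContAt g c}) :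
    Fat t d {c | f c = g c} :=
  ((cf.inter ht hd cg).interC ht hd (hf.agree_clb (Fat.hcof ht hd) hg)).subset
    fun _ h => h.2 h.1.1 h.1.2

theorem id' (hd : IsSuccLimit d) : CofMap id d d :=
  ⟨fun _ _ h _ => h, fun _ h => h, fun y hy => ⟨succ y, hd.succ_lt hy, lt_succ y⟩⟩

/-- Fixed points. -/
theorem fix (ht : t.IsRegular) (hd : t < d.cof) (hf : CofMap f d d)
    (cf : Fat t d {c | ContAt f c}) : Fat t d {c | f c = c} :=
  have hl := limit_of_cof (Fat.hcof ht hd).le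
  hf.agree ht hd (id' hl) cf (((Clb.limits hl).fat ht.ne_zero).subset
    fun _ hc y hy => ⟨succ y, hc.succ_lt hy, lt_succ y⟩)

/-- Restriction to a continuity point. -/
theorem restrict (hf : CofMap f d d') {c : Ordinal.{u}} (hc : c < d) (h1 : ∀ a < c, f a < f c)
    (h2 : ContAt f c) : CofMap f c (f c) :=
  ⟨fun a b hab hb => hf.mono a b hab (hb.trans hc), h1, h2⟩

/-- Pull back of an unbounded set: at club many continuity points the value is a limit of `D`. -/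
theorem unb_clb (hd : ℵ₀ < d.cof) (hf : CofMap f d d') {D : Set Ordinal.{u}} (hD : Unb D d') :
    Clb d {c | ∀ a < c, ∃ a' < c, ∃ e ∈ D, f a < e ∧ e < f a'} :=
  Clb.wit_of_bdd hd fun b hb => by
    obtain ⟨e, he, h1, h2⟩ := hD _ (hf.maps b hb)
    obtain ⟨a', ha', h3⟩ := hf.cof e h2
    exact ⟨succ a', (limit_of_cof hd.le).succ_lt ha', fun a ha =>
      ⟨a', lt_succ _, e, he, (hf.mono a b ha.le hb).trans_lt h1, h3⟩⟩

/-- Pull back of a club. -/
theorem preimage_clb (hd : ℵ₀ < d.cof) (hf : CofMap f d d') (hG : Clb d' G) :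
    Clb d {c | ContAt f c → f c ∈ G} := by
  obtain ⟨D, hD, hG⟩ := hG
  refine ((hf.unb_clb hd hD).inter hd (Clb.gt (limit_of_cof hd.le)
    (limit_of_cof hd.le).bot_lt)).mono fun c hc h hcont => ?_
  have hu : ∀ a < c, ∃ e ∈ D, f a < e ∧ e < f c := fun a ha =>
    let ⟨a', ha', e, he, h1, h2⟩ := h.1 a ha; ⟨e, he, h1, h2.trans_le (hf.mono _ _ ha'.le hc)⟩
  refine hG _ (hf.maps c hc) ?_ fun y hy => ?_
  · obtain ⟨e, -, -, h2⟩ := hu ⊥ h.2
    exact lt_of_le_of_lt zero_le h2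
  · obtain ⟨a, ha, h1⟩ := hcont y hy
    obtain ⟨e, he, h2, h3⟩ := hu a ha
    exact ⟨e, he, h1.trans h2, h3⟩

/-- Pull back of a fat set. -/
theorem preimage (ht : t.IsRegular) (hd : t < d.cof) (hf : CofMap f d d')
    (cf : Fat t d {c | ContAt f c}) (hG : Fat t d' G) : Fat t d {c | f c ∈ G} :=
  have h0 := Fat.hcof ht hd
  ((cf.interC ht hd (hf.preimage_clb h0 ((fat_iff ht.ne_zero).1 hG))).interC ht hd
    (hf.strict h0)).mono fun _ hc hct h =>
      h.1.2 h.1.1 ((hf.restrict hc h.2 h.1.1).cof_eq.symm.trans hct)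

/-- Push forward of a fat set. -/
theorem image (hf : CofMap f d d') (hG : Fat t d {c | c ∈ G ∧ ContAt f c}) :
    Fat t d' {y | ∃ c ∈ G, c < d ∧ c.cof = t ∧ f c = y} := by
  obtain ⟨D, hD, hG⟩ := hG
  refine ⟨f '' (D ∩ Iio d), fun y hy => ?_, fun y hy hyt hu => ?_⟩
  · obtain ⟨a, ha, h1⟩ := hf.cof y hy
    obtain ⟨b, hb, h2, h3⟩ := hD a ha
    exact ⟨f b, ⟨b, ⟨hb, h3⟩, rfl⟩, h1.trans_le (hf.mono _ _ h2.le h3), hf.maps b h3⟩
  · obtain ⟨a0, ha0, h0⟩ := hf.cof y hy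
    have hne : {a | y ≤ f a}.Nonempty := ⟨a0, h0.le⟩
    set c := sInf {a | y ≤ f a} with hc
    have hcd : c < d := (csInf_le' (show a0 ∈ {a | y ≤ f a} from h0.le)).trans_lt ha0
    have hyc : y ≤ f c := csInf_mem hne
    have hlt : ∀ a < c, f a < y := fun a ha =>
      not_le.1 (notMem_of_lt_csInf' (s := {a | y ≤ f a}) ha)
    have key : ∀ z < y, ∃ b ∈ D, b < c ∧ z < f b := fun z hz => by
      obtain ⟨_, ⟨b, hb, rfl⟩, h1, h2⟩ := hu z hz
      exact ⟨b, hb.1, hf.lt_of_lt hb.2 (h2.trans_le hyc), h1⟩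
    have hcm : CofMap f c y := ⟨fun a b hab hb => hf.mono a b hab (hb.trans hcd), hlt,
      fun z hz => let ⟨b, _, h1, h2⟩ := key z hz; ⟨b, h1, h2⟩⟩
    have hct : c.cof = t := hcm.cof_eq.trans hyt
    obtain ⟨h1, h2⟩ := hG c hcd hct fun a ha => by
      obtain ⟨b, hb, h1, h2⟩ := key _ (hlt a ha)
      exact ⟨b, hb, hf.lt_of_lt (ha.trans hcd) h2, h1⟩
    refine ⟨c, h1, hcd, hct, le_antisymm ?_ hyc⟩
    by_contra h3
    obtain ⟨a, ha, h4⟩ := h2 y (not_le.1 h3)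
    exact absurd (h4.trans (hlt a ha)) (lt_irrefl _)

/-- A cofinal map whose range is fat is continuous at a fat set. -/
theorem cont_of_range (ht : t.IsRegular) (hd : t < d.cof) (hf : CofMap f d d')
    (hm : StrictMonoOn f (Iio d)) (hr : Fat t d' {y | ∃ c < d, f c = y}) :
    Fat t d {c | ContAt f c} := by
  have h0 := Fat.hcof ht hd
  obtain ⟨D, hD, hr⟩ := hr
  refine ((hf.unb_clb h0 hD).fat ht.ne_zero).mono fun c hc hct h => ?_
  have hc0 : 0 < c := cof_pos.1 (hct ▸ ht.pos)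
  have hne : {z | ∀ a < c, f a < z}.Nonempty := ⟨f c, fun a ha => hm (ha.trans hc) hc ha⟩
  set y := sInf {z | ∀ a < c, f a < z} with hy
  have hy1 : ∀ a < c, f a < y := csInf_mem hne
  have hy2 : y ≤ f c := csInf_le' fun a ha => hm (ha.trans hc) hc ha
  have hy3 : ∀ z < y, ∃ a < c, z < f a := fun z hz => by
    have := notMem_of_lt_csInf' hz
    simp only [mem_ofPred_eq, not_forall, not_lt] at this
    obtain ⟨a, ha, h1⟩ := this
    obtain ⟨a', ha', e, -, h2, h3⟩ := h a ha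
    exact ⟨a', ha', h1.trans_lt (h2.trans h3)⟩
  have hcm : CofMap f c y := ⟨fun a b hab hb => hf.mono a b hab (hb.trans hc), hy1, hy3⟩
  obtain ⟨c', hc', hfc⟩ := hr y (hy2.trans_lt (hf.maps c hc)) (hcm.cof_eq.symm.trans hct)
    fun z hz => by
      obtain ⟨a, ha, h1⟩ := hy3 z hz
      obtain ⟨a', ha', e, he, h2, h3⟩ := h a ha
      exact ⟨e, he, h1.trans h2, h3.trans (hy1 a' ha')⟩
  have hcc : c ≤ c' := by
    by_contra h1
    exact absurd (hfc ▸ hy1 c' (not_le.1 h1)) (lt_irrefl _)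
  have : f c = y := le_antisymm (hfc ▸ hf.mono _ _ hcc hc') hy2
  intro z hz
  exact hy3 z (this ▸ hz)

/-- Continuity of a composition. -/
theorem contAt_comp (hf : CofMap f d d') (hg : CofMap g d' d'') {c : Ordinal.{u}} (hc : c < d)
    (h1 : ContAt f c) (h2 : ContAt g (f c)) : ContAt (g ∘ f) c := fun y hy => by
  obtain ⟨a, ha, h3⟩ := h2 y hy
  obtain ⟨b, hb, h4⟩ := h1 a ha
  exact ⟨b, hb, h3.trans_le (hg.mono _ _ h4.le (hf.maps b (hb.trans hc)))⟩

theorem cont_comp (ht : t.IsRegular) (hd : t < d.cof) (hf : CofMap f d d') (hg : CofMap g d' d'')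
    (cf : Fat t d {c | ContAt f c}) (cg : Fat t d' {c | ContAt g c}) :
    Fat t d {c | ContAt (g ∘ f) c} :=
  (cf.inter ht hd (hf.preimage ht hd cf cg)).mono fun _ hc _ h => hf.contAt_comp hg hc h.1 h.2

end CofMap

end Pool.Agent.KM
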