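import Pool.Agent.Lib.MP_5c0be7_lc.T.Ae
import Pool.Agent.Lib.MP_5c0be7_lc.T.Fat

/-! Project KM: filtrations through the filter of small sets, projections to fat sets, and the
increasing enumeration of a set of ordinals. -/

namespace Pool.Agent.KM

open Ordinal Cardinal Set Filter Order

universe u

theorem sm_iff {O : Cardinal.{u}} {X : Set Ordinal.{u}} : Sm O X ↔ HasCardinalLT X O := by
  unfold Sm HasCardinalLT
  rw [Cardinal.lift_id'.{u, u + 1}]

theorem Reg.hcof {O : Cardinal.{u}} (hO : Reg O) : ℵ₀ < O.ord.cof := by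
  rw [hO.reg.cof_ord]; exact hO.unc

theorem Reg.limit {O : Cardinal.{u}} (hO : Reg O) : IsSuccLimit O.ord := limit_of_cof hO.hcof.le

theorem Cut.unique {O : Cardinal.{u}} {X : Set Ordinal.{u}} {e e' : Ordinal.{u}} (h : Cut O X e)
    (h' : Cut O X e') : e = e' :=
  le_antisymm (not_lt.1 fun c => lt_irrefl _ ((h'.2 e' h'.1).1 ((h.2 e' h'.1).2 c)))
    (not_lt.1 fun c => lt_irrefl _ ((h.2 e h.1).1 ((h'.2 e h.1).2 c)))

theorem Sm.bddAbove {O : Cardinal.{u}} {X : Set Ordinal.{u}} (h : Sm O X) : BddAbove X := by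
  have : Small.{u} X := (sm_iff.1 h).small
  exact Ordinal.bddAbove_of_small

theorem Sm.sSup_lt {O : Cardinal.{u}} {th : Ordinal.{u}} {X : Set Ordinal.{u}} (h : Sm O X)
    (hc : O ≤ th.cof) (e : X ⊆ Iio th) : sSup X < th :=
  let ⟨_, hb, hb'⟩ := h.bdd hc e; (csSup_le' fun _ hx => (hb' hx).le).trans_lt hb

section

variable {O : Cardinal.{u}} (hO : Reg O) {th : Ordinal.{u}}

/-- A continuous chain of length `O` through a set of the filter. -/
theorem ae_filtr (hth : 0 < th) {P : Set Ordinal.{u} → Prop} (h : ∀ᶠ X in aeF hO th, P X)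
    (G : Ordinal.{u} → Set Ordinal.{u} → Set Ordinal.{u})
    (hG : ∀ i < O.ord, ∀ X, Sm O X → X ⊆ Iio th → Sm O (G i X) ∧ G i X ⊆ Iio th) :
    ∃ C : Ordinal.{u} → Set Ordinal.{u}, Monotone C ∧ (∀ i < O.ord, Sm O (C i) ∧ C i ⊆ Iio th) ∧
      (∀ i, G i (C i) ⊆ C (i + 1)) ∧ (∀ c, IsSuccLimit c → ∀ x ∈ C c, ∃ i < c, x ∈ C i) ∧
      ∀ c < O.ord, ℵ₀ < c.cof → P (C c) := by
  obtain ⟨g, a, b⟩ := h
  let F : Ordinal.{u} → Set Ordinal.{u} → Set Ordinal.{u} := fun i X =>
    X ∪ G i X ∪ ⋃ z : ULift.{u + 1} ℕ → X, g fun n => z ⟨n⟩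
  let C : Ordinal.{u} → Set Ordinal.{u} := (wellFounded_lt (α := Ordinal.{u})).fix
    fun i r => {0} ∪ ⋃ j : Iio i, F j (r j j.2)
  have e : ∀ i, C i = {0} ∪ ⋃ j : Iio i, F j (C j) := fun i => WellFounded.fix_eq _ _ _
  have s : ∀ j i, j < i → F j (C j) ⊆ C i := fun j i hj => by
    rw [e i]
    exact (subset_iUnion (fun j : Iio i => F j (C j)) ⟨j, hj⟩).trans subset_union_right
  have m : Monotone C := fun j i hj => by
    rcases hj.eq_or_lt with rfl | hj
    exacts [le_rfl, (subset_union_left.trans subset_union_left).trans (s j i hj)]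
  have z0 : ∀ i, 0 ∈ C i := fun i => by rw [e]; exact Or.inl rfl
  have k : ∀ i < O.ord, Sm O (C i) ∧ C i ⊆ Iio th := fun i => by
    induction i using WellFoundedLT.induction with
    | ind i ih =>
      intro hi
      have q : ∀ j : Iio i, Sm O (F j (C j)) ∧ F j (C j) ⊆ Iio th := fun j => by
        have hj := lt_trans j.2 hi
        obtain ⟨q1, q2⟩ := ih j j.2 hj
        refine ⟨(q1.union hO (hG _ hj _ q1 q2).1).union hO (Sm.iUnion hO ?_ fun z => (a _).1),
          union_subset (union_subset q2 (hG _ hj _ q1 q2).2) (iUnion_subset fun z => (a _).2)⟩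
        rw [← power_def, mk_uLift, mk_nat, lift_aleph0]
        exact hO.lift.pow _ q1
      rw [e i]
      exact ⟨(Sm.of_countable hO (countable_singleton _)).union hO
        (Sm.iUnion hO (sm_Iio.2 hi) fun j => (q j).1),
        union_subset (singleton_subset_iff.2 hth) (iUnion_subset fun j => (q j).2)⟩
  have ct : ∀ c, IsSuccLimit c → ∀ x ∈ C c, ∃ i < c, x ∈ C i := fun c hc x hx => by
    rw [e c] at hx
    rcases hx with hx | hx
    · exact ⟨0, hc.bot_lt, hx ▸ z0 0⟩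
    · obtain ⟨j, hj⟩ := mem_iUnion.1 hx
      exact ⟨j + 1, hc.add_one_lt j.2, s j _ (lt_add_one _) hj⟩
  refine ⟨C, m, k, fun i => (subset_union_right.trans subset_union_left).trans
    (s i _ (lt_add_one i)), ct, fun c hc h0 => b _ (k c hc).1 (k c hc).2 ⟨0, z0 c⟩ fun z hz => ?_⟩
  choose i hi hz using fun n => ct c (limit_of_cof h0.le) _ (hz n)
  obtain ⟨l, hl, hl'⟩ := bdd_fam (small_countable h0) i hi
  refine Subset.trans ?_ (subset_union_right.trans (s l c hl))
  exact subset_iUnion (fun z : ULift.{u + 1} ℕ → C l => g fun n => z ⟨n⟩)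
    fun n => ⟨z n.down, m (hl' n.down).le (hz _)⟩

/-- In a continuous chain that exhausts `O`, club many `c` are the cut of the `c`-th set. -/
theorem cut_clb {C : Ordinal.{u} → Set Ordinal.{u}} (hO : Reg O)
    (k : ∀ i < O.ord, Sm O (C i)) (m : Monotone C) (h : ∀ i < O.ord, ∃ j < O.ord, i ∈ C j)
    (ct : ∀ c, IsSuccLimit c → ∀ x ∈ C c, ∃ i < c, x ∈ C i) : Clb O.ord {c | Cut O (C c) c} := by
  have h1 := Clb.filtr hO.reg hO.unc (A := fun i => C i ∩ Iio O.ord) (B := fun j => Iio j)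
    (fun i hi => sm_iff.1 ((k i hi).mono inter_subset_left))
    fun i _ x hx => ⟨succ x, hO.limit.succ_lt hx.2, lt_succ x⟩
  refine ((h1.inter hO.hcof (Clb.wit hO.reg hO.unc h)).inter hO.hcof
    (Clb.limits hO.limit)).mono fun c hc h => ⟨hc, fun a ha => ⟨fun x => ?_, fun x => ?_⟩⟩
  · obtain ⟨i, hi, hx⟩ := ct c h.2 a x
    obtain ⟨j, hj, hx⟩ := h.1.1 i hi a ⟨hx, ha⟩
    exact lt_trans hx hj
  · obtain ⟨j, hj, hx⟩ := h.1.2 a x
    exact m hj.le hx

/-- A continuous chain of length `O` that exhausts `O` and absorbs a given sequence. -/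
theorem ae_filtr_seq (hth : O.ord ≤ th) {P : Set Ordinal.{u} → Prop}
    (h : ∀ᶠ X in aeF hO th, P X) (s : Ordinal.{u} → Ordinal.{u}) (hs : ∀ i < O.ord, s i < th) :
    ∃ C : Ordinal.{u} → Set Ordinal.{u}, Monotone C ∧ (∀ i < O.ord, Sm O (C i) ∧ C i ⊆ Iio th) ∧
      (∀ i, s i ∈ C (i + 1)) ∧ (∀ c, IsSuccLimit c → ∀ x ∈ C c, ∃ i < c, x ∈ C i) ∧
      Clb O.ord {c | Cut O (C c) c} ∧ ∀ c < O.ord, ℵ₀ < c.cof → P (C c) := by
  obtain ⟨C, m, k, g, ct, p⟩ := ae_filtr hO (hO.limit.bot_lt.trans_le hth) h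
    (fun i _ => {i, s i}) fun i hi _ _ _ => ⟨Sm.of_countable hO (Set.toFinite _).countable,
      insert_subset (hi.trans_le hth) (singleton_subset_iff.2 (hs i hi))⟩
  exact ⟨C, m, k, fun i => g i (Or.inr rfl), ct, cut_clb hO (fun i hi => (k i hi).1) m
    (fun i hi => ⟨i + 1, hO.limit.add_one_lt hi, g i (Or.inl rfl)⟩) ct, p⟩

/-- Projection to the cut. -/
theorem ae_proj_cut {t : Cardinal.{u}} (h0 : ℵ₀ < t) (hth : O.ord ≤ th)
    {P : Set Ordinal.{u} → Prop} (h : ∀ᶠ X in aeF hO th, P X) :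
    Fat t O.ord {e | ∃ X, P X ∧ Cut O X e} := by
  obtain ⟨C, -, -, -, -, c, p⟩ := ae_filtr_seq hO hth h id fun _ hi => hi.trans_le hth
  exact (c.fat (aleph0_pos.trans h0).ne').mono fun e he het x => ⟨_, p e he (het ▸ h0), x⟩

theorem ex_cof {t : Cardinal.{u}} (ht : t.IsRegular) (h0 : ℵ₀ < t) (h1 : t < O)
    (hth : O.ord ≤ th) {P : Set Ordinal.{u} → Prop} (h : ∀ᶠ X in aeF hO th, P X) :
    ∃ X e, P X ∧ Cut O X e ∧ e.cof = t := by
  obtain ⟨e, ⟨X, a, b⟩, -, -, c⟩ := (ae_proj_cut hO h0 hth h).exists_gt ht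
    (by rwa [hO.reg.cof_ord]) hO.limit.bot_lt
  exact ⟨X, e, a, b, c⟩

/-- The cut is almost always a limit of a given unbounded set. -/
theorem ae_cut_unb (hth : O.ord ≤ th) {D : Set Ordinal.{u}} (hD : Unb D O.ord) :
    ∀ᶠ X in aeF hO th, ∀ e, Cut O X e → 0 < e ∧ Unb D e := by
  filter_upwards [ae_mem hO (hO.limit.bot_lt.trans_le hth),
    ae_wit hO (R := fun a b => b ∈ D ∧ a < b ∧ b < O.ord)] with X z w e he
  refine ⟨(he.2 _ hO.limit.bot_lt).1 z, fun a ha => ?_⟩
  obtain ⟨b, h1, h2, h3⟩ := hD a (ha.trans he.1)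
  obtain ⟨b, hX, h1, h2, h3⟩ := w a ((he.2 a (ha.trans he.1)).2 ha) ⟨b, h3.trans_le hth, h1, h2, h3⟩
  exact ⟨b, h1, h2, (he.2 b h3).1 hX⟩

theorem ae_cut_clb (hth : O.ord ≤ th) {G : Set Ordinal.{u}} (hG : Clb O.ord G) :
    ∀ᶠ X in aeF hO th, ∀ e, Cut O X e → e ∈ G := by
  obtain ⟨D, hD, hG⟩ := hG
  filter_upwards [ae_cut_unb hO hth hD] with X h e he using hG e he.1 (h e he).1 (h e he).2

theorem ae_cut_fat {t : Cardinal.{u}} (hth : O.ord ≤ th) {G : Set Ordinal.{u}}
    (hG : Fat t O.ord G) : ∀ᶠ X in aeF hO th, ∀ e, Cut O X e → e.cof = t → e ∈ G := by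
  obtain ⟨D, hD, hG⟩ := hG
  filter_upwards [ae_cut_unb hO hth hD] with X h e he ht using hG e he.1 ht (h e he).2

/-- The set `X` is almost always cofinal in its supremum through a given unbounded set. -/
theorem ae_sup_unb (hth : 0 < th) {D : Set Ordinal.{u}} (hD : Unb D th) :
    ∀ᶠ X in aeF hO th, 0 < sSup X ∧ Unb (D ∩ X) (sSup X) := by
  filter_upwards [ae_basic hO, ae_mem hO hth,
    ae_wit hO (R := fun a b => b ∈ D ∧ a < b)] with X ⟨sm, sub, _⟩ z w
  have key : ∀ a ∈ X, ∃ b ∈ D ∩ X, a < b := fun a ha => by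
    obtain ⟨b, h1, h2, h3⟩ := hD a (sub ha)
    obtain ⟨b, hX, h1, h2⟩ := w a ha ⟨b, h3, h1, h2⟩
    exact ⟨b, ⟨h1, hX⟩, h2⟩
  have lt : ∀ a ∈ X, a < sSup X := fun a ha =>
    let ⟨_, hb, h⟩ := key a ha; h.trans_le (le_csSup sm.bddAbove hb.2)
  refine ⟨lt 0 z, fun a ha => ?_⟩
  obtain ⟨x, hx, hax⟩ := (lt_csSup_iff' sm.bddAbove).1 ha
  obtain ⟨b, hb, h⟩ := key x hx
  exact ⟨b, hb, hax.trans h, lt b hb.2⟩

theorem ae_sup_lt (hc : O ≤ th.cof) : ∀ᶠ X in aeF hO th, sSup X < th := by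
  filter_upwards [ae_basic hO] with X ⟨sm, sub, _⟩ using sm.sSup_lt hc sub

theorem ae_sup_clb (hc : O ≤ th.cof) {G : Set Ordinal.{u}} (hG : Clb th G) :
    ∀ᶠ X in aeF hO th, sSup X ∈ G := by
  obtain ⟨D, hD, hG⟩ := hG
  filter_upwards [ae_sup_lt hO hc,
    ae_sup_unb hO (limit_of_cof (hO.unc.le.trans hc)).bot_lt hD] with X a b
  exact hG _ a b.1 (b.2.mono inter_subset_left)

theorem ae_sup_fat {t : Cardinal.{u}} (hc : O ≤ th.cof) {G : Set Ordinal.{u}} (hG : Fat t th G) :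
    ∀ᶠ X in aeF hO th, (sSup X).cof = t → sSup X ∈ G := by
  obtain ⟨D, hD, hG⟩ := hG
  filter_upwards [ae_sup_lt hO hc,
    ae_sup_unb hO (limit_of_cof (hO.unc.le.trans hc)).bot_lt hD] with X a b ht
  exact hG _ a ht (b.2.mono inter_subset_left)

theorem ord_le_of_cof {O : Cardinal.{u}} {th : Ordinal.{u}} (hc : O ≤ th.cof) : O.ord ≤ th :=
  (ord_le_ord.2 hc).trans (ord_cof_le th)

/-- If `cof th < O`, almost every set is cofinal in `th`. -/
theorem ae_cofinal (hc : th.cof < O) : ∀ᶠ X in aeF hO th, ∀ a < th, ∃ x ∈ X, a ≤ x := by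
  obtain ⟨s, -, h1, h2⟩ := exists_cof_seq th
  filter_upwards [ae_sub hO ((sm_Iio.2 (ord_lt_ord.2 hc)).image s)
    (image_subset_iff.2 fun i hi => h1 i hi)] with X h a ha
  obtain ⟨i, hi, hi'⟩ := h2 a ha
  exact ⟨s i, h ⟨i, hi, rfl⟩, hi'⟩

/-- If `cof b < O` and `b` is a limit ordinal `≤ th`, almost every set is cofinal in `b`. -/
theorem ae_unb {b : Ordinal.{u}} (hb : b ≤ th) (hl : IsSuccPrelimit b) (hc : b.cof < O) :
    ∀ᶠ X in aeF hO th, Unb X b := by
  obtain ⟨s, -, h1, h2⟩ := exists_cof_seq b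
  filter_upwards [ae_sub hO ((sm_Iio.2 (ord_lt_ord.2 hc)).image s)
    (image_subset_iff.2 fun i hi => (h1 i hi).trans_le hb)] with X h a ha
  obtain ⟨i, hi, hi'⟩ := h2 _ (hl.succ_lt ha)
  exact ⟨s i, h ⟨i, hi, rfl⟩, (lt_succ a).trans_le hi', h1 i hi⟩

/-- Both the cut and the supremum can be given cofinality `t`. -/
theorem ex_cof2 {t : Cardinal.{u}} (ht : t.IsRegular) (h0 : ℵ₀ < t) (h1 : t < O)
    (hc : O ≤ th.cof) {P : Set Ordinal.{u} → Prop} (h : ∀ᶠ X in aeF hO th, P X) :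
    ∃ X e, P X ∧ Cut O X e ∧ e.cof = t ∧ (sSup X).cof = t := by
  have hth := ord_le_of_cof hc
  have hl := limit_of_cof (hO.unc.le.trans hc)
  obtain ⟨C, m, k, g, ct, p⟩ := ae_filtr hO hl.bot_lt h (fun i X => {i, sSup X + 1})
    fun i hi X a b => ⟨Sm.of_countable hO (Set.toFinite _).countable,
      insert_subset (hi.trans_le hth) (singleton_subset_iff.2 (hl.add_one_lt (a.sSup_lt hc b)))⟩
  obtain ⟨e, he, -, heO, het⟩ := (cut_clb hO (fun i hi => (k i hi).1) m
    (fun i hi => ⟨i + 1, hO.limit.add_one_lt hi, g i (Or.inl rfl)⟩) ct).exists_cof ht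
    (by rwa [hO.reg.cof_ord]) hO.limit.bot_lt
  have el : IsSuccLimit e := limit_of_cof (het ▸ h0.le)
  refine ⟨C e, e, p e heO (het ▸ h0), he, het, ?_⟩
  have : CofMap (fun i => sSup (C i)) e (sSup (C e)) := by
    refine ⟨fun a b hab hb => csSup_le_csSup' (k b (hb.trans heO)).1.bddAbove (m hab),
      fun a ha => ?_, fun y hy => ?_⟩
    · exact (lt_add_one _).trans_le (le_csSup (k e heO).1.bddAbove
        (m (el.add_one_lt ha).le (g a (Or.inr rfl))))
    · obtain ⟨x, hx, hyx⟩ := (lt_csSup_iff' (k e heO).1.bddAbove).1 hy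
      obtain ⟨i, hi, hx⟩ := ct e el x hx
      exact ⟨i, hi, hyx.trans_le (le_csSup (k i (hi.trans heO)).1.bddAbove hx)⟩
  exact this.cof_eq.symm.trans het

include hO in
/-- Countable sequences below an ordinal of size at most `O`. -/
theorem small_seq {b : Ordinal.{u}} (hb : b < (succ O).ord) :
    HasCardinalLT (ℕ → Iio b) (succ O) := by
  have : Fact (succ O).IsRegular := ⟨isRegular_succ hO.unc.le⟩
  have h1 : HasCardinalLT (Σ c : Iio O.ord, ℕ → Iio c.1) (succ O) := by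
    refine hasCardinalLT_sigma _ _ (small_Iio (by simp)) fun c => ?_
    have := hO.lift.pow _ (sm_Iio.2 c.2)
    refine HasCardinalLT.of_le ?_ (le_succ O)
    unfold HasCardinalLT
    simpa using this
  have h2 : HasCardinalLT (ℕ → Iio O.ord) (succ O) := by
    refine h1.of_surjective (fun p n => ⟨(p.2 n).1, lt_trans (b := p.1.1) (p.2 n).2 p.1.2⟩) fun z => ?_
    obtain ⟨c, hc, hc'⟩ := bdd_fam (small_countable hO.hcof) (fun n => (z n).1) fun n => (z n).2
    exact ⟨⟨⟨c, hc⟩, fun n => ⟨z n, hc' n⟩⟩, rfl⟩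
  have h3 : #(Iio b) ≤ #(Iio O.ord) := by
    rw [Cardinal.mk_Iio_ordinal, Cardinal.mk_Iio_ordinal, Cardinal.lift_le, card_ord]
    exact le_of_lt_succ (lt_ord.1 hb)
  obtain ⟨j⟩ := (Cardinal.le_def _ _).1 h3
  exact h2.of_injective (fun z n => j (z n)) fun z z' h => funext fun n =>
    j.injective (congrFun h n)

/-- Projection to the supremum. -/
theorem ae_proj_sup {t : Cardinal.{u}} (ht : t.IsRegular) (h0 : ℵ₀ < t) (h1 : t < O)
    (hc : O ≤ th.cof) (hs : th ≤ (succ O).ord) {P : Set Ordinal.{u} → Prop}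
    (h : ∀ᶠ X in aeF hO th, P X) :
    Fat t th {b | ∃ X e, P X ∧ sSup X = b ∧ Cut O X e ∧ e.cof = t} := by
  have hth := ord_le_of_cof hc
  have htO : t < O.ord.cof := by rwa [hO.reg.cof_ord]
  rcases hc.eq_or_lt with hc' | hc'
  · obtain ⟨s, -, s1, s2⟩ := exists_cof_seq th
    rw [← hc'] at s1 s2
    obtain ⟨C, m, k, g, ct, c, p⟩ := ae_filtr_seq hO hth h s s1
    have f : CofMap (fun i => sSup (C i)) O.ord th := by
      refine ⟨fun a b hab hb => csSup_le_csSup' (k b hb).1.bddAbove (m hab),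
        fun a ha => (k a ha).1.sSup_lt hc (k a ha).2, fun y hy => ?_⟩
      obtain ⟨i, hi, hi'⟩ := s2 _ ((limit_of_cof (hO.unc.le.trans hc)).succ_lt hy)
      exact ⟨i + 1, hO.limit.add_one_lt hi, ((lt_succ y).trans_le hi').trans_le
        (le_csSup (k _ (hO.limit.add_one_lt hi)).1.bddAbove (g i))⟩
    refine (f.image (G := {c | Cut O (C c) c}) ((c.fat ht.ne_zero).mono
      fun e he het x => ⟨x, fun y hy => ?_⟩)).subset ?_
    · obtain ⟨x, hx, hyx⟩ := (lt_csSup_iff' (k e he).1.bddAbove).1 hy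
      obtain ⟨i, hi, hx⟩ := ct e (limit_of_cof (het ▸ h0.le)) x hx
      exact ⟨i, hi, hyx.trans_le (le_csSup (k i (hi.trans he)).1.bddAbove hx)⟩
    · rintro _ ⟨e, a, he, het, rfl⟩
      exact ⟨C e, e, p e he (het ▸ h0), rfl, a, het⟩
  · classical
    obtain ⟨g, a, b⟩ := h
    have hd : ℵ₀ < th.cof := hO.unc.trans hc'
    have bd : ∀ c, ∃ e, c < th → e < th ∧ ∀ z : ℕ → Ordinal.{u}, (∀ n, z n < c) → g z ⊆ Iio e :=
      fun c => by
        by_cases hc0 : c < th
        · choose e he he' using fun z : ℕ → Iio c => (a fun n => (z n).1).1.bdd hc (a _).2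
          obtain ⟨y, hy, hy'⟩ := bdd_fam ((small_seq hO (hc0.trans_le hs)).of_le
            (succ_le_of_lt hc')) e he
          exact ⟨y, fun _ => ⟨hy, fun z hz => (he' fun n => ⟨z n, hz n⟩).trans
            (Iio_subset_Iio (hy' _).le)⟩⟩
        · exact ⟨0, fun x => absurd x hc0⟩
    choose f hf using bd
    have hth' : O.ord < th := (ord_lt_ord.2 hc').trans_le (ord_cof_le th)
    have hreg : th = th.cof.ord :=
      le_antisymm (hs.trans (ord_le_ord.2 (succ_le_of_lt hc'))) (ord_cof_le th)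
    have cl : Clb th {c | ∀ x < c, f x < c} := by
      have := Clb.closed (isRegular_cof (limit_of_cof hd.le)) hd (f := f)
        (by rw [← hreg]; exact fun x hx => (hf x hx).1)
      rwa [← hreg] at this
    refine ((cl.inter hd (Clb.gt (limit_of_cof hd.le) hth')).fat ht.ne_zero).mono
      fun c hc0 hct x => ?_
    have cl : IsSuccLimit c := limit_of_cof (hct ▸ h0.le)
    have : ∀ᶠ X in aeF hO c, P X := by
      filter_upwards [ae_basic hO, ae_seq hO g fun z hz => ⟨(a z).1, by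
        obtain ⟨l, hl, hl'⟩ := bdd_fam (d := c) (small_countable (hct ▸ h0)) z hz
        exact ((hf l (hl.trans hc0)).2 z hl').trans (Iio_subset_Iio (x.1 l hl).le)⟩]
        with X ⟨q1, q2, q3⟩ q4
      exact b X q1 (q2.trans (Iio_subset_Iio hc0.le)) q3 q4
    obtain ⟨X, e, ⟨⟨q0, q1, q2, -⟩, q3⟩, q4, q5⟩ := ex_cof hO ht h0 h1 (le_of_lt x.2)
      ((this.and (ae_basic hO)).and (ae_unb hO le_rfl cl.isSuccPrelimit (hct ▸ h1)))
    refine ⟨X, e, q0, le_antisymm (csSup_le' fun y hy => (q2 hy).le) (le_of_forall_lt fun y hy => ?_),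
      q4, q5⟩
    obtain ⟨w, hw, hyw, -⟩ := q3 y hy
    exact hyw.trans_le (le_csSup q1.bddAbove hw)

end

/-! ### Enumerations -/

/-- The increasing enumeration of `X`, followed by the ordinals from `th` on. -/
noncomputable def unc (th : Ordinal.{u}) (X : Set Ordinal.{u}) : Ordinal.{u} → Ordinal.{u} :=
  enumOrd (X ∪ Ici th)

/-- The collapse: the least index whose value is at least `x`. -/
noncomputable def col (th : Ordinal.{u}) (X : Set Ordinal.{u}) (x : Ordinal.{u}) : Ordinal.{u} :=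
  sInf {a | x ≤ unc th X a}

/-- The order type of the part of `X` below `th`. -/
noncomputable def hb (th : Ordinal.{u}) (X : Set Ordinal.{u}) : Ordinal.{u} := col th X th

section

variable {O : Cardinal.{u}} {th : Ordinal.{u}} {X : Set Ordinal.{u}} {a x e : Ordinal.{u}}

theorem unc_nb (th : Ordinal.{u}) (X : Set Ordinal.{u}) : ¬ BddAbove (X ∪ Ici th) :=
  fun h => not_bddAbove_Ici th (h.mono subset_union_right)

theorem unc_strictMono : StrictMono (unc th X) := enumOrd_strictMono (unc_nb th X)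

theorem le_unc : a ≤ unc th X a := unc_strictMono.le_apply

theorem unc_mem' (a : Ordinal.{u}) : unc th X a ∈ X ∪ Ici th := enumOrd_mem (unc_nb th X) a

theorem col_le_iff : col th X x ≤ a ↔ x ≤ unc th X a :=
  ⟨fun h => (csInf_mem (s := {a | x ≤ unc th X a}) ⟨x, le_unc⟩).trans (unc_strictMono.monotone h),
    fun h => csInf_le' h⟩

theorem lt_col_iff : a < col th X x ↔ unc th X a < x := by
  rw [← not_le, col_le_iff, not_le]

theorem col_le : col th X x ≤ x := col_le_iff.2 le_unc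

theorem col_mono : Monotone (col th X) := fun _ _ h => col_le_iff.2 (h.trans (col_le_iff.1 le_rfl))

theorem col_unc : col th X (unc th X a) = a :=
  le_antisymm (col_le_iff.2 le_rfl) (unc_strictMono.le_iff_le.1 (col_le_iff.1 le_rfl))

theorem unc_col' (h : x ∈ X ∪ Ici th) : unc th X (col th X x) = x := by
  obtain ⟨a, ha⟩ := enumOrd_surjective (unc_nb th X) h
  rw [← ha]
  exact congrArg _ col_unc

theorem unc_col (h : x ∈ X) : unc th X (col th X x) = x := unc_col' (Or.inl h)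

theorem unc_hb : unc th X (hb th X) = th := unc_col' (Or.inr (le_refl th))

theorem lt_hb_iff : a < hb th X ↔ unc th X a < th := lt_col_iff

theorem hb_le : hb th X ≤ th := col_le

theorem unc_mem (h : a < hb th X) : unc th X a ∈ X :=
  (unc_mem' a).resolve_right (not_le.2 (lt_hb_iff.1 h))

theorem col_lt_hb (h : x ∈ X) (hx : x < th) : col th X x < hb th X := by
  rw [lt_hb_iff, unc_col h]; exact hx

theorem unc_image : unc th X '' Iio (hb th X) = X ∩ Iio th :=
  Subset.antisymm (image_subset_iff.2 fun _ ha => ⟨unc_mem ha, lt_hb_iff.1 ha⟩)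
    fun x hx => ⟨col th X x, col_lt_hb hx.1 hx.2, unc_col hx.1⟩

/-- The collapse of `x` is at most the size of the part of `X` below `x`. -/
theorem col_lt_ord (hx : x ≤ th) (h : Sm O (X ∩ Iio x)) : col th X x < O.ord := by
  rw [← sm_Iio, sm_iff]
  refine (sm_iff.1 h).of_injective (fun a => ⟨unc th X a.1, unc_mem
    (lt_of_lt_of_le a.2 (col_mono hx)), lt_col_iff.1 a.2⟩) fun a b hab => ?_
  exact Subtype.ext (unc_strictMono.injective (congrArg Subtype.val hab))

theorem hb_lt_ord (h : Sm O X) : hb th X < O.ord := col_lt_ord le_rfl (h.mono inter_subset_left)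

theorem unc_eq_self (h : ∀ b ≤ a, b ∈ X ∪ Ici th) : unc th X a = a := by
  induction a using WellFoundedLT.induction with
  | ind a ih =>
    exact le_antisymm (enumOrd_le_of_forall_lt (h a le_rfl) fun b hb =>
      (ih b hb fun c hc => h c (hc.trans hb.le)).trans_lt hb) le_unc

theorem unc_fix (h : Iio e ⊆ X) (ha : a < e) : unc th X a = a :=
  unc_eq_self fun _ hb => Or.inl (h (hb.trans_lt ha))

theorem Cut.sub (h : Cut O X e) : Iio e ⊆ X := fun a ha => (h.2 a (lt_trans ha h.1)).2 ha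

theorem Cut.unc_fix (h : Cut O X e) (ha : a < e) : unc th X a = a := KM.unc_fix h.sub ha

theorem Cut.le_unc (h : Cut O X e) (hth : O.ord ≤ th) : O.ord ≤ unc th X e := by
  by_contra c
  rw [not_le] at c
  rcases unc_mem' (th := th) (X := X) e with m | m
  · exact absurd ((h.2 _ c).1 m) (not_lt.2 KM.le_unc)
  · exact absurd (c.trans_le hth) (not_lt.2 m)

theorem Cut.unc_cut (h : Cut O X e) (hth : O.ord ≤ th) (m : O.ord ∈ X ∪ Ici th) :
    unc th X e = O.ord :=
  le_antisymm (enumOrd_le_of_forall_lt m fun _ hb => (h.unc_fix hb).trans_lt (hb.trans h.1))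
    (h.le_unc hth)

theorem Cut.col_ord (h : Cut O X e) (hth : O.ord ≤ th) : col th X O.ord = e :=
  le_antisymm (col_le_iff.2 (h.le_unc hth)) (le_of_forall_lt fun _ hb =>
    lt_col_iff.2 ((h.unc_fix hb).trans_lt (hb.trans h.1)))

theorem Cut.le_hb (h : Cut O X e) (hth : O.ord ≤ th) : e ≤ hb th X :=
  (h.col_ord hth).symm.trans_le (col_mono hth)

/-- Uniqueness of the enumeration. -/
theorem unc_unique {s : Ordinal.{u} → Ordinal.{u}} {d : Ordinal.{u}}
    (hs : StrictMonoOn s (Iio d)) (hi : s '' Iio d = X ∩ Iio th) :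
    (∀ a < d, s a = unc th X a) ∧ d = hb th X := by
  have m : ∀ a < d, s a ∈ X ∩ Iio th := fun a ha => hi ▸ ⟨a, ha, rfl⟩
  have k : ∀ a < d, s a = unc th X a := fun a => by
    induction a using WellFoundedLT.induction with
    | ind a ih =>
      intro ha
      have h1 : unc th X a ≤ s a := enumOrd_le_of_forall_lt (Or.inl (m a ha).1) fun b hb =>
        (ih b hb (hb.trans ha)).symm.trans_lt (hs (hb.trans ha) ha hb)
      have h2 : unc th X a < th := h1.trans_lt (m a ha).2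
      obtain ⟨b, hb, e⟩ : unc th X a ∈ s '' Iio d := hi ▸ ⟨unc_mem (lt_hb_iff.2 h2), h2⟩
      refine le_antisymm ?_ h1
      rw [← e]
      refine hs.monotoneOn ha hb (not_lt.1 fun c => ?_)
      exact absurd ((ih b c hb).symm.trans e) (unc_strictMono c).ne
  refine ⟨k, le_antisymm (le_of_forall_lt fun a ha => lt_hb_iff.2 (k a ha ▸ (m a ha).2))
    (not_lt.1 fun c => ?_)⟩
  obtain ⟨b, hb, e⟩ : unc th X d ∈ s '' Iio d := hi ▸ ⟨unc_mem c, lt_hb_iff.1 c⟩
  exact absurd ((k b hb).symm.trans e) (unc_strictMono hb).ne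

/-- The enumeration is cofinal below every limit of `X`. -/
theorem unc_cofMap (h : Unb X x) : CofMap (unc th X) (col th X x) x :=
  ⟨fun _ _ hab _ => unc_strictMono.monotone hab, fun _ ha => lt_col_iff.1 ha, fun y hy =>
    let ⟨b, hb, h1, h2⟩ := h y hy
    ⟨col th X b, by rw [lt_col_iff, unc_col hb]; exact h2, by rw [unc_col hb]; exact h1⟩⟩

theorem cof_col (h : Unb X x) : (col th X x).cof = x.cof := (unc_cofMap h).cof_eq

/-- An unbounded subset of a regular cardinal is enumerated in order type that cardinal. -/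
theorem col_reg (hO : O.IsRegular) (h : Unb X O.ord) : col th X O.ord = O.ord :=
  le_antisymm col_le (by
    have := ord_cof_le (col th X O.ord)
    rwa [cof_col h, hO.cof_ord] at this)

theorem unc_lt_reg (hO : O.IsRegular) (h : Unb X O.ord) (ha : a < O.ord) :
    unc th X a < O.ord := lt_col_iff.1 (by rwa [col_reg hO h])

theorem unc_reg (hO : O.IsRegular) (h : Unb X O.ord) (m : O.ord ∈ X ∪ Ici th) :
    unc th X O.ord = O.ord := by
  have := unc_col' m
  rwa [col_reg hO h] at this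

/-- The enumeration of a fat set is continuous at a fat set. -/
theorem unc_cont {t : Cardinal.{u}} (ht : t.IsRegular) (hx : t < x.cof) (h : Fat t x X) :
    Fat t (col th X x) {c | ContAt (unc th X) c} :=
  have u := h.unb ht hx
  (unc_cofMap u).cont_of_range ht (by rwa [cof_col u]) (unc_strictMono.strictMonoOn _)
    (h.mono fun c hc _ m => ⟨col th X c, by rw [lt_col_iff, unc_col m]; exact hc, unc_col m⟩)

/-- If `X` has no maximum and is contained in `th`, the order type is the collapse of the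
supremum. -/
theorem col_sSup (hs : X ⊆ Iio th) (hb' : BddAbove X)
    (hn : sSup X ∉ X) : col th X (sSup X) = hb th X := by
  refine le_antisymm (col_mono (csSup_le' fun y hy => (hs hy).le)) (le_of_forall_lt fun a ha => ?_)
  exact lt_col_iff.2 (lt_of_le_of_ne (le_csSup hb' (unc_mem ha)) fun c => hn (c ▸ unc_mem ha))

end

end Pool.Agent.KM
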