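import Pool.Agent.Lib.MP_5c0be7_lc.C.U
import Pool.Agent.Lib.MP_5c0be7_lc.O.FO2
import Pool.Agent.Lib.MP_5c0be7_lc.O.Api
import Pool.Agent.Lib.MP_5c0be7_lc.K.EvI

/-! Project KM, block T: theories of the top level along good maps that respect parameters. -/

namespace Pool.Agent.KM

open Ordinal Tr CU
open scoped Classical

universe u

namespace GoodTh

variable {E E' : Seq.{u}} {b k : Ordinal.{u}} {s : Ordinal.{u} → Ordinal.{u}} {x y n : Tr.{u}}

theorem guard {c0 : Tr.{u}} (h0 : c0.erase = c0) {d : Tr.{u}} (hd : d.lv = ∅) :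
    ∃ e : Tr.{u}, e.lv = ∅ ∧ ∀ (E : Seq.{u}) b z v, In b z → In b v →
      (Nm E (node (leaf b) (node e z)) v ↔
        v.fst.erase = c0 ∧ (ev E b d (node v z)).isSome) := by
  obtain ⟨a, ha⟩ := (IsOp.id.{u}.fst.fst.erase.eq (IsOp.const h0))
  refine ⟨cmp .snd d (tst a), by simp [hd], fun E b z v hz hv => ?_⟩
  simp only [NmL, fst_node, snd_node, leaf.injEq, exists_eq_left']
  rw [ev_cmp, ev_tst a ((in_node _ _ _).2 ⟨hv, hz⟩), ha]
  by_cases h : v.fst.erase = c0 <;> simp [h]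

theorem dn_map (h : Good E b E' s) (hp : par E' (s b) = (par E b).map s) (hx : In (b + 1) x) :
    dn E' (s b) (x.map s) = (dn E b x).map s := by
  rw [dn_eq, dn_eq, map_node, hp, ← enc_map (m := leaf b) (h.mono.injOn.mono ?_)]
  · rfl
  · exact Set.union_subset (by simp) hx

/-- A name of the oracle goes up. -/
theorem orc_up (h : Good E b E' s) (hk : k < rho E b) (hx : In b x) (hn : In b n)
    (H : ∀ q, In k q → (Nm E n q ↔ Th E b x q)) (q : Tr.{u}) (hq : In (s k) q) :
    Nm E' (n.map s) q ↔ Th E' (s b) (x.map s) q := by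
  have hkb : k ≤ b := hk.le.trans (rho_le E b)
  have up : ∀ {t : Tr.{u}}, In b t → In (s b) (t.map s) := fun ht =>
    (KN.in_map h.mono (lt_add_one b) (ht.mono le_self_add)).2 ht
  have hq' : In (s b) q := hq.mono ((KE.w_le h.toWeak (KE.lt1 hkb) (lt_add_one b)).2 hkb)
  obtain ⟨a, ha⟩ := IsOp.id.{u}.fst.snd.pair IsOp.id.snd
  obtain ⟨e1, l1, h1⟩ := guard (erase_erase q.fst) (d := prec a q.fst.erase) (by simp [prec])
  obtain ⟨e2, l2, h2⟩ := guard (erase_erase q.fst) (d := nmc) lv_nmc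
  have k1 : ∀ (E : Seq.{u}) b z v, In b z → In b v → (Nm E (node (leaf b) (node e1 z)) v ↔
      v.fst.erase = q.fst.erase ∧ Th E b z v) := fun E b z v hz hv => by
    rw [h1 E b z v hz hv, ev_prec _ _ ((in_node _ _ _).2 ⟨hv, hz⟩), ha]
    refine and_congr_right fun e => ?_
    simp only [ThL, fst_node, snd_node]
    rw [← e, ev_erase]
  have k2 : ∀ (E : Seq.{u}) b z v, In b z → In b v → (Nm E (node (leaf b) (node e2 z)) v ↔
      v.fst.erase = q.fst.erase ∧ Nm E z v) := fun E b z v hz hv => by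
    rw [h2 E b z v hz hv, ev_nmc hv hz]
  have i1 : In (b + 1) (node (leaf b) (node e1 x)) := by
    simp [in_of_lv l1, hx.mono le_self_add]
  have i2 : In (b + 1) (node (leaf b) (node e2 n)) := by
    simp [in_of_lv l2, hn.mono le_self_add]
  constructor
  · intro H'
    have := h.inc k hk _ _ i2 i1 (fun v hv H2 => (k1 E b x v hx (hv.mono hkb)).2
      (((k2 E b n v hn (hv.mono hkb)).1 H2).imp_right (H v hv).1)) q hq
    simp only [map_node, map_leaf, map_of_lv l1, map_of_lv l2] at this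
    exact ((k1 E' _ _ q (up hx) hq').1 (this ((k2 E' _ _ q (up hn) hq').2 ⟨rfl, H'⟩))).2
  · intro H'
    have := h.inc k hk _ _ i1 (hn.mono le_self_add) (fun v hv H2 => (H v hv).2
      ((k1 E b x v hx (hv.mono hkb)).1 H2).2) q hq
    simp only [map_node, map_leaf, map_of_lv l1] at this
    exact this ((k1 E' _ _ q (up hx) hq').2 ⟨rfl, H'⟩)

variable [DiagSt.{u}] [AccSt.{u}]

theorem drun_up (h : Good E b E' s) (l : LS E (b + 1)) (l' : LS E' (s b + 1)) (hx : In b x)
    (hy : In (rho E b) y) (P : Bd) :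
    drun P (Th E' (s b) (x.map s)) (y.map s) = (drun P (Th E b x) y).map s := by
  rcases eq_zero_or_pos (rho E b) with h0 | h0
  · rw [h0] at hy
    have e : ∀ {t : Tr.{u}}, In 0 t → t.map s = t := fun ht =>
      map_eq_self fun a ha => absurd (ht a ha) (by simp)
    rw [e hy, e (hy.drun _ _)]
    refine drun_congr P hy fun q hq => ?_
    have := h.comm b (lt_add_one b) q.fst (node q.snd x)
      ((in_node _ _ _).2 ⟨hq.snd.mono zero_le, hx⟩)
    simp only [ThL]
    rw [map_node, e hq.snd] at this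
    rw [this, Option.isSome_map]
  have hl := DiagSt.rho_lim E b
  have hl' := limit_of_not_suc hl h0.ne'
  have hr := rho_le E b
  have he : y.ht < rho E b := hy.ht_lt hl'
  obtain ⟨n, hn, h3⟩ := AccSt.acc_card E b _ _ _
    (fun a h1 h2 => AccSt.card_rho E b (l.mono le_self_add) a h1 (h2.trans (lt_add_one b))) he
    (DiagSt.named_of_lt E b _ _ he hx)
  have hD := Fn.drun P (Df.nm Fn.id.snd Fn.id.fst)
  have := hD.weak_lim h.toWeak l l' hl (b := max y.ht n.ht) (z := node y n)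
    (max_lt he (hn.ht_lt hl')) (hr.trans le_self_add)
    ((in_node _ _ _).2 ⟨(in_ht y).mono (le_max_left _ _), (in_ht n).mono (le_max_right _ _)⟩)
  simp only [map_node, fst_node, snd_node] at this
  rw [← drun_congr P (in_ht y) h3, ← this]
  refine (drun_congr P ((KN.in_map h.mono (KE.lt1 (he.le.trans hr))
    (hy.mono (hr.trans le_self_add))).2 (in_ht y)) (orc_up h he hx (hn.mono hr) h3)).symm

end GoodTh

open GoodTh

variable {E E' : Seq.{u}} {b k : Ordinal.{u}} {s : Ordinal.{u} → Ordinal.{u}} {x y : Tr.{u}}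
  [DiagSt.{u}] [AccSt.{u}]

/-- Decidable predicates are preserved by good maps that respect the parameter. -/
theorem CU.RD.good {A : PQ.{u}} (hA : RD A) (h : Good E b E' s) (l : LS E (b + 1))
    (l' : LS E' (s b + 1)) (hp : par E' (s b) = (par E b).map s) (c : Tr.{u})
    (hx : In (b + 1) x) (hy : In (rho E b) y) :
    A c E' (s b) (x.map s) (y.map s) ↔ A c E b x y := by
  obtain ⟨F, ⟨m, -, h1⟩, h2⟩ := hA
  have hb := hy.mono (rho_le E b)
  rw [← h2 c E b x y hx hb, ← h2 c E' (s b) _ _ (KE.w_in h.toWeak hx)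
    ((KN.in_map h.mono (lt_add_one b) (hb.mono le_self_add)).2 hb), ← h1, ← h1, dn_map h hp hx,
    drun_up h l l' (in_dn E hx) hy, map_eq_nil]

omit [DiagSt.{u}] [AccSt.{u}] in
theorem Good.in_rho (h : Good E b E' s) (hy : In (rho E b) y) : In (rho E' (s b)) (y.map s) :=
  KE.in_map fun z hz => h.proj z (hy z hz)

/-- The theory of the source is the part of the theory of the target found below the image of the
projectum. -/
theorem good_th (h : Good E b E' s) (l : LS E (b + 1)) (l' : LS E' (s b + 1))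
    (hp : par E' (s b) = (par E b).map s) (h0 : 0 < rho E b) (c : Tr.{u}) (hx : In (b + 1) x) :
    (ev E (b + 1) c x).isSome ↔
      ∃ a < rho E b, ∃ y, In (s a) y ∧ Cv E' (s b) c (x.map s) y := by
  have hl' := limit_of_not_suc (DiagSt.rho_lim E b) h0.ne'
  have key : ∀ a < rho E b, (∃ y, In (s a) y ∧ Cv E' (s b) c (x.map s) y) ↔
      ∃ y, In a y ∧ Cv E b c x y := fun a ha => by
    have := (RD.bex IsOp.id (RD.cv.pre IsOp.id.fst)).good h l l' hp c hx (y := leaf a)
      (by simpa using ha)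
    simpa using this
  rw [ev_iff_cv hx]
  constructor
  · rintro ⟨y, h1, h2⟩
    exact ⟨y.ht, h1.ht_lt hl', (key _ (h1.ht_lt hl')).2 ⟨y, in_ht y, h2⟩⟩
  · rintro ⟨a, ha, H⟩
    obtain ⟨y, h1, h2⟩ := (key a ha).1 H
    exact ⟨y, h1.mono ha.le, h2⟩

/-- Values of the top level go up. -/
theorem good_ev (h : Good E b E' s) (l : LS E (b + 1)) (l' : LS E' (s b + 1))
    (hp : par E' (s b) = (par E b).map s) {c w : Tr.{u}} (hw : ev E (b + 1) c x = some w) :
    ev E' (s b + 1) c (x.map s) = some (w.map s) := by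
  have hx := in_of_ev_eq hw
  rw [ev_succ hx] at hw
  obtain ⟨y, w, h1, h2, rfl⟩ := sev_some.1 hw
  have cv : Cv E b c x y := ⟨fun ⟨t, h3, h4⟩ => h1.2 t h3 ⟨h3.in h1.1.1, h4⟩, h1.1.2,
    Option.isSome_iff_exists.2 ⟨w, h2⟩⟩
  have cv' := (RD.cv.good h l l' hp c hx h1.1.1).2 cv
  have e : bod E' (s b) (body c) (x.map s) (y.map s) = (bod E b (body c) x y).map s := by
    rw [bod_eq, bod_eq, dn_map h hp hx, drun_up h l l' (in_dn E hx) h1.1.1]
  rw [ev_succ (KE.w_in h.toWeak hx)]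
  refine sev_some.2 ⟨y.map s, w.map s, ⟨⟨h.in_rho h1.1.1, cv'.2.1⟩,
    fun t h3 h4 => cv'.1 ⟨t, h3, h4.2⟩⟩, ?_, by rw [map_dec]; rfl⟩
  have := h.comm b (lt_add_one b) (bod E b (body c) x y).fst _ (in_of_ev_eq h2)
  rw [h2, map_node] at this
  rw [e, dn_map h hp hx, map_fst, map_snd, KN.ev_cmap, this]
  rfl

/-- A good map that respects the parameter and is cofinal in the projectum is strong. -/
theorem good_strong (h : Good E b E' s) (l : LS E (b + 1)) (l' : LS E' (s b + 1))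
    (hp : par E' (s b) = (par E b).map s) (hc : ∀ z < rho E' (s b), ∃ a < rho E b, z ≤ s a) :
    Strong E (b + 1) E' (s b + 1) s := by
  refine ⟨h.toWeak, fun c x hx => ?_⟩
  cases hw : ev E (b + 1) c x with
  | some w => exact good_ev h l l' hp hw
  | none =>
    by_contra hn
    obtain ⟨y, h1, h2⟩ := (ev_iff_cv (KE.w_in h.toWeak hx)).1 (Option.isSome_iff_ne_none.2 hn)
    suffices (ev E (b + 1) c x).isSome by simp [hw] at this
    rcases ht_cases y with ⟨e, -⟩ | ⟨z, h3, h4⟩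
    · exact (ev_iff_cv hx).2 ⟨y, in_of_lv e _, (RD.cv.good h l l' hp c hx (in_of_lv e _)).1
        (by rwa [map_of_lv e])⟩
    · obtain ⟨a, h5, h6⟩ := hc z (h1 z h3)
      have h0 : 0 < rho E b := lt_of_le_of_lt zero_le h5
      have h7 := (limit_of_not_suc (DiagSt.rho_lim E b) h0.ne').add_one_lt h5
      refine (good_th h l l' hp h0 c hx).2 ⟨a + 1, h7, y, ht_le_iff.1 (h4 ▸ ?_), h2⟩
      exact Order.add_one_le_iff.2 (h6.trans_lt (h.mono (KE.lt1 (h5.le.trans (rho_le E b)))
        (KE.lt1 (h7.le.trans (rho_le E b))) (lt_add_one a)))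

/-- Below the projectum of the target, the theory of the source is named in the target. -/
theorem good_named [NamedSt.{u}] (h : Good E b E' s) (l : LS E (b + 1)) (l' : LS E' (s b + 1))
    (hp : par E' (s b) = (par E b).map s) (h0 : 0 < rho E b) (hx : In (b + 1) x) (hkb : k ≤ b)
    (hf : ∀ a < k, s a = a) (hk : k < rho E' (s b + 1)) :
    Named E' (s b + 1) k (Th E (b + 1) x) := by
  have hl' := limit_of_not_suc (DiagSt.rho_lim E b) h0.ne'
  have hne : {g | ∀ a < rho E b, s a < g}.Nonempty := ⟨_, h.proj⟩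
  set g := sInf {g | ∀ a < rho E b, s a < g} with hg
  have g1 : ∀ a < rho E b, s a < g := csInf_mem hne
  have g2 : g ≤ rho E' (s b) := csInf_le' h.proj
  have g3 : ∀ z < g, ∃ a < rho E b, z < s a := fun z hz => by
    have := notMem_of_lt_csInf' hz
    simp only [Set.mem_ofPred_eq, not_forall, not_lt] at this
    obtain ⟨a, ha, h1⟩ := this
    have h2 := hl'.add_one_lt ha
    exact ⟨a + 1, h2, h1.trans_lt (h.mono (KE.lt1 (ha.le.trans (rho_le E b)))
      (KE.lt1 (h2.le.trans (rho_le E b))) (lt_add_one a))⟩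
  have g4 : ∀ y, In g y → ∃ a < rho E b, In (s a) y := fun y hy => by
    rcases ht_cases y with ⟨e, -⟩ | ⟨z, h1, h2⟩
    · exact ⟨0, h0, in_of_lv e _⟩
    · obtain ⟨a, ha, h3⟩ := g3 z (hy z h1)
      exact ⟨a, ha, ht_le_iff.1 (h2 ▸ Order.add_one_le_iff.2 h3)⟩
  have I := IsOp.id.{u}
  obtain ⟨m, m1, m2⟩ := ((RD.bd I.snd.snd.fst I.fst).and
    (RD.cv.sub (I.snd.fst.pair I.snd.snd.snd))).ex
  obtain ⟨a, ha⟩ := (m1.comp I.fst.fst).pair I.fst.snd
  have hx' := KE.w_in h.toWeak hx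
  have hz : In (s b + 1) (node (leaf g) (x.map s)) :=
    (in_node _ _ _).2 ⟨(in_leaf _ _).2 (KE.lt1 (g2.trans (rho_le _ _))), hx'⟩
  have hk' : k < s b + 1 := hk.trans_le (rho_le _ _)
  obtain ⟨t, t1, t2⟩ := NamedSt.pre E' (s b + 1) k k _ a .nil hk' (by simp)
    (DiagSt.named_of_lt E' _ k _ hk hz) fun q hq => In.bop (by simpa using hq) a
  refine ⟨t, t1, fun q hq => (t2 q hq).trans ?_⟩
  have hq1 : In (b + 1) q.snd := hq.snd.mono (hkb.trans le_self_add)
  have hq2 : q.snd.map s = q.snd := map_eq_self fun z hz => hf z (hq.snd z hz)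
  simp only [ha, ThL, fst_node, snd_node]
  rw [m2 _ E' (s b) _ ((in_node _ _ _).2 ⟨hq.snd.mono hk'.le, hz⟩),
    good_th h l l' hp h0 q.fst ((in_node _ _ _).2 ⟨hq1, hx⟩), map_node, hq2]
  simp only [fst_node, snd_node, leaf.injEq, exists_eq_left']
  constructor
  · rintro ⟨y, -, h1, h2⟩
    obtain ⟨a, h3, h4⟩ := g4 y h1
    exact ⟨a, h3, y, h4, h2⟩
  · rintro ⟨a, h1, y, h2, h3⟩
    have := h2.mono (g1 a h1).le
    exact ⟨y, this.mono g2, this, h3⟩

end Pool.Agent.KM
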