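import Mathlib

/-! Project KM: the filter of countably closed small sets of ordinals, and their enumerations. -/

namespace Pool.Agent.KM

open Ordinal Cardinal Set Filter

universe u

/-- `O` is regular, uncountable and closed under countable powers. -/
structure Reg (O : Cardinal.{u}) : Prop where
  reg : O.IsRegular
  unc : ℵ₀ < O
  pow : ∀ c < O, c ^ ℵ₀ < O

theorem Reg.of_inacc {O : Cardinal.{u}} (h : O.IsInaccessible) : Reg O :=
  ⟨h.isRegular, h.aleph0_lt, fun c hc => by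
    have h1 : max c ℵ₀ < O := max_lt hc h.aleph0_lt
    refine lt_of_le_of_lt ?_ (h.isStrongLimit.isStrongPrelimit h1)
    rw [← power_self_eq (le_max_right c ℵ₀)]
    exact (power_le_power_right (le_max_left c ℵ₀)).trans
      (power_le_power_left (aleph0_pos.trans_le (le_max_right c ℵ₀)).ne' (le_max_right c ℵ₀))⟩

theorem Reg.succ {c : Cardinal.{u}} (h : ℵ₀ ≤ c) (e : c ^ ℵ₀ = c) : Reg (Order.succ c) :=
  ⟨isRegular_succ h, Order.lt_succ_of_le h, fun _ hd => Order.lt_succ_of_le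
    ((power_le_power_right (Order.le_of_lt_succ hd)).trans e.le)⟩

theorem Reg.lift {O : Cardinal.{u}} (h : Reg O) : Reg (Cardinal.lift.{u + 1} O) :=
  ⟨h.reg.lift, by simpa using h.unc, fun c hc => by
    obtain ⟨d, hd, rfl⟩ := Cardinal.lt_lift_iff.1 hc
    have := Cardinal.lift_lt.{u, u + 1}.2 (h.pow d hd)
    simpa using this⟩

/-- `X` has fewer than `O` elements. -/
def Sm (O : Cardinal.{u}) (X : Set Ordinal.{u}) : Prop := #X < Cardinal.lift.{u + 1} O

section

variable {O : Cardinal.{u}} {th : Ordinal.{u}} {X Y : Set Ordinal.{u}}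

theorem Sm.mono (h : Sm O Y) (e : X ⊆ Y) : Sm O X := (mk_le_mk_of_subset e).trans_lt h

theorem Sm.of_countable (hO : Reg O) (h : X.Countable) : Sm O X :=
  (le_aleph0_iff_set_countable.2 h).trans_lt hO.lift.unc

theorem Sm.union (hO : Reg O) (h : Sm O X) (h' : Sm O Y) : Sm O (X ∪ Y) :=
  (mk_union_le _ _).trans_lt (add_lt_of_lt hO.lift.unc.le h h')

theorem Sm.iUnion (hO : Reg O) {ι : Type (u + 1)} (hι : #ι < Cardinal.lift.{u + 1} O)
    {F : ι → Set Ordinal.{u}} (h : ∀ i, Sm O (F i)) : Sm O (⋃ i, F i) :=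
  (card_iUnion_lt_iff_forall_of_isRegular hO.lift.reg hι).2 h

theorem Sm.biUnion (hO : Reg O) (hX : Sm O X) {F : Ordinal.{u} → Set Ordinal.{u}}
    (h : ∀ i ∈ X, Sm O (F i)) : Sm O (⋃ i ∈ X, F i) := by
  rw [biUnion_eq_iUnion]
  exact Sm.iUnion hO hX fun i => h i i.2

theorem Sm.image (h : Sm O X) (f : Ordinal.{u} → Ordinal.{u}) : Sm O (f '' X) :=
  mk_image_le.trans_lt h

theorem sm_Iio {a : Ordinal.{u}} : Sm O (Iio a) ↔ a < O.ord := by
  rw [Sm, Cardinal.mk_Iio_ordinal, Cardinal.lift_lt, lt_ord]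

theorem Sm.bdd (h : Sm O X) (hc : O ≤ th.cof) (e : X ⊆ Iio th) : ∃ b < th, X ⊆ Iio b := by
  have hs : Small.{u} X := small_subset e
  refine ⟨_, sSup_add_one_lt_of_lt_cof (a := th) (s := X) ?_ e, fun x hx => ?_⟩
  · rw [← lift_cof]
    exact h.trans_le (Cardinal.lift_le.2 hc)
  · exact (Order.lt_add_one_iff.2 le_rfl).trans_le
      (le_csSup Ordinal.bddAbove_of_small (mem_image_of_mem (· + 1) hx))

end

/-- The filter of small nonempty subsets of `th` that are closed under a function of countably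
many arguments with small sets as values. -/
def aeF {O : Cardinal.{u}} (hO : Reg O) (th : Ordinal.{u}) : Filter (Set Ordinal.{u}) where
  sets := {P | ∃ g : (ℕ → Ordinal.{u}) → Set Ordinal.{u}, (∀ z, Sm O (g z) ∧ g z ⊆ Iio th) ∧
    ∀ X, Sm O X → X ⊆ Iio th → X.Nonempty → (∀ z : ℕ → Ordinal.{u}, (∀ n, z n ∈ X) → g z ⊆ X) →
      X ∈ P}
  univ_sets := ⟨fun _ => ∅, fun _ => ⟨Sm.of_countable hO countable_empty, empty_subset _⟩,
    fun _ _ _ _ _ => trivial⟩
  sets_of_superset := fun ⟨g, a, b⟩ h => ⟨g, a, fun X c d e f => h (b X c d e f)⟩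
  inter_sets := fun ⟨g, a, b⟩ ⟨g', a', b'⟩ => ⟨fun z => g z ∪ g' z,
    fun z => ⟨(a z).1.union hO (a' z).1, union_subset (a z).2 (a' z).2⟩, fun X c d e f =>
      ⟨b X c d e fun z hz => subset_union_left.trans (f z hz),
        b' X c d e fun z hz => subset_union_right.trans (f z hz)⟩⟩

section

variable {O : Cardinal.{u}} (hO : Reg O) {th : Ordinal.{u}}

theorem ae_basic : ∀ᶠ X in aeF hO th, Sm O X ∧ X ⊆ Iio th ∧ X.Nonempty :=
  ⟨fun _ => ∅, fun _ => ⟨Sm.of_countable hO countable_empty, empty_subset _⟩,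
    fun _ a b c _ => ⟨a, b, c⟩⟩

/-- closure under a function of countably many arguments. -/
theorem ae_seq (g : (ℕ → Ordinal.{u}) → Set Ordinal.{u})
    (h : ∀ z, (∀ n, z n < th) → Sm O (g z) ∧ g z ⊆ Iio th) :
    ∀ᶠ X in aeF hO th, ∀ z, (∀ n, z n ∈ X) → g z ⊆ X := by
  classical
  refine ⟨fun z => if ∀ n, z n < th then g z else ∅, fun z => ?_, fun X _ b _ d z hz => ?_⟩
  · by_cases e : ∀ n, z n < th
    · simpa only [if_pos e] using h z e
    · simpa only [if_neg e] using ⟨Sm.of_countable hO countable_empty, empty_subset _⟩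
  · exact (if_pos (c := ∀ n, z n < th) fun n => b (hz n)).symm.subset.trans (d z hz)

/-- closure under a function of countable subsets. -/
theorem ae_ctbl (g : Set Ordinal.{u} → Set Ordinal.{u})
    (h : ∀ Z, Z.Countable → Z ⊆ Iio th → Sm O (g Z) ∧ g Z ⊆ Iio th) :
    ∀ᶠ X in aeF hO th, ∀ Z, Z.Countable → Z ⊆ X → g Z ⊆ X := by
  filter_upwards [ae_basic hO, ae_seq hO (fun z => g (range z) ∪ g ∅) fun z hz =>
    ⟨(h _ (countable_range z) (range_subset_iff.2 hz)).1.union hO
      (h _ countable_empty (empty_subset _)).1, union_subset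
        (h _ (countable_range z) (range_subset_iff.2 hz)).2
        (h _ countable_empty (empty_subset _)).2⟩] with X ⟨_, _, a, ha⟩ c Z hZ e
  rcases Z.eq_empty_or_nonempty with rfl | n
  · exact subset_union_right.trans (c (fun _ => a) fun _ => ha)
  · obtain ⟨z, rfl⟩ := hZ.exists_eq_range n
    exact subset_union_left.trans (c z fun n => e ⟨n, rfl⟩)

theorem ae_sub {Y : Set Ordinal.{u}} (h : Sm O Y) (e : Y ⊆ Iio th) : ∀ᶠ X in aeF hO th, Y ⊆ X := by
  filter_upwards [ae_ctbl hO (fun _ => Y) fun _ _ _ => ⟨h, e⟩] with X c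
  exact c ∅ countable_empty (empty_subset _)

theorem ae_mem {a : Ordinal.{u}} (h : a < th) : ∀ᶠ X in aeF hO th, a ∈ X := by
  filter_upwards [ae_sub hO (Sm.of_countable hO (countable_singleton a))
    (singleton_subset_iff.2 h)] with X c
  exact c rfl

/-- diagonal intersection over countable sequences. -/
theorem ae_diagSeq {P : (ℕ → Ordinal.{u}) → Set Ordinal.{u} → Prop}
    (h : ∀ z, (∀ n, z n < th) → ∀ᶠ X in aeF hO th, P z X) :
    ∀ᶠ X in aeF hO th, ∀ z, (∀ n, z n ∈ X) → P z X := by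
  choose! g a b using h
  filter_upwards [ae_basic hO, ae_seq hO (fun y => g (fun n => y (2 * n)) fun n => y (2 * n + 1))
    fun y hy => a _ (fun n => hy _) _] with X ⟨c, d, e⟩ f z hz
  refine b z (fun n => d (hz n)) X c d e fun y hy => ?_
  have := f (fun n => if n % 2 = 0 then z (n / 2) else y (n / 2)) fun n => by
    split_ifs
    exacts [hz _, hy _]
  simpa [Nat.mul_add_div, Nat.add_mod] using this

/-- diagonal intersection. -/
theorem ae_diag {P : Ordinal.{u} → Set Ordinal.{u} → Prop}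
    (h : ∀ a < th, ∀ᶠ X in aeF hO th, P a X) : ∀ᶠ X in aeF hO th, ∀ a ∈ X, P a X := by
  filter_upwards [ae_diagSeq hO (P := fun z X => P (z 0) X) fun z hz => h _ (hz 0)] with X c a ha
  exact c (fun _ => a) fun _ => ha

/-- diagonal intersection over countable subsets. -/
theorem ae_diagCtbl {P : Set Ordinal.{u} → Set Ordinal.{u} → Prop}
    (h : ∀ Z, Z.Countable → Z ⊆ Iio th → ∀ᶠ X in aeF hO th, P Z X) :
    ∀ᶠ X in aeF hO th, ∀ Z, Z.Countable → Z ⊆ X → P Z X := by
  filter_upwards [h ∅ countable_empty (empty_subset _),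
    ae_diagSeq hO (P := fun z X => P (range z) X) fun z hz =>
      h _ (countable_range z) (range_subset_iff.2 hz)] with X a c Z hZ e
  rcases Z.eq_empty_or_nonempty with rfl | n
  · exact a
  · obtain ⟨z, rfl⟩ := hZ.exists_eq_range n
    exact c z fun n => e ⟨n, rfl⟩

/-- intersection of fewer than `O` sets. -/
theorem ae_all {ι : Type (u + 1)} (hι : #ι < Cardinal.lift.{u + 1} O)
    {P : ι → Set Ordinal.{u} → Prop} (h : ∀ i, ∀ᶠ X in aeF hO th, P i X) :
    ∀ᶠ X in aeF hO th, ∀ i, P i X := by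
  choose g a b using h
  exact ⟨fun z => ⋃ i, g i z, fun z => ⟨Sm.iUnion hO hι fun i => (a i z).1,
    iUnion_subset fun i => (a i z).2⟩, fun X c d e f i =>
      b i X c d e fun z hz => (subset_iUnion (fun i => g i z) i).trans (f z hz)⟩

theorem ae_count {ι : Type (u + 1)} [Countable ι]
    {P : ι → Set Ordinal.{u} → Prop} (h : ∀ i, ∀ᶠ X in aeF hO th, P i X) :
    ∀ᶠ X in aeF hO th, ∀ i, P i X :=
  ae_all hO (mk_le_aleph0.trans_lt hO.lift.unc) h

/-- witnesses. -/
theorem ae_wit {R : Ordinal.{u} → Ordinal.{u} → Prop} :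
    ∀ᶠ X in aeF hO th, ∀ a ∈ X, (∃ b < th, R a b) → ∃ b ∈ X, R a b :=
  ae_diag hO fun a _ => by
    by_cases e : ∃ b < th, R a b
    · obtain ⟨b, h1, h2⟩ := e
      filter_upwards [ae_mem hO h1] with X c _ using ⟨b, c, h2⟩
    · exact Eventually.of_forall fun _ c => absurd c e

theorem ae_fun (f : Ordinal.{u} → Ordinal.{u}) (h : ∀ a < th, f a < th) :
    ∀ᶠ X in aeF hO th, ∀ a ∈ X, f a ∈ X :=
  ae_diag hO fun a ha => ae_mem hO (h a ha)

end

/-- The part of `X` below `O` is the ordinal `e`. -/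
def Cut (O : Cardinal.{u}) (X : Set Ordinal.{u}) (e : Ordinal.{u}) : Prop :=
  e < O.ord ∧ ∀ a < O.ord, a ∈ X ↔ a < e

theorem ae_cut {O : Cardinal.{u}} (hO : Reg O) {th : Ordinal.{u}} :
    ∀ᶠ X in aeF hO th, ∃ e, Cut O X e := by
  filter_upwards [ae_basic hO, ae_diag hO (P := fun a X => a < O.ord → Iio a ⊆ X) fun a ha => by
    by_cases e : a < O.ord
    · filter_upwards [ae_sub hO (sm_Iio.2 e) (Iio_subset_Iio ha.le)] with X c _ using c
    · exact Eventually.of_forall fun _ c => absurd c e] with X ⟨c, _, _⟩ d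
  obtain ⟨b, hb, e⟩ := (c.mono (inter_subset_left (t := Iio O.ord))).bdd hO.reg.cof_ord.ge
    inter_subset_right
  have n : {a | a ∉ X}.Nonempty := ⟨b, fun x => lt_irrefl b (e ⟨x, hb⟩)⟩
  refine ⟨sInf {a | a ∉ X}, (csInf_le' (s := {a | a ∉ X}) fun x => lt_irrefl b (e ⟨x, hb⟩)).trans_lt hb,
    fun a ha => ⟨fun x => lt_of_not_ge fun y => ?_, fun x => ?_⟩⟩
  · rcases y.eq_or_lt with y | y
    · exact csInf_mem n (y ▸ x)
    · exact csInf_mem n (d a x ha y)
  · by_contra y
    exact (csInf_le' (show a ∈ {a | a ∉ X} from y)).not_gt x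

/-- A chain of length `t` through a set of the filter. -/
theorem ae_chain {O t : Cardinal.{u}} (hO : Reg O) (ht : t.IsRegular) (h0 : ℵ₀ < t) (h1 : t < O)
    {th : Ordinal.{u}} (hth : 0 < th) {P : Set Ordinal.{u} → Prop} (h : ∀ᶠ X in aeF hO th, P X)
    (G : Set Ordinal.{u} → Set Ordinal.{u})
    (hG : ∀ X, Sm O X → X ⊆ Iio th → Sm O (G X) ∧ G X ⊆ Iio th) :
    ∃ C : Ordinal.{u} → Set Ordinal.{u}, Monotone C ∧ (∀ i < t.ord, Sm O (C i) ∧ C i ⊆ Iio th) ∧
      (∀ i, G (C i) ⊆ C (i + 1)) ∧ P (⋃ i < t.ord, C i) := by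
  obtain ⟨g, a, b⟩ := h
  let F : Set Ordinal.{u} → Set Ordinal.{u} := fun X =>
    X ∪ G X ∪ ⋃ z : ULift.{u + 1} ℕ → X, g fun n => z ⟨n⟩
  let C : Ordinal.{u} → Set Ordinal.{u} := (wellFounded_lt (α := Ordinal.{u})).fix
    fun i r => {0} ∪ ⋃ j : Iio i, F (r j j.2)
  have e : ∀ i, C i = {0} ∪ ⋃ j : Iio i, F (C j) := fun i => WellFounded.fix_eq _ _ _
  have s : ∀ j i, j < i → F (C j) ⊆ C i := fun j i hj => by
    rw [e i]
    exact (subset_iUnion (fun j : Iio i => F (C j)) ⟨j, hj⟩).trans subset_union_right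
  have m : Monotone C := fun j i hj => by
    rcases hj.eq_or_lt with rfl | hj
    exacts [le_rfl, (subset_union_left.trans subset_union_left).trans (s j i hj)]
  have k : ∀ i < t.ord, Sm O (C i) ∧ C i ⊆ Iio th := fun i => by
    induction i using WellFoundedLT.induction with
    | ind i ih =>
      intro hi
      have q : ∀ j : Iio i, Sm O (F (C j)) ∧ F (C j) ⊆ Iio th := fun j => by
        obtain ⟨q1, q2⟩ := ih j j.2 (lt_trans j.2 hi)
        refine ⟨(q1.union hO (hG _ q1 q2).1).union hO (Sm.iUnion hO ?_ fun z => (a _).1),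
          union_subset (union_subset q2 (hG _ q1 q2).2) (iUnion_subset fun z => (a _).2)⟩
        rw [← power_def, mk_uLift, mk_nat, lift_aleph0]
        exact hO.lift.pow _ q1
      rw [e i]
      exact ⟨(Sm.of_countable hO (countable_singleton _)).union hO
        (Sm.iUnion hO (sm_Iio.2 (hi.trans (ord_lt_ord.2 h1))) fun j => (q j).1),
        union_subset (singleton_subset_iff.2 hth) (iUnion_subset fun j => (q j).2)⟩
  refine ⟨C, m, k, fun i => (subset_union_right.trans subset_union_left).trans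
    (s i _ (lt_add_one i)), b _ (Sm.biUnion hO (sm_Iio.2 (ord_lt_ord.2 h1)) fun i hi => (k i hi).1)
    (iUnion₂_subset fun i hi => (k i hi).2)
    ⟨0, mem_iUnion₂.2 ⟨0, ht.ord_pos, by rw [e]; exact Or.inl rfl⟩⟩ fun z hz => ?_⟩
  choose i hi hz using fun n => mem_iUnion₂.1 (hz n)
  have l : ⨆ n, i n < t.ord := lift_iSup_lt_of_lt_cof (by simpa [ht.cof_ord] using h0) hi
  refine Subset.trans ?_ (subset_biUnion_of_mem (u := C)
    ((isSuccLimit_ord ht.aleph0_le).add_one_lt l))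
  refine Subset.trans ?_ (subset_union_right.trans (s _ _ (lt_add_one _)))
  exact subset_iUnion (fun z : ULift.{u + 1} ℕ → C (⨆ n, i n) => g fun n => z ⟨n⟩)
    fun n => ⟨z n.down, m (Ordinal.le_iSup i n.down) (hz _)⟩

end Pool.Agent.KM
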