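import Pool.Agent.Lib.MP_5c0be7_lc.T.St
import Pool.Agent.Lib.MP_5c0be7_lc.K.Zorn

/-!
Project KM, block T1: the construction of the maximal weasel with the forbidden cofinality.
-/

namespace Pool.Agent.KM

open Ordinal Cardinal Tr Set KE KL

universe u

variable [KEvSt.{u}] [KGoodSt.{u}] [KActSt.{u}] [ZornSt.{u}] [ExtSt.{u}]

namespace Base1

omit [ZornSt.{u}] [ExtSt.{u}] in
/-- Total extenders of a certified premouse over the base `0` are allowed. -/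
theorem cert_al {C : Cfg.{u}} {E : Seq.{u}} {r b v k t : Ordinal.{u}}
    {e : Ordinal.{u} → Ordinal.{u}} (hc : Cert C r E (b + 1)) (h1 : C.be ≤ v) (h2 : v ≤ b)
    (ha : Act E v k t e) (hn : NoProj E k (v + 1) (b + 1)) : C.al k := by
  obtain ⟨i1, i2, i3, -, -, i6⟩ := res_spec (C := C) (n := ⟨r, E, b⟩) (b := v) hc h2 h1
  have h3 : PM0 E (v + 1) := pm0_mono hc.pm.toPM0 (by gcongr)
  have h4 := i1.pm.toPM0
  rw [i2] at h4
  obtain ⟨e', h5, -⟩ := KActSt.good_act h3 h4 (KGoodSt.strong_good h3 h4 i3) le_rfl ha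
  have h6 := (Cert.topOK i1 _ _ _ _ (by rw [i2]) h5).2
  rwa [i6 k hn k le_rfl] at h6

theorem base (P : Pa.{u}) (hN : NG P.Om) : ∃ W, Base P W := by
  have hO : ℵ₀ < P.O := P.hO.aleph0_lt
  have h0 : (0 : Ordinal.{u}) < P.O.ord := (isSuccLimit_ord hO.le).bot_lt
  obtain ⟨W, hW, -⟩ := ZornSt.exists_kw P.C (fun _ _ _ => False) P.O hO h0
    (fun ⟨a, h⟩ => absurd ((lt_add_one a).trans_eq h.symm) (by simp [Pa.C]))
    ⟨⟨fun b hb => absurd hb (by simp [Pa.C]), fun b hb => absurd hb (by simp [Pa.C])⟩,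
      fun b hb => absurd hb (by simp [Pa.C])⟩
    fun ⟨_, _, _, _, _, _, _, _, h⟩ => absurd h (by simp [Pa.C])
  obtain ⟨r, hc⟩ := hW.cert
  refine ⟨W, hc.pm, Zorn.cert_II hc, fun F k t v e h1 h2 h3 h4 h5 h6 h7 h8 h9 h10 h11 h12 => ?_,
    fun v k t e h1 h2 h3 => ?_⟩
  · have := ExtSt.ext P.C W F P.O k t v e P.hO.isRegular hO hN hW h1 h2 h3 h4 h5 h6 h7 h8 h9
      (fun b i1 i2 => ⟨h10 b i1 i2, fun _ _ _ _ _ _ _ => bot_le⟩) h11 h12
    by_contra h
    exact this ⟨omega0_pos.trans h2, h⟩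
  · refine (cert_al hc bot_le h1.le h2 fun a i1 i2 => ?_).2
    rcases (le1 i2).eq_or_lt with rfl | i3
    · rw [(hc.pm.ls _ i2).2 hW.olim]
      exact (h2.lt.trans h2.dom).trans h1
    · exact h3 a (h2.dom.le.trans ((lt_add_one v).le.trans i1)) i3

end Base1

instance : BaseSt.{u} := ⟨Base1.base⟩

end Pool.Agent.KM
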