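import Pool.Agent.Lib.MP_5c0be7_lc.T.St
import Pool.Agent.Lib.MP_5c0be7_lc.F.TreeOrd
import Pool.Agent.Lib.MP_5c0be7_lc.K.Loc
import Pool.Agent.Lib.MP_5c0be7_lc.O.FO3
import Pool.Agent.Lib.MP_5c0be7_lc.O.StF3

/-!
Project KM, block T1: branch maps that fix the height of the weasel are tame.
-/

namespace Pool.Agent.KM

namespace BrTameI

open Ordinal Cardinal Tr Set KE

universe u

variable {P : Pa.{u}} {E E' : Seq.{u}} {th th' b k : Ordinal.{u}}
  {s i : Ordinal.{u} → Ordinal.{u}}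

/-- The part of tallness that goes up along cofinal maps without any argument on realisability. -/
structure Hi (P : Pa.{u}) (E : Seq.{u}) (th : Ordinal.{u}) : Prop where
  pm : PM E (th + 1)
  pas : Pas E th
  lt : P.Om < th
  top : TopC E P.Om th
  lim : ¬ Suc th

theorem t_inf (P : Pa.{u}) : ℵ₀ < P.t := aleph0_lt_aleph_one.trans P.h1

theorem o_inf (P : Pa.{u}) : ℵ₀ < P.O := (t_inf P).trans P.h2

theorem hi_of (h : Tall P E th) : Hi P E th :=
  ⟨h.pm, h.pas, h.lt, h.top, not_suc_of_limit (limit_of_cof ((o_inf P).le.trans h.cof))⟩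

theorem top_eq (h : Strong E (th + 1) E' (th' + 1) s) : th' = s th := s1inj (h.top th rfl)

theorem lim_up (hl : ¬ Suc th) (h : Strong E (th + 1) E' (th' + 1) s) : ¬ Suc th' := by
  rintro ⟨a, ha⟩
  have h1 := h.comm th (lt_add_one _) topc .nil (in_nil _)
  rw [← top_eq h, ha, map_nil, ev_topc (in_nil _), ev_topc_lim hl] at h1
  cases h1

theorem cof_up (hl : ¬ Suc th) (h' : PM E' (th' + 1)) (h : Cof E th E' th' s) :
    ∀ y < th', ∃ x < th, y < s x := fun y hy => by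
  rw [← (h'.ls th' (lt_add_one _)).2 (lim_up hl h.toStrong)] at hy
  obtain ⟨x, h1, h2⟩ := h.cof y hy
  have h3 : x + 1 < th := not_suc_iff.1 hl x (h1.trans_le KE.rho_le)
  refine ⟨x + 1, h3, h2.trans_lt ((w_lt h.toWeak ?_ (lt1 h3.le)).2 (lt_add_one x))⟩
  exact lt1 (h1.trans_le KE.rho_le).le

theorem Hi.up [KEvSt.{u}] [KActSt.{u}] (H : Hi P E th) (h' : PM E' (th' + 1))
    (h : Cof E th E' th' s) (ho : s P.Om = P.Om) : Hi P E' th' := by
  have hc := cof_up H.lim h' h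
  have hl := lim_up H.lim h.toStrong
  have hs := h.toStrong
  obtain rfl := top_eq hs
  refine ⟨h', ?_, ?_, fun y hy => ?_, hl⟩
  · obtain h1 | ⟨k, t, e, h1⟩ := h'.act _ (lt_add_one _)
    · exact h1
    · obtain ⟨_, _, _, h2, -⟩ := KActSt.good_act_down H.pm.toPM0 h'.toPM0 hs le_rfl h1
      exact absurd H.pas (KL.act_not_pas h2)
  · rw [← ho]
    exact (w_lt hs.toWeak (lt1 H.lt.le) (lt_add_one _)).2 H.lt
  · obtain ⟨x, h1, h2⟩ := hc y hy
    obtain ⟨a, h3, h4, h5⟩ := H.top x h1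
    refine ⟨s a, h2.le.trans ((w_le hs.toWeak (lt1 h1.le) (lt1 h4.le)).2 h3),
      (w_lt hs.toWeak (lt1 h4.le) (lt_add_one _)).2 h4, not_lt.1 fun h6 => ?_⟩
    rw [← ho] at h6
    exact h5.not_gt ((strong_rho hs h4.le H.lt.le).1 h6)

theorem Hi.next (H : Hi P E th) : IsNext E (th + 1) P.Om th :=
  ⟨H.lt, le_self_add, H.top, fun a h1 h2 => by
    obtain rfl := le_antisymm h1 (le1 h2)
    rw [(H.pm.ls _ (lt_add_one _)).2 H.lim]
    exact H.lt⟩

/-- An ultrapower map with a small critical point is continuous at points of cofinality `t`. -/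
theorem cts_small [UltFactSt.{u}] (h : IsUlt E th k E' i) (hk : k < P.t.ord) (hb : b ≤ th)
    (hc : b.cof = P.t) : ContAt i b := by
  refine UltFactSt.cts h hb fun f _ => ?_
  have h1 : HasCardinalLT {w : Tr.{u} | In k w} b.cof := by
    unfold HasCardinalLT
    rw [hc, Cardinal.lift_id'.{u, u + 1}]
    exact KL.mk_in_lt (t_inf P) hk
  have h0 : 0 < b := (limit_of_cof (hc ▸ (t_inf P).le)).pos
  classical
  obtain ⟨x, h2, h3⟩ := bdd_fam h1 (fun w => if ((fv E f w.1).getD .nil).lab < b then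
    ((fv E f w.1).getD .nil).lab else 0) fun w => by split_ifs with h4; exacts [h4, h0]
  refine ⟨x, h2, fun w y h4 h5 h6 => ?_⟩
  have h7 := h3 ⟨w, h4⟩
  simpa [h5, h6] using h7

theorem df_cof : Df.{u} fun E _ z => ∀ y < z.snd.fst.lab, ∃ v, In z.snd.snd.lab v ∧
    ∃ x < z.snd.fst.lab, fv E z.fst v = some (leaf x) ∧ y ≤ x := by
  repeat' first
    | exact Fn.id | exact IsOp.id | apply IsOp.fst | apply IsOp.snd | apply On.lab
    | apply Df.fv_leaf | apply Df.ole | apply Df.bex | apply Df.oall | apply Df.oex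
    | apply Df.and | apply Fn.fst | apply Fn.snd

/-- A map is continuous at a point whose cofinality is below the critical point. -/
theorem cts_low (hE : LS E (th + 1)) (hE' : LS E' (th' + 1)) (h : Weak E (th + 1) E' (th' + 1) i)
    (hl : ¬ Suc th) (hb : b < th) (hbl : ¬ Suc b) (hk : k < th) (hf : ∀ x ≤ k, i x = x)
    {g : Tr.{u}} (hg : In th g)
    (H : ∀ y < b, ∃ v, In k v ∧ ∃ x < b, fv E g v = some (leaf x) ∧ y ≤ x) : ContAt i b := by
  have hz : In th (node g (node (leaf b) (leaf k))) := by simp [hg, hb, hk]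
  have hlim : Order.IsSuccLimit th := limit_of_not_suc hl (zero_le.trans_lt hb).ne'
  have h1 := (df_cof.weak_lim h hE hE' hl (hz.ht_lt hlim) le_self_add (in_ht _)).2 H
  intro y hy
  obtain ⟨v, h2, x, h3, h4, h5⟩ := h1 y hy
  simp only [map_node, map_leaf, fst_node, snd_node, lab_leaf, hf k le_rfl] at h2 h3 h4
  have h6 := KN.wfv h (hg.mono le_self_add) (h2.mono (hk.le.trans le_self_add))
  rw [map_eq_self fun a ha => hf a (h2 a ha).le, h4] at h6
  cases h7 : fv E g v with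
  | none => rw [h7] at h6; cases h6
  | some w =>
    rw [h7] at h6
    obtain ⟨a, rfl, rfl⟩ := map_eq_leaf.1 (Option.some.inj h6).symm
    have h8 : a < th + 1 := by
      unfold fv at h7
      split_ifs at h7 with h9
      have h10 := hg.fst
      rw [h9, in_leaf] at h10
      exact (((in_leaf _ _).1 (ev_in h7)).trans h10).trans (lt_add_one _)
    have h9 : a + 1 < b := not_suc_iff.1 hbl a ((w_lt h h8 (lt1 hb.le)).1 h3)
    exact ⟨a + 1, h9, h5.trans_lt ((w_lt h h8 (lt1 (h9.trans hb).le)).2 (lt_add_one a))⟩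

/-- An ultrapower map by a total extender of the sequence is continuous at the points whose
cofinality is not measurable. -/
theorem cts_nm [UltFactSt.{u}] [RegSt.{u}] (H : Hi P E th) (h : IsUlt E th k E' i)
    (hf : ∀ x < k, i x = x) (hk : TCrit P E th k) (hb : b < th) (hbl : ¬ Suc b)
    (hn : NM P E th b) : ContAt i b := by
  by_cases h1 : ∀ f, In (th + 1) f → ∃ x < b, ∀ w y, In k w → fv E f w = some (leaf y) → y < b →
    y < x
  · exact UltFactSt.cts h hb.le h1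
  push Not at h1
  obtain ⟨f, h2, h3⟩ := h1
  obtain ⟨g, h4, h5⟩ := RegSt.reg_fun E _ _ _ f H.pm.ls H.next (lt_add_one _) h2
  have h6 := hn k hk
  unfold Disc at h6
  push Not at h6
  obtain ⟨k', h7, h8⟩ := h6 g h4 fun y hy => by
    obtain ⟨v, x, h9, h10, h11, h12⟩ := h3 y hy
    exact ⟨v, x, h9, (h5 v _ (h9.mono hk.1.le)).2 ⟨h10, by simpa using h11.trans hb⟩, h12, h11⟩
  refine cts_low H.pm.ls h.pm'.ls h.toWeak H.lim hb hbl ((h7.trans hk.1).trans H.lt)
    (fun x hx => hf x (hx.trans_lt h7)) h4 fun y hy => ?_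
  obtain ⟨v, x, h9, h10, h11, h12⟩ := h8 y hy
  exact ⟨v, h9, x, h11, h10, h12⟩

variable {T : IT.{u}} {l r j : Ordinal.{u}}

theorem om_fix [TreeSt.{u}] (h : T.IsTr l) (h1 : T.ND r j) (h2 : T.ND j l) (hb : P.Om ≤ T.b r)
    (ho : T.mp r l P.Om = P.Om) : T.mp r j P.Om = P.Om := by
  have h3 := (TreeSt.strong h h2.le h1).toWeak
  refine le_antisymm ?_ (w_self h3 (lt1 hb))
  conv_rhs => rw [← ho, ← TreeSt.comp h le_rfl h1 h2 _ hb]
  exact w_self (TreeSt.strong h le_rfl h2).toWeak (h3.maps _ (lt1 hb))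

variable [TreeSt.{u}] [BrSt.{u}] [CtsSt.{u}] [NMSt.{u}] [UltFactSt.{u}] [RegSt.{u}] [KEvSt.{u}]
  [KActSt.{u}]

theorem cont (h : T.IsTr l) (hla : ∀ i < T.n, T.la i ≤ P.t.ord) (hr : T.ND r l)
    (H : Tall P (T.E r) (T.b r)) (ho : T.mp r l P.Om = P.Om) (hb : b < T.b r) (hc : b.cof = P.t)
    (hn : NM P (T.E r) (T.b r) b) : ContAt (T.mp r l) b := by
  have hbl := limit_of_cof (hc ▸ (t_inf P).le)
  have H0 := hi_of H
  refine TreeSt.ind (fun j => T.ND j l → ContAt (T.mp r j) b) h (fun _ y hy => ?_)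
    (fun k k1 k2 k3 k4 k5 k6 ih k7 => ?_) (fun c c1 c2 c3 c4 c5 ih c6 y hy => ?_) l le_rfl hr
    IT.ND.refl
  · have h1 : ∀ x ≤ b, T.mp r r x = x := fun x hx => le_antisymm (by
      have h2 := TreeSt.comp h le_rfl IT.ND.refl hr x (hx.trans hb.le)
      have h3 := (TreeSt.strong h le_rfl hr).toWeak
      have h4 := lt1 (hx.trans hb.le)
      exact (w_le h3 ((TreeSt.strong h hr.le IT.ND.refl).maps x h4) h4).1 h2.le)
      (w_self (TreeSt.strong h hr.le IT.ND.refl).toWeak (lt1 (hx.trans hb.le)))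
    rw [h1 b le_rfl] at hy
    have h2 := hbl.add_one_lt hy
    exact ⟨y + 1, h2, by rw [h1 _ h2.le]; exact lt_add_one y⟩
  · have S := h.step k k1 k2
    have hp : T.ND (T.pr k) (k + 1) :=
      IT.nd_pr k1 (TreeSt.pred_le (h.mono k1 k2.le) S.use S.pred) k6
    have hpl := hp.trans k7
    have hst : T.st k = T.b (T.pr k) := le_antisymm S.pred.st_le (not_lt.1 k6)
    have C := BrSt.cof h hpl.le k5
    have hop := om_fix h k5 hpl H.lt.le ho
    have H1 := H0.up (TreeSt.pm h hpl.le) C hop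
    have ih := ih hpl
    have hb' : T.mp r (T.pr k) b < T.b (T.pr k) := by
      conv_rhs => rw [top_eq C.toStrong]
      exact (w_lt C.toWeak (lt1 hb.le) (lt_add_one _)).2 hb
    have hc' : (T.mp r (T.pr k) b).cof = P.t := by
      rw [← hc]
      exact (CofMap.cof_eq ⟨fun x y h1 h2 => (w_le C.toWeak (lt1 ((h1.trans_lt h2).trans hb).le)
        (lt1 (h2.trans hb).le)).2 h1,
        fun x h1 => (w_lt C.toWeak (lt1 (h1.trans hb).le) (lt1 hb.le)).2 h1, ih⟩).symm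
    have U := S.ult
    rw [hst] at U
    have key : ContAt (T.im k) (T.mp r (T.pr k) b) := by
      rcases lt_or_ge (T.pr k) T.n with h1 | h1
      · exact cts_small U ((S.pred.lt (h1.trans_le k1)).trans_le (hla _ h1)) hb'.le hc'
      obtain ⟨v, h2, e, A⟩ := CtsSt.on h k1 k2 h1
      have h3 : v < T.b (T.pr k) := h2.lt_of_ne fun h4 => KL.act_not_pas A (h4 ▸ H1.pas)
      have N := S.pred.noproj
      rw [hst] at N
      have h4 : T.ka k < P.Om := by
        obtain ⟨a, h5, h6, h7⟩ := H1.top _ (A.dom.trans h3)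
        exact (N a h5 (lt1 h6.le)).trans_le h7
      exact cts_nm H1 U (fun x hx => (S.ext x (hx.trans S.use.act.lt)).trans (S.use.act.fix x hx))
        ⟨h4, v, h3, _, e, A, KL.noProj_mono N (H1.lt.le.trans le_self_add)⟩ hb'
        (not_suc_of_limit (limit_of_cof (hc' ▸ (t_inf P).le)))
        (NMSt.up P H H1.pm C.toStrong hop (cof_up H0.lim H1.pm C) hb hn)
    intro y hy
    rw [S.mp r k3 k4 b hb.le] at hy
    obtain ⟨x, h1, h2⟩ := key y hy
    obtain ⟨a, h3, h4⟩ := ih x h1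
    refine ⟨a, h3, ?_⟩
    rw [S.mp r k3 k4 a (h3.trans hb).le]
    exact h2.trans ((w_lt U.toWeak (lt1 (h1.trans hb').le) (C.maps a (lt1 (h3.trans hb).le))).2 h4)
  · have L := h.lim c c2 c3 c1
    have hy' : y ≤ T.b c := hy.le.trans (le1 ((L.strong c4 c5).maps b (lt1 hb.le)))
    obtain ⟨j, j1, j2, x, j3, rfl⟩ := L.onto hy'
    obtain ⟨m, m1, m2, m3, m4⟩ : ∃ m < c, T.ND m c ∧ j ≤ m ∧ r ≤ m := by
      rcases le_total j r with h1 | h1
      exacts [⟨r, c4, c5, h1, le_rfl⟩, ⟨j, j1, j2, le_rfl, h1⟩]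
    have W := (L.strong m1 m2).toWeak
    have hm := (m2.trans c6).le
    have W1 := (TreeSt.strong h hm (j2.cut m3 m2.1)).maps x (lt1 j3)
    have W2 := (TreeSt.strong h hm (c5.cut m4 m2.1)).maps
    rw [← L.comm m3 m1 j2 m2 x j3, ← L.comm m4 m1 c5 m2 b hb.le, w_lt W W1 (W2 b (lt1 hb.le))] at hy
    obtain ⟨a, h1, h2⟩ := ih m m1 m4 m2 (m2.trans c6) _ hy
    refine ⟨a, h1, ?_⟩
    rw [← L.comm m3 m1 j2 m2 x j3, ← L.comm m4 m1 c5 m2 a (h1.trans hb).le]
    exact (w_lt W W1 (W2 a (lt1 (h1.trans hb).le))).2 h2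

theorem tame [S3St.{u}] (h : T.IsTr l) (hla : ∀ i < T.n, T.la i ≤ P.t.ord) (hN : NII P T l)
    (hr : T.ND r l) (G : GoodW P (T.E r) (T.b r)) (ho : T.mp r l P.Om = P.Om) :
    GoodW P (T.E l) (T.b l) ∧ Tame P (T.E r) (T.b r) (T.E l) (T.b l) (T.mp r l) := by
  have C := BrSt.cof h le_rfl hr
  have H0 := hi_of G.toTall
  have H1 := H0.up (TreeSt.pm h le_rfl) C ho
  have M : Tame P (T.E r) (T.b r) (T.E l) (T.b l) (T.mp r l) :=
    ⟨C.toStrong, ho, cof_up H0.lim H1.pm C,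
      G.nm1.mono fun c h1 h2 h3 => cont h hla hr G.toTall ho (h1.trans G.lt) h2 h3,
      G.nm2.mono fun c h1 h2 h3 => cont h hla hr G.toTall ho h1 h2 h3⟩
  refine ⟨S3St.up P G H1.pm (hN l le_rfl _ le_rfl (Or.inr H1.pas)) M
    (Cardinal.isSuccLimit_ord (o_inf P).le).pos fun k t _ h2 h3 => ?_, M⟩
  refine (CtsSt.next h le_rfl hr ⟨h3.1, h3.2.1.trans (G.lt.le.trans le_self_add), h3.2.2.1,
    fun a h4 h5 => ?_⟩ (h3.2.1.trans G.lt.le)).1
  rcases lt_or_ge a P.Om with h6 | h6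
  · exact h3.2.2.2 a h4 h6
  · exact h2.trans_le (not_lt.1 fun h7 => h6.not_gt (KL.lev_lt (o_inf P) (G.pm.ls a h5) h7))

end BrTameI

universe u

instance [TreeSt.{u}] [BrSt.{u}] [CtsSt.{u}] [NMSt.{u}] [UltFactSt.{u}] [RegSt.{u}] [KEvSt.{u}]
    [KActSt.{u}] [S3St.{u}] : BrTameSt.{u} :=
  ⟨fun _ _ _ _ h h1 h2 _ h3 h4 h5 => BrTameI.tame h h1 h2 h3 h4 h5⟩

end Pool.Agent.KM
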