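import Pool.Agent.Lib.MP_5c0be7_lc.T.Ae2
import Pool.Agent.Lib.MP_5c0be7_lc.P.St
import Pool.Agent.Lib.MP_5c0be7_lc.L.St
import Pool.Agent.Lib.MP_5c0be7_lc.K.StZ

/-!
Project KM, block T1: the stack over a weasel, good weasels, thick sets. Definitions and
statements. A weasel is given together with its stack: it is a premouse `(th + 1, E)` in which
`th` is the successor cardinal of `Om`.
-/

namespace Pool.Agent.KM

open Ordinal Cardinal Tr Set Filter

universe u

/-- The parameters: an inaccessible height and the forbidden cofinality. -/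
structure Pa : Type (u + 1) where
  O : Cardinal.{u}
  t : Cardinal.{u}
  hO : O.IsInaccessible
  ht : t.IsRegular
  h1 : ℵ₁ < t
  h2 : t < O

namespace Pa

variable (P : Pa.{u})

/-- The height of the weasels. -/
noncomputable def Om : Ordinal.{u} := P.O.ord

/-- Critical points of cofinality `t` are forbidden. -/
def C : Cfg.{u} := ⟨0, fun k => 0 < k ∧ k.cof ≠ P.t, fun _ h => h.1⟩

/-- Realisable premice. -/
def II (E : Seq.{u}) (b : Ordinal.{u}) : Prop := KM.II P.C 0 E b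

theorem reg : Reg P.O := Reg.of_inacc P.hO

/-- The filter of hulls. -/
def ae (th : Ordinal.{u}) : Filter (Set Ordinal.{u}) := aeF P.reg th

end Pa

section Defs

variable (P : Pa.{u})

/-- `k` is a limit of cardinals of `(k, E)` and a cardinal of `(d, E)`. -/
def LimC (E : Seq.{u}) (d k : Ordinal.{u}) : Prop :=
  IsCard E d k ∧ ∀ x < k, ∃ y, x < y ∧ y < k ∧ IsCard E k y

/-- `(b + 1, F)` is generated by `Om` and a solid parameter above `Om`. -/
structure PreM (F : Seq.{u}) (b : Ordinal.{u}) (p : Tr.{u}) : Prop where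
  pm : PM F (b + 1)
  ii : P.II F b
  le : P.Om ≤ b
  mem : In (b + 1) p
  solid : Solid F (b + 1) p
  ge : ∀ a ∈ p.lv, P.Om ≤ a
  gen : Gen F (b + 1) P.Om p

/-- `(b + 1, F)` is a sound realisable premouse that projects to `Om`. -/
structure Memb (F : Seq.{u}) (b : Ordinal.{u}) : Prop where
  pm : PM F (b + 1)
  ii : P.II F b
  le : P.Om ≤ b
  lev : Lev F (b + 1)
  proj : rho F (b + 1) ≤ P.Om

/-- `(th, E)` is a union of sound realisable premice that project to `Om`. -/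
structure Stk (E : Seq.{u}) (th : Ordinal.{u}) : Prop where
  pm : PM E th
  ii : ∀ c < th, P.II E c
  lt : P.Om < th
  lim : ¬ Suc th
  top : TopC E P.Om th

/-- A weasel with a stack of large cofinality. -/
structure Tall (E : Seq.{u}) (th : Ordinal.{u}) : Prop where
  pm : PM E (th + 1)
  ii : P.II E th
  pas : Pas E th
  lt : P.Om < th
  top : TopC E P.Om th
  cof : P.O ≤ th.cof

/-- The stack is complete. -/
def Full (E : Seq.{u}) (th : Ordinal.{u}) : Prop :=
  ∀ F b, Memb P F b → Agree F E P.Om → b < th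

/-- `k` is the critical point of a total extender of the sequence. -/
def TCrit (E : Seq.{u}) (th k : Ordinal.{u}) : Prop :=
  k < P.Om ∧ ∃ v < th, ∃ t e, Act E v k t e ∧ NoProj E k t P.Om

/-- A named function on the stratum `k` is cofinal in `b` and bounded on the smaller strata. -/
def Disc (E : Seq.{u}) (th b k : Ordinal.{u}) : Prop :=
  ∃ f, In th f ∧ (∀ y < b, ∃ v x, In k v ∧ fv E f v = some (leaf x) ∧ y ≤ x ∧ x < b) ∧
    ∀ k' < k, ∃ y < b, ∀ v x, In k' v → fv E f v = some (leaf x) → x < b → x < y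

/-- The cofinality of `b` in the weasel is not measurable. -/
def NM (E : Seq.{u}) (th b : Ordinal.{u}) : Prop := ∀ k, TCrit P E th k → ¬ Disc E th b k

/-- Good weasels. -/
structure GoodW (E : Seq.{u}) (th : Ordinal.{u}) : Prop extends Tall P E th where
  full : Full P E th
  nm1 : Fat P.t P.Om {b | NM P E th b}
  nm2 : Fat P.t th {b | NM P E th b}

/-- Tame maps between weasels. -/
structure Tame (E : Seq.{u}) (th : Ordinal.{u}) (E' : Seq.{u}) (th' : Ordinal.{u})
    (s : Ordinal.{u} → Ordinal.{u}) : Prop extends Strong E (th + 1) E' (th' + 1) s where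
  om : s P.Om = P.Om
  cof : ∀ y < th', ∃ x < th, y < s x
  c1 : Fat P.t P.Om {b | ContAt s b}
  c2 : Fat P.t th {b | ContAt s b}

/-- Thick sets. -/
def Thick (th : Ordinal.{u}) (G : Set Ordinal.{u}) : Prop :=
  Fat P.t P.Om G ∧ P.Om ∈ G ∧ Fat P.t th G

/-- `a` lies in the hull of every thick set. -/
def Def0 (E : Seq.{u}) (th a : Ordinal.{u}) : Prop :=
  ∀ G, Thick P th G → InHull E (th + 1) G a

/-- The definability property. -/
def DefA (E : Seq.{u}) (th a : Ordinal.{u}) : Prop :=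
  ∀ G, Thick P th G → InHull E (th + 1) (G ∪ Iio a) a

/-- The hull property. -/
def HP (E : Seq.{u}) (th a : Ordinal.{u}) : Prop :=
  ∀ G, Thick P th G → ∀ n, In (th + 1) n → ∃ n' : Tr.{u},
    n'.lv ⊆ {y | InHull E (th + 1) (G ∪ Iio a) y} ∧ ∀ q, In a q → (Nm E n q ↔ Nm E n' q)

/-- Maximality of the weasel below `Om`. -/
def MaxE (E : Seq.{u}) : Prop :=
  ∀ F k t v e, Ext E k t F v e → ω < k → (∀ x < k, e x = x) → k < e k → NoProj E k t P.Om →
    t < P.Om → PM F v → Agree F E (e k) → IsCard E P.Om (e k) →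
    (∀ b, e k ≤ b → b < v → P.II F b) → (e k = P.Om ∨ (v < P.Om ∧ Agree F E v)) →
    OC E F k t e → k.cof = P.t

/-- What the construction gives. -/
structure Base (W : Seq.{u}) : Prop where
  pm : PM W (P.Om + 1)
  ii : P.II W P.Om
  max : MaxE P W
  al : ∀ v k t e, v < P.Om → Act W v k t e → NoProj W k t P.Om → k.cof ≠ P.t

/-- The levels of the models of `T` are realisable, except for active top levels. -/
def NII (T : IT.{u}) (l : Ordinal.{u}) : Prop :=
  ∀ j ≤ l, ∀ c ≤ T.b j, (c < T.b j ∨ Pas (T.E j) c) → P.II (T.E j) c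

/-- The roots are few, each is good or small, and the exchange ordinals are at most `t`. -/
structure Roots (T : IT.{u}) : Prop where
  n : T.n < P.Om
  la : ∀ i < T.n, T.la i ≤ P.t.ord
  rt : ∀ i ≤ T.n, GoodW P (T.E i) (T.b i) ∨ T.b i < P.Om

/-- The tree has length `Om` and sends a small ordinal to `Om`. -/
def Win (T : IT.{u}) : Prop :=
  ∃ j < P.Om, T.ND j P.Om ∧ ∃ a < P.Om, a ≤ T.b j ∧ T.mp j P.Om a = P.Om

/-- A normal tree with last node `l` that uses only indices below `Om`. -/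
structure Low (T : IT.{u}) (l : Ordinal.{u}) : Prop where
  tr : T.IsTr l
  nor : T.Normal l
  nu : ∀ j, T.n ≤ j → j < l → T.nu j < P.Om

/-- Every limit cardinal above `m` has a strong ordinal from `m` on. -/
def Ch (E : Seq.{u}) (m : Ordinal.{u}) : Prop :=
  ∀ c, m < c → c < P.Om → LimC E P.Om c → ∃ x, m ≤ x ∧ x < c ∧ StrongTo E c x

end Defs

/-! Requests to the blocks on condensation and cores. -/

/-- Condensation for good maps into a sound premouse. -/
class Cnd3St : Prop where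
  cond : ∀ {C : Cfg.{u}} {g b0 r : Ordinal.{u}} {E E0 : Seq.{u}} {s}, PM E0 (b0 + 1) →
    Lev E0 (b0 + 1) → PM E (s b0 + 1) → Lev E (s b0 + 1) → II C g E (s b0) → CutPt E (s b0) g →
    Good E0 b0 E s → rho E0 (b0 + 1) = r → rho E (s b0 + 1) = r → g ≤ r → (∀ x ≤ r, s x = x) →
    IsCard E (s b0 + 1) r → Agree E0 E (b0 + 1)

/-- The hull of a cardinal `a` above the projectum keeps the levels that project to `a`, unless
an extender overlaps `a`. -/
class KCoreSt : Prop where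
  kcore : ∀ {C : Cfg.{u}} {g b b1 k a : Ordinal.{u}} {E E1 : Seq.{u}} {s} {p1 : Tr.{u}},
    PM E (b + 1) → II C g E b → CutPt E b g → g ≤ k → Greedy E (b + 1) k (p1.map s) →
    PM E1 (b1 + 1) → Strong E1 (b1 + 1) E (b + 1) s → In (b1 + 1) p1 → Gen E1 (b1 + 1) a p1 →
    k ≤ a → a ≤ b1 → (∀ x < a, s x = x) → a < s a → LimC E (b + 1) a →
    (∀ c ≤ b, rho E c ≤ a → c ≤ b1 ∧ Agree E1 E (c + 1)) ∨
      ∃ m, k ≤ m ∧ m < a ∧ ¬ InHull E (b + 1) (Iio m ∪ (p1.map s).lv) m ∧ Small E m ∧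
        IsCard E a m ∧ StrongTo E a m

/-- Models above a drop are not sound; both sides of a comparison cannot drop. -/
class DropSt : Prop where
  uns : ∀ {T : IT.{u}} {l k}, T.IsTr l → T.n ≤ k → k < l → T.Drop k → T.ND (k + 1) l →
    ¬ Lev (T.E l) (T.b l + 1)
  both : ∀ {T U : IT.{u}} {l m i j}, T.Coit l U m → T.n ≤ i → i < l → T.Drop i → T.ND (i + 1) l →
    U.n ≤ j → j < m → U.Drop j → U.ND (j + 1) m → T.b l ≠ U.b m

/-! General facts. -/

/-- Strong ordinals. -/
class StrSt : Prop where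
  nosup : ∀ {E : Seq.{u}} {v k t e}, PM E (v + 1) → Lev E (v + 1) → Act E v k t e →
    rho E (v + 1) < e k
  down : ∀ {E : Seq.{u}} {d c k}, LS E d → StrongTo E d k → LimC E d c → k < c → c ≤ d →
    StrongTo E c k
  weak : ∀ {E E' : Seq.{u}} {d d' c k m s}, Weak E d E' d' s → LS E d → LS E' d' → ¬ Suc m →
    c < m → m ≤ d → k < c → (StrongTo E' (s c) (s k) ↔ StrongTo E c k)
  limc : ∀ {E E' : Seq.{u}} {b k m s}, Good E b E' s → PM0 E (b + 1) → PM0 E' (s b + 1) → ¬ Suc m →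
    k < m → m ≤ b + 1 → (∀ x < k, s x = x) → k < s k → IsCard E' (s k) k →
    LimC E b k ∧ LimC E' (s b) (s k)
  crit : ∀ {E : Seq.{u}} {v k t e}, LS E v → Act E v k t e → LimC E v k
  refl : ∀ {E E' : Seq.{u}} {d d' k m x s}, Weak E d E' d' s → PM0 E d → PM0 E' d' → ¬ Suc m →
    k < m → m ≤ d → (∀ x < k, s x = x) → k ≤ x → x < s k → StrongTo E' (s k) x → ¬ Small E' k

/-- Realisability at passive limit levels. -/
class IILimSt : Prop where
  lim : ∀ {C : Cfg.{u}} {E : Seq.{u}} {th}, ℵ₀ < th.cof → Pas E th →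
    (∀ a < th, ∃ c, a < c ∧ c < th ∧ ¬ Suc c ∧ Pas E c ∧ II C 0 E c) → II C 0 E th

/-- Realisable lifts. -/
class UltIISt : Prop where
  lift : ∀ {C : Cfg.{u}} {E E1 : Seq.{u}} {a k t v e}, PM E (a + 1) → PM0 E1 v →
    Ext E k t E1 v e → t ≤ a → NoProj E k t (a + 1) → TopCts E a k t e →
    (∀ (E0 : Seq.{u}) a0 k0 t0 r (Z : Set Ordinal.{u}), a0 < ω₁ → PM0 E0 (a0 + 1) →
      Strong E0 (a0 + 1) E (a + 1) r → r k0 = k → r t0 = t → k0 < t0 → t0 ≤ a0 → Z.Countable →
      ∃ G j th, PM0 G (j a0 + 1) ∧ II C 0 G (j a0) ∧ Good E0 a0 G j ∧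
        (∀ z ∈ Z, z < e k → th z < j k0) ∧ ∀ n w : Tr.{u}, In t0 n → w.lv ⊆ Z → In (e k) w →
          (Nm E1 (n.map (e ∘ r)) w ↔ Nm G (n.map j) (w.map th))) →
    ∃ E' i, IsUlt E a k E' i ∧ (∀ x < t, i x = e x) ∧ i t = v ∧ Agree E' E1 v ∧
      PM E' (i a + 1) ∧ II C 0 E' (i a)

/-- Continuity and sizes of ultrapower and branch maps. -/
class CtsSt : Prop where
  next : ∀ {T : IT.{u}} {l i j k t}, T.IsTr l → j ≤ l → T.ND i j →
    IsNext (T.E i) (T.b i + 1) k t → t ≤ T.b i →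
    ContAt (T.mp i j) t ∧ IsNext (T.E j) (T.b j + 1) (T.mp i j k) (T.mp i j t)
  size : ∀ {E E' : Seq.{u}} {b k a i} {O : Cardinal.{u}}, O.IsInaccessible → IsUlt E b k E' i →
    i k < O.ord → a ≤ b → a < O.ord → (b < O.ord ∨ (¬ Suc b ∧ Pas E b ∧ Pas E' (i b))) →
    i a < O.ord
  on : ∀ {T : IT.{u}} {l j}, T.IsTr l → T.n ≤ j → j < l → T.n ≤ T.pr j →
    ∃ v ≤ T.b (T.pr j), ∃ e, Act (T.E (T.pr j)) v (T.ka j) (T.ta j) e

/-- Countable types are realised in hulls. -/
class TypeSt : Prop where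
  ae : ∀ {O : Cardinal.{u}} (hO : Reg O) {th : Ordinal.{u}} {I : Type (u + 1)},
    #I < Cardinal.lift.{u + 1} O → ∀ A : I → Tr.{u} → Prop,
    ∀ᶠ X in aeF hO th, ∀ Z : Set Ordinal.{u}, Z.Countable → Z ⊆ Iio th → ∀ J : Set I, J.Countable →
      ∃ r : Ordinal.{u} → Ordinal.{u}, (∀ z ∈ Z, r z ∈ X) ∧ (∀ z ∈ Z, z ∈ X → r z = z) ∧
        ∀ i ∈ J, ∀ q : Tr.{u}, q.lv ⊆ Z → (A i q ↔ A i (q.map r))

/-! The stack. -/

/-- Reflection of the stack to levels of the weasel. -/
class ReflSt : Prop where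
  memb : ∀ (P : Pa.{u}) {F b th}, Memb P F b → b < th → ∀ᶠ X in P.ae th, ∀ e, Cut P.O X e →
    unc th X e = P.Om ∧ unc th X (col th X b) = b ∧ col th X b + 1 < P.Om ∧
    Strong F (col th X b + 1) F (b + 1) (unc th X) ∧ rho F (col th X b + 1) = e ∧
    (pp F (col th X b + 1)).map (unc th X) = pp F (b + 1)
  stk : ∀ (P : Pa.{u}) {E c th}, Stk P E c → c ≤ th → ∀ᶠ X in P.ae th, ∀ e, Cut P.O X e →
    unc th X e = P.Om ∧ col th X c < P.Om ∧ ¬ Suc (col th X c) ∧ Pas E (col th X c) ∧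
    e < col th X c ∧ TopC E e (col th X c) ∧ Weak E (col th X c) E c (unc th X) ∧
    OC E E e (col th X c) (unc th X)
  lin : ∀ (P : Pa.{u}) {F F' b b'}, Memb P F b → Memb P F' b' → Agree F F' P.Om → b ≤ b' →
    Agree F F' (b + 1)

/-- The lift of a collapsing level. -/
class LiftXSt : Prop where
  lift : ∀ (P : Pa.{u}) {E c e c0 a s}, Stk P E c → Ext E e c0 E c s → (∀ x < e, s x = x) →
    s e = P.Om → OC E E e c0 s → LimC E P.Om e → Pas E c0 → c0 ≤ a → a + 1 < P.Om →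
    NoProj E e c0 (a + 1) → rho E (a + 1) ≤ e →
    ∃ F b p, PreM P F b p ∧ c ≤ b ∧ Agree F E c ∧ InHull F (b + 1) (Iio e ∪ p.lv) P.Om ∧
      ∀ k < e, Named F (b + 1) k (Th F (b + 1) p)

/-- Lifts over a maximal weasel do not project. -/
class NPSt : Prop where
  np : ∀ (P : Pa.{u}) {W F b p e c}, MaxE P W → PreM P F b p → Agree F W P.Om → P.Om < c → c ≤ b →
    ¬ Suc c → InHull F (b + 1) (Iio e ∪ p.lv) P.Om →
    (∀ k < e, Named F (b + 1) k (Th F (b + 1) p)) → Memb P F b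

/-- The construction. -/
class BaseSt : Prop where
  base : ∀ P : Pa.{u}, NG P.Om → ∃ W, Base P W

/-- S2: the stack over the maximal weasel is good. -/
class S2St : Prop where
  tall : ∀ (P : Pa.{u}) {W}, Base P W → ∃ E th, Agree E W P.Om ∧ Tall P E th ∧ Full P E th

/-- Cofinalities in weasels. -/
class NMSt : Prop where
  up : ∀ (P : Pa.{u}) {E E' th th' s b}, Tall P E th → PM E' (th' + 1) →
    Strong E (th + 1) E' (th' + 1) s → s P.Om = P.Om → (∀ y < th', ∃ x < th, y < s x) → b < th →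
    NM P E th b → NM P E' th' (s b)
  down : ∀ (P : Pa.{u}) {E E' th th' s b}, PM E (th + 1) → Tall P E' th' →
    Strong E (th + 1) E' (th' + 1) s → P.Om < th → s P.Om = P.Om → b < th →
    ContAt s b → NM P E' th' (s b) → NM P E th b
  base : ∀ (P : Pa.{u}) {W E th b}, Base P W → Agree E W P.Om → Tall P E th → b.cof = P.t →
    NM P E th b

/-- S3: tame maps that are continuous at successor cardinals lead to good weasels. -/
class S3St : Prop where
  up : ∀ (P : Pa.{u}) {E E' th th' s k0}, GoodW P E th → PM E' (th' + 1) → P.II E' th' →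
    Tame P E th E' th' s → k0 < P.Om →
    (∀ k t, k0 ≤ k → k < P.Om → IsNext E P.Om k t → ContAt s t) → GoodW P E' th'

/-- S4: thick hulls of good weasels are good. -/
class S4St : Prop where
  down : ∀ (P : Pa.{u}) {E th G}, GoodW P E th → Thick P th G →
    ∃ E0 th0 s, GoodW P E0 th0 ∧ Tame P E0 th0 E th s ∧ StrictMono s ∧
      s '' Iic th0 = {y | InHull E (th + 1) G y}

/-! Trees. -/

/-- Ultrapowers of good weasels. -/
class LiftSt : Prop where
  lift : ∀ (P : Pa.{u}) {E E' th k i}, GoodW P E th → IsUlt E th k E' i → k < P.Om →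
    PM E' (i th + 1) → P.II E' (i th) → (∀ x ≤ k, x.cof = P.t → ContAt i x) →
    (∀ x < P.Om, i x < P.Om) → GoodW P E' (i th) ∧ Tame P E th E' (i th) i

/-- Branch maps that fix `Om` are tame. -/
class BrTameSt : Prop where
  tame : ∀ (P : Pa.{u}) {T : IT.{u}} {l r}, T.IsTr l → (∀ i < T.n, T.la i ≤ P.t.ord) → NII P T l →
    r ≤ T.n → T.ND r l → GoodW P (T.E r) (T.b r) → T.mp r l P.Om = P.Om →
    GoodW P (T.E l) (T.b l) ∧ Tame P (T.E r) (T.b r) (T.E l) (T.b l) (T.mp r l)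

/-- Trees below `Om`. -/
class TriSt : Prop where
  size : ∀ (P : Pa.{u}) {T : IT.{u}} {l i j a}, Low P T l → Roots P T → j ≤ l → j < P.Om →
    T.ND i j → a ≤ T.b i → a < P.Om → T.mp i j a < P.Om
  tri : ∀ (P : Pa.{u}) {T : IT.{u}} {l}, Low P T l → Roots P T → l ≤ P.Om ∧
    ((∃ r, T.Root r l ∧ T.ND r l ∧ GoodW P (T.E r) (T.b r) ∧ T.mp r l P.Om = P.Om) ∨
      T.b l < P.Om ∨ (l = P.Om ∧ Win P T))
  club : ∀ (P : Pa.{u}) {T : IT.{u}}, Low P T P.Om → Roots P T → Win P T →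
    Clb P.Om {c | T.n ≤ c ∧ T.ND c P.Om ∧ c ≤ T.b c ∧ (∀ x < c, T.mp c P.Om x = x) ∧
      T.mp c P.Om c = P.Om}

/-- No tree wins against a good weasel or against a winner. -/
class NoWinSt : Prop where
  good : ∀ (P : Pa.{u}) {T : IT.{u}} {E th}, Low P T P.Om → Roots P T → NII P T P.Om → Win P T →
    GoodW P E th → ¬ Agree (T.E P.Om) E P.Om
  win : ∀ (P : Pa.{u}) {T U : IT.{u}} {l m}, T.Coit l U m → P.Om ≤ l → P.Om ≤ m →
    Low P T P.Om → Low P U P.Om → Roots P T → Roots P U → Win P T → ¬ Win P U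

/-- Comparison with a good weasel. -/
class WinSt : Prop where
  br : ∀ (P : Pa.{u}) {T : IT.{u}} {l r}, Low P T l → Roots P T → NII P T l → l < P.Om →
    T.Root r l → T.ND r l → GoodW P (T.E r) (T.b r) →
    GoodW P (T.E l) (T.b l) ∧ Tame P (T.E r) (T.b r) (T.E l) (T.b l) (T.mp r l)
  win : ∀ (P : Pa.{u}) {T U : IT.{u}} {l m r}, T.Coit l U m → Roots P T → Roots P U →
    NII P T l → NII P U m → T.Root r l → T.ND r l → GoodW P (T.E r) (T.b r) → T.b l ≤ U.b m →
    ∃ r', U.Root r' m ∧ U.ND r' m ∧ GoodW P (U.E r') (U.b r') ∧ T.b l = U.b m ∧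
      GoodW P (T.E l) (T.b l) ∧ Tame P (T.E r) (T.b r) (T.E l) (T.b l) (T.mp r l) ∧
      Tame P (U.E r') (U.b r') (T.E l) (T.b l) (U.mp r' m)

/-- S5: comparison of two good weasels. -/
class S5St : Prop where
  cmp : ∀ (P : Pa.{u}) {E E' th th' h}, GoodW P E th → GoodW P E' th' → Agree E E' h →
    ∃ (T : IT.{u}) (l : Ordinal.{u}) (U : IT.{u}) (m : Ordinal.{u}),
      (IT.one E th).EqLt T 1 ∧ (IT.one E' th').EqLt U 1 ∧ T.Coit l U m ∧ T.ND 0 l ∧ U.ND 0 m ∧
      (∀ i < l, h ≤ T.nu i) ∧ (∀ j < m, h ≤ U.nu j) ∧ T.b l = U.b m ∧ GoodW P (T.E l) (T.b l) ∧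
      Tame P E th (T.E l) (T.b l) (T.mp 0 l) ∧ Tame P E' th' (T.E l) (T.b l) (U.mp 0 m)

/-! Definability. -/

/-- An extender that overlaps a limit cardinal has a strong critical point. -/
class OverSt : Prop where
  ovl : ∀ {T : IT.{u}} {l j a}, T.IsTr l → T.Normal l → T.n = 0 → Pas (T.E 0) (T.b 0) →
    LimC (T.E 0) (T.b 0 + 1) a → a ≤ T.b 0 → (∀ i < l, a < T.nu i) → j < l → T.ka j < a →
    Small (T.E 0) (T.ka j) ∧ StrongTo (T.E 0) a (T.ka j) ∧ LimC (T.E 0) a (T.ka j)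

/-- The induction step for the hull property. -/
class HPSt : Prop where
  step : ∀ (P : Pa.{u}) {E th a}, GoodW P E th → a < P.Om → LimC E P.Om a →
    (∀ m < a, Small E m → StrongTo E a m → LimC E a m → DefA P E th m ∧ HP P E th m) →
    HP P E th a

/-- D2, D3: the hull property holds on a club. -/
class D3St : Prop where
  defa : ∀ (P : Pa.{u}) {E th m}, GoodW P E th → m < P.Om → IsCard E P.Om m → Small E m →
    Ch P E m → DefA P E th m
  club : ∀ (P : Pa.{u}) {E th}, GoodW P E th → Clb P.Om {a | HP P E th a}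

/-- D4: the definable points are unbounded. -/
class D4St : Prop where
  unb : ∀ (P : Pa.{u}) {E th}, GoodW P E th → MaxE P E → Unb {a | Def0 P E th a} P.Om

/-- The result of block T1. -/
class OutSt : Prop where
  out : ∀ P : Pa.{u}, NG P.Om → ∀ z < P.Om, ∃ E th, GoodW P E th ∧
    ∀ E' th' i j, Tame P E th E' th' i → Tame P E th E' th' j → ∀ x < z, i x = j x

end Pool.Agent.KM
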