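import Pool.Agent.Lib.MP_5c0be7_lc.P.Cnd
import Pool.Agent.Lib.MP_5c0be7_lc.T.St

/-!
Project KM, block T1: phalanx comparison and condensation for good maps.
-/

namespace Pool.Agent.KM

open Ordinal Tr

universe u

namespace Cnd3I

open Phx

variable {C : Cfg.{u}} {E E0 E1 : Seq.{u}} {a b b0 b1 g r l m : Ordinal.{u}} {T U : IT.{u}}
  {s : Ordinal.{u} → Ordinal.{u}}

theorem cut_good (pm1 : PM0 E1 (b1 + 1)) (pm : PM0 E (s b1 + 1)) (G0 : Good E1 b1 E s)
    (cut : CutPt E (s b1) g) (fix : ∀ x < g, s x = x) : CutPt E1 b1 g := fun v k t e hg hv A => by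
  obtain ⟨e', A', -⟩ := KActSt.good_act pm1 pm G0 hv A
  have h1 := cut _ _ _ _ (hg.trans (KE.w_self G0.toWeak (KE.lt1 hv)))
    (KE.le1 (G0.maps v (KE.lt1 hv))) A'
  by_contra hk
  rw [fix k (not_le.1 hk)] at h1
  exact hk h1

variable [TreeSt.{u}] [CmpSt.{u}] [BrSt.{u}] [KeySt.{u}] [KDJSt.{u}] [DJ1St.{u}] [ActSt.{u}]
  [KIISt.{u}] [KIterSt.{u}]

/-- Comparison of the phalanx given by a good map. -/
theorem phx (pm : PM E (b + 1)) (pm1 : PM E1 (b1 + 1)) (ii : II C g E b) (cut : CutPt E b g)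
    (G0 : Good E1 b1 E s) (top : s b1 = b) (fix : ∀ x < a, s x = x) (le : a ≤ b1) (hab : a ≤ b)
    (card : IsCard E1 (b1 + 1) a) (gle : g ≤ a) (pas : Pas E a) (hag : Agree E1 E (a + 1)) :
    ∃ T l U m, PhxOut g E b E1 b1 s a T l U m := by
  have hgb : g ≤ b := gle.trans hab
  have P2 := phal_two pm pm1 hab le pas (KL.ag_symm (KL.ag_mono hag (lt_add_one a).le)) card
  have P1 := phal_one pm
  have cut1 : CutPt E1 b1 g := cut_good pm1.toPM0 (top ▸ pm.toPM0) G0 (top ▸ cut)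
    fun x hx => fix x (hx.trans_le gle)
  obtain ⟨T, l, U, m, eT, eU, co, abT, abU, nuT, nuU⟩ := CmpSt.compare (h := a + 1)
    (KIterSt.iter P2 (KIISt.two ii P2 G0 top fix))
    (KIterSt.iter P1 (KIISt.one pm.toPM0 ii)) (by simpa using hag)
    (fun i hi => by rw [lt_one' hi]; simp) (fun i hi => absurd hi (by simp))
    (gle.trans (lt_add_one a).le) (gle.trans (lt_add_one a).le)
    (fun i hi => by
      rcases le_one' hi with rfl | rfl
      · simpa using cut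
      · simpa using cut1)
    (fun _ _ => cut)
  have eT2 : (IT.two E b E1 b1 a).EqLt T 2 := by
    have : (IT.two E b E1 b1 a).n + 1 = 2 := by simp [one_add_one_eq_two]
    rwa [this] at eT
  have eU1 : (IT.one E b).EqLt U 1 := by simpa using eU
  have Tn : T.n = 1 := eT2.n
  have Un : U.n = 0 := eU1.n
  have TE0 : T.E 0 = E := (eT2.E zero_lt_two').trans two_E0
  have Tb0 : T.b 0 = b := (eT2.b zero_lt_two').trans two_b0
  have Tla : T.la 0 = a := (eT2.la (by simp)).trans two_la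
  have UE0 : U.E 0 = E := eU1.E zero_lt_one
  have Ub0 : U.b 0 = b := eU1.b zero_lt_one
  have hl : (1 : Ordinal.{u}) ≤ l := Tn ▸ co.tr.le
  have hl0 : (0 : Ordinal.{u}) < l := zero_lt_one.trans_le hl
  have pT := (TreeSt.pm co.tr le_rfl).toPM0
  have pU := (TreeSt.pm co.tr' le_rfl).toPM0
  -- the branch map of `U`, read as a map into a level of the last model of `T`
  have gU : U.ND 0 m → U.b m ≤ T.b l →
      Good E b (T.E l) (U.mp 0 m) ∧ U.mp 0 m b = U.b m := fun h hb => by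
    have h1 := TreeSt.strong co.tr' le_rfl h
    rw [UE0, Ub0] at h1
    have h2 : U.mp 0 m b = U.b m := (KE.s1inj (h1.top b rfl)).symm
    have h3 := KL.strong_right (Seg.ag_right co hb) h1
    rw [← h2] at h3
    exact ⟨KGoodSt.strong_good pm.toPM0
      (KE.pm0_mono pT (by rw [h2]; exact add_le_add_left hb 1)) h3, h2⟩
  have gT : T.ND 0 l → T.b l ≤ U.b m →
      Good E b (U.E m) (T.mp 0 l) ∧ T.mp 0 l b = T.b l := fun h hb => by
    have h1 := TreeSt.strong co.tr le_rfl h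
    rw [TE0, Tb0] at h1
    have h2 : T.mp 0 l b = T.b l := (KE.s1inj (h1.top b rfl)).symm
    have h3 := KL.strong_right (Seg.ag_left co hb) h1
    rw [← h2] at h3
    exact ⟨KGoodSt.strong_good pm.toPM0
      (KE.pm0_mono pU (by rw [h2]; exact add_le_add_left hb 1)) h3, h2⟩
  have key : T.b l ≤ U.b m ∧ ∃ r, T.Root r l ∧ T.ND r l := by
    refine (Seg.outcome co).elim id ?_
    rintro ⟨hb, r, hr, hn⟩
    obtain rfl : r = 0 := nonpos_iff_eq_zero.1 (Un ▸ hr.1)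
    obtain ⟨G, h2⟩ := gU hn hb
    obtain ⟨r, hr⟩ := T.exists_root l
    rcases le_one' (Tn ▸ hr.1) with rfl | rfl
    · have := KDJSt.two ii G0 top fix eT2 co.tr abT hr hgb G (h2 ▸ hb)
      exact ⟨(h2 ▸ this.2.1).ge, 0, hr, this.1⟩
    · have := DJ1St.two1 ii G0 top fix eT2 co.tr abT hr hgb G (h2 ▸ hb)
      exact ⟨(h2 ▸ this.2.1).ge, 1, hr, this.1⟩
  obtain ⟨hb, r, hr, hn⟩ := key
  have hr1 : r = 1 := by
    refine (le_one' (Tn ▸ hr.1)).resolve_left ?_
    rintro rfl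
    obtain ⟨G, h2⟩ := gT hn hb
    obtain ⟨n0, e0, l0⟩ := KDJSt.one ii eU1 co.tr' abU hgb G (h2 ▸ hb)
    have hb' : T.b l = U.b m := h2 ▸ e0
    obtain ⟨G', h3⟩ := gU n0 hb'.ge
    have l1 := (KDJSt.two ii G0 top fix eT2 co.tr abT hr hgb G'
      (h3 ▸ hb'.ge)).2.2
    have ee : ∀ x ≤ b, T.mp 0 l x = U.mp 0 m x := fun x hx => le_antisymm (l1 x hx) (l0 x hx)
    obtain ⟨i, hi, hil, -, hs, hd, he⟩ := Seg.first co.tr hn hl0
    rw [Tb0] at hs he
    rcases eq_or_ne m 0 with rfl | hm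
    · have h4 : T.ka i ≤ b := hs ▸ (Seg.ka_lt_st (co.tr.step i hi hil)).le
      have h5 := ee _ h4
      rw [he _ h4, Seg.mp_id co.tr' le_rfl (Ub0 ▸ h4)] at h5
      exact (Seg.sg_move co.tr hi hil hd).ne' h5
    · obtain ⟨j, hj, hjm, -, hs', hd', he'⟩ := Seg.first co.tr' n0 (pos_iff_ne_zero.2 hm)
      rw [Ub0] at hs' he'
      exact Seg.noeq co hi hil hj hjm hd hd' hb' fun x hx _ => by
        rw [← he x (hs ▸ hx), ← he' x (hs ▸ hx), ee x (hs ▸ hx)]
  subst hr1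
  have nu : ∀ j < m, a < U.nu j := fun j hj => IT.s_lt (nuU j (Un.le.trans zero_le) hj)
  refine ⟨T, l, U, m, eT2, eU1, co, abT, abU, fun i hi hil => IT.s_lt (nuT i (Tn ▸ hi) hil), nu,
    fun j hj => ?_, hn, hb, fun h hb' x hx => ?_⟩
  · have hj0 : U.n ≤ j := Un.le.trans zero_le
    have S := co.tr'.step j hj0 hj
    have hc : IsCard (T.E l) (T.b l + 1) a := Tla ▸ TreeSt.card co.tr hl0 le_rfl
    have h1 := co.le' j hj0 hj
    obtain ⟨y, hy, hy', hr⟩ := ActSt.top ((TreeSt.pm co.tr' hj.le).ls.mono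
      (S.use.le.trans (lt_add_one _).le)) S.use.act a (nu j hj)
    rw [S.la]
    refine le_trans ?_ hr
    rw [KL.rho_lt (TreeSt.nu_agree co.tr' co.nor' hj0 hj le_rfl).1 hy',
      ← KL.rho_lt (Seg.ag_left co hb) (KE.lt1 (hy'.le.trans h1))]
    exact hc y hy (KE.lt1 (hy'.le.trans h1))
  · obtain ⟨G, h2⟩ := gU h hb'.ge
    exact (DJ1St.two1 ii G0 top fix eT2 co.tr abT hr hgb G (h2 ▸ hb'.ge)).2.2 x hx

variable [AccSt.{u}] [AgreeSt.{u}]

theorem cond (h0 : PM E0 (b0 + 1)) (hl : Lev E0 (b0 + 1)) (hE : PM E (s b0 + 1))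
    (hlE : Lev E (s b0 + 1)) (hI : II C g E (s b0)) (hC : CutPt E (s b0) g) (hs : Good E0 b0 E s)
    (hr0 : rho E0 (b0 + 1) = r) (hrE : rho E (s b0 + 1) = r) (hg : g ≤ r) (hf : ∀ x ≤ r, s x = x)
    (hc : IsCard E (s b0 + 1) r) : Agree E0 E (b0 + 1) := by
  have hb : r ≤ b0 := hr0 ▸ F3.rho_top E0 b0
  have hr := hr0.le
  have hag : Agree E0 E (r + 1) := AgreeSt.of_fix h0.toPM0 hE.toPM0 hs.toWeak
    (add_le_add_left hb 1) fun x hx => hf x (KE.le1 hx)
  rcases hb.lt_or_eq with hb' | rfl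
  swap
  · exact hag
  have hrb : r < s b0 := by
    have := (KE.w_lt hs.toWeak (KE.lt1 hb) (lt_add_one b0)).2 hb'
    rwa [hf r le_rfl] at this
  have pas : Pas E r := by
    refine (hE.act r (KE.lt1 hrb.le)).resolve_right ?_
    rintro ⟨k, t, e, A⟩
    exact ((hc (r + 1) (lt_add_one r).le (KE.s1lt hrb)).trans
      (ActSt.proj (hE.ls.mono (KE.s1lt hrb).le) A)).not_gt (A.weak.maps k A.lt)
  obtain ⟨T, l, U, m, O⟩ := phx hE h0 hI hC hs rfl (fun x hx => hf x hx.le) hb hrb.le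
    (hr0 ▸ KL.card_mono (AccSt.card_rho E0 (b0 + 1) h0.ls) (lt_add_one _).le) hg pas hag
  have co := O.coit
  have Tn : T.n = 1 := O.eqT.n
  have Un : U.n = 0 := O.eqU.n
  have TE1 : T.E 1 = E0 := (O.eqT.E one_lt_two').trans two_E1
  have Tb1 : T.b 1 = b0 := (O.eqT.b one_lt_two').trans two_b1
  have Tla : T.la 0 = r := (O.eqT.la (by simp)).trans two_la
  have UE0 : U.E 0 = E := O.eqU.E zero_lt_one
  have Ub0 : U.b 0 = s b0 := O.eqU.b zero_lt_one
  have cm : CoreMap E0 b0 (T.E l) (T.b l) (T.mp 1 l) :=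
    { toCof := by have := BrSt.cof co.tr le_rfl O.nd; rwa [TE1, Tb1] at this
      pm := h0.toPM0
      pm' := (TreeSt.pm co.tr le_rfl).toPM0
      sound := hl
      fix := fun x hx => TreeSt.fix co.tr le_rfl O.nd zero_lt_one x (Tla ▸ hx.trans_le hr)
      pp := fun A hA => by
        have := Cnd.back co.tr co.nor (fun h => by
          rw [Tn] at h ⊢; exact hr.trans_lt (O.nuT 1 le_rfl h)) hA
        rwa [Tn, TE1, Tb1] at this }
  rcases O.le.lt_or_eq with hlt | heq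
  · obtain ⟨e1, e2, -⟩ := KeySt.key cm (Seg.core_id cm.pm' (Seg.lev_left co hlt))
    have e3 : Agree E0 (U.E m) (b0 + 1) := KL.ag_trans e2 (e1 ▸ Seg.ag_left co hlt.le)
    have e4 : b0 + 1 ≤ U.b m := e1 ▸ IT.s_le hlt
    rcases eq_or_ne m 0 with rfl | hm0
    · exact UE0 ▸ e3
    · have hm1 := pos_iff_ne_zero.2 hm0
      obtain ⟨h2, -, -, h3⟩ := TreeSt.nu_agree co.tr' co.nor' Un.le hm1 le_rfl
      have h4 : b0 + 1 < U.nu 0 := by
        by_contra hn
        have := h3 _ (not_lt.1 hn) (KE.lt1 e4)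
        rw [← KL.rho_suc e3] at this
        exact (this.trans hr).not_gt (O.nuU 0 hm1)
      exact KL.ag_trans e3 (UE0 ▸ KL.ag_mono (KL.ag_symm h2) h4.le)
  · have c1 := Seg.core_ag cm (Seg.ag_left co heq.le)
    rw [heq] at c1
    rcases TreeSt.last co.tr' le_rfl with ⟨r0, hr0', hn⟩ | ⟨j, hj, hjm, hdr, hd⟩
    · obtain rfl : r0 = 0 := nonpos_iff_eq_zero.1 (Un ▸ hr0'.1)
      have hfix : ∀ x < r, U.mp 0 m x = x := fun x hx => by
        have hxb : x ≤ U.b 0 := Ub0 ▸ (hx.trans hrb).le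
        rcases eq_or_ne m 0 with rfl | hm0
        · exact Seg.mp_id co.tr' le_rfl hxb
        obtain ⟨i, hi, him, -, hs', hd', he⟩ := Seg.first co.tr' hn (pos_iff_ne_zero.2 hm0)
        rcases le_or_gt r (U.ka i) with h1 | h1
        · rw [he x hxb]; exact Seg.sg_fix co.tr' hi him hd' (hx.trans_le h1)
        exfalso
        have h2 := BrSt.rho co.tr' Un.le (Un ▸ IT.le_zero) hn (U.ka i)
          (by rw [UE0, Ub0, hrE]; exact h1)
        rw [he _ (Ub0 ▸ (h1.trans hrb).le)] at h2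
        have h3 : rho E0 (b0 + 1) < rho (U.E m) (U.b m + 1) :=
          (hr.trans ((O.laU i him).trans (Seg.la_le_sg co.tr' hi him hd'))).trans_lt h2
        obtain ⟨p, hp⟩ := hl.1
        refine F3.diag hp.2.2.2 (F3.named_congr
          (c1.pp _ (F3.named_of_lt h3 (KE.w_in c1.toWeak hp.1))) fun q hq => ?_)
        exact Cnd.th_map c1.toStrong (rho_le _ _) c1.fix hp.1 hq
      have c2 : CoreMap E (s b0) (U.E m) (U.b m) (U.mp 0 m) :=
        { toCof := by have := BrSt.cof co.tr' le_rfl hn; rwa [UE0, Ub0] at this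
          pm := hE.toPM0
          pm' := c1.pm'
          sound := hlE
          fix := fun x hx => hfix x (hrE ▸ hx)
          pp := fun A hA => by
            have := Cnd.back co.tr' co.nor' (fun h => by
              rw [Un] at h ⊢; rw [hrE]; exact O.nuU 0 h) hA
            rwa [Un, UE0, Ub0] at this }
      exact (KeySt.key c1 c2).2.1
    · exfalso
      obtain ⟨e1, -, e2⟩ := KeySt.key c1 (BrSt.core co.tr' hj hjm hdr hd)
      rcases (O.nd.le).lt_or_eq with h1 | rfl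
      · obtain ⟨i, hi, hil, -, hs', hd', he⟩ := Seg.first co.tr O.nd h1
        rw [Tb1] at hs' he
        exact Seg.noeq co hi hil hj hjm hd' hd heq fun x hx _ => by
          rw [← he x (hs' ▸ hx)]; exact e2 x (hs' ▸ hx)
      · have h4 : U.ka j ≤ b0 := e1 ▸ (Seg.ka_lt_st (co.tr'.step j hj hjm)).le
        have h5 := e2 _ h4
        rw [Seg.mp_id co.tr le_rfl (Tb1 ▸ h4)] at h5
        exact (Seg.sg_move co.tr' hj hjm hd).ne h5

end Cnd3I

instance [TreeSt.{u}] [CmpSt.{u}] [BrSt.{u}] [KeySt.{u}] [KDJSt.{u}] [DJ1St.{u}] [ActSt.{u}]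
    [KIISt.{u}] [KIterSt.{u}] [AccSt.{u}] [AgreeSt.{u}] : Cnd3St.{u} :=
  ⟨fun h0 hl hE hlE hI hC hs hr0 hrE hg hf hc => Cnd3I.cond h0 hl hE hlE hI hC hs hr0 hrE hg hf hc⟩

end Pool.Agent.KM
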