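import Pool.Agent.Lib.MP_5c0be7_lc.T.St
import Pool.Agent.Lib.MP_5c0be7_lc.K.Loc
import Pool.Agent.Lib.MP_5c0be7_lc.O.FO2

/-!
Project KM, block T1: the definability property at small chain points, and the hull property on
a club.
-/

namespace Pool.Agent.KM

open Ordinal Cardinal Tr Set

universe u

namespace D3I

variable {P : Pa.{u}} {E : Seq.{u}} {th a c d d' m : Ordinal.{u}}

theorem limC_mono (h : LimC E d c) (hd : d' ≤ d) : LimC E d' c := ⟨KL.card_mono h.1 hd, h.2⟩

theorem card_trans (h : IsCard E a m) (h' : IsCard E d a) (hm : m ≤ a) : IsCard E d m :=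
  fun x h1 h2 => (lt_or_ge x a).elim (h x h1) fun h3 => hm.trans (h' x h3 h2)

theorem om_cof (P : Pa.{u}) : ℵ₀ < P.Om.cof := by
  rw [Pa.Om, P.hO.isRegular.cof_ord]; exact P.hO.aleph0_lt

theorem om_lim (P : Pa.{u}) : Order.IsSuccLimit P.Om := limit_of_cof (om_cof P).le

theorem om_ns (P : Pa.{u}) : ¬ Suc P.Om := not_suc_iff.2 fun _ h => (om_lim P).add_one_lt h

/-- Uncountable cardinals are cardinals of every sound hierarchy. -/
theorem card_ord (l : LS E d) {O : Cardinal.{u}} (hO : ℵ₀ < O) : IsCard E d O.ord :=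
  fun x h1 h2 => not_lt.1 fun h3 => absurd (KL.lev_lt hO (l x h2) h3) (not_lt.2 h1)

/-- Limit cardinals of the weasel form a club. -/
theorem limC_club (l : LS E P.Om) : Clb P.Om {c | LimC E P.Om c} := by
  have hu : Unb {c | IsCard E P.Om c} P.Om := fun x hx => by
    have h1 : max x.card ℵ₀ < P.O := max_lt (Cardinal.lt_ord.1 hx) P.hO.aleph0_lt
    refine ⟨(Order.succ (max x.card ℵ₀)).ord,
      card_ord l ((le_max_right _ _).trans_lt (Order.lt_succ _)),
      Cardinal.lt_ord.2 ((le_max_left _ _).trans_lt (Order.lt_succ _)),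
      Cardinal.ord_lt_ord.2 (P.hO.isStrongLimit.isSuccLimit.succ_lt h1)⟩
  refine (Clb.of_unb hu).mono fun c hc h => ⟨fun x h1 h2 => le_of_forall_lt fun y hy => ?_,
    fun x hx => ?_⟩
  · obtain ⟨z, h3, h4, h5⟩ := h.2 y hy
    exact h4.trans_le (h3 x (h5.le.trans h1) h2)
  · obtain ⟨z, h3, h4, h5⟩ := h.2 x hx
    exact ⟨z, h4, h5, KL.card_mono h3 hc.le⟩

theorem thick_mono {G G' : Set Ordinal.{u}} (h : Thick P th G) (hG : G ⊆ G') : Thick P th G' :=
  ⟨h.1.subset hG, hG h.2.1, h.2.2.subset hG⟩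

/-- A strictly increasing map whose range contains all ordinals below `m` fixes them. -/
theorem fix_of_range {s : Ordinal.{u} → Ordinal.{u}} (hs : StrictMono s)
    (h : ∀ x < m, ∃ y, s y = x) : ∀ x < m, s x = x := fun x => by
  induction x using WellFoundedLT.induction with
  | ind x ih =>
  intro hx
  obtain ⟨y, rfl⟩ := h x hx
  rcases (hs.le_apply (x := y)).eq_or_lt with e | e
  · rw [← e, ← e]
  · exact absurd (ih y e (e.trans hx)) e.ne'

variable [StrSt.{u}]

/-- The chain property goes down to ordinals that are strong below `m`. -/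
theorem ch_down (l : LS E P.Om) (hm : m < P.Om) (h : Ch P E m) (ha : a < m)
    (hs : StrongTo E m a) : Ch P E a := fun c h1 h2 h3 => by
  rcases le_or_gt c m with h4 | h4
  · exact ⟨a, le_rfl, h1, StrSt.down (l.mono hm.le) hs (limC_mono h3 hm.le) h1 h4⟩
  · obtain ⟨x, h5, h6⟩ := h c h4 h2 h3
    exact ⟨x, ha.le.trans h5, h6⟩

/-- Below club many `a`, every ordinal that is strong below `a` has the chain property. -/
theorem ch_club (l : LS E P.Om) : Clb P.Om {a | ∀ m < a, StrongTo E a m → Ch P E m} := by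
  have h := Clb.wit P.hO.isRegular P.hO.aleph0_lt (R := fun m c => ¬ Ch P E m →
    m < c ∧ LimC E P.Om c ∧ ¬ StrongTo E c m) fun m hm => by
      by_cases h1 : Ch P E m
      · exact ⟨m, hm, fun h2 => absurd h1 h2⟩
      · simp only [Ch, not_forall] at h1
        obtain ⟨c, h2, h3, h4, h5⟩ := h1
        exact ⟨c, h3, fun _ => ⟨h2, h4, fun h6 => h5 ⟨m, le_rfl, h2, h6⟩⟩⟩
  refine h.mono fun a ha h1 m hm hs => by_contra fun h2 => ?_
  obtain ⟨c, h3, h4⟩ := h1 m hm
  obtain ⟨h5, h6, h7⟩ := h4 h2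
  exact h7 (StrSt.down (l.mono ha.le) hs (limC_mono h6 ha.le) h5 h3.le)

variable [S4St.{u}] [HullSt.{u}] [KGoodSt.{u}]

theorem defa (h : GoodW P E th) (hm : m < P.Om) (hc : IsCard E P.Om m) (hs : Small E m)
    (hch : Ch P E m) : DefA P E th m := fun G hG => by_contra fun hn => by
  obtain ⟨E0, th0, s, h0, ht, hmono, hr⟩ :=
    S4St.down P h (thick_mono hG (subset_union_left (t := Iio m)))
  have e : s th0 = th := (KE.s1inj (ht.top th0 rfl)).symm
  subst e
  have hf : ∀ x < m, s x = x := fix_of_range hmono fun x hx => by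
    obtain ⟨y, -, hy⟩ := hr.ge (HullSt.sub (Or.inr hx) (KE.lt1 ((hx.trans hm).trans h.lt).le))
    exact ⟨y, hy⟩
  have hmv : m < s m := (hmono.le_apply (x := m)).lt_of_ne fun e =>
    hn (hr.le ⟨m, (hm.trans h0.lt).le, e.symm⟩)
  have hlt : s m < P.Om := ht.om ▸ hmono hm
  have hle : P.Om ≤ th0 + 1 := h0.lt.le.trans le_self_add
  have hl := (StrSt.limc (KGoodSt.strong_good h0.pm.toPM0 h.pm.toPM0 ht.toStrong) h0.pm.toPM0
    h.pm.toPM0 (om_ns P) hm hle hf hmv (KL.card_mono hc hlt.le)).2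
  obtain ⟨x, h1, h2, h3⟩ := hch _ hmv hlt (limC_mono hl h.lt.le)
  exact StrSt.refl ht.toWeak h0.pm.toPM0 h.pm.toPM0 (om_ns P) hm hle hf h1 h2 h3 hs

variable [HPSt.{u}]

theorem hp (h : GoodW P E th) (ha : a < P.Om) (hl : LimC E P.Om a)
    (hc : ∀ m < a, StrongTo E a m → Ch P E m) : HP P E th a := by
  have l : LS E P.Om := h.pm.ls.mono (h.lt.le.trans le_self_add)
  induction a using WellFoundedLT.induction with
  | ind a ih =>
  refine HPSt.step P h ha hl fun m hm h1 h2 h3 => ?_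
  have h4 := card_trans h3.1 hl.1 hm.le
  exact ⟨defa h (hm.trans ha) h4 h1 (hc m hm h2), ih m hm (hm.trans ha) ⟨h4, h3.2⟩
    fun m' h5 h6 => ch_down l (hm.trans ha) (hc m hm h2) h5 h6⟩

theorem club (h : GoodW P E th) : Clb P.Om {a | HP P E th a} :=
  have l : LS E P.Om := h.pm.ls.mono (h.lt.le.trans le_self_add)
  ((limC_club l).inter (om_cof P) (ch_club l)).mono fun _ ha h1 => hp h ha h1.1 h1.2

end D3I

instance [StrSt.{u}] [S4St.{u}] [HullSt.{u}] [KGoodSt.{u}] [HPSt.{u}] : D3St.{u} :=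
  ⟨fun _ => D3I.defa, fun _ => D3I.club⟩

end Pool.Agent.KM
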