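import Pool.Agent.Lib.MP_5c0be7_lc.T.Ae2
import Pool.Agent.Lib.MP_5c0be7_lc.L.St
import Pool.Agent.Lib.MP_5c0be7_lc.K.Clo
import Pool.Agent.Lib.MP_5c0be7_lc.K.Nm
import Pool.Agent.Lib.MP_5c0be7_lc.K.EvI
import Pool.Agent.Lib.MP_5c0be7_lc.O.StF3

/-! Project KM, block T: almost every small set of ordinals is a hull of all its levels. -/

namespace Pool.Agent.KM

open Ordinal Cardinal Set Filter Order Tr

universe u

section

variable {O : Cardinal.{u}} (hO : Reg O) {th : Ordinal.{u}}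

theorem ae_lv {t : Tr.{u}} (h : In th t) : ∀ᶠ X in aeF hO th, t.lv ⊆ X :=
  ae_sub hO (Sm.of_countable hO (lv_finite t).countable) h

/-- diagonal intersection over trees. -/
theorem ae_diagTr {P : Tr.{u} → Set Ordinal.{u} → Prop}
    (h : ∀ t, In th t → ∀ᶠ X in aeF hO th, P t X) :
    ∀ᶠ X in aeF hO th, ∀ t : Tr.{u}, t.lv ⊆ X → P t X := by
  filter_upwards [ae_diagCtbl hO (P := fun Z X => ∀ t : {t : Tr.{u} | t.lv ⊆ Z}, P t.1 X)
    fun Z hZ e => by
      have := (countable_trees hZ).to_subtype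
      exact ae_count hO fun t => h t.1 (Subset.trans t.2 e)] with X c t ht
  exact c t.lv (lv_finite t).countable ht ⟨t, Subset.rfl⟩

/-- witnesses for trees. -/
theorem ae_witTr {R : Tr.{u} → Tr.{u} → Prop} : ∀ᶠ X in aeF hO th, ∀ t : Tr.{u}, t.lv ⊆ X →
    (∃ s, In th s ∧ R t s) → ∃ s : Tr.{u}, s.lv ⊆ X ∧ R t s :=
  ae_diagTr hO fun t _ => by
    by_cases e : ∃ s, In th s ∧ R t s
    · obtain ⟨s, h1, h2⟩ := e
      filter_upwards [ae_lv hO h1] with X c _ using ⟨s, c, h2⟩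
    · exact Eventually.of_forall fun _ c => absurd c e

/-- closure under evaluation at one level. -/
theorem ae_ev (E : Seq.{u}) {b : Ordinal.{u}} (hb : b ≤ th) : ∀ᶠ X in aeF hO th,
    ∀ c x w : Tr.{u}, x.lv ⊆ X → ev E b c x = some w → w.lv ⊆ X := by
  filter_upwards [ae_witTr hO (R := fun t s => ev E b t.fst t.snd = some s)] with X h c x w hx hw
  obtain ⟨s, h1, h2⟩ := h (node c.erase x) (by simpa using hx)
    ⟨w, (ev_in hw).mono hb, by simpa [ev_erase] using hw⟩
  simp only [fst_node, snd_node, ev_erase, hw, Option.some.injEq] at h2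
  exact h2 ▸ h1

end

/-- `X` is closed under evaluation, names and descriptions at level `b + 1`. -/
structure Hl (E : Seq.{u}) (b : Ordinal.{u}) (X : Set Ordinal.{u}) : Prop where
  mem : b ∈ X
  ev : ∀ c x w : Tr.{u}, x.lv ⊆ X → ev E (b + 1) c x = some w → w.lv ⊆ X
  nm : ∀ (g : Ordinal.{u}) (s : Tr.{u}), g ∈ X → s.lv ⊆ X → Named E (b + 1) g (Th E (b + 1) s) →
    ∃ t : Tr.{u}, t.lv ⊆ X ∧ Names E (b + 1) g (Th E (b + 1) s) t
  pp : (pp E (b + 1)).lv ⊆ X
  gen : ∀ t : Tr.{u}, t.lv ⊆ X → (∃ c v, In (rho E (b + 1)) v ∧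
    KM.ev E (b + 1) c (node v (KM.pp E (b + 1))) = some t) → ∃ c, ∃ v : Tr.{u}, v.lv ⊆ X ∧
      In (rho E (b + 1)) v ∧ KM.ev E (b + 1) c (node v (KM.pp E (b + 1))) = some t

theorem ae_hl {O : Cardinal.{u}} (hO : Reg O) {th b : Ordinal.{u}} (E : Seq.{u}) (hb : b < th) :
    ∀ᶠ X in aeF hO th, Hl E b X := by
  have hb' : b + 1 ≤ th := Order.add_one_le_iff.2 hb
  filter_upwards [ae_mem hO hb, ae_ev hO E hb', ae_lv hO ((in_pp E (b + 1)).mono hb'),
    ae_witTr hO (R := fun t s => Names E (b + 1) t.fst.lab (Th E (b + 1) t.snd) s),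
    ae_witTr hO (R := fun t v => ∃ c, In (rho E (b + 1)) v ∧
      ev E (b + 1) c (node v (pp E (b + 1))) = some t)] with X h1 h2 h3 h4 h5
  refine ⟨h1, h2, fun g s hg hs ⟨t, ht⟩ => ?_, h3, fun t ht ⟨c, v, a1, a2⟩ => ?_⟩
  · exact h4 (node (leaf g) s) (by simpa [insert_subset_iff] using ⟨hg, hs⟩) ⟨t, ht.1.mono hb', ht⟩
  · obtain ⟨v, a3, c, a4⟩ := h5 t ht ⟨v, a1.mono ((rho_le E _).trans hb'), c, a1, a2⟩
    exact ⟨c, v, a3, a4⟩

theorem ae_hl_all {O : Cardinal.{u}} (hO : Reg O) {th : Ordinal.{u}} (E : Seq.{u}) :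
    ∀ᶠ X in aeF hO th, ∀ b ∈ X, Hl E b X := ae_diag hO fun _ hb => ae_hl hO E hb

section

variable {E E' : Seq.{u}} {th b b' d d' g : Ordinal.{u}} {X : Set Ordinal.{u}}
  {s : Ordinal.{u} → Ordinal.{u}}

theorem unc_col_tr {t : Tr.{u}} (h : t.lv ⊆ X) : (t.map (col th X)).map (unc th X) = t := by
  rw [Tr.map_map]; exact map_eq_self fun a ha => unc_col (h ha)

theorem col_unc_tr (t : Tr.{u}) : (t.map (unc th X)).map (col th X) = t := by
  rw [Tr.map_map]; exact map_eq_self fun a _ => col_unc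

theorem in_unc_iff {t : Tr.{u}} : In (unc th X g) (t.map (unc th X)) ↔ In g t := by
  simp only [In, lv_map, forall_mem_image, unc_strictMono.lt_iff_lt]

theorem in_col {t : Tr.{u}} (h : t.lv ⊆ X) (ht : In g t) : In (col th X g) (t.map (col th X)) := by
  simp only [In, lv_map, forall_mem_image]
  intro a ha
  rw [lt_col_iff, unc_col (h ha)]; exact ht a ha

theorem col_le_col_iff {x y : Ordinal.{u}} (hy : y ∈ X) :
    col th X x ≤ col th X y ↔ x ≤ y := by rw [col_le_iff, unc_col hy]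

theorem col_lt_col_iff {x y : Ordinal.{u}} (hx : x ∈ X) : col th X x < col th X y ↔ x < y := by
  rw [lt_col_iff, unc_col hx]

theorem unc_mem_le (hb : b ∈ X) (hth : b < th) {a : Ordinal.{u}} (ha : a ≤ col th X b) :
    unc th X a ∈ X := unc_mem (ha.trans_lt (col_lt_hb hb hth))

theorem lv_unc (hb : b ∈ X) (hth : b < th) {t : Tr.{u}} (ht : In (col th X b + 1) t) :
    (t.map (unc th X)).lv ⊆ X := by
  rw [lv_map]
  exact image_subset_iff.2 fun a ha => unc_mem_le hb hth (KE.le1 (ht a ha))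

theorem in_col_succ {t : Tr.{u}} (ht : In (b + 1) t) :
    In (col th X b + 1) (t.map (col th X)) := by
  simp only [In, lv_map, forall_mem_image]
  exact fun a ha => KE.lt1 (col_mono (KE.le1 (ht a ha)))

/-- Theories are preserved by strong maps. -/
theorem strong_th (h : Strong E d E' d' s) {x q : Tr.{u}} (hx : In d x) (hq : In d q) :
    Th E' d' (x.map s) (q.map s) ↔ Th E d x q := by
  have := h.commTop q.fst (node q.snd x) ((in_node _ _ _).2 ⟨hq.snd, hx⟩)
  simp only [ThL, map_fst, map_snd, KN.ev_cmap, map_node] at this ⊢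
  rw [this, Option.isSome_map]

/-- Names of theories come down along strong maps. -/
theorem names_down (h : Strong E (b + 1) E' d' s) {x t : Tr.{u}} (hx : In (b + 1) x)
    (ht : In (b + 1) t) (hg : g ≤ b) (H : Names E' d' (s g) (Th E' d' (x.map s)) (t.map s)) :
    Names E (b + 1) g (Th E (b + 1) x) t := by
  refine ⟨ht, fun q hq => ?_⟩
  have hq' : In (b + 1) q := hq.mono (hg.trans le_self_add)
  exact ((KN.wnm h.toWeak ht hq').symm.trans
    (H.2 _ ((KN.in_map h.mono (KE.lt1 hg) hq').2 hq))).trans (strong_th h hx hq')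

variable [CondSt.{u}]

/-- The collapse of a hull. -/
theorem Hl.pull (h : Hl E b X) (hth : b < th) (hE : PM0 E (b + 1)) :
    PM0 (pull (unc th X) E) (col th X b + 1) ∧
      Strong (pull (unc th X) E) (col th X b + 1) E (b + 1) (unc th X) ∧
      (PM E (b + 1) → PM (pull (unc th X) E) (col th X b + 1)) := by
  have e : unc th X (col th X b) = b := unc_col h.mem
  have := CondSt.strong (E := E) (b := col th X b) (p := unc th X) unc_strictMono
    (by rwa [e]) fun c x y hx hy => ?_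
  · rwa [e] at this
  · rw [e] at hy
    intro a ha
    have m := h.ev c _ y (lv_unc h.mem hth hx) hy ha
    exact ⟨col th X a, col_mono (KE.le1 (ev_in hy a ha)), unc_col m⟩

theorem Hl.named_down (h : Hl E b X) (hth : b < th) (hE : PM0 E (b + 1)) {x : Tr.{u}}
    (hx : In (col th X b + 1) x) (hg : g ≤ col th X b)
    (H : Named E (b + 1) (unc th X g) (Th E (b + 1) (x.map (unc th X)))) :
    Named (KM.pull (unc th X) E) (col th X b + 1) g
      (Th (KM.pull (unc th X) E) (col th X b + 1) x) := by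
  obtain ⟨t, h1, h2⟩ := h.nm _ _ (unc_mem_le h.mem hth hg) (lv_unc h.mem hth hx) H
  exact ⟨t.map (col th X), names_down (h.pull hth hE).2.1 hx (in_col_succ h2.1) hg
    (by rwa [unc_col_tr h1])⟩

theorem Hl.solid_down (h : Hl E b X) (hth : b < th) (hE : PM0 E (b + 1)) {p : Tr.{u}}
    (hp : In (col th X b + 1) p) (H : Solid E (b + 1) (p.map (unc th X))) :
    Solid (KM.pull (unc th X) E) (col th X b + 1) p := by
  induction p with
  | nil => trivial
  | leaf a => exact H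
  | node l r _ ih =>
    obtain ⟨g, h1, h2, h3, h4⟩ := H
    obtain ⟨g, rfl, rfl⟩ := map_eq_leaf.1 h1
    obtain ⟨h5, h6⟩ := (in_node _ _ _).1 hp
    refine ⟨g, rfl, fun a ha => unc_strictMono.lt_iff_lt.1 (h2 _ ?_),
      h.named_down hth hE h6 (KE.le1 ((in_leaf _ _).1 h5)) h3, ih h6 h4⟩
    rw [lv_map]; exact ⟨a, ha, rfl⟩

theorem Hl.gen_down (h : Hl E b X) (hth : b < th) (hE : PM0 E (b + 1))
    (H : Gen E (b + 1) (rho E (b + 1)) (KM.pp E (b + 1))) :
    Gen (KM.pull (unc th X) E) (col th X b + 1) (col th X (rho E (b + 1)))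
      ((KM.pp E (b + 1)).map (col th X)) := by
  intro t ht
  have st := (h.pull hth hE).2.1
  obtain ⟨c, v, h1, h2, h3⟩ := h.gen _ (lv_unc h.mem hth ht) (H _ (KE.w_in st.toWeak ht))
  refine ⟨c, v.map (col th X), in_col h1 h2, ?_⟩
  have i : In (col th X b + 1) (node (v.map (col th X)) ((KM.pp E (b + 1)).map (col th X))) :=
    (in_node _ _ _).2 ⟨in_col_succ (h2.mono (rho_le _ _)),
      in_col_succ (in_pp _ _)⟩
  have := st.commTop c _ i
  rw [map_node, unc_col_tr h1, unc_col_tr h.pp, h3] at this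
  obtain ⟨w, h4, h5⟩ := Option.map_eq_some_iff.1 this.symm
  rw [h4, ← col_unc_tr (th := th) (X := X) w, h5, col_unc_tr]

variable [DiagSt.{u}]

/-- The projectum of the collapse of a hull of a sound level. -/
theorem Hl.rho_eq (h : Hl E b X) (hth : b < th) (hE : PM0 E (b + 1)) (hs : Lev E (b + 1)) :
    rho (KM.pull (unc th X) E) (col th X b + 1) = col th X (rho E (b + 1)) := by
  refine le_antisymm (DiagSt.gen_rho _ _ _ _ (h.gen_down hth hE (ss_pp hs.1).2.2.2))
    (le_of_forall_lt fun k hk => ?_)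
  have hk' : k ≤ col th X b := hk.le.trans (col_mono (DiagSt.rho_top E b))
  refine lt_of_not_ge fun c => ?_
  have m : rho (KM.pull (unc th X) E) (col th X b + 1) ∈ {k | k = col th X b + 1 ∨
      ∃ x, In (col th X b + 1) x ∧ ¬ Named (KM.pull (unc th X) E) (col th X b + 1) k
        (Th (KM.pull (unc th X) E) (col th X b + 1) x)} := csInf_mem ⟨_, Or.inl rfl⟩
  rcases m with m | ⟨x, h1, h2⟩
  · exact absurd (m ▸ c) (not_le.2 (KE.lt1 hk'))
  · exact h2 (h.named_down hth hE h1 (c.trans hk') (DiagSt.named_of_lt _ _ _ _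
      (lt_col_iff.1 (c.trans_lt hk)) (KE.w_in (h.pull hth hE).2.1.toWeak h1)))

theorem Hl.ss (h : Hl E b X) (hth : b < th) (hE : PM0 E (b + 1)) (hs : Lev E (b + 1)) :
    SS (KM.pull (unc th X) E) (col th X b + 1) ((KM.pp E (b + 1)).map (col th X)) := by
  have hp := ss_pp hs.1
  have i := in_col_succ (th := th) (X := X) hp.1
  refine ⟨i, fun a ha => ?_, h.solid_down hth hE i (by rw [unc_col_tr h.pp]; exact hp.2.2.1), ?_⟩
  · rw [lv_map] at ha
    obtain ⟨a, ha, rfl⟩ := ha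
    exact (h.rho_eq hth hE hs).trans_le (col_mono (hp.2.1 a ha))
  · have := h.gen_down hth hE hp.2.2.2
    rwa [← h.rho_eq hth hE hs] at this

/-- The collapse of a hull of a sound level is sound. -/
theorem Hl.lev (h : Hl E b X) (hth : b < th) (hE : PM0 E (b + 1)) (hs : Lev E (b + 1)) :
    Lev (KM.pull (unc th X) E) (col th X b + 1) :=
  ⟨⟨_, h.ss hth hE hs⟩, fun c => absurd (suc_succ _) c⟩

theorem Hl.pp_eq (h : Hl E b X) (hth : b < th) (hE : PM0 E (b + 1)) (hs : Lev E (b + 1)) :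
    (KM.pp (KM.pull (unc th X) E) (col th X b + 1)).map (unc th X) = KM.pp E (b + 1) := by
  rw [DiagSt.ss_unique _ _ _ _ (ss_pp ⟨_, h.ss hth hE hs⟩) (h.ss hth hE hs), unc_col_tr h.pp]

end

end Pool.Agent.KM
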