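import Pool.Agent.Lib.MP_5c0be7_lc.T.St
import Pool.Agent.Lib.MP_5c0be7_lc.T.Hull
import Pool.Agent.Lib.MP_5c0be7_lc.C.Easy
import Pool.Agent.Lib.MP_5c0be7_lc.C.Pres
import Pool.Agent.Lib.MP_5c0be7_lc.K.Loc
import Pool.Agent.Lib.MP_5c0be7_lc.K.Hull1
import Pool.Agent.Lib.MP_5c0be7_lc.K.GoodI
import Pool.Agent.Lib.MP_5c0be7_lc.P.Th

/-!
Project KM, block T1: the definable points of a maximal good weasel are unbounded.
-/

namespace Pool.Agent.KM.D4I

open Ordinal Cardinal Tr Set Filter CU KE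

universe u

variable {P : Pa.{u}} {E E' E0 : Seq.{u}} {a b b' d k th th0 : Ordinal.{u}}
  {j s : Ordinal.{u} → Ordinal.{u}} {x x' w : Tr.{u}} {G G' : Set Ordinal.{u}}

/-- The hull of `G` in the weasel. -/
def Hu (E : Seq.{u}) (th : Ordinal.{u}) (G : Set Ordinal.{u}) : Set Ordinal.{u} :=
  {y | InHull E (th + 1) G y}

theorem hu_mono (h : G ⊆ G') : Hu E th G ⊆ Hu E th G' :=
  fun _ ⟨c, x, h1, h2⟩ => ⟨c, x, h1.trans h, h2⟩

theorem thick_mono (h : Thick P th G) (e : G ⊆ G') : Thick P th G' :=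
  ⟨h.1.subset e, e h.2.1, h.2.2.subset e⟩

theorem om_cof : P.Om.cof = P.O := P.hO.isRegular.cof_ord

theorem thick_all (hc : P.O ≤ th.cof) (ha : a < P.Om) {F : Ordinal.{u} → Set Ordinal.{u}}
    {S : Set Ordinal.{u}} (hS : S ⊆ Iio a) (h : ∀ i ∈ S, Thick P th (F i)) :
    Thick P th {c | ∀ i ∈ S, c ∈ F i} := by
  have h1 : HasCardinalLT S P.O := small_mono (small_Iio_ord ha) hS
  exact ⟨Fat.biInter P.ht (om_cof (P := P) ▸ P.h2) (om_cof (P := P) ▸ h1) fun i hi => (h i hi).1,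
    fun i hi => (h i hi).2.1,
    Fat.biInter P.ht (P.h2.trans_le hc) (h1.of_le hc) fun i hi => (h i hi).2.2⟩

theorem tall_lim (h : Tall P E th) : Order.IsSuccLimit th :=
  limit_of_cof (P.hO.aleph0_lt.le.trans h.cof)

theorem tall_rho (h : Tall P E th) : rho E th = th :=
  (h.pm.ls th (lt_add_one th)).2 (not_suc_of_limit (tall_lim h))

/-- The next cardinal. -/
noncomputable def nx (a : Ordinal.{u}) : Ordinal.{u} := (Order.succ (max a.card ℵ₀)).ord

theorem lt_nx : a < nx a := lt_ord.2 (Order.lt_succ_of_le (le_max_left _ _))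

theorem nx_lt (h : a < P.Om) : nx a < P.Om :=
  ord_lt_ord.2 (P.hO.isStrongLimit.isSuccLimit.succ_lt (max_lt (lt_ord.1 h) P.hO.aleph0_lt))

theorem nx_np (h : LS E d) : NoProj E a (nx a) d := fun c h1 h2 => not_le.1 fun h3 =>
  absurd (KL.lev_lt (Order.lt_succ_of_le (le_max_right _ _)) (h c h2) (h3.trans_lt lt_nx))
    (not_lt.2 h1)

theorem card_of_closed (h : LS E d) (hk : ∀ a < k, nx a < k) : IsCard E d k := fun c h1 h2 =>
  not_lt.1 fun h3 => lt_irrefl _ (nx_np h c ((hk _ h3).le.trans h1) h2)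

/-- Membership questions on a value are sections of the theory of the parameter. -/
theorem sec (c e : Tr.{u}) : ∃ c' : Tr.{u}, c'.lv = ∅ ∧ ∀ (E : Seq.{u}) b z g w y, In b y →
    ev E b c (node z g) = some w →
    (Th E b g (node c' (node y z)) ↔ (ev E b e (node y w)).isSome) := by
  obtain ⟨o, ho⟩ := IsOp.id.{u}.snd.fst.fst.pair IsOp.id.fst
  obtain ⟨o', ho'⟩ := IsOp.id.{u}.fst.snd.pair IsOp.id.snd
  refine ⟨(cmp o e (prec o' c)).erase, lv_erase _, fun E b z g w y hy hw => ?_⟩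
  have h := (in_node _ _ _).1 (in_of_ev_eq hw)
  simp only [ThL, fst_node, snd_node]
  rw [ev_erase, ev_cmp, ev_prec _ _ (by simp [hy, h.1, h.2]), ho']
  simp only [fst_node, snd_node, hw, Option.bind_some, ho]

variable [HullSt.{u}]

/-- A tree in the hull of `G` and `k` is a value on a tree below `k` and a tree from `G`. -/
theorem split (hk : k ≤ th + 1) (h : w.lv ⊆ Hu E th (G ∪ Iio k)) :
    ∃ c z, ∃ g : Tr.{u}, In k z ∧ g.lv ⊆ Hu E th G ∧ ev E (th + 1) c (node z g) = some w := by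
  obtain ⟨c, x, h1, h2⟩ := HullSt.tree.1 h
  have hx := in_of_ev_eq h2
  obtain ⟨g, h3, h4⟩ := exists_list (((lv_finite x).subset (inter_subset_left (t := G))).image leaf)
  have h5 : ∀ a ∈ g.lv, a ∈ x.lv ∧ a ∈ G := fun a ha => by
    obtain ⟨_, ⟨y, h6, rfl⟩, h7⟩ := h4 a ha
    obtain rfl : a = y := by simpa using h7
    exact h6
  obtain ⟨c', z, h6, h7⟩ := PT.ex_val (E := E) (s := g) (x := x) (fun a ha => hx a (h5 a ha).1) hk
    fun a ha => (h1 ha).symm.imp id fun h8 =>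
      mem_lv ((h3 (leaf a)).2 ⟨a, ⟨ha, h8⟩, rfl⟩) (by simp)
  refine ⟨cmp .fst c c', z, g, h6, fun a ha => HullSt.sub (h5 a ha).2 (hx a (h5 a ha).1), ?_⟩
  rw [ev_cmp, h7]
  exact h2

variable [DiagSt.{u}]

omit [HullSt.{u}] in
/-- A bounded inclusion of theories goes up along cofinal maps. -/
theorem up_th (h : Cof E b E' b' j) (hk : k < rho E b) (hx : In (b + 1) x) (hx' : In (b + 1) x')
    (ha : a < rho E b)
    (H : ∀ q, In k q → Th E (b + 1) x q → Conv E b q.fst (node q.snd x') a) :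
    ∀ q, In (j k) q → Th E' (b' + 1) (x.map j) q → Th E' (b' + 1) (x'.map j) q := by
  intro q hq H'
  have hkb : k ≤ b + 1 := (hk.le.trans KE.rho_le).trans le_self_add
  have i1 := th_in H'
  obtain ⟨a', h1, h2⟩ := (ev_iff_conv' h hk ((in_node _ _ _).2 i1)).1 H'
  have I := IsOp.id.{u}
  have := ((RD.ball I.fst ((RD.conv I.snd.snd.fst (I.fst.fst.pair I.snd.fst)).imp
    (RD.conv I.snd.snd.snd (I.fst.fst.pair I.snd.snd)))).elem h.toStrong q.fst
    ((in_node _ _ _).2 ⟨hx, hx'⟩) (y := node (leaf k) (node (leaf a') (leaf a)))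
    (by simp [hk, h1, ha])).2
  simp only [map_node, map_leaf, fst_node, snd_node, leaf.injEq, forall_eq',
    exists_eq_left'] at this
  refine (ev_iff_conv' h hk ((in_node _ _ _).2 ⟨i1.1, w_in h.toWeak hx'⟩)).2
    ⟨a, ha, this (fun t ht h3 => ?_) q.snd hq.snd h2⟩
  have := H (node q.fst.erase t) (by simpa using ht) (by
    simp only [ThL, fst_node, snd_node]
    rw [ev_erase]
    exact (ev_iff_conv hk ((in_node _ _ _).2 ⟨ht.mono hkb, hx⟩)).2 ⟨a', h1, h3⟩)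
  simpa only [fst_node, snd_node, conv_erase] using this

omit [HullSt.{u}] [DiagSt.{u}] in
theorem tame_cof (h0 : Tall P E0 th0) (h : Tall P E th) (hs : Tame P E0 th0 E th s) :
    Cof E0 th0 E th s :=
  ⟨hs.toStrong, fun y hy => by
    rw [tall_rho h] at hy
    rw [tall_rho h0]
    exact (hs.cof y hy).imp fun _ h1 => ⟨h1.1, h1.2.le⟩⟩

variable [S4St.{u}]

omit [HullSt.{u}] in
/-- Theories over a thick hull are determined by their traces on the hull. -/
theorem det (h : GoodW P E th) (hG : Thick P th G) (ha : a < P.Om) (hx : x.lv ⊆ Hu E th G)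
    (hx' : x'.lv ⊆ Hu E th G) (H : ∀ q : Tr.{u}, q.lv ⊆ Hu E th G → In a q →
      Th E (th + 1) x q → Th E (th + 1) x' q) :
    ∀ q, In a q → Th E (th + 1) x q → Th E (th + 1) x' q := by
  obtain ⟨E0, th0, s, h0, hs, hm, hr⟩ := S4St.down P h hG
  obtain ⟨y, h1, rfl⟩ := Hull.exists_map (hx.trans hr.ge)
  obtain ⟨y', h2, rfl⟩ := Hull.exists_map (hx'.trans hr.ge)
  have hy : In (th0 + 1) y := fun z hz => lt1 (h1 hz)
  have hy' : In (th0 + 1) y' := fun z hz => lt1 (h2 hz)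
  have hne : a ∈ {c | a ≤ s c} := hm.le_apply
  set k := sInf {c | a ≤ s c}
  have k1 : a ≤ s k := csInf_mem ⟨a, hne⟩
  have k2 : k < P.Om := (csInf_le' hne).trans_lt ha
  have k3 : k < th0 := k2.trans h0.lt
  have k4 : k < rho E0 th0 := (tall_rho h0.toTall).symm ▸ k3
  have : ∀ q : {q : Tr.{u} | In k q}, ∃ c < th0, Th E0 (th0 + 1) y' q.1 →
      Conv E0 th0 q.1.fst (node q.1.snd y') c := fun q => by
    by_cases e : Th E0 (th0 + 1) y' q.1
    · obtain ⟨c, h3, h4⟩ := (ev_iff_conv k4 ((in_node _ _ _).2 (th_in e))).1 e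
      exact ⟨c, h3.trans_le KE.rho_le, fun _ => h4⟩
    · exact ⟨k, k3, fun e' => absurd e' e⟩
  choose f f1 f2 using this
  obtain ⟨c, c1, c2⟩ := bdd_fam (d := th0) (by
    have := (KL.mk_in_lt P.hO.aleph0_lt k2).trans_le (Cardinal.lift_le.{u + 1}.2 h0.cof)
    rwa [HasCardinalLT, Cardinal.lift_id'.{u, u + 1}]) f f1
  refine fun q hq => up_th (tame_cof h0.toTall h.toTall hs) k4 hy hy'
    ((tall_rho h0.toTall).symm ▸ c1) (fun q hq e => ?_) q (hq.mono k1)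
  have hq' : In (th0 + 1) q := hq.mono (k3.le.trans le_self_add)
  refine (f2 ⟨q, hq⟩ ((strong_th hs.toStrong hy' hq').1 (H _ ?_ ?_
    ((strong_th hs.toStrong hy hq').2 e)))).mono (c2 _).le
  · rw [lv_map, Hu, ← hr]
    exact image_mono fun z hz => le1 (hq' z hz)
  · exact in_map fun z hz => not_le.1 fun e => notMem_of_lt_csInf' (s := {c | a ≤ s c}) (hq z hz) e

omit [HullSt.{u}] in
/-- If the definable points are bounded, few sets describe all theories over thick hulls. -/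
theorem family (h : GoodW P E th) (hD : ¬ Unb {a | Def0 P E th a} P.Om) :
    ∃ (I : Type (u + 1)) (A : I → Tr.{u} → Prop) (F : Ordinal.{u} → Set Ordinal.{u}),
      #I < Cardinal.lift.{u + 1} P.O ∧ Antitone F ∧ ∀ a < P.Om, Thick P th (F a) ∧
        ∀ x : Tr.{u}, x.lv ⊆ Hu E th (F a) → ∃ i, ∀ q, In a q → (A i q ↔ Th E (th + 1) x q) := by
  simp only [Unb, not_forall, not_exists, not_and, mem_ofPred_eq] at hD
  obtain ⟨z, hz, hD⟩ := hD
  have : ∀ i, ¬ Def0 P E th i → ∃ G, Thick P th G ∧ i ∉ Hu E th G := fun i hi => by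
    simpa only [Def0, not_forall, exists_prop, Hu, mem_ofPred_eq] using hi
  choose! G g1 g2 using this
  let F : Ordinal.{u} → Set Ordinal.{u} := fun a =>
    {c | ∀ i ∈ {i | i < a ∧ ¬ Def0 P E th i}, c ∈ G i}
  have F1 : Antitone F := fun a a' e c hc i hi => hc i ⟨hi.1.trans_le e, hi.2⟩
  have F2 : ∀ a < P.Om, Thick P th (F a) := fun a ha =>
    thick_all h.cof ha (fun i hi => hi.1) fun i hi => g1 i hi.2
  have F3 : ∀ a, ∀ i < a, i ∈ Hu E th (F a) → Def0 P E th i := fun a i hi e =>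
    by_contra fun hn => g2 i hn (hu_mono (G := F a) (fun c hc => hc i ⟨hi, hn⟩) e)
  let tr : Tr.{u} → Set {q : Tr.{u} | In (z + 1) q} := fun x =>
    {q | (∀ i ∈ q.1.lv, Def0 P E th i) ∧ Th E (th + 1) x q.1}
  refine ⟨Set {q : Tr.{u} | In (z + 1) q}, fun i q => ∃ a < P.Om, ∃ x : Tr.{u},
    x.lv ⊆ Hu E th (F a) ∧ In a q ∧ tr x = i ∧ Th E (th + 1) x q, F, ?_, F1, fun a ha =>
      ⟨F2 a ha, fun x hx => ⟨tr x, fun q hq => ⟨?_, fun e => ⟨a, ha, x, hx, hq, rfl, e⟩⟩⟩⟩⟩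
  · rw [mk_set]
    obtain ⟨c, hc, e⟩ := Cardinal.lt_lift_iff.1
      (KL.mk_in_lt P.hO.aleph0_lt (P.reg.limit.add_one_lt hz))
    rw [← e, ← Cardinal.lift_two_power, Cardinal.lift_lt]
    exact P.hO.isStrongLimit.isStrongPrelimit hc
  · rintro ⟨a', ha', x', h1, h2, h3, h4⟩
    have hm : min a a' < P.Om := (min_le_left _ _).trans_lt ha
    refine det h (F2 _ hm) hm (h1.trans (hu_mono (F1 (min_le_right _ _))))
      (hx.trans (hu_mono (F1 (min_le_left _ _)))) (fun t h5 h6 h7 => ?_) q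
      (fun i hi => lt_min (hq i hi) (h2 i hi)) h4
    have h8 : ∀ i ∈ t.lv, Def0 P E th i := fun i hi => F3 _ i (h6 i hi) (h5 hi)
    have h9 : In (z + 1) t := fun i hi => lt1 (not_lt.1 fun e =>
      hD i (h8 i hi) e ((h6 i hi).trans hm))
    have : (⟨t, h9⟩ : {q : Tr.{u} | In (z + 1) q}) ∈ tr x' := ⟨h8, h7⟩
    exact (h3 ▸ this).2

variable [D3St.{u}] [TypeSt.{u}]

omit [HullSt.{u}] [DiagSt.{u}] [S4St.{u}] in
/-- The choice of the critical point. -/
theorem point (h : GoodW P E th) {I : Type (u + 1)} (hI : #I < Cardinal.lift.{u + 1} P.O)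
    (A : I → Tr.{u} → Prop) : ∃ k < P.Om, k.cof = ℵ₁ ∧ ω < k ∧ IsCard E (th + 1) k ∧ HP P E th k ∧
      ∀ Z : Set Ordinal.{u}, Z.Countable → Z ⊆ Iio P.Om → ∀ J : Set I, J.Countable →
        ∃ r : Ordinal.{u} → Ordinal.{u}, (∀ z ∈ Z, r z < k) ∧ (∀ z ∈ Z, z < k → r z = z) ∧
          ∀ i ∈ J, ∀ q : Tr.{u}, q.lv ⊆ Z → (A i q ↔ A i (q.map r)) := by
  have hw : ω < P.Om := by
    rw [← ord_aleph0]
    exact ord_lt_ord.2 P.hO.aleph0_lt
  obtain ⟨X, k, ⟨⟨-, h1, -⟩, h2, h3, h4, h5⟩, hc, hk⟩ := ex_cof P.reg (th := P.Om) isRegular_aleph_one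
    aleph0_lt_aleph_one (P.h1.trans P.h2) le_rfl ((ae_basic P.reg).and
      ((TypeSt.ae P.reg hI A).and ((ae_cut_clb P.reg le_rfl (D3St.club P h)).and
        ((ae_cut_clb P.reg le_rfl (Clb.gt P.reg.limit hw)).and (ae_cut_clb P.reg le_rfl
          (Clb.closed P.reg.reg P.reg.unc fun a ha => nx_lt (P := P) ha))))))
  refine ⟨k, hc.1, hk, h4 k hc, card_of_closed h.pm.ls (h5 k hc), h3 k hc, fun Z z1 z2 J hJ => ?_⟩
  obtain ⟨r, r1, r2, r3⟩ := h2 Z z1 z2 J hJ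
  exact ⟨r, fun z hz => (hc.2 _ (h1 (r1 z hz))).1 (r1 z hz), fun z hz e => r2 z hz (hc.sub e), r3⟩

omit [HullSt.{u}] [DiagSt.{u}] [S4St.{u}] [D3St.{u}] [TypeSt.{u}] in
theorem fix_of_range (hm : StrictMono s) (h : ∀ y < k, y ∈ range s) : ∀ y < k, s y = y := by
  intro y
  induction y using WellFoundedLT.induction with
  | ind y ih =>
  intro hy
  obtain ⟨x, rfl⟩ := h y hy
  rcases (hm.le_apply (x := x)).eq_or_lt with e | e
  · rw [← e, ← e]
  · exact absurd (ih x e (e.trans hy)) e.ne'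

variable [AccSt.{u}] [CndSt.{u}] [KIISt.{u}]

omit [HullSt.{u}] [DiagSt.{u}] [S4St.{u}] [D3St.{u}] [TypeSt.{u}] in
/-- Condensation below the successor of the critical point. -/
theorem cond {t : Ordinal.{u}} (h0 : Tall P E0 th0) (h : Tall P E th)
    (hs : Strong E0 (th0 + 1) E (s th0 + 1) s) (he : s th0 = th) (hf : ∀ y < k, s y = y)
    (hm : k < s k) (hk : IsCard E (th + 1) k) (hk' : IsCard E th (s k))
    (hn : IsNext E0 (th0 + 1) k t) (ht : t < th0) : Agree E0 E t := by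
  intro v hv
  have hl := AccSt.next_lim _ _ _ _ h0.pm.ls hn (lt1 ht.le)
  obtain ⟨a, h1, h2, h3⟩ := hn.2.2.1 _ (hl.add_one_lt (max_lt hv hn.1))
  have h4 : k < a := (le_max_right v k).trans_lt (Order.add_one_le_iff.1 h1)
  have l := h0.pm.ls a (lt1 (h2.trans ht).le)
  obtain ⟨c, rfl⟩ := KL.suc_of_rho l (h3.trans_lt h4)
  have h5 : c + 1 < th0 := h2.trans ht
  have h6 : c < th0 := (lt_add_one c).trans h5
  have h7 : s c + 1 < th := by
    rw [← w_succ hs.toWeak (lt1 h5.le), ← he]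
    exact (w_lt hs.toWeak (lt1 h5.le) (lt_add_one _)).2 h5
  have h8 : k ≤ c := le1 h4
  refine (CndSt.cond (C := P.C) (g := 0) (pm_mono h0.pm (lt1 h5.le).le) l (pm_mono h.pm (lt1 h7.le).le)
    (KIISt.level h.pm.toPM0 h.ii ((lt_add_one _).trans h7).le zero_le)
    (fun _ _ _ _ _ _ _ => zero_le) (strong_restrict hs h6.le) h3 h8 zero_le hf hm
    (KL.card_mono hk (lt1 h7.le).le) (hm.trans_le (hk' _ ?_ h7))).2 v
    (lt1 ((le_max_left v k).trans (s1le h1)))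
  exact ((w_le hs.toWeak (lt1 (h8.trans h6.le)) (lt1 h6.le)).2 h8).trans le_self_add

theorem unb (h : GoodW P E th) (hM : MaxE P E) : Unb {a | Def0 P E th a} P.Om := by
  by_contra hD
  obtain ⟨I, A, F, hI, F1, F2⟩ := family h hD
  obtain ⟨k, k1, k2, k3, k4, k5, k6⟩ := point h hI A
  have hl := tall_lim h.toTall
  have kth : k < th := k1.trans h.lt
  have k7 : k + 1 < P.Om := P.reg.limit.add_one_lt k1
  -- sections
  have S : ∀ a < P.Om, ∀ w e : Tr.{u}, w.lv ⊆ Hu E th (F a ∪ Iio k) → k ≤ a →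
      ∃ (i : I) (c z : Tr.{u}), c.lv = ∅ ∧ In k z ∧ ∀ y, In a y →
        (A i (node c (node y z)) ↔ (ev E (th + 1) e (node y w)).isSome) := by
    intro a ha w e hw hka
    obtain ⟨c, z, g, h1, h2, h3⟩ := split (kth.le.trans le_self_add) hw
    obtain ⟨c', h4, h5⟩ := sec c e
    obtain ⟨i, hi⟩ := (F2 a ha).2 g h2
    exact ⟨i, c', z, h4, h1, fun y hy => (hi _ (by simp [in_of_lv h4, hy, h1.mono hka])).trans
      (h5 E _ z g w y (hy.mono ((ha.trans h.lt).le.trans le_self_add)) h3)⟩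
  -- the point is not in the hull
  have N : k ∉ Hu E th (F (k + 1) ∪ Iio k) := fun hk => by
    obtain ⟨i, c, z, h1, h2, h3⟩ := S _ k7 (leaf k) (tst .eq) (by simpa using hk) le_self_add
    have h4 : ∀ y ≤ k, (A i (node c (node (leaf y) z)) ↔ y = k) := fun y hy => by
      rw [h3 _ (by simpa using hy), ev_tst_isSome _ (by simp [kth.le, hy.trans kth.le])]
      simp [bop]
    obtain ⟨r, r1, r2, r3⟩ := k6 (insert k z.lv) ((lv_finite z).countable.insert k)
      (insert_subset k1 fun a ha => (h2 a ha).trans k1) {i} (countable_singleton i)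
    have h5 := (r3 i rfl (node c (node (leaf k) z)) (by simp [h1])).1
      ((h4 k le_rfl).2 rfl)
    simp only [map_node, map_leaf, map_of_lv h1] at h5
    rw [map_eq_self fun a ha => r2 a (Or.inr ha) (h2 a ha)] at h5
    have h6 := r1 k (Or.inl rfl)
    exact h6.ne ((h4 _ h6.le).1 h5)
  obtain ⟨E0, th0, s, h0, hs, hm, hr⟩ :=
    S4St.down P h (thick_mono (F2 _ k7).1 (subset_union_left (t := Iio k)))
  have he : s th0 = th := (s1inj (hs.top _ rfl)).symm
  have hs' : Strong E0 (th0 + 1) E (s th0 + 1) s := he ▸ hs.toStrong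
  have good := KGoodSt.strong_good h0.pm.toPM0 (he ▸ h.pm.toPM0) hs'
  have hf : ∀ y < k, s y = y := fix_of_range hm fun y hy => image_subset_range _ _
    (hr.ge (HullSt.sub (Or.inr hy) (lt1 (hy.trans kth).le)))
  have k0 : k < th0 := k1.trans h0.lt
  have hk : k < s k := hm.le_apply.lt_of_ne fun e => N (hr.le ⟨k, k0.le, e.symm⟩)
  have sk : s k < P.Om := hs.om ▸ hm k1
  have c0 : IsCard E0 (th0 + 1) k := fun a h1 h2 => not_lt.1 fun h3 => lt_irrefl _
    ((strong_rho hs' (le1 h2) (KE.rho_le.trans (le1 h2))).1 (by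
      rw [hf _ h3]
      exact h3.trans_le (k4 _ (h1.trans hm.le_apply) (hs.maps a h2))))
  have c1 : IsCard E th (s k) := he ▸ good.card k k k0 k0 fun a h1 h2 => c0 a h1 (lt1 h2.le)
  obtain ⟨t, hn⟩ := KL.exists_next (E := E0) (lt1 k0.le)
  have t1 : t < P.Om := (KL.top_le hn.2.2.1 (nx_np (h0.pm.ls.mono hn.2.1))).trans_lt (nx_lt k1)
  have t2 : t < th0 := t1.trans h0.lt
  have tl := AccSt.next_lim _ _ _ _ h0.pm.ls hn (lt1 t2.le)
  have ag := cond h0.toTall h.toTall hs' he hf hk k4 c1 hn t2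
  -- names in the range
  have B : ∀ a < P.Om, k < a → ∀ n, In (th + 1) n → ∃ m, In (th0 + 1) m ∧
      (m.map s).lv ⊆ Hu E th (F a ∪ Iio k) ∧ ∀ q, In k q → (Nm E n q ↔ Nm E0 m q) := by
    intro a ha hka n hn
    obtain ⟨n', h1, h2⟩ := k5 _ (F2 a ha).1 n hn
    obtain ⟨m, h3, rfl⟩ := Hull.exists_map ((h1.trans (hu_mono (union_subset_union_left _
      (F1 (Order.add_one_le_iff.2 hka))))).trans hr.ge)
    have h4 : In (th0 + 1) m := fun z hz => lt1 (h3 hz)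
    refine ⟨m, h4, h1, fun q hq => (h2 q hq).trans ?_⟩
    rw [← w_nm hs.toWeak h4 (hq.mono (k0.le.trans le_self_add)), map_fix hf hq]
  have np : NoProj E k t (th + 1) := fun a h1 h2 => not_le.1 fun h3 => by
    obtain ⟨p, hp⟩ := (h.pm.ls a h2).1
    have h4 : a < th := (le1 h2).lt_of_ne fun e => by
      rw [e, tall_rho h.toTall] at h3
      exact absurd kth (not_lt.2 h3)
    obtain ⟨n, n1, n2⟩ := PT.th_up (E := E) (lt1 (hl.add_one_lt h4).le)
      ((hn.1.le.trans h1).trans le_self_add) hp.1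
    obtain ⟨m, m1, -, m2⟩ := B _ k7 (lt_add_one k) n n1
    exact DiagSt.diag E a k p (PT.gen_mono hp.2.2.2 h3) (Named.mono' (named_agree
      (AccSt.acc _ _ _ _ _ hn.2.2.2 ⟨m, m1, fun q hq => (m2 q hq).symm.trans (n2 q hq)⟩) ag) h1)
  have hne : s t ∈ {y | ∀ x < t, s x < y} := fun x hx => hm hx
  set v := sInf {y | ∀ x < t, s x < y}
  have v1 : ∀ x < t, s x < v := csInf_mem ⟨_, hne⟩
  have v2 : v < P.Om := (csInf_le' hne).trans_lt (hs.om ▸ hm t1)
  have hx : Ext E k t E v s := ⟨k3.le, hn.1, KL.weak_left ag ⟨hm.strictMonoOn _, v1,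
    fun c e => absurd ⟨c, e⟩ (not_suc_of_limit tl), fun c hc => hs.comm c (lt1 (hc.trans t2).le)⟩,
    fun y hy => by
      have := notMem_of_lt_csInf' hy
      simp only [mem_ofPred_eq, not_forall, not_lt] at this
      obtain ⟨x, h1, h2⟩ := this
      exact ⟨x + 1, tl.add_one_lt h1, h2.trans_lt (hm (lt_add_one x))⟩,
    KL.topC_ag ag hn.2.2.1, fun a h1 h2 => k4 a h1 (lt1 ((h2.trans t1).trans h.lt).le)⟩
  have vth : v < th := v2.trans h.lt
  refine absurd (hM E k t v s hx k3 hf hk (KL.noProj_mono np (h.lt.le.trans le_self_add)) t1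
    (pm_mono h.pm (vth.le.trans le_self_add)) (fun _ _ => rfl) (KL.card_mono c1 h.lt.le)
    (fun c _ hc => KIISt.level h.pm.toPM0 h.ii (hc.trans vth).le zero_le)
    (Or.inr ⟨v2, fun _ _ => rfl⟩) fun Z hZ => ?_) (k2 ▸ P.h1.ne)
  have C : ∀ n, In t n → ∃ (i : I) (c z : Tr.{u}), c.lv = ∅ ∧ In k z ∧
      (∀ y, In (s k) y → (A i (node c (node y z)) ↔ Nm E (n.map s) y)) ∧
      ∀ y, In k y → (A i (node c (node y z)) ↔ Nm E n y) := by
    intro n hn
    have n0 : In (th0 + 1) n := hn.mono (t2.le.trans le_self_add)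
    obtain ⟨m, m1, m2, m3⟩ := B _ sk hk n (hn.mono ((t1.trans h.lt).le.trans le_self_add))
    obtain ⟨i, c, z, h1, h2, h3⟩ := S _ sk _ nmc m2 hk.le
    have h4 : ∀ y, In (s k) y → (A i (node c (node y z)) ↔ Nm E (m.map s) y) := fun y hy =>
      (h3 y hy).trans (ev_nmc (hy.mono ((sk.trans h.lt).le.trans le_self_add)) (w_in hs.toWeak m1))
    have k8 : k < rho E0 th0 := (tall_rho h0.toTall).symm ▸ k0
    refine ⟨i, c, z, h1, h2, fun y hy => (h4 y hy).trans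
      ⟨good.inc k k8 m n m1 n0 (fun q hq e => (KN.anm ag hn).2 ((m3 q hq).2 e)) y hy,
        good.inc k k8 n m n0 m1 (fun q hq e => (m3 q hq).1 ((KN.anm ag hn).1 e)) y hy⟩,
      fun y hy => (h4 y (hy.mono hk.le)).trans ?_⟩
    rw [m3 y hy, ← w_nm hs.toWeak m1 (hy.mono (k0.le.trans le_self_add)), map_fix hf hy]
  have : Nonempty I := let ⟨i, _⟩ := C .nil (in_nil _); ⟨i⟩
  choose! i c z i1 i2 i3 i4 using C
  have hN : {n : Tr.{u} | n.lv ⊆ Z ∧ In t n}.Countable := (countable_trees hZ).mono fun _ e => e.1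
  obtain ⟨r, r1, r2, r3⟩ := k6 ((Z ∩ Iio (s k)) ∪ ⋃ n ∈ {n : Tr.{u} | n.lv ⊆ Z ∧ In t n}, (z n).lv)
    ((hZ.mono inter_subset_left).union (hN.biUnion fun n _ => (lv_finite _).countable))
    (union_subset (fun a ha => ha.2.trans sk)
      (iUnion₂_subset fun n hn a ha => (i2 n hn.2 a ha).trans k1)) _ (hN.image i)
  refine ⟨r, fun a h1 h2 => r1 a (Or.inl ⟨h1, h2⟩), fun n y h1 h2 h3 h4 => ?_⟩
  have h5 : (z n).lv ⊆ (Z ∩ Iio (s k)) ∪ ⋃ n ∈ {n : Tr.{u} | n.lv ⊆ Z ∧ In t n}, (z n).lv :=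
    (subset_biUnion_of_mem (u := fun n => (z n).lv) (show n ∈ {n : Tr.{u} | n.lv ⊆ Z ∧ In t n} from
      ⟨h1, h2⟩)).trans subset_union_right
  have h6 : y.lv ⊆ (Z ∩ Iio (s k)) ∪ ⋃ n ∈ {n : Tr.{u} | n.lv ⊆ Z ∧ In t n}, (z n).lv :=
    fun a ha => Or.inl ⟨h3 ha, h4 a ha⟩
  rw [← i3 n h2 y h4, ← i4 n h2 _ (in_map fun a ha => r1 a (h6 ha)),
    r3 _ ⟨n, ⟨h1, h2⟩, rfl⟩ _ (union_subset (i1 n h2 ▸ empty_subset _) (union_subset h6 h5))]
  simp only [map_node, map_of_lv (i1 n h2)]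
  rw [map_eq_self (t := z n) fun a ha => r2 a (h5 ha) (i2 n h2 a ha)]

instance : D4St.{u} := ⟨fun _ => unb⟩

end Pool.Agent.KM.D4I
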