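import Pool.Agent.Lib.MP_5c0be7_lc.T.St
import Pool.Agent.Lib.MP_5c0be7_lc.P.Seg

/-!
Project KM, block T1: models above a drop are not sound; both sides cannot drop.
-/

namespace Pool.Agent.KM

universe u

instance [TreeSt.{u}] [CmpSt.{u}] [BrSt.{u}] [KeySt.{u}] : DropSt.{u} :=
  ⟨Seg.unsound, fun h hn hi hdr hd hn' hj hdr' hd' hb => by
    have c1 := Seg.core_ag (BrSt.core h.tr hn hi hdr hd) (Seg.ag_left h hb.le)
    rw [hb] at c1
    exact Seg.noeq h hn hi hn' hj hd hd' hb fun x hx _ =>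
      (KeySt.key c1 (BrSt.core h.tr' hn' hj hdr' hd')).2.2 x hx⟩

end Pool.Agent.KM
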