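import Pool.Agent.Lib.MP_5c0be7_lc.Z.St
import Pool.Agent.Lib.MP_5c0be7_lc.DST1
import Pool.Agent.Lib.MP_5c0be7_lc.C.KeyK

/-!
Project KM, block T: the descriptive set theoretic end of the proof. Statement.
-/

namespace Pool.Agent.KM

open Ordinal Tr

universe u

/-- Small parts of `(b + 1, E)` embed in levels of `W` with property `P`, by maps that fix `l`
and the ordinals below a given bound. -/
def LocEmb (W : Seq.{u}) (P : Ordinal.{u} → Prop) (l : Ordinal.{u}) (E : Seq.{u})
    (b : Ordinal.{u}) : Prop :=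
  ∀ Y : Set Ordinal.{u}, Y.Countable → Y ⊆ Set.Iic b → ∀ i < l,
    ∃ (a : Ordinal.{u}) (s : Ordinal.{u} → Ordinal.{u}), P a ∧ s b = a ∧ s l = l ∧
      (∀ x < i, s x = x) ∧ StrictMonoOn s (insert l Y ∪ Set.Iio i) ∧
      ∀ E0 b0 k, Strong E0 (b0 + 1) E (b + 1) k →
        (∀ x ≤ b0, k x ∈ Y ∨ InHull E (b + 1) (Y ∪ Set.Iio i) (k x)) →
        Strong E0 (b0 + 1) W (a + 1) (s ∘ k)

/-- Under the perfect set hypothesis at `lam`: if every premouse that is generated by `lam` and a
solid parameter and locally embeds in the `P` levels of `W` is a level of `W`, then the `P` levels are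
bounded below the successor of `lam`. -/
class EndSt : Prop where
  fin : Lib.MP_5c0be7_lc.HypH → ∃ lam : Cardinal.{0}, Lib.MP_5c0be7_lc.Good lam ∧
    ∀ (l : Ordinal.{1}) (W : Seq.{1}) (P : Ordinal.{1} → Prop), l = (Cardinal.lift.{1} lam).ord →
      (∀ a, P a → PM W (a + 1) ∧ l ≤ a ∧ ∃ p, KS W (a + 1) l p) →
      (∀ E b p, PM E (b + 1) → l ≤ b → KS E (b + 1) l p → Agree E W l →
        LocEmb W P l E b → Agree E W (b + 1)) →
      ∃ o < (Order.succ (Cardinal.lift.{1} lam)).ord, ∀ a, P a → a < o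

end Pool.Agent.KM
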