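import Pool.Agent.Lib.MP_5c0be7_lc.T.End1
import Pool.Agent.Lib.MP_5c0be7_lc.T.StEnd
import Pool.Agent.Lib.MP_5c0be7_lc.DST2
import Pool.Agent.Lib.MP_5c0be7_lc.L.Agree
import Pool.Agent.Lib.MP_5c0be7_lc.L.Rank
import Pool.Agent.Lib.MP_5c0be7_lc.O.F3b

/-!
Project KM, block T: the coanalytic set of codes and the boundedness argument.
-/

namespace Pool.Agent.KM

namespace EndI

open Ordinal Tr Set End0
open scoped Classical

universe u

variable {W : Seq.{u}} {P : Ordinal.{u} → Prop} {l i : Ordinal.{u}} {C : Set Ordinal.{u}}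
  {X : Tr.{u} → Prop} {M : Md.{u}} {c g : ℕ → Ordinal.{u}}

/-- `p` consists of a description of `l` and of witnesses, and of a solid list. -/
def Gd (W : Seq.{u}) (l a : Ordinal.{u}) (p : Tr.{u}) : Prop :=
  (∀ z ∈ p.lv, z < l ∨ z ∈ p.snd.lv) ∧ (∀ z ∈ p.snd.lv, l ≤ z) ∧
    ∃ w, ev W (a + 1) p.fst.fst p = some (node (leaf l) w) ∧ Wit W (a + 1) p.snd w

theorem ex_gd {a p} (hl : l ≤ a) (h : KS W (a + 1) l p) :
    ∃ p', In (a + 1) p' ∧ Gen W (a + 1) l p' ∧ Gd W l a p' := by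
  obtain ⟨w, h1, h2⟩ := ex_wit h.solid
  obtain ⟨c, v, h3, h4⟩ := h.gen (node (leaf l) w) (by simp [hl, h1])
  have i : In (a + 1) (node (node (prec (.pair .sf .snd) c.erase) v) p) := by
    simpa [In] using in_of_ev_eq h4
  refine ⟨_, i, F3.gen_change h.gen le_rfl (hl.trans le_self_add) i fun z hz => Or.inr (Or.inr hz),
    fun z hz => Or.imp_left (h3 z) (by simpa using hz), h.ge, w, ?_, h2⟩
  rw [fst_node, fst_node, ev_prec _ _ i]
  simpa using h4

/-- The theory `X` is locally realised in the `P` levels of `W`. -/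
def Mt (W : Seq.{u}) (P : Ordinal.{u} → Prop) (l : Ordinal.{u}) (C : Set Ordinal.{u})
    (X : Tr.{u} → Prop) : Prop :=
  ∀ Z : Set Ordinal.{u}, Z.Countable → Z ⊆ Iio l → ∀ i < l, ∃ a p f, P a ∧ Gd W l a p ∧
    Fib X (Z ∪ Iio i) ⟨W, a, p, f⟩ ∧ ∀ z ∈ C ∪ Iio i, f z = z

theorem gen_tm (hf : M.f = id) (hg : Gen M.E (M.b + 1) l M.p) {y} (hy : y ≤ M.b) :
    y ∈ Hu M (Iio l) := by
  obtain ⟨c, v, h1, h2⟩ := hg (leaf y) (by simpa using hy)
  refine ⟨node c.erase v, show In l _ by simpa using h1, ?_⟩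
  rw [Md.val, hf, map_eq_self (f := id) fun _ _ => rfl]
  simpa using h2

theorem loc [LosSt.{u}] [LosPmSt.{u}] (hl : Order.IsSuccLimit l) (hC : C.Countable)
    (hC1 : C ⊆ Iio l) (hC2 : ∀ y < l, ∃ z ∈ C, y < z) (hP : ∀ a, P a → PM W (a + 1))
    (H : Mt W P l C X) : ∃ M : Md.{u}, PM M.E (M.b + 1) ∧ Fib X (Iio l) M ∧ M.f = id ∧
      Gen M.E (M.b + 1) l M.p ∧ l ≤ M.b ∧ Agree M.E W l ∧ LocEmb W P l M.E M.b ∧
        KS M.E (M.b + 1) l M.p.snd := by
  obtain ⟨M, pm, fib, hf, hg⟩ := End1.model hl fun Z h1 h2 i hi =>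
    let ⟨a, p, f, h3, _, h4, h5⟩ := H Z h1 h2 i hi
    ⟨⟨W, a, p, f⟩, hP a h3, h4, fun z hz => h5 z (Or.inr hz)⟩
  have key : ∀ Y : Set Ordinal.{u}, Y.Countable → Y ⊆ Iic M.b → ∀ i < l, ∃ Z a p f s l0, P a ∧
      l ≤ a ∧ Fib X Z M ∧ Fib X Z ⟨W, a, p, f⟩ ∧ Tw Z M ⟨W, a, p, f⟩ s ∧ Iio i ⊆ Z ∧
      (∀ z < i, f z = z) ∧ Y ∪ Iio i ⊆ Hu M Z ∧ l0 ∈ Hu M Z ∧ s l0 = l ∧
      (∀ y ∈ Hu M Z, s y < l ↔ y < l) ∧ Gd W l a (M.p.map s) ∧ ∀ w,
        M.val (ap M.p.fst.fst prm) = some w → w.lv ⊆ Hu M Z ∧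
          Wit W (a + 1) (M.p.snd.map s) (w.snd.map s) := fun Y h1 h2 i hi => by
    choose! q q1 q2 using fun y (hy : y ∈ Y) => gen_tm hf hg (h2 hy)
    have hZ : C ∪ ⋃ y ∈ Y, (q y).lv ⊆ Iio l := union_subset hC1 (iUnion₂_subset q1)
    obtain ⟨a, p, f, h3, h4, h5, h6⟩ := H _
      (hC.union (h1.biUnion fun y _ => (lv_finite (q y)).countable)) hZ i hi
    have h7 := fib.mono (union_subset hZ (Iio_subset_Iio hi.le))
    obtain ⟨s, hs⟩ := two h7 h5
    obtain rfl : M.p.map s = p := tw_par h7 h5 hs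
    have lT0 : (ap M.p.fst.fst prm).lv ⊆ (C ∪ ⋃ y ∈ Y, (q y).lv) ∪ Iio i := lv_ap (by simp)
    have lT := lv_ap (c := opc .fst) lT0
    obtain ⟨w1, w2, w3⟩ := h4.2.2
    rw [map_fst, map_fst, ev_map_code] at w2
    have v0 := (val_ap h5.prm).trans w2
    have v1 : Md.val _ _ = some (leaf l) := val_op .fst v0
    obtain ⟨l0, v2⟩ := h5.leaf h7 lT v1
    have hz : ∀ z ∈ (C ∪ ⋃ y ∈ Y, (q y).lv) ∪ Iio i, z ∈ Hu M ((C ∪ ⋃ y ∈ Y, (q y).lv) ∪ Iio i) :=
      fun z hz => ⟨cst (leaf z), by simpa using hz, by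
        simpa [hf] using h7.cst (t := leaf z) (by simpa using hz)⟩
    have hc : ∀ z ∈ C, s z = z := fun z e => by
      simpa [hf, h6 z (Or.inl e)] using tw_lab h7 h5 hs (Or.inl (Or.inl e))
    refine ⟨_, a, _, f, s, l0, h3, by simpa using val_in v1, h7, h5, hs, subset_union_right,
      fun z e => h6 z (Or.inr e), union_subset (fun y hy => ⟨q y, fun z e =>
        Or.inl (Or.inr (mem_biUnion hy e)), q2 y hy⟩) fun z e => hz z (Or.inr e), ⟨_, lT, v2⟩,
      by simpa [v1] using (hs _ _ lT v2).symm, fun y hy => ⟨fun e => not_le.1 fun e' => ?_,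
        fun e => ?_⟩, h4, fun w hw => ⟨hu_val lT0 hw, ?_⟩⟩
    · obtain ⟨z, z1, z2⟩ := hC2 _ e
      exact lt_asymm z2 ((hc z z1).symm.trans_lt
        (tw_mono h7 h5 hs (hz z (Or.inl (Or.inl z1))) hy ((hC1 z1).trans_le e')))
    · obtain ⟨z, z1, z2⟩ := hC2 _ e
      exact ((tw_mono h7 h5 hs hy (hz z (Or.inl (Or.inl z1))) z2).trans_eq (hc z z1)).trans (hC1 z1)
    · rw [← map_snd, ← map_snd, Option.some.inj ((hs _ _ lT0 hw).symm.trans v0)]
      exact w3
  have hb : l ≤ M.b := by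
    obtain ⟨Z, a, p, f, s, l0, -, -, -, -, -, -, -, -, h1, h2, h3, -⟩ :=
      key ∅ countable_empty (empty_subset _) 0 hl.pos
    exact (not_lt.1 fun e => lt_irrefl _ (h2 ▸ (h3 l0 h1).2 e)).trans (KE.le1 (hu_lt h1))
  refine ⟨M, pm, fib, hf, hg, hb, fun v hv => ?_, fun Y h1 h2 i hi => ?_, ?_⟩
  · have hv' := hl.add_one_lt hv
    obtain ⟨Z, a, p, f, s, l0, h1, h2, h3, h4, h5, h6, h7, -⟩ :=
      key ∅ countable_empty (empty_subset _) _ hv'
    exact AgreeSt.of_ev (KE.pm0_mono pm.toPM0 (hv'.le.trans (hb.trans le_self_add)))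
      (KE.pm0_mono (hP a h1).toPM0 (hv'.le.trans (h2.trans le_self_add)))
      (fun x hx => tw_ev h3 h4 h5 h6 (fun z _ => by rw [hf]; rfl) h7 hx) v (lt_add_one v)
  · obtain ⟨Z, a, p, f, s, l0, a1, -, a3, a4, a5, a6, a7, a8, a9, b1, b2, -⟩ :=
      key (insert l Y) (h1.insert l) (insert_subset hb h2) i hi
    have hl' := a8 (Or.inl (mem_insert _ _))
    have mo := tw_mono a3 a4 a5
    have hY : Y ∪ Iio i ⊆ Hu M Z := (union_subset_union_left _ (subset_insert _ _)).trans a8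
    refine ⟨a, s, a1, tw_top a3 a4 a5, le_antisymm ((mo.monotoneOn hl' a9 (not_lt.1 fun e =>
      lt_irrefl _ (b1 ▸ (b2 l0 a9).2 e))).trans_eq b1) (not_lt.1 fun e =>
      lt_irrefl _ ((b2 l hl').1 e)), fun x hx => ?_, mo.mono a8, fun E0 b0 k hk hr =>
      tw_strong a3 a4 a5 hk fun x hx => (hr x hx).elim (fun e => hY (Or.inl e)) (hu_hull a3 hY)⟩
    simpa [hf, a7 x hx] using tw_lab a3 a4 a5 (a6 hx)
  · obtain ⟨Z, a, p, f, s, l0, -, -, a3, a4, a5, -, -, -, -, -, b2, ⟨b3, b4, w1, b5, -⟩, -⟩ :=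
      key ∅ countable_empty (empty_subset _) 0 hl.pos
    have hp := hu_val (Z := Z) (by simp) a3.prm
    have mo := (tw_mono a3 a4 a5).injOn
    rw [map_snd] at b3 b4
    rw [map_fst, map_fst, ev_map_code, tw_par a3 a4 a5] at b5
    obtain ⟨w, hw⟩ := a3.ex (lv_ap (by simp)) (a4.of (lv_ap (by simp)) ((val_ap a4.prm).trans b5))
    refine ⟨fib.p.snd, fun z hz => not_lt.1 fun e => absurd ((b2 z (hp (lv_snd _ hz))).2 e)
      (not_lt.2 (b4 _ (by rw [lv_map]; exact mem_image_of_mem _ hz))),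
      solid_down (X := X) (w := w.snd) fun q hq => ?_,
      F3.gen_change hg le_rfl (hb.trans le_self_add) fib.p.snd fun z hz => (b3 (s z)
        (by rw [lv_map]; exact mem_image_of_mem _ hz)).imp (b2 z (hp hz)).1 fun e => ?_⟩
    · obtain ⟨Z, a, p, f, s, l0, -, -, a3, a4, a5, -, -, a8, -, -, -, -, b6⟩ :=
        key q.lv (lv_finite q).countable (fun z hz => KE.le1 (hq z hz)) 0 hl.pos
      exact ⟨Z, _, s, a3, a4, a5, subset_union_left.trans a8, (lv_snd _).trans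
        (hu_val (by simp) a3.prm), (lv_snd _).trans (b6 w hw).1, (b6 w hw).2⟩
    · rw [lv_map] at e
      obtain ⟨y, h1, h2⟩ := e
      exact mo (hp (lv_snd _ h1)) (hp hz) h2 ▸ h1

/-- Names for the ordinals from two sequences. -/
noncomputable def nam (i : Ordinal.{u}) (k : ℕ ⊕ ℕ) : Ordinal.{u} := i + (Encodable.encode k : ℕ)

/-- Substitution for the names. -/
noncomputable def sub (i : Ordinal.{u}) (c g : ℕ → Ordinal.{u}) (a : Ordinal.{u}) : Ordinal.{u} :=
  if a < i then a else Sum.elim c g (Function.invFun (nam i) a)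

theorem sub_nam (k : ℕ ⊕ ℕ) : sub i c g (nam i k) = Sum.elim c g k := by
  have : Function.Injective (nam i) := fun a b e =>
    Encodable.encode_injective (by simpa [nam] using e)
  rw [sub, if_neg (not_lt.2 (show i ≤ nam i k from le_self_add)), Function.leftInverse_invFun this]

theorem sub_lt (hi : i < l) (hc : ∀ n, c n < l) (hg : ∀ n, g n < l) (a) : sub i c g a < l := by
  unfold sub
  split_ifs with h
  · exact h.trans hi
  · cases Function.invFun (nam i) a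
    exacts [hc _, hg _]

theorem ex_sec (i : Ordinal.{u}) (c g : ℕ → Ordinal.{u}) : ∃ s : Ordinal.{u} → Ordinal.{u},
    (∀ a, s a < i + ω) ∧ (∀ a ∈ range g, sub i c g (s a) = a) ∧
      ∀ g', ∀ a ∈ range c ∪ Iio i, sub i c g' (s a) = a := by
  have : ∀ a, ∃ y, y < i + ω ∧ (a ∈ range g → sub i c g y = a) ∧
      ∀ g', a ∈ range c ∪ Iio i → sub i c g' y = a := fun a => by
    have hn : ∀ k, nam i k < i + ω := fun k => by simp [nam]
    by_cases h1 : a < i
    · exact ⟨a, h1.trans_le le_self_add, fun _ => if_pos h1, fun _ _ => if_pos h1⟩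
    by_cases h2 : a ∈ range c
    · obtain ⟨n, rfl⟩ := h2
      exact ⟨_, hn (.inl n), fun _ => sub_nam _, fun _ _ => sub_nam _⟩
    · exact ⟨_, hn (.inr (Function.invFun g a)), fun e => (sub_nam _).trans (Function.invFun_eq e),
        fun _ e => (e.elim h2 h1).elim⟩
  choose s h1 h2 h3 using this
  exact ⟨s, h1, h2, fun g' a => h3 a g'⟩

theorem val_map (W : Seq.{u}) (a p f) (s : Ordinal.{u} → Ordinal.{u}) (q : Tr.{u}) :
    Md.val ⟨W, a, p, f⟩ (q.map s) = Md.val ⟨W, a, p, f ∘ s⟩ q := by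
  simp only [Md.val, map_fst, map_snd, ev_map_code, map_map]; rfl

theorem val_of_pr {q r w : Tr.{u}} (h : M.val (pr q r) = some w) :
    (∃ v, M.val q = some v) ∧ ∃ v, M.val r = some v := by
  have i := in_of_ev_eq h
  have := (ev_pairc_isSome _ _ _).1 (Option.isSome_iff_exists.2 ⟨w, h⟩)
  rw [ev_prec _ _ i, ev_prec _ _ i] at this
  simpa [Md.val, pr, Option.isSome_iff_exists] using this

theorem ev_top {E : Seq.{u}} {b : Ordinal.{u}} (h : Agree E W (b + 1)) :
    ev E (b + 1) = ev W (b + 1) :=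
  ev_local fun v hv c => h v (hv.lt_of_ne fun e => c ⟨b, e⟩)

open Lib.MP_5c0be7_lc in
theorem fin [LosSt.{1}] [LosPmSt.{1}] (H : HypH) : ∃ lam : Cardinal.{0}, Lib.MP_5c0be7_lc.Good lam ∧
    ∀ (l : Ordinal.{1}) (W : Seq.{1}) (P : Ordinal.{1} → Prop), l = (Cardinal.lift.{1} lam).ord →
      (∀ a, P a → PM W (a + 1) ∧ l ≤ a ∧ ∃ p, KS W (a + 1) l p) →
      (∀ E b p, PM E (b + 1) → l ≤ b → KS E (b + 1) l p → Agree E W l →
        LocEmb W P l E b → Agree E W (b + 1)) →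
      ∃ o < (Order.succ (Cardinal.lift.{1} lam)).ord, ∀ a, P a → a < o := by
  obtain ⟨lam, G, H⟩ := H.elim
  refine ⟨lam, G, fun l W P hl hP hB => ?_⟩
  have hO : Cardinal.aleph0 < Cardinal.lift.{1} lam := by simpa using G.unc
  have lim : Order.IsSuccLimit l := hl ▸ Cardinal.isSuccLimit_ord hO.le
  let o : Ix lam → Ordinal.{1} := fun j => Ordinal.lift.{1} (ToType.mk.symm j).1
  have o1 : ∀ j, o j < l := fun j => by
    rw [hl, ← Cardinal.lift_ord]; exact lift_lt.2 (ToType.mk.symm j).2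
  have o2 : ∀ a < l, ∃ j, o j = a := fun a ha => by
    rw [hl, ← Cardinal.lift_ord] at ha
    obtain ⟨b, hb, rfl⟩ := lt_lift_iff.1 ha
    exact ⟨ToType.mk ⟨b, hb⟩, by simp [o]⟩
  have o3 : StrictMono o := fun j k e => lift_lt.2 (ToType.mk.symm.strictMono e)
  obtain ⟨c0, -, hc0⟩ := G.seq
  obtain ⟨eq⟩ : Nonempty (Ix lam ≃ {t : Tr.{1} | In l t}) := by
    rw [← Cardinal.lift_mk_eq', mk_Ix, Cardinal.lift_id'.{0, 2}]
    refine le_antisymm ?_ ((KL.mk_in l).trans (by simpa [hl] using G.unc.le))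
    have := Cardinal.lift_mk_le_lift_mk_of_injective (f := fun j => (⟨leaf (o j), by
      simpa using o1 j⟩ : {t : Tr.{1} | In l t})) fun j k e => o3.injective (by simpa using e)
    rwa [mk_Ix, Cardinal.lift_id'.{0, 2}] at this
  let e : Ix lam → Tr.{1} := fun j => (eq j).1
  let d : Tr.{1} → Ix lam := fun t => if h : In l t then eq.symm ⟨t, h⟩ else c0 0
  have e1 : ∀ j, In l (e j) := fun j => (eq j).2
  have ed : ∀ t, In l t → e (d t) = t := fun t h => by simp [e, d, h]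
  have de : ∀ j, d (e j) = j := fun j => by simp only [d, dif_pos (e1 j)]; simp [e]
  have io : ∀ j, o j + ω < l := fun j => by
    rw [hl]
    exact Ordinal.isPrincipal_add_ord hO.le (hl ▸ o1 j) (Cardinal.lt_ord.2 (by simpa using hO))
  let Q : ∀ i : Ix lam, ({j // In (o i + ω) (e j)} → Bool) → Prop := fun i bits =>
    ∃ a p g, P a ∧ In (a + 1) p ∧ Gd W l a p ∧ (∀ n, g n < l) ∧
      ∀ j, bits j = true ↔ (Md.val ⟨W, a, p, sub (o i) (o ∘ c0) g⟩ (e j.1)).isSome
  let A : Set (Cantor lam) :=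
    {x | ∀ i (z : ℕ → Ix lam), Q i fun j => x (d ((e j.1).map (sub (o i) (o ∘ c0) (o ∘ z))))}
  let R : Cantor lam → Ix lam → Ix lam → Prop := fun x j k =>
    x (d (ap (tst .lt) (pr (e j) (e k)))) = true
  have mod : ∀ x ∈ A, ∃ M : Md.{1}, Fib (fun t => x (d t) = true) (Iio l) M ∧ M.f = id ∧
      Gen M.E (M.b + 1) l M.p ∧ Agree M.E W (M.b + 1) := fun x hx => by
    obtain ⟨M, h1, h2, h3, h4, h5, h6, h7, h8⟩ := loc (W := W) (P := P) (C := range (o ∘ c0))
      (X := fun t => x (d t) = true) lim (countable_range _) (range_subset_iff.2 fun n => o1 _)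
      (fun y hy => by
        obtain ⟨j, rfl⟩ := o2 y hy
        obtain ⟨n, hn⟩ := hc0 j
        exact ⟨_, ⟨n, rfl⟩, o3 hn⟩) (fun a h => (hP a h).1) fun Z h1 h2 i hi => by
      obtain ⟨i, rfl⟩ := o2 i hi
      obtain ⟨z, hz⟩ := ((countable_of_injective_of_countable_image (s := o ⁻¹' Z)
        o3.injective.injOn (h1.mono (image_preimage_subset _ _))).insert i).exists_eq_range
        (insert_nonempty _ _)
      obtain ⟨s, s1, s2, s3⟩ := ex_sec (o i) (o ∘ c0) (o ∘ z)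
      obtain ⟨a, p, g, a1, a2, a3, a4, a5⟩ := hx i z
      refine ⟨a, p, sub (o i) (o ∘ c0) g ∘ s, a1, a3, ⟨a2, fun y _ => (sub_lt hi
        (fun _ => o1 _) a4 _).trans_le ((hP a a1).2.1.trans le_self_add), fun q hq => ?_⟩, s3 g⟩
      have i1 : In (o i + ω) (q.map s) := fun y hy => by
        rw [lv_map] at hy; obtain ⟨y, -, rfl⟩ := hy; exact s1 y
      have i2 := ed _ (i1.mono (io i).le)
      have := a5 ⟨d (q.map s), i2.symm ▸ i1⟩
      simp only [i2] at this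
      rwa [val_map, map_map, map_eq_self fun y hy => (hq hy).elim (fun c => s2 y (by
        obtain ⟨j, rfl⟩ := o2 y (h2 c)
        obtain ⟨n, rfl⟩ : j ∈ range z := hz ▸ Or.inr c
        exact ⟨n, rfl⟩)) fun c => s3 _ y (Or.inr c)] at this
    exact ⟨M, h2, h3, h4, hB _ _ _ h1 h5 h8 h6 h7⟩
  have rk : ∀ (x : Cantor lam) (M : Md.{1}) r, Fib (fun t => x (d t) = true) (Iio l) M →
      M.f = id → Gen M.E (M.b + 1) l M.p → Rk (R x) r → M.b < Ordinal.lift.{1} r := by
    rintro x M r h1 h2 h3 ⟨f, f1, f2⟩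
    choose! q q1 q2 using fun y (hy : y ≤ M.b) => gen_tm h2 h3 hy
    have : ∀ y ≤ M.b, y ≤ Ordinal.lift.{1} (f (d (q y))) := fun y => by
      induction y using WellFoundedLT.induction with
      | ind y ih =>
      refine fun hy => le_of_forall_lt fun z hz => (ih z hz (hz.le.trans hy)).trans_lt
        (lift_lt.2 (f2 _ _ ?_))
      simp only [R, ed _ (q1 y hy), ed _ (q1 z (hz.le.trans hy))]
      exact (h1.tst (lv_pr (q1 z (hz.le.trans hy)) (q1 y hy)) .lt
        (val_pr (q2 z (hz.le.trans hy)) (q2 y hy))).2 (by simpa [lt_lf] using hz)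
    exact (this _ le_rfl).trans_lt (lift_lt.2 (f1 _))
  obtain ⟨r, r1, r2⟩ := H (Ix lam) A R mk_Ix.le (by
      have := G.ne
      convert G.iUnion mk_Ix.le fun i => G.hull (K := ℕ) (A := {j // In (o i + ω) (e j)})
        (E := Unit) (by simpa using G.unc) ?_ (by simpa using G.unc.le.trans' Cardinal.one_le_aleph0)
        (fun z j => d ((e j.1).map (sub (o i) (o ∘ c0) (o ∘ z)))) (fun j => ?_)
        fun _ bits _ _ => ¬ Q i bits using 1
      · ext x; simp [A]
      · have := (Cardinal.lift_mk_le_lift_mk_of_injective (f := fun j : {j // In (o i + ω) (e j)} =>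
          (⟨e j.1, j.2⟩ : {t : Tr.{1} | In (o i + ω) t})) fun j k h => Subtype.ext
            (eq.injective (Subtype.ext (Subtype.mk.inj h)))).trans_lt
          (Cardinal.lift_lt.{_, 0}.2 (KL.mk_in_lt hO (hl ▸ io i)))
        simpa using this
      · refine ⟨(lv_finite (e j.1)).toFinset.image fun a =>
          (Function.invFun (nam (o i)) a).elim id id, fun z z' h => congrArg d (map_congr
            fun a ha => ?_)⟩
        have := h _ (Finset.mem_image_of_mem _ ((lv_finite _).mem_toFinset.2 ha))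
        unfold sub
        generalize Function.invFun (nam (o i)) a = k at this
        cases k with
        | inl n => rfl
        | inr n => simp [show z n = z' n from this])
    (fun x j k h => by
      have := G.noMax
      obtain ⟨i, hi⟩ := exists_gt (d (ap (tst .lt) (pr (e j) (e k))))
      exact ⟨i, fun y hy => (hy _ hi).trans h⟩)
    (fun x hx => by
      obtain ⟨M, h1, -⟩ := mod x hx
      refine Subrelation.wf (fun {j k} h => ?_)
        (InvImage.wf (fun j => (M.val (e j)).getD .nil) lt_wf)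
      obtain ⟨w, hw⟩ := val_of_ap ((h1.th _ (lv_ap (lv_pr (e1 j) (e1 k)))).1 h)
      obtain ⟨⟨v1, a1⟩, v2, a2⟩ := val_of_pr hw
      simpa [InvImage, a1, a2] using (h1.tst (lv_pr (e1 j) (e1 k)) .lt (val_pr a1 a2)).1 h)
    (fun r hr => by
      choose M m1 m2 m3 m4 using fun x : {x // x ∈ A ∧ Rk (R x) r} => mod x.1 x.2.1
      have := (Cardinal.lift_mk_le_lift_mk_of_injective (f := fun x => (⟨node (leaf (M x).b) (M x).p, by
        have := rk _ _ r (m1 x) (m2 x) (m3 x) x.2.2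
        simpa [this] using (m1 x).p.mono (Order.add_one_le_iff.2 this)⟩ :
          {t : Tr.{1} | In (Ordinal.lift.{1} r) t})) fun x y h => ?_).trans
        (Cardinal.lift_le.{0}.2 (KL.mk_in _))
      · rw [Cardinal.lift_id'.{0, 2}, ← lift_card, Cardinal.lift_lift,
          ← Cardinal.lift_aleph0.{2, 0}, ← Cardinal.lift_max, Cardinal.lift_le] at this
        exact this.trans (max_le G.unc.le hr)
      · obtain ⟨h1, h2⟩ : (M x).b = (M y).b ∧ (M x).p = (M y).p := by simpa using h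
        refine Subtype.ext (funext fun j => Bool.eq_iff_iff.2 ?_)
        have := ((m1 x).th _ (e1 j)).trans (Iff.trans ?_ ((m1 y).th _ (e1 j)).symm)
        · simpa only [de] using this
        · rw [Md.val, Md.val, ev_top (m4 x), ev_top (m4 y), m2, m2, h1, h2])
  refine ⟨Ordinal.lift.{1} r, ?_, fun a ha => ?_⟩
  · rw [← Cardinal.lift_succ, ← Cardinal.lift_ord]
    exact lift_lt.2 (Cardinal.card_le_iff.1 r1)
  · obtain ⟨h1, h2, p0, h0⟩ := hP a ha
    obtain ⟨p, i1, h3, h4⟩ := ex_gd h2 h0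
    let M : Md.{1} := ⟨W, a, p, id⟩
    have fb : Fib (fun t => decide (M.val (e (d t))).isSome = true) (Iio l) M :=
      ⟨i1, fun z hz => KE.lt1 (hz.le.trans h2), fun q hq => by rw [ed q hq, decide_eq_true_iff]⟩
    let x : Cantor lam := fun j => decide (M.val (e j)).isSome
    refine rk x M r fb rfl h3 (r2 x ?_)
    refine fun i z => ⟨a, _, o ∘ z, ha, i1, h4, fun _ => o1 _, fun j => ?_⟩
    exact (fb.th _ (by
      rw [lv_map]
      exact image_subset_iff.2 fun y _ => sub_lt (o1 i) (fun _ => o1 _) (fun _ => o1 _) y)).trans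
        (by rw [val_map]; rfl)

end EndI

instance [LosSt.{1}] [LosPmSt.{1}] : EndSt := ⟨EndI.fin⟩

end Pool.Agent.KM
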