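import Pool.Agent.Lib.MP_5c0be7_lc.T.Tame
import Pool.Agent.Lib.MP_5c0be7_lc.P.Seg
import Pool.Agent.Lib.MP_5c0be7_lc.C.Br

/-!
Project KM, block T1: the induction step for the hull property.
-/

namespace Pool.Agent.KM

open Ordinal Cardinal Tr Set

universe u

namespace HPI

variable {P : Pa.{u}} {E E0 E1 : Seq.{u}} {a k l m th th0 th1 x : Ordinal.{u}} {T U : IT.{u}}
  {s i j : Ordinal.{u} → Ordinal.{u}}

theorem fix_of_range (hs : StrictMono s) (h : ∀ x < m, ∃ y, s y = x) : ∀ x < m, s x = x := by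
  intro x
  induction x using WellFoundedLT.induction with
  | ind x ih =>
    intro hx
    obtain ⟨y, hy⟩ := h x hx
    rcases (hy ▸ hs.le_apply : y ≤ x).lt_or_eq with h1 | h1
    · exact absurd ((ih y h1 (h1.trans hx)).symm.trans hy) h1.ne
    · exact h1 ▸ hy.trans h1.symm

theorem weak_Om (h0 : Tall P E0 th0) (h : Tame P E0 th0 E th s) : Weak E0 P.Om E P.Om s :=
  have hl := h0.lt.trans (lt_add_one th0)
  ⟨h.mono.mono fun _ ha => lt_trans ha hl, fun _ ha => (h.lt_Om h0.lt (ha.trans h0.lt).le).2 ha,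
    fun b hb => absurd ⟨b, hb⟩ P.not_suc, fun b hb => h.comm b (hb.trans hl)⟩

/-- The definability property comes down along tame maps. -/
theorem defA_down (h0 : Tall P E0 th0) (h : Tame P E0 th0 E th s) (hm : m ≤ th0)
    (hf : ∀ x ≤ m, s x = x) (H : DefA P E th m) : DefA P E0 th0 m := fun G hG => by
  obtain ⟨b, h1, h2⟩ := InHull.comap (G := G ∩ Iio th0 ∪ Iio m) h.toStrong
    (union_subset (fun x hx => lt_trans hx.2 (lt_add_one th0)) fun x hx => KE.lt1 (hx.le.trans hm))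
    ((H _ (h.image h0 hG)).mono (union_subset (image_mono subset_union_left)
      fun x hx => ⟨x, Or.inr hx, hf x hx.le⟩))
  rw [← h.mono.injOn (HullSt.lt h1) (KE.lt1 hm) (h2.trans (hf m le_rfl).symm)] at h1 ⊢
  exact h1.mono (union_subset_union_left _ inter_subset_left)

/-- The hull property comes down along tame maps. -/
theorem hp_down (h0 : Tall P E0 th0) (h : Tame P E0 th0 E th s) (hm : m ≤ th0)
    (hf : ∀ x < m, s x = x) (H : HP P E th m) : HP P E0 th0 m := fun G hG n hn => by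
  obtain ⟨n', h1, h2⟩ := H _ (h.image h0 hG) (n.map s) (KE.w_in h.toWeak hn)
  obtain ⟨y, h3, rfl⟩ := exists_preimage (s := s)
    (G := {y | InHull E0 (th0 + 1) (G ∪ Iio m) y}) (x := n') fun z hz => by
      obtain ⟨b, k1, k2⟩ := InHull.comap (G := G ∩ Iio th0 ∪ Iio m) h.toStrong
        (union_subset (fun x hx => lt_trans hx.2 (lt_add_one th0))
          fun x hx => KE.lt1 (hx.le.trans hm))
        (InHull.mono (h1 hz) (union_subset (image_mono subset_union_left)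
          fun x hx => ⟨x, Or.inr hx, hf x hx⟩))
      exact ⟨b, k1.mono (union_subset_union_left _ inter_subset_left), k2⟩
  refine ⟨y, h3, fun q hq => ?_⟩
  have hq' := hq.mono (hm.trans le_self_add : m ≤ th0 + 1)
  rw [← KN.wnm h.toWeak hn hq', ← KN.wnm h.toWeak (fun z hz => HullSt.lt (h3 hz)) hq',
    map_eq_self fun z hz => hf z (hq z hz)]
  exact h2 q hq

/-- Tame maps that agree below `m` agree on the named subsets of the stratum `m`. -/
theorem hp_eq (h0 : Tall P E0 th0) (h1 : PM0 E1 (th1 + 1)) (hi : Tame P E0 th0 E1 th1 i)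
    (hj : Tame P E0 th0 E1 th1 j) (hm : m < th0) (H : HP P E0 th0 m) (hf : ∀ x < m, i x = j x)
    {X q : Tr.{u}} (hX : In (th0 + 1) X) (hq : In (i m) q) (hq' : In (j m) q) :
    Nm E1 (X.map i) q ↔ Nm E1 (X.map j) q := by
  obtain ⟨n, h2, h3⟩ := H _ (Tame.agree h0 hi hj) X hX
  have hn : In (th0 + 1) n := fun z hz => HullSt.lt (h2 hz)
  have e : n.map i = n.map j := map_congr fun z hz =>
    InHull.eq (h2 hz) hi.toStrong hj.toStrong fun x hx => hx.elim id (hf x)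
  have ui := (TB.strong_good h0.pm.toPM0 h1 hi.toStrong).inc m (h0.rho.symm ▸ hm)
  have uj := (TB.strong_good h0.pm.toPM0 h1 hj.toStrong).inc m (h0.rho.symm ▸ hm)
  exact ⟨fun k => uj n X hn hX (fun v hv => (h3 v hv).2) q hq'
      (e ▸ ui X n hX hn (fun v hv => (h3 v hv).1) q hq k),
    fun k => ui n X hn hX (fun v hv => (h3 v hv).2) q hq
      (e ▸ uj X n hX hn (fun v hv => (h3 v hv).1) q hq' k)⟩

variable [TreeSt.{u}]

/-- The least ordinal moved by a branch map is the critical point of the first step. -/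
theorem first (h : T.IsTr l) (hd : T.ND k l) (hx : x ≤ T.b k) (hf : ∀ y < x, T.mp k l y = y)
    (hm : T.mp k l x ≠ x) : ∃ c, T.n ≤ c ∧ c < l ∧ T.pr c = k ∧ T.st c = T.b k ∧ T.ND (c + 1) l ∧
      T.ka c = x ∧ ∀ y ≤ T.b k, T.mp k l y = Seg.sg T c l y := by
  rcases hd.1.1.lt_or_eq with hl | rfl
  · obtain ⟨c, h1, h2, h3, h4, h5, h6⟩ := Seg.first h hd hl
    refine ⟨c, h1, h2, h3, h4, h5, le_antisymm (not_lt.1 fun hc => hm ?_) (not_lt.1 fun hc => ?_),
      h6⟩
    · rw [h6 x hx, Seg.sg_fix h h1 h2 h5 hc]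
    · exact (Seg.sg_move h h1 h2 h5).ne' ((h6 _ (hc.le.trans hx)).symm.trans (hf _ hc))
  · exact absurd (Seg.mp_id h le_rfl hx) hm

/-- A branch map that fixes the ordinals below `a` adds no subsets of the stratum `a`. -/
theorem pp (h : T.IsTr l) (hd : T.ND k l) (hf : ∀ y < a, T.mp k l y = y) :
    PP (T.E k) (T.b k + 1) (T.E l) (T.b l + 1) a := by
  rcases hd.1.1.lt_or_eq with hl | rfl
  · obtain ⟨c, h1, h2, h3, h4, h5, h6⟩ := Seg.first h hd hl
    have hc : a ≤ T.ka c := not_lt.1 fun hc => (Seg.sg_move h h1 h2 h5).ne'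
      ((h6 _ (h4 ▸ (Seg.ka_lt_st (h.step c h1 h2)).le)).symm.trans (hf _ hc))
    rintro A ⟨n, k1, k2⟩
    obtain ⟨n', k3, k4⟩ := CU.seg_pp h h1 h2 (Nm (T.E l) n) ⟨n, k1, fun _ _ => Iff.rfl⟩
    rw [h3, h4] at *
    exact ⟨n', k3, fun q hq => (k4 q (hq.mono hc)).trans (k2 q hq)⟩
  · exact fun _ hA => hA

variable [CmpSt.{u}] [OverSt.{u}] [FragSt.{u}]

/-- The comparison of a weasel with a thick hull does not move the ordinals below `a`. -/
theorem fixed (h0 : Tall P E0 th0) (h : Tall P E th) (hs : Tame P E0 th0 E th s) (ha : a < P.Om)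
    (fx : ∀ x < a, s x = x) (ag : Agree E0 E a) (l0 : LimC E0 (th0 + 1) a) (l1 : LimC E (th + 1) a)
    (ih : ∀ m < a, Small E m → StrongTo E a m → LimC E a m → DefA P E th m ∧ HP P E th m)
    (eT : (IT.one E0 th0).EqLt T 1) (eU : (IT.one E th).EqLt U 1) (co : T.Coit l U m)
    (dT : T.ND 0 l) (dU : U.ND 0 m) (nT : ∀ i < l, a < T.nu i) (nU : ∀ j < m, a < U.nu j)
    (hb : T.b l = U.b m) (tj : Tame P E0 th0 (T.E l) (T.b l) (T.mp 0 l))
    (ti : Tame P E th (T.E l) (T.b l) (U.mp 0 m)) :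
    ∀ x < a, T.mp 0 l x = x ∧ U.mp 0 m x = x := by
  obtain rfl : T.E 0 = E0 := eT.E zero_lt_one
  obtain rfl : T.b 0 = th0 := eT.b zero_lt_one
  obtain rfl : U.E 0 = E := eU.E zero_lt_one
  obtain rfl : U.b 0 = th := eU.b zero_lt_one
  have a0 := ha.trans h0.lt
  have a1 := ha.trans h.lt
  intro x
  induction x using WellFoundedLT.induction with
  | ind x IH =>
  intro hx
  by_contra hc
  have x0 := hx.trans a0
  have x1 := hx.trans a1
  have fT : ∀ y < x, T.mp 0 l y = y := fun y hy => (IH y hy (hy.trans hx)).1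
  have fU : ∀ y < x, U.mp 0 m y = y := fun y hy => (IH y hy (hy.trans hx)).2
  have h1 : Small (U.E 0) x ∧ StrongTo (U.E 0) a x ∧ LimC (U.E 0) a x := by
    by_cases k : T.mp 0 l x = x
    · obtain ⟨c, -, c2, -, -, -, rfl, -⟩ := first co.tr' dU x1.le fU fun k' => hc ⟨k, k'⟩
      exact OverSt.ovl co.tr' co.nor' eU.n h.pas l1 a1.le nU c2 hx
    · obtain ⟨c, -, c2, -, -, -, rfl, -⟩ := first co.tr dT x0.le fT k
      obtain ⟨k1, k2, k3⟩ := OverSt.ovl co.tr co.nor eT.n h0.pas l0 a0.le nT c2 hx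
      exact ⟨KL.small_ag (KL.ag_mono ag hx.le) k1, FragSt.congr ag k2, TB.limC_ag ag hx.le k3⟩
  obtain ⟨d, hp⟩ := ih x hx h1.1 h1.2.1 h1.2.2
  have ts := Tame.comp h0 h hs ti
  have fe : ∀ y < x, T.mp 0 l y = (U.mp 0 m ∘ s) y := fun y hy => by
    rw [Function.comp, fx y (hy.trans hx), fT y hy, fU y hy]
  have e := Tame.defA_eq h0 tj ts
    (defA_down h0 hs x0.le (fun y hy => fx y (hy.trans_lt hx)) d) fe
  have e' : T.mp 0 l x = U.mp 0 m x := by rw [e, Function.comp, fx x hx]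
  have kT : T.mp 0 l x ≠ x := fun k => hc ⟨k, e' ▸ k⟩
  obtain ⟨c, c1, c2, c3, c4, c5, c6, c7⟩ := first co.tr dT x0.le fT kT
  obtain ⟨c', d1, d2, -, -, d5, d6, d7⟩ := first co.tr' dU x1.le fU (e' ▸ kT)
  refine CmpSt.nobranch co c1 c2 d1 d2 c5 d5 (c6.trans d6.symm) fun X q hX hq _ => ?_
  have S := co.tr.step c c1 c2
  have t1 := (TreeSt.pred_ext (co.tr.mono c1 c2.le) S.use S.pred).top
  rw [c3, c6] at t1
  replace hX := hX.mono (KL.top_le t1 (KL.card_noProj
    (KL.card_mono l0.1 ((c4 ▸ Seg.ta_le_st S).trans le_self_add)) hx))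
  have q1 : In (T.mp 0 l x) q := hq.mono (by
    rw [c7 x x0.le, ← c6]; exact Seg.la_le_sg co.tr c1 c2 c5)
  have hX0 := hX.mono (a0.le.trans le_self_add : a ≤ T.b 0 + 1)
  have e1 : X.map (T.mp (c + 1) l ∘ T.im c) = X.map (T.mp 0 l) :=
    map_congr fun y hy => (c7 y ((hX y hy).trans a0).le).symm
  have e2 : X.map (U.mp (c' + 1) m ∘ U.im c') = X.map (U.mp 0 m ∘ s) :=
    map_congr fun y hy => by
      rw [Function.comp_apply (f := U.mp 0 m), fx y (hX y hy)]
      exact (d7 y ((hX y hy).trans a1).le).symm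
  rw [e1, e2, ← KN.anm (Seg.ag_left co hb.le) (KE.w_in ts.toWeak hX0)]
  exact hp_eq h0 (TreeSt.pm co.tr le_rfl).toPM0 tj ts x0
    (hp_down h0 hs x0.le (fun y hy => fx y (hy.trans hx)) hp) fe hX0 q1 (e ▸ q1)

theorem step [S4St.{u}] [S5St.{u}] [AgreeSt.{u}] [ActSt.{u}] (h : GoodW P E th) (ha : a < P.Om)
    (hl : LimC E P.Om a)
    (ih : ∀ m < a, Small E m → StrongTo E a m → LimC E a m → DefA P E th m ∧ HP P E th m) :
    HP P E th a := fun G hG n hn => by
  obtain ⟨E0, th0, s, h0, hs, mono, hr⟩ :=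
    S4St.down P h (hG.mono (subset_union_left (t := Iio a)))
  have a0 := ha.trans h0.lt
  have a1 := ha.trans h.lt
  have fx : ∀ x < a, s x = x := fix_of_range mono fun x hx => by
    have : x ∈ s '' Iic th0 := hr ▸ HullSt.sub (Or.inr hx) (KE.lt1 (hx.trans a1).le)
    exact this.imp fun _ k => k.2
  have ag : Agree E0 E a :=
    AgreeSt.of_fix h0.pm.toPM0 h.pm.toPM0 hs.toWeak (a0.le.trans le_self_add) fx
  have c1 : IsCard E (th + 1) a := TB.card_ext h.ls hl.1 ha.le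
  have c0 : IsCard E0 (th0 + 1) a :=
    TB.card_ext h0.ls (KL.card_down (weak_Om h0.toTall hs) P.not_suc fx hl.1) ha.le
  obtain ⟨T, l, U, m, eT, eU, co, dT, dU, nT, nU, hb, -, tj, ti⟩ := S5St.cmp P h0 h
    (TB.ag_succ ag (TB.pas_eq (TB.pas_of_card h0.pm.toPM0 (KE.s1lt a0) c0)
      (TB.pas_of_card h.pm.toPM0 (KE.s1lt a1) c1)))
  have key := fixed h0.toTall h.toTall hs ha fx ag
    ⟨c0, (TB.limC_ag (KL.ag_symm ag) le_rfl (TB.limC_mono hl ha.le)).2⟩ ⟨c1, hl.2⟩ ih eT eU co dT dU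
    (fun i hi => IT.s_lt (nT i hi)) (fun j hj => IT.s_lt (nU j hj)) hb tj ti
  obtain ⟨n0, h1, h2⟩ := pp co.tr dT (fun y hy => (key y hy).1) (Nm E n)
    (Seg.named_up ti.toWeak (a1.le.trans le_self_add) (fun y hy => (key y hy).2)
      ⟨n, hn, fun _ _ => Iff.rfl⟩)
  rw [show T.b 0 = th0 from eT.b zero_lt_one] at h1
  rw [show T.E 0 = E0 from eT.E zero_lt_one] at h2
  refine ⟨n0.map s, ?_, fun q hq => ?_⟩
  · rw [← hr, lv_map]; exact image_mono fun y hy => KE.le1 (h1 y hy)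
  · have k := KN.wnm hs.toWeak h1 (hq.mono (a0.le.trans le_self_add))
    rw [map_eq_self (t := q) fun y hy => fx y (hq y hy)] at k
    exact (h2 q hq).symm.trans k.symm

end HPI

instance [TreeSt.{u}] [CmpSt.{u}] [OverSt.{u}] [FragSt.{u}] [S4St.{u}] [S5St.{u}] [AgreeSt.{u}]
    [ActSt.{u}] : HPSt.{u} := ⟨fun _ => HPI.step⟩

end Pool.Agent.KM
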