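import Pool.Agent.Lib.MP_5c0be7_lc.T.St
import Pool.Agent.Lib.MP_5c0be7_lc.K.Emb
import Pool.Agent.Lib.MP_5c0be7_lc.O.StF3
import Pool.Agent.Lib.MP_5c0be7_lc.O.Calc

/-!
Project KM, block T1: realisability at passive limit levels of uncountable cofinality.
-/

namespace Pool.Agent.KM

open Ordinal Cardinal Tr Set
open scoped Classical

universe u

namespace IILimI

variable {E E0 : Seq.{u}} {b c d : Ordinal.{u}} {k : Ordinal.{u} → Ordinal.{u}}

/-- The reading of a code does not depend on the level above the input. -/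
theorem lev_mono (h : c ≤ d) (R : Tr.{u} → Prop) (q : Cd) {x : Tr.{u}} (hx : In c x) :
    lev (ev E) c R q x = lev (ev E) d R q x := by
  induction q generalizing x with
  | op a => rfl
  | cmp s c1 c2 ih1 ih2 =>
    simp only [lev, ← ih2 hx]
    cases hw : lev (ev E) c R c2 x with
    | none => rfl
    | some w =>
      have h1 : In c w := in_lev (fun _ _ _ _ _ => ev_in) c2 hx hw
      exact ih1 (In.bop (by simp [hx, h1]) s)
  | unopt => rfl
  | ev => simp only [lev, call_mono hx.fst (hx.mono h).fst]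
  | ext => rfl
  | atom Q => rfl

/-- Two passive limit levels agree on the inputs of the smaller one. -/
theorem ev_pas (hc : ¬ Suc c) (hd : ¬ Suc d) (h : c ≤ d) (pc : Pas E c) (pd : Pas E d)
    (q : Tr.{u}) {x : Tr.{u}} (hx : In c x) : ev E c q x = ev E d q x := by
  have h1 : E c = E d := by
    funext y z
    exact propext (iff_of_false (pc y z) (pd y z))
  have h2 : ora E c = ora E d := by
    funext y
    simp only [ora, hc, hd, h1]
  rw [ev_lim hc hx, ev_lim hd (hx.mono h), h2, lev_mono h _ _ hx]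

/-- The top point of a good map into a passive limit level can be lowered. -/
theorem lower [AmenSt.{u}] (hk : Good E0 b E k) (hc : ¬ Suc c) (hd : ¬ Suc (k b)) (h : c < k b)
    (pc : Pas E c) (pd : Pas E (k b)) (hb : ∀ x < b, k x < c) :
    Good E0 b E (Function.update k b c) := by
  set k' := Function.update k b c with hk'
  have e1 : k' b = c := Function.update_self ..
  have e2 : ∀ x < b, k' x = k x := fun x hx => Function.update_of_ne hx.ne ..
  have e3 : ∀ {y : Tr.{u}}, In b y → y.map k' = y.map k := fun hy =>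
    map_congr fun z hz => e2 z (hy z hz)
  have e4 : ∀ {y : Tr.{u}}, In b y → In c (y.map k) := fun hy =>
    KE.in_map fun z hz => hb z (hy z hz)
  have hw := hk.toWeak
  have hw' : Weak E0 (b + 1) E (k' b + 1) k' := by
    refine ⟨fun x _ y hy hxy => ?_, fun a ha => ?_, fun a ha => by rw [KE.s1inj ha],
      fun a ha => ?_⟩
    · have hx : x < b := hxy.trans_le (KE.le1 hy)
      rcases (KE.le1 hy).eq_or_lt with rfl | hy'
      · rw [e1, e2 x hx]; exact hb x hx
      · rw [e2 x hx, e2 y hy']; exact hw.mono (KE.lt1 hx.le) hy hxy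
    · rcases (KE.le1 ha).eq_or_lt with rfl | ha'
      · exact lt_add_one _
      · rw [e1, e2 a ha']; exact KE.lt1 (hb a ha').le
    · rcases (KE.le1 ha).eq_or_lt with rfl | ha'
      · refine KE.comm_congr (fun q y hy => ?_) (fun _ _ _ => ev_in) e2
        rw [e1, ev_pas hc hd h.le pc pd q (e4 hy), hw.comm a ha q y hy]
      · rw [e2 a ha']
        exact KE.comm_congr (hw.comm a ha) (fun _ _ _ => ev_in) fun z hz => e2 z (hz.trans ha')
  have key : ∀ t v : Tr.{u}, In (b + 1) t → In c v → (Nm E (t.map k') v ↔ Nm E (t.map k) v) := by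
    intro t v ht hv
    have hp : In (b + 1) t.snd.snd := ht.snd.snd
    have h3 : ∀ a < b + 1, ev E (k' a) (t.map k').snd.fst (node v (t.map k').snd.snd) =
        ev E (k a) (t.map k).snd.fst (node v (t.map k).snd.snd) := by
      intro a ha
      simp only [map_snd, map_fst, ev_map_code]
      by_cases hy : In a t.snd.snd
      · have hy' : In b t.snd.snd := hy.mono (KE.le1 ha)
        rw [e3 hy']
        rcases (KE.le1 ha).eq_or_lt with rfl | ha'
        · rw [e1]
          exact ev_pas hc hd h.le pc pd _ ((in_node ..).2 ⟨hv, e4 hy'⟩)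
        · rw [e2 a ha']
      · rw [ev_guard fun h1 => hy ((KE.w_in_iff hw' hp ha).1 ((in_node ..).1 h1).2),
          ev_guard fun h1 => hy ((KE.w_in_iff hw hp ha).1 ((in_node ..).1 h1).2)]
    constructor
    · rintro ⟨a', h1, h2⟩
      rw [map_fst, map_eq_leaf] at h1
      obtain ⟨a, h1, rfl⟩ := h1
      have ha : a < b + 1 := ht.fst a (by rw [h1]; simp)
      exact ⟨k a, by rw [map_fst, h1]; rfl, by rw [← h3 a ha]; exact h2⟩
    · rintro ⟨a', h1, h2⟩
      rw [map_fst, map_eq_leaf] at h1
      obtain ⟨a, h1, rfl⟩ := h1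
      have ha : a < b + 1 := ht.fst a (by rw [h1]; simp)
      exact ⟨k' a, by rw [map_fst, h1]; rfl, by rw [h3 a ha]; exact h2⟩
  refine ⟨hw', fun j hj => ?_, fun j t hj ht H a h1 h2 => ?_, fun j hj t n ht hn H v hv => ?_⟩
  · have hj' : j < b := hj.trans_le KE.rho_le
    rw [e1, e2 j hj', (AmenSt.lev_pas E c hc pc).2 hc]
    exact hb j hj'
  · rw [e2 j hj]
    rw [e2 t ht] at h1
    rw [e1] at h2
    exact hk.card j t hj ht H a h1 (h2.trans h)
  · have hj' : j < b := hj.trans_le KE.rho_le
    rw [e2 j hj'] at hv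
    have hv' : In c v := hv.mono (hb j hj').le
    rw [key t v ht hv', key n v hn hv']
    exact hk.inc j hj t n ht hn H v hv

theorem card_lt {th : Ordinal.{u}} (h : ℵ₀ < th.cof) (hb : b < ω₁) : b.card < th.cof :=
  lt_of_le_of_lt (Cardinal.lt_aleph_one_iff.1
    (Cardinal.lt_ord.1 (by rwa [Cardinal.ord_aleph]))) h

end IILimI

instance [AmenSt.{u}] : IILimSt.{u} := ⟨fun {C E th} hcof hp H E0 b0 g0 k hb hE hk e _ => by
  subst e
  obtain ⟨a, ha, h1⟩ := bdd_fam (small_Iio (IILimI.card_lt hcof hb)) (fun x : Iio b0 => k x.1)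
    fun x => hk.mono (KE.lt1 (le_of_lt x.2)) (lt_add_one b0) x.2
  obtain ⟨c, h2, h3, h4, h5, h6⟩ := H a ha
  exact h6 E0 b0 g0 _ hb hE (IILimI.lower hk h4 (not_suc_of_limit (limit_of_cof hcof.le)) h3 h5 hp
    fun x hx => (h1 ⟨x, hx⟩).trans h2) (Function.update_self ..) fun _ _ _ => zero_le⟩

end Pool.Agent.KM
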