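import Pool.Agent.Lib.MP_5c0be7_lc.T.St
import Pool.Agent.Lib.MP_5c0be7_lc.P.Core1
import Pool.Agent.Lib.MP_5c0be7_lc.P.Seg

/-!
Project KM, block T1: the hull of a cardinal above the projectum.
-/

set_option linter.unusedSectionVars false

namespace Pool.Agent.KM

universe u

namespace KCoreI

open Ordinal Tr F3 PT PF PE PC Set
open scoped Classical

variable {E E1 : Seq.{u}} {a b b1 c g i j k l m : Ordinal.{u}} {p1 : Tr.{u}}
  {s : Ordinal.{u} → Ordinal.{u}} {C : Cfg.{u}} {T U : IT.{u}}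

/-- A point of the range below the critical point. -/
theorem eq_of_lt (h : Strong E1 (b1 + 1) E (b + 1) s) (hf : ∀ y < a, s y = y) {x z}
    (hz : z ≤ b1) (hx : x < a) (e : s z = x) : z = x := by
  have h1 : z < a := ((KE.w_self h.toWeak (KE.lt1 hz)).trans e.le).trans_lt hx
  exact (hf z h1).symm.trans e

/-- The critical point is below the projectum of the top level. -/
theorem crit_rho (h : Strong E1 (b1 + 1) E (b + 1) s) (hE : LS E (b + 1))
    (hf : ∀ y < a, s y = y) (ha : a ≤ b1) (hm : a < s a) : a < rho E b := by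
  by_contra hc
  obtain ⟨c, v, hv, e⟩ := gen_mono (gen_succ (hE b (lt_add_one b)).1) (not_lt.1 hc) (leaf a)
    (by simpa using KE.le1 (hm.trans (h.maps a (KE.lt1 ha))))
  have h4 := h.commTop c (node v .nil) (by simp [hv.mono (ha.trans le_self_add)])
  rw [map_node, map_fix hf hv, map_nil, e] at h4
  obtain ⟨y, h5, h6⟩ := Option.map_eq_some_iff.1 h4.symm
  obtain ⟨z, rfl, h7⟩ := map_eq_leaf.1 h6
  have h8 : z < b1 + 1 := by simpa using ev_in h5
  rcases lt_or_ge z a with h9 | h9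
  · exact h9.ne ((hf z h9).symm.trans h7)
  · exact (hm.trans_le ((KE.w_le h.toWeak (KE.lt1 ha) h8).2 h9)).ne' h7

variable [TreeSt.{u}] [FragSt.{u}] (o : PhxOut g E b E1 b1 s a T l U m)
include o

theorem agU (hi : i ≤ m) : Agree E (U.E i) a := by
  rcases eq_or_ne i 0 with rfl | h0
  · rw [EU o]; exact fun _ _ => rfl
  · have h1 := pos_iff_ne_zero.2 h0
    have := (TreeSt.nu_agree o.coit.tr' o.coit.nor' (nU o).le h1 hi).1
    rw [EU o] at this
    exact KL.ag_mono this (o.nuU 0 (h1.trans_le hi)).le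

theorem cardU (hc : IsCard E (b + 1) a) (hi : i ≤ m) : IsCard (U.E i) (U.b i + 1) a := by
  rcases eq_or_ne i 0 with rfl | h0
  · rwa [EU o, bU o]
  have h1 := pos_iff_ne_zero.2 h0
  obtain ⟨h2, -, -, h3⟩ := TreeSt.nu_agree o.coit.tr' o.coit.nor' (nU o).le h1 hi
  have h4 := (o.coit.tr'.step 0 (nU o).le (h1.trans_le hi)).use.le
  rw [EU o] at h2
  rw [bU o] at h4
  intro c c1 c2
  rcases lt_or_ge c (U.nu 0) with h5 | h5
  · exact KL.rho_lt h2 h5 ▸ hc c c1 (KE.lt1 (h5.le.trans h4))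
  · exact (o.nuU 0 (h1.trans_le hi)).le.trans (h3 c h5 c2)

theorem pr_zero (hj : j < m) (hk : U.ka j < a) : U.pr j = 0 := by
  have hs := o.coit.tr'.step j (nU o ▸ zero_le) hj
  by_contra hc
  have h6 := pos_iff_ne_zero.2 hc
  exact (hk.trans_le (o.laU 0 ((h6.trans_le hs.pred.le).trans hj))).not_ge (hs.pred.min 0 h6)

/-- Steps with a small critical point do not drop. -/
theorem drop_ge (hc : IsCard E (b + 1) a) (hj : j < m) (hd : U.Drop j) : a ≤ U.ka j := by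
  have hs := o.coit.tr'.step j (nU o ▸ zero_le) hj
  by_contra hk
  have hk := not_le.1 hk
  have h1 := hs.pred.max hd
  have h2 : U.st j < b := by rw [← bU o, ← pr_zero o hj hk]; exact hd
  rw [pr_zero o hj hk, EU o] at h1
  rcases lt_or_ge (U.st j + 1) a with h3 | h3
  · rw [KL.rho_lt (agU o hj.le) h3] at h1
    exact (hs.use.act.next _ (hs.pred.ta_le.trans le_self_add) (h3.trans (o.nuU j hj))).not_ge h1
  · exact (hk.trans_le (hc _ h3 (KE.s1lt h2))).not_ge h1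

theorem ta_lt (hc : LimC E (b + 1) a) (hj : j < m) (hk : U.ka j < a) : U.ta j < a := by
  have hs := o.coit.tr'.step j (nU o ▸ zero_le) hj
  obtain ⟨y, h1, h2, h3⟩ := hc.2 _ hk
  refine (KL.top_le hs.use.act.top fun c c1 c2 => ?_).trans_lt h2
  rcases lt_or_ge c a with h4 | h4
  · exact h1.trans_le (KL.rho_lt (agU o hj.le) h4 ▸ h3 c c1 h4)
  · exact hk.trans_le (cardU o hc.1 hj.le c h4
      (KE.lt1 ((c2.trans hs.use.act.dom).le.trans hs.use.le)))

/-- An extender that overlaps `a` and is not the image of the top extender. -/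
theorem strong_or (hc : LimC E (b + 1) a) (hj : j < m) (hk : U.ka j < a) :
    StrongTo E a (U.ka j) ∨ ∃ t e, Act E b (U.ka j) t e := by
  have hU := o.coit.tr'
  have hn : U.n ≤ j := nU o ▸ zero_le
  have hs := hU.step j hn hj
  have ht := ta_lt o hc hj hk
  have hla : a ≤ U.e j (U.ka j) := hs.la ▸ o.laU j hj
  have A := hs.use.act
  rcases hs.use.le.lt_or_eq with h1 | h1
  · exact Or.inl (FragSt.congr (KL.ag_symm (agU o hj.le))
      (FragSt.strong (TreeSt.pm hU hj.le).toPM0 h1 A (cardU o hc.1 hj.le) ht hla))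
  have hT := isTr_mono hU hn hj.le
  rcases TreeSt.last hU hj.le with ⟨r, h2, h3⟩ | ⟨d, h2, h3, h4, h5⟩
  · obtain rfl : r = 0 := le_antisymm (nU o ▸ h2.1) zero_le
    have h4 := nd_top hU hj.le h3
    obtain ⟨k0, t0, e0, A0, g1, -⟩ := KActSt.good_act_down (TreeSt.pm hU zero_le).toPM0
      (h4 ▸ (TreeSt.pm hU hj.le).toPM0) (nd_strong hU hj.le h3) le_rfl (h4 ▸ h1 ▸ A)
    have g2 : k0 ≤ U.b 0 := (A0.lt.trans A0.dom).le
    have g3 : k0 ≤ U.ka j := g1 ▸ nd_self hU hj.le h3 g2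
    have g4 : U.mp 0 j k0 = k0 := by
      rcases eq_or_ne j 0 with rfl | h0
      · exact mp_id hU zero_le g2
      obtain ⟨d, d1, d2, d3, -, d5, d6⟩ := first hT h3 (pos_iff_ne_zero.2 h0)
      rw [d6 _ g2]
      exact seg_fix hT d1 d2 le_rfl d5 (g3.trans_lt
        (TreeSt.pred_ka hT hs.use hs.pred d1 (pr_zero o hj hk ▸ zero_le) d2).1)
    rw [EU o, bU o, g4.symm.trans g1] at A0
    exact Or.inr ⟨t0, e0, A0⟩
  · have g0 := drop_ge o hc.1 (h3.trans hj) h4
    have hd := hU.step d h2 (h3.trans hj)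
    have hp : U.pr d ≤ m := hd.pred.le.trans (h3.trans hj).le
    have S := Seg.sg_strong hT h2 h3 h5
    have hf : ∀ y < a, Seg.sg U d j y = y := fun y hy => Seg.sg_fix hT h2 h3 h5 (hy.trans_le g0)
    have g1 : U.b j = Seg.sg U d j (U.st d) := KE.s1inj (S.top _ rfl)
    obtain ⟨k0, t0, e0, A0, g2, g3, g4⟩ := KActSt.good_act_down
      (KE.pm0_mono (TreeSt.pm hU hp).toPM0 (add_le_add_left hd.pred.st_le 1))
      (g1 ▸ (TreeSt.pm hU hj.le).toPM0) (g1 ▸ S) le_rfl (g1 ▸ h1 ▸ A)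
    obtain rfl := eq_of_lt S hf (A0.lt.trans A0.dom).le hk g2
    obtain rfl := eq_of_lt S hf A0.dom.le ht g3
    refine Or.inl (FragSt.congr (KL.ag_symm (agU o hp))
      (FragSt.strong (TreeSt.pm hU hp).toPM0 h4 A0 (cardU o hc.1 hp) ht (not_lt.1 fun h => ?_)))
    have g5 := g4 _ A0.lt
    rw [g2, hf _ h] at g5
    exact (g5 ▸ h).not_ge hla

/-- If the branch map fixes `k`, the levels that project to `k` are kept. -/
theorem lev_of_fix (hE : LS E (b + 1)) (hb : T.b l = U.b m) (nd : U.ND 0 m) (hk : k ≤ a)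
    (hr : k < rho E b) (fx : ∀ y < k, U.mp 0 m y = y) (c1 : c ≤ b) (c2 : rho E c ≤ k) :
    c ≤ b1 ∧ Agree E1 E (c + 1) := by
  have hU := o.coit.tr'
  have sU := TreeSt.strong hU le_rfl nd
  rw [EU o, bU o] at sU
  have hQ := topU o hk hr le_rfl
  obtain ⟨t, ht⟩ := KL.exists_next (E := U.E m) (KE.lt1 (hQ.le.trans (rho_le _ _)))
  have t1 : t ≤ U.b m := KE.le1 (lt_of_le_of_ne ht.2.1 fun h => by
    obtain ⟨a, g1, g2, g3⟩ := ht.2.2.1 (U.b m) (h ▸ lt_add_one _)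
    exact hQ.not_ge (le_antisymm (KE.le1 (h ▸ g2)) g1 ▸ g3))
  obtain ⟨-, t2⟩ := next_ag hU o.coit.nor'
    (fun h => by rw [nU o] at h ⊢; exact hk.trans_lt (o.nuU 0 h)) ht.2.2.1 t1
  have ag' : Agree (T.E l) (U.E m) t := KL.ag_mono (agPQ o) ((hb ▸ t1).trans le_self_add)
  obtain ⟨t3, t4⟩ := next_ag o.coit.tr o.coit.nor
    (fun h => by rw [nT o] at h ⊢; exact hk.trans_lt (o.nuT 1 le_rfl h))
    (KL.topC_ag (KL.ag_symm ag') ht.2.2.1) (hb ▸ t1)
  rw [nU o, EU o] at t2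
  rw [nT o, bT o] at t3
  rw [nT o, ET o] at t4
  have t5 : c < t := not_le.1 fun h => by
    have g1 : c < b := lt_of_le_of_ne c1 fun e => hr.not_ge (e ▸ c2)
    exact diag (lev_gen (hE c (KE.lt1 c1)) c2) (named_mono (named_ag (KL.ag_symm t2)
      (AccSt.acc _ _ _ _ _ ht.2.2.2 (named_push sU.toWeak fx
        ((hr.le.trans (rho_le _ _)).trans le_self_add) (th_up (KE.s1lt g1)
        ((ht.1.le.trans h).trans le_self_add) (in_pp E c))))) h le_rfl)
  exact ⟨t5.le.trans t3, KL.ag_mono (KL.ag_trans (KL.ag_trans t4 ag') (KL.ag_symm t2))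
    (Order.add_one_le_iff.2 t5)⟩

omit o in
theorem kcore [BrSt.{u}] [PresSt.{u}] [AgreeSt.{u}] [PhxSt.{u}] (hE : PM E (b + 1))
    (ii : II C g E b) (cut : CutPt E b g) (hg : g ≤ k) (G : Greedy E (b + 1) k (p1.map s))
    (hE1 : PM E1 (b1 + 1)) (S : Strong E1 (b1 + 1) E (b + 1) s) (hp : In (b1 + 1) p1) (hk : k ≤ a)
    (ha : a ≤ b1) (hf : ∀ x < a, s x = x) (hm : a < s a) (hc : LimC E (b + 1) a) :
    (∀ c ≤ b, rho E c ≤ a → c ≤ b1 ∧ Agree E1 E (c + 1)) ∨
      ∃ m, k ≤ m ∧ m < a ∧ ¬ InHull E (b + 1) (Iio m ∪ (p1.map s).lv) m ∧ Small E m ∧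
        IsCard E a m ∧ StrongTo E a m := by
  have hr := crit_rho S hE.ls hf ha hm
  have hi : PhxIn C g E b E1 b1 s a :=
    ⟨hE, hE1, ii, cut, S, hf, ha, hm, crit_card S hE.ls hf ha hm, hg.trans hk⟩
  obtain ⟨T, l, U, m, o⟩ := PhxSt.phx hi
  obtain ⟨hb, nd, he, fx⟩ := cmp_par hi o hk (hk.trans_lt hr) hp G
  by_cases h0 : ∀ y < a, U.mp 0 m y = y
  · exact Or.inl fun c c1 c2 => lev_of_fix o hE.ls hb nd le_rfl hr h0 c1 c2
  have hU := o.coit.tr'
  have hab : a ≤ U.b 0 := bU o ▸ hr.le.trans (rho_le _ _)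
  have hm0 : 0 < m := pos_iff_ne_zero.2 fun h => h0 fun y hy => by
    subst h; exact mp_id hU le_rfl (hy.le.trans hab)
  obtain ⟨j, h1, h2, -, -, h5, h6⟩ := first hU nd hm0
  have hs := hU.step j h1 h2
  have fj : ∀ y < U.ka j, y < a → U.mp 0 m y = y := fun y hy h => by
    rw [h6 y (h.le.trans hab)]; exact seg_fix hU h1 h2 le_rfl h5 hy
  have hka : U.ka j < a := not_le.1 fun h => h0 fun y hy => fj y (hy.trans_le h) hy
  have mv : U.mp 0 m (U.ka j) ≠ U.ka j := by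
    rw [h6 _ (hka.le.trans hab)]; exact (Seg.sg_move hU h1 h2 h5).ne'
  have sU := TreeSt.strong hU le_rfl nd
  rw [EU o, bU o] at sU
  have sT := strT o
  have ag := agPQ o
  have ag' := KL.ag_symm (agU o h2.le)
  have A := hs.use.act
  refine Or.inr ⟨U.ka j, not_lt.1 fun h => mv (fx _ h), hka, fun ⟨c, x, x1, x2⟩ => mv ?_,
    KL.small_ag (KL.ag_mono ag' hka.le)
      ((TreeSt.pm hU h2.le).small _ (KE.lt1 hs.use.le) _ _ _ A),
    KL.card_ag ag' fun c c1 c2 => (lt_or_ge c (U.ta j)).elim (A.card c c1) fun c3 =>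
      (A.next c c3 (c2.trans (o.nuU j h2))).le,
    (strong_or o hc h2 hka).resolve_right fun ⟨t, e, A1⟩ => mv ?_⟩
  · obtain ⟨c', z, g3, g4⟩ := ex_val (E := E) G.mem
      ((hka.le.trans (bU o ▸ hab)).trans le_self_add) x1
    have g5 : ev E (b + 1) (cmp .fst c c') (node z (p1.map s)) = some (leaf (U.ka j)) := by
      rw [ev_cmp, g4, Option.bind_some]; exact x2
    have i1 : In (b1 + 1) (node z p1) :=
      (in_node _ _ _).2 ⟨g3.mono ((hka.le.trans ha).trans le_self_add), hp⟩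
    have g6 := S.commTop (cmp .fst c c') _ i1
    rw [map_node, map_fix hf (g3.mono hka.le), g5] at g6
    obtain ⟨y, g7, g8⟩ := Option.map_eq_some_iff.1 g6.symm
    obtain ⟨w, rfl, g9⟩ := map_eq_leaf.1 g8
    obtain rfl := eq_of_lt S hf (KE.le1 (by simpa using ev_in g7)) hka g9
    have e1 := sT.commTop (cmp .fst c c') _ i1
    have e2 := sU.commTop (cmp .fst c c') _ (in_of_ev_eq g5)
    rw [g7, map_node, map_fix (fun y hy => fixT o hy) (g3.mono hka.le), he, KL.ev_suc ag _ le_rfl,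
      hb] at e1
    rw [g5, map_node, map_fix (fun y hy => fj y hy (hy.trans hka)) g3, e1] at e2
    simpa [fixT o hka] using e2.symm
  · obtain rfl : b = s b1 := KE.s1inj (S.top _ rfl)
    obtain ⟨k0, t0, e0, A0, g1, -⟩ :=
      KActSt.good_act_down hE1.toPM0 hE.toPM0 S le_rfl A1
    obtain rfl := eq_of_lt S hf (A0.lt.trans A0.dom).le hka g1
    have b1' : T.b l = T.mp 1 l b1 := KE.s1inj (sT.top _ rfl)
    have b2' : U.b m = U.mp 0 m (s b1) := KE.s1inj (sU.top _ rfl)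
    have pT := (TreeSt.pm o.coit.tr le_rfl).toPM0
    have pU := (TreeSt.pm hU le_rfl).toPM0
    obtain ⟨e2, A2, -⟩ := KActSt.good_act hE1.toPM0 (b1' ▸ pT)
      (KGoodSt.strong_good hE1.toPM0 (b1' ▸ pT) (b1' ▸ sT)) le_rfl A0
    obtain ⟨e3, A3, -⟩ := KActSt.good_act hE.toPM0 (b2' ▸ pU)
      (KGoodSt.strong_good hE.toPM0 (b2' ▸ pU) (b2' ▸ sU)) le_rfl A1
    rw [← b1', fixT o hka] at A2
    rw [← b2', ← hb] at A3
    exact (KL.act_uniq A3 (KL.act_ag ag A2)).1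

end KCoreI

instance [TreeSt.{u}] [FragSt.{u}] [BrSt.{u}] [PresSt.{u}] [AgreeSt.{u}] [PhxSt.{u}] :
    KCoreSt.{u} where
  kcore hE ii cut hg G hE1 S hp _ hk ha hf hm hc :=
    KCoreI.kcore hE ii cut hg G hE1 S hp hk ha hf hm hc

end Pool.Agent.KM
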