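import Pool.Agent.Lib.MP_5c0be7_lc.T.St
import Pool.Agent.Lib.MP_5c0be7_lc.C.Easy
import Pool.Agent.Lib.MP_5c0be7_lc.C.Pres
import Pool.Agent.Lib.MP_5c0be7_lc.L.UltFact
import Pool.Agent.Lib.MP_5c0be7_lc.O.Api
import Pool.Agent.Lib.MP_5c0be7_lc.O.FO2
import Pool.Agent.Lib.MP_5c0be7_lc.K.Loc

/-!
Project KM, block T1: the lift of a collapsing level.
-/

namespace Pool.Agent.KM

open Ordinal Tr Set
open scoped Classical

universe u

namespace LiftXI

variable {E E' : Seq.{u}} {b k : Ordinal.{u}} {i : Ordinal.{u} → Ordinal.{u}} {p : Tr.{u}}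

/-- An ultrapower is generated by the image of the critical point and of the parameter. -/
theorem gen_ult (h : IsUlt E b k E' i) (hp : In (b + 1) p) (hg : Gen E (b + 1) k p) :
    Gen E' (i b + 1) (i k) (p.map i) := by
  intro y hy
  have kb : k < b := h.lt.trans_le (rho_le E b)
  have kb' : i k ≤ i b + 1 := (h.maps k (kb.trans (lt_add_one b))).le
  obtain ⟨c0, x, x1, x2⟩ := DiagSt.gen_top E' (i b) y hy
  obtain ⟨c, z, a, z1, a1, h1⟩ := UltFactSt.tree h x1
  obtain ⟨d, v, v1, h2⟩ := hg z (z1.mono le_self_add)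
  have h3 := h.commTop d _ (in_of_ev_eq h2)
  rw [h2, map_node] at h3
  have v2 : In (i k) (v.map i) :=
    (h.toWeak.in_map (kb.trans (lt_add_one b)) (v1.mono (kb.le.trans le_self_add))).2 v1
  obtain ⟨l, l1, l2⟩ := Code.down (erase_erase c)
  obtain ⟨q, -, q2⟩ := Code.bind (IsOp.id.snd.fst.fst.pair IsOp.id.fst)
    ((Code.self (erase_erase d)).pre (IsOp.id.fst.snd.pair IsOp.id.snd))
    ((Code.self l1).post IsOp.id.fst)
  have i1 : In (i b + 1) (node (node a (v.map i)) (p.map i)) := by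
    simp [a1.mono kb', v2.mono kb', KE.w_in h.toWeak hp]
  refine ⟨cmp (.pair .fst .nil) c0 q, node a (v.map i), by simp [a1, v2], ?_⟩
  rw [ev_cmp, q2 E' _ _ i1]
  simp only [fst_node, snd_node, ev_erase, h3, Option.map_some, Option.bind_some]
  rw [l2 E' _ _ ((in_of_ev_eq h1).mono le_self_add)]
  simpa [h1] using x2

variable [UltIISt.{u}]

/-- The lift with its map. -/
theorem ult (P : Pa.{u}) {c e c0 a : Ordinal.{u}} {s} (S : Stk P E c) (X : Ext E e c0 E c s)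
    (hf : ∀ x < e, s x = x) (oc : OC E E e c0 s) (L : LimC E P.Om e)
    (pas : Pas E c0) (h1 : c0 ≤ a) (h2 : a + 1 < P.Om) (np : NoProj E e c0 (a + 1)) :
    ∃ F i, IsUlt E a e F i ∧ (∀ x < c0, i x = s x) ∧ i c0 = c ∧ Agree F E c ∧
      PM F (i a + 1) ∧ P.II F (i a) := by
  have ac : a + 1 < c := h2.trans S.lt
  have pm := KE.pm_mono S.pm ac.le
  exact UltIISt.lift (C := P.C) pm S.pm.toPM0 X h1 np
    (fun k0 t0 g A => ⟨fun ht y hy => by
      rcases ht.eq_or_lt with rfl | ht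
      · obtain ⟨y, y1, y2, y3⟩ := L.2 k0 A.lt
        obtain ⟨x, x1, x2, x3⟩ := A.top y y2
        exact absurd ((y3 x x1 x2).trans x3) y1.not_ge
      · rw [hf _ ht] at hy
        have l : y + 1 < t0 := not_suc_iff.1 (KL.ext_lim A.toExt) y hy
        exact ⟨y + 1, l, by rw [hf _ (l.trans ht)]; exact lt_add_one y⟩,
      fun e' => absurd (e' ▸ pas) (KL.act_not_pas A)⟩)
    fun E0 a0 k0 t0 r Z a1 p0 st r1 r2 _ r3 hZ => by
      have ra : r a0 = a := KE.s1inj (st.top a0 rfl).symm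
      have hc : (Iio a0).Countable := by
        rw [← Cardinal.le_aleph0_iff_set_countable, Cardinal.mk_Iio_ordinal, Cardinal.lift_le_aleph0,
          ← Order.lt_succ_iff, Cardinal.succ_aleph0, ← Cardinal.lt_ord, Cardinal.ord_aleph]
        exact a1
      obtain ⟨th, t1, t2⟩ := oc (Z ∪ r '' Iio a0) (hZ.union (hc.image r))
      refine ⟨E, r, th, ra ▸ pm.toPM0, ra ▸ S.ii a ((lt_add_one a).trans ac),
        KGoodSt.strong_good p0 (ra ▸ pm.toPM0) (ra ▸ st),
        fun z hz h3 => r1 ▸ t1 z (Or.inl hz) h3, fun n w hn hw h3 => ?_⟩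
      rw [KE.map_comp]
      refine t2 _ w (fun x hx => ?_) ?_ (hw.trans subset_union_left) h3
      · rw [lv_map] at hx
        obtain ⟨y, y1, rfl⟩ := hx
        exact Or.inr ⟨y, (hn y y1).trans_le r3, rfl⟩
      · exact r2 ▸ (st.toWeak.in_map (KE.lt1 r3) (hn.mono (r3.trans le_self_add))).2 hn

theorem lift (P : Pa.{u}) {c e c0 a : Ordinal.{u}} {s} (S : Stk P E c) (X : Ext E e c0 E c s)
    (hf : ∀ x < e, s x = x) (he : s e = P.Om) (oc : OC E E e c0 s) (L : LimC E P.Om e)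
    (pas : Pas E c0) (h1 : c0 ≤ a) (h2 : a + 1 < P.Om) (np : NoProj E e c0 (a + 1))
    (hr : rho E (a + 1) ≤ e) :
    ∃ F b p, PreM P F b p ∧ c ≤ b ∧ Agree F E c ∧ InHull F (b + 1) (Iio e ∪ p.lv) P.Om ∧
      ∀ k < e, Named F (b + 1) k (Th F (b + 1) p) := by
  have ac : a + 1 < c := h2.trans S.lt
  have ea : e < a := X.lt.trans_le h1
  have pm := KE.pm_mono S.pm ac.le
  obtain ⟨F, i, U, i1, i2, ag, pm', ii⟩ := ult P S X hf oc L pas h1 h2 np
  obtain ⟨q1, q2, q3, q4⟩ := ss_pp (S.pm.ls _ ac).1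
  have er : rhoL (ev E) (a + 1) = e := le_antisymm hr (L.1 _ (ea.le.trans le_self_add) h2)
  have ie : i e = P.Om := (i1 e X.lt).trans he
  have cb : c ≤ i a := i2 ▸ (KE.w_le U.toWeak (KE.lt1 h1) (lt_add_one a)).2 h1
  have cof := UltFactSt.cof U
  rw [er] at q2 q4
  refine ⟨F, i a, (pp E (a + 1)).map i, ⟨pm', ii, S.lt.le.trans cb, KE.w_in U.toWeak q1,
    CU.solid_map pm.ls pm'.ls cof q1 q3, fun x hx => ?_, ie ▸ gen_ult U q1 q4⟩, cb, ag, ?_,
    fun k hk => ?_⟩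
  · rw [lv_map] at hx
    obtain ⟨y, y1, rfl⟩ := hx
    exact ie ▸ (KE.w_le U.toWeak (KE.lt1 ea.le) (q1 y y1)).2 (q2 y y1)
  · obtain ⟨d, v, v1, v2⟩ := q4 (leaf e) (by simpa using ea.le)
    have h3 := U.commTop d _ (in_of_ev_eq v2)
    rw [v2, map_node, map_eq_self fun x hx => (i1 x ((v1 x hx).trans X.lt)).trans
      (hf x (v1 x hx))] at h3
    exact ⟨d, _, union_subset_union_left _ v1, by simpa [ie] using h3⟩
  · have h3 := PresSt.pres pm.ls pm'.ls cof (hk.trans ea).le q1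
      (DiagSt.named_of_lt E _ k _ (hk.trans_eq er.symm) q1)
    rwa [i1 k (hk.trans X.lt), hf k hk] at h3

end LiftXI

instance [UltIISt.{u}] : LiftXSt.{u} := ⟨fun P => LiftXI.lift P⟩

end Pool.Agent.KM
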