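import Pool.Agent.Lib.MP_5c0be7_lc.T.St
import Pool.Agent.Lib.MP_5c0be7_lc.K.Loc
import Pool.Agent.Lib.MP_5c0be7_lc.K.ActI
import Pool.Agent.Lib.MP_5c0be7_lc.K.EvI
import Pool.Agent.Lib.MP_5c0be7_lc.O.FO3

/-!
Project KM, block T1: ordinals whose cofinality in a weasel is not measurable.
-/

namespace Pool.Agent.KM.NMI

open Ordinal Cardinal Tr Set Filter

universe u

variable {P : Pa.{u}} {E E' W : Seq.{u}} {a b c c' d k o t th th' v : Ordinal.{u}}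
  {e s : Ordinal.{u} → Ordinal.{u}}

/-- The extender relation at a limit index. -/
def Ex (E : Seq.{u}) (v x y : Ordinal.{u}) : Prop := x < v ∧ y < v ∧ ¬ Suc v ∧ E v x y

/-- First-order description of critical point and domain. -/
def ActF (E : Seq.{u}) (v k t : Ordinal.{u}) : Prop :=
  k < t ∧ (∀ x < v, (∃ y < v, Ex E v x y) ↔ x < t) ∧ (∀ x < k, Ex E v x x) ∧ ¬ Ex E v k k

theorem ex_iff (h : Act E v k t e) {x y : Ordinal.{u}} : Ex E v x y ↔ x < t ∧ y = e x :=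
  ⟨fun H => (h.graph x y).1 H.2.2.2, fun H =>
    ⟨H.1.trans h.dom, H.2 ▸ h.weak.maps x H.1, KActI.lim h, (h.graph x y).2 H⟩⟩

theorem actF_of (h : Act E v k t e) : ActF E v k t :=
  ⟨h.lt, fun x _ => ⟨fun ⟨_, _, H⟩ => ((ex_iff h).1 H).1,
      fun H => ⟨e x, h.weak.maps x H, (ex_iff h).2 ⟨H, rfl⟩⟩⟩,
    fun x hx => (ex_iff h).2 ⟨hx.trans h.lt, (h.fix x hx).symm⟩,
    fun H => h.move.ne ((ex_iff h).1 H).2⟩

theorem of_actF (hE : PM0 E d) (hv : v < d) (ht : t < v) (h : ActF E v k t) :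
    ∃ e, Act E v k t e := by
  obtain ⟨h1, h2, h3, h4⟩ := h
  rcases hE.act v hv with H | ⟨k0, t0, e, H⟩
  · obtain ⟨y, -, h5⟩ := (h2 k (h1.trans ht)).2 h1
    exact absurd h5.2.2.2 (H k y)
  have h5 := (actF_of H).2.1
  obtain rfl : t0 = t := le_antisymm
    (not_lt.1 fun h6 => lt_irrefl _ ((h2 t ht).1 ((h5 t ht).2 h6)))
    (not_lt.1 fun h6 => lt_irrefl _ ((h5 t0 H.dom).1 ((h2 t0 H.dom).2 h6)))
  obtain rfl : k0 = k := le_antisymm
    (not_lt.1 fun h6 => h4 ((ex_iff H).2 ⟨h1, (H.fix k h6).symm⟩))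
    (not_lt.1 fun h6 => H.move.ne ((ex_iff H).1 (h3 k0 h6)).2)
  exact ⟨e, H⟩

/-- Level `c` sees that the cofinality of `b` is the critical point of an extender that is total
below `o`. -/
def Bad (E : Seq.{u}) (c o b : Ordinal.{u}) : Prop :=
  ∃ k < o, (∃ v < c, ∃ t < v, ActF E v k t ∧ NoProj E k t o) ∧ ∃ f, In c f ∧
    (∀ y < b, ∃ v, In k v ∧ ∃ x < b, y ≤ x ∧ fv E f v = some (leaf x)) ∧
    ∀ k' < k, ∃ y < b, ∀ v, In k' v → ∀ x < b, fv E f v = some (leaf x) → x < y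

theorem df_bad : Df.{u} fun E c z => Bad E c z.fst.lab z.snd.lab := by
  unfold Bad ActF Ex
  repeat' first
    | exact Fn.id | exact IsOp.id | exact On.top | apply IsOp.fst | apply IsOp.snd | apply On.lab
    | apply Df.ext | apply Df.noProj | apply Df.fv_leaf | apply Df.olt | apply Df.ole
    | apply Df.ball | apply Df.bex | apply Df.oall | apply Df.oex
    | apply Df.and | apply Df.iff | apply Df.not | apply Df.imp
    | apply Fn.pair | apply Fn.fst | apply Fn.snd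

theorem Bad.mono (h : Bad E c o b) (hc : c ≤ c') : Bad E c' o b :=
  let ⟨k, h1, ⟨v, h2, h3⟩, f, h4, h5⟩ := h
  ⟨k, h1, ⟨v, h2.trans_le hc, h3⟩, f, h4.mono hc, h5⟩

theorem nm_iff (hE : PM0 E th) (hl : ¬ Suc th) : NM P E th b ↔ ∀ c < th, ¬ Bad E c P.Om b := by
  constructor
  · rintro H c hc ⟨k, h1, ⟨v, h2, t, h3, h4, h5⟩, f, h6, h7, h8⟩
    obtain ⟨e, h9⟩ := of_actF hE (h2.trans hc) h3 h4
    refine H k ⟨h1, v, h2.trans hc, t, e, h9, h5⟩ ⟨f, h6.mono hc.le, fun y hy => ?_,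
      fun k' hk => ?_⟩
    · obtain ⟨w, j1, x, j2, j3, j4⟩ := h7 y hy
      exact ⟨w, x, j1, j4, j3, j2⟩
    · obtain ⟨y, j1, j2⟩ := h8 k' hk
      exact ⟨y, j1, fun w x j3 j4 j5 => j2 w j3 x j5 j4⟩
  · rintro H k ⟨h1, v, h2, t, e, h3, h4⟩ ⟨f, h5, h6, h7⟩
    have h8 := h5.ht_lt (limit_of_not_suc hl (zero_le.trans_lt h2).ne')
    refine H (max (v + 1) f.ht) (max_lt (not_suc_iff.1 hl v h2) h8)
      ⟨k, h1, ⟨v, (lt_add_one v).trans_le (le_max_left _ _), t, h3.dom, actF_of h3, h4⟩, f,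
        (in_ht f).mono (le_max_right _ _), fun y hy => ?_, fun k' hk => ?_⟩
    · obtain ⟨w, x, j1, j2, j3, j4⟩ := h6 y hy
      exact ⟨w, j1, x, j4, j3, j2⟩
    · obtain ⟨y, j1, j2⟩ := h7 k' hk
      exact ⟨y, j1, fun w j3 x j4 j5 => j2 w x j3 j5 j4⟩

theorem bad_map (h : Weak E d E' th' s) (L : LS E d) (L' : LS E' th') (hl : ¬ Suc th) (hd : th ≤ d)
    (hc : c < th) (ho : o < c) (hb : b < c) : Bad E' (s c) (s o) (s b) ↔ Bad E c o b :=
  df_bad.weak_lim (z := node (leaf o) (leaf b)) h L L' hl hc hd (by simp [ho, hb])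

theorem tall_lim (h : Tall P E th) : ¬ Suc th :=
  not_suc_of_limit (limit_of_cof (P.hO.aleph0_lt.le.trans h.cof))

theorem big (hl : ¬ Suc th) (hc : c < th) (ho : o < th) (hb : b < th) :
    ∃ a < th, c ≤ a ∧ o < a ∧ b < a :=
  ⟨max c (max o b) + 1, not_suc_iff.1 hl _ (max_lt hc (max_lt ho hb)),
    (le_max_left _ _).trans le_self_add, KE.lt1 ((le_max_left _ _).trans (le_max_right _ _)),
    KE.lt1 ((le_max_right _ _).trans (le_max_right _ _))⟩

theorem up (hE : PM0 E (th + 1)) (hl : ¬ Suc th) (hlt : P.Om < th) (hE' : PM0 E' (th' + 1))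
    (h : Weak E (th + 1) E' (th' + 1) s) (ho : s P.Om = P.Om) (hc : ∀ y < th', ∃ x < th, y < s x)
    (hb : b < th) (H : NM P E th b) : NM P E' th' (s b) := by
  have ht : th' = s th := KE.s1inj (h.top th rfl)
  have hl' : ¬ Suc th' := not_suc_iff.2 fun y hy =>
    let ⟨x, x1, x2⟩ := hc y hy
    (Order.add_one_le_iff.2 x2).trans_lt (ht ▸ (KE.w_lt h (KE.lt1 x1.le) (lt_add_one th)).2 x1)
  refine (nm_iff (KE.pm0_mono hE' le_self_add) hl').2 fun c' c1 c2 => ?_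
  obtain ⟨x, x1, x2⟩ := hc c' c1
  obtain ⟨a, a1, a2, a3, a4⟩ := big hl x1 hlt hb
  refine (nm_iff (KE.pm0_mono hE le_self_add) hl).1 H a a1
    ((bad_map h hE.ls hE'.ls hl le_self_add a1 a3 a4).1 ?_)
  rw [ho]
  exact c2.mono (x2.le.trans ((KE.w_le h (KE.lt1 x1.le) (KE.lt1 a1.le)).2 a2))

theorem down (hE : PM0 E (th + 1)) (hlt : P.Om < th) (hE' : PM0 E' (th' + 1)) (hl' : ¬ Suc th')
    (h : Weak E (th + 1) E' (th' + 1) s) (ho : s P.Om = P.Om) (hb : b < th)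
    (H : NM P E' th' (s b)) : NM P E th b := by
  have ht : th' = s th := KE.s1inj (h.top th rfl)
  have hl : ¬ Suc th := fun ⟨a, ha⟩ => hl' ⟨s a, by
    rw [ht, ha]; exact KE.w_succ h (ha ▸ lt_add_one th)⟩
  refine (nm_iff (KE.pm0_mono hE le_self_add) hl).2 fun c c1 c2 => ?_
  obtain ⟨a, a1, a2, a3, a4⟩ := big hl c1 hlt hb
  have := (bad_map h hE.ls hE'.ls hl le_self_add a1 a3 a4).2 (c2.mono a2)
  rw [ho] at this
  exact (nm_iff (KE.pm0_mono hE' le_self_add) hl').1 H _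
    (ht ▸ (KE.w_lt h (KE.lt1 a1.le) (lt_add_one th)).2 a1) this

/-- A point of discontinuity has the cofinality of the ordinal. -/
theorem disc_cof (hk : ¬ Suc k) (h0 : k ≠ 0) (h : Disc E th b k) : k.cof = b.cof := by
  obtain ⟨f, -, h1, h2⟩ := h
  let S : Ordinal.{u} → Set Ordinal.{u} := fun k' =>
    {y | ∀ v x, In k' v → fv E f v = some (leaf x) → x < b → x < y}
  have hS : ∀ k' < k, sInf (S k') ∈ S k' ∧ sInf (S k') < b := fun k' hk' =>
    let ⟨y, y1, y2⟩ := h2 k' hk'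
    ⟨csInf_mem ⟨y, y2⟩, (csInf_le' (show y ∈ S k' from y2)).trans_lt y1⟩
  refine CofMap.cof_eq (f := fun k' => sInf (S k')) ⟨fun a a' h3 h4 => ?_,
    fun a ha => (hS a ha).2, fun y hy => ?_⟩
  · exact csInf_le' fun w x j1 j2 j3 => (hS a' h4).1 w x (j1.mono h3) j2 j3
  · obtain ⟨w, x, j1, j2, j3, j4⟩ := h1 y hy
    have j5 := j1.ht_lt (limit_of_not_suc hk h0)
    exact ⟨w.ht, j5, j3.trans_lt ((hS _ j5).1 w x (in_ht w) j2 j4)⟩

theorem crit_lim (h : Act E v k t e) : ¬ Suc k := fun ⟨a, ha⟩ => by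
  have h1 := KE.w_succ h.weak (ha ▸ h.lt : a + 1 < t)
  rw [h.fix a (ha ▸ lt_add_one a), ← ha] at h1
  exact h.move.ne' h1

/-- The successor cardinal of an ordinal below `Om` is below `Om`. -/
theorem top_lt (L : LS E t) (hk : k < P.Om) (h : TopC E k t) : t < P.Om := by
  have h1 : Order.succ (max ℵ₀ k.card) < P.O :=
    P.hO.isStrongLimit.isSuccLimit.succ_lt (max_lt P.hO.aleph0_lt (lt_ord.1 hk))
  have h2 : ℵ₀ < Order.succ (max ℵ₀ k.card) := (le_max_left _ _).trans_lt (Order.lt_succ _)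
  have h3 : k < (Order.succ (max ℵ₀ k.card)).ord :=
    lt_ord.2 ((le_max_right _ _).trans_lt (Order.lt_succ _))
  refine lt_of_le_of_lt (le_of_forall_lt fun x hx => ?_) (ord_lt_ord.2 h1)
  obtain ⟨a, a1, a2, a3⟩ := h x hx
  exact a1.trans_lt (KL.lev_lt h2 (L a a2) (a3.trans_lt h3))

/-- A total extender with critical point below `Om` has a copy with index below `Om`. -/
theorem low [ReflSt.{u}] [KIISt.{u}] (hE : Tall P E th) (hk : k < P.Om) (hv : v < th)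
    (A : Act E v k t e) : ∃ v0 < P.Om, ∃ e0, Act E v0 k t e0 := by
  have hl := tall_lim hE
  have ht : t < P.Om := top_lt (hE.pm.ls.mono ((A.dom.trans hv).le.trans le_self_add)) hk A.top
  obtain ⟨a, a0, a1, a2, -⟩ := big hl (not_suc_iff.1 hl v hv) hE.lt hE.lt
  obtain ⟨a', b1, b2, b3⟩ := hE.top a a0
  have b4 := hE.pm.ls a' (KE.lt1 b2.le)
  obtain ⟨c, rfl⟩ := KL.suc_of_rho b4 (b3.trans_lt (a2.trans_le b1))
  have c1 : c < th := (lt_add_one c).trans b2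
  have c2 : v ≤ c := KE.s1le (a1.trans b1)
  have c3 : PM E (c + 1) := KE.pm_mono hE.pm (KE.s1lt c1).le
  have M : Memb P E c := ⟨c3, KIISt.level hE.pm.toPM0 hE.ii c1.le zero_le,
    KE.le1 (a2.trans_le b1), b4, b3⟩
  obtain ⟨X, e', ⟨⟨h1, h2⟩, h3, h4⟩, h5, -⟩ := ex_cof P.reg P.ht (aleph0_lt_aleph_one.trans P.h1)
    P.h2 hE.lt.le (((ReflSt.memb P M c1).and (ae_mem P.reg hv)).and
      ((ae_mem P.reg (hk.trans hE.lt)).and (ae_mem P.reg (ht.trans hE.lt))))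
  obtain ⟨-, g1, g2, g3, -⟩ := h1 e' h5
  have g4 : unc th X (col th X v) = v := unc_col h2
  have g5 : col th X v ≤ col th X c := col_mono c2
  rw [← g1] at g3 c3
  rw [← g4] at A
  obtain ⟨k0, t0, e0, j1, j2, j3, -⟩ := KActSt.good_act_down
    (KE.pm0_mono hE.pm.toPM0 (g2.trans (hE.lt.trans (lt_add_one th))).le) c3.toPM0
    (by rw [col_unc] at g3; exact g3) g5 A
  obtain rfl : k0 = k := unc_strictMono.injective (j2.trans (h5.unc_fix ((h5.2 k hk).1 h3)).symm)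
  obtain rfl : t0 = t := unc_strictMono.injective (j3.trans (h5.unc_fix ((h5.2 t ht).1 h4)).symm)
  exact ⟨_, (KE.lt1 g5).trans g2, e0, j1⟩

theorem base [ReflSt.{u}] [KIISt.{u}] (hW : Base P W) (ag : Agree E W P.Om) (hE : Tall P E th)
    (hb : b.cof = P.t) : NM P E th b := by
  rintro k ⟨hk, v, hv, t, e, A, hn⟩ hd
  obtain ⟨v0, h1, e0, h2⟩ := low hE hk hv A
  refine hW.al v0 k t e0 h1 (KL.act_ag (KL.ag_mono ag (Order.add_one_le_iff.2 h1)) h2)
    (KL.noProj_ag ag hn) ?_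
  rw [disc_cof (crit_lim A) (zero_le.trans_lt A.big).ne' hd, hb]

end Pool.Agent.KM.NMI

namespace Pool.Agent.KM

universe u

instance [ReflSt.{u}] [KIISt.{u}] : NMSt.{u} where
  up := fun _ {_ _ _ _ _ _} hE hE' h ho hc hb H =>
    NMI.up hE.pm.toPM0 (NMI.tall_lim hE) hE.lt hE'.toPM0 h.toWeak ho hc hb H
  down := fun _ {_ _ _ _ _ _} hE hE' h hlt ho hb _ H =>
    NMI.down hE.toPM0 hlt hE'.pm.toPM0 (NMI.tall_lim hE') h.toWeak ho hb H
  base := fun _ {_ _ _ _} hW ag hE hb => NMI.base hW ag hE hb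

end Pool.Agent.KM
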