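import Pool.Agent.Lib.MP_5c0be7_lc.T.St
import Pool.Agent.Lib.MP_5c0be7_lc.F.CmpT
import Pool.Agent.Lib.MP_5c0be7_lc.K.StReal

/-!
Project KM, block T1: no tree of length `Om` wins against a good weasel or against a winner.
-/

namespace Pool.Agent.KM

open Ordinal Cardinal Tr Set IT Filter CmpT

universe u

namespace NoWin

variable {P : Pa.{u}} {T U : IT.{u}} {E : Seq.{u}} {c i l m tau th : Ordinal.{u}}

/-- The branch map from node `c` has critical point `c` and sends it to `Om`. -/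
def Pt (P : Pa.{u}) (T : IT.{u}) (c : Ordinal.{u}) : Prop :=
  T.n ≤ c ∧ T.ND c P.Om ∧ c ≤ T.b c ∧ (∀ x < c, T.mp c P.Om x = x) ∧ T.mp c P.Om c = P.Om

variable [TreeSt.{u}] [CtsSt.{u}]

/-- The first step after such a node. -/
theorem first (h : Low P T P.Om) (c1 : c < P.Om) (p : Pt P T c) :
    ∃ k, T.n ≤ k ∧ k < P.Om ∧ T.pr k = c ∧ T.ND (k + 1) P.Om ∧ T.ka k = c ∧ T.ta k ≤ T.b c ∧
      (∀ x ≤ T.b c, T.mp (k + 1) P.Om (T.im k x) = T.mp c P.Om x) ∧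
      ContAt (T.mp c P.Om) (T.ta k) ∧
      IsNext (T.E P.Om) (T.b P.Om + 1) P.Om (T.mp c P.Om (T.ta k)) := by
  obtain ⟨-, a1, cb, f, top⟩ := p
  have mv : c < T.mp c P.Om c := top.symm ▸ c1
  obtain ⟨k, k1, k2, k3, k4, k5⟩ := TreeSt.next h.tr le_rfl a1 c1
  have s := h.tr.step k k1 k2
  have A := s.use.act
  have hk := h.tr.mono k1 k2.le
  have nd : T.ND c (k + 1) := k3 ▸ nd_pr k1 (TreeSt.pred_le hk s.use s.pred) k4
  have tb : T.ta k ≤ T.b c := k3 ▸ s.pred.ta_le.trans s.pred.st_le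
  have e : ∀ x ≤ T.b c, T.mp (k + 1) P.Om (T.im k x) = T.mp c P.Om x := fun x hx => by
    rw [← TreeSt.comp h.tr le_rfl nd k5 x hx, s.mp c (k3 ▸ s.pred.le) nd x hx, k3,
      mp_id h.tr c1.le hx]
  have kc : T.ka k = c := by
    refine le_antisymm (not_lt.1 fun h5 => mv.ne' ?_) (not_lt.1 fun h5 => ?_)
    · rw [← e c cb, s.ext c (h5.trans A.lt), A.fix c h5]
      exact TreeSt.fix h.tr le_rfl k5 (lt_add_one k) c (h5.trans (s.la ▸ A.move))
    · have h6 := e _ (h5.le.trans cb)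
      rw [f _ h5, s.ext _ A.lt] at h6
      exact A.move.not_ge ((KE.w_self (TreeSt.strong h.tr le_rfl k5).toWeak
        (lt_s (s.la ▸ TreeSt.la_le h.tr k2 (lt_add_one k).le (s_le k2)))).trans_eq h6)
  have nx : IsNext (T.E c) (T.b c + 1) c (T.ta k) := by
    have h1 := (TreeSt.pred_ext hk s.use s.pred).top
    have h2 := s.pred.noproj
    rw [le_antisymm s.pred.st_le (not_lt.1 k4)] at h2
    rw [k3, kc] at h1 h2
    exact ⟨kc ▸ A.lt, tb.trans (lt_add_one _).le, h1, h2⟩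
  obtain ⟨h1, h2⟩ := CtsSt.next h.tr le_rfl a1 nx tb
  rw [top] at h2
  exact ⟨k, k1, k2, k3, k5, kc, tb, e, h1, h2⟩

omit [TreeSt.{u}] [CtsSt.{u}] in
theorem ta_lt (h : Low P T P.Om) {k} (k1 : T.n ≤ k) (k2 : k < P.Om) : T.ta k < P.Om :=
  (h.tr.step k k1 k2).use.act.dom.trans (h.nu k k1 k2)

/-- Few points below the successor of `Om` come from a given node. -/
theorem few (h : Low P T P.Om) (hS : Clb P.Om {c | Pt P T c})
    (ht : IsNext (T.E P.Om) (T.b P.Om + 1) P.Om tau) (hi : i < P.Om) :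
    ∃ c, ∃ t < P.Om, ∀ X ∈ Im T P.Om i, In tau X → ∃ Y, In t Y ∧ Y.map (T.mp c P.Om) = X := by
  obtain ⟨c, p, c0, c1⟩ := hS.unb (Clb.cof_reg P.hO.isRegular P.hO.aleph0_lt) i hi
  obtain ⟨k, k1, k2, -, -, -, tb, -, -, nx⟩ := first h c1 p
  refine ⟨c, _, ta_lt h k1 k2, fun X hX h1 => ?_⟩
  obtain ⟨-, Y, y1, rfl⟩ := im_mono h.tr c0.le p.2.1 hX
  refine ⟨Y, fun a ha => (mp_lt h.tr le_rfl p.2.1 (le_s (y1 a ha)) tb).1 ?_, rfl⟩
  rw [CmpA.next_uniq nx ht]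
  exact h1 _ (by rw [lv_map]; exact mem_image_of_mem _ ha)

theorem few' (h : Low P T P.Om) (hS : Clb P.Om {c | Pt P T c})
    (ht : IsNext (T.E P.Om) (T.b P.Om + 1) P.Om tau) (hi : i < P.Om) :
    HasCardinalLT ↑(Im T P.Om i ∩ {X | In tau X}) P.O := by
  obtain ⟨c, t, h1, h2⟩ := few h hS ht hi
  refine small_mono (small_image (X := {Y | In t Y}) ?_ (Tr.map (T.mp c P.Om)))
    fun X hX => h2 X hX.1 hX.2
  unfold HasCardinalLT
  rw [Cardinal.lift_id'.{u, u + 1}]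
  exact KL.mk_in_lt P.hO.aleph0_lt h1

theorem good [ReflSt.{u}] [KIISt.{u}] (h : Low P T P.Om) (hn : T.n < P.Om)
    (hS : Clb P.Om {c | Pt P T c}) (hI : NII P T P.Om) (g : GoodW P E th)
    (H : Agree (T.E P.Om) E P.Om) : False := by
  have hl : Order.IsSuccLimit P.Om := P.reg.limit
  have hc : ℵ₀ < P.Om.cof := P.reg.hcof
  have hth : Order.IsSuccLimit th := limit_of_cof (P.reg.unc.le.trans g.cof)
  obtain ⟨c, p, -, c1⟩ := hS.unb hc 0 hl.pos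
  obtain ⟨k0, n1, n2, -, -, kc, tb, -, ct, ht⟩ := first h c1 p
  have A := (h.tr.step k0 n1 n2).use.act
  have M := TreeSt.pm h.tr le_rfl
  have tle := mp_le h.tr le_rfl p.2.1 tb
  have h1 : ∀ x : Iio (T.ta k0), T.mp c P.Om x.1 < th := fun x => by
    have i1 := not_suc_iff.1 (KL.ext_lim A.toExt) _ (max_lt x.2 (kc ▸ A.lt : c < T.ta k0))
    have i2 := i1.le.trans tb
    obtain ⟨a, a1, a2, a3⟩ := ht.2.2.1 _ ((mp_lt h.tr le_rfl p.2.1 i2 tb).2 i1)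
    have i3 : P.Om < a := (p.2.2.2.2.symm.trans_lt
      ((mp_lt h.tr le_rfl p.2.1 p.2.2.1 i2).2 (lt_s (le_max_right _ _)))).trans_le a1
    have i4 := M.ls a (lt_s (a2.le.trans tle))
    obtain ⟨b, rfl⟩ := KL.suc_of_rho i4 (a3.trans_lt i3)
    have i5 : b < T.b P.Om := s_lt (a2.le.trans tle)
    refine (le_s (((mp_lt h.tr le_rfl p.2.1 (x.2.le.trans tb) i2).2
      (lt_s (le_max_left _ _))).trans_le a1)).trans_lt (g.full _ b ⟨KE.pm_mono M (by gcongr),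
        hI _ le_rfl b i5.le (Or.inl i5), le_s i3, i4, a3⟩ H)
  obtain ⟨be, b1, b2⟩ := bdd_fam (small_Iio ((lt_ord.1 (ta_lt h n1 n2)).trans_le g.cof)) _ h1
  have b3 : T.mp c P.Om (T.ta k0) ≤ be := le_of_forall_lt fun y hy =>
    let ⟨a, a1, a2⟩ := ct y hy; a2.trans (b2 ⟨a, a1⟩)
  generalize T.mp c P.Om (T.ta k0) = tau at ht b3
  obtain ⟨a, a1, a2, a3⟩ := g.top _ (hth.add_one_lt (max_lt b1 g.lt))
  have a4 := g.pm.ls a (lt_s a2.le)
  obtain ⟨b, rfl⟩ := KL.suc_of_rho a4 (a3.trans_lt ((le_max_right _ _).trans_lt (s_lt a1)))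
  have a5 : max be P.Om ≤ b := le_s (s_lt a1)
  have a6 : b < th := s_lt a2.le
  have mb : Memb P E b := ⟨KE.pm_mono g.pm (by gcongr), KIISt.level g.pm.toPM0 g.ii a6.le bot_le,
    (le_max_right _ _).trans a5, a4, a3⟩
  have tb' : tau ≤ b := b3.trans ((le_max_left _ _).trans a5)
  have cl : ∀ᶠ X in P.ae th, ∀ i ∈ X, i < P.Om → {y | leaf y ∈ Im T P.Om i ∧ y < tau} ⊆ X := by
    refine ae_diag P.reg fun i _ => ?_
    by_cases hi : i < P.Om
    · obtain ⟨c, t, h1, h2⟩ := few h hS ht hi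
      filter_upwards [ae_sub P.reg (Y := {y | leaf y ∈ Im T P.Om i ∧ y < tau})
        (((sm_Iio.2 h1).image (T.mp c P.Om)).mono fun y hy => by
          obtain ⟨Y, y1, y2⟩ := h2 _ hy.1 ((in_leaf _ _).2 hy.2)
          obtain ⟨x, rfl, y3⟩ := map_eq_leaf.1 y2
          exact ⟨x, (in_leaf _ _).1 y1, y3⟩)
        fun y hy => hy.2.trans_le (tb'.trans a6.le)] with X hX _ using hX
    · exact Eventually.of_forall fun _ h => absurd h hi
  obtain ⟨X, e, ⟨⟨x1, x2⟩, x3⟩, ce, -⟩ := ex_cof P.reg P.ht (aleph0_lt_aleph_one.trans P.h1) P.h2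
    g.lt.le ((cl.and (ReflSt.memb P mb a6)).and (ae_cut_clb P.reg g.lt.le
      ((hS.inter hc (Clb.limits hl)).inter hc (Clb.gt hl hn))))
  obtain ⟨⟨q, e1⟩, e2⟩ := x3 e ce
  obtain ⟨-, r1, r2, -, r3, -⟩ := x2 e ce
  obtain ⟨k, k1, k2, -, -, ke, kb, -, -, nx⟩ := first h ce.1 q
  have lt : ∀ x < T.ta k, T.mp e P.Om x < tau := fun x hx =>
    ((mp_lt h.tr le_rfl q.2.1 (hx.le.trans kb) kb).2 hx).trans_eq (CmpA.next_uniq nx ht)
  have mem : ∀ x < T.ta k, T.mp e P.Om x ∈ X := fun x hx => by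
    obtain ⟨i, i1, i2⟩ := im_lim h.tr e2 ce.1.le e1 (X := leaf (T.mp e P.Om x))
      ⟨q.2.1, leaf x, (in_leaf _ _).2 (lt_s (hx.le.trans kb)), rfl⟩
    exact x1 i (ce.sub i1) (i1.trans ce.1) ⟨i2, lt x hx⟩
  have key : ∀ x < T.ta k, unc th X x ≤ T.mp e P.Om x := fun x => by
    induction x using WellFoundedLT.induction with
    | ind x ih =>
      refine fun hx => not_lt.1 fun h5 => ?_
      have h6 := unc_col (th := th) (mem x hx)
      have h7 : col th X (T.mp e P.Om x) < x := unc_strictMono.lt_iff_lt.1 (h6.trans_lt h5)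
      exact (h6.symm.trans_le (ih _ h7 (h7.trans hx))).not_gt
        ((mp_lt h.tr le_rfl q.2.1 ((h7.trans hx).le.trans kb) (hx.le.trans kb)).2 h7)
  have h8 : T.ta k ≤ col th X b := le_of_forall_lt fun x hx =>
    lt_col_iff.2 ((key x hx).trans_lt ((lt x hx).trans_le tb'))
  have h9 := KL.noProj_ag H (next h.tr h.nor k1 k2 (h.nu k k1 k2).le
    (q.2.2.2.2.symm.trans_le (mp_le h.tr le_rfl q.2.1 q.2.2.1))).2.2.2 _
    (h8.trans (lt_add_one _).le) r2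
  rw [r3, ke] at h9
  exact lt_irrefl _ h9

theorem win [CmpSt.{u}] (C : T.Coit l U m) (hl' : P.Om ≤ l) (hm : P.Om ≤ m) (h : Low P T P.Om)
    (h' : Low P U P.Om) (hn : T.n < P.Om) (hn' : U.n < P.Om) (hS : Clb P.Om {c | Pt P T c})
    (hS' : Clb P.Om {c | Pt P U c}) : False := by
  have hl : Order.IsSuccLimit P.Om := P.reg.limit
  have hc : ℵ₀ < P.Om.cof := P.reg.hcof
  have hW := P.hO.isRegular
  have h0 := P.hO.aleph0_lt
  obtain ⟨c0, ⟨p, p'⟩, -, c1⟩ := (hS.inter hc hS').unb hc 0 hl.pos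
  obtain ⟨k0, -, -, -, -, -, -, -, -, ht⟩ := first h c1 p
  obtain ⟨j0, -, -, -, -, -, -, -, -, ht'⟩ := first h' c1 p'
  generalize T.mp c0 P.Om (T.ta k0) = tau at ht
  generalize U.mp c0 P.Om (U.ta j0) = tau' at ht'
  have h4 : Clb P.Om {c | ∀ i < c, c ∈ {c | ∀ X ∈ Im T P.Om i ∩ {X | In tau X},
      c ∈ {c | ∀ j < c, ∀ Y ∈ (Im U P.Om j ∩ {Y | In tau' Y}) ∩
        {Y | ∃ a, In P.Om a ∧ ¬ (Nm (T.E P.Om) X a ↔ Nm (U.E P.Om) Y a)},
        ∃ y < c, Y ∈ {Y | ∃ a, In y a ∧ ¬ (Nm (T.E P.Om) X a ↔ Nm (U.E P.Om) Y a)}}}} :=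
    Clb.diag hW h0 fun i hi => Clb.biInter hc
      (by rw [Pa.Om, hW.cof_ord]; exact few' h hS ht hi) fun X _ => Clb.filtr hW h0
        (fun j hj => small_mono (few' h' hS' ht' hj) inter_subset_left)
        fun j _ Y hY => let ⟨a, a1, a2⟩ := hY.2; ⟨_, a1.ht_lt hl, a, in_ht a, a2⟩
  obtain ⟨c, ⟨⟨⟨⟨q, q'⟩, c3⟩, a3⟩, a2⟩, -, c4⟩ :=
    ((((hS.inter hc hS').inter hc h4).inter hc (Clb.limits hl)).inter hc
      (Clb.gt hl (max_lt hn hn'))).unb hc 0 hl.pos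
  obtain ⟨k, k1, k2, k3, k4, k5, k6, k7, -, nx⟩ := first h c4 q
  obtain ⟨j, j1, j2, j3, j4, j5, j6, j7, -, nx'⟩ := first h' c4 q'
  have k8 := k2.trans_le hl'
  have j8 := j2.trans_le hm
  have hte := CmpSt.ta_eq C k1 k8 j1 j8 (k5.trans j5.symm)
  have s := h.tr.step k k1 k2
  have s' := h'.tr.step j j1 j2
  have ag : Agree (T.E c) (U.E c) (T.ta k) := by
    have g1 := (TreeSt.pred_agree (h.tr.mono k1 k2.le) s.use s.pred).1
    have g2 := (TreeSt.pred_agree (h'.tr.mono j1 j2.le) s'.use s'.pred).1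
    rw [k3] at g1
    rw [j3, ← hte] at g2
    exact KL.ag_trans (KL.ag_trans g1 (KL.ag_mono (CmpA.agree C k1 k8 j1 j8)
      (le_min s.use.act.dom.le (hte ▸ s'.use.act.dom.le)))) (KL.ag_symm g2)
  refine CmpSt.nocomp C k1 k8 j1 j8 (k5.trans j5.symm) fun X a x1 x2 x3 => ?_
  have xT : In (T.b c + 1) X := x1.mono (k6.trans (lt_add_one _).le)
  have xU : In (U.b c + 1) X := x1.mono ((hte ▸ j6).trans (lt_add_one _).le)
  rw [← CmpA.branch h.tr h.nor k1 k2 k4 x1 x2, ← CmpA.branch h'.tr h'.nor j1 j2 j4 (hte ▸ x1) x3,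
    map_congr (f := T.mp (k + 1) P.Om ∘ T.im k) (g := T.mp c P.Om)
      fun x hx => k7 x (le_s (xT x hx)),
    map_congr (f := U.mp (j + 1) P.Om ∘ U.im j) (g := U.mp c P.Om)
      fun x hx => j7 x (le_s (xU x hx))]
  by_contra hne
  obtain ⟨i, i1, i2⟩ := im_lim h.tr ((le_max_left _ _).trans_lt a2) c4.le a3 ⟨q.2.1, X, xT, rfl⟩
  obtain ⟨i', i1', i2'⟩ :=
    im_lim h'.tr ((le_max_right _ _).trans_lt a2) c4.le a3 ⟨q'.2.1, X, xU, rfl⟩
  obtain ⟨y, i3, a', i4, i5⟩ := c3 i i1 _ ⟨i2, KN.in_map' (fun x hx =>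
      ((mp_lt h.tr le_rfl q.2.1 (hx.le.trans k6) k6).2 hx).trans_eq (CmpA.next_uniq nx ht)) x1⟩
    i' i1' _ ⟨⟨i2', KN.in_map' (fun x hx => ((mp_lt h'.tr le_rfl q'.2.1 (hx.le.trans j6) j6).2
      hx).trans_eq (CmpA.next_uniq nx' ht')) (hte ▸ x1)⟩, a,
      x2.mono ((la_lt_nu h.tr k1 k2).trans (h.nu k k1 k2)).le, hne⟩
  have ck : c < T.ta k := k5 ▸ s.use.act.lt
  have i6 : In (T.ta k) a' := i4.mono (i3.le.trans ck.le)
  have g1 := KN.wnm (TreeSt.strong h.tr le_rfl q.2.1).toWeak xT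
    (i6.mono (k6.trans (lt_add_one _).le))
  have g2 := KN.wnm (TreeSt.strong h'.tr le_rfl q'.2.1).toWeak xU
    (i6.mono ((hte ▸ j6).trans (lt_add_one _).le))
  rw [map_eq_self fun y hy => q.2.2.2.1 y ((i4 y hy).trans i3)] at g1
  rw [map_eq_self fun y hy => q'.2.2.2.1 y ((i4 y hy).trans i3)] at g2
  exact i5 (g1.trans ((KN.anm ag x1).trans g2.symm))

end NoWin

variable [TreeSt.{u}] [CtsSt.{u}] [ReflSt.{u}] [KIISt.{u}] [CmpSt.{u}] [TriSt.{u}]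

instance : NoWinSt.{u} :=
  ⟨fun P _ _ _ h r hI w g H => NoWin.good h r.n (TriSt.club P h r w) hI g H,
    fun P _ _ _ _ C hl hm h h' r r' w w' =>
      NoWin.win C hl hm h h' r.n r'.n (TriSt.club P h r w) (TriSt.club P h' r' w')⟩

end Pool.Agent.KM
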