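import Pool.Agent.Lib.MP_5c0be7_lc.T.St
import Pool.Agent.Lib.MP_5c0be7_lc.K.Loc

/-!
Project KM, block T1: a good weasel all of whose small ordinals are definable.
-/

namespace Pool.Agent.KM

open Ordinal Cardinal Tr Set

universe u

namespace OutI

variable {P : Pa.{u}} {E E' W : Seq.{u}} {th th' : Ordinal.{u}}
  {s i j : Ordinal.{u} → Ordinal.{u}} {G : Set Ordinal.{u}}

theorem cof_om (P : Pa.{u}) : P.Om.cof = P.O := P.hO.isRegular.cof_ord

theorem t_om (P : Pa.{u}) : P.t < P.Om.cof := (cof_om P).symm ▸ P.h2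

theorem lim_om (P : Pa.{u}) : Order.IsSuccLimit P.Om :=
  limit_of_cof (Fat.hcof P.ht (t_om P)).le

theorem t_th (h : Tall P E th) : P.t < th.cof := P.h2.trans_le h.cof

theorem cof_th (h : Tame P E th E' th' s) : CofMap s th th' := by
  refine ⟨fun a b hab hb => (KE.w_le h.toWeak (KE.lt1 (hab.trans hb.le)) (KE.lt1 hb.le)).2 hab,
    fun a ha => ?_, h.cof⟩
  rw [KE.s1inj (h.top th rfl)]
  exact h.mono (KE.lt1 ha.le) (lt_add_one th) ha

theorem cof_lo (h : Tame P E th E' th' s) (hl : P.Om < th) : CofMap s P.Om P.Om := by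
  have l : ∀ a < P.Om, a < th + 1 := fun a ha => KE.lt1 (ha.trans hl).le
  refine ⟨fun a b hab hb => (KE.w_le h.toWeak (l a (hab.trans_lt hb)) (l b hb)).2 hab,
    fun a ha => (h.mono (l a ha) (KE.lt1 hl.le) ha).trans_eq h.om, fun y hy => ?_⟩
  have h1 := (lim_om P).add_one_lt hy
  exact ⟨y + 1, h1, (lt_add_one y).trans_le (KE.w_self h.toWeak (l _ h1))⟩

/-- Two tame maps agree on a thick set. -/
theorem agree (h : Tall P E th) (hi : Tame P E th E' th' i) (hj : Tame P E th E' th' j) :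
    Thick P th {x | i x = j x} :=
  ⟨(cof_lo hi h.lt).agree P.ht (t_om P) (cof_lo hj h.lt) hi.c1 hj.c1, hi.om.trans hj.om.symm,
    (cof_th hi).agree P.ht (t_th h) (cof_th hj) hi.c2 hj.c2⟩

/-- Two strong maps agree on the hull of the set where they agree. -/
theorem hull_eq {d d' y : Ordinal.{u}} (hi : Strong E d E' d' i) (hj : Strong E d E' d' j)
    (h : InHull E d {x | i x = j x} y) : i y = j y := by
  obtain ⟨c, x, h1, h2⟩ := h
  have h3 := hi.commTop c x (in_of_ev_eq h2)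
  have h4 := hj.commTop c x (in_of_ev_eq h2)
  rw [map_congr (g := j) h1, h4, h2] at h3
  simpa using h3.symm

/-- The image of a thick set under a tame map is thick. -/
theorem image (h : Tall P E th) (hs : Tame P E th E' th' s) (hG : Thick P th G) :
    Thick P th' (s '' (G ∩ Iic th)) :=
  ⟨((cof_lo hs h.lt).image (hG.1.inter P.ht (t_om P) hs.c1)).subset
      fun _ ⟨c, h1, h2, _, h3⟩ => ⟨c, ⟨h1, (h2.trans h.lt).le⟩, h3⟩,
    ⟨_, ⟨hG.2.1, h.lt.le⟩, hs.om⟩,
    ((cof_th hs).image (hG.2.2.inter P.ht (t_th h) hs.c2)).subset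
      fun _ ⟨c, h1, h2, _, h3⟩ => ⟨c, ⟨h1, h2.le⟩, h3⟩⟩

theorem tree_back {x : Tr.{u}} (h : x.lv ⊆ s '' G) : ∃ z : Tr.{u}, z.lv ⊆ G ∧ z.map s = x := by
  induction x with
  | nil => exact ⟨.nil, by simp, rfl⟩
  | leaf a =>
    obtain ⟨c, h1, h2⟩ := h (show a ∈ (leaf a).lv from rfl)
    exact ⟨leaf c, by simpa using h1, by rw [map_leaf, h2]⟩
  | node l r ihl ihr =>
    obtain ⟨z, h1, h2⟩ := ihl (subset_union_left.trans h)
    obtain ⟨w, h3, h4⟩ := ihr (subset_union_right.trans h)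
    exact ⟨node z w, union_subset h1 h3, by rw [map_node, h2, h4]⟩

/-- Hulls come down along strong maps. -/
theorem hull_back {y : Ordinal.{u}} (hs : Strong E (th + 1) E' (th' + 1) s) (hy : y ≤ th)
    (h : InHull E' (th' + 1) (s '' (G ∩ Iic th)) (s y)) : InHull E (th + 1) G y := by
  obtain ⟨c, x, h1, h2⟩ := h
  obtain ⟨z, h3, rfl⟩ := tree_back h1
  rw [hs.commTop c z fun a ha => KE.lt1 (h3 ha).2] at h2
  obtain ⟨w, h4, h5⟩ := Option.map_eq_some_iff.1 h2
  obtain ⟨y', rfl, h6⟩ := map_eq_leaf.1 h5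
  rw [hs.mono.injOn ((in_leaf _ _).1 (ev_in h4)) (KE.lt1 hy) h6] at h4
  exact ⟨c, z, h3.trans inter_subset_left, h4⟩

/-- Maximality depends only on the levels below `Om`. -/
theorem maxE (h : MaxE P W) (ha : Agree E W P.Om) : MaxE P E := by
  intro F k t v e h1 h2 h3 h4 h5 h6 h7 h8 h9 h10 h11 h12
  have hk : e k ≤ P.Om := h11.elim le_of_eq fun g => ((h1.weak.maps k h1.lt).trans g.1).le
  exact h F k t v e (KL.ext_left (KL.ag_mono ha h6.le) h1) h2 h3 h4 (KL.noProj_ag ha h5) h6 h7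
    (KL.ag_trans h8 (KL.ag_mono ha hk)) (KL.card_ag ha h9) h10
    (h11.imp_right fun g => ⟨g.1, KL.ag_trans g.2 (KL.ag_mono ha g.1.le)⟩)
    (KL.oc_left (KL.ag_mono ha h6.le) h12)

/-- One thick set whose hull contains only definable points below a bound. -/
theorem exists_thick (h : Tall P E th) {y : Ordinal.{u}} (hy : y < P.Om) :
    ∃ G, Thick P th G ∧ ∀ a < y, InHull E (th + 1) G a → Def0 P E th a := by
  have key : ∀ a, ∃ G, Thick P th G ∧ (InHull E (th + 1) G a → Def0 P E th a) := fun a => by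
    by_cases h1 : Def0 P E th a
    · exact ⟨univ, ⟨Fat.of_forall (lim_om P) fun _ _ _ => trivial, trivial,
        Fat.of_forall (limit_of_cof (Fat.hcof P.ht (t_th h)).le) fun _ _ _ => trivial⟩, fun _ => h1⟩
    · obtain ⟨G, h2⟩ := not_forall.1 h1
      exact ⟨G, (Classical.not_imp.1 h2).1, fun h3 => absurd h3 (Classical.not_imp.1 h2).2⟩
  choose G h1 h2 using key
  have hs : HasCardinalLT (Iio y) P.O := small_Iio_ord hy
  exact ⟨{c | ∀ a ∈ Iio y, c ∈ G a},
    ⟨Fat.biInter P.ht (t_om P) ((cof_om P).symm ▸ hs) fun a _ => (h1 a).1, fun a _ => (h1 a).2.1,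
      Fat.biInter P.ht (t_th h) (hs.of_le h.cof) fun a _ => (h1 a).2.2⟩,
    fun a ha ⟨c, x, h3, h4⟩ => h2 a ⟨c, x, fun g hg => h3 hg a ha, h4⟩⟩

theorem le_of_range {d : Ordinal.{u} → Ordinal.{u}} {z : Ordinal.{u}} (hs : StrictMono s)
    (hd : StrictMono d) (h : ∀ x < z, ∃ w, s w = d x) : ∀ x < z, s x ≤ d x := by
  intro x
  induction x using WellFoundedLT.induction with
  | ind x ih =>
    intro hx
    obtain ⟨w, hw⟩ := h x hx
    rw [← hw]
    refine hs.monotone (not_lt.1 fun h1 => ?_)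
    exact absurd ((hd h1).trans_eq hw.symm) (not_lt.2 (ih w h1 (h1.trans hx)))

theorem good [S2St.{u}] [NMSt.{u}] (h : Base P W) : ∃ E th, GoodW P E th ∧ MaxE P E := by
  obtain ⟨E, th, h1, h2, h3⟩ := S2St.tall P h
  exact ⟨E, th, ⟨h2, h3, Fat.of_forall (lim_om P) fun _ _ hc => NMSt.base P h h1 h2 hc,
    Fat.of_forall (limit_of_cof (Fat.hcof P.ht (t_th h2)).le) fun _ _ hc =>
      NMSt.base P h h1 h2 hc⟩, maxE h.max h1⟩

/-- A good weasel in which the ordinals below `z` are definable. -/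
theorem exists_def [S4St.{u}] (h : GoodW P E th) (hD : Unb {a | Def0 P E th a} P.Om)
    {z : Ordinal.{u}} (hz : z < P.Om) :
    ∃ E0 th0, GoodW P E0 th0 ∧ ∀ x < z, Def0 P E0 th0 x := by
  have h1 : ∀ x ≤ z, unc P.Om {a | Def0 P E th a} x < P.Om := fun x hx =>
    unc_lt_reg P.hO.isRegular hD (hx.trans_lt hz)
  obtain ⟨G, h2, h3⟩ := exists_thick h.toTall (h1 z le_rfl)
  obtain ⟨E0, th0, s, h4, h5, h6, h7⟩ := S4St.down P h h2
  refine ⟨E0, th0, h4, fun x hx G0 hG => ?_⟩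
  have h8 : x ≤ th0 := ((hx.trans hz).trans h4.lt).le
  have h9 := le_of_range h6 (unc_strictMono (th := P.Om) (X := {a | Def0 P E th a})) (z := z)
    (fun y hy => by
      obtain ⟨w, -, hw⟩ := h7.symm.subset (unc_mem (lt_hb_iff.2 (h1 y hy.le)) G h2)
      exact ⟨w, hw⟩) x hx
  exact hull_back h5.toStrong h8 (h3 _ (h9.trans_lt (unc_strictMono hx))
    (h7.subset ⟨x, h8, rfl⟩) _ (image h4.toTall h5 hG))

end OutI

instance [BaseSt.{u}] [S2St.{u}] [NMSt.{u}] [S4St.{u}] [D4St.{u}] : OutSt.{u} where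
  out P hN z hz := by
    obtain ⟨W, h⟩ := BaseSt.base P hN
    obtain ⟨E, th, h1, h2⟩ := OutI.good h
    obtain ⟨E0, th0, h3, h4⟩ := OutI.exists_def h1 (D4St.unb P h1 h2) hz
    exact ⟨E0, th0, h3, fun E' th' i j hi hj x hx =>
      OutI.hull_eq hi.toStrong hj.toStrong (h4 x hx _ (OutI.agree h3.toTall hi hj))⟩

end Pool.Agent.KM
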