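import Pool.Agent.Lib.MP_5c0be7_lc.T.St
import Pool.Agent.Lib.MP_5c0be7_lc.K.Loc
import Pool.Agent.Lib.MP_5c0be7_lc.K.ActI
import Pool.Agent.Lib.MP_5c0be7_lc.O.F3c
import Pool.Agent.Lib.MP_5c0be7_lc.L.Hull

/-!
Project KM, block T1: basic facts on weasels, thick sets and tame maps.
-/

namespace Pool.Agent.KM

open Ordinal Cardinal Tr Set Filter Order

universe u

namespace Pa

variable (P : Pa.{u})

theorem aleph0_lt : ℵ₀ < P.O := P.hO.aleph0_lt
theorem oreg : P.O.IsRegular := P.hO.isRegular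
theorem cof_Om : P.Om.cof = P.O := P.oreg.cof_ord
theorem t_lt_cof : P.t < P.Om.cof := P.cof_Om.symm ▸ P.h2
theorem aleph0_lt_t : ℵ₀ < P.t := aleph0_lt_aleph_one.trans P.h1
theorem aleph0_lt_cof : ℵ₀ < P.Om.cof := P.cof_Om.symm ▸ P.aleph0_lt
theorem aleph1_lt : ℵ₁ < P.O := P.h1.trans P.h2
theorem lim : IsSuccLimit P.Om := P.reg.limit
theorem not_suc : ¬ Suc P.Om := not_suc_of_limit P.lim
theorem omega_lt : ω < P.Om := by
  rw [Om, lt_ord, card_omega0]; exact P.aleph0_lt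
theorem t_ord_lt : P.t.ord < P.Om := ord_lt_ord.2 P.h2
theorem succ_lt {a : Ordinal.{u}} (h : a < P.Om) : (succ a.card).ord < P.Om :=
  ord_lt_ord.2 (P.hO.isStrongLimit.isSuccLimit.succ_lt (lt_ord.1 h))
theorem cut (E : Seq.{u}) (b : Ordinal.{u}) : CutPt E b 0 := fun _ _ _ _ _ _ _ => zero_le

end Pa

/-- `e` is an uncountable limit cardinal. -/
def VLim (e : Ordinal.{u}) : Prop := ω < e ∧ ∀ a < e, (succ a.card).ord < e

namespace TB

variable {P : Pa.{u}} {E E' E'' F : Seq.{u}} {a b c d e k t v th th' th'' : Ordinal.{u}}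
  {s s' : Ordinal.{u} → Ordinal.{u}} {G G' : Set Ordinal.{u}}

theorem lt_succ_card (a : Ordinal.{u}) : a < (succ a.card).ord := lt_ord.2 (lt_succ _)

/-- Uncountable cardinals are cardinals of every sound hierarchy. -/
theorem card_isCard {c : Cardinal.{u}} (hc : ℵ₀ < c) (h : LS E d) : IsCard E d c.ord :=
  fun a h1 h2 => not_lt.1 fun h3 => (KL.lev_lt hc (h a h2) h3).not_ge h1

theorem succ_isCard (ha : ω ≤ a) (h : LS E d) : IsCard E d (succ a.card).ord :=
  card_isCard (lt_succ_of_le (by simpa using card_le_card ha)) h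

theorem vlim_clb (P : Pa.{u}) : Clb P.Om {e | VLim e} :=
  (Clb.gt P.lim P.omega_lt).inter P.aleph0_lt_cof
    (Clb.closed P.oreg P.aleph0_lt fun _ h => P.succ_lt h)

theorem _root_.Pool.Agent.KM.VLim.ex (h : VLim e) (ha : a < e) (l : LS E d) :
    ∃ y, a < y ∧ y < e ∧ IsCard E d y :=
  ⟨_, (le_max_left a ω).trans_lt (lt_succ_card _), h.2 _ (max_lt ha h.1),
    succ_isCard (le_max_right _ _) l⟩

theorem _root_.Pool.Agent.KM.VLim.isCard (h : VLim e) (l : LS E d) : IsCard E d e :=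
  fun a h1 h2 => not_lt.1 fun h3 =>
    let ⟨_, h4, h5, h6⟩ := h.ex h3 l
    (h6 a (h5.le.trans h1) h2).not_gt h4

theorem _root_.Pool.Agent.KM.VLim.limC (h : VLim e) (l : LS E d) (he : e ≤ d) : LimC E d e :=
  ⟨h.isCard l, fun _ hx => h.ex hx (l.mono he)⟩

theorem _root_.Pool.Agent.KM.VLim.not_suc (h : VLim e) : ¬ Suc e :=
  not_suc_iff.2 fun a ha => (add_one_le_iff.2 (lt_succ_card a)).trans_lt (h.2 a ha)

theorem vlim_Om (P : Pa.{u}) : VLim P.Om := ⟨P.omega_lt, fun _ => P.succ_lt⟩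

theorem isCard_Om (P : Pa.{u}) (l : LS E d) : IsCard E d P.Om := (vlim_Om P).isCard l

/-- Successor cardinals of small ordinals are small. -/
theorem top_lt_Om (l : LS E t) (h : TopC E k t) (hk : k < P.Om) : t < P.Om :=
  let ⟨_, h1, h2, h3⟩ := (vlim_Om P).ex hk l
  (KL.top_le h (KL.card_noProj h3 h1)).trans_lt h2

theorem limC_mono (h : LimC E d k) (hd : c ≤ d) : LimC E c k := ⟨KL.card_mono h.1 hd, h.2⟩

theorem limC_ag (H : Agree E E' d) (hk : k ≤ d) (h : LimC E d k) : LimC E' d k :=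
  ⟨KL.card_ag H h.1, fun x hx => let ⟨y, h1, h2, h3⟩ := h.2 x hx
    ⟨y, h1, h2, KL.card_ag (KL.ag_mono H hk) h3⟩⟩

/-- A cardinal below `Om` of the weasel is a cardinal of the stack. -/
theorem card_ext (l : LS E d) (h : IsCard E P.Om k) (hk : k ≤ P.Om) : IsCard E d k :=
  fun a h1 h2 => (lt_or_ge a P.Om).elim (h a h1) fun h3 => hk.trans (isCard_Om P l a h3 h2)

theorem noProj_ext (l : LS E d) (h : NoProj E k t P.Om) (hk : k < P.Om) : NoProj E k t d :=
  fun a h1 h2 => (lt_or_ge a P.Om).elim (h a h1) fun h3 => hk.trans_le (isCard_Om P l a h3 h2)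

theorem next_ext (l : LS E d) (hd : P.Om ≤ d) (h : IsNext E P.Om k t) (hk : k < P.Om) :
    IsNext E d k t := ⟨h.1, h.2.1.trans hd, h.2.2.1, noProj_ext l h.2.2.2 hk⟩

/-- A cardinal is a passive index. -/
theorem pas_of_card [ActSt.{u}] (h : PM0 E d) (ha : a + 1 < d) (hc : IsCard E d a) : Pas E a :=
  (h.act a ((lt_add_one a).trans ha)).resolve_right fun ⟨_, _, _, H⟩ =>
    ((hc _ le_self_add ha).trans (ActSt.proj (h.ls.mono ha.le) H)).not_gt
      (H.weak.maps _ H.lt)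

theorem pas_eq (h : Pas E a) (h' : Pas E' a) : E a = E' a :=
  funext fun x => funext fun y => propext (iff_of_false (h x y) (h' x y))

theorem ag_succ (H : Agree E E' a) (h : E a = E' a) : Agree E E' (a + 1) :=
  fun _ hv => (KE.le1 hv).eq_or_lt.elim (fun e => e ▸ h) (H _)

theorem pas_suc (h : PM0 E d) (ha : a + 1 < d) : Pas E (a + 1) :=
  (h.act _ ha).resolve_right fun ⟨_, _, _, H⟩ => KL.ext_lim' H.toExt (suc_succ a)

/-- Passive indices go up along strong maps. -/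
theorem pas_up (h : PM0 E (b + 1)) (h' : PM0 E' (s b + 1))
    (hs : Strong E (b + 1) E' (s b + 1) s) (hv : v ≤ b) (hp : Pas E v) : Pas E' (s v) :=
  (h'.act _ (hs.maps _ (KE.lt1 hv))).resolve_right fun ⟨_, _, _, H⟩ =>
    let ⟨_, _, _, H0, _⟩ := KActSt.good_act_down h h' hs hv H
    KL.act_not_pas H0 hp

theorem not_suc_up (hs : Weak E d E' th s) (ha : a < d) (h : ¬ Suc a) : ¬ Suc (s a) := by
  rintro ⟨c, hc⟩
  have := hs.comm a ha topc .nil (in_nil _)
  rw [ev_topc_lim h, hc, map_nil, ev_topc (in_nil _)] at this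
  cases this

theorem not_suc_down (hs : Weak E d E' th s) (ha : a < d) (h : ¬ Suc (s a)) : ¬ Suc a :=
  fun ⟨c, hc⟩ => h ⟨s c, by subst hc; exact KE.w_succ hs ha⟩

theorem top_eq (hs : Weak E (b + 1) E' (c + 1) s) : s b = c := (KE.s1inj (hs.top b rfl)).symm

theorem strong_good (h : PM0 E (b + 1)) (h' : PM0 E' (c + 1))
    (hs : Strong E (b + 1) E' (c + 1) s) : Good E b E' s := by
  obtain rfl := top_eq hs.toWeak
  exact KGoodSt.strong_good h h' hs

theorem strong_rho (hs : Strong E (b + 1) E' (c + 1) s) (ha : a ≤ b) (hx : k ≤ b) :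
    s k < rho E' (s a) ↔ k < rho E a := by
  obtain rfl := top_eq hs.toWeak
  exact KE.strong_rho hs ha hx

/-! Realisability. -/

section

variable [KIISt.{u}]

theorem ii_pre {C : Cfg.{u}} (h : II C 0 E' c) (hE : PM0 E (b + 1)) (hE' : PM0 E' (c + 1))
    (hs : Strong E (b + 1) E' (c + 1) s) : II C 0 E b :=
  KIISt.pre (top_eq hs.toWeak ▸ h) (strong_good hE hE' hs) fun _ _ _ => zero_le

theorem ii_ag {C : Cfg.{u}} (h : II C 0 E b) (hE : PM0 E (b + 1)) (H : Agree E E' (b + 1)) :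
    II C 0 E' b := ii_pre h (KL.pm0_ag H hE) hE (KL.strong_left H KE.strong_id)

theorem ii_lev {C : Cfg.{u}} (h : II C 0 E b) (hE : PM0 E (b + 1)) (hc : c ≤ b) : II C 0 E c :=
  KIISt.level hE h hc zero_le

end

/-! Passive limit levels. -/

/-- Translation of codes of a passive limit level. -/
def pasCd : Cd → Cd
  | .op a => .op a
  | .cmp s c1 c2 => .cmp s (pasCd c1) (pasCd c2)
  | .unopt => .unopt
  | .ev => .ev
  | .ext => .op (.ite .eq (.comp .eq (.pair (.comp .erase .fst) .fst)) .tone)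
  | .atom _ => .cmp .nil .unopt (.op .nil)

theorem pasCd_spec (hv : ¬ Suc v) (hp : Pas E v) (hg : a ≤ v) (q : Cd) {x : Tr.{u}}
    (hx : In a x) : ev E a (pasCd q).code x = ev E v q.code x := by
  induction q generalizing x with
  | op o => exact (ev_opc _ hx).trans (ev_opc _ (hx.mono hg)).symm
  | cmp s c1 c2 ih1 ih2 =>
    simp only [pasCd, Cd.code, ev_cmp, ih2 hx]
    cases h : ev E v c2.code x with
    | none => rfl
    | some w => exact ih1 (In.bop (by simp [hx, ev_lim_in hv hx h]) s)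
  | unopt => exact (ev_unoptc hx).trans (ev_unoptc (hx.mono hg)).symm
  | ev =>
    simp only [pasCd, Cd.code]
    rw [ev_evc (hx.mono hg), ← call_mono hx.fst (hx.mono hg).fst]
    exact ev_evc hx
  | ext =>
    simp only [pasCd, Cd.code]
    rw [ev_opc _ hx, ev_extc (hx.mono hg), ora, F3.rel_pas hp]
    by_cases h1 : x.fst = x.snd <;> simp [bop, h1, hv, tv_neg]
  | atom Q =>
    simp only [pasCd, Cd.code]
    rw [ev_pre _ _ hx, ev_atom_lim hv]
    exact ev_unoptc (in_nil a)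

/-- The code that simulates a passive limit level at a lower level. -/
noncomputable def lowc (c : Tr.{u}) : Tr.{u} := (pasCd (decC c)).code.erase

theorem ev_lowc (hv : ¬ Suc v) (hp : Pas E v) (hg : a ≤ v) (q : Tr.{u}) {x : Tr.{u}}
    (hx : In a x) : ev E a (lowc q) x = ev E v q x := by
  rw [lowc, ev_erase, pasCd_spec hv hp hg _ hx, ev_decC_code]

/-- Two passive limit levels evaluate in the same way. -/
theorem ev_pas (hv : ¬ Suc v) (hp : Pas E v) (ha : ¬ Suc a) (hp' : Pas E a) (hg : a ≤ v)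
    (q : Tr.{u}) {x : Tr.{u}} (hx : In a x) : ev E a q x = ev E v q x :=
  (ev_lowc ha hp' le_rfl q hx).symm.trans (ev_lowc hv hp hg q hx)

theorem fv_leaf {f : Tr.{u}} (h : f.fst = leaf a) (w : Tr.{u}) :
    fv E' (f.map s) w = ev E' (s a) f.snd.fst (node w (f.snd.snd.map s)) := by
  simp [fv, h]

/-- A function named at a passive limit level is named below it, uniformly along weak maps. -/
theorem exists_low (hb : ¬ Suc b) {f : Tr.{u}} (hk : k < b) :
    ∃ g, In b g ∧ ∀ (E E' : Seq.{u}) (s : Ordinal.{u} → Ordinal.{u}), In (b + 1) f →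
      Weak E (b + 1) E' (s b + 1) s → Pas E' (s b) →
      ∀ w, In (s k) w → fv E' (g.map s) w = fv E' (f.map s) w := by
  have hl := limit_of_not_suc hb (ne_bot_of_gt hk)
  by_cases h : ∃ a, f.fst = leaf a ∧ In a f.snd.snd
  · obtain ⟨a, h1, h2⟩ := h
    by_cases hab : a < b
    · refine ⟨node (leaf a) (node f.snd.fst.erase f.snd.snd), by simp [hab, h2.mono hab.le],
        fun E E' s _ _ _ w _ => ?_⟩
      rw [fv_leaf h1, fv_leaf (a := a) rfl]; simp
    · by_cases hi : In b f.snd.snd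
      · have hg : max k f.snd.snd.ht < b := max_lt hk (hi.ht_lt hl)
        have hz : In (max k f.snd.snd.ht) f.snd.snd := (in_ht _).mono (le_max_right _ _)
        refine ⟨node (leaf (max k f.snd.snd.ht)) (node (lowc f.snd.fst) f.snd.snd),
          by simp [hg, hi, lowc], fun E E' s hf hs hp w hw => ?_⟩
        obtain rfl : a = b := le_antisymm (KE.le1 (by simpa [h1] using hf.fst)) (not_lt.1 hab)
        have hga := hg.trans (lt_add_one _)
        have hx : In (s (max k f.snd.snd.ht)) (node w (f.snd.snd.map s)) :=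
          (in_node _ _ _).2 ⟨hw.mono ((KE.w_le hs (hk.trans (lt_add_one _)) hga).2 (le_max_left _ _)),
            (KE.w_in_iff hs hf.snd.snd hga).2 hz⟩
        have := ev_lowc (not_suc_up hs (lt_add_one _) hb) hp
          ((KE.w_le hs hga (lt_add_one _)).2 hg.le) f.snd.fst hx
        rw [fv_leaf h1, fv_leaf rfl]; exact this
      · refine ⟨.nil, in_nil _, fun E E' s hf hs _ w _ => ?_⟩
        obtain rfl : a = b := le_antisymm (KE.le1 (by simpa [h1] using hf.fst)) (not_lt.1 hab)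
        exact absurd h2 hi
  · refine ⟨.nil, in_nil _, fun E E' s hf hs _ w _ => ?_⟩
    have : fv E' (f.map s) w = none := by
      unfold fv
      split_ifs with h0
      · obtain ⟨a, h1, h2⟩ := map_eq_leaf.1 ((map_fst s f).symm.trans h0)
        have ha : a < b + 1 := by simpa [h1] using hf.fst
        refine ev_guard (fun hi => h ⟨a, h1, (KE.w_in_iff hs hf.snd.snd ha).1 ?_⟩) _
        rw [h2, ← map_snd, ← map_snd]
        exact ((in_node _ _ _).1 hi).2
      · rfl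
    rw [this]; simp [fv]

theorem exists_low' (hb : ¬ Suc b) (hp : Pas E b) {f : Tr.{u}} (hf : In (b + 1) f) (hk : k < b) :
    ∃ g, In b g ∧ ∀ w, In k w → fv E g w = fv E f w := by
  obtain ⟨g, h1, h2⟩ := exists_low hb (f := f) hk
  exact ⟨g, h1, fun w hw => by
    simpa [show (id : Ordinal.{u} → Ordinal.{u}) = fun a => a from rfl] using
      h2 E E id hf KE.strong_id.toWeak hp w hw⟩

end TB

open TB

section

variable {P : Pa.{u}} {E E' E'' F : Seq.{u}} {a b c d e k t v th th' th'' : Ordinal.{u}}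
  {s s' : Ordinal.{u} → Ordinal.{u}} {G G' : Set Ordinal.{u}}

/-! Weasels. -/

theorem Tall.hcof (h : Tall P E th) : P.t < th.cof := P.h2.trans_le h.cof
theorem Tall.hcof0 (h : Tall P E th) : ℵ₀ < th.cof := P.aleph0_lt.trans_le h.cof
theorem Tall.lim (h : Tall P E th) : IsSuccLimit th := limit_of_cof h.hcof0.le
theorem Tall.not_suc (h : Tall P E th) : ¬ Suc th := not_suc_of_limit h.lim
theorem Tall.ls (h : Tall P E th) : LS E (th + 1) := h.pm.ls
theorem Tall.rho (h : Tall P E th) : rho E th = th := (h.ls th (lt_add_one _)).2 h.not_suc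
theorem Tall.card (h : Tall P E th) : IsCard E (th + 1) P.Om := isCard_Om P h.ls
theorem Tall.next (h : Tall P E th) : IsNext E (th + 1) P.Om th :=
  ⟨h.lt, le_self_add, h.top, fun a h1 h2 => by
    rw [le_antisymm (KE.le1 h2) h1, h.rho]; exact h.lt⟩
theorem Tall.stk [KIISt.{u}] (h : Tall P E th) : Stk P E th :=
  ⟨KE.pm_mono h.pm le_self_add, fun _ hc => ii_lev h.ii h.pm.toPM0 hc.le, h.lt, h.not_suc, h.top⟩

theorem Tall.ag [KIISt.{u}] [FragSt.{u}] (h : Tall P E th) (H : Agree E E' (th + 1)) :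
    Tall P E' th :=
  ⟨KL.pm_ag H h.pm, ii_ag h.ii h.pm.toPM0 H, fun x y => H th (lt_add_one _) ▸ h.pas x y, h.lt,
    KL.topC_ag (KL.ag_mono H le_self_add) h.top, h.cof⟩

theorem Memb.rho (h : Memb P F b) : rho F (b + 1) = P.Om :=
  le_antisymm h.proj (not_lt.1 fun c =>
    (KL.lev_lt P.aleph0_lt h.lev c).not_ge (h.le.trans le_self_add))

theorem Memb.ag [KIISt.{u}] [FragSt.{u}] (h : Memb P F b) (H : Agree F E (b + 1)) : Memb P E b :=
  ⟨KL.pm_ag H h.pm, ii_ag h.ii h.pm.toPM0 H, h.le, KL.lev_ev (KL.ev_suc H) h.lev,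
    KL.rho_suc H ▸ h.proj⟩

theorem PreM.memb {p : Tr.{u}} (h : PreM P F b p) (hr : P.Om ≤ rho F (b + 1)) : Memb P F b :=
  have e := le_antisymm (DiagSt.gen_rho _ _ _ _ h.gen) hr
  ⟨h.pm, h.ii, h.le, ⟨⟨p, h.mem, fun a ha => e.le.trans (h.ge a ha), h.solid,
    show Gen F (b + 1) (rho F (b + 1)) p from e.symm ▸ h.gen⟩, fun c => absurd (suc_succ _) c⟩, e.le⟩

/-- The members of a stack are cofinal in it. -/
theorem Stk.memb (h : Stk P E c) (ha : a < c) : ∃ b, a ≤ b ∧ b + 1 < c ∧ Memb P E b := by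
  have hl := not_suc_iff.1 h.lim
  obtain ⟨x, h1, h2, h3⟩ := h.top (max a P.Om + 1) (hl _ (max_lt ha h.lt))
  obtain ⟨b, rfl⟩ := KL.suc_of_rho (h.pm.ls x h2)
    (h3.trans_lt (((le_max_right _ _).trans_lt (lt_add_one _)).trans_le h1))
  have h4 := KE.s1le h1
  exact ⟨b, (le_max_left _ _).trans h4, h2, KE.pm_mono h.pm h2.le,
    h.ii b ((lt_add_one b).trans h2), (le_max_right _ _).trans h4, h.pm.ls _ h2, h3⟩

/-- Every member over a full weasel is a level of its stack. -/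
theorem Tall.level [KIISt.{u}] [ReflSt.{u}] (h : Tall P E th) (hf : Full P E th) (m : Memb P F b)
    (H : Agree F E P.Om) : b + 1 < th ∧ Agree F E (b + 1) :=
  let ⟨_, h1, h2, h3⟩ := h.stk.memb (hf F b m H)
  ⟨(add_le_add_left h1 1).trans_lt h2, ReflSt.lin P m h3 H h1⟩

/-- A stack over a full weasel is an initial segment of its stack. -/
theorem Tall.stk_le [KIISt.{u}] [ReflSt.{u}] (h : Tall P E th) (hf : Full P E th)
    (m : Stk P F c) (H : Agree F E P.Om) : c ≤ th ∧ Agree F E c :=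
  ⟨le_of_forall_lt fun _ ha => let ⟨_, h1, _, h3⟩ := m.memb ha
      h1.trans_lt (hf _ _ h3 H),
    fun v hv => let ⟨_, h1, _, h3⟩ := m.memb hv
      (h.level hf h3 H).2 v (KE.lt1 h1)⟩

/-- The stack is determined by the part below `Om`. -/
theorem GoodW.eq [KIISt.{u}] [ReflSt.{u}] (h : GoodW P E th) (h' : GoodW P E' th')
    (H : Agree E E' P.Om) : th = th' ∧ Agree E E' (th + 1) := by
  have h1 := h'.toTall.stk_le h'.full h.toTall.stk H
  obtain rfl := le_antisymm h1.1 (h.toTall.stk_le h.full h'.toTall.stk (KL.ag_symm H)).1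
  exact ⟨rfl, ag_succ h1.2 (pas_eq h.pas h'.pas)⟩

theorem MaxE.ag (h : MaxE P E) (H : Agree E E' P.Om) : MaxE P E' :=
  fun F k t v e h1 h2 h3 h4 h5 h6 h7 h8 h9 h10 h11 h12 =>
    have H' := KL.ag_symm H
    have hk : e k ≤ P.Om := h11.elim le_of_eq fun c => ((h1.weak.maps k h1.lt).trans c.1).le
    h F k t v e (KL.ext_left (KL.ag_mono H' h6.le) h1) h2 h3 h4 (KL.noProj_ag H' h5) h6 h7
      (KL.ag_trans h8 (KL.ag_mono H' hk)) (KL.card_ag H' h9) h10
      (h11.imp_right fun c => ⟨c.1, KL.ag_trans c.2 (KL.ag_mono H' c.1.le)⟩)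
      (KL.oc_left (KL.ag_mono H' h6.le) h12)

/-! Thick sets. -/

theorem Thick.mono (h : Thick P th G) (hG : G ⊆ G') : Thick P th G' :=
  ⟨h.1.subset hG, hG h.2.1, h.2.2.subset hG⟩

theorem Thick.inter (hc : P.t < th.cof) (h : Thick P th G) (h' : Thick P th G') :
    Thick P th (G ∩ G') :=
  ⟨h.1.inter P.ht P.t_lt_cof h'.1, ⟨h.2.1, h'.2.1⟩, h.2.2.inter P.ht hc h'.2.2⟩

theorem Thick.iInter {ι : Type*} (hc : P.O ≤ th.cof) (hι : HasCardinalLT ι P.O)
    {G : ι → Set Ordinal.{u}} (h : ∀ i, Thick P th (G i)) : Thick P th {c | ∀ i, c ∈ G i} :=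
  ⟨Fat.iInter P.ht P.t_lt_cof (P.cof_Om.symm ▸ hι) fun i => (h i).1, fun i => (h i).2.1,
    Fat.iInter P.ht (P.h2.trans_le hc) (hι.of_le hc) fun i => (h i).2.2⟩

theorem Thick.univ (hl : IsSuccLimit th) : Thick P th univ :=
  ⟨Fat.of_forall P.lim fun _ _ _ => trivial, trivial, Fat.of_forall hl fun _ _ _ => trivial⟩

/-! Hulls. -/

theorem InHull.mono (h : InHull E d G a) (hG : G ⊆ G') : InHull E d G' a :=
  let ⟨c, x, h1, h2⟩ := h; ⟨c, x, h1.trans hG, h2⟩

theorem InHull.map (h : InHull E d G a) (hs : Strong E d E' c s) : InHull E' c (s '' G) (s a) :=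
  let ⟨q, x, h1, h2⟩ := h
  ⟨q, x.map s, by rw [lv_map]; exact image_mono h1, by rw [hs.commTop q x (in_of_ev_eq h2), h2]; rfl⟩

theorem exists_preimage {x : Tr.{u}} (h : x.lv ⊆ s '' G) : ∃ y : Tr.{u}, y.lv ⊆ G ∧ y.map s = x := by
  induction x with
  | nil => exact ⟨.nil, by simp, rfl⟩
  | leaf a =>
    obtain ⟨b, h1, h2⟩ := h (show a ∈ (leaf a).lv by simp)
    exact ⟨leaf b, by simpa using h1, by simp [h2]⟩
  | node l r ihl ihr =>
    obtain ⟨l', h1, h2⟩ := ihl (subset_union_left.trans h)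
    obtain ⟨r', h3, h4⟩ := ihr (subset_union_right.trans h)
    exact ⟨node l' r', union_subset h1 h3, by simp [h2, h4]⟩

/-- The hull of an image is the image of the hull. -/
theorem InHull.comap (hs : Strong E d E' c s) (hG : G ⊆ Iio d) (h : InHull E' c (s '' G) b) :
    ∃ a, InHull E d G a ∧ s a = b := by
  obtain ⟨q, x, h1, h2⟩ := h
  obtain ⟨y, h3, rfl⟩ := exists_preimage h1
  rw [hs.commTop q y (h3.trans hG)] at h2
  obtain ⟨w, h4, h5⟩ := Option.map_eq_some_iff.1 h2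
  obtain ⟨a, rfl, h6⟩ := map_eq_leaf.1 h5
  exact ⟨a, ⟨q, y, h3, h4⟩, h6⟩

/-- Strong maps that agree on a set agree on its hull. -/
theorem InHull.eq (h : InHull E d G a) (hs : Strong E d E' c s) (hs' : Strong E d E' c s')
    (hG : ∀ x ∈ G, s x = s' x) : s a = s' a := by
  obtain ⟨q, x, h1, h2⟩ := h
  have e1 := hs.commTop q x (in_of_ev_eq h2)
  have e2 := hs'.commTop q x (in_of_ev_eq h2)
  rw [map_congr fun a ha => hG a (h1 ha), e2, h2] at e1
  simpa using e1.symm

/-! Tame maps. -/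

namespace Tame

theorem top_eq (h : Tame P E th E' th' s) : s th = th' := TB.top_eq h.toWeak

theorem lt_iff (h : Tame P E th E' th' s) (ha : a ≤ th) (hb : b ≤ th) : s a < s b ↔ a < b :=
  KE.w_lt h.toWeak (KE.lt1 ha) (KE.lt1 hb)

theorem lt_Om (h : Tame P E th E' th' s) (hl : P.Om < th) (ha : a ≤ th) :
    s a < P.Om ↔ a < P.Om := by
  rw [← h.lt_iff ha hl.le, h.om]

theorem cof1 (h : Tame P E th E' th' s) (hl : P.Om < th) : CofMap s P.Om P.Om :=
  have hl' := hl.trans (lt_add_one th)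
  CofMap.of_strictMonoOn P.lim (h.mono.mono fun _ ha => lt_trans ha hl')
    (fun _ ha => (h.lt_Om hl (ha.trans hl).le).2 ha)
    fun y hy => ⟨y, hy, KE.w_self h.toWeak (hy.trans hl')⟩

theorem cof2 (h : Tame P E th E' th' s) : CofMap s th th' :=
  ⟨fun _ _ hab hb => h.mono.monotoneOn ((hab.trans_lt hb).trans (lt_add_one _))
    (hb.trans (lt_add_one _)) hab, fun _ ha => h.top_eq ▸ (h.lt_iff ha.le le_rfl).2 ha, h.cof⟩

theorem comp (hE : Tall P E th) (hE' : Tall P E' th') (h : Tame P E th E' th' s)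
    (h' : Tame P E' th' E'' th'' s') : Tame P E th E'' th'' (s' ∘ s) :=
  ⟨KE.strong_comp h.toStrong h'.toStrong, by rw [Function.comp, h.om, h'.om],
    (h.cof2.comp h'.cof2).cof,
    (h.cof1 hE.lt).cont_comp P.ht P.t_lt_cof (h'.cof1 hE'.lt) h.c1 h'.c1,
    h.cof2.cont_comp P.ht hE.hcof h'.cof2 h.c2 h'.c2⟩

theorem refl (hE : Tall P E th) : Tame P E th E th id :=
  ⟨KE.strong_id, rfl, (CofMap.id' hE.lim).cof,
    ((Clb.limits P.lim).fat P.ht.ne_zero).subset fun _ hc y hy => ⟨succ y, hc.succ_lt hy, lt_succ y⟩,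
    ((Clb.limits hE.lim).fat P.ht.ne_zero).subset fun _ hc y hy => ⟨succ y, hc.succ_lt hy, lt_succ y⟩⟩

theorem right (h : Tame P E th E' th' s) (H : Agree E' E'' (th' + 1)) : Tame P E th E'' th' s :=
  ⟨KL.strong_right H h.toStrong, h.om, h.cof, h.c1, h.c2⟩

theorem left (h : Tame P E th E' th' s) (H : Agree E E'' (th + 1)) : Tame P E'' th E' th' s :=
  ⟨KL.strong_left H h.toStrong, h.om, h.cof, h.c1, h.c2⟩

/-- Two tame maps agree on a thick set. -/
theorem agree (hE : Tall P E th) (h : Tame P E th E' th' s) (h' : Tame P E th E'' th' s') :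
    Thick P th {x | s x = s' x} :=
  ⟨(h.cof1 hE.lt).agree P.ht P.t_lt_cof (h'.cof1 hE.lt) h.c1 h'.c1, h.om.trans h'.om.symm,
    h.cof2.agree P.ht hE.hcof h'.cof2 h.c2 h'.c2⟩

theorem fix (hE : Tall P E th) (h : Tame P E th E' th' s) : Fat P.t P.Om {x | s x = x} :=
  (h.cof1 hE.lt).fix P.ht P.t_lt_cof h.c1

theorem preimage (hE : Tall P E th) (h : Tame P E th E' th' s) (hG : Thick P th' G) :
    Thick P th {x | s x ∈ G} :=
  ⟨(h.cof1 hE.lt).preimage P.ht P.t_lt_cof h.c1 hG.1, show s P.Om ∈ G from h.om.symm ▸ hG.2.1,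
    h.cof2.preimage P.ht hE.hcof h.c2 hG.2.2⟩

theorem image (hE : Tall P E th) (h : Tame P E th E' th' s) (hG : Thick P th G) :
    Thick P th' (s '' (G ∩ Iio th)) :=
  ⟨((h.cof1 hE.lt).image (hG.1.inter P.ht P.t_lt_cof h.c1)).subset
      fun _ ⟨c, h1, h2, _, h3⟩ => ⟨c, ⟨h1, h2.trans hE.lt⟩, h3⟩,
    ⟨_, ⟨hG.2.1, hE.lt⟩, h.om⟩,
    (h.cof2.image (hG.2.2.inter P.ht hE.hcof h.c2)).subset
      fun _ ⟨c, h1, h2, _, h3⟩ => ⟨c, ⟨h1, h2⟩, h3⟩⟩

theorem cof_eq (h : Tame P E th E' th' s) : th.cof = th'.cof := h.cof2.cof_eq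

/-- Tame maps agree on the definable points. -/
theorem def0_eq (hE : Tall P E th) (h : Tame P E th E' th' s) (h' : Tame P E th E' th' s')
    (ha : Def0 P E th a) : s a = s' a :=
  (ha _ (agree hE h h')).eq h.toStrong h'.toStrong fun _ hx => hx

theorem defA_eq (hE : Tall P E th) (h : Tame P E th E' th' s) (h' : Tame P E th E' th' s')
    (ha : DefA P E th a) (hf : ∀ x < a, s x = s' x) : s a = s' a :=
  (ha _ (agree hE h h')).eq h.toStrong h'.toStrong fun x hx => hx.elim id (hf x)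

/-- Definable points come down. -/
theorem def0_down (hE : Tall P E th) (h : Tame P E th E' th' s) (ha : a ≤ th)
    (H : Def0 P E' th' (s a)) : Def0 P E th a := fun G hG => by
  obtain ⟨b, h1, h2⟩ := InHull.comap h.toStrong (fun x hx => lt_trans hx.2 (lt_add_one th))
    (H _ (image hE h hG))
  rw [← h.mono.injOn (HullSt.lt h1) (KE.lt1 ha) h2]
  exact h1.mono inter_subset_left

end Tame

end

end Pool.Agent.KM
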