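import Pool.Agent.Lib.MP_5c0be7_lc.T.LiftRho
import Pool.Agent.Lib.MP_5c0be7_lc.T.LiftX
import Pool.Agent.Lib.MP_5c0be7_lc.T.D3
import Pool.Agent.Lib.MP_5c0be7_lc.T.Tame

/-!
Project KM, block T1: the complete stack over a maximal weasel has large cofinality.
-/

namespace Pool.Agent.KM

open Ordinal Cardinal Tr Set Filter

universe u

theorem S2.cof [UltIISt.{u}] [ReflSt.{u}] (P : Pa.{u}) {E : Seq.{u}} {th : Ordinal.{u}}
    (hM : MaxE P E) (S : Stk P E th) (hF : Full P E th) : P.O ≤ th.cof := by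
  by_contra hc
  rw [not_le] at hc
  have h0 : ℵ₀ < P.t := aleph0_lt_aleph_one.trans P.h1
  have h1 : P.t < Order.succ (max th.cof P.t) := Order.lt_succ_of_le (le_max_right _ _)
  have hl := D3I.om_lim P
  have hL := S.pm.ls.mono S.lt.le
  obtain ⟨X, e, ⟨⟨⟨x1, x2⟩, x3⟩, x4⟩, x5, x6, x7⟩ := ex_refl P.hO
    (isRegular_succ (h0.le.trans (le_max_right _ _))) (h0.trans h1)
    (P.hO.isStrongLimit.isSuccLimit.succ_lt (max_lt hc P.h2)) S.lt.le
    ((((ReflSt.stk P S le_rfl).and (ae_unb P.reg le_rfl (limit_of_not_suc S.lim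
      (ne_of_gt (lt_of_le_of_lt zero_le S.lt))).isSuccPrelimit hc)).and
      (ae_cut_clb P.reg S.lt.le (D3I.limC_club hL))).and (ae_cut_clb P.reg S.lt.le
        (Clb.gt hl (a := ω) (ord_aleph0 ▸ ord_lt_ord.2 P.reg.unc))))
    (UnN E P.Om)
  obtain ⟨y1, y2, y3, y4, y5, y6, y7, y8⟩ := x1 e x5
  have y9 : LimC E P.Om e := x3 e x5
  have y10 : ω < e := x4 e x5
  have hf : ∀ x < e, unc th X x = x := fun _ hx => x5.unc_fix hx
  have hx : Ext E e (col th X th) E th (unc th X) := ⟨y10.le, y5, y7, (unc_cofMap x2).cof, y6,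
    fun a h2 h3 => y9.1 a h2 (h3.trans y2)⟩
  have hn : ∀ d ≤ P.Om, (∀ a, col th X th ≤ a → a < d → ¬ rho E a ≤ e) →
      NoProj E e (col th X th) d := fun d _ h a h2 h3 => not_le.1 (h a h2 h3)
  by_cases ht : ∃ a, col th X th ≤ a ∧ a < P.Om ∧ rho E a ≤ e
  · obtain ⟨d, ⟨z1, z2, z3⟩, hd⟩ := (wellFounded_lt (α := Ordinal.{u})).has_min
      {a | col th X th ≤ a ∧ a < P.Om ∧ rho E a ≤ e} ht
    obtain ⟨a, rfl⟩ := KL.suc_of_rho (hL d z2) (z3.trans_lt (y5.trans_le z1))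
    have z4 : col th X th ≤ a := KE.le1 (z1.lt_of_ne fun h => y3 ⟨a, h⟩)
    have z5 := hn _ z2.le fun c h2 h3 h4 => hd c ⟨h2, h3.trans z2, h4⟩ h3
    obtain ⟨F, i, u1, u2, u3, u4, u5, u6⟩ := LiftXI.ult P S hx hf y8 y9 y4 z4 z2 z5
    have z6 := lift_memb P u1 u2 u4 u5 u6 y7 hf y1 S.lt.le x5.1
      ⟨y5, z4.trans le_self_add, y6, z5⟩ z4 (hL _ z2)
      (z3.antisymm (y9.1 _ (y5.le.trans z1) z2)) (h0.trans h1)
      ((cof_col x2).trans_lt (Order.lt_succ_of_le (le_max_left _ _))) (fun x hx => unc_mem hx) x7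
    exact (hF F _ z6 (KL.ag_mono u4 S.lt.le)).not_ge
      (u3 ▸ (KE.w_le u1.toWeak (KE.lt1 z4) (lt_add_one a)).2 z4)
  · exact h1.ne' (x6.symm.trans (hM E e _ th _ hx y10 hf (y1 ▸ x5.1)
      (hn _ le_rfl fun a h2 h3 h4 => ht ⟨a, h2, h3, h4⟩) y2 S.pm (fun _ _ => rfl)
      (y1 ▸ fun a h2 h3 => absurd h3 h2.not_gt) (fun b _ h => S.ii b h) (Or.inl y1) y8))

theorem S2.short [UltIISt.{u}] [ReflSt.{u}] (P : Pa.{u}) {W E : Seq.{u}} {th : Ordinal.{u}}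
    (hW : Base P W) (S : Stk P E th) (ha : Agree E W P.Om) (hF : Full P E th) : P.O ≤ th.cof :=
  S2.cof P (hW.max.ag (KL.ag_symm ha)) S hF

end Pool.Agent.KM
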