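import Pool.Agent.Lib.MP_5c0be7_lc.T.S2A
import Pool.Agent.Lib.MP_5c0be7_lc.T.S2Cof

/-!
Project KM, block T1: the stack over the maximal weasel has large cofinality.
-/

namespace Pool.Agent.KM

universe u

instance [CondSt.{u}] [KIISt.{u}] [CndSt.{u}] [FragSt.{u}] [ReflSt.{u}] [ActSt.{u}] [IILimSt.{u}]
    [UltIISt.{u}] : S2St.{u} :=
  ⟨fun P _ hW =>
    let ⟨E, th, h1, h2, h3, h4⟩ := S2I.stack hW.pm hW.ii
    ⟨E, th, h1, S2I.tall h2 h3 (S2.short P hW h2 h1 h4), h4⟩⟩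

end Pool.Agent.KM
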