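import Pool.Agent.Lib.MP_5c0be7_lc.T.StS3
import Pool.Agent.Lib.MP_5c0be7_lc.T.Tame
import Pool.Agent.Lib.MP_5c0be7_lc.T.GoodTh
import Pool.Agent.Lib.MP_5c0be7_lc.P.Core

/-!
Project KM, block T1: tame maps lead to good weasels (S3).
-/

set_option linter.unusedSectionVars false

namespace Pool.Agent.KM

open Ordinal Tr Set F3 TB

universe u

namespace S3I

variable {P : Pa.{u}} {E E' F : Seq.{u}} {th th' r b d k y : Ordinal.{u}}
  {s : Ordinal.{u} → Ordinal.{u}} {p w : Tr.{u}}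

theorem tall (hE : Tall P E th) (pm : PM E' (th' + 1)) (ii : P.II E' th')
    (hs : Tame P E th E' th' s) : Tall P E' th' := by
  have ht := hs.top_eq
  refine ⟨pm, ii, ?_, ?_, fun y hy => ?_, hs.cof_eq ▸ hE.cof⟩
  · subst ht
    exact pas_up hE.pm.toPM0 pm.toPM0 hs.toStrong le_rfl hE.pas
  · have := (hs.lt_iff hE.lt.le le_rfl).2 hE.lt
    rwa [hs.om, ht] at this
  · obtain ⟨x, hx, h1⟩ := hs.cof y hy
    obtain ⟨a, h2, h3, h4⟩ := hE.top x hx
    refine ⟨s a, h1.le.trans (not_lt.1 fun h => h2.not_gt ((hs.lt_iff h3.le hx.le).1 h)),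
      ht ▸ (hs.lt_iff h3.le le_rfl).2 h3, not_lt.1 fun h => h4.not_gt ?_⟩
    exact (TB.strong_rho hs.toStrong h3.le hE.lt.le).1 (hs.om.symm ▸ h)

/-- Normal form of the points of a hull. -/
theorem nf [HullSt.{u}] (hp : In d p) (hw : w.lv ⊆ {y | InHull E d (s '' Iio k ∪ p.lv) y}) :
    ∃ c v, In k v ∧ ev E d c (node (v.map s) p) = some w := by
  obtain ⟨c, x, hx, h⟩ := HullSt.tree.1 hw
  have hd := in_of_ev_eq h
  obtain ⟨z, hz, hz'⟩ := exists_list
    (S := leaf '' {a ∈ x.lv | a ∈ s '' Iio k}) ((x.lv_finite.subset fun _ h => h.1).image _)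
  have h2 : ∀ a ∈ z.lv, a ∈ x.lv ∧ a ∈ s '' Iio k := fun a ha => by
    obtain ⟨_, ⟨a', h3, rfl⟩, h4⟩ := hz' a ha
    exact (show a = a' from h4) ▸ h3
  obtain ⟨v, hv, rfl⟩ := exists_preimage (x := z) fun a ha => (h2 a ha).2
  obtain ⟨o, ho⟩ := ex_op (q := x) (x := node (v.map s) p) fun a ha =>
    (hx ha).elim (fun h3 => Or.inl (mem_lv ((hz _).2 ⟨a, ⟨ha, h3⟩, rfl⟩) (by simp))) Or.inr
  refine ⟨prec o c, v, hv, ?_⟩
  rw [ev_prec _ _ ((in_node _ _ _).2 ⟨fun a ha => hd a (h2 a ha).1, hp⟩), ho, h]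

/-- The setting of the argument. -/
structure Cx (P : Pa.{u}) (E : Seq.{u}) (th : Ordinal.{u}) (E' : Seq.{u}) (th' : Ordinal.{u})
    (s : Ordinal.{u} → Ordinal.{u}) (F : Seq.{u}) (r : Ordinal.{u}) : Prop where
  hE : Tall P E th
  hE' : Tall P E' th'
  hs : Tame P E th E' th' s
  mem : Memb P F r
  ag : Agree F E' th'
  le : th' ≤ r
  np : NoProj F P.Om th' (r + 1)

variable [S3RefSt.{u}]

theorem key (H : Cx P E th E' th' s F r) (hk : k < P.Om) (hy : y < th) :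
    ∃ b t, P.Om ≤ b ∧ y ≤ b ∧ b + 1 < th ∧ rho E (b + 1) ≤ P.Om ∧ Mono t (Iio (b + 1)) ∧
      (∀ z ≤ P.Om, t z = s z) ∧ t y = s y ∧
      (∀ c v, In k v → ev F (r + 1) c (node (v.map s) (pp F (r + 1))) =
        (ev E (b + 1) c (node v (pp E (b + 1)))).map (Tr.map t)) ∧
      ∀ c v w, In P.Om v → ev E (b + 1) c (node v (pp E (b + 1))) = some w →
        ev F (r + 1) c (node (v.map s) (pp F (r + 1))) = some (w.map t) := by
  have hs := H.hs
  have lo : ∀ a < P.Om, s a < P.Om := fun a ha => (hs.lt_Om H.hE.lt (ha.trans H.hE.lt).le).2 ha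
  obtain ⟨b, j, h1, h2, h3, h4, g, hr, hf, hy', hp, he⟩ :=
    S3RefSt.ref P H.hE H.hE' hs H.mem H.ag H.le H.np (lo k hk) hy
  have h5 : b + 1 < th := H.hE.lim.add_one_lt h3
  have e1 : s (b + 1) = s b + 1 := KE.w_succ hs.toWeak (h5.trans (lt_add_one _))
  have e2 : pp E' (s b + 1) = (pp E (b + 1)).map s := e1 ▸ PC.s_pp hs.toStrong h5.le
  have cm : ∀ c v, In (b + 1) v → ev E' (s b + 1) c (node (v.map s) (pp E' (s b + 1))) =
      (ev E (b + 1) c (node v (pp E (b + 1)))).map (Tr.map s) := fun c v hv => by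
    rw [e2, ← e1]
    exact hs.comm (b + 1) (h5.trans (lt_add_one _)) c _ ((in_node _ _ _).2 ⟨hv, in_pp _ _⟩)
  have sb : s b + 1 < th' := by
    rw [← e1, ← hs.top_eq]; exact (hs.lt_iff h5.le le_rfl).2 h5
  have hpar : par F (j (s b)) = (par E' (s b)).map j := by
    have := he parc .nil (in_nil _)
    rw [ev_parc ((in_node _ _ _).2 ⟨in_nil _, in_pp _ _⟩),
      ev_parc ((in_node _ _ _).2 ⟨in_nil _, in_pp _ _⟩)] at this
    rw [hr]; exact Option.some.inj this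
  have m1 : ∀ a < b + 1, a < th + 1 := fun a ha => ha.trans (h5.trans (lt_add_one _))
  have m2 : ∀ a < b + 1, s a < s b + 1 := fun a ha =>
    e1 ▸ hs.mono (m1 a ha) (h5.trans (lt_add_one _)) ha
  refine ⟨b, j ∘ s, h1, h2, h5, h4,
    fun x hx z hz h => g.mono (m2 x hx) (m2 z hz) (hs.mono (m1 x hx) (m1 z hz) h),
    fun z hz => hf _ (hz.eq_or_lt.elim (fun h => by rw [h, hs.om]) fun h => (lo z h).le), hy',
    fun c v hv => ?_, fun c v w hv hw => ?_⟩
  · rw [he c _ ((KE.w_in_iff hs.toWeak (hv.mono (hk.trans H.hE.lt).le |>.mono le_self_add)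
      (m1 k (KE.lt1 (hk.le.trans h1)))).2 hv), cm c v (hv.mono ((hk.le.trans h1).trans le_self_add))]
    cases ev E (b + 1) c (node v (pp E (b + 1))) <;> simp [KE.map_comp]
  · have h6 := cm c v (hv.mono (h1.trans le_self_add))
    rw [hw] at h6
    have := good_ev g (H.hE'.ls.mono (sb.le.trans le_self_add)) (hr ▸ H.mem.pm.ls) hpar h6
    rw [map_node, hp, hr, PT.map_fix (fun z hz => hf z hz.le)
      (KE.in_map fun z hz => lo z (hv z hz))] at this
    rw [this, KE.map_comp]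

theorem low [HullSt.{u}] (H : Cx P E th E' th' s F r) (hy : y < P.Om)
    (h : InHull F (r + 1) (s '' Iio P.Om ∪ (pp F (r + 1)).lv) y) : ∃ z < P.Om, s z = y := by
  obtain ⟨c, v, hv, e⟩ := nf (w := leaf y) (in_pp F (r + 1)) (by simpa using h)
  obtain ⟨b, t, h1, -, -, -, hm, hf, -, he, -⟩ := key H (hv.ht_lt P.lim) H.hE.lt
  rw [he c v (in_ht v)] at e
  obtain ⟨w, hw, e⟩ := Option.map_eq_some_iff.1 e
  obtain ⟨z, rfl, rfl⟩ := map_eq_leaf.1 e
  have hz : z < b + 1 := by simpa using ev_in hw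
  have : z < P.Om := (hm.lt_iff_lt hz (KE.lt1 h1)).1 (by rwa [hf _ le_rfl, H.hs.om])
  exact ⟨z, this, (hf z this.le).symm⟩

theorem high (H : Cx P E th E' th' s F r) (hy : y < th) :
    InHull F (r + 1) (s '' Iio P.Om ∪ (pp F (r + 1)).lv) (s y) := by
  obtain ⟨b, t, -, h2, h3, h4, -, -, hy', -, up⟩ := key H P.lim.pos hy
  obtain ⟨c, v, hv, e⟩ := (ss_pp (H.hE.ls (b + 1) (h3.trans (lt_add_one _))).1).2.2.2 (leaf y)
    (by simpa using h2)
  refine ⟨c, _, ?_, (up c v _ (hv.mono h4) e).trans (by rw [map_leaf, hy'])⟩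
  rw [lv_node, lv_map]
  exact union_subset_union_left _ (image_mono fun a ha => (hv a ha).trans_le h4)

theorem named (H : Cx P E th E' th' s F r) (hk : k < P.Om) :
    Named E P.Om k fun q => (ev F (r + 1) q.fst (node (q.snd.map s) (pp F (r + 1)))).isSome := by
  obtain ⟨b, t, h1, -, h3, -, -, -, -, he, -⟩ := key H hk H.hE.lt
  refine named_congr (AccSt.acc_card E th k P.Om _ (isCard_Om P (H.hE.ls.mono le_self_add)) hk
    (PT.th_up (H.hE.lim.add_one_lt h3) (hk.le.trans (h1.trans (le_self_add.trans le_self_add)))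
      (in_pp E (b + 1)))) fun q hq => ?_
  rw [he _ _ hq.snd, Option.isSome_map]
  rfl

variable [HullSt.{u}] [CondSt.{u}] [TreeSt.{u}] [BrSt.{u}] [PresSt.{u}] [AgreeSt.{u}] [PhxSt.{u}]
  [KIISt.{u}]

theorem no (H : Cx P E th E' th' s F r) (hF : Full P E th) : False := by
  have hs := H.hs
  have hO := H.hE.lt
  have lo : ∀ a < P.Om, s a < P.Om := fun a ha => (hs.lt_Om hO (ha.trans hO).le).2 ha
  obtain ⟨u, b0, um, rfl, ur, uc⟩ := HullSt.enum (E := F) (b := r)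
    (Z := {y | InHull F (r + 1) (s '' Iio P.Om ∪ (pp F (r + 1)).lv) y})
    (fun y hy => KE.le1 (HullSt.lt hy)) fun y hy => HullSt.closed hy
  obtain ⟨-, str, pm⟩ := CondSt.strong um H.mem.pm.toPM0 uc
  replace pm := pm H.mem.pm
  generalize pull u F = N at str pm
  have rg : ∀ y < th, ∃ a ≤ b0, u a = s y := fun y hy =>
    (ur.symm ▸ high H hy : s y ∈ u '' Iic b0)
  have us : ∀ x < P.Om, u x = s x := fun x => by
    induction x using WellFoundedLT.induction with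
    | ind x ih =>
    intro hx
    obtain ⟨a, ha, e⟩ := rg x (hx.trans hO)
    rcases lt_trichotomy a x with h | h | h
    · exact absurd ((ih a h (h.trans hx)).symm.trans e)
        ((hs.lt_iff ((h.trans hx).trans hO).le (hx.trans hO).le).2 h).ne
    · rw [← e, h]
    · have h1 : u x < s x := e ▸ um h
      obtain ⟨z, hz, e'⟩ := low H (h1.trans (lo x hx))
        (ur ▸ mem_image_of_mem u (h.le.trans ha) : u x ∈ {y | InHull _ _ _ y})
      have h2 : z < x := (hs.lt_iff (hz.trans hO).le (hx.trans hO).le).1 (e' ▸ h1)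
      exact absurd (um.injective ((ih z h2 hz).trans e')) h2.ne
  have ge : ∀ y < th, ∀ a, u a = s y → y ≤ a := fun y => by
    induction y using WellFoundedLT.induction with
    | ind y ih =>
    refine fun hy a e => not_lt.1 fun h => ?_
    obtain ⟨a', -, e'⟩ := rg a (h.trans hy)
    exact ((hs.lt_iff (h.trans hy).le hy.le).2 h).not_ge
      (e ▸ e' ▸ um.monotone (ih a h (h.trans hy) a' e'))
  obtain ⟨hb, uO⟩ : P.Om ≤ b0 ∧ u P.Om = P.Om := by
    obtain ⟨a, ha, e⟩ := rg _ hO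
    have := ge _ hO a e
    exact ⟨this.trans ha, le_antisymm ((um.monotone this).trans (e.trans hs.om).le) um.le_apply⟩
  have mu : ∀ {v : Tr.{u}}, In P.Om v → v.map u = v.map s := fun hv => KN.map_eq us hv
  have w1 : Weak E P.Om F (u b0 + 1) (u ∘ id) := by
    refine ⟨fun a _ a' _ h => um h, fun a ha => KE.lt1 (um.monotone (ha.le.trans hb)),
      fun c h => absurd ⟨c, h⟩ P.not_suc, fun a ha => ?_⟩
    refine KN.comm_congr (s := s) (fun c x hx => ?_) fun x hx => (us x (hx.trans ha)).symm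
    rw [Function.comp_id, us a ha, KN.ev_agree H.ag ((lo a ha).trans H.hE'.lt)]
    exact hs.comm a ((ha.trans hO).trans (lt_add_one _)) c x hx
  have ag : Agree E N P.Om := AgreeSt.of_fix (KE.pm0_mono H.hE.pm.toPM0 (hO.le.trans le_self_add))
    pm.toPM0 (KE.weak_cancel str.toWeak w1 (fun a ha => KE.lt1 (ha.le.trans hb))
      fun c h => absurd ⟨c, h⟩ P.not_suc) le_rfl fun _ _ => rfl
  obtain ⟨q, hq, eq⟩ := exists_preimage (x := pp F (u b0 + 1)) (s := u) (G := Iic b0)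
    fun a ha => ur.symm ▸ HullSt.sub (Or.inr ha) (in_pp _ _ a ha)
  have hq' : In (b0 + 1) q := fun a ha => KE.lt1 (hq ha)
  have cm : ∀ c v, In P.Om v → ev F (u b0 + 1) c (node (v.map s) (pp F (u b0 + 1))) =
      (ev N (b0 + 1) c (node v q)).map (Tr.map u) := fun c v hv => by
    have := str.commTop c (node v q) ((in_node _ _ _).2 ⟨hv.mono (hb.trans le_self_add), hq'⟩)
    rwa [map_node, eq, mu hv] at this
  have gen : Gen N (b0 + 1) P.Om q := fun t ht => by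
    obtain ⟨c, v, hv, e⟩ := nf (w := t.map u) (in_pp F (u b0 + 1)) (by
      rw [← ur, lv_map]; exact image_mono fun a ha => KE.le1 (ht a ha))
    rw [cm c v hv] at e
    obtain ⟨w, hw, e⟩ := Option.map_eq_some_iff.1 e
    exact ⟨c, v, hv, (map_inj um.injective.injOn).1 e ▸ hw⟩
  have hr : rho N (b0 + 1) = P.Om := by
    refine le_antisymm (DiagSt.gen_rho _ _ _ _ gen) (le_of_forall_lt fun k hk => ?_)
    refine lt_rho_iff.2 ⟨KE.lt1 (hk.le.trans hb), fun x hx => ?_⟩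
    obtain ⟨c, z, hz, e⟩ := gen x hx
    have h1 : max k z.ht < P.Om := max_lt hk (hz.ht_lt P.lim)
    refine PT.th_gen (named_congr (named_mono (PT.named_ag ag (named H h1))
      (hb.trans le_self_add) le_rfl) fun v hv => ?_) (le_max_left _ _) (KE.lt1 (h1.le.trans hb))
      ((in_ht z).mono (le_max_right _ _)) e
    rw [cm _ _ (hv.snd.mono h1.le), Option.isSome_map]
    rfl
  have ii : P.II N b0 := ii_pre H.mem.ii pm.toPM0 H.mem.pm.toPM0 str
  obtain ⟨p', E0, b1, j, p0, -, hu, rl, h1, h2, -⟩ := PC.core_full pm ii (Pa.cut N b0) zero_le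
  rw [hr] at hu rl h1
  have h3 : b1 < th := hF E0 b1 ⟨hu.pm, ii_pre ii hu.pm.toPM0 pm.toPM0 hu.str, hu.le, h2, h1.le⟩
    (KL.ag_trans (AgreeSt.of_fix hu.pm.toPM0 pm.toPM0 hu.str.toWeak (hu.le.trans le_self_add)
      hu.fix) (KL.ag_symm ag))
  obtain ⟨c, h4, h5, h6⟩ := H.hE.top _ (H.hE.lim.add_one_lt h3)
  obtain ⟨a, ha, e⟩ := rg c h5
  refine (rl.lev a ha (not_lt.1 fun h => h6.not_gt ?_)).1.not_gt
    ((lt_add_one b1).trans_le (h4.trans (ge c h5 a e)))
  have := (TB.strong_rho str ha hb).2 h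
  rw [uO, e, KL.rho_lt H.ag (hs.top_eq ▸ (hs.lt_iff h5.le le_rfl).2 h5)] at this
  exact (TB.strong_rho hs.toStrong h5.le hO.le).1 (hs.om.symm ▸ this)

theorem full [ReflSt.{u}] (hE : Tall P E th) (hE' : Tall P E' th') (hs : Tame P E th E' th' s)
    (hF : Full P E th) : Full P E' th' := fun F b m ha => not_le.1 fun hb => by
  have ag : Agree F E' th' := fun v hv => by
    obtain ⟨c, h1, h2, h3⟩ := hE'.stk.memb hv
    exact (ReflSt.lin P h3 m (KL.ag_symm ha) (((lt_add_one c).trans h2).le.trans hb) v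
      (KE.lt1 h1)).symm
  obtain ⟨r, ⟨h1, h2⟩, h3⟩ := wellFounded_lt.has_min {r | th' ≤ r ∧ rho F (r + 1) ≤ P.Om}
    ⟨b, hb, m.proj⟩
  have h4 : r ≤ b := not_lt.1 (h3 b ⟨hb, m.proj⟩)
  refine no ⟨hE, hE', hs, ⟨KE.pm_mono m.pm (add_le_add_left h4 1), ii_lev m.ii m.pm.toPM0 h4,
    hE'.lt.le.trans h1, h4.eq_or_lt.elim (fun h => h ▸ m.lev) fun h => m.pm.ls _ (KE.s1lt h), h2⟩,
    ag, h1, fun a h5 h6 => not_le.1 fun h7 => ?_⟩ hF
  obtain ⟨c, rfl⟩ := KL.suc_of_rho (m.pm.ls a (h6.trans_le (add_le_add_left h4 1)))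
    (h7.trans_lt (hE'.lt.trans_le h5))
  exact h3 c ⟨KE.le1 (h5.lt_of_ne fun h => hE'.not_suc ⟨c, h⟩), h7⟩
    (Order.add_one_le_iff.1 (KE.le1 h6))

end S3I

instance [S3RefSt.{u}] [HullSt.{u}] [CondSt.{u}] [TreeSt.{u}] [BrSt.{u}] [PresSt.{u}] [AgreeSt.{u}]
    [PhxSt.{u}] [KIISt.{u}] [ReflSt.{u}] [NMSt.{u}] : S3St.{u} where
  up P _ _ _ _ _ _ h pm ii hs _ _ :=
    have h' := S3I.tall h.toTall pm ii hs
    ⟨h', S3I.full h.toTall h' hs h.full,
      ((hs.cof1 h.lt).image (h.nm1.inter P.ht P.t_lt_cof hs.c1)).subset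
        fun _ ⟨_, h1, h2, _, e⟩ =>
          e ▸ NMSt.up P h.toTall pm hs.toStrong hs.om hs.cof (h2.trans h.lt) h1,
      (hs.cof2.image (h.nm2.inter P.ht h.toTall.hcof hs.c2)).subset
        fun _ ⟨_, h1, h2, _, e⟩ => e ▸ NMSt.up P h.toTall pm hs.toStrong hs.om hs.cof h2 h1⟩

end Pool.Agent.KM
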