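import Pool.Agent.Lib.MP_5c0be7_lc.C.Easy
import Pool.Agent.Lib.MP_5c0be7_lc.C.Pres
import Pool.Agent.Lib.MP_5c0be7_lc.T.St
import Pool.Agent.Lib.MP_5c0be7_lc.K.Loc
import Pool.Agent.Lib.MP_5c0be7_lc.K.Clo
import Pool.Agent.Lib.MP_5c0be7_lc.P.Th

/-!
Project KM, block T: the theory of a level that collapses `t` is a short union of sets named below
`t`, and so is its image under a cofinal map.
-/

set_option autoImplicit false

namespace Pool.Agent.KM.CU

open Ordinal Tr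
open scoped Classical

universe u

variable {E E' : Seq.{u}} {b b' d g k r t : Ordinal.{u}} {i : Ordinal.{u} → Ordinal.{u}}
  {p s w x y : Tr.{u}}

/-- Names of all decidable sets from one parameter. -/
theorem named_exp (hE : LS E (b + 1)) (hk : k < rho E b) (hx : In (b + 1) x)
    (hy : In (rho E b) y) : ∃ a0 z, k ≤ a0 ∧ a0 < rho E b ∧ In a0 z ∧ ∀ A : PQ.{u}, RD A → ∀ c,
      ∃ (m : ℕ) (c' : Tr.{u}), c'.lv = ∅ ∧ ∀ q, In k q →
        (Nm E (node (leaf (a0 + m)) (node c' z)) q ↔ A c E b x (node q y)) := by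
  have hl := DiagSt.rho_lim E b
  have hr := rho_le E b
  have he : max k y.ht < rho E b := max_lt hk (ht_lt hl hk hy)
  obtain ⟨n, hn, h3⟩ := AccSt.acc_card E b _ _ _
    (fun a h1 h2 => AccSt.card_rho E b (hE.mono le_self_add) a h1 (h2.trans (lt_add_one b))) he
    (DiagSt.named_of_lt E b _ _ he (in_dn E hx))
  have ha := max_lt he (ht_lt hl hk hn)
  have hz : In (max (max k y.ht) n.ht) (node y n) :=
    (in_node _ _ _).2 ⟨(in_ht y).mono ((le_max_right _ _).trans (le_max_left _ _)),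
      (in_ht n).mono (le_max_right _ _)⟩
  have hk' : k ≤ max (max k y.ht) n.ht := (le_max_left _ _).trans (le_max_left _ _)
  refine ⟨_, node y n, hk', ha, hz, fun A ⟨F, ⟨m, _, h1⟩, h2⟩ c => ?_⟩
  have hD : Df.{u} fun E _ z => drun (decD (m c)) (fun q => Nm E z.snd.snd q)
      (node z.fst z.snd.fst) = .nil :=
    Df.eq ((Fn.drun _ (Df.nm Fn.id.snd Fn.id.fst)).pre
      ((IsOp.id.fst.pair IsOp.id.snd.fst).pair IsOp.id.snd.snd)) Fn.nil
  obtain ⟨j, c', h4, h5⟩ := hD.semi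
  refine ⟨j + 1, c', erase_eq_self.1 h4, fun q hq => ?_⟩
  have i : In (max k y.ht) (node q y) :=
    (in_node _ _ _).2 ⟨hq.mono (le_max_left _ _), (in_ht y).mono (le_max_right _ _)⟩
  simp only [NmL, fst_node, snd_node, leaf.injEq, exists_eq_left']
  rw [h5 E _ _ (hE.mono ((add_nat_lt hl ha _).le.trans (hr.trans le_self_add))),
    if_pos ((in_node _ _ _).2 ⟨hq.mono hk', hz⟩), ← h2 c E b x _ hx (i.mono (he.le.trans hr)),
    ← h1, ← drun_congr _ i h3]
  simp only [fst_node, snd_node]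
  split_ifs with h <;> simp [h]

theorem Hl.add (hr : rho E r = r) (hl : ¬ Suc r) {a : Ordinal.{u}} (ha : a < r)
    (h : Hl E (r + 1) g s (leaf a)) (m : ℕ) : Hl E (r + 1) g s (leaf (a + m)) := by
  obtain ⟨e, -, he⟩ := (RD.bd.{u} IsOp.id.fst IsOp.id.snd).least .nil
  induction m with
  | zero => simpa using h
  | succ m ih =>
    refine ih.app (c := e) ?_
    rw [he E r _ ih.mem, least_eq_some, hr, add_succ_cast]
    refine ⟨⟨by simpa [← add_succ_cast] using add_nat_lt hl ha (m + 1), _, rfl, by simp⟩,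
      fun y h1 ⟨_, a', h2, h3⟩ => ?_⟩
    simp only [fst_node, snd_node, in_leaf] at h2 h3
    rw [h2, lt_leaf, in_leaf] at h1
    exact h3.not_ge (KE.le1 h1)

/-- A set with a generated name is a section of the theory. -/
theorem Hl.named (h : Hl E d k s w) (hd : k ≤ d) (hk : k < g) (H : Named E g k (Th E d s)) :
    Named E g k (Nm E w) := by
  have hw := h.mem
  obtain ⟨c, v, hv, he⟩ := h
  obtain ⟨o, ho⟩ : IsOp.{u} fun t => node (cmp (.pair (.comp .ff .snd) .fst) nmc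
      (prec (.pair .sf .snd) c.erase)) (node t.fst t.snd) :=
    (IsOp.const (erase_of_lv (by simp))).pair (IsOp.id.fst.pair IsOp.id.snd)
  refine Named.congr' (NamedSt.pre E g k k _ o v hk (hv.ht_le.trans_lt hk) H
    fun q hq => In.bop (by simp [hq, hv]) o) fun q hq => ?_
  rw [ho]
  simp only [ThL, fst_node, snd_node]
  have hz : In d s := (in_of_ev_eq he).snd
  rw [ev_cmp, ev_prec _ _ (by simp [hq.mono hd, hv.mono hd, hz]), ← ev_nmc (hq.mono hd) hw]
  simp [he]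

/-- The projectum below a level that collapses `t` has at most the cofinality of `t`. -/
theorem cof_rho (hE : LS E (b + 1)) (hN : IsNext E (b + 1) k t) (ht : t ≤ b)
    (hG : Gen E (b + 1) k p) {J : Type*} (f : J → Ordinal.{u}) (hf : ∀ j, f j < t)
    (hc : ∀ a < t, ∃ j, a ≤ f j) :
    ∃ a : J × ℕ → Ordinal.{u}, (∀ j, a j < rho E b) ∧ ∀ y < rho E b, ∃ j, y ≤ a j := by
  have hp := F3.gen_in hG
  have hl := DiagSt.rho_lim E b
  have hr := rho_le E b
  have htl := AccSt.next_lim E _ k t hE hN (KE.lt1 ht)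
  have htr : t ≤ rho E b := AccSt.next_card E _ k t hE hN b ht (lt_add_one b)
  have hk := hN.1.trans_le htr
  rcases htr.eq_or_lt with e | htr
  · exact ⟨fun j => f j.1, fun j => e ▸ hf _, fun y hy =>
      let ⟨j, h⟩ := hc y (e ▸ hy); ⟨(j, 0), h⟩⟩
  obtain ⟨j0, -⟩ := hc k hN.1
  by_cases h0 : ∃ a0 < rho E b, rho E b ≤ a0 + ω
  · obtain ⟨a0, h1, h2⟩ := h0
    refine ⟨fun j => a0 + j.2, fun j => add_nat_lt hl h1 _, fun y hy => ?_⟩
    obtain ⟨m, h3, h4⟩ := (lt_add_iff_of_isSuccLimit isSuccLimit_omega0).1 (hy.trans_le h2)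
    obtain ⟨m, rfl⟩ := lt_omega0.1 h3
    exact ⟨(j0, m), h4.le⟩
  have key : ∀ j, ∃ n c v a, In t n ∧ ¬ Named E (f j) k (Nm E n) ∧ In k v ∧ a < rho E b ∧
      Conv E b c (node n (node v p)) a ∧ ∀ n', In (b + 1) n' →
        (ev E (b + 1) c (node n' (node v p))).isSome → n' = n := fun j => by
    obtain ⟨a, h1, h2, h3⟩ := hN.2.2.1 _ (max_lt (hf j) (htl.succ_lt hN.1))
    have h4 : k < a := (Order.lt_succ k).trans_le ((le_max_right _ _).trans h1)
    obtain ⟨z, h5, h6⟩ := (F3.rho_cases E a).resolve_left fun e => h4.not_ge (e ▸ h3)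
    obtain ⟨n, h7, h8⟩ : Named E t k (Th E a z) :=
      PT.th_up (htl.add_one_lt h2) (h4.le.trans le_self_add) h5
    obtain ⟨c, v, h9, h10⟩ := hG n (h7.mono (ht.trans le_self_add))
    have hi := in_of_ev_eq h10
    have h11 : ∀ n', In (b + 1) n' → ((ev E (b + 1) (cmp .id (tst (.comp .eq (.pair .fst .fs)))
        (prec .snd c)) (node n' (node v p))).isSome ↔ n' = n) := fun n' h => by
      rw [ev_cmp, ev_prec _ _ ((in_node _ _ _).2 ⟨h, hi⟩)]
      simp only [bop_snd, snd_node, h10, Option.bind_some, bop_id]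
      rw [ev_tst_isSome _ (by simp only [in_node] at hi ⊢; exact ⟨ev_in h10, h, hi⟩)]
      exact (by simp : _ ↔ n = n').trans eq_comm
    obtain ⟨a1, h12, h13⟩ := (ev_iff_conv hk ((in_node _ _ _).2 ⟨ev_in h10, hi⟩)).1
      ((h11 n (ev_in h10)).2 rfl)
    exact ⟨n, _, v, a1, h7, fun h => h6 (named_down (Named.congr' (Named.mono' h
      ((le_max_left _ _).trans h1)) h8) h3), h9, h12, h13, fun n' h => (h11 n' h).1⟩
  choose n c v a k1 k2 k3 k4 k5 k6 using key
  refine ⟨fun j => a j.1, fun j => k4 _, fun y hy => by_contra fun hb => ?_⟩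
  have hb : ∀ j, a j ≤ max y t := fun j =>
    (not_le.1 fun h => hb ⟨(j, 0), h⟩).le.trans (le_max_left _ _)
  have hy := max_lt hy htr
  obtain ⟨a0, z, m1, m2, m3, m4⟩ := named_exp hE hk hp (y := leaf (max y t)) (by simpa using hy)
  have m5 : a0 + ω < rho E b := not_le.1 fun h => h0 ⟨a0, m2, h⟩
  have m6 : ¬ Suc (a0 + ω) := not_suc_of_limit (isSuccLimit_add _ isSuccLimit_omega0)
  have m7 := not_suc_iff.1 hl _ m5
  have m8 : a0 < a0 + ω := lt_add_of_pos_right _ omega0_pos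
  have m9 : In (a0 + ω + 1) (node (leaf a0) z) := by
    simp only [in_node, in_leaf]
    exact ⟨m8.trans (lt_add_one _), m3.mono (m8.le.trans le_self_add)⟩
  have m10 : k ≤ a0 + ω + 1 := m1.trans (m8.le.trans le_self_add)
  obtain ⟨N, n1, n2⟩ := AccSt.acc E _ k t _ hN.2.2.2
    (PT.th_up (KE.s1lt (m7.trans_le hr)) (m10.trans le_self_add) m9)
  obtain ⟨j, hj⟩ := hc _ (max_lt (htl.succ_lt hN.1) (n1.ht_lt htl))
  have n3 : k < f j := (Order.lt_succ k).trans_le ((le_max_left _ _).trans hj)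
  obtain ⟨m, c', n4, n5⟩ := m4 _ (RD.bex IsOp.id.snd ((RD.conv IsOp.id.snd.snd
    (IsOp.id.fst.fst.pair (IsOp.id.fst.snd.fst.snd.pair IsOp.id.snd))).and
    (RD.nm IsOp.id.fst.fst IsOp.id.fst.snd.fst.fst))) (c j)
  have n6 := Hl.par (E := E) (g := k) m9
  have n7 := (((n6.op IsOp.id.fst).add ((hE _ ((m5.trans_le hr).trans (lt_add_one b))).2 m6) m6 m8
    m).pair ((Hl.base m10 m9 (in_of_lv n4 _)).pair (n6.op IsOp.id.snd))).named m10 n3
      ⟨N, (in_ht N).mono ((le_max_right _ _).trans hj), n2⟩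
  refine k2 j (Named.congr' (NamedSt.pre E _ k k _ .id (v j) n3 ((k3 j).ht_le.trans_lt n3) n7
    fun q hq => by simp [hq, k3 j]) fun q hq => ?_)
  simp only [bop_id, snd_node]
  rw [n5 _ (by simp [hq, k3 j])]
  simp only [fst_node, snd_node, leaf.injEq, exists_eq_left']
  refine ⟨fun ⟨n', o1, o2, _, o3⟩ => ?_, fun h => ⟨n j, (k1 j).mono (le_max_right _ _),
    (k5 j).mono (hb j), (k1 j).fst.mono ht, h⟩⟩
  have o4 : In (b + 1) n' := o1.mono ((hy.le.trans hr).trans le_self_add)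
  exact k6 j n' o4 ((ev_iff_conv hk (by
    simp [o4, hp, (k3 j).mono ((hk.le.trans hr).trans le_self_add)])).2 ⟨_, hy, o2⟩) ▸ o3

/-- The theory and its image are unions of few named sets. -/
theorem lift_union (hE : LS E (b + 1)) (h : Cof E b E' b' i) (hN : IsNext E (b + 1) k t)
    (ht : t ≤ b) (hG : Gen E (b + 1) k p) {J : Type*} (f : J → Ordinal.{u}) (hf : ∀ j, f j < t)
    (hc : ∀ a < t, ∃ j, a ≤ f j) : ∃ Z : (J × ℕ) × {c : Tr.{u} | In 0 c} → Tr.{u},
      (∀ j, In t (Z j)) ∧ (∀ q, In k q → (Th E (b + 1) p q ↔ ∃ j, Nm E (Z j) q)) ∧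
      ∀ q, In (i k) q → (Th E' (b' + 1) (p.map i) q ↔ ∃ j, Nm E' ((Z j).map i) q) := by
  obtain ⟨a, h1, h2⟩ := cof_rho hE hN ht hG f hf hc
  have hp := F3.gen_in hG
  have hr := rho_le E b
  have hr' := rho_le E' b'
  have htr : t ≤ rho E b := AccSt.next_card E _ k t hE hN b ht (lt_add_one b)
  have hk := hN.1.trans_le htr
  have hk' := (lt_rho_map h.toStrong (hk.le.trans hr)).2 hk
  have hA : RD.{u} fun c E b x y => y.fst.fst.erase = y.snd.snd ∧
      ∃ a, y.snd.fst = leaf a ∧ Conv E b c (node y.fst.snd x) a :=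
    (RD.eq IsOp.id.fst.fst.fst.erase IsOp.id.fst.snd.snd).and
      (RD.conv IsOp.id.snd.fst (IsOp.id.fst.fst.snd.pair IsOp.id.snd))
  have key : ∀ j : (J × ℕ) × {c : Tr.{u} | In 0 c}, ∃ n, In t n ∧ (∀ q, In k q → (Nm E n q ↔
      q.fst.erase = j.2.1 ∧ Conv E b j.2.1 (node q.snd p) (a j.1))) ∧ ∀ q, In (i k) q →
      (Nm E' (n.map i) q ↔ q.fst.erase = j.2.1 ∧
        Conv E' b' j.2.1 (node q.snd (p.map i)) (i (a j.1))) := by
    rintro ⟨j, c, h3⟩
    have h4 : c.lv = ∅ := erase_eq_self.1 (in_zero.1 h3)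
    obtain ⟨n, h5, h6⟩ := AccSt.acc E _ k t _ hN.2.2.2 (Named.mono' (hA.named hE c hk hp
      (y := node (leaf (a j)) c) (by simp [h1 j, in_of_lv h4])) (hr.trans le_self_add))
    simp only [fst_node, snd_node, leaf.injEq, exists_eq_left'] at h6
    refine ⟨n, h5, h6, fun q hq => ?_⟩
    have h7 := h5.mono htr
    have h8 := (in_rho_map h.toStrong (h7.mono (hr.trans le_self_add))).2 h7
    have := ((RD.ball IsOp.id.fst ((hA.pre (IsOp.id.fst.pair IsOp.id.snd.snd.fst)).iff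
      (RD.nm IsOp.id.fst.snd.snd.snd IsOp.id.fst.fst))).elem h.toStrong c hp
      (y := node (leaf k) (node (node (leaf (a j)) c) n))
      (by simp [hk, h1 j, in_of_lv h4, h7])).2
    simp only [map_node, map_leaf, map_of_lv h4, fst_node, snd_node, leaf.injEq, forall_eq',
      exists_eq_left'] at this
    exact ((this (fun v hv => ((and_iff_right (h7.fst.mono hr)).trans (h6 v hv)).symm) q
      hq).trans (and_iff_right (h8.fst.mono hr'))).symm
  choose Z k1 k2 k3 using key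
  refine ⟨Z, k1, fun q hq => ?_, fun q hq => ?_⟩
  · refine (ev_iff_conv hk (by simp [hp, hq.snd.mono ((hk.le.trans hr).trans le_self_add)])).trans
      ⟨fun ⟨y, m1, m2⟩ => ?_, fun ⟨j, m1⟩ => ?_⟩
    · obtain ⟨j, m3⟩ := h2 y m1
      exact ⟨(j, ⟨q.fst.erase, in_erase _ _⟩), (k2 _ q hq).2 ⟨rfl, conv_erase.2 (m2.mono m3)⟩⟩
    · obtain ⟨m2, m3⟩ := (k2 j q hq).1 m1
      exact ⟨_, h1 _, conv_erase.1 (m2 ▸ m3)⟩
  · refine (ev_iff_conv' h hk (by
      simp [KE.w_in h.toWeak hp, hq.snd.mono ((hk'.le.trans hr').trans le_self_add)])).trans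
      ⟨fun ⟨y, m1, m2⟩ => ?_, fun ⟨j, m1⟩ => ?_⟩
    · obtain ⟨j, m3⟩ := h2 y m1
      exact ⟨(j, ⟨q.fst.erase, in_erase _ _⟩), (k3 _ q hq).2 ⟨rfl, conv_erase.2 (m2.mono
        ((KE.w_le h.toWeak (KE.lt1 (m1.le.trans hr)) (KE.lt1 ((h1 j).le.trans hr))).2 m3))⟩⟩
    · obtain ⟨m2, m3⟩ := (k3 j q hq).1 m1
      exact ⟨_, h1 _, conv_erase.1 (m2 ▸ m3)⟩

/-- Generation goes up along an ultrapower map. -/
theorem gen_ult [UltFactSt.{u}] (h : IsUlt E b k E' i) (hG : Gen E (b + 1) k p) :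
    Gen E' (i b + 1) (i k) (p.map i) := fun x hx => by
  obtain ⟨c, z, a, h1, h2, h3⟩ := ult_tree h hx
  obtain ⟨c0, v, h4, h5⟩ := hG z h1
  have hk := KE.lt1 (h.lt.le.trans (rho_le E b))
  have hp := KE.w_in h.toWeak (F3.gen_in hG)
  have h6 := h.commTop c0 _ (in_of_ev_eq h5)
  rw [h5, map_node] at h6
  exact ((Hl.base (h.maps k hk).le hp h2).pair
    ⟨c0, _, (KE.w_in_iff h.toWeak (h4.mono hk.le) hk).2 h4, h6⟩).app h3

/-- If the theory of a generating parameter is named on all smaller strata, `k` is the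
projectum. -/
theorem rho_eq_of_gen (hG : Gen E d k p) (hk : k ≤ d) (hl : Order.IsSuccLimit k)
    (H : ∀ g < k, Named E d g (Th E d p)) : rho E d = k := by
  refine (F3.gen_rho hG).antisymm (le_of_forall_lt fun g hg => lt_rho_of (hg.trans_le hk)
    fun x hx => ?_)
  obtain ⟨c, v, h1, h2⟩ := hG x hx
  have h3 := max_lt hg (h1.ht_lt hl)
  exact named_down (named_th_val (h3.trans_le hk) ((in_ht v).mono (le_max_right _ _)) h2 (H _ h3))
    (le_max_left _ _)

end Pool.Agent.KM.CU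

namespace Pool.Agent.KM

open Ordinal Cardinal Set Filter Tr CU

universe u

/-- A hull that reflects all properties of small sets of trees. -/
theorem ex_refl {O t : Cardinal.{u}} (hO : O.IsInaccessible) (ht : t.IsRegular) (h0 : ℵ₀ < t)
    (h1 : t < O) {th : Ordinal.{u}} (hth : O.ord ≤ th) {P : Set Ordinal.{u} → Prop}
    (h : ∀ᶠ X in aeF (Reg.of_inacc hO) th, P X) (B : Set Tr.{u} → Ordinal.{u} → Prop) :
    ∃ X e, P X ∧ Cut O X e ∧ e.cof = t ∧ ∀ Z : Set Tr.{u}, #Z < Cardinal.lift.{u + 1} t →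
      (∀ n ∈ Z, n.lv ⊆ X) → (∀ g < e, B Z g) → ∀ g < O.ord, B Z g := by
  have hR := Reg.of_inacc hO
  obtain ⟨C, m, k, g, ct, p⟩ := ae_filtr hR (hR.limit.bot_lt.trans_le hth) h
    (fun i X => insert i ((fun Z => sInf {g | ¬ B Z g}) '' 𝒫 {n : Tr.{u} | n.lv ⊆ X} ∩ Iio O.ord))
    fun i hi X a b => by
      refine ⟨(Sm.of_countable hR (countable_singleton i)).union hR ?_,
        insert_subset (hi.trans_le hth) fun x hx => lt_of_lt_of_le hx.2 hth⟩
      refine ((mk_le_mk_of_subset inter_subset_left).trans mk_image_le).trans_lt ?_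
      rw [mk_powerset]
      refine (fun c hc => ?_ : ∀ c < Cardinal.lift.{u + 1} O, 2 ^ c < Cardinal.lift.{u + 1} O) _ ?_
      · obtain ⟨d, hd, rfl⟩ := Cardinal.lt_lift_iff.1 hc
        simpa using Cardinal.lift_lt.{u, u + 1}.2 (hO.isStrongLimit.isStrongPrelimit hd)
      refine lt_of_le_of_lt ((mk_le_mk_of_subset (t := Tr.map (unc th X) '' {n | In (hb th X) n})
        fun n (hn : n.lv ⊆ X) => ⟨n.map (col th X),
          KE.in_map fun z hz => col_lt_hb (hn hz) (b (hn hz)), ?_⟩).trans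
        mk_image_le) (KL.mk_in_lt hR.unc (hb_lt_ord a))
      rw [Tr.map_map]
      exact map_eq_self fun z hz => unc_col (hn hz)
  obtain ⟨e, a1, -, a2, a3⟩ := (cut_clb hR (fun i hi => (k i hi).1) m
    (fun i hi => ⟨i + 1, hR.limit.add_one_lt hi, g i (Or.inl rfl)⟩) ct).exists_cof ht
    (by rwa [hR.reg.cof_ord]) hR.limit.bot_lt
  have hl : Order.IsSuccLimit e := limit_of_cof (a3 ▸ h0.le)
  refine ⟨C e, e, p e a2 (a3 ▸ h0), a1, a3, fun Z z1 z2 z3 x hx => by_contra fun hb => ?_⟩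
  have z4 : ∀ n : Z, ∃ i < e, n.1.lv ⊆ C i := fun n => by
    choose! w w1 w2 using fun y (hy : y ∈ n.1.lv) => ct e hl y (z2 _ n.2 hy)
    refine ⟨(n.1.map w).ht, (KE.in_map w1).ht_lt hl, fun y hy => m ?_ (w2 y hy)⟩
    exact (in_ht _ _ (lv_map w _ ▸ mem_image_of_mem w hy)).le
  choose w w1 w2 using z4
  obtain ⟨i, i1, i2⟩ := Sm.bdd (O := t) (X := range w) (mk_range_le.trans_lt z1) a3.ge
    (range_subset_iff.2 w1)
  have z5 := csInf_mem (s := {g | ¬ B Z g}) ⟨x, hb⟩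
  have z6 := (csInf_le' (s := {g | ¬ B Z g}) hb).trans_lt hx
  exact z5 (z3 _ ((a1.2 _ z6).1 (m (hl.add_one_lt i1).le (g i (Or.inr ⟨⟨Z, fun n hn =>
    (w2 ⟨n, hn⟩).trans (m (le_of_lt (i2 ⟨_, rfl⟩))), rfl⟩, z6⟩)))))

/-- The property that is reflected. -/
def UnN (E : Seq.{u}) (d : Ordinal.{u}) (Z : Set Tr.{u}) (g : Ordinal.{u}) : Prop :=
  Named E d g fun q => ∃ n ∈ Z, Nm E n q

/-- The lift of a collapsing level along a reflecting hull is a member of the stack. -/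
theorem lift_memb [UltFactSt.{u}] (P : Pa.{u}) {E F : Seq.{u}} {a c e c0 : Ordinal.{u}}
    {s i : Ordinal.{u} → Ordinal.{u}} {t : Cardinal.{u}} {X : Set Ordinal.{u}}
    (hU : IsUlt E a e F i) (hi : ∀ x < c0, i x = s x) (hA : Agree F E c) (hpm : PM F (i a + 1))
    (hii : P.II F (i a)) (hw : Weak E c0 E c s) (hf : ∀ x < e, s x = x) (he : s e = P.Om)
    (hc : P.Om ≤ c) (heO : e < P.Om) (hN : IsNext E (a + 1) e c0) (ha : c0 ≤ a)
    (hL : Lev E (a + 1)) (hr : rho E (a + 1) = e) (h0 : ℵ₀ < t) (hcof : c0.cof < t)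
    (hX : ∀ x < c0, s x ∈ X)
    (hR : ∀ Z : Set Tr.{u}, #Z < Cardinal.lift.{u + 1} t → (∀ n ∈ Z, n.lv ⊆ X) →
      (∀ g < e, UnN E P.Om Z g) → ∀ g < P.Om, UnN E P.Om Z g) : Memb P F (i a) := by
  obtain ⟨p, p1, p2, p3, p4⟩ := hL.1
  replace p2 : ∀ x ∈ p.lv, e ≤ x := hr ▸ p2
  replace p4 : Gen E (a + 1) e p := hr ▸ p4
  have hie : i e = P.Om := (hi e hN.1).trans he
  have hC := UltFactSt.cof hU
  have hea := KE.lt1 (hN.1.le.trans ha)
  obtain ⟨f, -, f1, f2⟩ := exists_cof_seq c0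
  obtain ⟨Z, z1, z2, z3⟩ := lift_union hU.pm.ls hC hN ha p4 (fun j : Iio c0.cof.ord => f j.1)
    (fun j => f1 _ j.2) fun y hy => let ⟨j, h1, h2⟩ := f2 y hy; ⟨⟨j, h1⟩, h2⟩
  have z4 : ∀ j, (Z j).map i = (Z j).map s := fun j => KN.map_eq hi (z1 j)
  have hG := hie ▸ gen_ult hU p4
  have hO : P.Om ≤ i a := hie ▸ KE.le1 (hU.maps e hea)
  have key := hR (range fun j => (Z j).map s) (mk_range_le.trans_lt ?_) ?_ fun g hg => ?_
  · have hrho : rho F (i a + 1) = P.Om := rho_eq_of_gen hG (hO.trans le_self_add) P.reg.limit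
      fun g hg => by
        refine Named.congr' (Named.mono' (named_agree (key g hg) fun v hv =>
          (hA v (hv.trans_le hc)).symm) (hO.trans le_self_add)) fun q hq => ?_
        rw [z3 q (hie ▸ hq.mono hg.le), exists_range_iff]
        exact exists_congr fun j => z4 j ▸ (KN.anm hA (z4 j ▸ KE.w_in hw (z1 j))).symm
    refine ⟨hpm, hii, hO, ⟨⟨p.map i, KE.w_in hU.toWeak p1, fun y hy => ?_,
      solid_map hU.pm.ls hU.pm'.ls hC p1 p3, (hrho ▸ hG : Gen F _ (rho F _) _)⟩, fun h => absurd (suc_succ _) h⟩, hrho.le⟩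
    rw [lv_map] at hy
    obtain ⟨x, hx, rfl⟩ := hy
    exact (hrho.trans hie.symm).le.trans ((KE.w_le hU.toWeak hea (p1 x hx)).2 (p2 x hx))
  · have h1 : ℵ₀ < Cardinal.lift.{u + 1} t := by simpa using h0
    simp only [mk_prod, Cardinal.lift_id, Cardinal.lift_uzero, mk_nat, lift_aleph0]
    refine mul_lt_of_lt h1.le (mul_lt_of_lt h1.le ?_ h1) (KL.mk_erased.trans_lt h1)
    rwa [Cardinal.mk_Iio_ordinal, Cardinal.lift_lt, card_ord]
  · rintro _ ⟨j, rfl⟩ y hy
    rw [lv_map] at hy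
    obtain ⟨x, hx, rfl⟩ := hy
    exact hX x (z1 j x hx)
  · refine Named.congr' (Named.mono' (AccSt.room E (a + 1) g _ hU.pm.ls (hr ▸ hg) (Named.mono'
      (F3.named_of_lt (hr ▸ hg) p1) le_self_add)) (hr ▸ heO.le)) fun q hq => ?_
    have hq' := hq.mono hg.le
    rw [z2 q hq', exists_range_iff]
    refine exists_congr fun j => ?_
    have := KN.wnm hw (z1 j) (hq'.mono hN.1.le)
    rw [map_fix hf hq'] at this
    exact this.symm

end Pool.Agent.KM
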