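import Pool.Agent.Lib.MP_5c0be7_lc.T.Hull
import Pool.Agent.Lib.MP_5c0be7_lc.T.St
import Pool.Agent.Lib.MP_5c0be7_lc.P.Phx
import Pool.Agent.Lib.MP_5c0be7_lc.O.F3b

/-! Project KM, block T: mice that project to a limit cardinal reflect to their own levels. -/

set_option linter.unusedSectionVars false

namespace Pool.Agent.KM

open Ordinal Cardinal Set Filter Order Tr

universe u

namespace Refl

/-- An uncountable initial ordinal. -/
def UC (e : Ordinal.{u}) : Prop := ℵ₀ < e.card ∧ e.card.ord = e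

/-- A limit of uncountable initial ordinals. -/
def LC (e : Ordinal.{u}) : Prop := 0 < e ∧ Unb {a | UC a} e

section

variable {E E' R R' : Seq.{u}} {a b d e k r r' t v th : Ordinal.{u}} {O : Cardinal.{u}}
  {X : Set Ordinal.{u}} {C : Cfg.{u}}

theorem uc_ord (h : ℵ₀ < O) : UC O.ord := ⟨by simpa using h, by simp⟩

theorem UC.card (h : UC e) (l : LS E d) : IsCard E d e := fun a h1 h2 => not_lt.1 fun c =>
  (KL.lev_lt h.1 (l a h2) (h.2.symm ▸ c)).not_ge (h.2.symm ▸ h1)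

theorem UC.omega_lt (h : UC e) : ω < e := by
  rw [← h.2, lt_ord]; simpa using h.1

theorem LC.uc (h : LC e) : UC e := by
  obtain ⟨a, ha, -, h1⟩ := h.2 0 h.1
  refine ⟨ha.1.trans_le (card_le_card h1.le), le_antisymm (ord_card_le e) (not_lt.1 fun c => ?_)⟩
  obtain ⟨x, hx, h2, h3⟩ := h.2 _ c
  rw [← hx.2, ord_lt_ord] at h2
  exact h2.not_ge (card_le_card h3.le)

theorem LC.limit (h : LC e) : IsSuccLimit e := h.2.limit h.1

theorem lc_ord (hO : O.IsInaccessible) : LC O.ord := by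
  have hl := (Reg.of_inacc hO).limit
  refine ⟨hl.bot_lt, fun a ha => ⟨(succ (max a.card ℵ₀)).ord,
    uc_ord (lt_succ_of_le (le_max_right _ _)), lt_ord.2 (lt_succ_of_le (le_max_left _ _)),
    ord_lt_ord.2 (hO.isStrongLimit.isSuccLimit.succ_lt (max_lt (lt_ord.1 ha) hO.aleph0_lt))⟩⟩

/-- A limit cardinal is not a successor cardinal of a hierarchy. -/
theorem LC.not_top (h : LC e) (l : LS E e) (hk : k < e) : ¬ TopC E k e := fun c => by
  obtain ⟨x, hx, h1, h2⟩ := h.2 k hk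
  obtain ⟨a, h3, h4, h5⟩ := c x h2
  exact (h1.trans_le (hx.card l a h3 h4)).not_ge h5

theorem ae_lc (hO : Reg O) (hL : LC O.ord) (hth : O.ord ≤ th) :
    ∀ᶠ X in aeF hO th, ∀ e, Cut O X e → LC e := ae_cut_unb hO hth hL.2

theorem ae_mem' (hO : Reg O) (x : Ordinal.{u}) : ∀ᶠ X in aeF hO th, x ∈ X ∪ Ici th := by
  rcases lt_or_ge x th with h | h
  · filter_upwards [ae_mem hO h] with X c using Or.inl c
  · exact Eventually.of_forall fun _ => Or.inr h

/-- The cut and the supremum below `d` can be given cofinality `t`, the latter in a fat set. -/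
theorem ex_sup_fat (hO : Reg O) {t : Cardinal.{u}} (ht : t.IsRegular) (h0 : ℵ₀ < t) (h1 : t < O)
    (hd : d ≤ th) (hc : O ≤ d.cof) {G : Set Ordinal.{u}} (hG : Fat t d G)
    {P : Set Ordinal.{u} → Prop} (h : ∀ᶠ X in aeF hO th, P X) :
    ∃ X e b, P X ∧ Cut O X e ∧ e.cof = t ∧ b ∈ G ∧ b < d ∧ b.cof = t ∧ Unb X b ∧
      ∀ x ∈ X, x < d → x < b := by
  obtain ⟨D, hD, hG⟩ := hG
  have hl := limit_of_cof (hO.unc.le.trans hc)
  have hth := (ord_le_of_cof hc).trans hd
  have sm : ∀ {X : Set Ordinal.{u}}, Sm O X → Sm O (X ∩ Iio d) := fun h => h.mono inter_subset_left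
  obtain ⟨C, m, k, g, ct, p⟩ := ae_filtr hO (hl.bot_lt.trans_le hd)
    (h.and (ae_wit hO (R := fun a b => b ∈ D ∧ a < b ∧ b < d)))
    (fun i X => {i, sSup (X ∩ Iio d) + 1})
    fun i hi X a _ => ⟨Sm.of_countable hO (Set.toFinite _).countable,
      insert_subset (hi.trans_le hth) (singleton_subset_iff.2
        ((hl.add_one_lt ((sm a).sSup_lt hc inter_subset_right)).trans_le hd))⟩
  obtain ⟨e, he, -, heO, het⟩ := (cut_clb hO (fun i hi => (k i hi).1) m
    (fun i hi => ⟨i + 1, hO.limit.add_one_lt hi, g i (Or.inl rfl)⟩) ct).exists_cof ht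
    (by rwa [hO.reg.cof_ord]) hO.limit.bot_lt
  have el : IsSuccLimit e := limit_of_cof (het ▸ h0.le)
  obtain ⟨p1, p2⟩ := p e heO (het ▸ h0)
  have bd := (sm (k e heO).1).bddAbove
  have lt := (sm (k e heO).1).sSup_lt hc inter_subset_right
  have cm : CofMap (fun i => sSup (C i ∩ Iio d)) e (sSup (C e ∩ Iio d)) := by
    refine ⟨fun a b hab hb => csSup_le_csSup' (sm (k b (hb.trans heO)).1).bddAbove
      (inter_subset_inter_left _ (m hab)), fun a ha => ?_, fun y hy => ?_⟩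
    · exact (lt_add_one _).trans_le (le_csSup bd ⟨m (el.add_one_lt ha).le (g a (Or.inr rfl)),
        hl.add_one_lt ((sm (k a (ha.trans heO)).1).sSup_lt hc inter_subset_right)⟩)
    · obtain ⟨x, hx, hyx⟩ := (lt_csSup_iff' bd).1 hy
      obtain ⟨i, hi, hx'⟩ := ct e el x hx.1
      exact ⟨i, hi, hyx.trans_le (le_csSup (sm (k i (hi.trans heO)).1).bddAbove ⟨hx', hx.2⟩)⟩
  have key : ∀ x ∈ C e, x < d → ∃ y ∈ D ∩ C e, x < y ∧ y < d := fun x hx hx' => by
    obtain ⟨y, y1, y2, y3⟩ := hD x hx'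
    obtain ⟨y, y0, y1, y2, y3⟩ := p2 x hx ⟨y, y3.trans_le hd, y1, y2, y3⟩
    exact ⟨y, ⟨y1, y0⟩, y2, y3⟩
  have lt' : ∀ x ∈ C e, x < d → x < sSup (C e ∩ Iio d) := fun x hx hx' =>
    let ⟨_, y1, y2, y3⟩ := key x hx hx'; y2.trans_le (le_csSup bd ⟨y1.2, y3⟩)
  have ub : Unb (D ∩ C e) (sSup (C e ∩ Iio d)) := fun a ha => by
    obtain ⟨x, hx, hax⟩ := (lt_csSup_iff' bd).1 ha
    obtain ⟨y, y1, y2, y3⟩ := key x hx.1 hx.2
    exact ⟨y, y1, hax.trans y2, lt' y y1.2 y3⟩
  have cf := cm.cof_eq.symm.trans het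
  exact ⟨C e, e, _, p1, he, het, hG _ lt cf (ub.mono inter_subset_left), lt, cf,
    ub.mono inter_subset_right, lt'⟩

/-- An index of large cofinality below which `O` is the largest cardinal is passive. -/
theorem pas_of_cof [ActSt.{u}] (hE : PM0 E (v + 1)) (hT : TopC E O.ord v) (hc : O ≤ v.cof) :
    Pas E v := by
  refine (hE.act v (lt_add_one v)).resolve_right fun ⟨k, t, e, A⟩ => ?_
  have l : LS E v := hE.ls.mono le_self_add
  obtain ⟨a, h1, h2, h3⟩ := hT _ (A.weak.maps k A.lt)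
  have h4 : t < O.ord := (ActSt.lt l A).trans_le ((ActSt.card l A a h1 h2).trans h3)
  have cm : CofMap e t v := ⟨fun a b hab hb => (KE.w_le A.weak (hab.trans_lt hb) hb).2 hab,
    A.weak.maps, A.cof⟩
  exact ((cof_le_card t).trans_lt (lt_ord.1 h4)).not_ge (cm.cof_eq ▸ hc)

end

section

variable {E E' F F' : Seq.{u}} {a b b' c d e k r r' t v th : Ordinal.{u}}
  {X : Set Ordinal.{u}} {P : Pa.{u}}

theorem cutPt_zero (E : Seq.{u}) (b : Ordinal.{u}) : CutPt E b 0 := fun _ _ _ _ _ _ _ => zero_le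

theorem lc_om (P : Pa.{u}) : LC P.Om := lc_ord P.hO

theorem memb_ls (h : Memb P F b) : LS F (b + 1 + 1) := fun a ha =>
  (KE.le1 ha).eq_or_lt.elim (fun e => e ▸ h.lev) (h.pm.ls a)

theorem memb_rho (h : Memb P F b) : rho F (b + 1) = P.Om :=
  le_antisymm h.proj ((lc_om P).uc.card (memb_ls h) _ (h.le.trans le_self_add) (lt_add_one _))

/-- Above a limit `d` of levels that project to `k` there is a successor level. -/
theorem top_succ (h : TopC E k d) (l : LS E d) (hd : IsSuccLimit d) (hk : k < d) (ha : a < d) :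
    ∃ c, a ≤ c ∧ k ≤ c ∧ c + 1 < d ∧ rho E (c + 1) ≤ k := by
  obtain ⟨x, h1, h2, h3⟩ := h _ (hd.add_one_lt (max_lt ha hk))
  have h4 := add_one_le_iff.1 h1
  obtain ⟨c, rfl⟩ := KL.suc_of_rho (l x h2) (h3.trans_lt ((le_max_right _ _).trans_lt h4))
  exact ⟨c, (le_max_left _ _).trans (KE.le1 h4), (le_max_right _ _).trans (KE.le1 h4), h2, h3⟩

theorem stk_limit (h : Stk P E c) : IsSuccLimit c :=
  limit_of_not_suc h.lim (pos_of_gt h.lt).ne'

/-- The members are cofinal in a stack. -/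
theorem stk_memb (h : Stk P E c) (ha : a < c) : ∃ x, a ≤ x ∧ x + 1 < c ∧ Memb P E x :=
  let ⟨x, h1, h2, h3, h4⟩ := top_succ h.top h.pm.ls (stk_limit h) h.lt ha
  ⟨x, h1, h3, KE.pm_mono h.pm h3.le, h.ii x ((lt_add_one x).trans h3), h2, h.pm.ls _ h3, h4⟩

variable [CondSt.{u}] [CndSt.{u}]

/-- The collapse of a hull of a member is one of its levels. -/
theorem hl_agree (h : Memb P F b) (hb : b < th) (H : Hl F b X) (hc : Cut P.O X e) (hU : UC e) :
    Agree (pull (unc th X) F) F (col th X b + 1) := by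
  have hth : P.O.ord ≤ th := h.le.trans hb.le
  obtain ⟨-, h1, h2⟩ := H.pull hb h.pm.toPM0
  have h3 := H.rho_eq hb h.pm.toPM0 h.lev
  rw [memb_rho h, Pa.Om, hc.col_ord hth] at h3
  exact (CndSt.cond (h2 h.pm) (H.lev hb h.pm.toPM0 h.lev) h.pm h.ii (cutPt_zero _ _) h1 h3.le
    ((hc.col_ord hth).ge.trans (col_mono h.le)) zero_le (fun _ => hc.unc_fix)
    (hc.1.trans_le (hc.le_unc hth)) (hU.card h.pm.ls) (hc.1.trans_eq (memb_rho h).symm)).2

theorem memb (h : Memb P F b) (hb : b < th) : ∀ᶠ X in P.ae th, ∀ e, Cut P.O X e →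
    unc th X e = P.Om ∧ unc th X (col th X b) = b ∧ col th X b + 1 < P.Om ∧
    Strong F (col th X b + 1) F (b + 1) (unc th X) ∧ rho F (col th X b + 1) = e ∧
    (pp F (col th X b + 1)).map (unc th X) = pp F (b + 1) := by
  have hth : P.O.ord ≤ th := h.le.trans hb.le
  filter_upwards [ae_hl P.reg F hb, ae_lc P.reg (lc_om P) hth, ae_mem' P.reg P.Om, ae_basic P.reg]
    with X H hL m ⟨sm, _, _⟩ e hc
  have ag := hl_agree h hb H hc (hL e hc).uc
  have h3 := H.rho_eq hb h.pm.toPM0 h.lev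
  rw [memb_rho h, Pa.Om, hc.col_ord hth] at h3
  refine ⟨hc.unc_cut hth m, unc_col H.mem,
    P.reg.limit.add_one_lt (col_lt_ord hb.le (sm.mono inter_subset_left)),
    KL.strong_left ag (H.pull hb h.pm.toPM0).2.1, (KL.rho_suc ag).symm.trans h3, ?_⟩
  rw [← H.pp_eq hb h.pm.toPM0 h.lev]
  exact congrArg _ (ppL_congr (KL.ev_suc ag)).symm

theorem lin (h : Memb P F b) (h' : Memb P F' b') (ag : Agree F F' P.Om) (hb : b ≤ b') :
    Agree F F' (b + 1) := by
  intro v hv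
  funext x y
  have h1 : b' < b' + 1 := lt_add_one _
  have h2 := hb.trans_lt h1
  have hth : P.O.ord ≤ b' + 1 := h'.le.trans h1.le
  obtain ⟨X, e, ⟨⟨⟨⟨⟨⟨H, H'⟩, hL⟩, mv⟩, mx⟩, my⟩, sm, -⟩, hc, -⟩ :=
    ex_cof P.reg P.ht (aleph0_lt_aleph_one.trans P.h1) P.h2 hth
      (((((((ae_hl P.reg F h2).and (ae_hl P.reg F' h1)).and (ae_lc P.reg (lc_om P) hth)).and
        (ae_mem' P.reg v)).and (ae_mem' P.reg x)).and (ae_mem' P.reg y)).and (ae_basic P.reg))
  have h3 := col_mono (th := b' + 1) (X := X) (KE.le1 hv)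
  have e1 := hl_agree h h2 H hc (hL e hc).uc _ (KE.lt1 h3)
  have e2 := hl_agree h' h1 H' hc (hL e hc).uc _ (KE.lt1 (h3.trans (col_mono hb)))
  have e3 := ag _ (h3.trans_lt (col_lt_ord h2.le (sm.mono inter_subset_left)))
  have := congrFun (congrFun (e1.trans (e3.trans e2.symm)) (col (b' + 1) X x)) (col (b' + 1) X y)
  simpa only [pull, unc_col' mv, unc_col' mx, unc_col' my] using this

variable [ActSt.{u}] [FragSt.{u}]

omit [CondSt.{u}] [CndSt.{u}] in
/-- A proper limit of levels that project to an initial ordinal is passive. -/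
theorem pas_of_top (hE : PM E d) (hv : v + 1 < d) (hU : UC e) (he : e < v) (hT : TopC E e v) :
    Pas E v := by
  refine (hE.act v ((lt_add_one v).trans hv)).resolve_right fun ⟨k, t, g, A⟩ => ?_
  have l : LS E v := hE.ls.mono ((lt_add_one v).trans hv).le
  have h0 := KE.pm_mono hE (add_one_le_iff.2 hv)
  obtain ⟨a, h1, h2, h3⟩ := hT _ (A.weak.maps k A.lt)
  obtain ⟨a', h4, h5, h6⟩ := ActSt.top l A e he
  exact Phx.nocard h0 (lt_add_one v) A (le_antisymm ((hU.card l a' h4 h5).trans h6)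
    ((ActSt.card l A a h1 h2).trans h3) ▸ hU.card h0.ls)

theorem stk [TypeSt.{u}] (h : Stk P E c) (hc : c ≤ th) : ∀ᶠ X in P.ae th, ∀ e, Cut P.O X e →
    unc th X e = P.Om ∧ col th X c < P.Om ∧ ¬ Suc (col th X c) ∧ Pas E (col th X c) ∧
    e < col th X c ∧ TopC E e (col th X c) ∧ Weak E (col th X c) E c (unc th X) ∧
    OC E E e (col th X c) (unc th X) := by
  have hth : P.O.ord ≤ th := h.lt.le.trans hc
  have hl := stk_limit h
  filter_upwards [ae_lc P.reg (lc_om P) hth, ae_mem' P.reg P.Om, ae_basic P.reg,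
    ae_wit P.reg (R := fun a x => a < x ∧ x + 1 < c ∧ Memb P E x),
    ae_diag P.reg (P := fun x X => Memb P E x → ∀ e, Cut P.O X e → _) fun x hx => by
      by_cases m : Memb P E x
      · filter_upwards [memb m hx] with X c _ using c
      · exact Eventually.of_forall fun _ c => absurd c m,
    TypeSt.ae P.reg (I := ULift.{u + 1} Bool) (mk_le_aleph0.trans_lt P.reg.lift.unc)
      fun i q => cond i.down (Nm E q.fst q.snd) (q.lab < P.Om)]
    with X hL m ⟨sm, _, _⟩ w rf ty e he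
  have e1 := he.unc_cut hth m
  have key : ∀ a < col th X c, ∃ x, a < col th X x ∧ col th X x < col th X c ∧ x + 1 < c ∧
      Strong E (col th X x + 1) E (x + 1) (unc th X) ∧ rho E (col th X x + 1) = e := fun a ha => by
    have h1 := lt_col_iff.1 ha
    obtain ⟨x, x1, x2, x3⟩ := stk_memb h (hl.add_one_lt h1)
    obtain ⟨x, x0, x1, x2, x3⟩ := w _ (unc_mem (ha.trans_le (col_mono hc)))
      ⟨x, ((lt_add_one x).trans x2).trans_le hc, add_one_le_iff.1 x1, x2, x3⟩
    obtain ⟨-, -, -, x4, x5, -⟩ := rf x x0 x3 e he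
    exact ⟨x, lt_col_iff.2 x1, (col_lt_col_iff x0).2 ((lt_add_one x).trans x2), x2, x4, x5⟩
  have ns : ¬ Suc (col th X c) := fun ⟨a, ha⟩ =>
    let ⟨_, x1, x2, _⟩ := key a (ha ▸ lt_add_one a); x1.not_ge (KE.le1 (ha ▸ x2))
  have lt : col th X c < P.Om := col_lt_ord hc (sm.mono inter_subset_left)
  have el : e < col th X c := lt_col_iff.2 (e1 ▸ h.lt)
  have tp : TopC E e (col th X c) := fun a ha =>
    let ⟨_, x1, x2, _, _, x5⟩ := key a ha
    ⟨_, x1.le.trans le_self_add, not_suc_iff.1 ns _ x2, x5.le⟩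
  have wk : Weak E (col th X c) E c (unc th X) := ⟨unc_strictMono.strictMonoOn _,
    fun _ => lt_col_iff.1, fun b hb => absurd ⟨b, hb⟩ ns, fun a ha =>
      let ⟨_, x1, _, _, x4, _⟩ := key a ha; x4.comm a (KE.lt1 x1.le)⟩
  refine ⟨e1, lt, ns, pas_of_top h.pm ((P.reg.limit.add_one_lt lt).trans h.lt) (hL e he).uc el tp,
    el, tp, wk, fun Z hZ => ?_⟩
  obtain ⟨r, r1, r2, r3⟩ := ty (Z ∩ Iio P.Om ∪ unc th X '' (Z ∩ Iio (col th X c)))
    ((hZ.mono inter_subset_left).union ((hZ.mono inter_subset_left).image _))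
    (union_subset (fun z hz => lt_of_lt_of_le hz.2 hth)
      (image_subset_iff.2 fun z hz => (lt_col_iff.1 hz.2).trans_le hc)) univ countable_univ
  have r4 : ∀ z ∈ Z, z < unc th X e → r z < e := fun z hz hz' => by
    rw [e1] at hz'
    have := (r3 ⟨false⟩ trivial (leaf z) (singleton_subset_iff.2 (Or.inl ⟨hz, hz'⟩))).1 hz'
    exact (he.2 _ this).1 (r1 z (Or.inl ⟨hz, hz'⟩))
  refine ⟨r, r4, fun n a n1 n2 a1 a2 => ?_⟩
  have n3 : (n.map (unc th X)).lv ⊆ unc th X '' (Z ∩ Iio (col th X c)) := by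
    rw [lv_map]; exact image_mono fun z hz => ⟨n1 hz, n2 z hz⟩
  have a3 : In e (a.map r) := KE.in_map fun z hz => r4 z (a1 hz) (a2 z hz)
  have h1 := r3 ⟨true⟩ trivial (node (n.map (unc th X)) a) (union_subset
    (n3.trans subset_union_right) fun z hz => Or.inl ⟨a1 hz, (a2 z hz).trans_eq e1⟩)
  have h2 : (n.map (unc th X)).map r = n.map (unc th X) := map_eq_self fun z hz => by
    obtain ⟨y, y1, rfl⟩ := n3 hz
    exact r2 _ (Or.inr ⟨y, y1, rfl⟩) (unc_mem (lt_of_lt_of_le y1.2 (col_mono hc)))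
  simp only [cond_true, map_node, fst_node, snd_node, h2] at h1
  rw [h1, ← KN.wnm wk n2 (a3.mono el.le), map_eq_self (t := a.map r)
    fun z hz => he.unc_fix (a3 z hz)]

end

end Refl

instance [CondSt.{u}] [CndSt.{u}] [ActSt.{u}] [FragSt.{u}] [TypeSt.{u}] : ReflSt.{u} :=
  ⟨fun _ _ _ _ => Refl.memb, fun _ _ _ _ => Refl.stk, fun _ _ _ _ _ => Refl.lin⟩

end Pool.Agent.KM
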