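import Pool.Agent.Lib.MP_5c0be7_lc.T.StS3
import Pool.Agent.Lib.MP_5c0be7_lc.T.Tame
import Pool.Agent.Lib.MP_5c0be7_lc.T.Refl
import Pool.Agent.Lib.MP_5c0be7_lc.T.GoodTh
import Pool.Agent.Lib.MP_5c0be7_lc.T.LiftRho
import Pool.Agent.Lib.MP_5c0be7_lc.C.Easy
import Pool.Agent.Lib.MP_5c0be7_lc.P.Th

/-! Project KM, block T: the lift of a collapsed member of the stack is a member. -/

set_option linter.unusedSectionVars false

namespace Pool.Agent.KM

open Ordinal Cardinal Set Filter Order Tr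

universe u

namespace S3Ref

variable {E E' F : Seq.{u}} {a b c d e k r t th th' : Ordinal.{u}} {P : Pa.{u}}
  {s : Ordinal.{u} → Ordinal.{u}}

theorem s_par (h : Strong E (b + 1) E' (c + 1) s) : par E' c = (par E b).map s := by
  have := h.commTop parc .nil (in_nil _)
  rw [map_nil, ev_parc (in_nil _), ev_parc (in_nil _)] at this
  exact Option.some.inj this

theorem mid (w : Tr.{u}) : w.map id = w := map_eq_self fun _ _ => rfl

theorem noProj_up (h : Good E b E' s) (hk : k < t) (ht : t ≤ b) (hn : NoProj E k t (b + 1)) :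
    NoProj E' (s k) (s t) (s b + 1) := by
  intro a h1 h2
  rcases (KE.le1 h2).eq_or_lt with rfl | h2
  · exact h.proj k (hn b ht (lt_add_one b))
  have h3 : t < b := (KE.w_lt h.toWeak (KE.lt1 ht) (lt_add_one b)).1 (h1.trans_lt h2)
  have h4 : k + 1 < b := (add_one_le_iff.2 hk).trans_lt h3
  exact (h.mono (KE.lt1 (hk.le.trans ht)) (KE.lt1 h4.le) (lt_add_one k)).trans_le
    (h.card (k + 1) t h4 h3 (fun x x1 x2 => add_one_le_iff.2 (hn x x1 (KE.lt1 x2.le))) a h1 h2)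

variable [KIISt.{u}] [UltSt.{u}] [UltFactSt.{u}] [RealSt.{u}] [RealWfSt.{u}] [PresSt.{u}]

/-- The lift of the level `a + 1` of a member along the part below `c` of a strong map into
the top level. -/
theorem lift (h : Memb P F r) (ha : a + 1 < P.Om) (hs : Strong F (a + 1) F (r + 1) s)
    (hr : rho F (a + 1) = e) (hp : (pp F (a + 1)).map s = pp F (r + 1)) (hL : Refl.LC e)
    (hf : ∀ x < e, s x = x) (he : s e = P.Om) (hec : e < c) (hc : c ≤ a) (ns : ¬ Suc c)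
    (pas : Pas F c) (top : TopC F e c) (np : NoProj F e c (a + 1)) (hd : d ≤ r)
    (h1 : ∀ x < c, s x < d) (h2 : ∀ y < d, ∃ x < c, y < s x) :
    ∃ G b k, Memb P G b ∧ Agree G F d ∧ d ≤ b ∧ NoProj G P.Om d (b + 1) ∧ Good G b F k ∧
      k b = r ∧ (∀ z ≤ P.Om, k z = z) ∧ (∀ x < c, k (s x) = s x) ∧
      (pp G (b + 1)).map k = pp F (r + 1) ∧ ∀ q v, In e v →
        ev F (r + 1) q (node v (pp F (r + 1))) =
          (ev G (b + 1) q (node v (pp G (b + 1)))).map (Tr.map k) := by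
  have har : a + 1 < r + 1 := KE.lt1 (ha.le.trans h.le)
  have pa := KE.pm_mono h.pm har.le
  have gs := TB.strong_good pa.toPM0 h.pm.toPM0 hs
  have sa : s a = r := TB.top_eq hs.toWeak
  have ex : Ext F e c F d s := ⟨hL.uc.omega_lt.le, hec, ⟨hs.mono.mono fun x hx =>
    KE.lt1 ((le_of_lt hx).trans hc), h1, fun b hb => absurd ⟨b, hb⟩ ns,
      fun x hx => hs.comm x (KE.lt1 (hx.le.trans hc))⟩, h2, top,
    fun x x1 x2 => hL.uc.card pa.ls x x1 (KE.lt1 (x2.le.trans hc))⟩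
  have er := np a hc (lt_add_one a)
  obtain ⟨G, i, U, i1, i2, ag, pm⟩ := UltSt.ult pa.toPM0
    (KE.pm0_mono h.pm.toPM0 (hd.trans le_self_add)) ex hc np
    (fun k0 t0 g A => ⟨fun h3 y hy => by
      rcases h3.eq_or_lt with rfl | h3
      · exact absurd A.top (hL.not_top (pa.ls.mono ((hec.le.trans hc).trans le_self_add)) A.lt)
      · rw [hf _ h3] at hy
        have h4 := not_suc_iff.1 (KL.ext_lim A.toExt) y hy
        exact ⟨y + 1, h4, (lt_add_one y).trans_eq (hf _ (h4.trans h3)).symm⟩,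
      fun h3 => absurd (h3 ▸ pas) (KL.act_not_pas A)⟩)
    (RealWfSt.wf gs pa.ls er (hc.trans le_self_add)
      fun Z _ => ⟨id, fun _ _ x => x, fun n w _ _ _ _ x => (mid w).symm ▸ x⟩)
  have pm := pm pa
  have ie : i e = P.Om := (i1 e hec).trans he
  have lt : ∀ z < i e, id z < s e := fun z hz => i1 e hec ▸ hz
  obtain ⟨k, gk, k1, k2⟩ := RealSt.real U gs (sa.symm ▸ h.pm.toPM0) lt
    (RealSt.thread U gs hc np lt fun n w hn _ => by
      rw [KN.map_eq i1 hn, KN.anm ag (KN.in_map' h1 hn), mid])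
  have ka : k (i a) = r := (k1 a le_rfl).trans sa
  have gi := TB.strong_good pa.toPM0 pm.toPM0 U.toStrong
  have ea : e ≤ a := hec.le.trans hc
  have mo : ∀ {x y}, x ≤ y → y ≤ a → i x ≤ i y := fun x y =>
    (KE.w_le U.toWeak (KE.lt1 (x.trans y)) (KE.lt1 y)).2 x
  have ki : ∀ {w : Tr.{u}}, In (a + 1) w → (w.map i).map k = w.map s := fun hw => by
    rw [Tr.map_map]; exact map_congr fun z hz => k1 z (KE.le1 (hw z hz))
  have ss := ss_pp (h.pm.ls _ har).1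
  have oi : P.Om ≤ i a := ie ▸ mo ea le_rfl
  have od : P.Om < d := he ▸ h1 e hec
  have pre : PreM P G (i a) ((pp F (a + 1)).map i) := ⟨pm,
    KIISt.pre (ka.symm ▸ h.ii) gk fun _ _ _ => zero_le, oi, KE.w_in U.toWeak ss.1,
    CU.solid_map pa.ls pm.ls (UltFactSt.cof U) ss.1 ss.2.2.1, fun z hz => by
      obtain ⟨y, y1, rfl⟩ : z ∈ i '' _ := lv_map _ _ ▸ hz
      exact ie ▸ mo (hr ▸ ss.2.1 y y1) (KE.le1 (ss.1 y y1)),
    ie ▸ CU.gen_ult U (hr ▸ ss.2.2.2)⟩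
  have rh : P.Om ≤ rho G (i a + 1) := le_of_forall_lt fun g hg =>
    CU.lt_rho_of (KE.lt1 (hg.le.trans oi)) fun x hx => by
      have := good_named gk pm.ls (ka.symm ▸ h.pm.ls)
        (by rw [ka, s_par hs, s_par U.toStrong, ki ((DiagSt.par_in F a).mono le_self_add)])
        (pos_of_gt (gi.proj e er)) hx (hg.le.trans oi)
        (fun z hz => k2 z (ie ▸ hz.trans hg)) (by rw [ka, Refl.memb_rho h]; exact hg)
      exact CU.Named.mono' (PT.named_ag (KL.ag_mono (KL.ag_symm ag) od.le) (AccSt.acc_card _ _ _ _ _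
        (TB.isCard_Om P (ka.symm ▸ h.pm.ls)) hg this)) (oi.trans le_self_add)
  have mb := PreM.memb pre rh
  have pe : pp G (i a + 1) = (pp F (a + 1)).map i := F3.ss_unique (ss_pp mb.lev.1)
    ⟨pre.mem, fun z hz => mb.proj.trans (pre.ge z hz), pre.solid,
      show Gen G _ (rho G _) _ from (Refl.memb_rho mb).symm ▸ pre.gen⟩
  refine ⟨G, i a, k, mb, ag, i2 ▸ mo hc le_rfl, ie ▸ i2 ▸ noProj_up gi hec hc np, gk, ka,
    fun z hz => hz.eq_or_lt.elim (fun x => by rw [x, ← ie, k1 e ea, i1 e hec])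
      fun x => k2 z (ie ▸ x), fun x hx => by rw [← i1 x hx, k1 x (hx.le.trans hc), i1 x hx],
    by rw [pe, ki ss.1, hp], fun q v hv => ?_⟩
  have iv : In (a + 1) (node v (pp F (a + 1))) :=
    (in_node _ _ _).2 ⟨hv.mono (ea.trans le_self_add), ss.1⟩
  have e1 := hs.commTop q _ iv
  have e2 := U.commTop q _ iv
  rw [map_node, hp, PT.map_fix hf hv] at e1
  rw [map_node, ← pe, PT.map_fix (fun z hz => (i1 z (hz.trans hec)).trans (hf z hz)) hv] at e2
  rw [e1, e2]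
  cases hw : ev F (a + 1) q (node v (pp F (a + 1))) with
  | none => rfl
  | some w => exact congrArg some (ki (ev_in hw)).symm

variable [ReflSt.{u}]

theorem ref {x y : Ordinal.{u}} (hE : Tall P E th) (hE' : Tall P E' th') (hs : Tame P E th E' th' s)
    (h : Memb P F r) (ag : Agree F E' th') (hr : th' ≤ r) (np : NoProj F P.Om th' (r + 1))
    (hx : x < P.Om) (hy : y < th) :
    ∃ (b : Ordinal.{u}) (k : Ordinal.{u} → Ordinal.{u}), P.Om ≤ b ∧ y ≤ b ∧ b < th ∧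
      rho E (b + 1) ≤ P.Om ∧ Good E' (s b) F k ∧ k (s b) = r ∧ (∀ z ≤ P.Om, k z = z) ∧
      k (s y) = s y ∧ (pp E' (s b + 1)).map k = pp F (r + 1) ∧
      ∀ c v, In x v → ev F (r + 1) c (node v (pp F (r + 1))) =
        (ev E' (s b + 1) c (node v (pp E' (s b + 1)))).map (Tr.map k) := by
  have hr' : th' ≤ r + 1 := hr.trans le_self_add
  have cm := Tame.cof2 hs
  have sy := cm.maps y hy
  have sk : Stk P F th' := ⟨KE.pm_mono h.pm hr', fun c hc => TB.ii_lev h.ii h.pm.toPM0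
    (hc.le.trans hr), hE'.lt, Tall.not_suc hE', KL.topC_ag (KL.ag_symm ag) hE'.top⟩
  have om := hE'.lt.trans_le hr'
  obtain ⟨X, e, -, ⟨⟨⟨⟨⟨⟨m1, m2⟩, m3⟩, m4⟩, m5⟩, m6⟩, m7⟩, he, -, ⟨b0, -, b1, b2, rfl⟩, b3, -, b4, b5⟩ :=
    Refl.ex_sup_fat P.reg P.ht P.aleph0_lt_t P.h2 hr' hE'.cof
      (cm.image (G := univ) (hs.c2.subset fun _ h => ⟨trivial, h⟩))
      (((((((ReflSt.memb P h (lt_add_one r)).and (ReflSt.stk P sk hr')).and
        (Refl.ae_lc P.reg (Refl.lc_om P) om.le)).and (ae_mem P.reg (hx.trans om))).and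
        (ae_mem P.reg (sy.trans_le hr'))).and (ae_mem P.reg om)).and (ae_mem P.reg (KE.lt1 hr)))
  obtain ⟨r1, -, r3, r4, r5, r6⟩ := m1 e he
  obtain ⟨-, -, s3, s4, s5, s6, -⟩ := m2 e he
  have ca : col (r + 1) X th' ≤ col (r + 1) X r := col_mono hr
  obtain ⟨G, r', k, g1, g2, g3, g4, g5, g6, g7, g8, g9, g10⟩ := lift h r3 r4 r5 r6 (m3 e he)
    (fun _ => he.unc_fix) r1 s5 ca s3 s4 s6 (fun a a1 a2 => (TB.strong_rho r4 (KE.le1 a2)
      (s5.le.trans ca)).1 (r1.symm ▸ np _ (col_le_iff.1 a1) (r4.maps a a2))) (b3.le.trans hr)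
    (fun z hz => b5 _ (unc_mem (hz.trans_le (col_mono hr'))) (lt_col_iff.1 hz))
    fun z hz => let ⟨w, w1, w2, w3⟩ := b4 z hz
      ⟨col (r + 1) X w, (col_lt_col_iff w1).2 (w3.trans b3), (unc_col w1).symm ▸ w2⟩
  have yb : y < b0 := cm.lt_of_lt hy (b5 _ m5 sy)
  have ob' := b5 _ m6 hE'.lt
  have ob : P.Om < b0 := cm.lt_of_lt hE.lt (hs.om.symm ▸ ob')
  obtain ⟨b', c1, c2, c3⟩ := Stk.memb (Tall.stk hE) b1
  have ne : b' ∈ {z | b0 ≤ z ∧ rho E (z + 1) ≤ P.Om} := ⟨c1, c3.proj⟩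
  have c4 := csInf_mem (nonempty_of_mem ne)
  have c5 : ∀ z ∈ {z | b0 ≤ z ∧ rho E (z + 1) ≤ P.Om}, _ ≤ z := fun z hz => csInf_le' hz
  generalize sInf {z | b0 ≤ z ∧ rho E (z + 1) ≤ P.Om} = b at c4 c5
  have bt : b + 1 < th := (add_le_add_left (c5 _ ne) 1).trans_lt c2
  have bt' := bt.trans (lt_add_one th)
  have n0 : NoProj E P.Om b0 (b + 1) := fun a a1 a2 => not_le.1 fun a3 => by
    obtain ⟨z, rfl⟩ := KL.suc_of_rho (hE.pm.ls a (a2.trans bt')) (a3.trans_lt (ob.trans_le a1))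
    have a4 : b0 ≠ z + 1 := fun c =>
      not_suc_of_limit (limit_of_cof (b2 ▸ P.aleph0_lt_t.le)) ⟨z, c⟩
    exact (c5 z ⟨KE.le1 (lt_of_le_of_ne a1 a4), a3⟩).not_gt (add_one_le_iff.1 (KE.le1 a2))
  have sb : s (b + 1) = s b + 1 := KE.w_succ hs.toWeak bt'
  have st : s b + 1 < th' := sb ▸ cm.maps _ bt
  have pb := KE.pm_mono hE'.pm (st.le.trans le_self_add)
  have n1 := noProj_up (TB.strong_good (KE.pm_mono hE.pm bt'.le).toPM0 pb.toPM0
    (KE.weak_restrict hs.toWeak bt')) ob c4.1 n0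
  rw [hs.om] at n1
  have b6 : s b0 ≤ s b := cm.mono _ _ c4.1 ((lt_add_one b).trans bt)
  have mb : Memb P E' (s b) := ⟨pb, TB.ii_lev hE'.ii hE'.pm.toPM0 (le_self_add.trans st.le),
    ob'.le.trans b6, hE'.pm.ls _ (KE.lt1 st.le), not_lt.1 fun c =>
      c4.2.not_gt ((TB.strong_rho hs.toStrong bt.le hE.lt.le).1 (by rwa [hs.om, sb]))⟩
  have a0 : Agree G E' P.Om := KL.ag_trans (KL.ag_mono g2 ob'.le) (KL.ag_mono ag hE'.lt.le)
  obtain rfl : r' = s b := by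
    rcases lt_trichotomy r' (s b) with c | c | c
    · exact absurd (n1 _ (g3.trans le_self_add) (KE.s1lt c))
        (not_lt.2 (KL.rho_suc (ReflSt.lin P g1 mb a0 c.le) ▸ g1.proj))
    · exact c
    · exact absurd (g4 _ (b6.trans le_self_add) (KE.s1lt c))
        (not_lt.2 (KL.rho_suc (ReflSt.lin P mb g1 (KL.ag_symm a0) c.le) ▸ mb.proj))
  have a1 := ReflSt.lin P g1 mb a0 le_rfl
  have pe : pp G (s b + 1) = pp E' (s b + 1) := ppL_congr (KL.ev_suc a1)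
  refine ⟨b, k, ob.le.trans c4.1, yb.le.trans c4.1, (lt_add_one b).trans bt, c4.2,
    KE.good_comp (TB.strong_good pb.toPM0 g1.pm.toPM0 (KL.strong_left a1 KE.strong_id)) g5, g6, g7,
    ?_, pe ▸ g9, fun c v hv => ?_⟩
  · have := g8 _ ((col_lt_col_iff m5).2 sy)
    rwa [unc_col m5] at this
  · rw [← pe, ← KL.ev_suc a1 _ le_rfl]
    exact g10 c v (hv.mono ((he.2 x hx).1 m4).le)

end S3Ref

instance [KIISt.{u}] [UltSt.{u}] [UltFactSt.{u}] [RealSt.{u}] [RealWfSt.{u}] [PresSt.{u}]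
    [ReflSt.{u}] : S3RefSt.{u} := ⟨fun _ _ _ _ _ _ _ _ _ _ => S3Ref.ref⟩

end Pool.Agent.KM
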