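import Pool.Agent.Lib.MP_5c0be7_lc.T.LiftRho
import Pool.Agent.Lib.MP_5c0be7_lc.K.Loc
import Pool.Agent.Lib.MP_5c0be7_lc.K.Clo

/-!
Project KM, block T1, S4: thick hulls of good weasels are good.
-/

namespace Pool.Agent.KM

open Ordinal Cardinal Set Filter Tr CU
open scoped Classical

universe u

namespace S4I

variable {E E0 F : Seq.{u}} {a b d k m t th th0 : Ordinal.{u}} {p : Tr.{u}}
  {s : Ordinal.{u} → Ordinal.{u}}

/-- A named functional relation is bounded below a successor cardinal. -/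
theorem rel_bdd {R : Tr.{u} → Prop} (hl : LS E d) (h : IsNext E d k t) (hm : ¬ Suc m) (ht : t < m)
    (hd : m ≤ d) (H : Named E m t R)
    (hf : ∀ v y y', In t y → In t y' → In k v → R (node y v) → R (node y' v) → y = y') :
    ∃ z < t, ∀ v y, In k v → In t y → R (node y v) → In z y := by
  obtain ⟨e, h1, h2, h3⟩ := F3.named_cs H ht
  have h4 : t < e + 1 := h1.trans_lt (lt_add_one e)
  obtain ⟨f, H1, H2⟩ := F3.cf_exs (hl e (h2.trans_le hd)).1
    ((F3.cs_in le_rfl h4 F3.p_id).and' (h3.lift le_self_add) F3.p_id fun _ _ h => h)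
  obtain ⟨n, n1, n2⟩ := H1.fv ((not_suc_iff.1 hm e h2).trans_le hd)
  obtain ⟨z, z1, z2⟩ := F3.reg hl h (ht.trans_le hd) n1
  refine ⟨z, z1, fun v y hv hy hR => z2 v y hv ?_ hy⟩
  have hv1 : In t v := hv.mono h.1.le
  obtain ⟨h5, h6⟩ := H2 v (hv1.mono h4.le)
  obtain ⟨y', e'⟩ := Option.isSome_iff_exists.1 (h6 y (hy.mono h4.le) ⟨by simp [hy, hv1], hR⟩)
  rw [n2 v (hv1.mono h4.le), e', hf v y y' hy (h5 y' e').1.fst hv hR (h5 y' e').2]

/-- If a successor cardinal is collapsed at the top, its cofinality is at most that of the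
projectum of the level below the top. -/
theorem nocof {O : Cardinal.{u}} (hO : Reg O) (hl : LS E (a + 1)) (h : IsNext E (a + 1) k t)
    (ht : t < rho E a) (hG : Gen E (a + 1) k p) (h1 : (rho E a).cof < O) : t.cof < O := by
  by_contra hc
  have hp := F3.gen_in hG
  have hr := rho_le E a
  have key : ∀ c m, m < rho E a → ∃ z < t, ∀ v y, In k v → In t y →
      Conv E a (F3.sq (.comp (.pair (.comp .snd .fst) .snd) .snd) .id c
        (tst (.comp .eq (.pair .fst (.comp .ff .snd))))) (node (node y v) p) m → In z y := by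
    intro c m hm
    have h2 := (RD.conv (f := fun y : Tr.{u} => y.snd) (h := fun w => node w.fst.fst w.snd)
      IsOp.id.snd (IsOp.id.fst.fst.pair IsOp.id.snd)).named hl
      (F3.sq (.comp (.pair (.comp .snd .fst) .snd) .snd) .id c
        (tst (.comp .eq (.pair .fst (.comp .ff .snd))))) ht hp (y := leaf m) (by simpa using hm)
    simp only [fst_node, snd_node, leaf.injEq, exists_eq_left'] at h2
    have h3 : ∀ v y, In t y → In k v → Conv E a (F3.sq (.comp (.pair (.comp .snd .fst) .snd) .snd)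
        .id c (tst (.comp .eq (.pair .fst (.comp .ff .snd))))) (node (node y v) p) m →
        ev E (a + 1) c (node v p) = some y := fun v y hy hv H => by
      have i : In (a + 1) (node (node y v) p) := by
        simp [hp, hy.mono (ht.le.trans (hr.trans le_self_add)), hv.mono (h.1.le.trans h.2.1)]
      have h4 := (ev_iff_conv ht i).2 ⟨m, hm, H⟩
      rw [F3.sq, ev_cmp, ev_pre _ _ i] at h4
      simp only [bop_comp, bop_pair, bop_snd, bop_fst, snd_node, fst_node, ev_erase] at h4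
      cases e : ev E (a + 1) c (node v p) with
      | none => simp [e] at h4
      | some w =>
        rw [e, Option.bind_some, bop_id, ev_tst_isSome _ (by simp [i, ev_in e])] at h4
        simpa using h4
    exact rel_bdd hl h (F3.rho_lim E a) ht (hr.trans le_self_add) h2 fun v y y' hy hy' hv H H' =>
      Option.some.inj ((h3 v y hy hv H).symm.trans (h3 v y' hy' hv H'))
  choose! z z1 z2 using key
  obtain ⟨g, -, g1, g2⟩ := exists_cof_seq (rho E a)
  have : Fact O.IsRegular := ⟨hO.reg⟩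
  have : Countable {c : Tr.{u} | c.lv ⊆ ∅} := (countable_trees countable_empty).to_subtype
  obtain ⟨y, y1, y2⟩ := bdd_fam (d := t) (ι := {c : Tr.{u} | c.lv ⊆ ∅} × Iio (rho E a).cof.ord)
    ((hasCardinalLT_prod hO.reg.aleph0_le (small_countable hO.unc) (small_cof_ord h1)).of_le
      (not_lt.1 hc)) (fun j => z j.1 (g j.2)) fun j => z1 _ _ (g1 _ j.2.2)
  obtain ⟨c, v, hv, e⟩ := hG (leaf y) (by simpa using (y1.trans ht).le.trans hr)
  have i : In (a + 1) (node (node (leaf y) v) p) := by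
    simp [hp, (y1.trans ht).le.trans hr, hv.mono (h.1.le.trans h.2.1)]
  obtain ⟨m, m1, m2⟩ := (ev_iff_conv ht i (c := F3.sq (.comp (.pair (.comp .snd .fst) .snd) .snd)
    .id c.erase (tst (.comp .eq (.pair .fst (.comp .ff .snd)))))).1 (by
      rw [F3.sq, ev_cmp, ev_pre _ _ i]
      simp only [bop_comp, bop_pair, bop_snd, bop_fst, snd_node, fst_node, ev_erase, e]
      rw [Option.bind_some, bop_id, ev_tst_isSome _ (by simp [i, ev_in e])]
      simp)
  obtain ⟨j, j1, j2⟩ := g2 m m1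
  have := z2 _ _ (g1 j j1) v (leaf y) hv (by simpa using y1) (m2.mono j2)
  exact absurd (y2 ⟨⟨c.erase, by simp⟩, ⟨j, j1⟩⟩) (not_lt.2 (le_of_lt (by simpa using this)))

variable {P : Pa.{u}}

theorem om_lim (P : Pa.{u}) : Order.IsSuccLimit P.Om := P.reg.limit

theorem om_card (hl : Lev E a) (ha : P.Om ≤ a) : P.Om ≤ rho E a :=
  not_lt.1 fun h => absurd (KL.lev_lt P.reg.unc hl h) (not_lt.2 ha)

theorem th_lim (h : Tall P E th) : Order.IsSuccLimit th := limit_of_cof (P.reg.unc.le.trans h.cof)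

variable [KIISt.{u}] [ReflSt.{u}]

theorem agree (h : Tall P E th) (hF : Memb P F b) (hA : Agree F E P.Om) (hb : th ≤ b) :
    Agree E F th := fun v hv => by
  obtain ⟨c, h1, h2, h3⟩ := h.top _ ((th_lim h).add_one_lt (max_lt hv h.lt))
  have h4 := h.pm.ls c (h2.trans (lt_add_one th))
  obtain ⟨c, rfl⟩ := KL.suc_of_rho h4 (h3.trans_lt ((KE.lt1 (le_max_right v _)).trans_le h1))
  have h5 := KE.s1le h1
  have h6 : c ≤ th := le_self_add.trans h2.le
  exact ReflSt.lin P ⟨KE.pm_mono h.pm (h2.le.trans le_self_add),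
    KIISt.level h.pm.toPM0 h.ii h6 zero_le, (le_max_right _ _).trans h5, h4, h3⟩ hF
    (KL.ag_symm hA) (h6.trans hb) v (KE.lt1 ((le_max_left _ _).trans h5))

omit [ReflSt.{u}] in
theorem first (hF : Memb P F b) (hl : ¬ Suc th) (ht : P.Om < th) (hb : th ≤ b) :
    ∃ a, th ≤ a ∧ Memb P F a ∧ NoProj F P.Om th (a + 1) := by
  have h0 : b ∈ {a | th ≤ a ∧ rho F (a + 1) ≤ P.Om} := ⟨hb, hF.proj⟩
  obtain ⟨h1, h2⟩ := csInf_mem (nonempty_of_mem h0)
  have h3 := csInf_le' h0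
  refine ⟨_, h1, ⟨KE.pm_mono hF.pm (add_le_add_left h3 1), KIISt.level hF.pm.toPM0 hF.ii h3 zero_le,
    ht.le.trans h1, ?_, h2⟩, fun c h4 h5 => not_le.1 fun h6 => ?_⟩
  · exact h3.eq_or_lt.elim (fun e => e.symm ▸ hF.lev) fun e => hF.pm.ls _ (KE.s1lt e)
  · obtain ⟨c, rfl⟩ := KL.suc_of_rho (hF.pm.ls c (KE.lt1 ((KE.le1 h5).trans h3)))
      (h6.trans_lt (ht.trans_le h4))
    have h7 : th ≤ c := KE.le1 (lt_of_le_of_ne h4 fun e => hl ⟨c, e⟩)
    exact absurd (csInf_le' (s := {a | th ≤ a ∧ rho F (a + 1) ≤ P.Om}) ⟨h7, h6⟩)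
      (not_le.2 (Order.add_one_le_iff.1 (KE.le1 h5)))

variable [KGoodSt.{u}] [KEvSt.{u}] [UltIISt.{u}] [PresSt.{u}] [UltFactSt.{u}]

/-- A complete stack pulls back along cofinal strong maps. -/
theorem full_down (h0 : Tall P E0 th0) (h : Tall P E th) (hs : Strong E0 (th0 + 1) E (th + 1) s)
    (ho : s P.Om = P.Om) (hc : ∀ y < th, ∃ x < th0, y < s x) (hf : Full P E th) :
    Full P E0 th0 := by
  intro F b hF hA
  by_contra hb
  have l0 := th_lim h0
  have lo := om_lim P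
  have hA' := agree h0 hF hA (not_lt.1 hb)
  obtain ⟨a, ha, hM, hN⟩ := first hF (not_suc_of_limit l0) h0.lt (not_lt.1 hb)
  have st : s th0 = th := (KE.s1inj (hs.top th0 rfl)).symm
  have slt : ∀ x < th0, s x < th := fun x hx => st ▸ hs.mono (KE.lt1 hx.le) (lt_add_one th0) hx
  have som : ∀ x < P.Om, s x < P.Om := fun x hx =>
    (hs.mono (KE.lt1 (hx.trans h0.lt).le) (KE.lt1 h0.lt.le) hx).trans_eq ho
  have sle : ∀ x ≤ th0, x ≤ s x := fun x hx => KE.w_self hs.toWeak (KE.lt1 hx)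
  have hw : Weak E0 th0 E th s := ⟨hs.mono.mono fun x hx => KE.lt1 (le_of_lt hx), slt,
    fun c e => absurd ⟨c, e⟩ (not_suc_of_limit l0), fun c hc => hs.comm c (KE.lt1 hc.le)⟩
  have hx : Ext F P.Om th0 E th s := KL.ext_left hA' ⟨omega0_le_of_isSuccLimit lo, h0.lt, hw, hc,
    h0.top, fun c h1 h2 => om_card (h0.pm.ls c (KE.lt1 h2.le)) h1⟩
  have cts : Cts s P.Om := fun y hy => ⟨y + 1, lo.add_one_lt (ho ▸ hy),
    (lt_add_one y).trans_le (sle _ ((lo.add_one_lt (ho ▸ hy)).trans h0.lt).le)⟩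
  have hr : rho F (a + 1) = P.Om := hM.proj.antisymm (om_card hM.lev (hM.le.trans le_self_add))
  obtain ⟨p1, p2, p3, p4⟩ := ss_pp hM.lev.1
  rw [show rhoL (ev F) (a + 1) = _ from hr] at p2 p4
  have hg : Good E0 th0 E s := KGoodSt.strong_good h0.pm.toPM0 (st.symm ▸ h.pm.toPM0)
    (st.symm ▸ hs)
  refine (UltIISt.lift (C := P.C) hM.pm
    (KE.pm0_mono h.pm.toPM0 le_self_add) hx ha hN (fun k0 t0 g hact => ⟨fun h1 => ?_, fun _ => cts⟩)
    fun G a0 k0 t0 r Z c1 c2 c3 c4 c5 c6 c7 c8 => ?_).elim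
      fun E' ⟨i, u1, u2, u3, u4, u5, u6⟩ => ?_
  rotate_right
  · have io : i P.Om = P.Om := (u2 _ h0.lt).trans ho
    have hC := UltFactSt.cof u1
    have g1 : Gen E' (i a + 1) P.Om ((pp F (a + 1)).map i) := by
      have := gen_ult u1 p4
      rwa [io] at this
    have ia : ∀ x ≤ a, i x ≤ i a := fun x hx => (KE.w_le u1.toWeak (KE.lt1 hx) (lt_add_one a)).2 hx
    have g2 : th ≤ i a := u3 ▸ ia _ ha
    have g3 : rho E' (i a + 1) = P.Om := rho_eq_of_gen g1 ((h.lt.le.trans g2).trans le_self_add) lo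
      fun g hg => named_down (PresSt.pres u1.pm.ls u1.pm'.ls hC (hg.le.trans hM.le) p1
        (F3.named_of_lt (hr.symm ▸ hg) p1))
        (KE.w_self u1.toWeak (KE.lt1 (hg.le.trans hM.le)))
    refine absurd (hf E' (i a) ⟨u5, u6, h.lt.le.trans g2, ⟨⟨_, KE.w_in u1.toWeak p1,
      fun x hx => ?_, solid_map u1.pm.ls u1.pm'.ls hC p1 p3, PT.gen_mono g1 g3.ge⟩,
      fun e => absurd (suc_succ _) e⟩, g3.le⟩ (KL.ag_mono u4 h.lt.le)) (not_lt.2 g2)
    rw [lv_map] at hx
    obtain ⟨x, hx, rfl⟩ := hx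
    exact g3.trans_le ((p2 x hx).trans (KE.w_self u1.toWeak (p1 x hx)))
  · rcases h1.eq_or_lt with rfl | h1
    · exact cts
    exfalso
    have l1 := limit_of_not_suc (KL.ext_lim hact.toExt) hact.lt.ne_bot
    have h2 : a.cof < P.O := by
      rw [← (CofMap.of_strictMonoOn l1 hact.weak.mono hact.weak.maps fun y hy =>
        (hact.cof y hy).imp fun _ h => ⟨h.1, h.2.le⟩).cof_eq]
      exact (cof_le_card t0).trans_lt (lt_ord.1 h1)
    rcases ha.eq_or_lt with rfl | ha'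
    · exact absurd h0.cof (not_le.2 h2)
    have h3 : rho F a = a := (hM.pm.ls a (lt_add_one a)).2 (F3.act_lim hact)
    exact absurd h0.cof (not_le.2 (nocof P.reg hM.pm.ls
      ⟨h0.lt, ha.trans le_self_add, hx.top, hN⟩ (h3.symm ▸ ha') p4 (h3.symm ▸ h2)))
  · have r1 : ∀ x ≤ a0, r x ≤ a := fun x hx => KE.le1 (c3.maps x (KE.lt1 hx))
    have r2 : r a0 = a := (KE.s1inj (c3.top a0 rfl)).symm
    have hO : P.Om ≤ a + 1 := hM.le.trans le_self_add
    have hct : (Iic a0).Countable := by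
      rw [← Order.Iio_succ, ← le_aleph0_iff_set_countable, Cardinal.mk_Iio_ordinal,
        Cardinal.lift_le_aleph0, Order.succ_eq_add_one, card_add_one]
      have : a0.card ≤ ℵ₀ := by
        rwa [← Order.lt_succ_iff, succ_aleph0, ← lt_ord, ord_aleph]
      exact (add_le_add this one_le_aleph0).trans_eq aleph0_add_aleph0
    obtain ⟨X, e, ⟨x1, x2, x3⟩, x4, -⟩ := ex_cof P.reg P.ht (aleph0_lt_aleph_one.trans P.h1) P.h2 hO
      ((ReflSt.memb P hM (lt_add_one a)).and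
        ((ae_sub P.reg (Sm.of_countable P.reg (hct.image r))
          (image_subset_iff.2 fun x hx => KE.lt1 (r1 x hx))).and
        (ae_sub P.reg (Sm.of_countable P.reg (c8.mono (inter_subset_left (t := Iio P.Om))))
          fun x hx => lt_of_lt_of_le hx.2 hO)))
    obtain ⟨y1, y2, y3, y4, -, -⟩ := x1 e x4
    have rx : ∀ x ≤ a0, r x ∈ X := fun x hx => x2 ⟨x, hx, rfl⟩
    have y5 : col (a + 1) X a + 1 < th0 := y3.trans h0.lt
    have s1 : Strong G (a0 + 1) F (col (a + 1) X a + 1) (col (a + 1) X ∘ r) :=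
      KE.strong_cancel y4 (KN.strong_congr c3 fun x hx => (unc_col (rx x (KE.le1 hx))).symm)
        (fun x hx => KE.lt1 (col_mono (r1 x (KE.le1 hx)))) fun c e => by
          rw [← KE.s1inj e, Function.comp, r2]
    have s2 := KE.strong_comp s1 (KE.weak_restrict hx.weak y5)
    have e1 : (s ∘ col (a + 1) X ∘ r) a0 = s (col (a + 1) X a) := by simp [r2]
    have e2 : (s ∘ col (a + 1) X ∘ r) k0 = s e := by
      simp only [Function.comp, c4]; rw [show col (a + 1) X P.Om = e from x4.col_ord hO]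
    have y6 : s (col (a + 1) X a) ≤ th := (slt _ ((lt_add_one _).trans y5)).le
    have y7 : PM0 E (s (col (a + 1) X a) + 1) := KE.pm0_mono h.pm.toPM0 (add_le_add_left y6 1)
    have y8 : e < th0 := x4.1.trans h0.lt
    have zl : ∀ z ∈ Z, z < s P.Om → z < s e := fun z hz hz' =>
      ((x4.2 z (hz'.trans_eq ho)).1 (x3 ⟨hz, hz'.trans_eq ho⟩)).trans_le (sle e y8.le)
    refine ⟨E, s ∘ col (a + 1) X ∘ r, id, e1.symm ▸ y7,
      e1.symm ▸ KIISt.level h.pm.toPM0 h.ii y6 zero_le,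
      KGoodSt.strong_good c2 (e1.symm ▸ y7) (e1.symm ▸ s2), fun z hz hz' => e2.symm ▸ zl z hz hz',
      fun n w hn hw hw' => ?_⟩
    have n0 : In (a0 + 1) n := hn.mono (c7.trans le_self_add)
    have n1 : In th0 (n.map r) := c5 ▸ (KN.in_map c3.mono (KE.lt1 c7) n0).2 hn
    have n2 := KE.w_in s1.toWeak n0
    have n3 := n2.mono y5.le
    have n4 : (n.map (col (a + 1) X ∘ r)).map (unc (a + 1) X) = n.map r := by
      rw [KN.mm]
      exact map_congr fun x hx => unc_col (rx x (KE.le1 (n0 x hx)))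
    have key : ∀ v, In e v → (Nm E0 (n.map r) v ↔ Nm E0 (n.map (col (a + 1) X ∘ r)) v) := by
      intro v hv
      have := KN.wnm y4.toWeak n2 (hv.mono ?_)
      · rw [n4, map_fix (fun x hx => x4.unc_fix hx) hv] at this
        rw [KN.anm hA' n1, KN.anm hA' n3, this]
      · rw [← x4.col_ord (th := a + 1) hO]
        exact (col_mono hM.le).trans le_self_add
    have y9 : e < rho E0 th0 :=
      ((h0.pm.ls th0 (lt_add_one _)).2 (not_suc_of_limit l0)).symm ▸ y8
    have w1 : In (s e) w := fun z hz => zl z (hw hz) (hw' z hz)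
    rw [map_eq_self (f := id) (t := w) fun _ _ => rfl, KE.map_comp, KE.map_comp n]
    exact ⟨hg.inc e y9 _ _ (n1.mono le_self_add) (n3.mono le_self_add)
      (fun v hv => (key v hv).1) w w1, hg.inc e y9 _ _ (n3.mono le_self_add) (n1.mono le_self_add)
      (fun v hv => (key v hv).2) w w1⟩

variable [HullSt.{u}] [CondSt.{u}] [NMSt.{u}]

theorem down {G : Set Ordinal.{u}} (h : GoodW P E th) (hG : Thick P th G) :
    ∃ E0 th0 s, GoodW P E0 th0 ∧ Tame P E0 th0 E th s ∧ StrictMono s ∧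
      s '' Iic th0 = {y | InHull E (th + 1) G y} := by
  obtain ⟨s, th0, s1, s2, s3, s4⟩ := HullSt.enum (E := E) (b := th)
    (Z := {y | InHull E (th + 1) G y}) (fun y hy => KE.le1 (HullSt.lt hy)) fun y => HullSt.closed
  obtain ⟨c1, c2, c3⟩ := CondSt.strong (E := E) (b := th0) s1 (s2.symm ▸ h.pm.toPM0)
    (s2.symm ▸ s4)
  rw [s2] at c2 c3
  have lo := om_lim P
  have lt := th_lim h.toTall
  have co : P.t < P.Om.cof := P.h2.trans_eq P.reg.reg.cof_ord.symm
  have ct : P.t < th.cof := P.h2.trans_le h.cof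
  have rg : ∀ y ∈ G, y ≤ th → ∃ x ≤ th0, s x = y := fun y hy h1 =>
    (s3.symm ▸ HullSt.sub hy (KE.lt1 h1) : y ∈ s '' Iic th0)
  have cm : ∀ {c d}, s c = d → d ≤ th → Unb G d → CofMap s c d := fun {c d} e hd hu =>
    ⟨fun _ _ h1 _ => s1.monotone h1, fun x hx => e ▸ s1 hx, fun y hy => by
      obtain ⟨z, z1, z2, z3⟩ := hu y hy
      obtain ⟨x, -, rfl⟩ := rg z z1 (z3.le.trans hd)
      exact ⟨x, s1.lt_iff_lt.1 (e ▸ z3), z2⟩⟩
  have ho : s P.Om = P.Om := by
    obtain ⟨c, -, e⟩ := rg _ hG.2.1 h.lt.le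
    have h1 := (cm e h.lt.le (hG.1.unb P.ht co)).cof_eq
    have h2 : P.Om ≤ c := ord_le_of_cof (P.reg.reg.cof_ord.symm.trans h1.symm).le
    rw [← le_antisymm h2 (s1.le_apply.trans_eq e)] at e
    exact e
  have m1 := cm ho h.lt.le (hG.1.unb P.ht co)
  have m2 := cm s2 le_rfl (hG.2.2.unb P.ht ct)
  have ct0 : P.t < th0.cof := m2.cof_eq ▸ ct
  have l0 := limit_of_cof (P.ht.aleph0_le.trans ct0.le)
  have o0 : P.Om < th0 := s1.lt_iff_lt.1 (by rw [ho, s2]; exact h.lt)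
  have rn : ∀ {c d}, s c = d → d ≤ th → Fat P.t d G → Fat P.t d {y | ∃ x < c, s x = y} :=
    fun {c d} e hd hu => hu.mono fun y hy _ h1 => by
      obtain ⟨x, -, rfl⟩ := rg y h1 (hy.le.trans hd)
      exact ⟨x, s1.lt_iff_lt.1 (e ▸ hy), rfl⟩
  have k1 := m1.cont_of_range P.ht co (s1.strictMonoOn _) (rn ho h.lt.le hG.1)
  have k2 := m2.cont_of_range P.ht ct0 (s1.strictMonoOn _) (rn s2 le_rfl hG.2.2)
  have hg : Good (pull s E) th0 E s := KGoodSt.strong_good c1 (s2.symm ▸ h.pm.toPM0)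
    (s2.symm ▸ c2)
  have tl : Tall P (pull s E) th0 := by
    refine ⟨c3 h.pm, KIISt.pre (s2.symm ▸ h.ii) hg fun _ _ _ => zero_le,
      fun x y => (s2.symm ▸ h.pas : Pas E (s th0)) _ _, o0, fun b hb => ?_, m2.cof_eq ▸ h.cof⟩
    by_contra hn
    have h1 := KE.good_noProj hg hb.le (x := P.Om) fun a h1 h2 => by
      rcases (KE.le1 h2).eq_or_lt with rfl | h2
      · exact ((c1.ls a (lt_add_one a)).2 (not_suc_of_limit l0)).symm ▸ o0
      · exact not_le.1 fun h3 => hn ⟨a, le_self_add.trans h1, h2, h3⟩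
    obtain ⟨a, h2, h3, h4⟩ := h.top _ (lt.add_one_lt (m2.maps b hb))
    rw [ho, s2] at h1
    exact absurd (h1 a h2 (KE.lt1 h3.le)) (not_lt.2 h4)
  refine ⟨pull s E, th0, s, ⟨tl, full_down tl h.toTall c2 ho m2.cof h.full, ?_, ?_⟩,
    ⟨c2, ho, m2.cof, k1, k2⟩, s1, s3⟩
  · exact ((m1.preimage P.ht co k1 h.nm1).inter P.ht co k1).mono fun b hb _ h1 =>
      NMSt.down P tl.pm h.toTall c2 o0 ho (hb.trans o0) h1.2 h1.1
  · exact ((m2.preimage P.ht ct0 k2 h.nm2).inter P.ht ct0 k2).mono fun b hb _ h1 =>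
      NMSt.down P tl.pm h.toTall c2 o0 ho hb h1.2 h1.1

end S4I

instance [KIISt.{u}] [ReflSt.{u}] [KGoodSt.{u}] [KEvSt.{u}] [UltIISt.{u}] [PresSt.{u}]
    [UltFactSt.{u}] [HullSt.{u}] [CondSt.{u}] [NMSt.{u}] : S4St.{u} :=
  ⟨fun _ _ _ _ => S4I.down⟩

end Pool.Agent.KM
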