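import Pool.Agent.Lib.MP_5c0be7_lc.T.St
import Pool.Agent.Lib.MP_5c0be7_lc.P.Phx
import Pool.Agent.Lib.MP_5c0be7_lc.F.CmpA
import Pool.Agent.Lib.MP_5c0be7_lc.K.IterI

/-!
Project KM, block T1: comparison of two good weasels.
-/

namespace Pool.Agent.KM.S5I

open Ordinal Cardinal Tr

universe u

variable {P : Pa.{u}} {E E' : Seq.{u}} {th th' l m r : Ordinal.{u}} {T U : IT.{u}}

theorem om_pos (P : Pa.{u}) : 0 < P.Om := (isSuccLimit_ord P.hO.aleph0_lt.le).pos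

theorem n_eq (e : (IT.one E th).EqLt T 1) : T.n = 0 := e.n

theorem E_eq (e : (IT.one E th).EqLt T 1) : T.E 0 = E := e.E zero_lt_one

theorem b_eq (e : (IT.one E th).EqLt T 1) : T.b 0 = th := e.b zero_lt_one

theorem good0 (e : (IT.one E th).EqLt T 1) (h : GoodW P E th) : GoodW P (T.E 0) (T.b 0) := by
  rwa [E_eq e, b_eq e]

theorem roots (e : (IT.one E th).EqLt T 1) (h : GoodW P E th) : Roots P T := by
  refine ⟨n_eq e ▸ om_pos P, fun i hi => ?_, fun i hi => ?_⟩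
  · rw [n_eq e] at hi; exact absurd hi (not_lt.2 zero_le)
  · rw [n_eq e] at hi; rw [le_antisymm hi zero_le]; exact Or.inl (good0 e h)

theorem root_eq (e : (IT.one E th).EqLt T 1) (h : T.Root r l) : r = 0 :=
  le_antisymm (n_eq e ▸ h.1) zero_le

/-- All levels of all models of a tree on a realisable premouse are realisable. -/
theorem ii [TreeSt.{u}] [KIISt.{u}] [KIterSt.{u}] (e : (IT.one E th).EqLt T 1)
    (h1 : PM0 E (th + 1)) (h2 : P.II E th) (h : T.IsTr l) :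
    ∀ j ≤ l, ∀ c ≤ T.b j, P.II (T.E j) c := fun _ hj _ hc =>
  KIISt.level (TreeSt.pm h hj).toPM0
    (KIterSt.ii (IterI.pii_congr (KIISt.one h1 h2) (by simpa using e)) h IT.above_zero hj)
    hc zero_le

theorem nii [TreeSt.{u}] [KIISt.{u}] [KIterSt.{u}] (e : (IT.one E th).EqLt T 1)
    (h1 : GoodW P E th) (h : T.IsTr l) : NII P T l :=
  fun j hj c hc _ => ii e h1.pm.toPM0 h1.ii h j hj c hc

variable [TreeSt.{u}] [CmpSt.{u}] [BrSt.{u}] [KeySt.{u}] [KIISt.{u}] [KIterSt.{u}] [WinSt.{u}]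

/-- The outcome of any comparison of two good weasels. -/
theorem out (h : GoodW P E th) (h' : GoodW P E' th') (eT : (IT.one E th).EqLt T 1)
    (eU : (IT.one E' th').EqLt U 1) (co : T.Coit l U m) :
    T.ND 0 l ∧ U.ND 0 m ∧ T.b l = U.b m ∧ GoodW P (T.E l) (T.b l) ∧
      Tame P E th (T.E l) (T.b l) (T.mp 0 l) ∧ Tame P E' th' (T.E l) (T.b l) (U.mp 0 m) := by
  have rT := roots eT h
  have rU := roots eU h'
  have nT := nii eT h co.tr
  have nU := nii eU h' co.tr'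
  have key : T.b l ≤ U.b m ∧ T.ND 0 l := by
    rcases Seg.outcome co with ⟨h1, r, h2, h3⟩ | ⟨h1, r, h2, h3⟩
    · exact ⟨h1, root_eq eT h2 ▸ h3⟩
    · obtain rfl := root_eq eU h2
      obtain ⟨r', k1, k2, -, k3, -⟩ :=
        WinSt.win P (CmpA.symm co) rU rT nU nT h2 h3 (good0 eU h') h1
      exact ⟨k3.ge, root_eq eT k1 ▸ k2⟩
  obtain ⟨r', k1, k2, -, k3, k4, k5, k6⟩ :=
    WinSt.win P co rT rU nT nU (key.2.root zero_le) key.2 (good0 eT h) key.1
  obtain rfl := root_eq eU k1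
  rw [E_eq eT, b_eq eT] at k5
  rw [E_eq eU, b_eq eU] at k6
  exact ⟨key.2, k2, k3, k4, k5, k6⟩

end Pool.Agent.KM.S5I

namespace Pool.Agent.KM

universe u

instance [TreeSt.{u}] [CmpSt.{u}] [BrSt.{u}] [KeySt.{u}] [KIISt.{u}] [KIterSt.{u}] [WinSt.{u}] :
    S5St.{u} where
  cmp := by
    intro P E E' th th' h hE hE' hag
    obtain ⟨T, l, U, m, eT, eU, co, -, -, nuT, nuU⟩ := CmpSt.compare (g := 0) (g' := 0) (h := h)
      (KIterSt.iter (Phx.phal_one hE.pm) (KIISt.one hE.pm.toPM0 hE.ii))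
      (KIterSt.iter (Phx.phal_one hE'.pm) (KIISt.one hE'.pm.toPM0 hE'.ii)) hag
      (fun i hi => absurd hi (by simp)) (fun i hi => absurd hi (by simp)) zero_le zero_le
      (fun _ _ _ _ _ _ _ _ _ => zero_le) (fun _ _ _ _ _ _ _ _ _ => zero_le)
    have eT1 : (IT.one E th).EqLt T 1 := by simpa using eT
    have eU1 : (IT.one E' th').EqLt U 1 := by simpa using eU
    obtain ⟨k1, k2, k3, k4, k5, k6⟩ := S5I.out hE hE' eT1 eU1 co
    exact ⟨T, l, U, m, eT1, eU1, co, k1, k2, fun i hi => nuT i (S5I.n_eq eT1 ▸ zero_le) hi,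
      fun j hj => nuU j (S5I.n_eq eU1 ▸ zero_le) hj, k3, k4, k5, k6⟩

end Pool.Agent.KM
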