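import Pool.Agent.Lib.MP_5c0be7_lc.G.Frag
import Pool.Agent.Lib.MP_5c0be7_lc.K.FragMk
import Pool.Agent.Lib.MP_5c0be7_lc.K.ActI
import Pool.Agent.Lib.MP_5c0be7_lc.O.F3c
import Pool.Agent.Lib.MP_5c0be7_lc.F.TreeOrd
import Pool.Agent.Lib.MP_5c0be7_lc.T.St
import Pool.Agent.Lib.MP_5c0be7_lc.L.Agree

/-!
Project KM, block T: strongness goes down to cardinals, up along embeddings, and overlapping
critical points of a tree are strong.
-/

namespace Pool.Agent.KM

open Ordinal Tr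

universe u

namespace Str

variable {E E' : Seq.{u}} {a b c d d' g g' k l l' m t t' v : Ordinal.{u}}
  {e s : Ordinal.{u} → Ordinal.{u}} {F : Tr.{u} → Tr.{u} → Prop}

theorem frag_of (h : Frag E c k t l F) (hl : l' ≤ l)
    (H : ∀ S, In d S → Named E c l fun a => Nm E S a ∧ In l' a) : Frag E d k t l' F := by
  refine ⟨fun X a i j p => h.fix X a i j (p.mono hl), fun X Y a i j p => h.ultra X Y a i j (p.mono hl),
    fun X Y Z W x y z i j p q r1 r2 r3 => h.sat X Y Z W x y z i j p q (r1.mono hl) (r2.mono hl)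
      (r3.mono hl), fun X x y i j p => h.fst X x y i (j.mono hl) (p.mono hl),
    fun X x y i j p => h.snd X x y i (j.mono hl) (p.mono hl),
    fun X x y i j p => h.lt X x y i (j.mono hl) (p.mono hl),
    fun X x y i j p => h.nm X x y i (j.mono hl) (p.mono hl),
    fun f w x y i j p q => h.normal f w x y i j (p.mono hl) (q.mono hl),
    fun X r S i j p H1 H2 H3 a ha hS => ?_⟩
  obtain ⟨S', h1, h2⟩ := H S p
  refine h.wf X r S' i j h1 H1 H2 (fun x hx k => ?_) a (ha.mono hl) ((h2 a (ha.mono hl)).2 ⟨hS, ha⟩)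
  obtain ⟨k1, k2⟩ := (h2 x hx).1 k
  obtain ⟨y, k3, k4, k5⟩ := H3 x k2 k1
  exact ⟨y, k3.mono hl, (h2 y (k3.mono hl)).2 ⟨k4, k3⟩, k5⟩

theorem frag_acc (h : Frag E c k t l F) (H : ∀ A, Named E d l A → Named E c l A) :
    Frag E d k t l F :=
  frag_of h le_rfl fun S p => H _ ⟨S, p, fun _ i => (and_iff_left i).symm⟩

/-- A fragment of a level is a fragment of every lower level. -/
theorem frag_dn (h : Frag E c k t l F) (hd : d ≤ c) : Frag E d k t l F :=
  frag_acc h fun _ H => F3.named_mono H hd le_rfl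

/-- A fragment below a cardinal is a fragment. -/
theorem frag_up (h : Frag E c k t l F) (hc : IsCard E d c) (hl : l < c) : Frag E d k t l F :=
  frag_acc h fun _ => F3.acc_card hc hl

/-- Shortening a fragment. -/
theorem frag_lt (h : Frag E d k t l F) (hl : l' ≤ l) (hd : l + 1 < d) : Frag E d k t l' F :=
  frag_of h hl fun S p => F3.named_and ⟨S, p, fun _ _ => Iff.rfl⟩
    ((F3.cs_in (lt_add_one l).le (KE.lt1 hl) F3.p_id).named hd)

theorem next_uniq (h : IsNext E d k t) (h' : IsNext E d k t') : t = t' :=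
  le_antisymm (KL.top_le h.2.2.1 (KL.noProj_mono h'.2.2.2 h.2.1))
    (KL.top_le h'.2.2.1 (KL.noProj_mono h.2.2.2 h'.2.1))

theorem next_le (h : IsNext E d k t) (hc : IsCard E d c) (hk : k < c) : t ≤ c :=
  KL.top_le h.2.2.1 (KL.noProj_mono (KL.card_noProj hc hk) h.2.1)

theorem lt (h : StrongTo E d k) : k < d := let ⟨_, _, h1, h2, _⟩ := h; h2.1.trans h1

/-- Strongness goes down to a cardinal above the successor. -/
theorem down (h : StrongTo E d k) (hc : IsCard E d g) (hg : g ≤ d)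
    (ht : ∀ t, IsNext E d k t → t < g) : StrongTo E g k := by
  obtain ⟨h1, t, h2, h3, h4⟩ := h
  have h5 := ht t h3
  refine ⟨h1, t, h5, ⟨h3.1, h5.le, h3.2.2.1, KL.noProj_mono h3.2.2.2 hg⟩, fun l hl => ?_⟩
  obtain ⟨n, h6, h7⟩ := h4 l (hl.trans_le hg)
  obtain ⟨n', h8, h9⟩ := F3.acc_card hc (max_lt h5 hl) ⟨n, h6, fun _ _ => Iff.rfl⟩
  exact ⟨n', h8, FragMk.congr (frag_dn h7 hg) fun X a i j => h9 _
    ((in_node _ _ _).2 ⟨i.mono (le_max_left _ _), j.mono (le_max_right _ _)⟩)⟩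

/-- The same, with a cardinal in between. -/
theorem down' (h : StrongTo E d k) (hc : IsCard E d g) (hg : g ≤ d) (hc' : IsCard E d c)
    (h1 : k < c) (h2 : c < g) : StrongTo E g k :=
  down h hc hg fun _ ht => (next_le ht hc' h1).trans_lt h2

/-- Strongness passes to a limit of cardinals. -/
theorem of_lim (h0 : 0 < g) (H : ∀ l < g, ∃ c, l < c ∧ c ≤ g ∧ IsCard E g c ∧ StrongTo E c k) :
    StrongTo E g k := by
  have key : ∀ {c t}, c ≤ g → IsCard E g c → IsNext E c k t → t < c → IsNext E g k t :=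
    fun {c t} h1 h2 h3 h4 => ⟨h3.1, h3.2.1.trans h1, h3.2.2.1, fun a h5 h6 =>
      (lt_or_ge a c).elim (h3.2.2.2 a h5) fun h7 => (h3.1.trans h4).trans_le (h2 a h7 h6)⟩
  obtain ⟨c, -, h1, h2, h3, t, h4, h5, -⟩ := H 0 h0
  refine ⟨h3, t, h4.trans_le h1, key h1 h2 h5 h4, fun l hl => ?_⟩
  obtain ⟨c', k1, k2, k3, -, t', k4, k5, k6⟩ := H l hl
  obtain rfl := next_uniq (key h1 h2 h5 h4) (key k2 k3 k5 k4)
  obtain ⟨n, k7, k8⟩ := k6 l k1
  exact ⟨n, k7.mono k2, frag_up k8 k3 k1⟩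

/-- Strongness is preserved by weak maps if there is a limit level above. -/
theorem map_iff (h : Weak E d E' d' s) (L : LS E d) (L' : LS E' d') (hm : ¬ Suc m) (hg : g < m)
    (hd : m ≤ d) (hk : k < d) : StrongTo E' (s g) (s k) ↔ StrongTo E g k := by
  rcases lt_or_ge k g with h1 | h1
  · exact (Df.strongTo On.top (On.lab IsOp.id)).weak_lim (z := leaf k) h L L' hm hg hd
      (by simpa using h1)
  · exact iff_of_false (fun h2 => (lt h2).not_ge ((KE.w_le h (hg.trans_le hd) hk).2 h1))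
      fun h2 => (lt h2).not_ge h1

/-- The same below the projectum. -/
theorem map_rho (h : Weak E d E' d' s) (L : LS E d) (L' : LS E' d') (hb : b ≤ d) (hg : g < rho E b)
    (hk : k < d) : StrongTo E' (s g) (s k) ↔ StrongTo E g k :=
  map_iff h L L' (F3.rho_lim E b) hg ((rho_le E b).trans hb) hk

theorem small_iff (h : Weak E d E' d' s) (L : LS E d) (L' : LS E' d') (hm : ¬ Suc m) (hk : k < m)
    (hd : m ≤ d) : Small E' (s k) ↔ Small E k :=
  (Df.small On.top).weak_lim (z := .nil) h L L' hm hk hd (in_nil _)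

theorem cof_lim (h : Weak E g E' g' s) (hc : ∀ y < g', ∃ x < g, y < s x) : ¬ Suc g := by
  rintro ⟨b, rfl⟩
  obtain ⟨x, h1, h2⟩ := hc (s b) (h.top b rfl ▸ lt_add_one _)
  exact h2.not_ge ((KE.w_le h h1 (lt_add_one b)).2 (KE.le1 h1))

/-- Cardinals go up along cofinal weak maps. -/
theorem noProj_cof (h : Weak E g E' g' s) (L : LS E g) (L' : LS E' g')
    (hc : ∀ y < g', ∃ x < g, y < s x) (hk : k < t) (ht : t < g) (H : NoProj E k t g) :
    NoProj E' (s k) (s t) g' := fun a h1 h2 => by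
  obtain ⟨x, h3, h4⟩ := hc a h2
  have h5 : t < x := (KE.w_lt h ht h3).1 (h1.trans_lt h4)
  exact ((Df.noProj (On.lab IsOp.id.fst) (On.lab IsOp.id.snd) On.top).weak_lim
    (z := node (leaf k) (leaf t)) h L L' (cof_lim h hc) h3 le_rfl (by simp [h5, hk.trans h5])).2
    (KL.noProj_mono H h3.le) a h1 h4

theorem card_cof (h : Weak E g E' g' s) (L : LS E g) (L' : LS E' g')
    (hc : ∀ y < g', ∃ x < g, y < s x) (hk : k < g) (H : IsCard E g k) :
    IsCard E' g' (s k) := fun a h1 h2 => by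
  obtain ⟨x, h3, h4⟩ := hc a h2
  have h5 : k < x := (KE.w_lt h hk h3).1 (h1.trans_lt h4)
  exact ((Df.isCard On.top (On.lab IsOp.id)).weak_lim (z := leaf k) h L L' (cof_lim h hc) h3 le_rfl
    (by simpa using h5)).2 (KL.card_mono H h3.le) a h1 h4

/-- Strongness goes up along cofinal weak maps. -/
theorem up_cof (h : Weak E g E' g' s) (L : LS E g) (L' : LS E' g')
    (hc : ∀ y < g', ∃ x < g, y < s x) (H : StrongTo E g k) : StrongTo E' g' (s k) := by
  obtain ⟨h1, t, h2, h3, h4⟩ := H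
  have hl := cof_lim h hc
  have h5 := not_suc_iff.1 hl t h2
  have I := IsOp.id.{u}
  refine ⟨h1.trans_le (KE.w_self h (h3.1.trans h2)), s t, h.maps t h2,
    ⟨(KE.w_lt h (h3.1.trans h2) h2).2 h3.1, (h.maps t h2).le,
      ((Df.topC (On.lab I) On.top).weak_lim (z := leaf k) h L L' hl h2 le_rfl
        (by simpa using h3.1)).2 h3.2.2.1, noProj_cof h L L' hc h3.1 h2 h3.2.2.2⟩, fun l hl' => ?_⟩
  obtain ⟨x, h6, h7⟩ := hc l hl'
  obtain ⟨n, h8, h9⟩ := h4 x h6
  have hz : In g (node n (node (leaf k) (node (leaf t) (leaf x)))) := by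
    simp [h8, h3.1.trans h2, h2, h6]
  have hm := hz.ht_lt (limit_of_not_suc hl (zero_le.trans_lt h2).ne')
  have key : ∀ c, (node n (node (leaf k) (node (leaf t) (leaf x)))).ht ≤ c → c < g →
      Frag E' (s c) (s k) (s t) (s x) fun X a => Nm E' (n.map s) (node X a) := fun c c1 c2 =>
    ((Df.frag On.top (On.lab I.snd.fst) (On.lab I.snd.snd.fst) (On.lab I.snd.snd.snd)
      Fn.id.fst).weak_lim h L L' hl c2 le_rfl (ht_le_iff.1 c1)).2 (frag_dn h9 c2.le)
  have hl2 : ¬ Suc g' := not_suc_iff.2 fun y hy =>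
    let ⟨z, z1, z2⟩ := hc y hy
    (Order.add_one_le_iff.2 z2).trans_lt (h.maps z z1)
  refine ⟨n.map s, KE.w_in h h8, frag_lt ?_ h7.le (not_suc_iff.1 hl2 _ (h.maps x h6))⟩
  have k0 := key _ le_rfl hm
  refine ⟨k0.fix, k0.ultra, k0.sat, k0.fst, k0.snd, k0.lt, k0.nm, k0.normal, fun X r S i j p => ?_⟩
  obtain ⟨y, y1, y2⟩ := hc _ (p.ht_lt (limit_of_not_suc hl2 (zero_le.trans_lt hl').ne'))
  exact (key _ (le_max_left _ y) (max_lt hm y1)).wf X r S i j ((in_ht S).mono (y2.le.trans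
    ((KE.w_le h y1 (max_lt hm y1)).2 (le_max_right _ _))))

theorem card_trans (h : IsCard E c g) (h' : IsCard E d c) (hg : g ≤ c) : IsCard E d g :=
  fun a h1 h2 => (lt_or_ge a c).elim (h a h1) fun h3 => hg.trans (h' a h3 h2)

theorem nosup (P : PM E (v + 1)) (A : Act E v k t e) : rho E (v + 1) < e k := not_le.1 fun h =>
  have L := P.ls.mono (le_self_add (b := 1))
  FragI.small L A (P.small v (lt_add_one v) k t e A) le_rfl A.move
    (FragMk.frag L A (ActF.lt L A) le_rfl (ActF.card L A) h)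

/-- A critical point is not collapsed by a level that is followed by another level. -/
theorem crit_card (h : Weak E (b + 1) E' d' s) (L' : LS E' d') (hf : ∀ x < k, s x = x)
    (hk : k < s k) : IsCard E b k := fun a h1 h2 => not_lt.1 fun h3 => by
  have h4 := KE.s1lt h2
  have W := KE.weak_restrict h h4
  have h5 : rho E' (s a) ≤ rho E a := not_lt.1 fun h5 => lt_irrefl _
    ((KE.strong_rho W le_rfl (rho_le E a)).1 ((hf _ h3).symm ▸ h5))
  have h6 : k < a + 1 := KE.lt1 h1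
  obtain ⟨c, w, w1, w2⟩ := F3.gen_succ (L' _ (h.maps a (h2.trans (lt_add_one b)))).1 (leaf k)
    (by simpa using (hk.trans (W.maps k h6)))
  have w3 : In k w := w1.mono (h5.trans h3.le)
  have h7 := W.commTop c (node w .nil) (by simpa using w3.mono h6.le)
  rw [map_node, map_eq_self fun x hx => hf x (w3 x hx), map_nil, w2] at h7
  obtain ⟨y, y1, y2⟩ := Option.map_eq_some_iff.1 h7.symm
  obtain ⟨x, rfl, x1⟩ := map_eq_leaf.1 y2
  rcases lt_or_ge x k with x2 | x2
  · exact x2.ne ((hf x x2).symm.trans x1)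
  · exact hk.not_ge (((KE.w_le W.toWeak h6 (by simpa using ev_in y1)).2 x2).trans x1.le)

theorem crit_lim (h : Weak E d E' d' s) (L : LS E d) (L' : LS E' d') (hm : ¬ Suc m) (hk : k < m)
    (hd : m ≤ d) (hf : ∀ x < k, s x = x) (hs : k < s k) (hc : IsCard E' (s k) k) :
    ∀ x < k, ∃ y, x < y ∧ y < k ∧ IsCard E k y := fun x hx => by
  obtain ⟨t, ht⟩ := KL.exists_next (E := E) hx
  rcases ht.2.1.lt_or_eq with h1 | rfl
  · exact ⟨t, ht.1, h1, F3.next_card (L.mono (hk.le.trans hd)) ht⟩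
  · obtain ⟨a, a1, a2, a3⟩ := ((Df.topC (On.lab IsOp.id) On.top).weak_lim (z := leaf x) h L L' hm hk
      hd (by simpa using hx)).2 ht.2.2.1 t hs
    exact absurd ((hc a a1 a2).trans a3) (not_le.2 (by simpa [hf x hx] using hx))

theorem lim_iff (h : Weak E d E' d' s) (L : LS E d) (L' : LS E' d') (hm : ¬ Suc m) (hk : k < m)
    (hd : m ≤ d) : (∀ x < s k, ∃ y, x < y ∧ y < s k ∧ IsCard E' (s k) y) ↔
      ∀ x < k, ∃ y, x < y ∧ y < k ∧ IsCard E k y := by
  have H := (Df.oall (Q := fun E b x _ => ∃ y < b, x < y ∧ IsCard E b y) On.top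
    (Df.oex (Q := fun E b y w => w.fst.lab < y ∧ IsCard E b y) On.top
      ((Df.olt (On.lab IsOp.id.snd.fst) (On.lab IsOp.id.fst)).and
        (Df.isCard On.top (On.lab IsOp.id.fst))))).weak_lim (z := .nil) h L L' hm hk hd (in_nil _)
  simpa only [and_left_comm] using H

theorem limc (h : Good E b E' s) (P : PM0 E (b + 1)) (P' : PM0 E' (s b + 1)) (hm : ¬ Suc m)
    (hk : k < m) (hd : m ≤ b + 1) (hf : ∀ x < k, s x = x) (hs : k < s k)
    (hc : IsCard E' (s k) k) : LimC E b k ∧ LimC E' (s b) (s k) :=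
  have h1 := crit_card h.toWeak P'.ls hf hs
  have h2 := crit_lim h.toWeak P.ls P'.ls hm hk hd hf hs hc
  have h3 : k < b := hk.trans_le (KE.le1 (lt_of_le_of_ne hd fun e => hm ⟨b, e⟩))
  ⟨⟨h1, h2⟩, h.card k k h3 h3 h1, (lim_iff h.toWeak P.ls P'.ls hm hk hd).2 h2⟩

theorem crit (L : LS E v) (A : Act E v k t e) : LimC E v k :=
  have h1 : IsCard E v k := fun a h1 h2 => (lt_or_ge a t).elim (A.card a h1) fun h3 =>
    (A.next a h3 h2).le
  ⟨h1, crit_lim A.weak (L.mono A.dom.le) L (KL.ext_lim A.toExt) A.lt le_rfl A.fix A.move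
    (KL.card_mono h1 (A.weak.maps k A.lt).le)⟩

theorem refl {x} (h : Weak E d E' d' s) (P : PM0 E d) (P' : PM0 E' d') (hm : ¬ Suc m)
    (hk : k < m) (hd : m ≤ d) (hf : ∀ x < k, s x = x) (h1 : k ≤ x) (h2 : x < s k)
    (H : StrongTo E' (s k) x) : ¬ Small E' k := fun ⟨a, a1, a2⟩ => by
  obtain ⟨y, y1, y2, y3⟩ := ((Df.oex (Q := fun E b y w => w.lab < y ∧ StrongTo E b y) On.top
    ((Df.olt (On.lab IsOp.id.snd) (On.lab IsOp.id.fst)).and
      (Df.strongTo On.top (On.lab IsOp.id.fst)))).weak_lim (z := leaf a) h P.ls P'.ls hm hk hd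
    (by simpa using a1)).1 ⟨x, h2, by simpa [hf a a1] using a1.trans_le h1, H⟩
  exact a2 y y2 y1 (FragI.congr (AgreeSt.of_fix P P' h (hk.le.trans hd) hf) y3)

/-! Trees. -/

variable [TreeSt.{u}] {T : IT.{u}} {i j : Ordinal.{u}}

/-- A cardinal of the first root below all exchange ordinals stays a cardinal. -/
theorem card_node (hT : T.IsTr l) (hj : j ≤ l) (hg : 0 < j → g ≤ T.la 0)
    (hc : IsCard (T.E 0) (T.b 0 + 1) g) :
    Agree (T.E 0) (T.E j) g ∧ IsCard (T.E j) (T.b j + 1) g := by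
  rcases (zero_le (a := j)).eq_or_lt with rfl | h0
  · exact ⟨fun _ _ => rfl, hc⟩
  have h1 := TreeSt.agree hT h0 hj
  refine ⟨KL.ag_mono h1 (hg h0), fun a h2 h3 => (lt_or_ge a (T.la 0)).elim (fun h4 => ?_)
    fun h4 => (hg h0).trans (TreeSt.card hT h0 hj a h4 h3)⟩
  rw [← KL.rho_lt h1 h4]
  exact hc a h2 (KE.lt1 (h4.le.trans (TreeSt.la_le hT (h0.trans_le hj) le_rfl zero_le)))

/-- A step with a critical point below such a cardinal goes back to the first root, without drop. -/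
theorem no_drop (hT : T.IsTr l) (hn : T.n ≤ i) (hi : i < l) (hg : ∀ j ≤ i, g ≤ T.la j)
    (hc : IsCard (T.E 0) (T.b 0 + 1) g) (hk : T.ka i < g) : T.pr i = 0 ∧ ¬ T.Drop i := by
  have S := hT.step i hn hi
  have h0 : T.pr i = 0 := by
    by_contra h
    exact (S.pred.min 0 (pos_iff_ne_zero.2 h)).not_gt (hk.trans_le (hg 0 zero_le))
  refine ⟨h0, fun hd => ?_⟩
  have h1 := S.pred.max hd
  unfold IT.Drop at hd
  rw [h0] at h1 hd
  rcases lt_or_ge (T.st i + 1) g with h2 | h2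
  · rw [KL.rho_lt (card_node hT hi.le (fun _ => hg 0 zero_le) hc).1 h2] at h1
    exact h1.not_gt (S.use.act.next _ (S.pred.ta_le.trans le_self_add) (h2.trans_le
      ((hg i le_rfl).trans (S.la ▸ (S.use.act.weak.maps _ S.use.act.lt).le))))
  · exact h1.not_gt (hk.trans_le (hc _ h2 (KE.s1lt hd)))

/-- An extender on the last model that overlaps `g` has a critical point that is strong below `g`
in the first root. -/
theorem ov (hT : T.IsTr j) (hg : ∀ i < j, g ≤ T.la i) (hc : IsCard (T.E 0) (T.b 0 + 1) g)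
    (hp : ∀ r ≤ T.n, Pas (T.E r) (T.b r)) (A : Act (T.E j) v k t e) (hv : v ≤ T.b j) (ht : t < g)
    (he : g ≤ e k) : StrongTo (T.E 0) g k := by
  have key : ∀ {i v e}, i ≤ j → Act (T.E i) v k t e → v < T.b i → g ≤ e k → StrongTo (T.E 0) g k :=
    fun {i v e} hi A hv he =>
      let ⟨h1, h2⟩ := card_node hT hi (fun h => hg 0 (h.trans_le hi)) hc
      FragI.congr (KL.ag_symm h1) (FragI.strong (TreeSt.pm hT hi).ls hv A h2 ht he)
  rcases hv.lt_or_eq with hv | rfl
  · exact key le_rfl A hv he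
  have down : ∀ {E : Seq.{u}} {b s}, PM0 E (b + 1) → Strong E (b + 1) (T.E j) (T.b j + 1) s →
      ∃ k0 t0 e0, Act E b k0 t0 e0 ∧ s k0 = k ∧ s t0 = t := fun {E b s} P S => by
    have h1 : T.b j = s b := KE.s1inj (S.top b rfl)
    rw [h1] at S A
    obtain ⟨k0, t0, e0, h2, h3, h4, -⟩ := KActSt.good_act_down P (h1 ▸ (TreeSt.pm hT le_rfl).toPM0)
      S le_rfl A
    exact ⟨k0, t0, e0, h2, h3, h4⟩
  rcases TreeSt.last hT le_rfl with ⟨r, h1, h2⟩ | ⟨i, h1, h2, h3, h4⟩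
  · obtain ⟨_, _, _, h3, -⟩ := down (hT.phal.pm r h1.1).toPM0 (TreeSt.strong hT le_rfl h2)
    exact absurd (hp r h1.1) (KL.act_not_pas h3)
  · have S := hT.step i h1 h2
    have hk : g ≤ T.ka i := not_lt.1 fun h =>
      (no_drop hT h1 h2 (fun m hm => hg m (hm.trans_lt h2)) hc h).2 h3
    have W := KE.strong_comp S.ult.toStrong (S.b ▸ TreeSt.strong hT le_rfl h4)
    obtain ⟨k0, t0, e0, h5, h6, h7⟩ := down S.ult.pm W
    have fx : ∀ x < T.ka i, (T.mp (i + 1) j ∘ T.im i) x = x := fun x hx => by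
      rw [Function.comp, S.ext x (hx.trans S.use.act.lt), S.use.act.fix x hx]
      exact TreeSt.fix hT le_rfl h4 (lt_add_one i) x (S.la ▸ hx.trans S.use.act.move)
    have ht0 : t0 < T.st i + 1 := h5.dom.trans (lt_add_one _)
    obtain rfl : t0 = t := (fx t0 (((KE.w_self W.toWeak ht0).trans h7.le).trans_lt
      (ht.trans_le hk))).symm.trans h7
    obtain rfl : k0 = k := (fx k0 (h5.lt.trans (ht.trans_le hk))).symm.trans h6
    refine key ((hT.pr_le h1 h2).trans h2.le) h5 h3 (hk.trans (not_lt.1 fun h8 => ?_))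
    have L := S.ult.pm.ls.mono (le_self_add (b := 1))
    obtain ⟨a, a1, a2, a3⟩ := ActF.top L h5 (T.ta i) (lt_of_le_of_ne S.pred.ta_le fun e =>
      KL.act_not_pas h5 (e ▸ (TreeSt.pred_agree (hT.mono h1 h2.le) S.use S.pred).2.1))
    exact (S.pred.noproj a a1 (a2.trans (lt_add_one _))).not_ge (a3.trans h8.le)

theorem ovl (hT : T.IsTr l) (hn : T.n = 0) (hp : Pas (T.E 0) (T.b 0))
    (hc : LimC (T.E 0) (T.b 0 + 1) a) (hv : ∀ i < l, a < T.nu i) (hj : j < l) (hk : T.ka j < a) :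
    Small (T.E 0) (T.ka j) ∧ StrongTo (T.E 0) a (T.ka j) ∧ LimC (T.E 0) a (T.ka j) := by
  have h0 := zero_le.trans_lt hj
  have S0 := hT.step 0 hn.le h0
  have S := hT.step j (hn.le.trans zero_le) hj
  have A := S.use.act
  have P := TreeSt.pm hT hj.le
  have g0 : a ≤ T.la 0 := S0.la ▸ not_lt.1 fun h => by
    obtain ⟨c, c1, c2, c3⟩ := ActF.top ((TreeSt.pm hT zero_le).ls.mono (S0.use.le.trans le_self_add))
      S0.use.act a (hv 0 h0)
    exact (hc.1 c c1 (c2.trans (KE.lt1 S0.use.le))).not_gt (c3.trans_lt h)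
  have g1 : ∀ i < l, a ≤ T.la i := fun i hi => g0.trans (TreeSt.la_mono hT zero_le hi)
  have ag := KL.ag_symm (card_node hT hj.le (fun _ => g0) hc.1).1
  obtain ⟨y, y1, y2, y3⟩ := hc.2 _ hk
  have y4 := (card_node hT hj.le (fun _ => y2.le.trans g0) (card_trans y3 hc.1 y2.le)).2
  have ht : T.ta j ≤ y := KL.top_le A.top (KL.noProj_mono (KL.card_noProj y4 y1)
    (A.dom.le.trans (S.use.le.trans le_self_add)))
  have h1 := crit (P.ls.mono (S.use.le.trans le_self_add)) A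
  refine ⟨KL.small_ag (KL.ag_mono ag hk.le) (P.small _ (KE.lt1 S.use.le) _ _ _ A),
    ov (hT.mono (hn.le.trans zero_le) hj.le) (fun i hi => g1 i (hi.trans hj)) hc.1
      (fun r hr => by rwa [nonpos_iff_eq_zero.1 (hr.trans hn.le)]) A S.use.le (ht.trans_lt y2)
      (S.la ▸ g1 j hj), KL.card_ag ag (KL.card_mono h1.1 (hv j hj).le), fun x hx => ?_⟩
  obtain ⟨z, z1, z2, z3⟩ := h1.2 x hx
  exact ⟨z, z1, z2, KL.card_ag (KL.ag_mono ag hk.le) z3⟩

end Str

instance : StrSt.{u} :=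
  ⟨fun P _ => Str.nosup P, fun _ h hc hk hd =>
    let ⟨_, y1, y2, y3⟩ := hc.2 _ hk
    Str.down' h hc.1 hd (Str.card_trans y3 hc.1 y2.le) y1 y2,
  fun h L L' hm hc hd hk => Str.map_iff h L L' hm hc hd (hk.trans (hc.trans_le hd)),
  Str.limc, Str.crit, Str.refl⟩

instance [TreeSt.{u}] : OverSt.{u} := ⟨fun hT _ hn hp hc _ => Str.ovl hT hn hp hc⟩

end Pool.Agent.KM
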