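import Pool.Agent.Lib.MP_5c0be7_lc.T.St
import Pool.Agent.Lib.MP_5c0be7_lc.F.CmpT
import Pool.Agent.Lib.MP_5c0be7_lc.F.Size
import Pool.Agent.Lib.MP_5c0be7_lc.L.UltFact

/-!
Project KM, block T1: trees that use only indices below the inaccessible cardinal.
-/

namespace Pool.Agent.KM

open Ordinal Tr IT Cardinal Set
open scoped Classical

universe u

namespace TriI

theorem two_pow_lt {O : Cardinal.{u}} (hO : O.IsInaccessible) {c : Cardinal.{u + 1}}
    (h : c < Cardinal.lift.{u + 1} O) : 2 ^ c < Cardinal.lift.{u + 1} O := by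
  obtain ⟨d, hd, rfl⟩ := Cardinal.lt_lift_iff.1 h
  simpa using Cardinal.lift_lt.{u, u + 1}.2 (hO.isStrongLimit.isStrongPrelimit hd)

/-- Ultrapower maps with small generators map small ordinals to small ordinals. -/
theorem ult_lt {O : Cardinal.{u}} (hO : O.IsInaccessible) {E E' : Seq.{u}} {b k a : Ordinal.{u}}
    {i : Ordinal.{u} → Ordinal.{u}} (h : IsUlt E b k E' i) (hk : i k < O.ord) (ha : a ≤ b)
    (hs : a < O.ord) : i a < O.ord := by
  rcases ha.lt_or_eq with ha | rfl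
  swap
  · exact Size.ult_lt hO.aleph0_lt h hs hk
  have kb := UltFact.k_lt h
  have ab := UltFact.lt_top h.toWeak ha
  have hm : max k a < O.ord := max_lt ((KE.w_self h.toWeak (lt_s kb.le)).trans_lt hk) hs
  choose c z w z1 w1 e using fun y : Iio (i a) =>
    UltFact.tree h (x := leaf y.1) ((in_leaf _ _).2 (y.2.trans ab))
  let F : Iio (i a) → Set {t : Tr.{u} | In (max k a) t} × {t : Tr.{u} | In (i k) t} := fun y =>
    ({t | ev E b (c y) (node t.1.fst (z y)) = some t.1.snd}, ⟨w y, w1 y⟩)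
  have key : ∀ y y', F y = F y' → ¬ y.1 < y'.1 := by
    intro y y' hF hy
    have I := IsOp.id.{u}
    obtain ⟨d, d0, d1⟩ := Code.bind I (Code.pre (I.fst.pair I.snd.fst)
      (Code.self (erase_erase (c y)))) (Code.post (((I.fst.bd I.snd.fst).pair
        (I.snd.snd.snd.snd.snd.bd I.fst)).eq (IsOp.nil.pair IsOp.nil) |>.ite_nil
          (IsOp.nil.pair IsOp.nil) IsOp.nil)
        (Code.pre (I.snd.fst.pair I.snd.snd.snd.fst) (Code.self (erase_erase (c y')))))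
    have p1 : In b (node (z y) (node (z y') (leaf a))) := by simp [z1, ha]
    have h1 := h.inc (node (leaf b) (node d (node (z y) (node (z y') (leaf a))))) .nil
      (by simp [in_of_lf d0, (z1 _).mono (lt_add_one b).le, lt_s ha.le]) (by simp)
      (fun v hv ⟨_, h2, h3⟩ => by
        cases h2
        simp only [fst_node, snd_node] at h3
        rw [d1 _ _ _ ((in_node _ _ _).2 ⟨hv.mono kb.le, p1⟩)] at h3
        simp only [fst_node, snd_node, ev_erase] at h3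
        rcases h4 : ev E b (c y) (node v (z y)) with _ | x1
        · simp [h4] at h3
        rcases h5 : ev E b (c y') (node v (z y')) with _ | x2
        · simp [h4, h5] at h3
        have h6 : (∃ a, x2 = leaf a ∧ In a x1) ∧ In a x2 := by
          by_contra h7
          simp [h4, h5, if_neg h7] at h3
        obtain ⟨⟨x, rfl, h6⟩, h7⟩ := h6
        have h8 : (⟨node v (leaf x), (in_node _ _ _).2 ⟨hv.mono (le_max_left _ _),
          h7.mono (le_max_right _ _)⟩⟩ : {t : Tr.{u} | In (max k a) t}) ∈ (F y').1 := h5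
        rw [← hF] at h8
        cases h4.symm.trans h8
        simp at h6) (w y) (w1 y) ⟨i b, rfl, by
        have h2 : w y' = w y := (congrArg (fun p => p.2.1) hF).symm
        simp only [map_node, map_leaf, fst_node, snd_node, map_of_lv (erase_eq_self.1 d0)]
        rw [d1 _ _ _ ((in_node _ _ _).2 ⟨(w1 y).mono (UltFact.lt_top h.toWeak kb).le,
          by simpa using UltFact.in_top h.toWeak p1⟩)]
        have h3 := e y'
        rw [h2] at h3
        have h4 : y'.1 < i a := y'.2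
        simp [e y, h3, hy, h4]⟩
    obtain ⟨_, h2, -⟩ := h1
    simp at h2
  have inj : Function.Injective F := fun y y' hF =>
    Subtype.ext (le_antisymm (not_lt.1 (key y' y hF.symm)) (not_lt.1 (key y y' hF)))
  refine Size.iio_lt.1 ((mk_le_of_injective inj).trans_lt ?_)
  rw [mk_prod, Cardinal.lift_id, Cardinal.lift_id, mk_set]
  exact mul_lt_of_lt (by simpa using hO.aleph0_lt.le) (two_pow_lt hO (KL.mk_in_lt hO.aleph0_lt hm))
    (KL.mk_in_lt hO.aleph0_lt hk)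

/-- Ultrapower maps with small generators fix the inaccessible cardinal. -/
theorem ult_fix {O : Cardinal.{u}} (hO : O.IsInaccessible) {E E' : Seq.{u}} {b k : Ordinal.{u}}
    {i : Ordinal.{u} → Ordinal.{u}} (h : IsUlt E b k E' i) (hk : i k < O.ord) (hb : O.ord ≤ b) :
    i O.ord = O.ord := by
  have kO := (KE.w_self h.toWeak (lt_s (UltFact.k_lt h).le)).trans_lt hk
  refine le_antisymm (le_of_forall_lt fun y hy => ?_) (KE.w_self h.toWeak (lt_s hb))
  obtain ⟨x, x1, x2⟩ := UltFact.cts h hb (fun f _ => by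
    obtain ⟨x, x1, x2⟩ := bdd_fam (d := O.ord) (ι := {t : Tr.{u} | In k t}) (by
        unfold HasCardinalLT
        rw [hO.isRegular.cof_ord, Cardinal.lift_id'.{u, u + 1}]
        exact KL.mk_in_lt hO.aleph0_lt kO)
      (fun t => if ((fv E f t.1).getD .nil).lab < O.ord then ((fv E f t.1).getD .nil).lab else 0)
      fun t => by
        split_ifs with h1
        exacts [h1, (isSuccLimit_ord hO.aleph0_lt.le).pos]
    exact ⟨x, x1, fun w y w1 w2 w3 => by simpa [w2, w3] using x2 ⟨w, w1⟩⟩) y hy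
  exact x2.trans (ult_lt hO h hk (x1.le.trans hb) x1)

variable (P : Pa.{u}) {T : IT.{u}} {l i j a c : Ordinal.{u}}

theorem lim : Order.IsSuccLimit P.Om := isSuccLimit_ord P.hO.aleph0_lt.le

variable {P}

theorem im_ka (h : Low P T l) (j1 : T.n ≤ j) (j2 : j < l) : T.im j (T.ka j) < P.Om := by
  have s := h.tr.step j j1 j2
  rw [s.ext _ s.use.act.lt, ← s.la]
  exact (CmpT.la_lt_nu h.tr j1 j2).trans (h.nu j j1 j2)

theorem len (h : Low P T l) (hn : T.n < P.Om) : l ≤ P.Om := not_lt.1 fun h1 => by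
  have e : T.n + P.Om = P.Om :=
    IsPrincipal.add_eq_right (isPrincipal_add_ord P.hO.aleph0_lt.le) hn
  have h2 := CmpT.le_la h.tr P.Om (e.symm ▸ h1)
  rw [e] at h2
  exact ((CmpT.la_lt_nu h.tr hn.le h1).trans (h.nu _ hn.le h1)).not_ge h2

variable [TreeSt.{u}]

/-- Ordinals below an image at a limit node come from the branch. -/
theorem below (h : T.IsTr l) (c1 : T.n < c) (c2 : c ≤ l) (c3 : Order.IsSuccLimit c) (hi : i < c)
    (hd : T.ND i c) (ha : a ≤ T.b i) {y} (hy : y < T.mp i c a) :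
    ∃ m < c, i ≤ m ∧ T.ND m c ∧ ∃ x < T.mp i m a, T.mp m c x = y := by
  have L := h.lim c c1 c2 c3
  obtain ⟨m, m1, m2, x, x1, rfl⟩ := L.onto (hy.le.trans (CmpT.mp_le h c2 hd ha))
  rcases le_total i m with h1 | h1
  · refine ⟨m, m1, h1, m2, x, ?_, rfl⟩
    rwa [← L.comm h1 m1 hd m2 a ha, CmpT.mp_lt h c2 m2 x1
      (CmpT.mp_le h (m1.le.trans c2) (hd.cut h1 m2.1) ha)] at hy
  · refine ⟨i, hi, le_rfl, hd, _, ?_, L.comm h1 hi m2 hd x x1⟩
    rwa [← L.comm h1 hi m2 hd x x1, CmpT.mp_lt h c2 hd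
      (CmpT.mp_le h (hi.le.trans c2) (m2.cut h1 hd.1) x1) ha,
      ← CmpT.mp_id h (hi.le.trans c2) ha] at hy

theorem size (h : Low P T l) (hj : j ≤ l) (hO : j < P.Om) (hd : T.ND i j) (ha : a ≤ T.b i)
    (hs : a < P.Om) : T.mp i j a < P.Om := by
  refine TreeSt.ind (i := i) (fun j => j < P.Om → T.mp i j a < P.Om) h.tr
    (fun _ => (CmpT.mp_id h.tr (hd.le.trans hj) ha).symm ▸ hs)
    (fun k k1 k2 k3 k4 k5 k6 ih k7 => ?_) (fun c c1 c2 c3 c4 c5 ih c6 => ?_) j hj hd hO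
  · have s := h.tr.step k k1 k2
    rw [s.mp i k3 k4 a ha]
    exact ult_lt P.hO s.ult (im_ka h k1 k2) ((CmpT.mp_le h.tr (s.pred.le.trans k2.le) k5 ha).trans
      (not_lt.1 k6)) (ih ((lt_s s.pred.le).trans k7))
  · refine sm_Iio.1 (Sm.mono (Sm.biUnion P.reg (X := {m | m < c ∧ i ≤ m ∧ T.ND m c})
      ((sm_Iio.2 c6).mono fun m hm => hm.1) (F := fun m => T.mp m c '' Iio (T.mp i m a))
      fun m hm => (sm_Iio.2 (ih m hm.1 hm.2.1 hm.2.2 (hm.1.trans c6))).image _) fun y hy => ?_)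
    obtain ⟨m, m1, m2, m3, x, x1, x2⟩ := below h.tr c2 c3 c1 c4 c5 ha hy
    exact mem_biUnion (x := m) ⟨m1, m2, m3⟩ ⟨x, x1, x2⟩

theorem fix (h : Low P T l) (hj : j ≤ l) (hO : j < P.Om) (hd : T.ND i j) (ha : P.Om ≤ T.b i) :
    T.mp i j P.Om = P.Om := by
  refine TreeSt.ind (i := i) (fun j => j < P.Om → T.mp i j P.Om = P.Om) h.tr
    (fun _ => CmpT.mp_id h.tr (hd.le.trans hj) ha)
    (fun k k1 k2 k3 k4 k5 k6 ih k7 => ?_) (fun c c1 c2 c3 c4 c5 ih c6 => ?_) j hj hd hO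
  · have s := h.tr.step k k1 k2
    have e := ih ((lt_s s.pred.le).trans k7)
    rw [s.mp i k3 k4 _ ha, e]
    exact ult_fix P.hO s.ult (im_ka h k1 k2)
      ((e ▸ CmpT.mp_le h.tr (s.pred.le.trans k2.le) k5 ha).trans (not_lt.1 k6))
  · refine le_antisymm (le_of_forall_lt fun y hy => ?_)
      (KE.w_self (TreeSt.strong h.tr c3 c5).toWeak (lt_s ha))
    obtain ⟨m, m1, m2, m3, x, x1, rfl⟩ := below h.tr c2 c3 c1 c4 c5 ha hy
    exact size h c3 c6 m3 (x1.le.trans (CmpT.mp_le h.tr (m1.le.trans c3) (c5.cut m2 m3.1) ha))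
      (ih m m1 m2 m3 (m1.trans c6) ▸ x1)

theorem win_of (h : Low P T P.Om) (hn : T.n < P.Om) (hi : i < P.Om) (hd : T.ND i P.Om)
    (ha : a ≤ T.b i) (hs : a < P.Om) (hw : P.Om ≤ T.mp i P.Om a) : Win P T := by
  rcases hw.lt_or_eq with hw | hw
  · obtain ⟨m, m1, m2, m3, x, x1, x2⟩ := below h.tr hn le_rfl (lim P) hi hd ha hw
    have h1 := hd.cut m2 m3.1
    exact ⟨m, m1, m3, x, x1.trans (size h m1.le m1 h1 ha hs),
      x1.le.trans (CmpT.mp_le h.tr m1.le h1 ha), x2⟩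
  · exact ⟨i, hi, hd, a, hs, ha, hw.symm⟩

theorem small (h : Low P T l) (hn : T.n < P.Om) (hi : i < P.Om) (hd : T.ND i l)
    (hb : T.b i < P.Om) : T.b l < P.Om ∨ (l = P.Om ∧ Win P T) := by
  have e := KE.s1inj ((TreeSt.strong h.tr le_rfl hd).top _ rfl)
  rcases (len h hn).lt_or_eq with h1 | rfl
  · exact Or.inl (e ▸ size h le_rfl h1 hd le_rfl hb)
  · exact (lt_or_ge _ _).imp_right fun h1 => ⟨rfl, win_of h hn hi hd le_rfl hb (e ▸ h1)⟩

theorem tri (h : Low P T l) (hr : Roots P T) : l ≤ P.Om ∧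
    ((∃ r, T.Root r l ∧ T.ND r l ∧ GoodW P (T.E r) (T.b r) ∧ T.mp r l P.Om = P.Om) ∨
      T.b l < P.Om ∨ (l = P.Om ∧ Win P T)) := by
  refine ⟨len h hr.n, ?_⟩
  obtain ⟨r, r1, r2⟩ | ⟨k, k1, k2, k3, k4⟩ := TreeSt.last h.tr le_rfl
  · have rO := r1.1.trans_lt hr.n
    obtain g | g := hr.rt r r1.1
    swap
    · exact Or.inr (small h hr.n rO r2 g)
    rcases (len h hr.n).lt_or_eq with h1 | rfl
    · exact Or.inl ⟨r, r1, r2, g, fix h le_rfl h1 r2 g.lt.le⟩
    by_cases hw : Win P T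
    · exact Or.inr (Or.inr ⟨rfl, hw⟩)
    refine Or.inl ⟨r, r1, r2, g, le_antisymm (le_of_forall_lt fun y hy => ?_)
      (KE.w_self (TreeSt.strong h.tr le_rfl r2).toWeak (lt_s g.lt.le))⟩
    obtain ⟨m, m1, m2, m3, x, x1, rfl⟩ := below h.tr hr.n le_rfl (lim P) rO r2 g.lt.le hy
    have h1 := r2.cut m2 m3.1
    exact not_le.1 fun h2 => hw (win_of h hr.n m1 m3
      (x1.le.trans (CmpT.mp_le h.tr m1.le h1 g.lt.le)) (fix h m1.le m1 h1 g.lt.le ▸ x1) h2)
  · have s := h.tr.step k k1 k2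
    have h1 : T.st k + 1 < P.Om := KL.lev_lt P.hO.aleph0_lt
      ((TreeSt.pm h.tr (s.pred.le.trans k2.le)).ls _ (KE.s1lt k3))
      ((s.pred.max k3).trans_lt ((s.use.act.lt.trans s.use.act.dom).trans (h.nu k k1 k2)))
    exact Or.inr (small h hr.n ((lim P).add_one_lt (k2.trans_le (len h hr.n))) k4
      (s.b ▸ ult_lt P.hO s.ult (im_ka h k1 k2) le_rfl ((lt_add_one _).trans h1)))

/-- The branch of a tree of regular length is a club, and the exchange ordinals are cofinal. -/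
theorem branch {W : Cardinal.{u}} (hW : W.IsRegular) (h0 : ℵ₀ < W) (h : T.IsTr W.ord)
    (hn : T.n < W.ord) : Clb W.ord {c | T.ND c W.ord ∧ T.n < c ∧ Order.IsSuccLimit c ∧
      c ≤ T.b c ∧ ∀ x < c, T.mp c W.ord x = x} := by
  have hl := isSuccLimit_ord hW.aleph0_le
  have hc := Clb.cof_reg hW h0
  obtain ⟨m0, m1, m2⟩ := (h.lim _ hn le_rfl hl).ex
  have h1 : Clb W.ord {c | T.ND c W.ord} := by
    refine ⟨{c | T.ND c W.ord}, fun a ha => ?_, fun c c1 c2 c3 => ?_⟩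
    · obtain ⟨x, x1, x2, x3⟩ := TreeSt.cof hn hl (fun j j1 j2 => h.mono j2 j1.le) _ (max_lt ha m1)
      exact ⟨x, m2.tail ((le_max_right _ _).trans x1.le) x3, (le_max_left _ _).trans_lt x1, x2⟩
    · obtain ⟨x, x1, -, x2⟩ := c3 0 c2
      exact x1.tail x2.le (le_closed c1.le fun a ha =>
        let ⟨y, y1, y2, y3⟩ := c3 a ha; ⟨y, y2, y3.le, y1.1⟩)
  have h2 := Clb.wit hW h0 (R := fun a y => a < T.la y) fun a ha =>
    let ⟨i, i1, _, i2⟩ := CmpT.la_cof hW.aleph0_le h hn ha; ⟨i, i1, i2⟩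
  exact (((h1.inter hc h2).inter hc (Clb.limits hl)).inter hc (Clb.gt hl hn)).mono
    fun c c1 ⟨⟨⟨a1, a2⟩, a4⟩, a5⟩ => ⟨a1, a5, a4, le_of_forall_lt fun x hx =>
      let ⟨y, y1, y2⟩ := a2 x hx; y2.trans_le (TreeSt.la_le h (y1.trans c1) y1.le c1.le),
      fun x hx => let ⟨y, y1, y2⟩ := a2 x hx; TreeSt.fix h le_rfl a1 y1 x y2⟩

theorem club (h : Low P T P.Om) (hr : Roots P T) (hw : Win P T) :
    Clb P.Om {c | T.n ≤ c ∧ T.ND c P.Om ∧ c ≤ T.b c ∧ (∀ x < c, T.mp c P.Om x = x) ∧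
      T.mp c P.Om c = P.Om} := by
  obtain ⟨j, j1, j2, a, a1, a2, a3⟩ := hw
  have hc := Clb.cof_reg P.hO.isRegular P.hO.aleph0_lt
  have h4 := Clb.filtr P.hO.isRegular P.hO.aleph0_lt
    (A := fun m => {y | j ≤ m ∧ T.ND m P.Om ∧ y ∈ T.mp m P.Om '' Iio (T.mp j m a)})
    (B := fun y => {y}) (fun m hm => by
      by_cases h1 : j ≤ m ∧ T.ND m P.Om
      · exact small_mono (small_image (small_Iio_ord
          (size h hm.le hm (j2.cut h1.1 h1.2.1) a2 a1)) _) fun y hy => hy.2.2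
      · exact small_mono (small_Iio_ord hm) fun y hy => absurd ⟨hy.1, hy.2.1⟩ h1)
    fun m hm y ⟨y1, y2, x, x1, x2⟩ => ⟨y, by
      have h1 := j2.cut y1 y2.1
      have h2 := CmpT.mp_le h.tr hm.le h1 a2
      have h3 := (CmpT.mp_lt h.tr le_rfl y2 ((le_of_lt x1).trans h2) h2).2 x1
      rwa [x2, TreeSt.comp h.tr le_rfl h1 y2 a a2, a3] at h3, rfl⟩
  refine (((branch P.hO.isRegular P.hO.aleph0_lt h.tr hr.n).inter hc h4).inter hc
    (Clb.gt (lim P) j1)).mono fun c c1 ⟨⟨⟨b1, b2, b3, b4, b5⟩, b6⟩, b7⟩ => ⟨b2.le, b1, b4, b5, ?_⟩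
  have h1 : T.ND j c := j2.cut (le_of_lt b7) b1.1
  have h2 := TreeSt.comp h.tr le_rfl h1 b1 a a2
  rw [a3] at h2
  have h3 : T.mp j c a = c := by
    refine le_antisymm (le_of_forall_lt fun y hy => ?_) (not_lt.1 fun h5 =>
      ((b5 _ h5).symm.trans h2).not_lt (h5.trans c1))
    obtain ⟨m, m1, m2, m3, x, x1, rfl⟩ := below h.tr b2 c1.le b3 b7 h1 a2 hy
    have h5 := x1.le.trans (CmpT.mp_le h.tr (m1.trans c1).le (h1.cut m2 m3.1) a2)
    obtain ⟨z, z1, z2⟩ := b6 m m1 _ ⟨m2, m3.trans b1, x, x1, rfl⟩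
    refine (KE.w_self (TreeSt.strong h.tr le_rfl b1).toWeak
      (lt_s (CmpT.mp_le h.tr c1.le m3 h5))).trans_lt ?_
    rw [TreeSt.comp h.tr le_rfl m3 b1 x h5]
    exact (mem_singleton_iff.1 z2).trans_lt z1
  rwa [h3] at h2

end TriI

instance [TreeSt.{u}] : TriSt.{u} :=
  ⟨fun _ _ _ _ _ _ h _ => TriI.size h, fun _ _ _ => TriI.tri, fun _ _ => TriI.club⟩

end Pool.Agent.KM
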