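import Pool.Agent.Lib.MP_5c0be7_lc.T.St
import Pool.Agent.Lib.MP_5c0be7_lc.K.Clo

/-!
Project KM, block T1: countable types are realised in almost every small set.
-/

namespace Pool.Agent.KM

open Ordinal Cardinal Tr Set Filter
open scoped Classical

universe u

namespace TypeI

theorem mk_fun {O : Cardinal.{u}} (hO : Reg O) {α β : Type (u + 1)} [Countable α] [Nonempty β]
    (h : #β < Cardinal.lift.{u + 1} O) : #(α → β) < Cardinal.lift.{u + 1} O := by
  rw [← power_def]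
  exact (power_le_power_left (mk_ne_zero β) mk_le_aleph0).trans_lt (hO.lift.pow _ h)

theorem mk_prop {O : Cardinal.{u}} (hO : Reg O) :
    #(ULift.{u + 1} Prop) < Cardinal.lift.{u + 1} O := mk_le_aleph0.trans_lt hO.lift.unc

theorem seq {O : Cardinal.{u}} (hO : Reg O) {th : Ordinal.{u}} {K : Type (u + 1)}
    (hK : #K < Cardinal.lift.{u + 1} O) (Φ : (ℕ → Ordinal.{u}) → K) :
    ∀ᶠ X in aeF hO th, ∀ z : ℕ → Ordinal.{u}, (∀ n, z n < th) → ∃ w : ℕ → Ordinal.{u},
      (∀ n, w n ∈ X) ∧ (∀ n, z n ∈ X → w n = z n) ∧ Φ w = Φ z := by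
  have h1 : ∀ᶠ X in aeF hO th, ∀ (k : K) (S : ULift.{u + 1} ℕ → ULift.{u + 1} Prop)
      (y : ℕ → Ordinal.{u}), (∀ n, y n ∈ X) →
      (∃ w : ℕ → Ordinal.{u}, (∀ n, w n < th) ∧ (∀ n, (S ⟨n⟩).down → w n = y n) ∧ Φ w = k) →
      ∃ w : ℕ → Ordinal.{u}, (∀ n, w n ∈ X) ∧ (∀ n, (S ⟨n⟩).down → w n = y n) ∧ Φ w = k := by
    refine ae_all hO hK fun k => ae_all hO (mk_fun hO (mk_prop hO)) fun S =>
      ae_diagSeq hO fun y _ => ?_
    by_cases h : ∃ w : ℕ → Ordinal.{u},
        (∀ n, w n < th) ∧ (∀ n, (S ⟨n⟩).down → w n = y n) ∧ Φ w = k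
    · obtain ⟨w, h2, h3⟩ := h
      filter_upwards [ae_sub hO (Sm.of_countable hO (countable_range w)) (range_subset_iff.2 h2)]
        with X hX _ using ⟨w, range_subset_iff.1 hX, h3⟩
    · exact Eventually.of_forall fun _ h2 => absurd h2 h
  filter_upwards [h1, ae_basic hO] with X h2 ⟨_, _, a, ha⟩ z hz
  obtain ⟨w, h3, h4, h5⟩ := h2 (Φ z) (fun n => ⟨z n.down ∈ X⟩)
    (fun n => if z n ∈ X then z n else a) (fun n => by split_ifs with h; exacts [h, ha])
    ⟨z, hz, fun n hn => (if_pos hn).symm, rfl⟩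
  exact ⟨w, h3, fun n hn => (h4 n hn).trans (if_pos hn), h5⟩

/-- The natural number coded by an ordinal. -/
noncomputable def idx : Ordinal.{u} → ℕ := Function.invFun Nat.cast

theorem idx_cast (n : ℕ) : idx (n : Ordinal.{u}) = n :=
  Function.leftInverse_invFun Nat.cast_injective n

/-- Trees labelled by natural numbers. -/
abbrev TN : Type (u + 1) := {t : Tr.{u} | t.lv ⊆ range (Nat.cast : ℕ → Ordinal.{u})}

instance : Countable TN.{u} := (countable_trees (countable_range _)).to_subtype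

theorem ae {O : Cardinal.{u}} (hO : Reg O) {th : Ordinal.{u}} {I : Type (u + 1)}
    (hI : #I < Cardinal.lift.{u + 1} O) (A : I → Tr.{u} → Prop) :
    ∀ᶠ X in aeF hO th, ∀ Z : Set Ordinal.{u}, Z.Countable → Z ⊆ Iio th → ∀ J : Set I, J.Countable →
      ∃ r : Ordinal.{u} → Ordinal.{u}, (∀ z ∈ Z, r z ∈ X) ∧ (∀ z ∈ Z, z ∈ X → r z = z) ∧
        ∀ i ∈ J, ∀ q : Tr.{u}, q.lv ⊆ Z → (A i q ↔ A i (q.map r)) := by
  let B : Option I → Tr.{u} → Prop := fun o q => o.elim (q.fst = q.snd) fun i => A i q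
  have hI' : #(Option I) < Cardinal.lift.{u + 1} O := by
    rw [mk_option]
    exact add_lt_of_lt hO.lift.unc.le hI (one_lt_aleph0.trans hO.lift.unc)
  filter_upwards [ae_all hO (mk_fun (α := ULift.{u + 1} ℕ) hO hI') fun j =>
    seq hO (th := th) (mk_fun (α := ℕ × TN.{u}) hO (mk_prop hO))
      fun z p => ⟨B (j ⟨p.1⟩) (p.2.1.map fun a => z (idx a))⟩] with X h Z hZ hth J hJ
  rcases Z.eq_empty_or_nonempty with rfl | hne
  · exact ⟨fun a => a, by simp, by simp, by simp⟩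
  obtain ⟨z, rfl⟩ := hZ.exists_eq_range hne
  obtain ⟨j, hj⟩ := ((hJ.image some).insert none).exists_eq_range (insert_nonempty _ _)
  obtain ⟨w, h1, h2, h3⟩ := h (fun n => j n.down) z (range_subset_iff.1 hth)
  have h4 : ∀ o ∈ insert none (some '' J), ∀ t : TN.{u},
      B o (t.1.map fun a => w (idx a)) ↔ B o (t.1.map fun a => z (idx a)) := by
    rw [hj]
    rintro _ ⟨n, rfl⟩ t
    exact (congrArg ULift.down (congrFun h3 (n, t))).to_iff
  let g : Ordinal.{u} → ℕ := Function.invFun z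
  have hg : ∀ n, z (g (z n)) = z n := fun n => Function.invFun_eq ⟨n, rfl⟩
  have h5 : ∀ n, w (g (z n)) = w n := fun n => by
    have := (h4 none (mem_insert _ _) ⟨node (leaf (g (z n))) (leaf n), by
      simp [insert_subset_iff]⟩).2 (by simp [B, idx_cast, hg])
    simpa [B, idx_cast] using this
  refine ⟨fun a => w (g a), fun a _ => h1 _, ?_, fun i hi q hq => ?_⟩
  · rintro _ ⟨n, rfl⟩ hn
    exact (h5 n).trans (h2 n hn)
  · have := h4 (some i) (mem_insert_of_mem _ ⟨i, hi, rfl⟩) ⟨q.map fun a => g a, by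
      show lv _ ⊆ _
      rw [lv_map]
      rintro _ ⟨a, -, rfl⟩
      exact ⟨_, rfl⟩⟩
    simp only [Tr.map_map, idx_cast] at this
    rw [map_eq_self (t := q) (f := fun a => z (g a)) fun a ha => by
      obtain ⟨n, rfl⟩ := hq ha
      exact hg n] at this
    exact this.symm

end TypeI

instance : TypeSt.{u} := ⟨TypeI.ae⟩

end Pool.Agent.KM
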