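import Pool.Agent.Lib.MP_5c0be7_lc.T.St
import Pool.Agent.Lib.MP_5c0be7_lc.F.CmpA
import Pool.Agent.Lib.MP_5c0be7_lc.K.Loc

/-!
Project KM, block T1: comparison with a good weasel.
-/

set_option autoImplicit false

namespace Pool.Agent.KM.WinI

open Ordinal Cardinal Tr Set KE KL IT

universe u

variable {P : Pa.{u}} {E E' : Seq.{u}} {th th' l m r : Ordinal.{u}} {T U : IT.{u}}

theorem tall_lim (h : Tall P E th) {y : Ordinal.{u}} (hy : y < th) : y + 1 < th := by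
  refine lt_of_le_of_ne (Order.add_one_le_iff.2 hy) fun e => ?_
  have h1 := h.cof
  rw [← e, cof_add_one] at h1
  exact absurd (P.hO.aleph0_lt.trans_le h1) (not_lt.2 one_le_aleph0)

/-- Members of the stack are cofinal among the levels of a weasel. -/
theorem memb_cof [KIISt.{u}] (h : Tall P E th) {y : Ordinal.{u}} (hy : y < th) :
    ∃ b, y ≤ b ∧ b < th ∧ Memb P E b := by
  obtain ⟨a, h1, h2, h3⟩ := h.top (max y P.Om + 1) (tall_lim h (max_lt hy h.lt))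
  have hl : Lev E a := h.pm.ls a (lt1 h2.le)
  have ho : P.Om < a := (lt1 (le_max_right y P.Om)).trans_le h1
  obtain ⟨b, rfl⟩ := suc_of_rho hl (h3.trans_lt ho)
  have hb : b < th := (lt1 le_rfl).trans h2
  exact ⟨b, (le_max_left _ _).trans (s1le h1), hb, pm_mono h.pm (s1lt hb).le,
    KIISt.level h.pm.toPM0 h.ii hb.le zero_le, le1 ho, hl, h3⟩

theorem good_le [KIISt.{u}] (h : GoodW P E th) (h' : GoodW P E' th') (ha : Agree E E' P.Om) :
    th ≤ th' := le_of_forall_lt fun y hy =>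
  let ⟨b, h1, _, h3⟩ := memb_cof h.toTall hy
  h1.trans_lt (h'.full E b h3 ha)

/-- A good weasel is determined by its part below `Om`. -/
theorem good_eq [KIISt.{u}] [ReflSt.{u}] (h : GoodW P E th) (h' : GoodW P E' th')
    (ha : Agree E E' P.Om) : th = th' ∧ Agree E E' (th + 1) := by
  have e : th = th' := le_antisymm (good_le h h' ha) (good_le h' h (ag_symm ha))
  subst e
  refine ⟨rfl, fun v hv => ?_⟩
  rcases (le1 hv).eq_or_lt with rfl | hv
  · funext x y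
    exact propext ⟨fun c => absurd c (h.pas x y), fun c => absurd c (h'.pas x y)⟩
  · obtain ⟨b, h1, h2, h3⟩ := memb_cof h.toTall hv
    obtain ⟨b', h4, _, h6⟩ := memb_cof h'.toTall h2
    exact ReflSt.lin P h3 h6 ha h4 v (lt1 h1)

theorem nii_mono (h : NII P T l) (hm : m ≤ l) : NII P T m := fun j hj => h j (hj.trans hm)

variable [TreeSt.{u}]

theorem b_le (h : T.IsTr l) (hd : T.ND r l) : T.b r ≤ T.b l :=
  have hs := (TreeSt.strong h le_rfl hd).toWeak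
  (w_self hs (lt1 le_rfl)).trans (le1 (hs.maps _ (lt1 le_rfl)))

/-- The first node at which an index from `Om` on is used. -/
theorem cut (h : T.IsTr l) (hn : T.Normal l) : ∃ c ≤ l, Low P T c ∧ (c < l → P.Om ≤ T.nu c) := by
  by_cases hx : ∃ i, T.n ≤ i ∧ i < l ∧ P.Om ≤ T.nu i
  · obtain ⟨c, ⟨h1, h2, h3⟩, h4⟩ := wellFounded_lt.has_min _ hx
    exact ⟨c, h2.le, ⟨h.mono h1 h2.le, hn.mono h2.le, fun j j1 j2 =>
      not_le.1 fun j3 => h4 j ⟨j1, j2.trans h2, j3⟩ j2⟩, fun _ => h3⟩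
  · exact ⟨l, le_rfl, ⟨h, hn, fun j j1 j2 => not_le.1 fun j3 => hx ⟨j, j1, j2, j3⟩⟩,
      fun c => absurd c (lt_irrefl _)⟩

theorem cut_ag {c : Ordinal.{u}} (h : T.IsTr l) (hn : T.Normal l) (hc : c ≤ l) (hl : T.n ≤ c)
    (ho : c < l → P.Om ≤ T.nu c) : Agree (T.E c) (T.E l) P.Om := by
  rcases hc.eq_or_lt with rfl | hc
  · exact fun _ _ => rfl
  · exact ag_mono (TreeSt.nu_agree h hn hl hc le_rfl).1 (ho hc)

theorem cut_b {c : Ordinal.{u}} (h : T.IsTr l) (hc : c ≤ l) (hl : T.n ≤ c)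
    (ho : c < l → P.Om ≤ T.nu c) (hb : P.Om ≤ T.b l) : P.Om ≤ T.b c := by
  rcases hc.eq_or_lt with rfl | hc
  · exact hb
  · exact (ho hc).trans (h.step c hl hc).use.le

/-- A comparison stops at nodes with equal models. -/
theorem stop {i j : Ordinal.{u}} (h : T.Coit l U m) (i1 : T.n ≤ i) (i2 : i < l) (j1 : U.n ≤ j)
    (j2 : j ≤ m) (ha : Agree (T.E i) (U.E j) (T.b i + 1)) (hm : j < m → T.nu i ≤ U.nu j) :
    False := by
  have s := h.tr.step i i1 i2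
  have e : T.E i (T.nu i) = U.E j (T.nu i) := ha _ (lt1 s.use.le)
  obtain ⟨-, p, q, -⟩ := TreeSt.nu_agree h.tr h.nor i1 i2 le_rfl
  have e2 : T.E l (T.nu i) = U.E m (T.nu i) := h.agree _ (lt1 (le_min q (h.le i i1 i2)))
  have fin : U.E j (T.nu i) = U.E m (T.nu i) → False := fun e3 => by
    refine act_not_pas s.use.act fun x y c => p x y ?_
    rwa [e2, ← e3, ← e]
  rcases j2.eq_or_lt with rfl | j2
  · exact fin rfl
  · rcases (hm j2).eq_or_lt with e4 | e4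
    · exact h.ne i j i1 i2 j1 j2 e4 (e4 ▸ e)
    · exact fin ((TreeSt.nu_agree h.tr' h.nor' j1 j2 le_rfl).1 _ e4)

theorem stop' {i j : Ordinal.{u}} (h : T.Coit l U m) (i1 : T.n ≤ i) (i2 : i ≤ l) (j1 : U.n ≤ j)
    (j2 : j ≤ m) (hb : T.b i = U.b j) (ha : Agree (T.E i) (U.E j) (T.b i + 1)) :
    i = l ∧ j = m := by
  have ha' : Agree (U.E j) (T.E i) (U.b j + 1) := hb ▸ ag_symm ha
  rcases i2.eq_or_lt with rfl | i2 <;> rcases j2.eq_or_lt with rfl | j2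
  · exact ⟨rfl, rfl⟩
  · exact (stop (CmpA.symm h) j1 j2 i1 le_rfl ha' fun c => absurd c (lt_irrefl _)).elim
  · exact (stop h i1 i2 j1 le_rfl ha fun c => absurd c (lt_irrefl _)).elim
  · rcases le_total (T.nu i) (U.nu j) with c | c
    · exact (stop h i1 i2 j1 j2.le ha fun _ => c).elim
    · exact (stop (CmpA.symm h) j1 j2 i1 i2.le ha' fun _ => c).elim

variable [TriSt.{u}] [BrTameSt.{u}]

/-- A low tree whose last model is tall ends in a good weasel or wins. -/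
theorem two (h : Low P T l) (hr : Roots P T) (hn : NII P T l) (hb : P.Om ≤ T.b l) :
    (∃ r, T.Root r l ∧ T.ND r l ∧ GoodW P (T.E r) (T.b r) ∧ GoodW P (T.E l) (T.b l) ∧
      Tame P (T.E r) (T.b r) (T.E l) (T.b l) (T.mp r l)) ∨ (l = P.Om ∧ Win P T) := by
  rcases (TriSt.tri P h hr).2 with ⟨r, r1, r2, r3, r4⟩ | c | c
  · exact Or.inl ⟨r, r1, r2, r3, BrTameSt.tame P h.tr hr.la hn r1.1 r2 r3 r4⟩
  · exact absurd c (not_lt.2 hb)
  · exact Or.inr c

theorem br (h : Low P T l) (hr : Roots P T) (hn : NII P T l) (hl : l < P.Om) (r1 : T.Root r l)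
    (r2 : T.ND r l) (r3 : GoodW P (T.E r) (T.b r)) :
    GoodW P (T.E l) (T.b l) ∧ Tame P (T.E r) (T.b r) (T.E l) (T.b l) (T.mp r l) := by
  rcases two h hr hn (r3.lt.le.trans (b_le h.tr r2)) with ⟨r', s1, -, -, s⟩ | c
  · obtain rfl := r1.unique s1
    exact s
  · exact absurd c.1 hl.ne

theorem win [KIISt.{u}] [ReflSt.{u}] [NoWinSt.{u}] (h : T.Coit l U m) (hr : Roots P T)
    (hr' : Roots P U) (hn : NII P T l) (hn' : NII P U m) (r1 : T.Root r l) (r2 : T.ND r l)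
    (r3 : GoodW P (T.E r) (T.b r)) (hb : T.b l ≤ U.b m) :
    ∃ r', U.Root r' m ∧ U.ND r' m ∧ GoodW P (U.E r') (U.b r') ∧ T.b l = U.b m ∧
      GoodW P (T.E l) (T.b l) ∧ Tame P (T.E r) (T.b r) (T.E l) (T.b l) (T.mp r l) ∧
      Tame P (U.E r') (U.b r') (T.E l) (T.b l) (U.mp r' m) := by
  have ho : P.Om ≤ T.b l := r3.lt.le.trans (b_le h.tr r2)
  obtain ⟨c, c1, c2, c3⟩ := cut (P := P) h.tr h.nor
  obtain ⟨d, d1, d2, d3⟩ := cut (P := P) h.tr' h.nor'
  have ha : Agree (T.E c) (U.E d) P.Om :=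
    ag_trans (ag_trans (cut_ag h.tr h.nor c1 c2.tr.le c3)
      (ag_mono h.agree (lt1 (le_min ho (ho.trans hb))).le))
      (ag_symm (cut_ag h.tr' h.nor' d1 d2.tr.le d3))
  rcases two c2 hr (nii_mono hn c1) (cut_b h.tr c1 c2.tr.le c3 ho) with
    ⟨p, p1, -, -, p4, p5⟩ | ⟨rfl, w⟩ <;>
  rcases two d2 hr' (nii_mono hn' d1) (cut_b h.tr' d1 d2.tr.le d3 (ho.trans hb)) with
    ⟨q, q1, q2, q3, q4, q5⟩ | ⟨rfl, w'⟩
  · obtain ⟨e1, e2⟩ := good_eq p4 q4 ha
    obtain ⟨rfl, rfl⟩ := stop' h c2.tr.le c1 d2.tr.le d1 e1 e2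
    obtain rfl := r1.unique p1
    refine ⟨q, q1, q2, q3, e1, p4, p5, ?_⟩
    rw [e1] at e2 ⊢
    exact ⟨strong_right (ag_symm e2) q5.toStrong, q5.om, q5.cof, q5.c1, q5.c2⟩
  · exact absurd (ag_symm ha) (NoWinSt.good P d2 hr' (nii_mono hn' d1) w' p4)
  · exact absurd ha (NoWinSt.good P c2 hr (nii_mono hn c1) w q4)
  · exact absurd w' (NoWinSt.win P h c1 d1 c2 d2 hr hr' w)

end Pool.Agent.KM.WinI

namespace Pool.Agent.KM

universe u

instance [TreeSt.{u}] [TriSt.{u}] [BrTameSt.{u}] [KIISt.{u}] [ReflSt.{u}] [NoWinSt.{u}] :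
    WinSt.{u} :=
  ⟨fun _ => WinI.br, fun _ => WinI.win⟩

end Pool.Agent.KM
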