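import Pool.Agent.Lib.MP_5c0be7_lc.C.Br
import Pool.Agent.Lib.MP_5c0be7_lc.C.CloseUlt
import Pool.Agent.Lib.MP_5c0be7_lc.C.DefAct
import Pool.Agent.Lib.MP_5c0be7_lc.C.Key
import Pool.Agent.Lib.MP_5c0be7_lc.C.Pres
import Pool.Agent.Lib.MP_5c0be7_lc.F.ActI
import Pool.Agent.Lib.MP_5c0be7_lc.F.Cmp
import Pool.Agent.Lib.MP_5c0be7_lc.F.Compat
import Pool.Agent.Lib.MP_5c0be7_lc.F.CutI
import Pool.Agent.Lib.MP_5c0be7_lc.F.Iter
import Pool.Agent.Lib.MP_5c0be7_lc.F.Size
import Pool.Agent.Lib.MP_5c0be7_lc.F.TreeC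
import Pool.Agent.Lib.MP_5c0be7_lc.G.Frag
import Pool.Agent.Lib.MP_5c0be7_lc.K.ActI
import Pool.Agent.Lib.MP_5c0be7_lc.K.Crit
import Pool.Agent.Lib.MP_5c0be7_lc.K.DJ
import Pool.Agent.Lib.MP_5c0be7_lc.K.EvI
import Pool.Agent.Lib.MP_5c0be7_lc.K.Ext
import Pool.Agent.Lib.MP_5c0be7_lc.K.FragMk
import Pool.Agent.Lib.MP_5c0be7_lc.K.GoodI
import Pool.Agent.Lib.MP_5c0be7_lc.K.Hull
import Pool.Agent.Lib.MP_5c0be7_lc.K.II
import Pool.Agent.Lib.MP_5c0be7_lc.K.IterI
import Pool.Agent.Lib.MP_5c0be7_lc.K.Max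
import Pool.Agent.Lib.MP_5c0be7_lc.K.Real2
import Pool.Agent.Lib.MP_5c0be7_lc.K.Step
import Pool.Agent.Lib.MP_5c0be7_lc.K.Zorn
import Pool.Agent.Lib.MP_5c0be7_lc.L.Agree
import Pool.Agent.Lib.MP_5c0be7_lc.L.Bridge1
import Pool.Agent.Lib.MP_5c0be7_lc.L.Cond
import Pool.Agent.Lib.MP_5c0be7_lc.L.CritReg
import Pool.Agent.Lib.MP_5c0be7_lc.L.Hull
import Pool.Agent.Lib.MP_5c0be7_lc.L.Lim
import Pool.Agent.Lib.MP_5c0be7_lc.L.LimMap
import Pool.Agent.Lib.MP_5c0be7_lc.L.Los
import Pool.Agent.Lib.MP_5c0be7_lc.L.LosAct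
import Pool.Agent.Lib.MP_5c0be7_lc.L.LosPm
import Pool.Agent.Lib.MP_5c0be7_lc.L.Rank
import Pool.Agent.Lib.MP_5c0be7_lc.L.Real
import Pool.Agent.Lib.MP_5c0be7_lc.L.RealWf
import Pool.Agent.Lib.MP_5c0be7_lc.L.Red
import Pool.Agent.Lib.MP_5c0be7_lc.L.RedClo
import Pool.Agent.Lib.MP_5c0be7_lc.L.UAct
import Pool.Agent.Lib.MP_5c0be7_lc.L.UF
import Pool.Agent.Lib.MP_5c0be7_lc.L.UId
import Pool.Agent.Lib.MP_5c0be7_lc.L.UPre
import Pool.Agent.Lib.MP_5c0be7_lc.L.URep
import Pool.Agent.Lib.MP_5c0be7_lc.L.UTop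
import Pool.Agent.Lib.MP_5c0be7_lc.L.Ult
import Pool.Agent.Lib.MP_5c0be7_lc.L.UltAct
import Pool.Agent.Lib.MP_5c0be7_lc.L.UltFact
import Pool.Agent.Lib.MP_5c0be7_lc.O.F3b
import Pool.Agent.Lib.MP_5c0be7_lc.O.F3c
import Pool.Agent.Lib.MP_5c0be7_lc.P.Cnd
import Pool.Agent.Lib.MP_5c0be7_lc.P.Core
import Pool.Agent.Lib.MP_5c0be7_lc.P.Phx
import Pool.Agent.Lib.MP_5c0be7_lc.T.Base
import Pool.Agent.Lib.MP_5c0be7_lc.T.BrTame
import Pool.Agent.Lib.MP_5c0be7_lc.T.Cnd3
import Pool.Agent.Lib.MP_5c0be7_lc.T.Cts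
import Pool.Agent.Lib.MP_5c0be7_lc.T.D3
import Pool.Agent.Lib.MP_5c0be7_lc.T.D4
import Pool.Agent.Lib.MP_5c0be7_lc.T.Drop
import Pool.Agent.Lib.MP_5c0be7_lc.T.End
import Pool.Agent.Lib.MP_5c0be7_lc.T.HP
import Pool.Agent.Lib.MP_5c0be7_lc.T.IILim
import Pool.Agent.Lib.MP_5c0be7_lc.T.KCore
import Pool.Agent.Lib.MP_5c0be7_lc.T.LiftX
import Pool.Agent.Lib.MP_5c0be7_lc.T.NM
import Pool.Agent.Lib.MP_5c0be7_lc.T.NoWin
import Pool.Agent.Lib.MP_5c0be7_lc.T.Out
import Pool.Agent.Lib.MP_5c0be7_lc.T.Refl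
import Pool.Agent.Lib.MP_5c0be7_lc.T.S2
import Pool.Agent.Lib.MP_5c0be7_lc.T.S3
import Pool.Agent.Lib.MP_5c0be7_lc.T.S3Ref
import Pool.Agent.Lib.MP_5c0be7_lc.T.S4
import Pool.Agent.Lib.MP_5c0be7_lc.T.S5
import Pool.Agent.Lib.MP_5c0be7_lc.T.Str
import Pool.Agent.Lib.MP_5c0be7_lc.T.Tri
import Pool.Agent.Lib.MP_5c0be7_lc.T.Type
import Pool.Agent.Lib.MP_5c0be7_lc.T.Win

/-!
Project KM: the statements of the blocks up to T1 hold.
-/

namespace Pool.Agent.KM.All

universe u

instance iAccSt : AccSt.{u} := inferInstance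
instance iDiagSt : DiagSt.{u} := inferInstance
instance iUltFactSt : UltFactSt.{u} := inferInstance
instance iCloseUltSt : CloseUltSt.{u} := inferInstance
instance iDefActSt : DefActSt.{u} := inferInstance
instance iAgreeSt : AgreeSt.{u} := inferInstance
instance iNamedSt : NamedSt.{u} := inferInstance
instance iRegSt : RegSt.{u} := inferInstance
instance iPresSt : PresSt.{u} := inferInstance
instance iKeySt : KeySt.{u} := inferInstance
instance iActSt : ActSt.{u} := inferInstance
instance iCompatSt : CompatSt.{u} := inferInstance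
instance iCutSt : CutSt.{u} := inferInstance
instance iSizeSt : SizeSt.{u} := inferInstance
instance iCritSt : CritSt.{u} := inferInstance
instance iFragMkSt : FragMkSt.{u} := inferInstance
instance iFragSt : FragSt.{u} := inferInstance
instance iKActSt : KActSt.{u} := inferInstance
instance iUltActSt : UltActSt.{u} := inferInstance
instance iTreeSt : TreeSt.{u} := inferInstance
instance iCmpSt : CmpSt.{u} := inferInstance
instance iLosActSt : LosActSt.{u} := inferInstance
instance iLosPmSt : LosPmSt.{u} := inferInstance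
instance iRedSt : RedSt.{u} := inferInstance
instance iLosSt : LosSt.{u} := inferInstance
instance iLimSt : LimSt.{u} := inferInstance
instance iUIdSt : UIdSt.{u} := inferInstance
instance iUActSt : UActSt.{u} := inferInstance
instance iUFSt : UFSt.{u} := inferInstance
instance iUPreSt : UPreSt.{u} := inferInstance
instance iURepSt : URepSt.{u} := inferInstance
instance iUTopSt : UTopSt.{u} := inferInstance
instance iUltSt : UltSt.{u} := inferInstance
instance iUltExSt : UltExSt.{u} := inferInstance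
instance iIterSt : IterSt.{u} := inferInstance
instance iKEvSt : KEvSt.{u} := inferInstance
instance iKGoodSt : KGoodSt.{u} := inferInstance
instance iCondSt : CondSt.{u} := inferInstance
instance iKHullSt : KHullSt.{u} := inferInstance
instance iAmenSt : AmenSt.{u} := inferInstance
instance iRealSt : RealSt.{u} := inferInstance
instance iRealWfSt : RealWfSt.{u} := inferInstance
instance iKStepSt : KStepSt.{u} := inferInstance
instance iKTreeSt : KTreeSt.{u} := inferInstance
instance iLimMapSt : LimMapSt.{u} := inferInstance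
instance iKRealSt : KRealSt.{u} := inferInstance
instance iKDJSt : KDJSt.{u} := inferInstance
instance iHullSt : HullSt.{u} := inferInstance
instance iKIISt : KIISt.{u} := inferInstance
instance iKIterSt : KIterSt.{u} := inferInstance
instance iKWfSt : KWfSt.{u} := inferInstance
instance iBrSt : BrSt.{u} := inferInstance
instance iDJ1St : DJ1St.{u} := inferInstance
instance iPhxSt : PhxSt.{u} := inferInstance
instance iCndSt : CndSt.{u} := inferInstance
instance iCoreSt : CoreSt.{u} := inferInstance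
instance iMaxSt : MaxSt.{u} := inferInstance
instance iExtSt : ExtSt.{u} := inferInstance
instance iZornSt : ZornSt.{u} := inferInstance
instance iCritRegSt : CritRegSt.{u} := inferInstance
instance iRankSt : RankSt.{u} := inferInstance
instance iRedCloSt : RedCloSt.{u} := inferInstance
instance iBaseSt : BaseSt.{u} := inferInstance
instance iCtsSt : CtsSt.{u} := inferInstance
instance iTypeSt : TypeSt.{u} := inferInstance
instance iReflSt : ReflSt.{u} := inferInstance
instance iNMSt : NMSt.{u} := inferInstance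
instance iS3RefSt : S3RefSt.{u} := inferInstance
instance iS3St : S3St.{u} := inferInstance
instance iBrTameSt : BrTameSt.{u} := inferInstance
instance iCnd3St : Cnd3St.{u} := inferInstance
instance iOverSt : OverSt.{u} := inferInstance
instance iTriSt : TriSt.{u} := inferInstance
instance iNoWinSt : NoWinSt.{u} := inferInstance
instance iWinSt : WinSt.{u} := inferInstance
instance iS5St : S5St.{u} := inferInstance
instance iStrSt : StrSt.{u} := inferInstance
instance iDropSt : DropSt.{u} := inferInstance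
instance iIILimSt : IILimSt.{u} := inferInstance
instance iKCoreSt : KCoreSt.{u} := inferInstance
instance iEndSt : EndSt := inferInstance

variable [UltIISt.{u}]

instance iS4St : S4St.{u} := inferInstance
instance iHPSt : HPSt.{u} := inferInstance
instance iD3St : D3St.{u} := inferInstance
instance iD4St : D4St.{u} := inferInstance
instance iLiftXSt : LiftXSt.{u} := inferInstance
instance iS2St : S2St.{u} := inferInstance
instance iOutSt : OutSt.{u} := inferInstance

end Pool.Agent.KM.All
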