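import Pool.Agent.Lib.MP_5c0be7_lc.T.St
import Pool.Agent.Lib.MP_5c0be7_lc.T.StEnd
import Pool.Agent.Lib.MP_5c0be7_lc.C.KeyK

/-!
Project KM, blocks T2, T3: the covering argument. Definitions and statements.
-/

namespace Pool.Agent.KM

open Ordinal Cardinal Tr Set

universe u

/-- The weasel and the singular cardinal. -/
structure Env : Type (u + 1) where
  P : Pa.{u}
  lam : Cardinal.{u}
  W : Seq.{u}
  th : Ordinal.{u}

/-- `W` is a good weasel that is rigid below the successor of `lam`. -/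
structure Env.Ok (V : Env.{u}) : Prop where
  t : V.P.t = Order.succ V.lam
  unc : ℵ₀ < V.lam
  sl : V.lam.IsStrongLimit
  cf : V.lam.ord.cof = ℵ₀
  good : GoodW V.P V.W V.th
  rig : ∀ E' th' i j, Tame V.P V.W V.th E' th' i → Tame V.P V.W V.th E' th' j →
    ∀ x < V.P.t.ord, i x = j x

/-- The extender `e` from `(t, W)` to `N` is countably realisable over `(th + 1, W)`; this is the
hypothesis of `UltIISt.lift`. -/
def RzX (C : Cfg.{u}) (W : Seq.{u}) (th : Ordinal.{u}) (N : Seq.{u}) (k t : Ordinal.{u})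
    (e : Ordinal.{u} → Ordinal.{u}) : Prop :=
  ∀ (E0 : Seq.{u}) a0 k0 t0 r (Z : Set Ordinal.{u}), a0 < ω₁ → PM0 E0 (a0 + 1) →
    Strong E0 (a0 + 1) W (th + 1) r → r k0 = k → r t0 = t → k0 < t0 → t0 ≤ a0 → Z.Countable →
    ∃ G j q, PM0 G (j a0 + 1) ∧ II C 0 G (j a0) ∧ Good E0 a0 G j ∧
      (∀ z ∈ Z, z < e k → q z < j k0) ∧ ∀ n w : Tr.{u}, In t0 n → w.lv ⊆ Z → In (e k) w →
        (Nm N (n.map (e ∘ r)) w ↔ Nm G (n.map j) (w.map q))

/-- The first return to `W` of a tree on the phalanx `(W, S, l)` is realisable. -/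
def Ret (C : Cfg.{u}) (W : Seq.{u}) (th : Ordinal.{u}) (S : Seq.{u}) (b l : Ordinal.{u}) : Prop :=
  ∀ (U : IT.{u}) j v k t e, (IT.two W th S b l).EqLt U 2 → U.IsTr j → U.Above l j →
    U.Use j v k t e → k < l → RzX C W th (U.E j) k t e

/-- The collapse `(bb + 1, Eb)` of a small hull of `W`, with uncollapse `pi`. -/
structure Hx (V : Env.{u}) (Eb : Seq.{u}) (bb : Ordinal.{u}) (pi : Ordinal.{u} → Ordinal.{u})
    (lb tb : Ordinal.{u}) : Prop where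
  pm : PM Eb (bb + 1)
  mono : StrictMono pi
  str : Strong Eb (bb + 1) V.W (V.th + 1) pi
  sm : bb < V.lam.ord
  w1 : pi ω₁ = ω₁
  w1lt : ω₁ < lb
  plb : pi lb = V.lam.ord
  nx : IsNext Eb (bb + 1) lb tb
  lt : tb < bb
  cts : Cts pi tb
  clo : ∀ t ≤ bb, t.cof = ℵ₀ → Cts pi t
  gap : ∀ x ≤ bb, pi x = x ∨ bb < pi x
  back : ∀ (E1 : Seq.{u}) b1 q, b1 < ω₁ → Strong E1 (b1 + 1) V.W (V.th + 1) q →
    ∃ w, Strong E1 (b1 + 1) Eb (bb + 1) w ∧ ∀ x ≤ b1, ∀ y ≤ bb, q x = pi y → w x = y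

/-- The data of the covering argument: the hull and its comparison with `W`. -/
structure Cov : Type (u + 1) extends Env.{u} where
  Eb : Seq.{u}
  bb : Ordinal.{u}
  pi : Ordinal.{u} → Ordinal.{u}
  lb : Ordinal.{u}
  tb : Ordinal.{u}
  T : IT.{u}
  l : Ordinal.{u}
  U : IT.{u}
  mu : Ordinal.{u}

namespace Cov

variable (S : Cov.{u})

/-- The data are correct. -/
structure Ok : Prop where
  env : S.toEnv.Ok
  hx : Hx S.toEnv S.Eb S.bb S.pi S.lb S.tb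
  eqT : (IT.one S.W S.th).EqLt S.T 1
  eqU : (IT.one S.Eb S.bb).EqLt S.U 1
  coit : S.T.Coit S.l S.U S.mu

/-- `m` is an infinite cardinal of the hull and `t` is its successor. -/
structure Nx (m t : Ordinal.{u}) : Prop where
  inf : ω ≤ m
  le : m ≤ S.lb
  card : IsCard S.Eb (S.bb + 1) m
  next : IsNext S.Eb (S.bb + 1) m t

/-- `(c + 1, T.E a)` is the model to which an extender with critical point `m` is applied. -/
structure Pm (m t a c : Ordinal.{u}) : Prop where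
  le : a ≤ S.l
  lo : ∀ i < a, S.T.la i ≤ m ∧ S.T.nu i ≤ t
  hi : a < S.l → t ≤ S.T.la a
  ag : Agree (S.T.E a) S.Eb (t + 1)
  lvl : Lvl (S.T.E a) (S.T.b a) m t c

/-- The unfolding of the model at `m`. -/
inductive Unf : Ordinal.{u} → Ordinal.{u} → Seq.{u} → Ordinal.{u} → Prop
  | good {m t a c : Ordinal.{u}} (nx : S.Nx m t) (pm : S.Pm m t a c)
      (top : TopCts (S.T.E a) c m t S.pi) : Unf m t (S.T.E a) c
  | bad {m t a c m1 t1 b1 : Ordinal.{u}} {H j : Ordinal.{u} → Ordinal.{u}} {E1 E : Seq.{u}}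
      (nx : S.Nx m t) (pm : S.Pm m t a c) (act : Act (S.T.E a) c m1 t1 H) (le : t1 ≤ m)
      (disc : ¬ Cts S.pi t1) (prev : Unf m1 t1 E1 b1) (ult : IsUlt E1 b1 m1 E j)
      (ext : ∀ x < t1, j x = H x) (top : j t1 = c) (ag : Agree E (S.T.E a) c)
      (pm' : PM E (j b1 + 1)) : Unf m t E (j b1)

/-- The lift of `(b + 1, E)` by `pi` is `(g b + 1, F)`. -/
structure Lift (m t : Ordinal.{u}) (E : Seq.{u}) (b : Ordinal.{u}) (F : Seq.{u})
    (g : Ordinal.{u} → Ordinal.{u}) : Prop where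
  ult : IsUlt E b m F g
  ext : ∀ x < t, g x = S.pi x
  cts : Cts g t
  ag : Agree F S.W (g t)
  pm : PM F (g b + 1)

/-- The induction hypothesis at `m`. -/
def I (m t : Ordinal.{u}) : Prop :=
  (∃ a c, S.Pm m t a c) ∧ ∀ E b, S.Unf m t E b → (S.pi t = t ∧ E = S.W ∧ b = S.th) ∨
    (t < S.pi t ∧ ∃ g, S.Lift m t E b S.W g ∧ g b < S.th ∧ rho S.W (g b + 1) ≤ S.pi m)

/-- The induction hypothesis below `m`. -/
def IB (m : Ordinal.{u}) : Prop := ∀ m' t', S.Nx m' t' → m' < m → S.I m' t'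

end Cov

/-- The phalanx lemma. -/
class BSt : Prop where
  seg : ∀ {V : Env.{u}} {S : Seq.{u}} {b l q}, V.Ok → l ≤ V.lam.ord → IsCard V.W (V.th + 1) l →
    PM S (b + 1) → V.P.II S b → KS S (b + 1) l q → l ≤ b → Agree S V.W (l + 1) →
    IsCard S (b + 1) l → Ret V.P.C V.W V.th S b l → b < V.th ∧ Agree S V.W (b + 1)

/-- Premice that embed locally in levels of `W` satisfy the hypotheses of the phalanx lemma. -/
class LocSt : Prop where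
  loc : ∀ {V : Env.{u}} {S : Seq.{u}} {b} {Q : Ordinal.{u} → Prop}, V.Ok → PM S (b + 1) →
    V.lam.ord ≤ b → Agree S V.W V.lam.ord → (∀ a, Q a → a ≤ V.th) → LocEmb V.W Q V.lam.ord S b →
    V.P.II S b ∧ Agree S V.W (V.lam.ord + 1) ∧ Ret V.P.C V.W V.th S b V.lam.ord

/-- Existence of the hull. -/
class HullXSt : Prop where
  hull : ∀ {V : Env.{u}} {tau}, V.Ok → IsNext V.W (V.th + 1) V.lam.ord tau → tau < V.P.t.ord →
    ∃ Eb bb pi lb tb, Hx V Eb bb pi lb tb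

/-- Elementary facts on the setting. -/
class CovBSt : Prop where
  nx : ∀ {S : Cov.{u}} {m t}, S.Ok → S.Nx m t → t ≤ S.tb ∧ ¬ Suc m ∧ ¬ Suc t ∧ Pas S.Eb m ∧
    Pas S.Eb t ∧ IsCard S.Eb (S.bb + 1) t ∧ S.pi m ≤ S.lam.ord ∧
    IsCard S.W (S.th + 1) (S.pi m) ∧ IsNext S.W (S.th + 1) (S.pi m) (S.pi t)
  top : ∀ {S : Cov.{u}}, S.Ok → S.Nx S.lb S.tb
  succ : ∀ {S : Cov.{u}} {m}, S.Ok → ω ≤ m → m ≤ S.lb → IsCard S.Eb (S.bb + 1) m → ∃ t, S.Nx m t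
  cover : ∀ {S : Cov.{u}} {x}, S.Ok → ω₁ ≤ x → x < S.tb → ∃ m t, S.Nx m t ∧ m ≤ x ∧ x < t
  oc : ∀ {S : Cov.{u}} {m t}, S.Ok → S.Nx m t → OC S.Eb S.W m t S.pi
  ext : ∀ {S : Cov.{u}} {m t}, S.Ok → S.Nx m t → ∃ v ≤ S.pi t, Ext S.Eb m t S.W v S.pi
  cof : ∀ {S : Cov.{u}} {m t}, S.Ok → S.Nx m t → ¬ Cts S.pi t → ℵ₀ < t.cof ∧ t < S.pi t
  ii : ∀ {S : Cov.{u}} {R : IT.{u}} {l j}, S.Ok → (IT.one S.W S.th).EqLt R 1 → R.IsTr l → j ≤ l →
    S.P.II (R.E j) (R.b j)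
  iter : ∀ {S : Cov.{u}}, S.Ok → (IT.one S.W S.th).Iterable 0
  low : ∀ {S : Cov.{u}}, S.Ok → S.U.b S.mu ≤ S.T.b S.l ∧ S.U.ND 0 S.mu
  first : ∀ {S : Cov.{u}} {x}, S.Ok → x ≤ S.bb → S.pi x = x →
    (0 < S.l → x < S.T.nu 0) ∧ (0 < S.mu → x < S.U.nu 0)
  pm : ∀ {S : Cov.{u}} {m t}, S.Ok → S.Nx m t → (0 < S.mu → t < S.U.nu 0) → ∃ a c, S.Pm m t a c
  pm_uniq : ∀ {S : Cov.{u}} {m t a c a' c'}, S.Ok → S.Nx m t → S.Pm m t a c → S.Pm m t a' c' →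
    a = a' ∧ c = c'
  pm_mono : ∀ {S : Cov.{u}} {m t a c m' t' a' c'}, S.Ok → S.Nx m t → S.Nx m' t' → m ≤ m' →
    S.Pm m t a c → S.Pm m' t' a' c' → a ≤ a'
  pm_low : ∀ {S : Cov.{u}} {m t a c}, S.Ok → S.Nx m t → S.Pm m t a c →
    Low S.P S.T a ∧ a < S.lam.ord
  triv : ∀ {S : Cov.{u}} {m t E b}, S.Ok → S.Unf m t E b → S.pi t = t → E = S.W ∧ b = S.th

/-- The hull does not move up to the successor of `m`. -/
class UStepSt : Prop where
  step : ∀ {S : Cov.{u}} {m t}, S.Ok → S.Nx m t → S.IB m → 0 < S.mu → t < S.U.nu 0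

/-- The hull embeds in a level of the last model of an extension of `T`. -/
class KMainSt : Prop where
  main : ∀ {S : Cov.{u}} {k n m t a c}, S.Ok → S.Nx k n → S.Nx m t → k < m → S.IB m →
    S.Pm m t a c → ∃ (R : IT.{u}) (l e : Ordinal.{u}) (f : Ordinal.{u} → Ordinal.{u}),
      S.T.EqLt R (a + 1) ∧ a ≤ l ∧ R.IsTr l ∧ R.Normal l ∧
      (∀ j, a ≤ j → j < l → t < R.nu j ∧ R.nu j ≤ e ∧ n ≤ R.la j) ∧ e ≤ R.b l ∧
      Strong S.Eb (S.bb + 1) (R.E l) (e + 1) f ∧ (∀ x < n, f x = x) ∧ IsCard (R.E l) (e + 1) n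

/-- The unfolding is reached by a finite chain of top extenders. -/
class ChainSt : Prop where
  basic : ∀ {S : Cov.{u}} {m t E b}, S.Ok → S.Unf m t E b → S.Nx m t ∧ PM E (b + 1) ∧ t ≤ b ∧
    NoProj E m t (b + 1) ∧ Agree E S.Eb (t + 1) ∧ TopCts E b m t S.pi
  ex : ∀ {S : Cov.{u}} {m t}, S.Ok → S.Nx m t →
    (∀ m' t', S.Nx m' t' → m' ≤ m → ∃ a c, S.Pm m' t' a c) → ∃ E b, S.Unf m t E b
  ii : ∀ {S : Cov.{u}} {m t E b}, S.Ok → S.Unf m t E b → S.P.II E b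
  alt : ∀ {S : Cov.{u}} {m t E b a c k}, S.Ok → S.Unf m t E b → S.Pm m t a c → k ≤ m →
    ∃ (R : IT.{u}) (l : Ordinal.{u}), S.T.EqLt R (a + 1) ∧ a ≤ l ∧ R.IsTr l ∧
      (∀ i, a ≤ i → i < l → k ≤ R.ka i ∧ R.pr i ≤ a) ∧ (l = a ∨ ∃ i, a ≤ i ∧ l = i + 1) ∧
      ((b ≤ R.b l ∧ Agree E (R.E l) (b + 1)) ∨
        ∃ v k0 t0 H, v ≤ R.b l ∧ Act (R.E l) v k0 t0 H ∧ k0 < k ∧ m < H k0 ∧ ℵ₀ < v.cof ∧ v ≤ b ∧
          Agree E (R.E l) v ∧ Pas E v ∧ IsNext E (b + 1) (H k0) v ∧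
          ∀ k' t' e', Act E b k' t' e' → k' < k0 ∨ H k0 ≤ k')

/-- The lift of the unfolding exists and is realisable. -/
class LiftCSt : Prop where
  lift : ∀ {S : Cov.{u}} {m t E b}, S.Ok → S.Unf m t E b → ∃ F g, S.Lift m t E b F g ∧
    S.P.II F (g b) ∧ IsCard F (g b + 1) (S.pi m)

/-- The lift is sound above `pi m`, unless the model is a weasel. -/
class SndSt : Prop where
  snd : ∀ {S : Cov.{u}} {m t E b F g}, S.Ok → S.Unf m t E b → S.IB m → S.Lift m t E b F g →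
    (∃ q, KS F (g b + 1) (S.pi m) q) ∨ ∃ a, S.Pm m t a (S.T.b a) ∧ S.T.ND 0 a ∧ E = S.T.E a ∧
      b = S.T.b a

/-- The weasel case is impossible above the critical point of `pi`. -/
class WslSt : Prop where
  wsl : ∀ {S : Cov.{u}} {m t a}, S.Ok → S.Nx m t → S.Pm m t a (S.T.b a) → S.T.ND 0 a →
    S.pi t = t

/-- The hypothesis of the phalanx lemma for the lift. -/
class RetSt : Prop where
  ret : ∀ {S : Cov.{u}} {m t E b F g}, S.Ok → S.Unf m t E b → S.IB m → S.Lift m t E b F g →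
    Ret S.P.C S.W S.th F (g b) (S.pi m)

/-- The induction step. -/
class IndSt : Prop where
  step : ∀ {S : Cov.{u}} {m t}, S.Ok → S.Nx m t → S.IB m → S.I m t

end Pool.Agent.KM
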