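import Pool.Agent.Lib.MP_5c0be7_lc.T.Bp
import Pool.Agent.Lib.MP_5c0be7_lc.T.StCov

/-!
Project KM, block T3: the phalanx lemma.
-/

namespace Pool.Agent.KM

open Ordinal Tr KE

universe u

variable [TreeSt.{u}] [ActSt.{u}] [UltIISt.{u}]

theorem Bp.Ph.hyp {P : Pa.{u}} {W S : Seq.{u}} {th b l : Ordinal.{u}} (h : Bp.Ph P W th S b l)
    (H : Ret P.C W th S b l) : Bp.Hyp P W th S b l := by
  intro U j v k t e hU hT hA hu hk
  obtain ⟨n, s, hp⟩ := TreeSt.pred_ex hT hu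
  obtain ⟨rfl, rfl⟩ := h.pred0 hU hT hu hp hk
  obtain ⟨E', i, h1, h2, -, h3, -, h4⟩ := UltIISt.lift (C := P.C) h.good.pm (TA.use_pm hT le_rfl hu)
    (Bp.two_E0 hU ▸ TreeSt.pred_ext hT hu hp) hp.ta_le (Bp.two_E0 hU ▸ hp.noproj)
    (fun _ _ _ a => absurd h.good.pas (KL.act_not_pas a)) (H U j v k t e hU hT hA hu hk)
  exact ⟨E', i, h1, h2, h3, h4⟩

instance [RealSt.{u}] [HullSt.{u}] [CondSt.{u}] [KTreeSt.{u}] [KIterSt.{u}] [KIISt.{u}]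
    [KRealSt.{u}] [KHullSt.{u}] [AccSt.{u}] [AmenSt.{u}] [KStepSt.{u}] [KWfSt.{u}] [RealWfSt.{u}]
    [CmpSt.{u}] [WinSt.{u}] [BrSt.{u}] [KeySt.{u}] [UltFactSt.{u}] [PresSt.{u}] [AgreeSt.{u}] :
    BSt.{u} where
  seg {V S b l q} hV h1 h2 h3 h4 h5 h6 h7 h8 h9 := by
    have t1 : l ≤ V.P.t.ord := h1.trans (Cardinal.ord_le_ord.2 (hV.t ▸ Order.le_succ _))
    have t2 : l < V.P.Om := t1.trans_lt (Cardinal.ord_lt_ord.2 V.P.h2)
    have t3 : b < V.P.Om := (lt_add_one b).trans (KL.gen_lt V.P.hO.1 t2 h5.gen)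
    have t4 : Pas V.W l := TA.pas_of_card hV.good.pm.toPM0 (t2.trans hV.good.lt) h2
    have h : Bp.Ph V.P V.W V.th S b l := ⟨hV.good, h3, h4, h6, t3, t1,
      fun x y => h7 l (lt_add_one l) ▸ t4 x y,
      KL.ag_mono (KL.ag_symm h7) (lt_add_one l).le, h2, h8⟩
    exact ⟨t3.trans hV.good.lt, h.agree (h.hyp h9) hV.rig t1 h5⟩

end Pool.Agent.KM
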