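import Pool.Agent.Lib.MP_5c0be7_lc.T.Fold
import Pool.Agent.Lib.MP_5c0be7_lc.T.Str
import Pool.Agent.Lib.MP_5c0be7_lc.C.KeyK
import Pool.Agent.Lib.MP_5c0be7_lc.C.Br
import Pool.Agent.Lib.MP_5c0be7_lc.F.CmpA

/-!
Project KM, block T3: a premouse that is sound above a cardinal of the weasel and forms an
iterable phalanx with it is a level of the weasel.
-/

set_option linter.unusedSectionVars false

namespace Pool.Agent.KM

open Ordinal Tr KE Set Fold
open scoped Classical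

universe u

/-- Two tame maps from `(th + 1, W)` into the same weasel agree below `z`. -/
def Rigid (P : Pa.{u}) (W : Seq.{u}) (th z : Ordinal.{u}) : Prop :=
  ∀ E' th' i j, Tame P W th E' th' i → Tame P W th E' th' j → ∀ x < z, i x = j x

namespace Bp

/-- The first return to `W` of a tree on the phalanx `(W, S, l)` gives a realisable ultrapower. -/
def Hyp (P : Pa.{u}) (W : Seq.{u}) (th : Ordinal.{u}) (S : Seq.{u}) (b l : Ordinal.{u}) : Prop :=
  ∀ (U : IT.{u}) j v k t e, (IT.two W th S b l).EqLt U 2 → U.IsTr j → U.Above l j →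
    U.Use j v k t e → k < l → ∃ E' i, IsUlt W th k E' i ∧ (∀ x < t, i x = e x) ∧
      Agree E' (U.E j) v ∧ P.II E' (i th)

/-- The phalanx `(W, S, l)`. -/
structure Ph (P : Pa.{u}) (W : Seq.{u}) (th : Ordinal.{u}) (S : Seq.{u}) (b l : Ordinal.{u}) :
    Prop where
  good : GoodW P W th
  pm : PM S (b + 1)
  ii : P.II S b
  le : l ≤ b
  lt : b < P.Om
  t : l ≤ P.t.ord
  pas : Pas S l
  ag : Agree W S l
  card : IsCard W (th + 1) l
  card' : IsCard S (b + 1) l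

variable {P : Pa.{u}} {W S : Seq.{u}} {T U : IT.{u}} {b c d i j k l m n s t th v z : Ordinal.{u}}
  {e : Ordinal.{u} → Ordinal.{u}} {p : Tr.{u}}

theorem two_n (h : (IT.two W th S b l).EqLt U 2) : U.n = 1 := h.n
theorem two_E0 (h : (IT.two W th S b l).EqLt U 2) : U.E 0 = W :=
  (h.E Phx.zero_lt_two').trans IIp.two_E0
theorem two_b0 (h : (IT.two W th S b l).EqLt U 2) : U.b 0 = th :=
  (h.b Phx.zero_lt_two').trans IIp.two_b0
theorem two_E1 (h : (IT.two W th S b l).EqLt U 2) : U.E 1 = S :=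
  (h.E Phx.one_lt_two').trans IIp.two_E1
theorem two_b1 (h : (IT.two W th S b l).EqLt U 2) : U.b 1 = b :=
  (h.b Phx.one_lt_two').trans IIp.two_b1
theorem two_la (h : (IT.two W th S b l).EqLt U 2) : U.la 0 = l :=
  (h.la (by simpa using Phx.one_lt_two')).trans IIp.two_la
theorem two_eq : (IT.two W th S b l).EqLt U ((IT.two W th S b l).n + 1) ↔
    (IT.two W th S b l).EqLt U 2 := by
  rw [show (IT.two W th S b l).n + 1 = 2 from one_add_one_eq_two]

theorem Ph.lt_th (h : Ph P W th S b l) : l < th := h.le.trans_lt (h.lt.trans h.good.lt)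

variable [TreeSt.{u}] [ActSt.{u}]

theorem Ph.pasW (h : Ph P W th S b l) : Pas W l :=
  TA.pas_of_card h.good.pm.toPM0 h.lt_th h.card

theorem Ph.phal (h : Ph P W th S b l) : (IT.two W th S b l).Phal :=
  Phx.phal_two h.good.pm h.pm h.lt_th.le h.le h.pasW h.ag h.card'

theorem Ph.pii (h : Ph P W th S b l) (hU : (IT.two W th S b l).EqLt U 2) : PII P.C l U :=
  IterI.pii_congr (pii_free rfl h.phal h.good.ii h.ii) (two_eq.2 hU)

theorem Ph.pred0 (h : Ph P W th S b l) (hU : (IT.two W th S b l).EqLt U 2) (hT : U.IsTr j)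
    (hu : U.Use j v k t e) (hp : U.Pred j k t n s) (hk : k < l) : n = 0 ∧ s = th := by
  have h0 : 0 < j := zero_lt_one.trans_le (two_n hU ▸ hT.le)
  obtain rfl : n = 0 := by_contra fun h1 =>
    absurd (two_la hU ▸ hp.min 0 (pos_iff_ne_zero.2 h1)) hk.not_ge
  refine ⟨rfl, (two_b0 hU ▸ hp.st_le).eq_or_lt.resolve_right fun h1 => ?_⟩
  have h2 := hp.max (two_b0 hU ▸ h1)
  rcases lt_or_ge (s + 1) l with h3 | h3
  · rw [KL.rho_lt (TreeSt.agree hT h0 le_rfl) (two_la hU ▸ h3)] at h2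
    exact absurd (hu.act.next _ (hp.ta_le.trans (lt_add_one s).le)
      (h3.trans ((two_la hU ▸ hu.inc 0 h0).trans_lt (TA.act_la hu.act)))) h2.not_gt
  · rw [two_E0 hU] at h2
    exact absurd ((h.card _ h3 (s1lt h1)).trans h2) hk.not_ge

theorem Ph.ret (h : Ph P W th S b l) (hU : (IT.two W th S b l).EqLt U 2) (hT : U.IsTr j)
    (h1 : U.n ≤ d) (h2 : d < j) (hk : U.ka d < l) : Ret U d j := by
  have hs := hT.step d h1 h2
  obtain ⟨h3, h4⟩ := h.pred0 hU (hT.mono h1 h2.le) hs.use hs.pred hk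
  exact ⟨hT, h1, h2, h3, by rw [IT.Drop, h3, h4, two_b0 hU]; exact lt_irrefl _⟩

theorem first (h : ¬ U.Above l j) : ∃ d, U.n ≤ d ∧ d < j ∧ U.ka d < l ∧ U.Above l d := by
  have hne : {d | U.n ≤ d ∧ d < j ∧ U.ka d < l}.Nonempty := by
    by_contra hc
    exact h fun d h1 h2 => not_lt.1 fun h3 => hc ⟨d, h1, h2, h3⟩
  obtain ⟨h1, h2, h3⟩ := csInf_mem hne
  exact ⟨_, h1, h2, h3, fun i i1 i2 => not_lt.1 fun i3 =>
    notMem_of_lt_csInf' i2 ⟨i1, i2.trans h2, i3⟩⟩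

variable [RealSt.{u}] [HullSt.{u}] [CondSt.{u}] [KTreeSt.{u}]

theorem Ph.fold (h : Ph P W th S b l) (H : Hyp P W th S b l) (hU : (IT.two W th S b l).EqLt U 2)
    (hR : Ret U d j) (hA : U.Above l d) (hk : U.ka d < l) : PII P.C 0 (fold U d) := by
  have hs := hR.step
  obtain ⟨E', i, h1, h2, h3, h4⟩ := H U d _ _ _ _ hU (hR.tr.mono hR.n hR.lt.le) hA hs.use hk
  have h5 : U.st d = th := by rw [Seg.st_eq hs hR.nd, hR.pr, two_b0 hU]
  have h6 := hs.ult
  have h7 := hs.pred.noproj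
  have h8 := hs.pred.ta_le
  rw [hR.pr, two_E0 hU, h5] at h6 h7
  rw [h5] at h8
  have h9 : i (U.ka d) = U.im d (U.ka d) := by
    rw [h2 _ (Seg.ka_lt_ta hs), hs.ext _ (Seg.ka_lt_ta hs)]
  obtain ⟨k1, k2⟩ := RealSt.unique h1 h6 h9 fun y a hy ha => by
    have := RealSt.thread (th := fun a => a) h1 (KGoodSt.strong_good h6.pm h6.pm' h6.toStrong) h8 h7
      (fun _ hz => h9 ▸ hz) (fun y a hy _ => by
        have h10 := w_in hs.use.act.weak hy
        rw [KN.map_eq h2 hy, KN.map_eq hs.ext hy, KN.anm h3 h10, KN.anm hs.agree h10, map_id'])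
      y a hy ha
    rwa [map_id'] at this
  refine hR.pii rfl ?_
  rw [hs.b, h5, ← k1 th le_rfl]
  exact ii_congr k2 h4

variable [KIterSt.{u}] [KIISt.{u}]

theorem Ph.nii (h : Ph P W th S b l) (H : Hyp P W th S b l) (hU : (IT.two W th S b l).EqLt U 2)
    (hT : U.IsTr m) : NII P U m := by
  intro j hj c hc _
  refine KIISt.level (TreeSt.pm hT hj).toPM0 ?_ hc zero_le
  rcases le_or_gt j U.n with h0 | h0
  · exact ii_zero rfl (KIterSt.ii (h.pii hU) hT.phal.isTr (fun _ a b => absurd b a.not_gt) h0)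
  have hJ := hT.mono h0.le hj
  by_cases hA : U.Above l j
  · exact ii_zero rfl (KIterSt.ii (h.pii hU) hJ hA le_rfl)
  obtain ⟨d, h1, h2, h3, h4⟩ := first hA
  have hR := h.ret hU hJ h1 h2 h3
  have := KIterSt.ii (h.fold H hU hR h4 h3) hR.isTr IT.above_zero le_rfl
  rwa [E_hi h2, b_hi h2] at this

variable [KRealSt.{u}] [KHullSt.{u}] [AccSt.{u}] [AmenSt.{u}] [KStepSt.{u}] [KWfSt.{u}]
  [RealWfSt.{u}]

theorem Ph.iter (h : Ph P W th S b l) (H : Hyp P W th S b l) :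
    (IT.two W th S b l).Iterable 0 := by
  refine KWfSt.iterable_of_wf h.phal (fun U j v k t e n s hU hT _ hu _ hp => ?_)
    fun U c hU h1 h2 hT _ => ?_
  · rw [two_eq] at hU
    by_cases hA : U.Above l j
    · rcases le_or_gt l k with hk | hk
      · exact IterI.succ_wf (h.pii hU) hT hA hu hk hp
      obtain ⟨rfl, rfl⟩ := h.pred0 hU hT hu hp hk
      obtain ⟨E', i, h1, h2, h3, -⟩ := H U j _ _ _ _ hU hT hA hu hk
      rw [two_E0 hU, ← uwf_iff]
      refine RealWfSt.wf (KGoodSt.strong_good h1.pm h1.pm' h1.toStrong) h1.pm.ls h1.lt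
        (hp.ta_le.trans (lt_add_one _).le) fun Z _ => ⟨fun a => a, fun _ _ hz => h2 _ hu.act.lt ▸ hz,
          fun y a _ hy _ _ hn => ?_⟩
      rwa [map_id', KN.map_eq h2 hy, KN.anm h3 (w_in hu.act.weak hy)]
    obtain ⟨d, h1, h2, h3, h4⟩ := first hA
    have hR := h.ret hU hT h1 h2 h3
    have := IterI.succ_wf (h.fold H hU hR h4 h3) hR.isTr IT.above_zero (hR.use hu) zero_le
      (hR.pred hu hp)
    rwa [E_hi h2, E_ok ((hR.pred_ok hu hp).imp_left And.left)] at this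
  · have hn : U.n = (IT.two W th S b l).n := hU.n
    rw [← hn] at h1 hT
    rw [two_eq] at hU
    by_cases hA : U.Above l c
    · exact ⟨IterI.lim_nd (h.pii hU) h1 h2 hT hA, IterI.lim_wf (h.pii hU) h1 hT hA⟩
    obtain ⟨d, k1, k2, k3, k4⟩ := first hA
    have hR : ∀ j < c, d < j → Ret U d j := fun j j1 j2 =>
      h.ret hU (hT j j1 (k1.trans j2.le)) k1 j2 k3
    have k5 : d + 1 < c := h2.add_one_lt k2
    have hP := h.fold H hU (hR _ k5 (lt_add_one d)) k4 k3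
    have hV : ∀ j < c, (Fold.fold U d).n ≤ j → (Fold.fold U d).IsTr j := fun j j1 j2 =>
      (hR j j1 (IT.s_lt j2)).isTr
    have k6 : ∀ k, d < k → k < c → U.pr k = 0 ∨ d < U.pr k := fun k a1 a2 =>
      (hR _ (h2.add_one_lt a2) (lt1 a1.le)).pr_ok a1 (lt_add_one k)
    refine ⟨?_, ?_⟩
    · obtain ⟨m, m1, m2⟩ := IterI.lim_nd hP k5 h2 hV IT.above_zero
      exact ⟨m, m1, (nd_to k1 k6 k2 m2).1⟩
    rintro ⟨i, x, hx⟩
    by_cases h0 : ∃ a, d < i a
    · obtain ⟨a, ha⟩ := h0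
      have hm : Monotone i := monotone_nat_of_le_succ fun a => (hx a).2.2.2.1
      have hd : ∀ r, d < i (r + a) := fun r => ha.trans_le (hm (Nat.le_add_left a r))
      refine IterI.lim_wf hP k5 hV IT.above_zero ⟨fun r => i (r + a), fun r => x (r + a), fun r => ?_⟩
      obtain ⟨a1, a2, a3, a4, a5⟩ := hx (r + a)
      rw [← Nat.add_right_comm] at a4 a5
      exact ⟨a1, nd_of k1 k6 (hd r) a2, a3.trans (b_hi (hd r)).ge, a4, by rwa [mp_hi (hd _)]⟩
    · have h3 : ∀ a, i a = 0 := fun a => le_antisymm ((hR _ k5 (lt_add_one d)).pr ▸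
        (hx a).2.1.1.2 d (not_lt.1 fun h4 => h0 ⟨a, h4⟩) k2 k1) zero_le
      refine IterI.no_desc x fun a => ?_
      obtain ⟨-, -, a3, -, a5⟩ := hx a
      rw [h3] at a3
      rwa [h3, h3, (hR _ k5 (lt_add_one d)).tr.phal.id 0 zero_le _ a3] at a5

section Cmp

variable [CmpSt.{u}] [WinSt.{u}] [BrSt.{u}] [KeySt.{u}] [UltFactSt.{u}] [PresSt.{u}] [AgreeSt.{u}]

theorem noeq (h : T.Coit l U m) (hn : T.n ≤ i) (hi : i < l) (hn' : U.n ≤ j) (hj : j < m)
    (hd : T.ND (i + 1) l) (hd' : U.ND (j + 1) m) (hb : T.b l ≤ U.b m) (hz : T.ta i ≤ z)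
    (e : ∀ x < z, Seg.sg T i l x = Seg.sg U j m x) : False := by
  have S := h.tr.step i hn hi
  have h0 := (Seg.ka_lt_ta S).trans_le hz
  have hk : T.ka i = U.ka j := by
    rcases lt_trichotomy (T.ka i) (U.ka j) with h1 | h1 | h1
    · have := e _ h0
      rw [Seg.sg_fix h.tr' hn' hj hd' h1] at this
      exact absurd this (Seg.sg_move h.tr hn hi hd).ne'
    · exact h1
    · have := e _ (h1.trans h0)
      rw [Seg.sg_fix h.tr hn hi hd h1] at this
      exact absurd this.symm (Seg.sg_move h.tr' hn' hj hd').ne'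
  refine CmpSt.nobranch h hn hi hn' hj hd hd' hk fun X a hX _ _ => ?_
  have h2 : In (T.b l + 1) (X.map (Seg.sg T i l)) :=
    w_in (Seg.sg_strong h.tr hn hi hd).toWeak (hX.mono ((Seg.ta_le_st S).trans (lt_add_one _).le))
  show Nm (T.E l) (X.map (Seg.sg T i l)) a ↔ Nm (U.E m) (X.map (Seg.sg U j m)) a
  rw [← KN.map_eq e (hX.mono hz)]
  exact KN.anm (Seg.ag_left h hb) h2

/-- The data of the comparison of `(W, S, l)` with `W`. -/
structure Cp (P : Pa.{u}) (W : Seq.{u}) (th : Ordinal.{u}) (S : Seq.{u}) (b l : Ordinal.{u})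
    (T : IT.{u}) (n : Ordinal.{u}) (U : IT.{u}) (m : Ordinal.{u}) : Prop where
  eqT : (IT.two W th S b l).EqLt T 2
  eqU : (IT.one W th).EqLt U 1
  coit : T.Coit n U m
  nu : ∀ j < m, l < U.nu j
  rT : Roots P T
  rU : Roots P U
  nT : NII P T n
  nU : NII P U m

theorem Ph.cp (h : Ph P W th S b l) (H : Hyp P W th S b l) :
    ∃ T n U m, Cp P W th S b l T n U m := by
  have hW := KIISt.one h.good.pm.toPM0 h.good.ii
  obtain ⟨T, n, U, m, h1, h2, h3, -, -, -, h4⟩ := CmpSt.compare (h := l + 1) (h.iter H)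
    (KIterSt.iter (Phx.phal_one h.good.pm) hW)
    (fun v hv => by
      show (IT.two W th S b l).E 1 v = W v
      rw [IIp.two_E1]
      rcases (le1 hv).lt_or_eq with hv | rfl
      · exact (h.ag v hv).symm
      · exact funext₂ fun x y => propext ⟨fun a => (h.pas x y a).elim, fun a => (h.pasW x y a).elim⟩)
    (fun i hi => by rw [Phx.lt_one' hi, IIp.two_la]; exact lt_add_one l)
    (fun i hi => absurd hi not_lt_zero) zero_le zero_le (fun _ _ _ _ _ _ _ _ _ => zero_le)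
    fun _ _ _ _ _ _ _ _ _ => zero_le
  rw [two_eq] at h1
  have u0 : U.n = 0 := h2.n
  have h5 : (IT.one W th).EqLt U 1 := by simpa [IT.one] using h2
  have o1 : (1 : Ordinal.{u}) < P.Om := by
    refine one_lt_omega0.trans_le ?_
    rw [← Cardinal.ord_aleph0]
    exact Cardinal.ord_le_ord.2 P.hO.1.le
  refine ⟨T, n, U, m, h1, h5, h3, fun j hj => IT.s_lt (h4 j (u0 ▸ zero_le) hj),
    ⟨two_n h1 ▸ o1, fun i hi => ?_, fun i hi => ?_⟩,
    ⟨u0 ▸ zero_lt_one.trans o1, fun i hi => absurd (u0 ▸ hi) not_lt_zero, fun i hi => ?_⟩,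
    h.nii H h1 h3.tr, fun j hj c hc _ => ?_⟩
  · rw [Phx.lt_one' (i := i) (two_n h1 ▸ hi), two_la h1]; exact h.t
  · rcases Phx.le_one' (two_n h1 ▸ hi) with rfl | rfl
    · rw [two_E0 h1, two_b0 h1]; exact Or.inl h.good
    · rw [two_b1 h1]; exact Or.inr h.lt
  · rw [le_antisymm (u0 ▸ hi) (zero_le (a := i)), h5.E zero_lt_one, h5.b zero_lt_one]
    exact Or.inl h.good
  · exact KIISt.level (TreeSt.pm h3.tr' hj).toPM0
      (KIterSt.ii (IterI.pii_congr hW h2) h3.tr' IT.above_zero hj) hc zero_le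

theorem Cp.n0 (c : Cp P W th S b l T n U m) : U.n = 0 := c.eqU.n
theorem Cp.E0 (c : Cp P W th S b l T n U m) : U.E 0 = W := c.eqU.E zero_lt_one
theorem Cp.b0 (c : Cp P W th S b l T n U m) : U.b 0 = th := c.eqU.b zero_lt_one

theorem Cp.not0 (c : Cp P W th S b l T n U m) (h : Ph P W th S b l) (hr : Rigid P W th z)
    (hz : l ≤ z) (hd : T.ND 0 n) (hb : T.b n ≤ U.b m) : False := by
  obtain ⟨r, r1, r2, -, -, -, r3, r4⟩ := WinSt.win P c.coit c.rT c.rU c.nT c.nU (hd.root zero_le) hd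
    (by rw [two_E0 c.eqT, two_b0 c.eqT]; exact h.good) hb
  obtain rfl : r = 0 := le_antisymm (c.n0 ▸ r1.1) zero_le
  rw [two_E0 c.eqT, two_b0 c.eqT] at r3
  rw [c.E0, c.b0] at r4
  have he := hr _ _ _ _ r3 r4
  obtain ⟨k, k1, k2, k3, -, k4, k5⟩ := Seg.first c.coit.tr hd
    (zero_lt_one.trans_le (two_n c.eqT ▸ c.coit.tr.le))
  have hs := c.coit.tr.step k k1 k2
  have h1 : T.ta k ≤ l := by
    have := (TreeSt.pred_agree (c.coit.tr.mono k1 k2.le) hs.use hs.pred).2.2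
    rw [k3, two_la c.eqT] at this
    exact this (zero_lt_one.trans_le (two_n c.eqT ▸ k1))
  have h2 : ∀ x < l, x ≤ th := fun x hx => (hx.trans h.lt_th).le
  have h3 := (Seg.ka_lt_ta hs).trans_le h1
  rw [two_b0 c.eqT] at k5
  rcases (zero_le (a := m)).eq_or_lt with rfl | hm
  · refine absurd (he _ (h3.trans_le hz)) ?_
    rw [k5 _ (h2 _ h3), Seg.mp_id c.coit.tr' le_rfl (c.b0 ▸ h2 _ h3)]
    exact (Seg.sg_move c.coit.tr k1 k2 k4).ne'
  obtain ⟨j, j1, j2, -, -, j4, j5⟩ := Seg.first c.coit.tr' r2 hm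
  refine noeq c.coit k1 k2 j1 j2 k4 j4 hb h1 fun x hx => ?_
  rw [← k5 x (h2 x hx), ← j5 x (c.b0 ▸ h2 x hx), he x (hx.trans_le hz)]

theorem Cp.notU (c : Cp P W th S b l T n U m) (h : Ph P W th S b l) (hr : Rigid P W th z)
    (hz : l ≤ z) (hd : U.ND 0 m) (hb : U.b m ≤ T.b n) : False := by
  obtain ⟨r, r1, r2, r3, r4, -⟩ := WinSt.win P (CmpA.symm c.coit) c.rU c.rT c.nU c.nT
    (hd.root zero_le) hd (by rw [c.E0, c.b0]; exact h.good) hb
  rcases Phx.le_one' (two_n c.eqT ▸ r1.1) with rfl | rfl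
  · exact c.not0 h hr hz r2 r4.ge
  · exact absurd (two_b1 c.eqT ▸ r3.lt) h.lt.not_gt

theorem Cp.la (c : Cp P W th S b l T n U m) (h : Ph P W th S b l) (hj : j < m) : l ≤ U.la j := by
  have h0 : 0 < m := zero_le.trans_lt hj
  have hs := c.coit.tr'.step 0 c.n0.le h0
  refine le_trans ?_ (TreeSt.la_mono c.coit.tr' zero_le hj)
  have h1 : U.nu 0 ≤ th + 1 := (c.b0 ▸ hs.use.le).trans (lt_add_one th).le
  rw [hs.la]
  exact TA.le_la (c.E0 ▸ (pm0_mono h.good.pm.toPM0 h1).ls) hs.use.act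
    (c.E0 ▸ KL.card_mono h.card h1) (c.nu 0 h0)

/-- B-prime. -/
theorem Ph.agree (h : Ph P W th S b l) (H : Hyp P W th S b l) (hr : Rigid P W th z) (hz : l ≤ z)
    (hp : KS S (b + 1) l p) : Agree S W (b + 1) := by
  obtain ⟨T, n, U, m, c⟩ := h.cp H
  have hT := c.coit.tr
  have hU := c.coit.tr'
  rcases Seg.outcome c.coit with ⟨hb, r, r1, hd⟩ | ⟨hb, r, r1, hd⟩
  swap
  · exact (c.notU h hr hz (le_antisymm (c.n0 ▸ r1.1) (zero_le (a := r)) ▸ hd) hb).elim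
  rcases Phx.le_one' (two_n c.eqT ▸ r1.1) with rfl | rfl
  · exact (c.not0 h hr hz hd hb).elim
  have h1 := CU.br_cof hT le_rfl hd
  have h2 := TreeSt.fix hT le_rfl hd zero_lt_one
  have h3 : PP S (b + 1) (T.E n) (T.b n + 1) l := by
    rcases hd.le.eq_or_lt with rfl | h4
    · rw [two_E1 c.eqT, two_b1 c.eqT]; exact fun _ => id
    obtain ⟨k, k1, k2, k3, k4, -⟩ := Seg.first hT hd h4
    have := CU.seg_pp hT k1 k2
    rw [k3, k4, two_E1 c.eqT, two_b1 c.eqT] at this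
    exact CU.pp_mono this (two_la c.eqT ▸ (hT.step k k1 k2).pred.min 0 (k3 ▸ zero_lt_one))
  rw [two_E1 c.eqT, two_b1 c.eqT] at h1
  rw [two_la c.eqT] at h2
  have pT := TreeSt.pm hT le_rfl
  have hA := Seg.ag_left c.coit hb
  rcases hb.lt_or_eq with hb' | hb'
  · obtain ⟨k1, k2, -⟩ := CU.eq_of_onto h.pm.toPM0 pT.toPM0 h1.toWeak
      (CU.uns h1.toStrong pT.ls (F3.gen_rho hp.gen) h.le h2 h3 (Seg.lev_left c.coit hb').1)
    rw [← k1] at hA hb'
    have k3 := KL.ag_trans k2 hA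
    rcases (zero_le (a := m)).eq_or_lt with rfl | hm
    · exact c.E0 ▸ k3
    have k4 := (TreeSt.nu_agree hU c.coit.nor' c.n0.le hm le_rfl).2.2.2 (b + 1)
      ((k1 ▸ c.coit.le' 0 c.n0.le hm).trans (lt_add_one b).le) (s1lt hb')
    rw [← KL.rho_suc k3] at k4
    exact absurd (k4.trans (F3.gen_rho hp.gen)) (c.nu 0 hm).not_ge
  rcases TreeSt.last hU le_rfl with ⟨r, r2, r3⟩ | ⟨j, j1, j2, j3, j4⟩
  · exact (c.notU h hr hz (le_antisymm (c.n0 ▸ r2.1) (zero_le (a := r)) ▸ r3) hb'.ge).elim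
  have hs := hU.step j j1 j2
  have k1 : l ≤ U.ka j := not_lt.1 fun k2 => (Str.no_drop hU j1 j2
    (fun i hi => c.la h (hi.trans_lt j2)) (by rw [c.E0, c.b0]; exact h.card) k2).2 j3
  have hA' : Agree (U.E m) (T.E n) (U.b m + 1) := hb' ▸ KL.ag_symm hA
  have k2 := Seg.core_ag (CU.seg_core hU j1 j2 j3 j4) hA'
  have k3 : PP (U.E (U.pr j)) (U.st j + 1) (T.E n) (U.b m + 1) l := fun A hn =>
    CU.pp_mono (CU.seg_pp hU j1 j2) k1 A (CU.named_agree hn (KL.ag_symm hA'))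
  rw [← hb'] at k2 k3
  obtain ⟨k4, -, k5⟩ := CU.keyk_core h.pm.toPM0 hp (h.le.trans (lt_add_one b).le)
    (k1.trans ((Seg.ka_lt_st hs).le.trans (lt_add_one _).le)) h1 h2 h3 k2
    (fun x hx => CU.seg_fix hU j1 j2 j4 x (hx.trans_le k1)) k3
  rcases hd.le.eq_or_lt with rfl | h4
  · have k6 : U.ka j ≤ b := k4 ▸ (Seg.ka_lt_st hs).le
    have := k5 _ k6
    rw [Seg.mp_id hT le_rfl (two_b1 c.eqT ▸ k6)] at this
    exact absurd this (Seg.sg_move hU j1 j2 j4).ne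
  obtain ⟨k, a1, a2, -, a4, a5, a6⟩ := Seg.first hT hd h4
  rw [two_b1 c.eqT] at a4 a6
  exact (Seg.noeq c.coit a1 a2 j1 j2 a5 j4 hb' fun x hx _ =>
    (a6 x (a4 ▸ hx)).symm.trans (k5 x (a4 ▸ hx))).elim

end Cmp

end Bp

end Pool.Agent.KM
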