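import Pool.Agent.Lib.MP_5c0be7_lc.T.GoodTh
import Pool.Agent.Lib.MP_5c0be7_lc.L.Real
import Pool.Agent.Lib.MP_5c0be7_lc.L.UltFact
import Pool.Agent.Lib.MP_5c0be7_lc.L.CritReg
import Pool.Agent.Lib.MP_5c0be7_lc.K.Ext
import Pool.Agent.Lib.MP_5c0be7_lc.K.GoodI
import Pool.Agent.Lib.MP_5c0be7_lc.P.Eta

/-!
Project KM, block T3: ultrapowers commute.
-/

namespace Pool.Agent.KM.CommI

open Ordinal Tr Set KE

universe u

variable {E E' A A1 Q Q1 : Seq.{u}} {b b' c k k0 t0 k1 : Ordinal.{u}}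
  {H i j j1 s : Ordinal.{u} → Ordinal.{u}} {f f' w y : Tr.{u}}

/-- The graph of a named function is named, uniformly along increasing maps. -/
theorem graph (hf : In (b + 1) f) : ∃ g, In (b + 1) g ∧ ∀ (E : Seq.{u}) s,
    StrictMonoOn s (Iio (b + 1)) → ∀ v, In (s b) v →
      (Nm E (g.map s) v ↔ fv E (f.map s) v.fst = some v.snd) := by
  obtain ⟨c, p, hp, h⟩ := UltFact.norm hf
  obtain ⟨o, ho⟩ := IsOp.id.{u}.fst.eq IsOp.id.snd.fst.snd
  obtain ⟨o', ho'⟩ := IsOp.id.{u}.fst.fst.pair IsOp.id.snd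
  refine ⟨node (leaf b) (node (cmp .id (tst o) (prec o' c)).erase p),
    by simp [hp.mono le_self_add], fun E s hs v hv => ?_⟩
  have i1 : In (s b) (node v (p.map s)) := (in_node _ _ _).2
    ⟨hv, (KN.in_map hs (lt_add_one b) (hp.mono le_self_add)).2 hp⟩
  rw [h E s hs _ hv.fst]
  simp only [NmL, map_node, map_leaf, map_erase, fst_node, snd_node, leaf.injEq, exists_eq_left']
  rw [ev_erase, ev_cmp, ev_prec _ _ i1, ho']
  simp only [fst_node, snd_node]
  cases e : ev E (s b) c (node v.fst (p.map s)) with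
  | none => simp
  | some x =>
    simp only [Option.bind_some, bop, Option.some.injEq]
    rw [ev_tst_isSome _ ((in_node _ _ _).2 ⟨ev_in e, i1⟩), ho]
    simp

/-- Inclusion of graphs goes up. -/
theorem fv_up (hs : StrictMonoOn s (Iio (b + 1))) (h : UpInc E (b + 1) E' s k) (hk : k ≤ b)
    (hf : In (b + 1) f) (hf' : In (b + 1) f')
    (H : ∀ w y, In k w → In k y → fv E f w = some y → fv E f' w = some y) (hw : In (s k) w)
    (hy : In (s k) y) (e : fv E' (f.map s) w = some y) : fv E' (f'.map s) w = some y := by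
  obtain ⟨g, g1, g2⟩ := graph hf
  obtain ⟨g', g3, g4⟩ := graph hf'
  have hv := (in_node _ _ _).2 ⟨hw, hy⟩
  have hv' := hv.mono (hs.monotoneOn (lt1 hk) (lt_add_one b) hk)
  refine (g4 E' s hs _ hv').1 (h g g' g1 g3 (fun v h1 h2 => ?_) _ hv ((g2 E' s hs _ hv').2 e))
  have k1 := g2 E (fun a => a) strictMonoOn_id v (h1.mono hk)
  have k2 := g4 E (fun a => a) strictMonoOn_id v (h1.mono hk)
  simp only [map_id'] at k1 k2
  exact k2.2 (H _ _ h1.fst h1.snd (k1.1 h2))

theorem strong_par (h : Strong E (b + 1) E' (b' + 1) s) : par E' b' = (par E b).map s := by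
  have := h.commTop parc .nil (by simp)
  rw [map_nil, ev_parc (by simp), ev_parc (by simp)] at this
  exact Option.some.inj this

/-- Maps that agree on the image of the critical point and on the range of a cofinal map agree. -/
theorem eq_of_ext {t v d d' : Ordinal.{u}} (h : Ext E k t A v H) (l : LS A v)
    (h1 : Weak A v E' d s) (h2 : Weak A v E' d' i) (e1 : ∀ x < H k, s x = i x)
    (e2 : ∀ x < t, s (H x) = i (H x)) : ∀ x < v, s x = i x := by
  intro x hx
  obtain ⟨a0, a1, a2⟩ := h.cof x hx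
  obtain ⟨a, a3, a4, a5⟩ := h.top _ (max_lt a1 h.lt)
  have a6 := not_suc_iff.1 (KL.ext_lim h) a a4
  have a7 := h.weak.maps a a4
  have a8 : rho A (H a) ≤ H k := not_lt.1 fun e => absurd
    ((strong_rho (weak_restrict h.weak a6) le_rfl ((le_max_right _ _).trans a3)).1 e) (not_lt.2 a5)
  obtain ⟨c, z, z1, z2⟩ := PE.lev_gen (l _ a7) a8 (leaf x)
    (by simpa using a2.trans_le ((w_le h.weak a1 a4).2 ((le_max_left _ _).trans a3)))
  have z3 := in_of_ev_eq z2
  have k1 := h1.comm _ a7 c _ z3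
  have k2 := h2.comm _ a7 c _ z3
  rw [z2, PE.w_pp h.weak a6, map_node] at k1 k2
  rw [e2 a a4, KN.map_eq e1 z1, KN.mm, KN.map_eq (s := s ∘ H) (s' := i ∘ H) e2 ((in_pp E a).mono a4.le),
    ← KN.mm, k2] at k1
  simpa using k1.symm

/-- The ultrapower by the image of an extender is an ultrapower of the ultrapower. -/
theorem comm (hA : Act A c k0 t0 H) (hi : IsUlt A c k1 A1 i) (hk : k1 < H k0)
    (hj : IsUlt E b k0 Q1 j) (jH : ∀ x < t0, j x = H x) (jt : j t0 = c) (ag1 : Agree Q1 A c)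
    (ht : t0 ≤ b) (np : NoProj E k0 t0 (b + 1)) (hj1 : IsUlt E b k0 Q j1)
    (j1H : ∀ x < t0, j1 x = i (H x)) (j1t : j1 t0 = i c) (ag2 : Agree Q A1 (i c)) :
    ∃ s, IsUlt Q1 (j b) k1 Q s ∧ (∀ x ≤ b, s (j x) = j1 x) ∧ ∀ x ≤ c, s x = i x := by
  have good := KGoodSt.strong_good hj1.pm hj1.pm' hj1.toStrong
  have gi := KGoodSt.strong_good hi.pm hi.pm' hi.toStrong
  have lA : LS A c := hi.pm.ls.mono le_self_add
  have lc : H k0 < c := hA.weak.maps _ hA.lt
  have mi : ∀ x < c, i x < i c := fun x hx => hi.mono (lt1 hx.le) (lt_add_one c) hx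
  have h1 : ∀ z < j k0, i z < j1 k0 := fun z hz => by
    rw [jH _ hA.lt] at hz
    rw [j1H _ hA.lt]
    exact hi.mono (lt1 (hz.trans lc).le) (lt1 lc.le) hz
  obtain ⟨s, s1, s2, s3⟩ := RealI.real hj good hj1.pm' h1 (RealI.thread hj good ht np h1
    fun n a hn ha => by
      have n1 := w_in hA.weak hn
      rw [KN.map_eq jH hn, KN.anm ag1 n1, KN.map_eq (s' := i ∘ H) j1H hn, ← KN.mm,
        KN.anm ag2 (KN.in_map' mi n1), w_nm hi.toWeak (n1.mono le_self_add)
          (ha.mono ((jH _ hA.lt ▸ lc.le).trans le_self_add))])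
  rw [jH _ hA.lt] at s3
  have sb := s2 b le_rfl
  have cb : c ≤ j b := jt ▸ (w_le hj.toWeak (lt1 ht) (lt_add_one b)).2 ht
  have st : Strong Q1 (j b + 1) Q (s (j b) + 1) s := good_strong s1 hj.pm'.ls (sb ▸ hj1.pm'.ls)
    (by
      rw [sb, strong_par hj1.toStrong, strong_par hj.toStrong, KN.mm]
      exact KN.map_eq (fun x hx => (s2 x hx.le).symm) (in_par E b))
    fun z hz => by
      obtain ⟨x, x1, x2⟩ := (UltFact.cof hj1).cof z (sb ▸ hz)
      have x3 := x1.le.trans KE.rho_le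
      exact ⟨j x, (CU.lt_rho_map hj.toStrong x3).2 x1, (s2 x x3).symm ▸ x2⟩
  have sc : s c = i c := by rw [← jt, s2 _ ht, j1t, jt]
  have si : ∀ x < c, s x = i x := by
    refine eq_of_ext hA.toExt lA (d := i c) (d' := i c) (E' := A1) (KL.weak_left ag1
      (KL.weak_right ag2 ⟨s1.mono.mono fun x hx => lt1 (hx.le.trans cb), fun x hx => ?_,
        fun x e => absurd ⟨x, e⟩ (F3.act_lim hA), fun x hx => s1.comm x (lt1 (hx.le.trans cb))⟩))
      ⟨hi.mono.mono fun x hx => lt1 hx.le, mi, fun x e => absurd ⟨x, e⟩ (F3.act_lim hA),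
        fun x hx => hi.comm x (lt1 hx.le)⟩ s3 fun x hx => ?_
    · exact sc ▸ s1.mono (lt1 (hx.le.trans cb)) (lt1 cb) hx
    · rw [← jH x hx, s2 x (hx.le.trans ht), j1H x hx, jH x hx]
  have kr : k1 < rho Q1 (j b) := hk.trans (jH _ hA.lt ▸
    (CU.lt_rho_map hj.toStrong (hA.lt.le.trans ht)).2 hj.lt)
  refine ⟨s, ⟨st, hj.pm', sb ▸ hj1.pm', hi.inf, kr, s1.inc _ kr, fun y hy => ?_⟩, s2,
    fun x hx => hx.eq_or_lt.elim (fun e => e ▸ sc) (si x)⟩
  obtain ⟨c0, z, a, z1, z2, z3⟩ := UltFact.tree hj1 (x := leaf y) (by simpa [← sb] using hy)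
  refine (KExt.mem_hu st.toWeak).2 ⟨_, lt_add_one _, KExt.Rep.ev (w := node a (z.map j1))
    (KExt.Rep.pair ?_ ⟨opc .snd, z.map j, .nil, UltFact.in_top hj.toWeak z1, in_nil _, ?_⟩)
    (sb ▸ z3)⟩
  · obtain ⟨b0, b1, -, b2⟩ := KExt.rep_tree st.toWeak (l := s k1) (w := a) (lt_add_one _)
      fun x hx => by
        have x1 : x < i (H k0) := j1H _ hA.lt ▸ z2 x hx
        obtain ⟨f, a', f1, f2, f3⟩ := hi.gen x (x1.trans (mi _ lc))
        obtain ⟨f', f4, f5⟩ := CritReg.low_name lA hA lc f1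
        refine ⟨f', a', f4.mono (cb.trans le_self_add), (s3 _ hk).symm ▸ f2, ?_⟩
        rw [KN.map_eq si f4, KN.afv ag2 (KN.in_map' mi f4)]
        exact fv_up hi.mono (gi.inc _ (by
          rw [(AmenSt.lev_act _ _ _ _ _ lA hA).2.2 (F3.act_lim hA)]; exact lc)) lc.le f1
          (f4.mono le_self_add) (fun w y h2 _ h3 => (f5 w h2).trans h3)
          (f2.mono (hi.mono (lt1 (hk.trans lc).le) (lt1 lc.le) hk).le) (by simpa using x1) f3
    exact b2.up' st.toWeak (le1 b1) (lt_add_one _)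
  · have e : (z.map j).map s = z.map j1 := by
      rw [KN.mm]
      exact KN.map_eq (fun x hx => s2 x hx.le) z1
    rw [e, ev_opc _ (by simpa [sb] using UltFact.in_top hj1.toWeak z1)]
    rfl

end Pool.Agent.KM.CommI
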