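import Pool.Agent.Lib.MP_5c0be7_lc.T.StCov
import Pool.Agent.Lib.MP_5c0be7_lc.T.Comm
import Pool.Agent.Lib.MP_5c0be7_lc.T.Tame
import Pool.Agent.Lib.MP_5c0be7_lc.T.Str
import Pool.Agent.Lib.MP_5c0be7_lc.F.TreeOrd

/-!
Project KM, block T3: the unfolding is the last model of a finite chain of top extenders.
-/

namespace Pool.Agent.KM.ChainI

open Ordinal Cardinal Tr Set KE

universe u

variable {S : Cov.{u}} {R : IT.{u}} {E E' : Seq.{u}} {a b c c' k l m m1 p p' t t1 v x : Ordinal.{u}}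
  {e H s : Ordinal.{u} → Ordinal.{u}}

theorem pred_eq (h : R.Pred l k t p c) (h' : R.Pred l k t p' c') : p = p' ∧ c = c' := by
  have key : ∀ {p p' c c'}, R.Pred l k t p c → R.Pred l k t p' c' → ¬ p < p' := fun h h' e =>
    absurd (h.lt (e.trans_le h'.le)) (not_lt.2 (h'.min _ e))
  obtain rfl : p = p' := le_antisymm (not_lt.1 (key h' h)) (not_lt.1 (key h h'))
  have key2 : ∀ {c c'}, R.Pred l k t p c → R.Pred l k t p c' → ¬ c < c' := fun h h' e =>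
    absurd (h'.noproj _ (h.ta_le.trans le_self_add) (s1lt e))
      (not_lt.2 (h.max (e.trans_le h'.st_le)))
  exact ⟨rfl, le_antisymm (not_lt.1 (key2 h' h)) (not_lt.1 (key2 h h'))⟩

/-- The alternative of the chain lemma. -/
def Alt (R : IT.{u}) (l : Ordinal.{u}) (E : Seq.{u}) (b k x : Ordinal.{u}) : Prop :=
  (b ≤ R.b l ∧ Agree E (R.E l) (b + 1)) ∨
    ∃ v k0 t0 H, v ≤ R.b l ∧ Act (R.E l) v k0 t0 H ∧ k0 < k ∧ x < H k0 ∧ ℵ₀ < v.cof ∧ v ≤ b ∧
      Agree E (R.E l) v ∧ Pas E v ∧ IsNext E (b + 1) (H k0) v ∧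
      ∀ k' t' e', Act E b k' t' e' → k' < k0 ∨ H k0 ≤ k'

theorem Alt.ag (h : Alt R l E b k x) (H : Agree E E' (b + 1)) : Alt R l E' b k x := by
  rcases h with ⟨h1, h2⟩ | ⟨v, k0, t0, e, h1, h2, h3, h4, h5, h6, h7, h8, h9, h10⟩
  · exact Or.inl ⟨h1, KL.ag_trans (KL.ag_symm H) h2⟩
  · exact Or.inr ⟨v, k0, t0, e, h1, h2, h3, h4, h5, h6,
      KL.ag_trans (KL.ag_symm (KL.ag_mono H (lt1 h6).le)) h7,
      fun y z => H v (lt1 h6) ▸ h8 y z, KL.next_ag H h9,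
      fun k' t' e' h11 => h10 k' t' e' (KL.act_ag (KL.ag_symm H) h11)⟩

/-- The image of the successor of the critical point. -/
theorem next_up (h : IsUlt E b m E' s) (A : Act (R.E l) v m t e) (ht : t ≤ b)
    (np : NoProj E m t (b + 1)) (h1 : ∀ x < t, s x = e x) (h2 : s t = v)
    (h3 : Agree E' (R.E l) v) : IsNext E' (s b + 1) (e m) v := by
  have hv : v ≤ s b := h2 ▸ (w_le h.toWeak (lt1 ht) (lt_add_one b)).2 ht
  refine ⟨A.weak.maps _ A.lt, (lt1 hv).le, KL.topC_ag (KL.ag_symm h3) (KL.ext_top A.toExt),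
    fun y y1 y2 => ?_⟩
  rw [← h1 _ A.lt]
  rcases y1.eq_or_lt with rfl | y3
  · rw [← h2]
    exact (strong_rho h.toStrong ht (A.lt.le.trans ht)).2 (np t le_rfl (lt1 ht))
  · exact good_noProj (KGoodSt.strong_good h.pm h.pm' h.toStrong) ht
      (fun z z1 z2 => np z (le_self_add.trans z1) z2) y (h2 ▸ Order.add_one_le_iff.2 y3) y2

variable [TreeSt.{u}] [CovBSt.{u}]

omit [CovBSt.{u}] in
theorem pm_pm (h : S.Ok) (hp : S.Pm m t a c) : PM (S.T.E a) (c + 1) :=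
  pm_mono (TreeSt.pm h.coit.tr hp.le) (by gcongr; exact hp.lvl.st_le)

omit [TreeSt.{u}] in
theorem lt_top (h : S.Ok) (hn : S.Nx m t) (hp : S.Pm m t a c) (A : Act (S.T.E a) c m1 t1 H) :
    t < c := hp.lvl.ta_le.lt_of_ne fun e => KL.act_not_pas A fun y z =>
  e ▸ (hp.ag t (lt_add_one t)).symm ▸ (CovBSt.nx h hn).2.2.2.2.1 y z

omit [TreeSt.{u}] in
theorem lt_img (h : S.Ok) (hn : S.Nx m t) (hp : S.Pm m t a c) (A : Act (S.T.E a) c m1 t1 H) :
    m < H m1 :=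
  let ⟨y, y1, y2, y3⟩ := KL.ext_top A.toExt t (lt_top h hn hp A)
  (hp.lvl.noproj y y1 (lt1 y2.le)).trans_le y3

theorem basic (h : S.Ok) (hu : S.Unf m t E b) : S.Nx m t ∧ PM E (b + 1) ∧ t ≤ b ∧
    NoProj E m t (b + 1) ∧ Agree E S.Eb (t + 1) ∧ TopCts E b m t S.pi := by
  induction hu with
  | good nx pm top => exact ⟨nx, pm_pm h pm, pm.lvl.ta_le, pm.lvl.noproj, pm.ag, top⟩
  | @bad m t a c m1 t1 b1 H j E1 E nx pm act le disc prev ult ext top ag pm' ih =>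
    obtain ⟨-, -, i1, i2, -, i3⟩ := ih
    have h1 := lt_top h nx pm act
    have h2 := lt_img h nx pm act
    have h3 := next_up (R := S.T) ult act i1 i2 ext top ag
    have h4 : c ≤ j b1 := le1 (h3.2.1.lt_of_ne fun e => F3.act_lim act ⟨_, e⟩)
    refine ⟨nx, pm', h1.le.trans h4, fun y y1 y2 => ?_,
      KL.ag_trans (KL.ag_mono ag (Order.add_one_le_iff.2 h1)) pm.ag, fun k0 t0 g A => ⟨fun e => ?_,
        fun e => absurd (h1.trans_le h4) (e ▸ lt_irrefl _)⟩⟩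
    · rcases lt_or_ge y c with y3 | y3
      · rw [KL.rho_lt ag y3]
        exact pm.lvl.noproj y y1 (lt1 y3.le)
      · exact h2.trans (h3.2.2.2 y y3 y2)
    · obtain ⟨k', t', g', A', -, rfl, -⟩ :=
        KActSt.good_act_down ult.pm ult.pm' ult.toStrong le_rfl A
      have h5 : t' < m1 := (w_lt ult.toWeak (lt1 A'.dom.le) (lt1 (act.lt.le.trans i1))).1
        (ext _ act.lt ▸ e.trans_lt h2)
      rw [ext _ (h5.trans act.lt), act.fix _ h5]
      exact (i3 k' t' g' A').1 h5.le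

/-- One step of the chain. -/
theorem step (h : S.Ok) (hp : S.Pm m t p c) (hR : S.T.EqLt R (a + 1)) (hpa : p ≤ a) (ha : a ≤ S.l)
    (hl : a ≤ l) (tr : R.IsTr l) (hu : R.Use l v m t e) (hla : a < l → m < R.la a)
    (hm : m < t) : ∃ R1 : IT.{u}, R.EqLt R1 (l + 1) ∧ R1.IsTr (l + 1) ∧ R1.ka l = m ∧
      R1.pr l = p ∧ R1.la l = e m ∧ IsUlt (S.T.E p) c m (R1.E (l + 1)) (R1.im l) ∧
      R1.b (l + 1) = R1.im l c ∧ (∀ x < t, R1.im l x = e x) ∧ R1.im l t = v ∧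
      Agree (R1.E (l + 1)) (R.E l) v ∧ Agree (S.T.E p) (R.E l) t := by
  have h0 : (IT.one S.W S.th).EqLt R 1 := h.eqT.trans (hR.mono (by simp))
  obtain ⟨V, v1, v2, v3⟩ := (CovBSt.iter h).succ R l v m t e (by simpa [IT.one] using h0) tr
    IT.above_zero hu zero_le
  have hn : V.n = 0 := v1.n.trans h0.n
  have st := v2.step l (hn ▸ zero_le) (lt_add_one l)
  have e1 : V.E l = R.E l := v1.E (lt_add_one l)
  obtain ⟨k1, k2, k3⟩ := KL.act_uniq st.use.act (v3 ▸ e1 ▸ hu.act)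
  have eE : V.E p = S.T.E p := (v1.E (lt1 (hpa.trans hl))).trans (hR.E (lt1 hpa))
  have eb : V.b p = S.T.b p := (v1.b (lt1 (hpa.trans hl))).trans (hR.b (lt1 hpa))
  have hP0 : R.Pred l m t p c := by
    refine ⟨hpa.trans hl, fun e => ?_, fun i hi => ?_, hp.lvl.ta_le,
      (hR.b (lt1 hpa)).symm ▸ hp.lvl.st_le, (hR.E (lt1 hpa)).symm ▸ hp.lvl.noproj, ?_⟩
    · rcases hpa.eq_or_lt with rfl | h1
      · exact hla e
      · rw [hR.la (s1lt h1)]
        exact hm.trans_le (hp.hi (h1.trans_le ha))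
    · rw [hR.la (s1lt (hi.trans_le hpa))]
      exact (hp.lo i hi).1
    · rw [hR.b (lt1 hpa), hR.E (lt1 hpa)]
      exact hp.lvl.max
  obtain ⟨p1, p2⟩ := pred_eq (k1 ▸ k2 ▸ st.pred) (v1.pred (lt_add_one l) hP0)
  have u := st.ult
  rw [p1, p2, k1, eE] at u
  refine ⟨V, v1, v2, k1, p1, by rw [st.la, k3 _ st.use.act.lt, k1], u, p2 ▸ st.b,
    fun x hx => ?_, by rw [← k2, st.top, v3], v3 ▸ e1 ▸ st.agree,
    hR.E (lt1 hpa) ▸ (TreeSt.pred_agree tr hu hP0).1⟩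
  rw [st.ext x (k2 ▸ hx), k3 x (k2 ▸ hx)]

omit [TreeSt.{u}] [CovBSt.{u}] in
/-- The chain stops at an extender with small critical point. -/
theorem stop (hu : R.Use l v m t e) (h : IsUlt E b m E' s) (ht : t ≤ b)
    (np : NoProj E m t (b + 1)) (hp : Pas E t) (h1 : ∀ x < t, s x = e x) (h2 : s t = v)
    (h3 : Agree E' (R.E l) v) (hc : ℵ₀ < t.cof) (hk : m < k) (hx : x < e m) :
    Alt R l E' (s b) k x := by
  have A := hu.act
  refine Or.inr ⟨v, m, t, e, hu.le, A, hk, hx, ?_, h2 ▸ (w_le h.toWeak (lt1 ht) (lt_add_one b)).2 ht,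
    h3, h2 ▸ TB.pas_up h.pm h.pm' h.toStrong ht hp, next_up h A ht np h1 h2 h3,
    fun k' t' e' A' => ?_⟩
  · rwa [← CofMap.cof_eq (f := e) (d := t) ⟨fun y z h4 h5 => (w_le A.weak (h4.trans_lt h5) h5).2 h4,
      A.weak.maps, A.cof⟩]
  · obtain ⟨k0, t0, g, A0, rfl, -⟩ := KActSt.good_act_down h.pm h.pm' h.toStrong le_rfl A'
    rcases lt_or_ge k0 m with h4 | h4
    · exact Or.inl (by rwa [h1 _ (h4.trans A.lt), A.fix _ h4])
    · exact Or.inr (h1 _ A.lt ▸ (w_le h.toWeak (lt1 (A.lt.le.trans ht))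
        (lt1 (A0.lt.trans A0.dom).le)).2 h4)

/-- The ultrapower of the unfolding is reached by a chain of top extenders. -/
theorem chain (h : S.Ok) (hu : S.Unf m t E b) (ha : a ≤ S.l) : ∀ {R : IT.{u}} {l v e x},
    S.T.EqLt R (a + 1) → a ≤ l → R.IsTr l → R.Use l v m t e → (a < l → m < R.la a) →
    (∀ m' t' p c, S.Nx m' t' → m' ≤ m → S.Pm m' t' p c → p ≤ a) → ¬ Cts S.pi t → x < e m →
    ∃ E' s, IsUlt E b m E' s ∧ (∀ x < t, s x = e x) ∧ s t = v ∧ Agree E' (R.E l) v ∧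
      PM E' (s b + 1) ∧ S.P.II E' (s b) ∧ ∃ (R2 : IT.{u}) (l2 : Ordinal.{u}), R.EqLt R2 (l + 1) ∧
        l ≤ l2 ∧ R2.IsTr l2 ∧ (∀ i, l ≤ i → i < l2 → k ≤ R2.ka i ∧ R2.pr i ≤ a) ∧
        (l2 = l ∨ ∃ i, l ≤ i ∧ l2 = i + 1) ∧ Alt R2 l2 E' (s b) k x := by
  induction hu with
  | @good m t p c nx pm top =>
    intro R l v e x hR hl tr hu hla hp hd hx
    have hpa := hp m t p c nx le_rfl pm
    obtain ⟨R1, r1, r2, r3, r4, r5, r6, r7, r8, r9, r10, -⟩ :=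
      step h pm hR hpa ha hl tr hu hla nx.next.1
    have h0 : (IT.one S.W S.th).EqLt R1 1 := h.eqT.trans ((hR.trans (r1.mono (by gcongr))).mono
      (by simp))
    refine ⟨_, _, r6, r8, r9, r10, r7 ▸ TreeSt.pm r2 le_rfl, r7 ▸ CovBSt.ii h h0 r2 le_rfl, ?_⟩
    rcases le_or_gt k m with hk | hk
    · refine ⟨R1, l + 1, r1, le_self_add, r2, fun i i1 i2 => ?_, Or.inr ⟨l, le_rfl, rfl⟩,
        Or.inl ⟨r7.ge, fun _ _ => rfl⟩⟩
      obtain rfl := le_antisymm i1 (le1 i2)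
      exact ⟨r3 ▸ hk, r4 ▸ hpa⟩
    · exact ⟨R, l, IT.EqLt.refl, le_rfl, tr, fun i i1 i2 => absurd i2 (not_lt.2 i1), Or.inl rfl,
        stop hu r6 pm.lvl.ta_le pm.lvl.noproj
          (fun y z => (pm.ag t (lt_add_one t)).symm ▸ (CovBSt.nx h nx).2.2.2.2.1 y z) r8 r9 r10
          (CovBSt.cof h nx hd).1 hk hx⟩
  | @bad m t p c m1 t1 b1 H j E1 E nx pm act le disc prev ult ext top ag pm' ih =>
    intro R l v e x hR hl tr hu hla hp hd hx
    have hpa := hp m t p c nx le_rfl pm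
    obtain ⟨R1, r1, r2, r3, r4, r5, r6, r7, r8, r9, r10, r11⟩ :=
      step h pm hR hpa ha hl tr hu hla nx.next.1
    have L := (TreeSt.pm tr le_rfl).ls.mono (lt1 hu.le).le
    have h1 := lt_top h nx pm act
    have h2 := lt_img h nx pm act
    obtain ⟨n1, -, n2, n3, -, -⟩ := basic h prev
    obtain ⟨-, -, o2, o3, o4, -⟩ := basic h (.bad nx pm act le disc prev ult ext top ag pm')
    have h3 : t1 < m := le.lt_of_ne fun e1 => by
      obtain ⟨y, y1, y2, y3⟩ := (Str.crit L hu.act).2 m1 (e1 ▸ act.lt)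
      obtain ⟨z, z1, z2, z3⟩ := act.top y (e1 ▸ y2)
      have z4 : z < t := (e1 ▸ z2 : z < m).trans nx.next.1
      rw [KL.rho_lt r11 z4] at z3
      exact absurd ((y3 z z1 (e1 ▸ z2)).trans z3) (not_le.2 y1)
    have fx : ∀ y < m, R1.im l y = y := fun y hy => by
      rw [r8 y (hy.trans nx.next.1), hu.act.fix y hy]
    obtain ⟨H1, A1, h4⟩ := KActSt.good_act r6.pm r6.pm'
      (KGoodSt.strong_good r6.pm r6.pm' r6.toStrong) le_rfl act
    rw [fx _ (act.lt.trans h3), fx _ h3] at A1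
    have h5 : ∀ y < t1, H1 y = R1.im l (H y) := fun y hy => by rw [← h4 y hy, fx y (hy.trans h3)]
    have h6 : e m < H1 m1 := by
      rw [h5 _ act.lt, ← r8 _ nx.next.1]
      exact r6.mono (lt1 (nx.next.1.trans h1).le) (lt1 (act.weak.maps _ act.lt).le) h2
    have h7 : ∀ i < l + 1, R1.la i < H1 m1 := fun i hi =>
      ((TreeSt.la_mono r2 (le1 hi) (lt_add_one l)).trans r5.le).trans_lt h6
    obtain ⟨E', s1, s2, s3, s4, s5, s6, s7, R2, l2, q1, q2, q3, q4, q5, q6⟩ :=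
      ih (hR.trans (r1.mono (by gcongr))) (hl.trans le_self_add) r2
        ⟨A1, r7.ge, fun i hi => (h7 i hi).le, fun i hi _ => h7 i hi⟩ (fun _ => by
          rcases hl.eq_or_lt with rfl | e1
          · exact ((act.lt.trans h3).trans hu.act.move).trans_eq r5.symm
          · rw [r1.la (s1lt e1)]
            exact (act.lt.trans h3).trans (hla e1))
        (fun m' t' p' c' e1 e2 => hp m' t' p' c' e1 (e2.trans (act.lt.trans h3).le)) disc
        (hx.trans h6)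
    obtain ⟨s, c1, c2, c3⟩ := CommI.comm act r6 h2 ult ext top ag n2 n3 s2
      (fun y hy => (s3 y hy).trans (h5 y hy)) s4 s5
    have c4 : ∀ y < t, s y = e y := fun y hy => (c3 y (hy.trans h1).le).trans (r8 y hy)
    have c5 : s t = v := (c3 t h1.le).trans r9
    have c6 : Agree E' (R.E l) v := KL.ag_trans (KL.ag_mono s5 (r9 ▸
      (r6.mono (lt1 h1.le) (lt_add_one c) h1).le)) r10
    refine ⟨E', s, c1, c4, c5, c6, (c2 _ le_rfl).symm ▸ s6, (c2 _ le_rfl).symm ▸ s7, ?_⟩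
    rcases le_or_gt k m with hk | hk
    · refine ⟨R2, l2, r1.trans (q1.mono le_self_add), le_self_add.trans q2, q3, fun i i1 i2 => ?_,
        Or.inr (q5.elim (fun e1 => ⟨l, le_rfl, e1⟩) fun ⟨i, i1, i2⟩ =>
          ⟨i, le_self_add.trans i1, i2⟩), (c2 _ le_rfl).symm ▸ q6⟩
      rcases i1.eq_or_lt with rfl | i3
      · rw [q1.ka (lt_add_one _), q1.pr (lt_add_one _), r3, r4]
        exact ⟨hk, hpa⟩
      · exact q4 i (Order.add_one_le_iff.2 i3) i2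
    · exact ⟨R, l, IT.EqLt.refl, le_rfl, tr, fun i i1 i2 => absurd i2 (not_lt.2 i1), Or.inl rfl,
        stop hu c1 o2 o3
          (fun y z => (o4 t (lt_add_one t)).symm ▸ (CovBSt.nx h nx).2.2.2.2.1 y z) c4 c5 c6
          (CovBSt.cof h nx hd).1 hk hx⟩

/-- The chain that starts at the top extender of the model at `m`. -/
theorem start (h : S.Ok) (hn : S.Nx m t) (hp : S.Pm m t a c) (A : Act (S.T.E a) c m1 t1 H)
    (le : t1 ≤ m) (hd : ¬ Cts S.pi t1) (hu : S.Unf m1 t1 E b) (k : Ordinal.{u}) :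
    ∃ E' s, IsUlt E b m1 E' s ∧ (∀ x < t1, s x = H x) ∧ s t1 = c ∧ Agree E' (S.T.E a) c ∧
      PM E' (s b + 1) ∧ S.P.II E' (s b) ∧ ∃ (R : IT.{u}) (l : Ordinal.{u}), S.T.EqLt R (a + 1) ∧
        a ≤ l ∧ R.IsTr l ∧ (∀ i, a ≤ i → i < l → k ≤ R.ka i ∧ R.pr i ≤ a) ∧
        (l = a ∨ ∃ i, a ≤ i ∧ l = i + 1) ∧ Alt R l E' (s b) k m :=
  have h2 := lt_img h hn hp A
  chain h hu hp.le IT.EqLt.refl le_rfl (h.coit.tr.mono (h.eqT.n ▸ zero_le) hp.le)
    ⟨A, hp.lvl.st_le, fun i hi => ((hp.lo i hi).1.trans_lt h2).le,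
      fun i hi _ => (hp.lo i hi).1.trans_lt h2⟩ (fun e => absurd e (lt_irrefl _))
    (fun _ _ _ _ e1 e2 e3 => CovBSt.pm_mono h e1 hn (e2.trans (A.lt.le.trans le)) e3 hp) hd h2

omit [TreeSt.{u}] [CovBSt.{u}] in
/-- Ultrapowers by the same extender agree. -/
theorem uniq {F G : Seq.{u}} {j : Ordinal.{u} → Ordinal.{u}} (U : IsUlt E b m E' s)
    (V : IsUlt E b m F j) (A : Act G v m t e) (ht : t ≤ b) (np : NoProj E m t (b + 1))
    (u1 : ∀ x < t, s x = e x) (u2 : Agree E' G v) (v1 : ∀ x < t, j x = e x) (v2 : Agree F G v) :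
    s b = j b ∧ Agree E' F (s b + 1) := by
  have hk : s m = j m := (u1 _ A.lt).trans (v1 _ A.lt).symm
  obtain ⟨h1, h2⟩ := RealI.unique U V hk fun n a i1 i2 => by
    have := RealI.thread (th := id) U (KGoodSt.strong_good V.pm V.pm' V.toStrong) ht np
      (fun z hz => hk ▸ hz) (fun n a i1 _ => by
        rw [KN.map_eq u1 i1, KN.map_eq v1 i1, KN.anm u2 (w_in A.weak i1),
          KN.anm v2 (w_in A.weak i1), map_eq_self (f := id) fun _ _ => rfl]) n a i1 i2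
    rwa [map_eq_self (f := id) fun _ _ => rfl] at this
  exact ⟨h1 b le_rfl, h2⟩

theorem ex (h : S.Ok) (m : Ordinal.{u}) : ∀ {t}, S.Nx m t →
    (∀ m' t', S.Nx m' t' → m' ≤ m → ∃ a c, S.Pm m' t' a c) → ∃ E b, S.Unf m t E b := by
  induction m using WellFoundedLT.induction with
  | ind m ih =>
  intro t hn hp
  obtain ⟨a, c, pm⟩ := hp m t hn le_rfl
  by_cases top : TopCts (S.T.E a) c m t S.pi
  · exact ⟨_, _, .good hn pm top⟩
  obtain ⟨k0, t0, g, A, h1, h2⟩ : ∃ k0 t0 g, Act (S.T.E a) c k0 t0 g ∧ t0 ≤ m ∧ ¬ Cts S.pi t0 := by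
    by_contra hc
    exact top fun k0 t0 g A => ⟨fun e => by_contra fun e' => hc ⟨k0, t0, g, A, e, e'⟩,
      fun e => absurd e (lt_top h hn pm A).ne⟩
  have h3 : m < t + 1 := lt1 hn.next.1.le
  have np : NoProj S.Eb k0 t0 (S.bb + 1) := fun y y1 y2 => by
    rcases lt_or_ge y m with y3 | y3
    · rw [← KL.rho_lt pm.ag (y3.trans h3)]
      exact A.next y y1 (y3.trans (hn.next.1.trans (lt_top h hn pm A)))
    · exact (A.lt.trans_le h1).trans_le (hn.card y y3 y2)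
  have n0 : S.Nx k0 t0 := ⟨A.inf, (A.lt.le.trans h1).trans hn.le, fun y y1 y2 => by
      rcases lt_or_ge y t0 with y3 | y3
      · rw [← KL.rho_lt pm.ag ((y3.trans_le h1).trans h3)]
        exact A.card y y1 y3
      · exact (np y y3 y2).le,
    A.lt, h1.trans (hn.next.1.le.trans hn.next.2.1),
    KL.topC_ag (KL.ag_mono pm.ag (h1.trans h3.le)) A.top, np⟩
  obtain ⟨E1, b1, u⟩ := ih k0 (A.lt.trans_le h1) n0
    fun m' t' e1 e2 => hp m' t' e1 (e2.trans (A.lt.le.trans h1))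
  obtain ⟨E', s, s1, s2, s3, s4, s5, -⟩ := start h hn pm A h1 h2 u 0
  exact ⟨_, _, .bad hn pm A h1 h2 u s1 s2 s3 s4 s5⟩

theorem ii [KIISt.{u}] (h : S.Ok) (hu : S.Unf m t E b) : S.P.II E b := by
  cases hu with
  | good nx pm top =>
    exact TB.ii_lev (CovBSt.ii h h.eqT h.coit.tr pm.le) (TreeSt.pm h.coit.tr pm.le).toPM0
      pm.lvl.st_le
  | bad nx pm act le disc prev ult ext top ag pm' =>
    obtain ⟨E', s, s1, s2, -, s4, s5, s6, -⟩ := start h nx pm act le disc prev 0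
    obtain ⟨-, -, n2, n3, -⟩ := basic h prev
    obtain ⟨e1, e2⟩ := uniq s1 ult act n2 n3 s2 s4 ext ag
    exact e1 ▸ TB.ii_ag s6 s5.toPM0 e2

theorem alt (h : S.Ok) (hu : S.Unf m t E b) (hp : S.Pm m t a c) :
    ∃ (R : IT.{u}) (l : Ordinal.{u}), S.T.EqLt R (a + 1) ∧ a ≤ l ∧ R.IsTr l ∧
      (∀ i, a ≤ i → i < l → k ≤ R.ka i ∧ R.pr i ≤ a) ∧ (l = a ∨ ∃ i, a ≤ i ∧ l = i + 1) ∧
      Alt R l E b k m := by
  cases hu with
  | good nx pm top =>
    obtain ⟨rfl, rfl⟩ := CovBSt.pm_uniq h nx hp pm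
    exact ⟨S.T, a, IT.EqLt.refl, le_rfl, h.coit.tr.mono (h.eqT.n ▸ zero_le) hp.le,
      fun i i1 i2 => absurd i2 (not_lt.2 i1), Or.inl rfl, Or.inl ⟨hp.lvl.st_le, fun _ _ => rfl⟩⟩
  | bad nx pm act le disc prev ult ext top ag pm' =>
    obtain ⟨rfl, rfl⟩ := CovBSt.pm_uniq h nx hp pm
    obtain ⟨E', s, s1, s2, -, s4, -, -, R, l, r1, r2, r3, r4, r5, r6⟩ :=
      start h nx pm act le disc prev k
    obtain ⟨-, -, n2, n3, -⟩ := basic h prev
    obtain ⟨e1, e2⟩ := uniq s1 ult act n2 n3 s2 s4 ext ag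
    exact ⟨R, l, r1, r2, r3, r4, r5, e1 ▸ r6.ag e2⟩

instance [KIISt.{u}] : ChainSt.{u} :=
  ⟨basic, fun h => ex h _, ii, fun h hu hp _ => alt h hu hp⟩

end Pool.Agent.KM.ChainI
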