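import Pool.Agent.Lib.MP_5c0be7_lc.T.StCov
import Pool.Agent.Lib.MP_5c0be7_lc.T.Tame
import Pool.Agent.Lib.MP_5c0be7_lc.P.Phx

/-!
Project KM, block T3: the end of the covering argument.
-/

namespace Pool.Agent.KM

open Ordinal Cardinal Tr Set

universe u

namespace CovI

/-- The induction. -/
theorem all [IndSt.{u}] {S : Cov.{u}} (hS : S.Ok) (m : Ordinal.{u}) : ∀ t, S.Nx m t → S.I m t := by
  induction m using WellFoundedLT.induction with
  | ind m ih => exact fun t nx => IndSt.step hS nx fun m' t' nx' h => ih m' h t' nx'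

/-- There is no correct covering datum. -/
theorem no_cov [IndSt.{u}] [CovBSt.{u}] [ChainSt.{u}] {S : Cov.{u}} (hS : S.Ok) : False := by
  have nx := CovBSt.top hS
  obtain ⟨E, b, un⟩ := ChainSt.ex hS nx fun m' t' nx' _ => (all hS m' t' nx').1
  obtain ⟨-, -, -, -, -, -, -, -, n⟩ := CovBSt.nx hS nx
  obtain ⟨-, -, tb, -⟩ := ChainSt.basic hS un
  rcases (all hS _ _ nx).2 E b un with ⟨h, -⟩ | ⟨-, g, L, h1, h2⟩
  · have h1 := n.1
    rw [h, hS.hx.plb] at h1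
    exact h1.asymm (hS.hx.lt.trans hS.hx.sm)
  · have h3 : S.pi S.tb ≤ g S.tb := le_of_forall_lt fun y hy =>
      let ⟨x, x1, x2⟩ := hS.hx.cts y hy
      (L.ext x x1 ▸ x2).trans ((KE.w_lt L.ult.toWeak (KE.lt1 (x1.le.trans tb)) (KE.lt1 tb)).2 x1)
    have h4 : g S.tb ≤ g b := (KE.w_le L.ult.toWeak (KE.lt1 tb) (lt_add_one b)).2 tb
    exact (n.2.2.2 _ ((h3.trans h4).trans le_self_add) (KE.s1lt h1)).not_ge h2

/-- The weasel computes the successor of the singular cardinal. -/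
theorem cover [IndSt.{u}] [CovBSt.{u}] [ChainSt.{u}] [HullXSt.{u}] [KIISt.{u}] [KIterSt.{u}]
    [CmpSt.{u}] {V : Env.{u}} (hV : V.Ok) {tau : Ordinal.{u}}
    (h : IsNext V.W (V.th + 1) V.lam.ord tau) : V.P.t.ord ≤ tau := not_lt.1 fun h1 => by
  obtain ⟨Eb, bb, pi, lb, tb, hx⟩ := HullXSt.hull hV h h1
  have hW := hV.good
  obtain ⟨T, l, U, m, eT, eU, co, -⟩ := CmpSt.compare (g := 0) (g' := 0) (h := 0)
    (KIterSt.iter (Phx.phal_one hW.pm) (KIISt.one hW.pm.toPM0 hW.ii))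
    (KIterSt.iter (Phx.phal_one hx.pm) (KIISt.one hx.pm.toPM0
      (TB.ii_pre hW.ii hx.pm.toPM0 hW.pm.toPM0 hx.str))) (fun _ h => absurd h (by simp))
    (fun i hi => absurd hi (by simp)) (fun i hi => absurd hi (by simp)) le_rfl le_rfl
    (fun _ _ _ _ _ _ _ _ _ => zero_le) (fun _ _ _ _ _ _ _ _ _ => zero_le)
  exact no_cov (S := ⟨V, Eb, bb, pi, lb, tb, T, l, U, m⟩)
    ⟨hV, hx, by simpa using eT, by simpa using eU, co⟩

/-- The levels that project to the singular cardinal are unbounded below its successor. -/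
theorem unb [IndSt.{u}] [CovBSt.{u}] [ChainSt.{u}] [HullXSt.{u}] [KIISt.{u}] [KIterSt.{u}]
    [CmpSt.{u}] {V : Env.{u}} (hV : V.Ok) {o : Ordinal.{u}} (ho : o < V.P.t.ord) :
    ∃ a, o ≤ a ∧ V.lam.ord ≤ a ∧ a < V.th ∧ rho V.W (a + 1) ≤ V.lam.ord := by
  have h1 : V.lam.ord < V.P.t.ord := ord_lt_ord.2 (hV.t ▸ Order.lt_succ _)
  obtain ⟨tau, h⟩ := KL.exists_next (E := V.W)
    ((h1.trans (V.P.t_ord_lt.trans hV.good.lt)).trans (lt_add_one V.th))
  obtain ⟨a, a1, a2, a3⟩ := h.2.2.1 (max o V.lam.ord + 1)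
    (((isSuccLimit_ord V.P.aleph0_lt_t.le).add_one_lt (max_lt ho h1)).trans_le (cover hV h))
  have a4 : a < V.th + 1 := a2.trans_le h.2.1
  obtain ⟨c, rfl⟩ := KL.suc_of_rho (hV.good.pm.ls a a4)
    (a3.trans_lt ((le_max_right o _).trans_lt (Order.add_one_le_iff.1 a1)))
  have c1 := KE.s1le a1
  exact ⟨c, (le_max_left _ _).trans c1, (le_max_right _ _).trans c1,
    Order.add_one_le_iff.1 (KE.le1 a4), a3⟩

/-- The parameters at a small uncountable cardinal. -/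
noncomputable def par (lam : Cardinal.{0}) (h : ℵ₀ < lam) : Pa.{1} where
  O := Cardinal.univ.{0, 1}
  t := Order.succ (Cardinal.lift.{1} lam)
  hO := Cardinal.IsInaccessible.univ
  ht := isRegular_succ (by simpa using h.le)
  h1 := Order.lt_succ_of_le (by
    rw [← Cardinal.succ_aleph0, Order.succ_le_iff]; simpa using h)
  h2 := Cardinal.IsInaccessible.univ.isStrongLimit.isSuccLimit.succ_lt (Cardinal.lift_lt_univ lam)

end CovI

instance [IndSt.{1}] [CovBSt.{1}] [ChainSt.{1}] [HullXSt.{1}] [KIISt.{1}] [KIterSt.{1}]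
    [CmpSt.{1}] [OutSt.{1}] [EndSt] [LocSt.{1}] [BSt.{1}] : CovSt where
  cov := by
    intro ng H
    obtain ⟨lam, g, fin⟩ := EndSt.fin H
    obtain ⟨W, th, hW, rig⟩ := OutSt.out (CovI.par lam g.unc)
      (by rwa [Pa.Om, CovI.par, Cardinal.ord_univ]) _ (CovI.par lam g.unc).t_ord_lt
    have un : ℵ₀ < Cardinal.lift.{1} lam := by simpa using g.unc
    have hV : Env.Ok ⟨CovI.par lam g.unc, Cardinal.lift.{1} lam, W, th⟩ :=
      ⟨rfl, un, ⟨(aleph0_pos.trans un).ne', fun x hx => by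
          obtain ⟨y, hy, rfl⟩ := Cardinal.lt_lift_iff.1 hx
          simpa using Cardinal.lift_lt.{0, 1}.2 (g.sl.isStrongPrelimit hy)⟩,
        by rw [← Cardinal.lift_ord, ← Ordinal.lift_cof, g.cof, Cardinal.lift_aleph0], hW, rig⟩
    obtain ⟨o, o1, o2⟩ := fin _ W
      (fun a => (Cardinal.lift.{1} lam).ord ≤ a ∧ a < th ∧
        rho W (a + 1) ≤ (Cardinal.lift.{1} lam).ord) rfl
      (fun a ha => ⟨KE.pm_mono hW.pm (KE.s1lt ha.2.1).le, ha.1,
        let ⟨_, hp⟩ := (hW.pm.ls _ (KE.s1lt ha.2.1)).1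
        ⟨_, CU.KS.of_ss hp ha.2.2 (ha.1.trans le_self_add)⟩⟩)
      fun E b p pm lb ks ag loc =>
        let ⟨k1, k2, k3⟩ := LocSt.loc hV pm lb ag (fun _ ha => ha.2.1.le) loc
        (BSt.seg hV le_rfl (TB.card_isCard un hW.pm.ls) pm k1 ks lb k2
          (TB.card_isCard un pm.ls) k3).2
    obtain ⟨a, a1, a2⟩ := CovI.unb hV o1
    exact (o2 a a2).not_ge a1

end Pool.Agent.KM
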