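import Pool.Agent.Lib.MP_5c0be7_lc.T.Tame
import Pool.Agent.Lib.MP_5c0be7_lc.T.Str

/-!
Project KM, block T2: cardinals along strong maps of premice of limit index.
-/

namespace Pool.Agent.KM.Hx0

open Ordinal Tr

universe u

variable {E E' : Seq.{u}} {b c k t m d d' : Ordinal.{u}} {s : Ordinal.{u} → Ordinal.{u}}

theorem topC_iff (h : Weak E d E' d' s) (L : LS E d) (L' : LS E' d') (hm : ¬ Suc m) (ht : t < m)
    (hd : m ≤ d) (hk : k < t) : TopC E' (s k) (s t) ↔ TopC E k t :=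
  (Df.topC (On.lab IsOp.id) On.top).weak_lim (z := leaf k) h L L' hm ht hd (by simpa using hk)

theorem noProj_iff (p : PM0 E (b + 1)) (p' : PM0 E' (c + 1)) (h : Strong E (b + 1) E' (c + 1) s)
    (ht : t ≤ b) (hk : k ≤ b) : NoProj E' (s k) (s t) (c + 1) ↔ NoProj E k t (b + 1) := by
  refine ⟨fun H a ha ha' => (TB.strong_rho h (KE.le1 ha') hk).1 (H _
    ((KE.w_le h.toWeak (KE.lt1 ht) ha').2 ha) (h.maps a ha')), fun H a ha ha' => ?_⟩
  rcases ha.lt_or_eq with h1 | rfl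
  · have e := TB.top_eq h.toWeak
    exact KE.good_noProj (TB.strong_good p p' h) ht
      (fun x hx hx' => H x ((lt_add_one t).le.trans hx) hx') a (IT.s_le h1) (e ▸ ha')
  · exact (TB.strong_rho h ht hk).2 (H t le_rfl (KE.lt1 ht))

theorem next_iff (p : PM0 E (b + 1)) (p' : PM0 E' (c + 1)) (h : Strong E (b + 1) E' (c + 1) s)
    (hb : ¬ Suc b) (ht : t < b) (hk : k ≤ b) :
    IsNext E' (c + 1) (s k) (s t) ↔ IsNext E (b + 1) k t := by
  have e := KE.w_lt h.toWeak (KE.lt1 hk) (KE.lt1 ht.le)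
  refine ⟨fun H => ?_, fun H => ?_⟩
  · exact ⟨e.1 H.1, (KE.lt1 ht.le).le,
      (topC_iff h.toWeak p.ls p'.ls hb ht (lt_add_one b).le (e.1 H.1)).1 H.2.2.1,
      (noProj_iff p p' h ht.le hk).1 H.2.2.2⟩
  · exact ⟨e.2 H.1, (h.maps t (KE.lt1 ht.le)).le,
      (topC_iff h.toWeak p.ls p'.ls hb ht (lt_add_one b).le H.1).2 H.2.2.1,
      (noProj_iff p p' h ht.le hk).2 H.2.2.2⟩

theorem card_down (h : Strong E (b + 1) E' (c + 1) s) (hk : k ≤ b)
    (H : IsCard E' (c + 1) (s k)) : IsCard E (b + 1) k := fun a ha ha' => by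
  by_contra hn
  have h1 := not_le.1 hn
  have h2 := (TB.strong_rho h (KE.le1 ha') (h1.le.trans hk)).not.2 (lt_irrefl _)
  exact h2 (((KE.w_lt h.toWeak (KE.lt1 (h1.le.trans hk)) (KE.lt1 hk)).2 h1).trans_le
    (H _ ((KE.w_le h.toWeak (KE.lt1 hk) ha').2 ha) (h.maps a ha')))

theorem card_up (p : PM0 E (b + 1)) (p' : PM0 E' (c + 1)) (h : Strong E (b + 1) E' (c + 1) s)
    (hb : ¬ Suc b) (hk : k < b) (H : IsCard E (b + 1) k) : IsCard E' (c + 1) (s k) :=
  fun a ha ha' => by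
  have e := TB.top_eq h.toWeak
  rcases (KE.le1 ha').lt_or_eq with h1 | rfl
  · exact (TB.strong_good p p' h).card k k hk hk
      (fun x hx hx' => H x hx (hx'.trans (lt_add_one b))) a ha (e ▸ h1)
  · refine (e ▸ (TB.strong_rho h le_rfl hk.le).2 ?_ : s k < rho E' a).le
    rw [(p.ls b (lt_add_one b)).2 hb]; exact hk

end Pool.Agent.KM.Hx0
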