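import Pool.Agent.Lib.MP_5c0be7_lc.T.CovT
import Pool.Agent.Lib.MP_5c0be7_lc.T.Hx0
import Pool.Agent.Lib.MP_5c0be7_lc.T.S5
import Pool.Agent.Lib.MP_5c0be7_lc.K.II

/-!
Project KM, block T2: elementary facts on the setting of the covering argument.
-/

namespace Pool.Agent.KM

open Ordinal Cardinal Tr Set

universe u

namespace CovBI

variable {S : Cov.{u}} {m t x : Ordinal.{u}}

theorem card_lim {E : Seq.{u}} {d : Ordinal.{u}} (h : IsCard E d m) (hm : m < d) : ¬ Suc m := by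
  rintro ⟨c, rfl⟩
  exact ((h _ le_rfl hm).trans (F3.rho_top E c)).not_gt (lt_add_one c)

theorem pmW (h : S.Ok) : PM S.W (S.th + 1) := h.env.good.pm

theorem bb_lim (h : S.Ok) : ¬ Suc S.bb := TB.not_suc_down h.hx.str.toWeak (lt_add_one _)
  (by rw [CovT.pi_top h]; exact h.env.good.toTall.not_suc)

theorem lb_lt (h : S.Ok) : S.lb < S.bb := h.hx.nx.1.trans h.hx.lt

theorem m_lt (h : S.Ok) (n : S.Nx m t) : m < S.bb := n.le.trans_lt (lb_lt h)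

theorem t_card [AccSt.{u}] (h : S.Ok) (n : S.Nx m t) : IsCard S.Eb (S.bb + 1) t :=
  AccSt.next_card _ _ _ _ h.hx.pm.ls n.next

theorem t_lim [AccSt.{u}] (h : S.Ok) (n : S.Nx m t) : ¬ Suc t :=
  card_lim (t_card h n) (KE.lt1 (CovT.t_lt h n).le)

theorem nx [AccSt.{u}] [ActSt.{u}] (h : S.Ok) (n : S.Nx m t) : t ≤ S.tb ∧ ¬ Suc m ∧ ¬ Suc t ∧
    Pas S.Eb m ∧ Pas S.Eb t ∧ IsCard S.Eb (S.bb + 1) t ∧ S.pi m ≤ S.lam.ord ∧
    IsCard S.W (S.th + 1) (S.pi m) ∧ IsNext S.W (S.th + 1) (S.pi m) (S.pi t) :=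
  ⟨CovT.t_le h n, card_lim n.card (KE.lt1 (m_lt h n).le), t_lim h n,
    TB.pas_of_card h.hx.pm.toPM0 (KE.s1lt (m_lt h n)) n.card,
    TB.pas_of_card h.hx.pm.toPM0 (KE.s1lt (CovT.t_lt h n)) (t_card h n), t_card h n,
    h.hx.plb ▸ h.hx.mono.monotone n.le,
    Hx0.card_up h.hx.pm.toPM0 (pmW h).toPM0 h.hx.str (bb_lim h) (m_lt h n) n.card,
    (Hx0.next_iff h.hx.pm.toPM0 (pmW h).toPM0 h.hx.str (bb_lim h) (CovT.t_lt h n)
      (m_lt h n).le).2 n.next⟩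

theorem top (h : S.Ok) : S.Nx S.lb S.tb :=
  ⟨(omega0_lt_omega_one.trans h.hx.w1lt).le, le_rfl, Hx0.card_down h.hx.str (lb_lt h).le
    (h.hx.plb ▸ TB.card_isCard h.env.unc (pmW h).ls), h.hx.nx⟩

theorem succ (h : S.Ok) (h1 : ω ≤ m) (h2 : m ≤ S.lb) (h3 : IsCard S.Eb (S.bb + 1) m) :
    ∃ t, S.Nx m t :=
  let ⟨t, ht⟩ := KL.exists_next (E := S.Eb) (KE.lt1 (h2.trans (lb_lt h).le))
  ⟨t, h1, h2, h3, ht⟩

theorem cover [AccSt.{u}] (h : S.Ok) (h1 : ω₁ ≤ x) (h2 : x < S.tb) :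
    ∃ m t, S.Nx m t ∧ m ≤ x ∧ x < t := by
  have hx : x < S.bb + 1 := KE.lt1 (h2.trans h.hx.lt).le
  obtain ⟨_, ⟨a, ⟨a1, a2⟩, rfl⟩, hm⟩ := wellFounded_lt.has_min (rho S.Eb '' Ico x (S.bb + 1))
    ⟨_, x, ⟨le_rfl, hx⟩, rfl⟩
  have mn : ∀ y, x ≤ y → y < S.bb + 1 → rho S.Eb a ≤ rho S.Eb y := fun y hy hy' =>
    not_lt.1 (hm _ ⟨y, ⟨hy, hy'⟩, rfl⟩)
  have c : IsCard S.Eb (S.bb + 1) (rho S.Eb a) := fun y hy hy' => by
    rcases le_or_gt y a with h3 | h3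
    · exact AccSt.card_rho _ _ (h.hx.pm.ls.mono a2.le) y hy (KE.lt1 h3)
    · exact mn y (a1.trans h3.le) hy'
  have w : IsCard S.Eb (S.bb + 1) ω₁ := by
    rw [← ord_aleph 1]; exact TB.card_isCard aleph0_lt_aleph_one h.hx.pm.ls
  obtain ⟨y, y1, y2, y3⟩ := h.hx.nx.2.2.1 x h2
  obtain ⟨t, n⟩ := succ h (omega0_lt_omega_one.le.trans (w a (h1.trans a1) a2))
    ((mn y y1 (KE.lt1 (y2.trans h.hx.lt).le)).trans y3) c
  refine ⟨_, t, n, (mn x le_rfl hx).trans (rho_le _ _), not_le.1 fun h3 => ?_⟩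
  exact (n.next.2.2.2 a (h3.trans a1) a2).false

theorem oc [HullSt.{u}] [CondSt.{u}] (h : S.Ok) (n : S.Nx m t) : OC S.Eb S.W m t S.pi := by
  intro Z hZ
  have pl : ∀ y ≤ S.bb, S.pi y ≤ S.th := fun y hy => KE.le1 (h.hx.str.maps y (KE.lt1 hy))
  have hm := (m_lt h n).le
  have ht := (CovT.t_lt h n).le
  obtain ⟨E1, b1, p, p1, p2, p3, -, p5, p6⟩ := IIp.exists_hull (pmW h).toPM0
    (A := insert (S.pi m) (Z ∩ Iic S.th ∪ S.pi '' (Z ∩ Iic S.bb)))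
    (((hZ.mono inter_subset_left).union ((hZ.mono inter_subset_left).image _)).insert _) (by
      rintro z (rfl | hz | ⟨y, hy, rfl⟩)
      · exact pl m hm
      · exact hz.2
      · exact pl y hy.2)
  rw [p3] at p5
  obtain ⟨w, w1, w2⟩ := h.hx.back E1 b1 p p2 p5
  have inv := Function.leftInverse_invFun p1.injective
  have z1 : ∀ z ∈ Z, z < S.pi m → Function.invFun p z ≤ b1 ∧ p (Function.invFun p z) = z :=
    fun z hz hz' => by
      obtain ⟨y, y1, rfl⟩ := p6 (Or.inr (Or.inl ⟨hz, hz'.le.trans (pl m hm)⟩))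
      rw [inv y]; exact ⟨y1, rfl⟩
  have z2 : ∀ z ∈ Z, z < t → Function.invFun p (S.pi z) ≤ b1 ∧
      p (Function.invFun p (S.pi z)) = S.pi z := fun z hz hz' => by
    obtain ⟨y, y1, y2⟩ := p6 (Or.inr (Or.inr ⟨z, ⟨hz, hz'.le.trans ht⟩, rfl⟩))
    rw [← y2, inv y]; exact ⟨y1, rfl⟩
  refine ⟨w ∘ Function.invFun p, fun z hz hz' => ?_, fun k a n1 n2 a1 a2 => ?_⟩
  · obtain ⟨y, y1, y2⟩ := p6 (mem_insert _ _)
    obtain ⟨z3, z4⟩ := z1 z hz hz'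
    rw [← w2 y y1 m hm y2]
    exact w1.mono (KE.lt1 z3) (KE.lt1 y1) (p1.lt_iff_lt.1 (by rwa [z4, y2]))
  · have i1 : In (b1 + 1) (k.map (Function.invFun p ∘ S.pi)) :=
      KE.in_map fun z hz => KE.lt1 (z2 z (n1 hz) (n2 z hz)).1
    have i2 : In (b1 + 1) (a.map (Function.invFun p)) :=
      KE.in_map fun z hz => KE.lt1 (z1 z (a1 hz) (a2 z hz)).1
    have e1 := KN.wnm p5.toWeak i1 i2
    have e2 := KN.wnm w1.toWeak i1 i2
    rw [KN.mm, KN.mm] at e1 e2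
    have f1 : a.map (p ∘ Function.invFun p) = a :=
      map_eq_self fun z hz => (z1 z (a1 hz) (a2 z hz)).2
    have f2 : k.map (p ∘ Function.invFun p ∘ S.pi) = k.map S.pi :=
      map_congr fun z hz => (z2 z (n1 hz) (n2 z hz)).2
    have f3 : k.map (w ∘ Function.invFun p ∘ S.pi) = k :=
      map_eq_self fun z hz => w2 _ (z2 z (n1 hz) (n2 z hz)).1 z
        ((n2 z hz).le.trans ht) (z2 z (n1 hz) (n2 z hz)).2
    rw [f1, f2] at e1
    rw [f3] at e2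
    exact e1.trans e2.symm

theorem ext [AccSt.{u}] (h : S.Ok) (n : S.Nx m t) : ∃ v ≤ S.pi t, Ext S.Eb m t S.W v S.pi := by
  have ht := CovT.t_lt h n
  have hl := t_lim h n
  have h0 : S.pi t ∈ {v | ∀ x < t, S.pi x < v} := fun x hx => h.hx.mono hx
  refine ⟨sInf {v | ∀ x < t, S.pi x < v}, csInf_le' h0, n.inf, n.next.1,
    ⟨h.hx.mono.strictMonoOn _, csInf_mem ⟨_, h0⟩, fun b hb => absurd ⟨b, hb⟩ hl,
      fun b hb => h.hx.str.comm b (KE.lt1 (hb.trans ht).le)⟩, fun y hy => ?_, n.next.2.2.1,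
    fun a ha ha' => n.card a ha (KE.lt1 (ha'.trans ht).le)⟩
  by_contra hn
  push Not at hn
  exact hy.not_ge (csInf_le' fun x hx =>
    (h.hx.mono (lt_add_one x)).trans_le (hn _ (not_suc_iff.1 hl x hx)))

theorem cof [AccSt.{u}] (h : S.Ok) (n : S.Nx m t) (hc : ¬ Cts S.pi t) :
    ℵ₀ < t.cof ∧ t < S.pi t := by
  have ht := CovT.t_lt h n
  have hl := AccSt.next_lim _ _ _ _ h.hx.pm.ls n.next (KE.lt1 ht.le)
  refine ⟨lt_of_le_of_ne (aleph0_le_cof.2 hl) fun e => hc (h.hx.clo t ht.le e.symm),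
    lt_of_le_of_ne h.hx.mono.le_apply fun e => hc fun y hy => ?_⟩
  exact ⟨y + 1, hl.add_one_lt (e ▸ hy), (lt_add_one y).trans_le h.hx.mono.le_apply⟩

theorem iter [KIISt.{u}] [KIterSt.{u}] (h : S.Ok) : (IT.one S.W S.th).Iterable 0 :=
  KIterSt.iter (Phx.phal_one (pmW h)) (KIISt.one (pmW h).toPM0 h.env.good.ii)

end CovBI

instance [TreeSt.{u}] [AgreeSt.{u}] [ActSt.{u}] [AccSt.{u}] [CmpSt.{u}] [BrSt.{u}] [KeySt.{u}]
    [KIISt.{u}] [KIterSt.{u}] [WinSt.{u}] [HullSt.{u}] [CondSt.{u}] : CovBSt.{u} where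
  nx := CovBI.nx
  top := CovBI.top
  succ := CovBI.succ
  cover := CovBI.cover
  oc := CovBI.oc
  ext := CovBI.ext
  cof := CovBI.cof
  ii := fun h e hT hj => S5I.ii e (CovBI.pmW h).toPM0 h.env.good.ii hT _ hj _ le_rfl
  iter := CovBI.iter
  low := CovT.low
  first := fun h => CovT.first h h.hx.gap
  pm := CovT.pm
  pm_uniq := fun _ => CovT.pm_uniq
  pm_mono := fun _ _ => CovT.pm_mono
  pm_low := CovT.pm_low
  triv := fun h => CovT.triv h h.hx.gap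

end Pool.Agent.KM
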