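import Pool.Agent.Lib.MP_5c0be7_lc.T.StCov
import Pool.Agent.Lib.MP_5c0be7_lc.T.Tame
import Pool.Agent.Lib.MP_5c0be7_lc.P.Phx

/-!
Project KM: assembly of the covering argument.
-/

namespace Pool.Agent.KM

open Ordinal Cardinal Tr Set

universe u

namespace CovI

/-- The successor of `lam` in `W` is not smaller than the true successor. -/
theorem cov [HullXSt.{u}] [CovBSt.{u}] [ChainSt.{u}] [IndSt.{u}] [CmpSt.{u}] [KIterSt.{u}]
    [KIISt.{u}] {V : Env.{u}} {tau : Ordinal.{u}} (hV : V.Ok)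
    (h : IsNext V.W (V.th + 1) V.lam.ord tau) : V.P.t.ord ≤ tau := by
  by_contra hc
  obtain ⟨Eb, bb, pi, lb, tb, hx⟩ := HullXSt.hull hV h (not_le.1 hc)
  have i1 : (IT.one V.W V.th).Iterable 0 :=
    KIterSt.iter (Phx.phal_one hV.good.pm) (KIISt.one hV.good.pm.toPM0 hV.good.ii)
  have i2 : (IT.one Eb bb).Iterable 0 :=
    KIterSt.iter (Phx.phal_one hx.pm) (KIISt.one hx.pm.toPM0
      (TB.ii_pre hV.good.ii hx.pm.toPM0 hV.good.pm.toPM0 hx.str))
  obtain ⟨T, l, U, mu, e1, e2, co, -⟩ := CmpSt.compare (h := 0) i1 i2 (fun _ h => absurd h (by simp))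
    (fun _ h => absurd h (by simp [IT.one])) (fun _ h => absurd h (by simp [IT.one])) le_rfl le_rfl
    (fun _ _ _ _ _ _ _ _ _ => zero_le) (fun _ _ _ _ _ _ _ _ _ => zero_le)
  let S : Cov.{u} := ⟨V, Eb, bb, pi, lb, tb, T, l, U, mu⟩
  have hS : S.Ok := ⟨hV, hx, by simpa [IT.one] using e1, by simpa [IT.one] using e2, co⟩
  have all : ∀ m t, S.Nx m t → S.I m t := fun m => by
    induction m using WellFoundedLT.induction with
    | ind m ih => exact fun t nx => IndSt.step hS nx fun m' t' n' h' => ih m' h' t' n'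
  have nx := CovBSt.top hS
  obtain ⟨E, b, hU⟩ := ChainSt.ex hS nx fun m' t' n' _ => (all m' t' n').1
  obtain ⟨-, -, tb', -⟩ := ChainSt.basic hS hU
  obtain ⟨-, -, -, -, -, -, -, -, h2⟩ := CovBSt.nx hS nx
  obtain ⟨h3, -⟩ | ⟨-, g, L, h3, h4⟩ := (all _ _ nx).2 E b hU
  · have h4 : pi lb < pi tb := hx.mono hx.nx.1
    rw [hx.plb, show pi tb = tb from h3] at h4
    exact absurd (h4.trans (hx.lt.trans hx.sm)) (lt_irrefl _)
  · have h5 : S.pi S.tb ≤ g b := not_lt.1 fun h6 => by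
      obtain ⟨x, h7, h8⟩ := hx.cts _ h6
      exact absurd ((L.ext x h7 ▸ h8 : g b < g x)) (not_lt.2
        ((KE.w_le L.ult.toWeak (KE.lt1 (h7.le.trans tb')) (lt_add_one b)).2 (h7.le.trans tb')))
    exact absurd (h2.2.2.2 (g b + 1) (h5.trans (lt_add_one _).le) (KE.lt1 (Order.add_one_le_iff.2 h3)))
      (not_lt.2 h4)

/-- The parameters for a cardinal of the lower universe. -/
noncomputable def pa (lam : Cardinal.{0}) (h : ℵ₀ < lam) : Pa.{1} where
  O := Cardinal.univ.{0, 1}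
  t := Order.succ (Cardinal.lift.{1} lam)
  hO := Cardinal.IsInaccessible.univ
  ht := isRegular_succ (by simpa using h.le)
  h1 := Order.lt_succ_iff.2 (by
    rw [← succ_aleph0]
    exact Order.succ_le_of_lt (by simpa using h))
  h2 := by rw [← Cardinal.lift_succ]; exact Cardinal.lift_lt_univ _

/-- The successor of `lam` in `W` is smaller than the true successor. -/
theorem thin {V : Env.{u}} {tau o : Ordinal.{u}} (hV : V.Ok)
    (h : IsNext V.W (V.th + 1) V.lam.ord tau) (ho : o < V.P.t.ord)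
    (H : ∀ a, V.lam.ord ≤ a ∧ a + 1 < tau ∧ rho V.W (a + 1) ≤ V.lam.ord → a < o) :
    tau < V.P.t.ord := by
  have hl : Order.IsSuccLimit V.P.t.ord := isSuccLimit_ord V.P.ht.aleph0_le
  have h1 : V.lam.ord < V.P.t.ord := ord_lt_ord.2 (hV.t ▸ Order.lt_succ _)
  have h2 : max o V.lam.ord + 1 < V.P.t.ord := hl.add_one_lt (max_lt ho h1)
  refine lt_of_le_of_lt (not_lt.1 fun h3 => ?_) h2
  obtain ⟨a, h4, h5, h6⟩ := h.2.2.1 _ h3
  have h7 : max o V.lam.ord < a := Order.add_one_le_iff.1 h4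
  obtain ⟨c, rfl⟩ := KL.suc_of_rho (hV.good.pm.ls a (h5.trans_le h.2.1))
    (h6.trans_lt ((le_max_right _ _).trans_lt h7))
  exact absurd (H c ⟨(le_max_right _ _).trans (KE.le1 h7), h5, h6⟩)
    (not_lt.2 ((le_max_left _ _).trans (KE.le1 h7)))

end CovI

instance [EndSt] [OutSt.{1}] [BSt.{1}] [LocSt.{1}] [HullXSt.{1}] [CovBSt.{1}] [ChainSt.{1}]
    [IndSt.{1}] [CmpSt.{1}] [KIterSt.{1}] [KIISt.{1}] : CovSt := ⟨fun ng H => by
  obtain ⟨lam, hl, hE⟩ := EndSt.fin H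
  obtain ⟨W, th, hW, rig⟩ := OutSt.out (CovI.pa lam hl.unc)
    (by rw [Pa.Om]; exact Cardinal.ord_univ ▸ ng) _ (CovI.pa lam hl.unc).t_ord_lt
  let V : Env.{1} := ⟨CovI.pa lam hl.unc, Cardinal.lift.{1} lam, W, th⟩
  have unc : ℵ₀ < V.lam := by simpa [V] using hl.unc
  have hV : V.Ok := ⟨rfl, unc, ⟨(aleph0_pos.trans unc).ne', fun x hx => by
    obtain ⟨y, hy, rfl⟩ := Cardinal.lt_lift_iff.1 hx
    rw [← Cardinal.lift_two_power]
    exact Cardinal.lift_lt.2 (hl.sl.isStrongPrelimit hy)⟩, by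
    show (Cardinal.lift.{1} lam).ord.cof = ℵ₀
    rw [← Cardinal.lift_ord, ← Ordinal.lift_cof, hl.cof, Cardinal.lift_aleph0], hW, rig⟩
  have h1 : V.lam.ord < V.th + 1 :=
    ((ord_lt_ord.2 (Order.lt_succ _)).trans (V.P.t_ord_lt.trans hW.lt)).trans (lt_add_one _)
  obtain ⟨tau, ht⟩ := KL.exists_next (E := W) h1
  obtain ⟨o, ho, h2⟩ := hE V.lam.ord W
    (fun a => V.lam.ord ≤ a ∧ a + 1 < tau ∧ rho W (a + 1) ≤ V.lam.ord) rfl
    (fun a ⟨h2, h3, h4⟩ => ⟨KE.pm_mono hW.pm (h3.le.trans ht.2.1), h2,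
      let ⟨_, hp⟩ := (hW.pm.ls _ (h3.trans_le ht.2.1)).1
      ⟨_, CU.KS.of_ss hp h4 (h2.trans (lt_add_one _).le)⟩⟩)
    fun E b p pm lb ks ag le =>
      let ⟨i1, i2, i3⟩ := LocSt.loc hV pm lb ag
        (fun a ha => KE.le1 ((lt_add_one a).trans (ha.2.1.trans_le ht.2.1))) le
      (BSt.seg hV le_rfl (TB.card_isCard unc hW.pm.ls) pm i1 ks lb i2
        (TB.card_isCard unc pm.ls) i3).2
  exact absurd (CovI.thin hV ht ho h2) (not_lt.2 (CovI.cov hV ht))⟩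

end Pool.Agent.KM
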