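import Pool.Agent.Lib.MP_5c0be7_lc.T.StCov
import Pool.Agent.Lib.MP_5c0be7_lc.T.Tame
import Pool.Agent.Lib.MP_5c0be7_lc.T.S5
import Pool.Agent.Lib.MP_5c0be7_lc.F.CmpT

/-!
Project KM, block T3: elementary facts on the comparison of the hull with the weasel.
-/

set_option autoImplicit false

namespace Pool.Agent.KM.CovT

open Ordinal Cardinal Tr Set KE KL IT

universe u

variable {S : Cov.{u}} {m t a c m' t' a' c' x b : Ordinal.{u}} {E : Seq.{u}}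

theorem nT (h : S.Ok) : S.T.n = 0 := S5I.n_eq h.eqT
theorem nU (h : S.Ok) : S.U.n = 0 := S5I.n_eq h.eqU
theorem ET (h : S.Ok) : S.T.E 0 = S.W := S5I.E_eq h.eqT
theorem EU (h : S.Ok) : S.U.E 0 = S.Eb := S5I.E_eq h.eqU
theorem bT (h : S.Ok) : S.T.b 0 = S.th := S5I.b_eq h.eqT
theorem bU (h : S.Ok) : S.U.b 0 = S.bb := S5I.b_eq h.eqU
theorem nT_le (h : S.Ok) (i : Ordinal.{u}) : S.T.n ≤ i := nT h ▸ zero_le
theorem nU_le (h : S.Ok) (i : Ordinal.{u}) : S.U.n ≤ i := nU h ▸ zero_le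

theorem lam_lt (h : S.Ok) : S.lam.ord < S.P.t.ord :=
  ord_lt_ord.2 (h.env.t ▸ Order.lt_succ S.lam)

theorem lam_Om (h : S.Ok) : S.lam.ord < S.P.Om := (lam_lt h).trans S.P.t_ord_lt

theorem bb_Om (h : S.Ok) : S.bb < S.P.Om := h.hx.sm.trans (lam_Om h)

theorem pi_top (h : S.Ok) : S.pi S.bb = S.th := TB.top_eq h.hx.str.toWeak

theorem good (h : S.Ok) : Good S.Eb S.bb S.W S.pi :=
  TB.strong_good h.hx.pm.toPM0 h.env.good.pm.toPM0 h.hx.str

theorem t_le (h : S.Ok) (n : S.Nx m t) : t ≤ S.tb := not_lt.1 fun e =>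
  let ⟨y, y1, y2, y3⟩ := n.next.2.2.1 _ e
  absurd (h.hx.nx.2.2.2 y y1 (y2.trans_le n.next.2.1)) (not_lt.2 (y3.trans n.le))

theorem t_lt (h : S.Ok) (n : S.Nx m t) : t < S.bb := (t_le h n).trans_lt h.hx.lt

/-- Uniqueness of the level to which an extender is applied. -/
theorem lvl_uniq (h : Lvl E b m t c) (h' : Lvl E b m t c') : c = c' := by
  have k : ∀ {c c'}, Lvl E b m t c → Lvl E b m t c' → ¬ c < c' := fun h h' e =>
    absurd (h'.noproj _ (h.ta_le.trans le_self_add) (s1lt e))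
      (not_lt.2 (h.max (e.trans_le h'.st_le)))
  exact le_antisymm (not_lt.1 (k h' h)) (not_lt.1 (k h h'))

/-- Existence of the level to which an extender is applied. -/
theorem lvl_ex (l : LS E (b + 1)) (hm : m < t) (ht : t ≤ b) (h : m < rho E t) :
    ∃ c, Lvl E b m t c := by
  by_cases hx : ∃ y, t ≤ y ∧ y ≤ b ∧ rho E y ≤ m
  · obtain ⟨y, ⟨y1, y2, y3⟩, y4⟩ := wellFounded_lt.has_min _ hx
    obtain ⟨c, rfl⟩ := suc_of_rho (l y (lt1 y2)) (y3.trans_lt (hm.trans_le y1))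
    refine ⟨c, le1 (y1.lt_of_ne fun e => absurd (e ▸ h) (not_lt.2 y3)), le_self_add.trans y2,
      fun z z1 z2 => not_le.1 fun z3 => y4 z ⟨z1, z2.le.trans y2, z3⟩ z2, fun _ => y3⟩
  · exact ⟨b, ht, le_rfl, fun z z1 z2 => not_le.1 fun z3 => hx ⟨z, z1, le1 z2, z3⟩,
      fun e => absurd e (lt_irrefl _)⟩

theorem pm_mono (n' : S.Nx m' t') (hm : m ≤ m') (p : S.Pm m t a c) (p' : S.Pm m' t' a' c') :
    a ≤ a' := not_lt.1 fun e =>
  absurd ((p.lo a' e).1.trans hm) (not_le.2 (n'.next.1.trans_le (p'.hi (e.trans_le p.le))))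

theorem pm_uniq (n : S.Nx m t) (p : S.Pm m t a c) (p' : S.Pm m t a' c') : a = a' ∧ c = c' := by
  obtain rfl : a = a' := le_antisymm (pm_mono n le_rfl p p') (pm_mono n le_rfl p' p)
  exact ⟨rfl, lvl_uniq p.lvl p'.lvl⟩

theorem pm_low (h : S.Ok) (n : S.Nx m t) (p : S.Pm m t a c) :
    Low S.P S.T a ∧ a < S.lam.ord := by
  refine ⟨⟨h.coit.tr.mono (nT_le h a) p.le, h.coit.nor.mono p.le, fun j _ hj =>
    (p.lo j hj).2.trans_lt ((t_lt h n).trans (bb_Om h))⟩,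
    lt_of_le_of_lt (le_of_forall_lt fun i hi => ?_) ((t_lt h n).trans h.hx.sm)⟩
  have := CmpT.le_la h.coit.tr i (by rw [nT h, zero_add]; exact hi.trans_le p.le)
  rw [nT h, zero_add] at this
  exact (this.trans (p.lo i hi).1).trans_lt n.next.1

variable [TreeSt.{u}]

/-- The index used at a node is a point of disagreement. -/
theorem stop {T U : IT.{u}} {l m i j : Ordinal.{u}} (h : T.Coit l U m) (i1 : T.n ≤ i) (i2 : i < l)
    (j1 : U.n ≤ j) (j2 : j ≤ m) (e : T.E i (T.nu i) = U.E j (T.nu i))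
    (hm : j < m → T.nu i ≤ U.nu j) : False := by
  have s := h.tr.step i i1 i2
  obtain ⟨-, p, q, -⟩ := TreeSt.nu_agree h.tr h.nor i1 i2 le_rfl
  have e2 : T.E l (T.nu i) = U.E m (T.nu i) := h.agree _ (lt1 (le_min q (h.le i i1 i2)))
  have fin : U.E j (T.nu i) = U.E m (T.nu i) → False := fun e3 => by
    refine act_not_pas s.use.act fun x y c => p x y ?_
    rwa [e2, ← e3, ← e]
  rcases j2.eq_or_lt with rfl | j2
  · exact fin rfl
  · rcases (hm j2).eq_or_lt with e4 | e4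
    · exact h.ne i j i1 i2 j1 j2 e4 (e4 ▸ e)
    · exact fin ((TreeSt.nu_agree h.tr' h.nor' j1 j2 le_rfl).1 _ e4)

/-- The first indices lie above the agreement of the roots. -/
theorem first_ag {T U : IT.{u}} {l m : Ordinal.{u}} (h : T.Coit l U m) (nT : T.n = 0)
    (nU : U.n = 0) (ag : Agree (T.E 0) (U.E 0) (x + 1)) (hl : 0 < l) : x < T.nu 0 := by
  refine not_le.1 fun e => ?_
  by_cases hm : 0 < m → T.nu 0 ≤ U.nu 0
  · exact stop h nT.le hl nU.le zero_le (ag _ (lt1 e)) hm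
  · obtain ⟨h1, h2⟩ := Classical.not_imp.1 hm
    exact stop (CmpA.symm h) nU.le h1 nT.le zero_le
      (ag _ (lt1 ((not_le.1 h2).le.trans e))).symm fun _ => (not_le.1 h2).le

omit [TreeSt.{u}] in
theorem fix_le (h : S.Ok) (hg : ∀ x ≤ S.bb, S.pi x = x ∨ S.bb < S.pi x) (hx : x ≤ S.bb)
    (e : S.pi x = x) : ∀ y ≤ x, S.pi y = y := fun y hy =>
  (hg y (hy.trans hx)).resolve_right (not_lt.2 (((h.hx.mono.monotone hy).trans e.le).trans hx))

omit [TreeSt.{u}] in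
theorem ag_fix [AgreeSt.{u}] (h : S.Ok) (hx : x ≤ S.bb) (e : ∀ y ≤ x, S.pi y = y) :
    Agree S.Eb S.W (x + 1) :=
  AgreeSt.of_fix h.hx.pm.toPM0 h.env.good.pm.toPM0 h.hx.str.toWeak (s_le (lt1 hx))
    fun y hy => e y (le1 hy)

theorem first' [AgreeSt.{u}] (h : S.Ok) (hx : x ≤ S.bb) (e : ∀ y ≤ x, S.pi y = y) :
    (0 < S.l → x < S.T.nu 0) ∧ (0 < S.mu → x < S.U.nu 0) := by
  have ag : Agree (S.U.E 0) (S.T.E 0) (x + 1) := by rw [ET h, EU h]; exact ag_fix h hx e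
  exact ⟨first_ag h.coit (nT h) (nU h) (ag_symm ag),
    first_ag (CmpA.symm h.coit) (nU h) (nT h) ag⟩

theorem first [AgreeSt.{u}] (h : S.Ok) (hg : ∀ x ≤ S.bb, S.pi x = x ∨ S.bb < S.pi x)
    (hx : x ≤ S.bb) (e : S.pi x = x) :
    (0 < S.l → x < S.T.nu 0) ∧ (0 < S.mu → x < S.U.nu 0) := first' h hx (fix_le h hg hx e)

/-- Below the critical point the model at `m` is the weasel. -/
theorem pm_zero [AgreeSt.{u}] (h : S.Ok) (n : S.Nx m t) (e : ∀ y ≤ t, S.pi y = y)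
    (p : S.Pm m t a c) : a = 0 ∧ c = S.th := by
  have ht := t_lt h n
  obtain rfl : a = 0 := le_antisymm (not_lt.1 fun e1 =>
    absurd (p.lo 0 e1).2 (not_le.2 ((first' h ht.le e).1 (e1.trans_le p.le)))) zero_le
  have L := p.lvl
  rw [ET h, bT h] at L
  refine ⟨rfl, L.st_le.eq_or_lt.resolve_right fun e1 => ?_⟩
  have np := good_noProj (good h) ht.le (x := m) fun y y1 y2 =>
    n.next.2.2.2 y (le_self_add.trans y1) y2
  rw [e m n.next.1.le, e t le_rfl, pi_top h] at np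
  exact absurd (np _ (s_le (lt1 L.ta_le)) (s1lt e1)) (not_lt.2 (L.max e1))

theorem triv [AgreeSt.{u}] (h : S.Ok) (hg : ∀ x ≤ S.bb, S.pi x = x ∨ S.bb < S.pi x)
    (u : S.Unf m t E b) (e : S.pi t = t) : E = S.W ∧ b = S.th := by
  cases u with
  | good n p _ =>
    obtain ⟨rfl, rfl⟩ := pm_zero h n (fix_le h hg (t_lt h n).le e) p
    exact ⟨ET h, rfl⟩
  | bad n p A _ _ _ _ _ _ _ _ =>
    obtain ⟨rfl, rfl⟩ := pm_zero h n (fix_le h hg (t_lt h n).le e) p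
    rw [ET h] at A
    exact absurd h.env.good.pas (act_not_pas A)

variable [CmpSt.{u}] [BrSt.{u}] [KeySt.{u}] [KIISt.{u}] [KIterSt.{u}] [WinSt.{u}]

omit [TreeSt.{u}] [CmpSt.{u}] [BrSt.{u}] [KeySt.{u}] [KIterSt.{u}] [WinSt.{u}] in
theorem ii_hull (h : S.Ok) : S.P.II S.Eb S.bb :=
  KIISt.pre (g' := 0) (pi_top h ▸ h.env.good.ii) (good h) fun _ _ _ => zero_le

theorem low (h : S.Ok) : S.U.b S.mu ≤ S.T.b S.l ∧ S.U.ND 0 S.mu := by
  rcases Seg.outcome h.coit with ⟨h1, r, h2, h3⟩ | ⟨h1, r, h2, h3⟩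
  · obtain rfl := S5I.root_eq h.eqT h2
    have rU : Roots S.P S.U := by
      refine ⟨nU h ▸ S5I.om_pos S.P, fun i hi => ?_, fun i hi => ?_⟩
      · rw [nU h] at hi; exact absurd hi (not_lt.2 zero_le)
      · rw [nU h] at hi; rw [le_antisymm hi zero_le, bU h]; exact Or.inr (bb_Om h)
    obtain ⟨r', k1, -, k2, -⟩ := WinSt.win S.P h.coit (S5I.roots h.eqT h.env.good) rU
      (S5I.nii h.eqT h.env.good h.coit.tr)
      (fun j hj c hc _ => S5I.ii h.eqU h.hx.pm.toPM0 (ii_hull h) h.coit.tr' j hj c hc) h2 h3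
      (S5I.good0 h.eqT h.env.good) h1
    obtain rfl := S5I.root_eq h.eqU k1
    exact absurd (bU h ▸ k2.lt) (not_lt.2 (bb_Om h).le)
  · exact ⟨h1, S5I.root_eq h.eqU h2 ▸ h3⟩

/-- The last model of `T` agrees with the hull past `t`, and `t` is the successor of `m` up to
the height of the last model of `U`. -/
theorem last (h : S.Ok) (n : S.Nx m t) (hu : 0 < S.mu → t < S.U.nu 0) :
    t ≤ S.U.b S.mu ∧ Agree (S.T.E S.l) S.Eb (t + 1) ∧
      NoProj (S.T.E S.l) m t (S.U.b S.mu + 1) := by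
  have ag := Seg.ag_right h.coit (low h).1
  have ht := t_lt h n
  rcases (zero_le (a := S.mu)).eq_or_lt with e | e
  · rw [← e, EU h, bU h] at ag
    rw [← e, bU h]
    exact ⟨ht.le, ag_symm (ag_mono ag (s1lt ht).le), noProj_ag ag n.next.2.2.2⟩
  · obtain ⟨a1, -, a2, a3⟩ := TreeSt.nu_agree h.coit.tr' h.coit.nor' (nU_le h 0) e le_rfl
    have a4 := (h.coit.tr'.step 0 (nU_le h 0) e).use.le
    rw [EU h] at a1
    rw [bU h] at a4
    have h1 := hu e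
    refine ⟨h1.le.trans a2, ag_symm (ag_trans (ag_mono a1 (s_le h1))
      (ag_mono ag (s1lt (h1.trans_le a2)).le)), noProj_ag ag fun y y1 y2 => ?_⟩
    rcases lt_or_ge y (S.U.nu 0) with y3 | y3
    · exact rho_lt a1 y3 ▸ n.next.2.2.2 y y1 (lt1 (y3.le.trans a4))
    · exact (n.next.1.trans h1).trans_le (a3 y y3 y2)

theorem pm [ActSt.{u}] (h : S.Ok) (n : S.Nx m t) (hu : 0 < S.mu → t < S.U.nu 0) :
    ∃ a c, S.Pm m t a c := by
  obtain ⟨l1, l2, l3⟩ := last h n hu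
  have tr := h.coit.tr
  have tb : t ≤ S.T.b S.l := l1.trans (low h).1
  obtain ⟨a, ⟨a1, a2⟩, a3⟩ := wellFounded_lt.has_min
    {i | i ≤ S.l ∧ (i < S.l → m < S.T.la i)} ⟨S.l, le_rfl, fun e => absurd e (lt_irrefl _)⟩
  have hi : a < S.l → t ≤ S.T.la a := fun e => not_lt.1 fun e1 => by
    obtain ⟨y, y1, y2, y3⟩ := n.next.2.2.1 _ e1
    rw [← rho_lt l2 (lt1 y2.le)] at y3
    exact absurd ((TreeSt.card tr e le_rfl y y1 (lt1 (y2.le.trans tb))).trans y3)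
      (not_le.2 (a2 e))
  have key : t ≤ S.T.b a ∧ Agree (S.T.E a) S.Eb (t + 1) := by
    rcases a1.eq_or_lt with rfl | e
    · exact ⟨tb, l2⟩
    · exact ⟨(hi e).trans (TreeSt.la_le tr e le_rfl a1), ag_trans (ag_mono
        (TreeSt.nu_agree tr h.coit.nor (nT_le h a) e le_rfl).1
        (s_le ((hi e).trans_lt (CmpT.la_lt_nu tr (nT_le h a) e)))) l2⟩
  obtain ⟨c, hc⟩ := lvl_ex (TreeSt.pm tr a1).ls n.next.1 key.1
    (rho_lt key.2 (lt_add_one t) ▸ n.next.2.2.2 t le_rfl (lt1 (t_lt h n).le))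
  refine ⟨a, c, a1, fun i hi => ?_, hi, key.2, hc⟩
  have il := hi.trans_le a1
  have h1 : S.T.la i ≤ m := not_lt.1 fun e => a3 i ⟨il.le, fun _ => e⟩ hi
  refine ⟨h1, not_lt.1 fun e => ?_⟩
  have s := tr.step i (nT_le h i) il
  obtain ⟨y, y1, y2, y3⟩ := ActSt.top (fun z hz => (TreeSt.pm tr il.le).ls z
    (hz.trans (lt1 s.use.le))) s.use.act t e
  rw [← s.la, rho_lt (TreeSt.nu_agree tr h.coit.nor (nT_le h i) il le_rfl).1 y2] at y3
  exact absurd (l3 y y1 (lt1 (y2.le.trans (h.coit.le i (nT_le h i) il)))) (not_lt.2 (y3.trans h1))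

end Pool.Agent.KM.CovT
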