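import Pool.Agent.Lib.MP_5c0be7_lc.T.St
import Pool.Agent.Lib.MP_5c0be7_lc.C.Br
import Pool.Agent.Lib.MP_5c0be7_lc.K.Loc
import Pool.Agent.Lib.MP_5c0be7_lc.K.GoodI
import Pool.Agent.Lib.MP_5c0be7_lc.K.TreeI
import Pool.Agent.Lib.MP_5c0be7_lc.L.UltAct
import Pool.Agent.Lib.MP_5c0be7_lc.L.UltFact
import Pool.Agent.Lib.MP_5c0be7_lc.L.LosPm
import Pool.Agent.Lib.MP_5c0be7_lc.F.CutI
import Pool.Agent.Lib.MP_5c0be7_lc.O.F3c

/-!
Project KM, block T1: continuity and sizes of ultrapower maps and branch maps.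
-/

namespace Pool.Agent.KM

open Ordinal Cardinal Tr IT Set
open scoped Classical

universe u

namespace CtsI

variable {T : IT.{u}} {E E' : Seq.{u}} {l i j a b b' v k t : Ordinal.{u}}
  {e s : Ordinal.{u} → Ordinal.{u}}

/-- Successor cardinals go up along strong maps that are continuous at them. -/
theorem next_up (p : PM0 E (b + 1)) (p' : PM0 E' (b' + 1)) (h : Strong E (b + 1) E' (b' + 1) s)
    (hn : IsNext E (b + 1) k t) (ht : t ≤ b) (hc : ContAt s t) :
    IsNext E' (b' + 1) (s k) (s t) := by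
  obtain rfl := KE.s1inj (h.top _ rfl)
  have kb := hn.1.le.trans ht
  refine ⟨h.mono (lt_s kb) (lt_s ht) hn.1, (h.maps t (lt_s ht)).le, fun y hy => ?_,
    fun x x1 x2 => ?_⟩
  · obtain ⟨x, h1, h2⟩ := hc y hy
    obtain ⟨c, h3, h4, h5⟩ := hn.2.2.1 x h1
    have cb := h4.le.trans ht
    exact ⟨s c, h2.le.trans ((KE.w_le h.toWeak (lt_s (h3.trans cb)) (lt_s cb)).2 h3),
      h.mono (lt_s cb) (lt_s ht) h4, not_lt.1 fun h6 => h5.not_gt ((KE.strong_rho h cb kb).1 h6)⟩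
  · rcases x1.eq_or_lt with rfl | x1
    · exact (KE.strong_rho h ht kb).2 (hn.2.2.2 t le_rfl (lt_s ht))
    · exact KE.good_noProj (KGoodSt.strong_good p p' h) ht
        (fun y y1 => hn.2.2.2 y ((lt_add_one t).le.trans y1)) x (s_le x1) x2

/-- Functions with the same small values have images with the same small values. -/
theorem val_up (p : LS E (b + 1)) (p' : LS E' (b' + 1)) (h : Strong E (b + 1) E' (b' + 1) s)
    (ha : a ≤ b) {f g : Tr.{u}} (hf : In (b + 1) f) (hg : In (b + 1) g)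
    (H : ∀ w, In a w → fv E f w.fst = some w.snd → fv E g w.fst = some w.snd) {w : Tr.{u}}
    (hw : In (s a) w) (h1 : fv E' (f.map s) w.fst = some w.snd) :
    fv E' (g.map s) w.fst = some w.snd := by
  by_contra h2
  have I := IsOp.id.{u}
  have hv : ∀ {o : Tr.{u} → Tr.{u}}, IsOp o → CF fun E b z => tv (call (ev E) b
      (node (o z).fst (node (o z).snd.fst (node z.fst.fst (o z).snd.snd))) =
        node .nil z.fst.snd) := fun ho =>
    (CF.op (ho.fst.pair (ho.snd.fst.pair (I.fst.fst.pair ho.snd.snd)))).call.eq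
      (CF.op (IsOp.nil.pair I.fst.snd))
  have hA := (CF.op (I.snd.fst.bd I.fst)).and ((hv I.snd.snd.fst).and (hv I.snd.snd.snd).not)
  have hx : In (b + 1) (node (leaf a) (node f g)) := by simp [hf, hg, lt_s ha]
  obtain ⟨w, -, g1, g2, g3⟩ := hA.down h.commTop (p b (lt_add_one b)).1 (p' _ (lt_add_one _)).1
    hx (KE.w_in h.toWeak hx) (t' := w) (hw.mono (h.maps a (lt_s ha)).le) (by
      simp only [map_node, map_leaf, fst_node, snd_node]
      rw [LosPm.call_fv (KE.w_in h.toWeak hf), LosPm.call_fv (KE.w_in h.toWeak hg), opt_eq_node,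
        opt_eq_node]
      exact ⟨⟨_, rfl, hw⟩, h1, h2⟩)
  simp only [fst_node, snd_node] at g1 g2 g3
  rw [LosPm.call_fv hf, opt_eq_node] at g2
  rw [LosPm.call_fv hg, opt_eq_node] at g3
  exact g3 (H w (by simpa using g1) g2)

theorem size {O : Cardinal.{u}} (hO : O.IsInaccessible) (h : IsUlt E b k E' s) (hk : s k < O.ord)
    (ha : a ≤ b) (ha' : a < O.ord) : s a < O.ord := by
  have kb : k ≤ b := h.lt.le.trans KE.rho_le
  have hm : max k a < O.ord := max_lt ((KE.w_self h.toWeak (lt_s kb)).trans_lt hk) ha'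
  have mb := max_le kb ha
  have mo : ∀ x ≤ max k a, s x ≤ s (max k a) := fun x hx =>
    (KE.w_le h.toWeak (lt_s (hx.trans mb)) (lt_s mb)).2 hx
  have : ∀ y : Iio (s a), ∃ f w, In (b + 1) f ∧ In (s k) w ∧
      fv E' (f.map s) w = some (leaf y.1) := fun y =>
    h.gen y.1 (lt_of_lt_of_le y.2 ((KE.w_le h.toWeak (lt_s ha) (lt_add_one b)).2 ha))
  choose f w h1 h2 h3 using this
  have hi : Function.Injective fun y : Iio (s a) => ((⟨w y, h2 y⟩ : {t : Tr.{u} | In (s k) t}),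
      {q : {t : Tr.{u} | In (max k a) t} | fv E (f y) q.1.fst = some q.1.snd}) := fun y z H => by
    obtain ⟨H1, H2⟩ := Prod.mk.inj H
    have H3 : w y = w z := congrArg Subtype.val H1
    have := val_up h.pm.ls h.pm'.ls h.toStrong mb (h1 y) (h1 z)
      (fun q hq => (Set.ext_iff.1 H2 ⟨q, hq⟩).1) (w := node (w y) (leaf y.1))
      (by simp [(h2 y).mono (mo k (le_max_left _ _)),
        lt_of_lt_of_le y.2 (mo a (le_max_right _ _))]) (h3 y)
    simp only [fst_node, snd_node] at this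
    rw [H3, h3 z] at this
    exact Subtype.ext (by simpa using this.symm)
  have h4 := mk_le_of_injective hi
  rw [Cardinal.mk_Iio_ordinal, mk_prod, Cardinal.lift_id, Cardinal.lift_id, mk_set] at h4
  have h0 : ℵ₀ < Cardinal.lift.{u + 1} O := by simpa using hO.aleph0_lt
  rw [lt_ord, ← Cardinal.lift_lt.{u, u + 1}]
  refine h4.trans_lt (mul_lt_of_lt h0.le (KL.mk_in_lt hO.aleph0_lt hk) ?_)
  obtain ⟨c, hc, h5⟩ := Cardinal.lt_lift_iff.1 (KL.mk_in_lt hO.aleph0_lt hm)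
  rw [← h5]
  simpa using Cardinal.lift_lt.{u, u + 1}.2 (hO.isStrongLimit.isStrongPrelimit hc)

/-- An extender with a small critical point comes down along a strong map. -/
theorem act_down (p : PM0 E (b + 1)) (p' : LS E' (b' + 1)) (h : Strong E (b + 1) E' (b' + 1) s)
    (ht : t ≤ b) (hs : ∀ x ≤ t, s x = x) (hn : IsNext E' (b' + 1) k t)
    (hc : IsCard E' (b' + 1) k) (hv : v ≤ b') (A : Act E' v k t e) :
    ∃ v ≤ b, ∃ e, Act E v k t e := by
  obtain rfl := KE.s1inj (h.top _ rfl)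
  have I := IsOp.id.{u}
  have kt := A.lt
  have hA := (CF.op (I.snd.snd.bd I.fst.fst)).not.and
    ((CF.op (I.fst.snd.eq I.snd.fst)).not.and ((CF.op (I.fst.fst.pair
      ((IsOp.const (c := extc) rfl).pair (I.snd.fst.pair I.fst.snd)))).call.eq
        (CF.op (IsOp.nil.pair IsOp.nil))))
  have hx : In (b + 1) (node (leaf k) (leaf t)) := by simp [lt_s ht, lt_s (kt.le.trans ht)]
  have m := A.weak.maps k kt
  obtain ⟨w, -, g1, g2, g3⟩ := hA.down h.commTop (p.ls b (lt_add_one b)).1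
    (p' _ (lt_add_one _)).1 hx (KE.w_in h.toWeak hx) (t' := node (leaf v) (leaf (e k)))
    (by simp [lt_s hv, lt_s (m.le.trans hv)]) (by
      simp only [map_node, map_leaf, fst_node, snd_node, hs k kt.le, hs t le_rfl]
      rw [call_leaf (lt_s hv), opt_eq_node]
      simp only [fst_node, snd_node]
      rw [ev_extc (by simp [m, kt.trans A.dom]),
        tv_pos (p := ora E' v (node (leaf k) (leaf (e k))))
          ((ActF.ora_iff A).2 ⟨by simpa using kt, rfl⟩)]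
      simp [A.dom.le, A.move.ne'])
  simp only [fst_node, snd_node] at g1 g2 g3
  have h7 : w.fst = leaf w.fst.lab ∧ w.fst.lab < b + 1 := by
    by_contra h7
    rw [call, if_neg (by exact h7)] at g3
    cases g3
  rw [call, if_pos (by exact h7), opt_eq_node] at g3
  simp only [fst_node, snd_node] at g3
  rw [ev_extc (in_of_ev_eq g3), Option.some_inj, tv_eq_nil] at g3
  rw [h7.1] at g1
  have h8 : t ≤ w.fst.lab := by simpa using g1
  obtain ⟨k0, t0, e0, B, h9⟩ := CutI.crit p h7.2 g3 g2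
  have h10 : k < t0 := by simpa using ((ActF.ora_iff B).1 g3).1
  have low : ∀ x ≤ b, ∀ y < t, s y < rho E' (s x) → y < rho E x := fun x hx y hy =>
    (KE.strong_rho h hx (hy.le.trans ht)).1
  have sb : ∀ x ≤ b, x ≤ s x ∧ s x < s b + 1 := fun x hx =>
    ⟨KE.w_self h.toWeak (lt_s hx), h.maps x (lt_s hx)⟩
  have tb : ∀ x < t0, x ≤ b := fun x hx => (hx.trans B.dom).le.trans (le_s h7.2)
  obtain rfl : k0 = k := h9.antisymm (not_lt.1 fun h11 => by
    obtain ⟨x, x1, x2, x3⟩ := B.top k h10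
    refine x3.not_gt (low x (tb x x2) k0 (h11.trans kt) ?_)
    rw [hs k0 (h11.trans kt).le]
    exact h11.trans_le (hc _ (x1.trans (sb x (tb x x2)).1) (sb x (tb x x2)).2))
  obtain rfl : t0 = t := le_antisymm (not_lt.1 fun h11 => by
      obtain ⟨x, x1, x2, x3⟩ := B.top t h11
      refine x3.not_gt (low x (tb x x2) k0 kt ?_)
      rw [hs k0 kt.le]
      exact hn.2.2.2 _ (x1.trans (sb x (tb x x2)).1) (sb x (tb x x2)).2)
    (not_lt.1 fun h11 => by
      obtain ⟨x, x1, x2, x3⟩ := hn.2.2.1 t0 h11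
      refine x3.not_gt ?_
      have := (KE.strong_rho h (x2.le.trans ht) (kt.le.trans ht)).2 (B.next x x1 (x2.trans_le h8))
      rwa [hs k0 kt.le, hs x x2.le] at this)
  exact ⟨_, le_s h7.2, e0, B⟩

variable [TreeSt.{u}]

theorem step_ls (hT : T.IsTr l) (hn : T.n ≤ j) (hj : j < l) : LS (T.E j) (T.nu j) :=
  (KE.pm_mono (TreeSt.pm hT hj.le) (lt_s (hT.step j hn hj).use.le).le).ls

theorem step_cts (hT : T.IsTr l) (hn : T.n ≤ j) (hj : j < l)
    (h : IsNext (T.E (T.pr j)) (T.st j + 1) k t) (ht : t ≤ T.st j) : ContAt (T.im j) t := by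
  have s := hT.step j hn hj
  have hJ := hT.mono hn hj.le
  rcases le_or_gt (T.ka j) k with h1 | h1
  · refine UltFactSt.cts s.ult ht fun f hf => ?_
    obtain ⟨x, h2, h3⟩ := RegSt.reg _ _ _ _ f s.ult.pm.ls h (lt_s ht) hf
    exact ⟨x, h2, fun w y hw h4 h5 => by simpa using h3 w _ (hw.mono h1) h4 (by simpa using h5)⟩
  have h2 : t ≤ T.ka j := not_lt.1 fun h2 => by
    obtain ⟨x, x1, x2, x3⟩ := h.2.2.1 _ h2
    rcases lt_or_ge x (T.ta j) with h3 | h3
    · exact absurd (((TreeSt.pred_ext hJ s.use s.pred).card x x1 h3).trans x3) h1.not_ge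
    · exact absurd ((s.pred.noproj x h3 (lt_s (x2.le.trans ht))).trans_le x3) h1.not_gt
  have h3 : t < T.ka j := lt_of_le_of_ne h2 fun e => UltAct.not_top (step_ls hT hn hj) s.use.act h1
    (KL.topC_ag (KL.ag_mono (TreeSt.pred_agree hJ s.use s.pred).1 s.use.act.lt.le) (e ▸ h.2.2.1))
  intro y hy
  rw [CU.im_fix s t h3] at hy
  have h4 := (AccSt.next_lim _ _ _ _ s.ult.pm.ls h (lt_s ht)).add_one_lt hy
  exact ⟨y + 1, h4, by rw [CU.im_fix s _ (h4.trans h3)]; exact lt_add_one y⟩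

theorem next (hT : T.IsTr l) (hj : j ≤ l) (h : T.ND i j) (hn : IsNext (T.E i) (T.b i + 1) k t)
    (ht : t ≤ T.b i) : ContAt (T.mp i j) t ∧
      IsNext (T.E j) (T.b j + 1) (T.mp i j k) (T.mp i j t) := by
  have il := h.le.trans hj
  have p := (TreeSt.pm hT il).toPM0
  have up : ∀ m ≤ l, T.ND i m → ContAt (T.mp i m) t →
      IsNext (T.E m) (T.b m + 1) (T.mp i m k) (T.mp i m t) := fun m h1 h2 =>
    next_up p (TreeSt.pm hT h1).toPM0 (TreeSt.strong hT h1 h2) hn ht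
  suffices H : ContAt (T.mp i j) t from ⟨H, up j hj h H⟩
  refine TreeSt.ind (fun j => ContAt (T.mp i j) t) hT (fun y hy => ?_)
    (fun d k1 k2 k3 k4 k5 k6 ih y hy => ?_) (fun c c1 c2 c3 c4 c5 ih y hy => ?_) j hj h
  · rw [CU.mp_id hT il t ht] at hy
    have h4 := (AccSt.next_lim _ _ _ _ p.ls hn (lt_s ht)).add_one_lt hy
    exact ⟨y + 1, h4, by rw [CU.mp_id hT il _ (h4.le.trans ht)]; exact lt_add_one y⟩
  · have s := hT.step d k1 k2
    have h0 := s.pred.le.trans k2.le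
    have h1 := up _ h0 k5 ih
    have h2 := TreeSt.strong hT h0 k5
    rw [← CU.st_eq s k6] at h1 h2
    rw [s.mp i k3 k4 t ht] at hy
    obtain ⟨x, x1, x2⟩ := step_cts hT k1 k2 h1 (le_s (h2.maps t (lt_s ht))) y hy
    obtain ⟨z, z1, z2⟩ := ih x x1
    have z3 := h2.maps z (lt_s (z1.le.trans ht))
    refine ⟨z, z1, ?_⟩
    rw [s.mp i k3 k4 z (z1.le.trans ht)]
    exact x2.trans (s.ult.mono (z2.trans z3) z3 z2)
  · have hL := hT.lim c c2 c3 c1
    obtain ⟨m, m1, m2, m3, w, m4, m5⟩ := CU.lim_tree hT c3 hL c4 c5 (x := leaf y)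
      (by simpa using hy.trans ((hL.strong c4 c5).maps t (lt_s ht)))
    obtain ⟨x, rfl, rfl⟩ := map_eq_leaf.1 m5
    have h1 : x < T.b m + 1 := by simpa using m4
    have h2 := (hL.strong m1 m3).toWeak
    have h3 := TreeSt.strong hT (m1.le.trans c3) (c5.cut m2 m3.1)
    rw [← hL.comm m2 m1 c5 m3 t ht, KE.w_lt h2 h1 (h3.maps t (lt_s ht))] at hy
    obtain ⟨z, z1, z2⟩ := ih m m1 m2 m3 x hy
    refine ⟨z, z1, ?_⟩
    rw [← hL.comm m2 m1 c5 m3 z (z1.le.trans ht)]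
    exact (KE.w_lt h2 h1 (h3.maps z (lt_s (z1.le.trans ht)))).2 z2

theorem on (hT : T.IsTr l) (hn : T.n ≤ j) (hj : j < l) (hp : T.n ≤ T.pr j) :
    ∃ v ≤ T.b (T.pr j), ∃ e, Act (T.E (T.pr j)) v (T.ka j) (T.ta j) e := by
  have s := hT.step j hn hj
  have hJ := hT.mono hn hj.le
  have hle := TreeSt.pred_le hJ s.use s.pred
  suffices H : ∀ m, T.pr j ≤ m → T.Le m j →
      (∃ v ≤ T.b m, ∃ e, Act (T.E m) v (T.ka j) (T.ta j) e) →
      ∃ v ≤ T.b (T.pr j), ∃ e, Act (T.E (T.pr j)) v (T.ka j) (T.ta j) e from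
    H j hle.1 Le.refl ⟨_, s.use.le, _, s.use.act⟩
  intro m
  induction m using WellFoundedLT.induction with
  | ind m ih =>
  rintro m1 m2 ⟨v, v1, e, A⟩
  rcases m1.eq_or_lt with rfl | m1
  · exact ⟨v, v1, e, A⟩
  obtain ⟨g1, g2, g3, g4, -⟩ := KTreeSt.mc hJ s.use s.pred m1 m2
  have p := (TreeSt.pm hJ m2.1).ls
  by_cases h1 : Suc m
  · obtain ⟨d, rfl⟩ := h1
    have d1 : T.pr j ≤ d := le_s m1
    have d2 : d < j := s_lt m2.1
    have d3 := hp.trans d1
    have s' := hJ.step d d3 d2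
    have d7 := TreeSt.pred_le (hJ.mono d3 d2.le) s'.use s'.pred
    obtain ⟨d5, d6⟩ := TreeSt.pred_ka hJ s.use s.pred d3 d1 d2
    have d8 : T.ta j < T.ka d := lt_of_le_of_ne d6 fun e =>
      UltAct.not_top (step_ls hJ d3 d2) s'.use.act d5 (KL.topC_ag
        (KL.ag_mono s'.agree (s'.use.act.lt.trans s'.use.act.dom).le) (e ▸ g1.2.2.1))
    obtain ⟨v0, h2, h3⟩ := act_down s'.ult.pm p (CU.step_strong s')
      (d8.le.trans (s'.use.act.lt.le.trans s'.pred.ta_le))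
      (fun x hx => CU.im_fix s' x (hx.trans_lt d8)) g1 g2 v1 A
    exact ih _ (lt_s d7.1) (hle.2 d d1 d2 d3) ((pr_le_succ d3 d7).trans m2)
      ⟨v0, h2.trans s'.pred.st_le, h3⟩
  · have c1 := limit_of_not_suc h1 (zero_le.trans_lt m1).ne'
    have c2 := hp.trans_lt m1
    obtain ⟨m0, a1, a2⟩ := (hJ.lim m c2 m2.1 c1).ex
    obtain ⟨m3, a3, a4, a5⟩ := TreeSt.cof c2 c1
      (fun j j1 j2 => hJ.mono j2 (j1.le.trans m2.1)) _ (max_lt (c1.add_one_lt m1) a1)
    have a6 := a2.tail ((le_max_right _ _).trans a3.le) a5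
    have a7 := (le_max_left _ _).trans_lt a3
    have a8 := a7.trans (a4.trans_le m2.1)
    have s' := hJ.step _ (hp.trans (lt_add_one _).le) a8
    have a9 : T.ta j < T.la (T.pr j + 1) :=
      g4.trans_lt (s'.la ▸ s'.use.inc' _ (lt_add_one _) hp)
    exact ih m3 a4 ((lt_add_one _).le.trans a7.le) (a5.trans m2)
      (act_down (TreeSt.pm hJ (a4.le.trans m2.1)).toPM0 p (TreeSt.strong hJ m2.1 a6)
        (a9.le.trans (TreeSt.la_le hJ a8 a7.le (a4.le.trans m2.1)))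
        (fun x hx => TreeSt.fix hJ m2.1 a6 a7 x (hx.trans_lt a9)) g1 g2 v1 A)

end CtsI

instance [TreeSt.{u}] : CtsSt.{u} :=
  ⟨CtsI.next, fun h1 h2 h3 h4 h5 _ => CtsI.size h1 h2 h3 h4 h5, CtsI.on⟩

end Pool.Agent.KM
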