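import Pool.Agent.Lib.MP_5c0be7_lc.T.Use1
import Pool.Agent.Lib.MP_5c0be7_lc.T.S5
import Pool.Agent.Lib.MP_5c0be7_lc.F.Cmp
import Pool.Agent.Lib.MP_5c0be7_lc.C.Br
import Pool.Agent.Lib.MP_5c0be7_lc.C.KeyK

/-!
Project KM, block T: comparison of a phalanx with a normal tree on a rigid good weasel.
-/

namespace Pool.Agent.KM

open Ordinal Cardinal Tr

universe u

/-- The phalanx `F` is compared with the tree `T` on `W` from the node `a` on. -/
structure DecIn (P : Pa.{u}) (W : Seq.{u}) (th : Ordinal.{u}) (T : IT.{u}) (a : Ordinal.{u})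
    (F : IT.{u}) (h : Ordinal.{u}) : Prop where
  good : GoodW P W th
  rig : ∀ E' th' i j, Tame P W th E' th' i → Tame P W th E' th' j → ∀ x < P.t.ord, i x = j x
  eT : (IT.one W th).EqLt T 1
  tr : T.IsTr a
  nor : T.Normal a
  phal : F.Phal
  pii : PII P.C 0 F
  n : F.n < P.Om
  la : ∀ i < F.n, F.la i ≤ P.t.ord ∧ F.la i < h
  sm : F.b F.n < P.Om
  rt : ∀ i < F.n, (F.E i = W ∧ F.b i = th) ∨ (F.b i < P.Om ∧ ∃ m,
    UseP T a m (F.la i) (F.E i) (F.b i) ∧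
      ∀ k, ω < k → k < m → IsCard (F.E i) (F.la i) k → ∃ i' < i, k < F.la i')
  ag : Agree (T.E a) (F.E F.n) h
  nu : ∀ i < a, T.nu i < h ∧ T.nu i ≤ F.b F.n

/-- The last model of the phalanx side is above the last root, without drop, and is an initial
segment of the last model of the other side. -/
structure DecOut (T : IT.{u}) (a : Ordinal.{u}) (F : IT.{u}) (h : Ordinal.{u}) (R : IT.{u})
    (l : Ordinal.{u}) (V : IT.{u}) (r : Ordinal.{u}) : Prop where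
  eR : T.EqLt R (a + 1)
  le : a ≤ l
  eV : F.EqLt V (F.n + 1)
  co : R.Coit l V r
  nd : V.ND F.n r
  b : V.b r ≤ R.b l
  nuR : ∀ j, a ≤ j → j < l → h ≤ R.nu j
  nuV : ∀ j, F.n ≤ j → j < r → h ≤ V.nu j
  dr : V.b r = R.b l → R.Dr l

namespace Dec

variable {P : Pa.{u}} {W : Seq.{u}} {a h i j l m r th z : Ordinal.{u}} {T F R V : IT.{u}}

variable [TreeSt.{u}] [CmpSt.{u}]

/-- The two branch maps of a comparison differ below the first domain. -/
theorem noeq (co : R.Coit l V r) (d : R.ND 0 l) (d' : V.ND i r) (hi : i < V.n)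
    (hb : R.b l = V.b r) (hl : V.la i ≤ R.b 0) (e : ∀ x < V.la i, R.mp 0 l x = V.mp i r x) :
    False := by
  have ir := hi.trans_le co.tr'.le
  obtain ⟨j, j1, j2, j3, j4, j5, j6⟩ := Seg.first co.tr' d' ir
  have S := co.tr'.step j j1 j2
  have ij : V.pr j < j := j3 ▸ hi.trans_le j1
  have t1 : V.ta j ≤ V.la i :=
    j3 ▸ (TreeSt.pred_agree (co.tr'.mono j1 j2.le) S.use S.pred).2.2 ij
  have t2 : V.la i ≤ V.b i := co.tr'.phal.le i hi
  have k1 := (Seg.ka_lt_ta S).trans_le t1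
  have mv := Seg.sg_move co.tr' j1 j2 j5
  have l0 : 0 < l := pos_iff_ne_zero.2 fun e0 => by
    rw [← j6 _ (k1.le.trans t2), ← e _ k1] at mv
    subst e0
    rw [Seg.mp_id co.tr le_rfl (k1.le.trans hl)] at mv
    exact lt_irrefl _ mv
  obtain ⟨k, i1, i2, i3, i4, i5, i6⟩ := Seg.first co.tr d l0
  have e' : ∀ x < V.la i, Seg.sg R k l x = Seg.sg V j r x := fun x hx => by
    rw [← i6 x (hx.le.trans hl), e x hx, j6 x (hx.le.trans t2)]
  have hk : R.ka k = V.ka j := by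
    rcases lt_trichotomy (R.ka k) (V.ka j) with h1 | h1 | h1
    · have := Seg.sg_move co.tr i1 i2 i5
      rw [e' _ (h1.trans k1), Seg.sg_fix co.tr' j1 j2 j5 h1] at this
      exact absurd this (lt_irrefl _)
    · exact h1
    · rw [← e' _ k1, Seg.sg_fix co.tr i1 i2 i5 h1] at mv
      exact absurd mv (lt_irrefl _)
  have ht := CmpSt.ta_eq co i1 i2 j1 j2 hk
  refine CmpSt.nobranch co i1 i2 j1 j2 i5 j5 hk fun X y hX _ _ => ?_
  have e1 : X.map (Seg.sg R k l) = X.map (Seg.sg V j r) :=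
    map_congr fun x hx => e' x ((hX x hx).trans_le (ht ▸ t1))
  have h2 : In (R.b l + 1) (X.map (Seg.sg R k l)) := KE.w_in (Seg.sg_strong co.tr i1 i2 i5).toWeak
    (hX.mono ((Seg.ta_le_st (co.tr.step k i1 i2)).trans le_self_add))
  show Nm (R.E l) (X.map (Seg.sg R k l)) y ↔ Nm (V.E r) (X.map (Seg.sg V j r)) y
  rw [← e1]
  exact KN.anm (Seg.ag_left co hb.le) h2

omit [CmpSt.{u}] in
/-- The critical point of an extender applied to a root. -/
theorem crit (tr : V.IsTr r) (hn : V.n ≤ j) (hj : j < r) (hi : V.pr j < j)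
    (top : TopC (V.E (V.pr j)) m (V.la (V.pr j)))
    (H : ∀ k, ω < k → k < m → IsCard (V.E (V.pr j)) (V.la (V.pr j)) k →
      ∃ i' < V.pr j, k < V.la i') : V.ka j = m := by
  have S := tr.step j hn hj
  have A := S.use.act
  have c : IsCard (V.E (V.pr j)) (V.la (V.pr j)) (V.ka j) :=
    KL.card_ag (KL.ag_symm (TreeSt.agree tr hi hj.le)) fun x h1 h2 =>
      (lt_or_ge x (V.ta j)).elim (A.card x h1) fun h3 => (A.next x h3
        (h2.trans_le ((TreeSt.la_mono tr hi.le hj).trans (Seg.la_lt_nu S).le))).le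
  rcases lt_trichotomy (V.ka j) m with h1 | h1 | h1
  · obtain ⟨i', h2, h3⟩ := H _ A.big h1 c
    exact absurd (S.pred.min i' h2) (not_le.2 h3)
  · exact h1
  · exact absurd (KL.top_le top (KL.card_noProj c h1)) (not_le.2 (S.pred.lt hi))

/-- A branch map does not factor through an extender of the other side. -/
theorem nofac {t : Ordinal.{u}} (co : R.Coit l V r) (hn : V.n ≤ j) (hj : j < r)
    (d : V.ND (j + 1) r) (hb : V.b r = R.b l)
    (H : R.Fac l (V.ka j) t (R.E l) (R.b l + 1) (Seg.sg V j r)) : False := by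
  obtain ⟨k, k1, k2, k3, k4, s, s1, s2, s3⟩ := H
  have S := co.tr'.step j hn hj
  have ht := CmpSt.ta_eq co k1 k2 hn hj k3
  refine CmpSt.nocomp co k1 k2 hn hj k3 fun X y hX hy hy' => ?_
  rw [Use.nm_fac (co.tr.step k k1 k2) s1 s2 (k4 ▸ s3) hX hy,
    Use.nm_fac (k := Seg.sg V j r) S (Use.w_nu S (TreeSt.strong co.tr' le_rfl d).toWeak)
      (TreeSt.fix co.tr' le_rfl d (lt_add_one j)) (fun x hx => by rw [← S.ext x hx]; rfl)
      (ht ▸ hX) hy']
  exact (KN.anm (Seg.ag_right co hb.le) (KE.w_in (Seg.sg_strong co.tr' hn hj d).toWeak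
    ((ht ▸ hX).mono ((Seg.ta_le_st S).trans le_self_add)))).symm

variable [BrSt.{u}] [KeySt.{u}] [KIISt.{u}] [KIterSt.{u}] [WinSt.{u}] [CutSt.{u}] [CompatSt.{u}]
  [SizeSt.{u}]

/-- The outcome of the comparison. -/
theorem dec (H : DecIn P W th T a F h) : ∃ R l V r, DecOut T a F h R l V r := by
  have g := H.good
  have nT := S5I.n_eq H.eT
  obtain ⟨R, l, V, r, eR, al, eV, co, -, -, u1, u2⟩ := Cmp.ext (g := 0) (g' := 0) (h := h)
    (KIterSt.iter (Phx.phal_one g.pm) (KIISt.one g.pm.toPM0 g.ii)) (KIterSt.iter H.phal H.pii)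
    (by simpa using H.eT) H.tr H.nor IT.above_zero H.ag (fun i _ hi => H.nu i hi)
    (fun i hi => absurd hi (by simp)) (fun i hi => (H.la i hi).2) zero_le zero_le
    (fun _ _ _ _ _ _ _ _ _ => zero_le) (fun _ _ _ _ _ _ _ _ _ => zero_le)
  have eW : (IT.one W th).EqLt R 1 := H.eT.trans (eR.mono (by simp))
  have nV := eV.n
  have vE : ∀ i ≤ V.n, V.E i = F.E i := fun i hi => eV.E (KE.lt1 (nV ▸ hi))
  have vb : ∀ i ≤ V.n, V.b i = F.b i := fun i hi => eV.b (KE.lt1 (nV ▸ hi))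
  have vl : ∀ i < V.n, V.la i = F.la i := fun i hi => eV.la (KE.s1lt (nV ▸ hi))
  have rt : ∀ i ≤ V.n, (i < V.n ∧ V.E i = W ∧ V.b i = th) ∨ V.b i < P.Om := fun i hi => by
    rw [vE i hi, vb i hi]
    rcases hi.eq_or_lt with rfl | h1
    · exact Or.inr (nV ▸ H.sm)
    · exact (H.rt i (nV ▸ h1)).imp (fun h2 => ⟨h1, h2⟩) (·.1)
  have rR := S5I.roots eW g
  have rV : Roots P V := ⟨nV ▸ H.n, fun i hi => vl i hi ▸ (H.la i (nV ▸ hi)).1, fun i hi =>
    (rt i hi).imp_left fun h1 => by rw [h1.2.1, h1.2.2]; exact g⟩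
  have iR := S5I.nii eW g co.tr
  have iV : NII P V r := fun j hj c hc _ => KIISt.level (TreeSt.pm co.tr' hj).toPM0
    (KIterSt.ii (IterI.pii_congr H.pii eV) co.tr' IT.above_zero hj) hc zero_le
  have nd0 : R.ND 0 l → ¬ R.b l ≤ V.b r := fun d hb => by
    obtain ⟨i, i1, i2, i3, i4, -, i5, i6⟩ := WinSt.win P co rR rV iR iV (d.root zero_le) d
      (S5I.good0 eW g) hb
    obtain ⟨h1, h2, h3⟩ := (rt i i1.1).resolve_right (not_lt.2 i3.lt.le)
    rw [S5I.E_eq eW, S5I.b_eq eW] at i5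
    rw [h2, h3] at i6
    exact noeq co d i2 h1 i4 (by rw [S5I.b_eq eW, ← h3]; exact co.tr'.phal.le i h1)
      fun x hx => H.rig _ _ _ _ i5 i6 x (hx.trans_le (rV.la i h1))
  have dr : V.b r = R.b l → R.Dr l := fun hb => (TreeSt.last co.tr le_rfl).resolve_left
    fun ⟨i, i1, i2⟩ => nd0 (S5I.root_eq eW i1 ▸ i2) hb.ge
  obtain ⟨hb, i, i1, i2⟩ := (Seg.outcome co).resolve_left fun ⟨hb, i, i1, i2⟩ =>
    nd0 (S5I.root_eq eW i1 ▸ i2) hb
  refine ⟨R, l, V, r, eR, al, eV, co, ?_, hb, u1, fun j hj => u2 j (nV ▸ hj), dr⟩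
  rcases i1.1.eq_or_lt with rfl | hi
  · exact nV ▸ i2
  exfalso
  rcases H.rt i (nV ▸ hi) with ⟨h1, h2⟩ | ⟨-, m, U, h2⟩
  · obtain ⟨k, k1, k2, -, k3, -⟩ := WinSt.win P (CmpA.symm co) rV rR iV iR i1 i2
      (by rw [vE i hi.le, vb i hi.le, h1, h2]; exact g) hb
    exact nd0 (S5I.root_eq eW k1 ▸ k2) k3.ge
  rw [← vE i hi.le, ← vl i hi] at U h2
  rw [← vb i hi.le] at U
  obtain ⟨j, j1, j2, rfl, j4, j5, j6⟩ := Seg.first co.tr' i2 (hi.trans_le co.tr'.le)
  have hk := crit co.tr' j1 j2 (hi.trans_le j1) U.nx.2.2.1 fun k k1 k2 k3 =>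
    let ⟨i', k4, k5⟩ := h2 k k1 k2 k3; ⟨i', k4, vl i' (k4.trans hi) ▸ k5⟩
  subst hk
  have c := CU.cof_congr (BrSt.cof co.tr' le_rfl i2) j6
  have pp := CU.seg_pp co.tr' j1 j2
  rw [j4] at pp
  have f : ∀ x < V.ka j, Seg.sg V j r x = x := fun x hx => Seg.sg_fix co.tr' j1 j2 j5 hx
  have mv := Seg.sg_move co.tr' j1 j2 j5
  have mb := U.nx.1.le.trans U.le
  rcases hb.eq_or_lt with hb | hb
  · have ag := Seg.ag_right co hb.le
    refine nofac co j1 j2 j5 hb (U.use R l l _ eR co.tr co.nor al le_rfl (dr hb) ?_ f mv ?_)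
    · rw [← hb]
      exact ⟨KL.strong_right ag c.toStrong, fun y hy =>
        c.cof y (by rwa [KL.rho_lt ag (lt_add_one _)])⟩
    · rw [← hb]
      exact fun A hA => pp A (CU.named_agree hA (KL.ag_symm ag))
  · obtain ⟨x, x1, x2⟩ := CU.uns c.toStrong (TreeSt.pm co.tr' le_rfl).ls U.rho mb f pp
      (Seg.lev_right co hb).1 (V.ka j) (mb.trans (KE.le1 ((KE.w_self c.toWeak
        (lt_add_one _)).trans_lt (c.maps _ (lt_add_one _)))))
    rcases lt_or_ge x (V.ka j) with h3 | h3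
    · rw [f x h3] at x2
      exact h3.ne x2
    · exact absurd (x2 ▸ (KE.w_le c.toWeak (KE.lt1 mb) (KE.lt1 x1)).2 h3) (not_le.2 mv)

/-- A sound last root that projects below the critical points is not moved. -/
theorem sound (H : DecIn P W th T a F h) (hl : Lev (F.E F.n) (F.b F.n + 1))
    (hr : rho (F.E F.n) (F.b F.n + 1) ≤ m)
    (hm : ∀ k, ω < k → k < m → IsCard (F.E F.n) (F.b F.n + 1) k → ∃ i < F.n, k < F.la i) :
    ∃ (R : IT.{u}) (l : Ordinal.{u}), T.EqLt R (a + 1) ∧ a ≤ l ∧ R.IsTr l ∧ R.Normal l ∧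
      (∀ j, a ≤ j → j < l → h ≤ R.nu j) ∧ F.b F.n ≤ R.b l ∧
      Agree (F.E F.n) (R.E l) (F.b F.n + 1) := by
  obtain ⟨R, l, V, r, O⟩ := dec H
  have co := O.co
  have nV := O.eV.n
  have vE := O.eV.E (lt_add_one F.n)
  have vb := O.eV.b (lt_add_one F.n)
  rcases O.nd.le.eq_or_lt with rfl | hn
  · exact ⟨R, l, O.eR, O.le, co.tr, co.nor, O.nuR, vb ▸ O.b, vE ▸ vb ▸ Seg.ag_right co O.b⟩
  exfalso
  obtain ⟨j, j1, j2, j3, j4, j5, j6⟩ := Seg.first co.tr' O.nd hn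
  have S := co.tr'.step j j1 j2
  rw [← vE, ← vb] at hl hr hm
  have N := Use.next co.tr' j1 j2
  have X := TreeSt.pred_ext (co.tr'.mono j1 j2.le) S.use S.pred
  rw [j3] at X
  rw [j3, j4] at N
  have hk : m ≤ V.ka j := not_lt.1 fun h1 => by
    obtain ⟨i, i1, i2⟩ := hm _ S.use.act.big h1 fun x h2 h3 =>
      (lt_or_ge x (V.ta j)).elim (X.card x h2) fun h4 => (N.2.2.2 x h4 h3).le
    exact absurd (S.pred.min i (j3 ▸ i1)) (not_le.2 (O.eV.la (KE.s1lt i1) ▸ i2))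
  have pp := CU.seg_pp co.tr' j1 j2
  rw [j3, j4] at pp
  have pm := (TreeSt.pm co.tr' le_rfl).toPM0
  have C : CoreMap (V.E F.n) (V.b F.n) (V.E r) (V.b r) (Seg.sg V j r) :=
    ⟨CU.cof_congr (BrSt.cof co.tr' le_rfl O.nd) j6, (TreeSt.pm co.tr' hn.le).toPM0, pm, hl,
      fun x hx => Seg.sg_fix co.tr' j1 j2 j5 (hx.trans_le (hr.trans hk)),
      CU.pp_mono pp (hr.trans hk)⟩
  rcases O.b.eq_or_lt with hb | hb
  · obtain ⟨k, k1, k2, k3, k4⟩ := O.dr hb
    have c1 := Seg.core_ag (BrSt.core co.tr k1 k2 k3 k4) (Seg.ag_left co hb.ge)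
    rw [← hb] at c1
    exact Seg.noeq co k1 k2 j1 j2 k4 j5 hb.symm fun x hx _ => (KeySt.key c1 C).2.2 x hx
  · exact (Seg.sg_move co.tr' j1 j2 j5).ne' ((KeySt.key C (Seg.core_id pm
      (Seg.lev_right co hb))).2.2 _ (j4 ▸ (Seg.ka_lt_st S).le))

/-- An extender of the last root at the first possible index is on the model at `a`. -/
theorem act (H : DecIn P W th T a F h) (hl : Lev (F.E F.n) (F.b F.n + 1))
    (hr : rho (F.E F.n) (F.b F.n + 1) ≤ m)
    (hm : ∀ k, ω < k → k < m → IsCard (F.E F.n) (F.b F.n + 1) k → ∃ i < F.n, k < F.la i)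
    (hb : h ≤ F.b F.n) (hp : ¬ Pas (F.E F.n) h) : h ≤ T.b a ∧ T.E a h = F.E F.n h := by
  obtain ⟨R, l, eR, al, tr, nor, nu, b, ag⟩ := sound H hl hr hm
  rw [← eR.E (lt_add_one a), ← eR.b (lt_add_one a), ag h (KE.lt1 hb)]
  rcases al.eq_or_lt with rfl | al
  · exact ⟨hb.trans b, rfl⟩
  have na : R.n ≤ a := eR.n ▸ H.tr.le
  obtain ⟨h1, h2, -⟩ := TreeSt.nu_agree tr nor na al le_rfl
  refine ⟨(nu a le_rfl al).trans (tr.step a na al).use.le, h1 h ((nu a le_rfl al).lt_of_ne ?_)⟩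
  rintro rfl
  exact hp fun x y => ag _ (KE.lt1 hb) ▸ h2 x y

end Dec

end Pool.Agent.KM
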