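import Pool.Agent.Lib.MP_5c0be7_lc.L.StLos
import Pool.Agent.Lib.MP_5c0be7_lc.O.Api
import Pool.Agent.Lib.MP_5c0be7_lc.K.Emb

/-!
Project KM, block T: terms, and levels with the same theory on a set of labels.
-/

namespace Pool.Agent.KM.End0

open Ordinal Tr Set
open scoped Classical

universe u

/-- A level of successor height with a parameter and an interpretation of labels. -/
structure Md where
  E : Seq.{u}
  b : Ordinal.{u}
  p : Tr.{u}
  f : Ordinal.{u} → Ordinal.{u}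

/-- The value of a term. -/
noncomputable def Md.val (M : Md.{u}) (q : Tr.{u}) : Option Tr.{u} :=
  ev M.E (M.b + 1) q.fst (node (q.snd.map M.f) M.p)

/-- Constants. -/
def cst (t : Tr.{u}) : Tr.{u} := node (opc .fst) t
/-- The parameter. -/
def prm : Tr.{u} := node (opc .snd) .nil
/-- Application of a code. -/
def ap (c q : Tr.{u}) : Tr.{u} := node (cmp .fst c.erase q.fst.erase) q.snd
/-- Pairs. -/
def pr (q r : Tr.{u}) : Tr.{u} :=
  node (pairc (prec (.pair .ff .snd) q.fst.erase) (prec (.pair .sf .snd) r.fst.erase))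
    (node q.snd r.snd)

/-- `X` is the set of the terms on `Z` that are defined in `M`. -/
structure Fib (X : Tr.{u} → Prop) (Z : Set Ordinal.{u}) (M : Md.{u}) : Prop where
  p : In (M.b + 1) M.p
  f : ∀ a ∈ Z, M.f a < M.b + 1
  th : ∀ q : Tr.{u}, q.lv ⊆ Z → (X q ↔ (M.val q).isSome)

variable {X : Tr.{u} → Prop} {Z Z' : Set Ordinal.{u}} {M M' : Md.{u}} {c q r t v w w' x : Tr.{u}}
  {s : Ordinal.{u} → Ordinal.{u}} {a y : Ordinal.{u}}

@[simp] theorem lv_cst : (cst t).lv = t.lv := by simp [cst]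
@[simp] theorem lv_prm : (prm.{u}).lv = ∅ := by simp [prm]
theorem lv_ap (h : q.lv ⊆ Z) : (ap c q).lv ⊆ Z := by simpa [ap] using (lv_snd q).trans h
theorem lv_pr (h : q.lv ⊆ Z) (h' : r.lv ⊆ Z) : (pr q r).lv ⊆ Z := by
  simpa [pr] using ⟨(lv_snd q).trans h, (lv_snd r).trans h'⟩

theorem val_in (h : M.val q = some w) : In (M.b + 1) w := ev_in h

theorem val_ap (h : M.val q = some w) : M.val (ap c q) = ev M.E (M.b + 1) c w := by
  simp only [Md.val] at h
  simp [Md.val, ap, ev_cmp, h]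

theorem val_ap_none (h : M.val q = none) : M.val (ap c q) = none := by
  simp only [Md.val] at h
  simp [Md.val, ap, ev_cmp, h]

theorem val_pr (h : M.val q = some v) (h' : M.val r = some w) :
    M.val (pr q r) = some (node v w) := by
  have i1 := in_of_ev_eq h
  have i2 := in_of_ev_eq h'
  have i3 : In (M.b + 1) (node ((pr q r).snd.map M.f) M.p) := by simp_all [pr]
  exact ev_pairc_some (by rw [ev_prec _ _ i3]; simpa [Md.val, pr] using h)
    (by rw [ev_prec _ _ i3]; simpa [Md.val, pr] using h')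

theorem val_op (o : Op) (h : M.val q = some w) : M.val (ap (opc o) q) = some (bop o w) := by
  rw [val_ap h, ev_opc _ (val_in h)]

theorem val_tst (o : Op) (h : M.val q = some w) :
    (M.val (ap (tst o) q)).isSome ↔ bop o w = .nil := by
  rw [val_ap h, ev_tst_isSome _ (val_in h)]

theorem val_of_ap (h : (M.val (ap c q)).isSome) : ∃ w, M.val q = some w := by
  cases e : M.val q with
  | none => simp [val_ap_none e] at h
  | some w => exact ⟨w, rfl⟩

theorem val_low (ha : M.val q = some (leaf a)) (h : M.val r = some x) :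
    M.val (ap callc (pr q (pr (ap (opc (.const c)) q) r))) = ev M.E a c x := by
  rw [val_ap (val_pr ha (val_pr (val_op _ ha) h)), bop_const',
    ev_callc (by simpa using val_in ha) _ (in_erase _ _), ev_erase]

theorem lt_lf {x y : Ordinal.{u}} : Lt (leaf x) (leaf y) ↔ x < y := by
  refine ⟨fun h => ?_, fun h => Or.inl (KE.s1lt h)⟩
  rcases lt_trichotomy x y with h1 | rfl | h1
  · exact h1
  · exact absurd h (lt_irrefl' _)
  · exact absurd (Or.inl (KE.s1lt h1) : Lt (leaf y) (leaf x)) h.asymm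

namespace Fib

theorem mono (h : Fib X Z M) (hz : Z' ⊆ Z) : Fib X Z' M :=
  ⟨h.p, fun a ha => h.f a (hz ha), fun q hq => h.th q (hq.trans hz)⟩

theorem cst (h : Fib X Z M) (ht : t.lv ⊆ Z) : M.val (cst t) = some (t.map M.f) := by
  refine ev_opc _ ((in_node _ _ _).2 ⟨fun a ha => ?_, h.p⟩)
  simp only [End0.cst, snd_node, lv_map] at ha
  obtain ⟨z, hz, rfl⟩ := ha
  exact h.f z (ht hz)

theorem prm (h : Fib X Z M) : M.val prm = some M.p :=
  ev_opc _ ((in_node _ _ _).2 ⟨in_nil _, h.p⟩)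

theorem top (h : Fib X Z M) : M.val (ap topc End0.prm) = some (leaf M.b) := by
  rw [val_ap h.prm, ev_topc h.p]

theorem ex (h : Fib X Z M) (hq : q.lv ⊆ Z) (e : X q) : ∃ w, M.val q = some w :=
  Option.isSome_iff_exists.1 ((h.th q hq).1 e)

theorem of (h : Fib X Z M) (hq : q.lv ⊆ Z) (e : M.val q = some w) : X q :=
  (h.th q hq).2 (by simp [e])

theorem tst (h : Fib X Z M) (hq : q.lv ⊆ Z) (o : Op) (e : M.val q = some w) :
    X (ap (tst o) q) ↔ bop o w = .nil := (h.th _ (lv_ap hq)).trans (val_tst o e)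

theorem test (h : Fib X Z M) (h' : Fib X Z M') (hq : q.lv ⊆ Z) (o : Op) (e : M.val q = some w)
    (e' : M'.val q = some w') : bop o w = .nil ↔ bop o w' = .nil :=
  (h.tst hq o e).symm.trans (h'.tst hq o e')

theorem same (h : Fib X Z M) (h' : Fib X Z M') (hq : q.lv ⊆ Z) (hr : r.lv ⊆ Z)
    (e : M.val q = some w) (e1 : M.val r = some w) (e' : M'.val r = some w') :
    M'.val q = some w' := by
  obtain ⟨v, hv⟩ := h'.ex hq (h.of hq e)
  have := h.test h' (lv_pr hq hr) .eq (val_pr e e1) (val_pr hv e')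
  simp only [bop_eq, fst_node, snd_node, tv_eq_nil, true_iff] at this
  rw [hv, this]

theorem nil (h : Fib X Z M) (h' : Fib X Z M') (hq : q.lv ⊆ Z) (e : M.val q = some .nil) :
    M'.val q = some .nil := by
  obtain ⟨v, hv⟩ := h'.ex hq (h.of hq e)
  rw [hv, show v = .nil from (h.test h' hq .id e hv).1 rfl]

theorem leaf (h : Fib X Z M) (h' : Fib X Z M') (hq : q.lv ⊆ Z) (e : M.val q = some (leaf a)) :
    ∃ a', M'.val q = some (leaf a') := by
  obtain ⟨v, hv⟩ := h'.ex hq (h.of hq e)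
  obtain ⟨a', rfl⟩ : ∃ a', v = .leaf a' := by simpa using h.test h' hq .isleaf e hv
  exact ⟨a', hv⟩

theorem node (h : Fib X Z M) (h' : Fib X Z M') (hq : q.lv ⊆ Z) {v1 v2 w1 w2 : Tr.{u}}
    (e : M.val q = some (node v1 v2)) (e1 : M'.val (ap (opc .fst) q) = some w1)
    (e2 : M'.val (ap (opc .snd) q) = some w2) : M'.val q = some (node w1 w2) := by
  obtain ⟨v, hv⟩ := h'.ex hq (h.of hq e)
  have := h.test h' hq (.comp .eq (.pair .id (.pair .fst .snd))) e hv
  simp only [bop_comp, bop_pair, bop_id, bop_fst, bop_snd, bop_eq, fst_node, snd_node, tv_eq_nil,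
    true_iff] at this
  rw [val_op _ hv, Option.some.injEq] at e1 e2
  rw [hv, this, ← e1, ← e2]; rfl

end Fib

/-- The ordinals that are values of terms on `Z`. -/
def Hu (M : Md.{u}) (Z : Set Ordinal.{u}) : Set Ordinal.{u} :=
  {y | ∃ q : Tr.{u}, q.lv ⊆ Z ∧ M.val q = some (leaf y)}

theorem hu_tree (h : Fib X Z M) (hx : x.lv ⊆ Hu M Z) :
    ∃ q : Tr.{u}, q.lv ⊆ Z ∧ M.val q = some x := by
  induction x with
  | nil => exact ⟨cst .nil, by simp, h.cst (by simp)⟩
  | leaf a => exact hx rfl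
  | node l m ihl ihm =>
    obtain ⟨q, h1, h2⟩ := ihl (subset_union_left.trans hx)
    obtain ⟨r, h3, h4⟩ := ihm (subset_union_right.trans hx)
    exact ⟨pr q r, lv_pr h1 h3, val_pr h2 h4⟩

theorem hu_val (hq : q.lv ⊆ Z) (h : M.val q = some w) : w.lv ⊆ Hu M Z := by
  induction w generalizing q with
  | nil => simp
  | leaf a => exact singleton_subset_iff.2 ⟨q, hq, h⟩
  | node l m ihl ihm =>
    exact union_subset (ihl (lv_ap hq) (val_op .fst h)) (ihm (lv_ap hq) (val_op .snd h))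

theorem hu_lt (h : y ∈ Hu M Z) : y < M.b + 1 := let ⟨_, _, e⟩ := h; by simpa using val_in e

theorem hu_hull (h : Fib X Z M) (hz : Z' ⊆ Hu M Z) (hy : InHull M.E (M.b + 1) Z' y) :
    y ∈ Hu M Z := by
  obtain ⟨c, x, h1, h2⟩ := hy
  obtain ⟨q, h3, h4⟩ := hu_tree h (h1.trans hz)
  exact ⟨ap c q, lv_ap h3, (val_ap h4).trans h2⟩

/-- `s` sends values of terms to values of the same terms. -/
def Tw (Z : Set Ordinal.{u}) (M M' : Md.{u}) (s : Ordinal.{u} → Ordinal.{u}) : Prop :=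
  ∀ q w : Tr.{u}, q.lv ⊆ Z → M.val q = some w → M'.val q = some (w.map s)

theorem two (h : Fib X Z M) (h' : Fib X Z M') : ∃ s, Tw Z M M' s := by
  have : ∀ y, ∃ y', y ∈ Hu M Z → ∃ q : Tr.{u}, q.lv ⊆ Z ∧ M.val q = some (leaf y) ∧
      M'.val q = some (leaf y') := fun y => by
    by_cases e : y ∈ Hu M Z
    · obtain ⟨q, h1, h2⟩ := e
      obtain ⟨y', h3⟩ := h.leaf h' h1 h2
      exact ⟨y', fun _ => ⟨q, h1, h2, h3⟩⟩
    · exact ⟨0, fun c => absurd c e⟩
  choose s hs using this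
  refine ⟨s, fun q w hq e => ?_⟩
  induction w generalizing q with
  | nil => exact h.nil h' hq e
  | leaf a =>
    obtain ⟨r, h1, h2, h3⟩ := hs a ⟨q, hq, e⟩
    exact h.same h' hq h1 e h2 h3
  | node l m ihl ihm =>
    exact h.node h' hq e (ihl _ (lv_ap hq) (val_op _ e)) (ihm _ (lv_ap hq) (val_op _ e))

section

variable (h : Fib X Z M) (h' : Fib X Z M') (hs : Tw Z M M' s)
include h h' hs

theorem tw_eq (hq : q.lv ⊆ Z) : M'.val q = (M.val q).map (Tr.map s) := by
  cases e : M.val q with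
  | some w => exact hs q w hq e
  | none =>
    have := (h.th q hq).symm.trans (h'.th q hq)
    simpa [e] using this

theorem tw_mono : StrictMonoOn s (Hu M Z) := by
  rintro a ⟨q, h1, h2⟩ a' ⟨r, h3, h4⟩ e
  simpa [lt_lf, e] using h.test h' (lv_pr h1 h3) .lt (val_pr h2 h4)
    (val_pr (hs _ _ h1 h2) (hs _ _ h3 h4))

theorem tw_lab (ha : a ∈ Z) : s (M.f a) = M'.f a := by
  have hq : (leaf a).lv ⊆ Z := by simpa using ha
  simpa [h'.cst hq] using (hs _ _ (by simpa using ha) (h.cst hq)).symm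

theorem tw_top : s M.b = M'.b := by
  simpa [h'.top] using (hs _ _ (lv_ap (by simp)) h.top).symm

theorem tw_par : M.p.map s = M'.p := by
  simpa [h'.prm] using (hs _ _ (by simp) h.prm).symm

theorem tw_comm (hx : x.lv ⊆ Hu M Z) (c : Tr.{u}) :
    ev M'.E (M'.b + 1) c (x.map s) = (ev M.E (M.b + 1) c x).map (Tr.map s) := by
  obtain ⟨r, h3, h4⟩ := hu_tree h hx
  rw [← val_ap h4, ← tw_eq h h' hs (lv_ap h3)]
  exact (val_ap (hs _ _ h3 h4)).symm

omit h' in
theorem tw_in (hx : x.lv ⊆ Hu M Z) : In (M'.b + 1) (x.map s) :=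
  let ⟨_, h3, h4⟩ := hu_tree h hx
  val_in (hs _ _ h3 h4)

theorem tw_strong {E0 : Seq.{u}} {b0 : Ordinal.{u}} {k : Ordinal.{u} → Ordinal.{u}}
    (hk : Strong E0 (b0 + 1) M.E (M.b + 1) k) (hr : ∀ x ≤ b0, k x ∈ Hu M Z) :
    Strong E0 (b0 + 1) M'.E (M'.b + 1) (s ∘ k) := by
  have tm : ∀ x : Tr.{u}, In (b0 + 1) x → ∃ q : Tr.{u}, q.lv ⊆ Z ∧ M.val q = some (x.map k) :=
    fun x hx => hu_tree h (by
      rw [lv_map]; exact image_subset_iff.2 fun a ha => hr a (KE.le1 (hx a ha)))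
  have mm : ∀ x : Tr.{u}, x.map (s ∘ k) = (x.map k).map s := fun x => (map_map k s x).symm
  have mo : ∀ o : Option Tr.{u}, o.map (Tr.map (s ∘ k)) = (o.map (Tr.map k)).map (Tr.map s) :=
    fun o => by cases o <;> simp [mm]
  refine ⟨⟨fun a ha a' ha' e => tw_mono h h' hs (hr a (KE.le1 ha)) (hr a' (KE.le1 ha'))
    (hk.mono ha ha' e), fun a ha => ?_, fun a e => ?_, fun a ha c x hx => ?_⟩, fun c x hx => ?_⟩
  · obtain ⟨q, h1, h2⟩ := hr a (KE.le1 ha)
    simpa using val_in (hs _ _ h1 h2)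
  · rw [Function.comp, ← KE.s1inj (hk.top a e), tw_top h h' hs]
  · obtain ⟨q, h1, h2⟩ := hr a (KE.le1 ha)
    obtain ⟨r, h3, h4⟩ := tm x (hx.mono ha.le)
    rw [mo, ← hk.comm a ha c x hx, ← val_low h2 h4,
      ← tw_eq h h' hs (lv_ap (lv_pr h1 (lv_pr (lv_ap h1) h3))), mm]
    exact (val_low (hs _ _ h1 h2) (hs _ _ h3 h4)).symm
  · obtain ⟨r, h3, h4⟩ := tm x hx
    rw [mo, ← hk.commTop c x hx, ← val_ap h4, ← tw_eq h h' hs (lv_ap h3), mm]
    exact (val_ap (hs _ _ h3 h4)).symm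

/-- The levels below a fixed ordinal are the same. -/
theorem tw_ev {i : Ordinal.{u}} (hi : Iio i ⊆ Z) (f1 : ∀ z < i, M.f z = z)
    (f2 : ∀ z < i, M'.f z = z) (ha : a < i) : ev M.E a = ev M'.E a := by
  funext c x
  by_cases hx : In a x
  · have hz : x.lv ⊆ Z := fun z e => hi ((hx z e).trans ha)
    have ha' : (leaf a).lv ⊆ Z := by simpa using hi ha
    have e1 := h.cst hz
    have e2 := h'.cst hz
    have e3 := h.cst ha'
    have e4 := h'.cst ha'
    rw [map_eq_self fun z e => f1 z ((hx z e).trans ha)] at e1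
    rw [map_eq_self fun z e => f2 z ((hx z e).trans ha)] at e2
    rw [map_leaf, f1 a ha] at e3
    rw [map_leaf, f2 a ha] at e4
    rw [← val_low e4 e2, tw_eq h h' hs (lv_ap (lv_pr (by simpa using hi ha)
      (lv_pr (lv_ap (by simpa using hi ha)) (by simpa using hz)))), val_low e3 e1]
    cases e : ev M.E a c x with
    | none => rfl
    | some w =>
      refine congrArg some (map_eq_self fun z hz => ?_).symm
      have := (ev_in e z hz).trans ha
      simpa [f1 z this, f2 z this] using tw_lab h h' hs (hi this)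
  · rw [ev_guard hx, ev_guard hx]

end

/-- `w` lists witnesses for the solidity of `p`. -/
def Wit (E : Seq.{u}) (d : Ordinal.{u}) : Tr.{u} → Tr.{u} → Prop
  | .nil, _ => True
  | node l s, w => ∃ g, l = leaf g ∧ (∀ a ∈ s.lv, g < a) ∧ Names E d g (Th E d s) w.fst ∧
      Wit E d s w.snd
  | leaf _, _ => False

theorem ex_wit {E : Seq.{u}} {d : Ordinal.{u}} (h : Solid E d x) : ∃ w, In d w ∧ Wit E d x w := by
  induction x with
  | nil => exact ⟨.nil, in_nil _, trivial⟩
  | leaf a => exact h.elim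
  | node l m _ ih =>
    obtain ⟨g, h1, h2, ⟨t, h3⟩, h4⟩ := h
    obtain ⟨w, h5, h6⟩ := ih h4
    exact ⟨node t w, by simp [h3.1, h5], g, h1, h2, h3, h6⟩

/-- Solidity comes down from the models in which the theory is realised. -/
theorem solid_down (H : ∀ q : Tr.{u}, In (M.b + 1) q → ∃ Z M' s, Fib X Z M ∧ Fib X Z M' ∧
    Tw Z M M' s ∧ q.lv ⊆ Hu M Z ∧ x.lv ⊆ Hu M Z ∧ w.lv ⊆ Hu M Z ∧
      Wit M'.E (M'.b + 1) (x.map s) (w.map s)) : Solid M.E (M.b + 1) x := by
  induction x generalizing w with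
  | nil => trivial
  | leaf a => exact let ⟨_, _, _, _, _, _, _, _, _, h⟩ := H .nil (in_nil _); h.elim
  | node l m _ ih =>
    obtain ⟨Z, M', s, h1, h2, h3, -, h4, h5, g', h6, h7, -⟩ := H .nil (in_nil _)
    obtain ⟨g, rfl, rfl⟩ := map_eq_leaf.1 h6
    have i1 : In (M.b + 1) w.fst := fun a ha => hu_lt (h5 (lv_fst _ ha))
    refine ⟨g, rfl, fun a ha => ((tw_mono h1 h2 h3).lt_iff_lt (h4 (Or.inl rfl))
      (h4 (Or.inr ha))).1 (h7 _ (by rw [lv_map]; exact mem_image_of_mem _ ha)),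
      ⟨w.fst, i1, fun q hq => ?_⟩, ih (w := w.snd) fun q hq => ?_⟩
    · have i2 := hq.mono (hu_lt (h4 (Or.inl rfl))).le
      obtain ⟨Z, M', s, a1, a2, a3, a4, a5, a6, g', a7, -, a8, -⟩ := H q i2
      obtain rfl : s g = g' := leaf.inj a7
      have a9 := (lv_fst w).trans a6
      have := a8.2 (q.map s) fun y hy => by
        rw [lv_map] at hy
        obtain ⟨y, e, rfl⟩ := hy
        exact tw_mono a1 a2 a3 (a4 e) (a5 (Or.inl rfl)) (hq y e)
      rw [map_fst] at this
      have := (ev_nmc (tw_in a1 a3 a4) (tw_in a1 a3 a9)).trans this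
      rw [← map_node, tw_comm a1 a2 a3 (x := node q w.fst) (union_subset a4 a9), Option.isSome_map,
        ev_nmc i2 i1] at this
      refine this.trans ?_
      simp only [ThL, map_fst, map_snd, ev_map_code]
      rw [← map_node, tw_comm a1 a2 a3 (x := node q.snd m) (union_subset ((lv_snd q).trans a4)
          (subset_union_right.trans a5)), Option.isSome_map]
    · obtain ⟨Z, M', s, a1, a2, a3, a4, a5, a6, g', -, -, -, a8⟩ := H q hq
      exact ⟨Z, M', s, a1, a2, a3, a4, subset_union_right.trans a5, (lv_snd w).trans a6,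
        map_snd s w ▸ a8⟩

end Pool.Agent.KM.End0
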