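import Pool.Agent.Lib.MP_5c0be7_lc.T.End0
import Pool.Agent.Lib.MP_5c0be7_lc.K.Loc

/-!
Project KM, block T: the term model of a theory that is locally realised.
-/

namespace Pool.Agent.KM.End1

open Ordinal Tr Set Filter End0
open scoped Classical

universe u

variable {X : Tr.{u} → Prop} {Z : Set Ordinal.{u}} {M : Md.{u}} {q r : Tr.{u}} {l : Ordinal.{u}}

/-- A code for the successor function. -/
theorem ex_suc : ∃ c : Tr.{u}, ∀ (E : Seq.{u}) b a, LS E (b + 1) → a < b →
    ev E (b + 1) c (leaf a) = some (leaf (a + 1)) := by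
  refine ⟨exs (nilc (postc (.comp .eq (.pair (.pair .fst .ff) (.pair .ss .nil)))
    (prec (.pair .fst (.pair (.const (topc : Tr.{u})) .nil)) callc))), fun E b a h ha => ?_⟩
  have h2 : a + 1 < b + 1 := KE.s1lt ha
  have key : ∀ y, In (b + 1) y → ((ev E (b + 1) (nilc (postc
      (.comp .eq (.pair (.pair .fst .ff) (.pair .ss .nil)))
      (prec (.pair .fst (.pair (.const (topc : Tr.{u})) .nil)) callc))) (node y (leaf a))).isSome ↔
      (call (ev E) (b + 1) (node y (node topc .nil))).unopt = some (leaf a)) := by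
    intro y hy
    have i2 : In (b + 1) (node y (leaf a)) := by simp [hy, ha.le]
    rw [ev_nilc_isSome, ev_postc, ev_prec _ _ i2, ev_callc' (i2.bop _)]
    simp only [bop_pair, bop_fst, fst_node, bop_const lv_topc, bop_nil]
    cases (call (ev E) (b + 1) (node y (node topc .nil))).unopt with
    | none => simp
    | some w => simpa using fun e : w = leaf a => by simp [e]
  obtain ⟨y, hy⟩ := Option.isSome_iff_exists.1 (ev_exs_complete (h _ (lt_add_one _)).1
    ((key (leaf (a + 1)) (by simpa using h2)).2 (by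
      rw [call_leaf h2]; simp [ev_topc (in_nil _)])))
  have h3 := (key y (ev_in hy)).1 (ev_exs_sound hy)
  unfold call at h3
  simp only [fst_node, snd_node] at h3
  split_ifs at h3 with h5
  · rw [unopt_opt] at h3
    rw [hy, h5.1, ev_topc_eq h3]
  · simp at h3

theorem small_in (l : Ordinal.{u}) : _root_.Small.{u} {t : Tr.{u} | In l t} := by
  have := KL.mk_in l
  rw [← Cardinal.lift_aleph0.{u + 1, u}, ← Cardinal.lift_max,
    ← Cardinal.mk_out (max _ _), ← Cardinal.lift_id'.{u, u + 1} (Cardinal.mk _),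
    Cardinal.lift_mk_le'] at this
  exact small_of_injective this.some.injective

/-- The label of the value of a term. -/
noncomputable def vl (M : Md.{u}) (q : Tr.{u}) : Ordinal.{u} := ((M.val q).getD .nil).lab

theorem lf (h : Fib X Z M) (hq : q.lv ⊆ Z) (e : X (ap (tst .isleaf) q)) :
    M.val q = some (leaf (vl M q)) := by
  obtain ⟨w, hw⟩ := val_of_ap ((h.th _ (lv_ap hq)).1 e)
  obtain ⟨a, rfl⟩ : ∃ a, w = leaf a := by simpa using (h.tst hq _ hw).1 e
  simp [vl, hw]

theorem ltv (h : Fib X Z M) (hq : q.lv ⊆ Z) (hr : r.lv ⊆ Z) (e : X (ap (tst .isleaf) q))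
    (e' : X (ap (tst .isleaf) r)) : X (ap (tst .lt) (pr q r)) ↔ vl M q < vl M r := by
  simpa [lt_lf] using h.tst (lv_pr hq hr) .lt (val_pr (lf h hq e) (lf h hr e'))

theorem model [LosSt.{u}] [LosPmSt.{u}] [RankSt.{u}] (hl : Order.IsSuccLimit l)
    (H : ∀ Z : Set Ordinal.{u}, Z.Countable → Z ⊆ Iio l → ∀ i < l,
      ∃ M : Md.{u}, PM M.E (M.b + 1) ∧ Fib X (Z ∪ Iio i) M ∧ ∀ a < i, M.f a = a) :
    ∃ M : Md.{u}, PM M.E (M.b + 1) ∧ Fib X (Iio l) M ∧ M.f = id ∧ Gen M.E (M.b + 1) l M.p := by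
  have H0 : ∀ Z : Set Ordinal.{u}, Z.Countable → Z ⊆ Iio l →
      ∃ M : Md.{u}, PM M.E (M.b + 1) ∧ Fib X Z M := fun Z h1 h2 =>
    let ⟨M, h3, h4, _⟩ := H Z h1 h2 0 hl.pos
    ⟨M, h3, h4.mono subset_union_left⟩
  have lc : ∀ q : Tr.{u}, q.lv.Countable := fun q => (lv_finite q).countable
  choose N pm fib using fun s : Finset Ordinal.{u} => H0 (↑s ∩ Iio l)
    (s.countable_toSet.mono inter_subset_left) inter_subset_right
  have sub : ∀ q : Tr.{u}, In l q → ∀ᶠ s : Finset Ordinal.{u} in atTop, q.lv ⊆ ↑s ∩ Iio l :=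
    fun q hq => (eventually_ge_atTop (lv_finite q).toFinset).mono fun s hs =>
      subset_inter (fun a ha => hs (by simpa using ha)) hq
  let P := {q : Tr.{u} // In l q ∧ X (ap (tst .isleaf) q)}
  have := small_in l
  have : _root_.Small.{u} P := small_subset (s := {t | In l t})
    (t := {q | In l q ∧ X (ap (tst .isleaf) q)}) fun _ h => h.1
  obtain ⟨B, rk, r1, r2, r3⟩ := RankSt.rank (P := P) (fun p q => X (ap (tst .lt) (pr p.1 q.1)))
    (wellFounded_iff_isEmpty_descending_chain.2 ⟨fun ⟨p, hp⟩ => by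
      obtain ⟨M, -, h⟩ := H0 (⋃ n, (p n).1.lv) (countable_iUnion fun n => lc _)
        (iUnion_subset fun n => (p n).2.1)
      have s := subset_iUnion fun n => (p n).1.lv
      exact (wellFounded_iff_isEmpty_descending_chain.1 wellFounded_lt).false
        ⟨fun n => vl M (p n).1, fun n => (ltv h (s _) (s _) (p _).2.2 (p _).2.2).1 (hp n)⟩⟩)
    fun p q s e => by
      obtain ⟨M, -, h⟩ := H0 (p.1.lv ∪ (q.1.lv ∪ s.1.lv)) ((lc _).union ((lc _).union (lc _)))
        (union_subset p.2.1 (union_subset q.2.1 s.2.1))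
      have s1 := subset_union_left.trans (subset_union_right (s := p.1.lv) (t := q.1.lv ∪ s.1.lv))
      have s2 := subset_union_right.trans (subset_union_right (s := p.1.lv) (t := q.1.lv ∪ s.1.lv))
      rw [ltv h subset_union_left s1 p.2.2 q.2.2] at e
      rw [ltv h subset_union_left s2 p.2.2 s.2.2, ltv h s2 s1 s.2.2 q.2.2]
      exact (lt_or_ge _ _).imp id fun c => c.trans_lt e
  have r4 : ∀ p q : P, ∀ᶠ s in atTop, rk p < rk q ↔ vl (N s) p.1 < vl (N s) q.1 := fun p q => by
    filter_upwards [sub _ p.2.1, sub _ q.2.1] with s h1 h2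
    rw [r3, ltv (fib s) h1 h2 p.2.2 q.2.2]
  have lT : (ap topc prm : Tr.{u}).lv ⊆ ∅ := lv_ap (by simp)
  let T : P := ⟨ap topc prm, lT.trans (empty_subset _),
    ((fib ∅).tst (lT.trans (empty_subset _)) _ (fib ∅).top).2 (by simp)⟩
  have vT : ∀ s, vl (N s) T.1 = (N s).b := fun s => by simp [vl, T, (fib s).top]
  obtain rfl : B = rk T + 1 := le_antisymm (le_of_forall_lt fun x hx => by
    obtain ⟨p, rfl⟩ := r2 x hx
    obtain ⟨s, h1, h2⟩ := ((r4 T p).and (sub _ p.2.1)).exists
    refine KE.lt1 (not_lt.1 fun c => ?_)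
    have := val_in (lf (fib s) h2 p.2.2)
    exact absurd (vT s ▸ h1.1 c) (not_lt.2 (by simpa using this))) (Order.add_one_le_iff.2 (r1 T))
  have : Nonempty P := ⟨T⟩
  choose! tm htm using r2
  generalize hb : rk T = b at *
  let r : Finset Ordinal.{u} → Ordinal.{u} → Ordinal.{u} := fun s a =>
    if a < b + 1 then vl (N s) (tm a).1 else (N s).b + 1
  have rB : ∀ s, r s (b + 1) = (N s).b + 1 := fun s => if_neg (lt_irrefl _)
  have key : ∀ q : P, ∀ᶠ s in atTop, (N s).val q.1 = some (leaf (r s (rk q))) := fun q => by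
    filter_upwards [sub _ q.2.1, r4 q (tm (rk q)), r4 (tm (rk q)) q] with s h1 h2 h3
    rw [htm _ (r1 q), lt_self_iff_false, false_iff, not_lt] at h2 h3
    rw [lf (fib s) h1 q.2.2, le_antisymm h3 h2]
    simp only [r, if_pos (r1 q)]
  have ktm : ∀ a < b + 1, ∀ᶠ s in atTop, (N s).val (tm a).1 = some (leaf (r s a)) := fun a ha => by
    simpa only [htm a ha] using key (tm a)
  have mono : ∀ a a', a < a' → a' ≤ b + 1 → ∀ᶠ s in atTop, r s a < r s a' := fun a a' e h => by
    have ha := e.trans_le h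
    rcases h.eq_or_lt with rfl | h
    · exact (ktm a ha).mono fun s h1 => by simpa [rB] using val_in h1
    · refine (r4 (tm a) (tm a')).mono fun s h1 => ?_
      simp only [r, if_pos ha, if_pos h]
      exact h1.1 (by rwa [htm a ha, htm a' h])
  have mle : ∀ a a', a ≤ a' → a' ≤ b + 1 → ∀ᶠ s in atTop, r s a ≤ r s a' := fun a a' e h => by
    rcases e.eq_or_lt with rfl | e
    · exact .of_forall fun _ => le_rfl
    · exact (mono a a' e h).mono fun _ => le_of_lt
  have rfl' : ∀ a a', a ≤ b + 1 → (∀ᶠ s in atTop, r s a < r s a') → a < a' :=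
    fun a a' h e => by
      by_contra c
      obtain ⟨s, h1, h2⟩ := (e.and (mle a' a (not_lt.1 c) h)).exists
      exact absurd h1 (not_lt.2 h2)
  have rep : ∀ q, In l q → X q → ∃ y, In (b + 1) y ∧
      ∀ᶠ s in atTop, (N s).val q = some (y.map (r s)) := fun q hq e => by
    obtain ⟨s0, h0⟩ := (sub q hq).exists
    obtain ⟨w, hw⟩ := (fib s0).ex h0 e
    clear e
    induction w generalizing q with
    | nil => exact ⟨.nil, in_nil _, (sub q hq).mono fun s h =>
        ((fib s0).mono h0).nil ((fib s).mono h) subset_rfl hw⟩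
    | leaf a =>
      have := key ⟨q, hq, ((fib s0).tst h0 _ hw).2 (by simp)⟩
      exact ⟨leaf _, by simpa using r1 _, this⟩
    | node w1 w2 ih1 ih2 =>
      obtain ⟨y1, a1, a2⟩ := ih1 _ (lv_ap hq) (lv_ap h0) (val_op .fst hw)
      obtain ⟨y2, a3, a4⟩ := ih2 _ (lv_ap hq) (lv_ap h0) (val_op .snd hw)
      refine ⟨node y1 y2, by simp [a1, a3], ?_⟩
      filter_upwards [sub q hq, a2, a4] with s h h1 h2
      exact ((fib s0).mono h0).node ((fib s).mono h) subset_rfl hw h1 h2
  have tt : ∀ x, In (b + 1) x → ∃ q, In l q ∧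
      ∀ᶠ s in atTop, (N s).val q = some (x.map (r s)) := fun x hx => by
    induction x with
    | nil => exact ⟨cst .nil, by simp [In], .of_forall fun s => (fib s).cst (by simp)⟩
    | leaf a => exact ⟨_, (tm a).2.1, ktm a (by simpa using hx)⟩
    | node x1 x2 ih1 ih2 =>
      obtain ⟨q1, a1, a2⟩ := ih1 hx.fst
      obtain ⟨q2, a3, a4⟩ := ih2 hx.snd
      exact ⟨pr q1 q2, lv_pr a1 a3, (a2.and a4).mono fun s h => val_pr h.1 h.2⟩
  have dec : ∀ q, In l q → (∀ᶠ s in atTop, ((N s).val q).isSome) → X q := fun q hq e =>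
    let ⟨s, h1, h2⟩ := (e.and (sub q hq)).exists
    ((fib s).th q h2).2 h1
  have rb : ∀ᶠ s in atTop, r s b = (N s).b := (key T).mono fun s h => by
    rw [hb, (fib s).top] at h; simpa using h.symm
  have L : Los atTop (fun s => (N s).E) r (b + 1) (lseq atTop (fun s => (N s).E) r (b + 1)) := by
    refine LosSt.los ⟨⟨inferInstance, mono, fun a ha => ?_, .of_forall fun s => rB s ▸ (pm s).ls⟩,
      fun a ha c x hx => ?_, fun v hv h1 x hx y hy => by simp [lseq, hv, h1, hx, hy]⟩
    · rcases (KE.s1le ha).eq_or_lt with rfl | h1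
      · exact rb.mono fun s h => by rw [rB, h]
      obtain ⟨c, hc⟩ := ex_suc.{u}
      have e : ∀ᶠ s in atTop, (N s).val (ap c (tm a).1) = some (leaf (r s a + 1)) := by
        filter_upwards [ktm a (KE.lt1 h1.le), rb, mono a b h1 le_self_add] with s h2 h3 h4
        rw [val_ap h2, hc _ _ _ (pm s).ls (h3 ▸ h4)]
      obtain ⟨y, h2, h3⟩ := rep _ (lv_ap (tm a).2.1)
        (dec _ (lv_ap (tm a).2.1) (e.mono fun s h => Option.isSome_iff_exists.2 ⟨_, h⟩))
      obtain ⟨s0, h4, h5⟩ := (e.and h3).exists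
      obtain ⟨z, rfl, -⟩ := map_eq_leaf.1 (Option.some.inj (h5.symm.trans h4))
      have e2 : ∀ᶠ s in atTop, r s z = r s a + 1 := (e.and h3).mono fun s h =>
        leaf.inj (Option.some.inj (h.2.symm.trans h.1))
      have hz : z ≤ b + 1 := (h2 z rfl).le
      have h6 : a < z := rfl' a z (le_self_add.trans ha)
        (e2.mono fun s h => (lt_add_one _).trans_eq h.symm)
      filter_upwards [e2, mle (a + 1) z (Order.add_one_le_iff.2 h6) hz,
        mono a (a + 1) (lt_add_one a) ha] with s h7 h8 h9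
      exact le_antisymm (h7 ▸ h8) (Order.add_one_le_iff.2 h9)
    · obtain ⟨q, h1, h2⟩ := tt x (hx.mono ha)
      obtain ⟨t, h3, h4⟩ : ∃ t, In l t ∧ ∀ᶠ s in atTop,
          (N s).val t = ev (N s).E (r s a) c (x.map (r s)) := by
        rcases ha.eq_or_lt with rfl | ha
        · exact ⟨ap c q, lv_ap h1, h2.mono fun s h => by rw [val_ap h, rB]⟩
        · exact ⟨_, lv_ap (lv_pr (tm a).2.1 (lv_pr (lv_ap (tm a).2.1) h1)),
            ((ktm a ha).and h2).mono fun s h => val_low h.1 h.2⟩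
      by_cases e : X t
      · obtain ⟨y, h5, h6⟩ := rep t h3 e
        have h7 := (h4.and h6).mono fun s h => h.1.symm.trans h.2
        exact Or.inr ⟨y, fun z hz => rfl' z a (h5 z hz).le (h7.mono fun s h =>
          ev_in h _ (by rw [lv_map]; exact mem_image_of_mem _ hz)), h7⟩
      · left
        filter_upwards [h4, sub t h3] with s h5 h6
        simpa [← h5] using mt ((fib s).th t h6).2 e
  have cP : ∀ a < l, X (ap (tst .isleaf) (cst (leaf a))) := fun a ha => by
    obtain ⟨s, h⟩ := (sub (leaf a) (by simpa using ha)).exists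
    exact ((fib s).tst (by simpa using h) _ ((fib s).cst h)).2 (by simp)
  have rc : ∀ a (ha : a < l), rk ⟨cst (leaf a), by simpa [In] using ha, cP a ha⟩ = a := fun a => by
    induction a using WellFoundedLT.induction with
    | ind a ih =>
    intro ha
    have vc : ∀ {M : Md.{u}} {Z}, Fib X (Z ∪ Iio (a + 1)) M → (∀ z < a + 1, M.f z = z) →
        ∀ z < a + 1, vl M (cst (leaf z)) = z := fun h hf z hz => by
      simp [vl, h.cst (t := leaf z) (by simp [KE.le1 hz]), hf z hz]
    have sc : ∀ {Z : Set Ordinal.{u}}, ∀ z < a + 1, (cst (leaf z)).lv ⊆ Z ∪ Iio (a + 1) :=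
      fun z hz => by simp [KE.le1 hz]
    refine le_antisymm (le_of_forall_lt fun x hx => ?_) (le_of_forall_lt fun x hx => ?_)
    · have hx' := hx.trans (r1 _)
      obtain ⟨M, -, h, hf⟩ := H _ (lc (tm x).1) (tm x).2.1 (a + 1) (hl.add_one_lt ha)
      rw [← htm x hx', r3, ltv h subset_union_left (sc a (lt_add_one a)) (tm x).2.2 (cP a ha),
        vc h hf a (lt_add_one a)] at hx
      have h1 := KE.lt1 hx.le
      refine lt_of_le_of_lt (not_lt.1 fun c => ?_) hx
      have c2 := ((ih _ hx (hx.trans ha)).trans_lt c).trans_eq (htm x hx').symm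
      rw [r3, ltv h (sc _ h1) subset_union_left (cP _ (hx.trans ha)) (tm x).2.2, vc h hf _ h1] at c2
      exact lt_irrefl _ c2
    · obtain ⟨M, -, h, hf⟩ := H ∅ countable_empty (empty_subset _) (a + 1) (hl.add_one_lt ha)
      rw [← ih x hx (hx.trans ha), r3, ltv h (sc _ (KE.lt1 hx.le)) (sc a (lt_add_one a))
        (cP _ (hx.trans ha)) (cP a ha), vc h hf a (lt_add_one a), vc h hf x (KE.lt1 hx.le)]
      exact hx
  have lB : ∀ a < l, a < b + 1 := fun a ha => rc a ha ▸ r1 _
  have rf : ∀ v, In l v → ∀ᶠ s in atTop, v.map (r s) = v.map (N s).f := fun v hv => by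
    refine ((eventually_all_finite (lv_finite v)).2 fun a ha => ?_).mono fun s h => map_congr h
    filter_upwards [key ⟨_, by simpa [In] using hv a ha, cP a (hv a ha)⟩, sub v hv] with s h1 h2
    rw [rc a (hv a ha), (fib s).cst (by simpa using h2 ha)] at h1
    simpa using h1.symm
  obtain ⟨p, p1, p2⟩ := rep prm (by simp [In]) ((fib ∅).of (by simp) (fib ∅).prm)
  have top : ∀ q, In l q → ∀ᶠ s in atTop, (N s).val q = (ev (lseq atTop (fun s => (N s).E) r
      (b + 1)) (b + 1) q.fst (node q.snd p)).map (Tr.map (r s)) := fun q hq => by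
    filter_upwards [L.los _ le_rfl q.fst (node q.snd p)
      ((in_node _ _ _).2 ⟨fun a ha => lB a (hq.snd a ha), p1⟩), rf _ hq.snd, p2] with s h1 h2 h3
    rw [(fib s).prm, Option.some.injEq] at h3
    rw [← h1, rB, map_node, h2, ← h3]; rfl
  refine ⟨⟨_, b, p, id⟩, LosPmSt.pm L (fun v _ x y h => ⟨h.2.2.1, h.2.2.2.1, h.2.1⟩)
    (.of_forall fun s => rB s ▸ pm s), ⟨p1, lB, fun q hq => ?_⟩, rfl, fun t ht => ?_⟩
  · obtain ⟨s, h1, h2⟩ := ((top q hq).and (sub q hq)).exists
    rw [(fib s).th q h2, h1, Option.isSome_map, Md.val, map_eq_self (f := id) fun _ _ => rfl]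
    rfl
  · obtain ⟨q, h1, h2⟩ := tt t ht
    refine ⟨q.fst, q.snd, h1.snd, ?_⟩
    have h3 := (h2.and (top q h1)).mono fun s h => h.1.symm.trans h.2
    obtain ⟨s0, h4⟩ := h3.exists
    obtain ⟨w, h5, -⟩ := Option.map_eq_some_iff.1 h4.symm
    have hw := ev_in h5
    have fin := (lv_finite w).union (lv_finite t)
    have hu : ∀ a ∈ w.lv ∪ t.lv, a < b + 1 := fun a ha => ha.elim (hw a) (ht a)
    have h7 : ∀ᶠ s in atTop, ∀ a ∈ w.lv ∪ t.lv, ∀ a' ∈ w.lv ∪ t.lv, a < a' → r s a < r s a' :=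
      (eventually_all_finite fin).2 fun a _ => (eventually_all_finite fin).2 fun a' ha' =>
        (em (a < a')).elim (fun e => (mono a a' e (hu a' ha').le).mono fun _ h _ => h)
          fun e => .of_forall fun s c => (e c).elim
    obtain ⟨s, h6, h7⟩ := (h3.and h7).exists
    have h8 : StrictMonoOn (r s) (w.lv ∪ t.lv) := fun a ha a' ha' e => h7 a ha a' ha' e
    rw [h5, Option.map_some, Option.some.injEq, eq_comm, map_inj h8.injOn] at h6
    exact h6 ▸ h5

end Pool.Agent.KM.End1
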