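import Pool.Agent.Lib.MP_5c0be7_lc.K.IterI
import Pool.Agent.Lib.MP_5c0be7_lc.K.II
import Pool.Agent.Lib.MP_5c0be7_lc.K.Loc
import Pool.Agent.Lib.MP_5c0be7_lc.F.TreeA
import Pool.Agent.Lib.MP_5c0be7_lc.P.Phx

/-!
Project KM, block T3: after a return to the first root, a tree is a tree on that root and its
ultrapower.
-/

set_option linter.unusedSectionVars false

namespace Pool.Agent.KM.Fold

open Ordinal Tr KE Set
open scoped Classical

universe u

variable {C : Cfg.{u}} {T U : IT.{u}} {E E' : Seq.{u}} {b c d g g' i j k l m p s t v : Ordinal.{u}}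
  {e : Ordinal.{u} → Ordinal.{u}}

theorem ii_zero (hC : C.be = 0) (h : II C g E b) : II C g' E b := by
  intro E0 b0 g0 q h1 h2 h3 h4 _
  obtain ⟨n, r, hR⟩ := h E0 b0 (b0 + 1) q h1 h2 h3 h4 fun x hx hx' => absurd (lt1 hx) hx'.not_gt
  exact ⟨n, r, hR.ok, hR.good, hR.top, fun _ _ _ => hC ▸ zero_le⟩

theorem good_right {E0 : Seq.{u}} (H : Agree E E' (e b + 1)) (h : Good E0 b E e) :
    Good E0 b E' e where
  toWeak := KL.weak_right H h.toWeak
  proj k hk := KL.rho_lt H (lt_add_one _) ▸ h.proj k hk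
  card k t h1 h2 h3 a h4 h5 := KL.rho_lt H (lt1 h5.le) ▸ h.card k t h1 h2 h3 a h4 h5
  inc k hk t n ht hn h1 w hw h2 :=
    (KN.anm H (w_in h.toWeak hn)).1 (h.inc k hk t n ht hn h1 w hw
      ((KN.anm H (w_in h.toWeak ht)).2 h2))

theorem ii_congr (H : Agree E E' (b + 1)) (h : II C g E b) : II C g E' b :=
  fun E0 b0 g0 q h1 h2 h3 h4 h5 =>
    h E0 b0 g0 q h1 h2 (good_right (h4 ▸ KL.ag_symm H) h3) h4 h5

/-- Roots that all map onto the top of one realisable premouse. -/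
theorem pii_same [HullSt.{u}] [CondSt.{u}] (hC : C.be = 0) (hE : PM0 E (b + 1)) (h : II C 0 E b)
    (hT : T.Phal) (f : Ordinal.{u} → Ordinal.{u} → Ordinal.{u})
    (hG : ∀ i ≤ T.n, Good (T.E i) (T.b i) E (f i)) (hb : ∀ i ≤ T.n, f i (T.b i) = b)
    (he : ∀ i j, i < j → j ≤ T.n → ∀ x < T.la i, f j x = f i x) : PII C g T := by
  intro T0 p g0 hp _
  have pn : ∀ i ≤ T0.n, p i ≤ T.n := fun i hi => hp.n ▸ hp.mono.monotone hi
  have a1 := fun i hi => IIp.emb_good (i := i) hp hi (hT.pm _ (pn i hi)).toPM0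
  have a2 : ∀ i ≤ T0.n, Good (T0.E i) (T0.b i) E (f (p i) ∘ p) := fun i hi =>
    good_comp (a1 i hi).2 ((a1 i hi).1 ▸ hG _ (pn i hi))
  have a3 : ∀ i ≤ T0.n, f (p i) (p (T0.b i)) = b := fun i hi => by
    rw [(a1 i hi).1, hb _ (pn i hi)]
  obtain ⟨E1, b1, q, k1, k2, k3, k4, k5, k6⟩ := IIp.exists_hull hE
    (A := ⋃ i ∈ Iic T0.n, (f (p i) ∘ p) '' Iic (T0.b i))
    ((IIp.ctb_Iic hp.cn).biUnion fun i hi => (IIp.ctb_Iic (hp.ctb i hi)).image _) (by
      simp only [iUnion_subset_iff]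
      rintro i hi _ ⟨x, hx, rfl⟩
      exact (le1 ((a2 i hi).maps x (lt1 hx))).trans (a3 i hi).le)
  have a4 := fun i (hi : i ≤ T0.n) => IIp.factor k1 k5 (a2 i hi) fun x hx =>
    k6 (mem_biUnion (show i ∈ Iic T0.n from hi) ⟨x, hx, rfl⟩)
  choose! w w1 w2 w3 using a4
  obtain ⟨n, r, hR⟩ := h E1 b1 0 q k2 k4 (KGoodSt.strong_good k4 (k3 ▸ hE) k5) k3
    fun _ _ _ => zero_le
  refine ⟨fun _ => n, fun i => r ∘ w i, IIp.same_root hp.phal (fun i hi => ?_)
    fun i j hij hj x hx => ?_⟩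
  · have t0 : w i (T0.b i) = b1 := k1.injective (by rw [w3 i hi _ le_rfl, k3]; exact a3 i hi)
    exact IIp.rz_pre (g1 := 0) (t0 ▸ hR) (w1 i hi) fun _ _ _ => zero_le
  · have hi := hij.trans_le hj
    refine congrArg r (k1.injective ?_)
    rw [w3 j hj x (hx.le.trans (hp.phal.le' i j hij hj)), w3 i hi.le x
      (hx.le.trans (hp.phal.le i hi))]
    exact he _ _ (hp.mono hij) (pn j hj) _ (hp.la i hi ▸ hp.mono hx)

/-- Above the exchange ordinal, two realisable roots are realised independently. -/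
theorem pii_free (hC : C.be = 0) (hT : (IT.two E b E' c l).Phal) (h : II C 0 E b)
    (h' : II C 0 E' c) : PII C l (IT.two E b E' c l) := by
  intro T0 p g0 hp hg
  have p0 : p 0 = 0 := hp.fin 0 omega0_pos
  have p1 : p 1 = 1 := hp.fin 1 one_lt_omega0
  have hn : T0.n = 1 := hp.mono.injective (hp.n.trans p1.symm)
  have H : ∀ i ≤ T0.n, ∃ n r, Rz C g0 (T0.E i) (T0.b i) n r := fun i hi => by
    have pn : p i ≤ (IT.two E b E' c l).n := hp.n ▸ hp.mono.monotone hi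
    obtain ⟨a1, a2⟩ := IIp.emb_good hp hi (hT.pm _ pn).toPM0
    have : II C 0 ((IT.two E b E' c l).E (p i)) ((IT.two E b E' c l).b (p i)) := by
      rcases Phx.le_one' (hn ▸ hi) with rfl | rfl
      · rwa [p0, IIp.two_E0, IIp.two_b0]
      · rwa [p1, IIp.two_E1, IIp.two_b1]
    exact this _ _ g0 p (hp.ctb i hi) (hp.phal.pm i hi).toPM0 a2 a1 fun _ _ _ => zero_le
  have : Inhabited Cn.{u} := ⟨⟨0, E, 0⟩⟩
  choose! n r hr using H
  refine ⟨n, r, hr, fun i j k t c hij hj h1 _ _ h2 => absurd h2 (not_lt.2 ?_)⟩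
  obtain ⟨rfl, -⟩ := Phx.pair01 hij (hn ▸ hj)
  have := hp.la 0 (hij.trans_le hj)
  rw [p0, IIp.two_la, ← hg] at this
  exact (hp.mono.injective this).le.trans h1

/-- The nodes up to `d` are replaced by the first root. -/
noncomputable def fold (U : IT.{u}) (d : Ordinal.{u}) : IT.{u} :=
  ⟨d + 1, fun i => if i ≤ d then Nd.root (U.E 0) (U.b 0) (U.ka d) else
    if i = d + 1 then { U.nd i with la := U.ka d } else U.nd i⟩

theorem n_eq : (fold U d).n = d + 1 := rfl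

theorem nd_hi (h : d < j) : (fold U d).nd (j + 1) = U.nd (j + 1) := by
  have h1 : ¬ j + 1 ≤ d := not_le.2 (lt1 h.le)
  have h2 : j + 1 ≠ d + 1 := (s1lt h).ne'
  simp only [fold, h1, h2, if_false]

theorem E_lo (h : i ≤ d) : (fold U d).E i = U.E 0 := by simp only [fold, IT.E, h, if_true, Nd.root]
theorem b_lo (h : i ≤ d) : (fold U d).b i = U.b 0 := by simp only [fold, IT.b, h, if_true, Nd.root]
theorem mp_lo (h : j ≤ d) : (fold U d).mp i j = id := by
  simp only [fold, IT.mp, h, if_true, Nd.root]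

theorem E_hi (h : d < i) : (fold U d).E i = U.E i := by
  simp only [fold, IT.E, h.not_ge, if_false]; split_ifs <;> rfl
theorem b_hi (h : d < i) : (fold U d).b i = U.b i := by
  simp only [fold, IT.b, h.not_ge, if_false]; split_ifs <;> rfl
theorem mp_hi (h : d < j) : (fold U d).mp i j = U.mp i j := by
  simp only [fold, IT.mp, h.not_ge, if_false]; split_ifs <;> rfl

theorem la_lo (h : i ≤ d) : (fold U d).la i = U.ka d := by
  simp only [fold, IT.la]
  split_ifs with h1 h2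
  · rfl
  · rfl
  · exact absurd (congrArg (· + 1) (le_antisymm h (le1 (not_le.1 h1)))) h2

theorem la_hi (h : d < j) : (fold U d).la j = U.la j := congrArg Nd.la (nd_hi h)
theorem pr_hi (h : d < j) : (fold U d).pr j = U.pr j := congrArg Nd.pr (nd_hi h)
theorem st_hi (h : d < j) : (fold U d).st j = U.st j := congrArg Nd.st (nd_hi h)
theorem ka_hi (h : d < j) : (fold U d).ka j = U.ka j := congrArg Nd.ka (nd_hi h)
theorem ta_hi (h : d < j) : (fold U d).ta j = U.ta j := congrArg Nd.ta (nd_hi h)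
theorem nu_hi (h : d < j) : (fold U d).nu j = U.nu j := congrArg Nd.nu (nd_hi h)
theorem e_hi (h : d < j) : (fold U d).e j = U.e j := congrArg Nd.e (nd_hi h)
theorem im_hi (h : d < j) : (fold U d).im j = U.im j := congrArg Nd.im (nd_hi h)

theorem E_ok (h : p = 0 ∨ d < p) : (fold U d).E p = U.E p := by
  rcases h with rfl | h
  exacts [E_lo zero_le, E_hi h]

theorem b_ok (h : p = 0 ∨ d < p) : (fold U d).b p = U.b p := by
  rcases h with rfl | h
  exacts [b_lo zero_le, b_hi h]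

theorem le_of (hn : U.n ≤ d) (h : U.Le i j) : (fold U d).Le i j :=
  ⟨h.1, fun k h1 h2 h3 => (h.2 k h1 h2 (hn.trans (IT.s_lt h3).le)).trans (pr_hi (IT.s_lt h3)).ge⟩

theorem le_to (hi : d < i) (h : (fold U d).Le i j) : U.Le i j :=
  ⟨h.1, fun k h1 h2 _ => pr_hi (hi.trans_le h1) ▸ h.2 k h1 h2 (IT.s_le (hi.trans_le h1))⟩

variable [TreeSt.{u}]

/-- The data of a return to the first root at step `d`. -/
structure Ret (U : IT.{u}) (d l : Ordinal.{u}) : Prop where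
  tr : U.IsTr l
  n : U.n ≤ d
  lt : d < l
  pr : U.pr d = 0
  nd : ¬ U.Drop d

theorem Ret.step (h : Ret U d l) : U.Step d := h.tr.step d h.n h.lt

theorem Ret.mono (h : Ret U d l) (h1 : d < j) (h2 : j ≤ l) : Ret U d j :=
  ⟨h.tr.mono (h.n.trans h1.le) h2, h.n, h1, h.pr, h.nd⟩

theorem Ret.pred_ok (h : Ret U d j) (hu : U.Use j v k t e) (hp : U.Pred j k t p s) :
    (p = 0 ∧ k < U.ka d) ∨ d < p := by
  refine (le_or_gt p d).imp_left fun h1 => ?_
  have h2 : k < U.ka d := TreeSt.al h.tr hu h.n h.lt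
    ((hp.lt (h1.trans_lt h.lt)).trans_le (TreeSt.la_mono h.tr h1 h.lt))
  refine ⟨by_contra fun h3 => ?_, h2⟩
  have h4 : 0 < p := pos_iff_ne_zero.2 h3
  have h5 := h.step.pred.lt (h.pr ▸ h4.trans_le h1)
  rw [h.pr] at h5
  exact absurd (h2.trans h5) (hp.min 0 h4).not_gt

theorem Ret.pr_ok (h : Ret U d l) (h1 : d < j) (h2 : j < l) : U.pr j = 0 ∨ d < U.pr j :=
  have hs := h.tr.step j (h.n.trans h1.le) h2
  ((h.mono h1 h2.le).pred_ok hs.use hs.pred).imp_left And.left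

theorem Ret.use (h : Ret U d j) (hu : U.Use j v k t e) : (fold U d).Use j v k t e where
  act := by rw [E_hi h.lt]; exact hu.act
  le := hu.le.trans (b_hi h.lt).ge
  inc i hi := by
    rcases le_or_gt i d with h1 | h1
    · rw [la_lo h1]; exact (Seg.ka_lt_la h.step).le.trans (hu.inc d h.lt)
    · rw [la_hi h1]; exact hu.inc i hi
  inc' i hi hn := by
    rw [la_hi (IT.s_lt hn)]; exact hu.inc' i hi (h.n.trans (IT.s_lt hn).le)

theorem Ret.pred (h : Ret U d j) (hu : U.Use j v k t e) (hp : U.Pred j k t p s) :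
    (fold U d).Pred j k t p s := by
  have h0 := h.pred_ok hu hp
  have h1 : p = 0 ∨ d < p := h0.imp_left And.left
  refine ⟨hp.le, fun h2 => ?_, fun i hi => ?_, hp.ta_le, hp.st_le.trans (b_ok h1).ge,
    by rw [E_ok h1]; exact hp.noproj, by rw [E_ok h1, b_ok h1]; exact hp.max⟩
  · rcases h0 with ⟨rfl, h0⟩ | h0
    · rwa [la_lo zero_le]
    · rw [la_hi h0]; exact hp.lt h2
  · rcases h0 with ⟨rfl, -⟩ | h0
    · exact absurd hi not_lt_zero
    rcases le_or_gt i d with h2 | h2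
    · rw [la_lo h2]; exact (Seg.ka_lt_la h.step).le.trans (hp.min d h0)
    · rw [la_hi h2]; exact hp.min i hi

theorem drop_iff (h1 : d < j) (h : U.pr j = 0 ∨ d < U.pr j) : (fold U d).Drop j ↔ U.Drop j := by
  rw [IT.Drop, IT.Drop, st_hi h1, pr_hi h1, b_ok h]

theorem nd_of (hn : U.n ≤ d) (H : ∀ k, d < k → k < j → U.pr k = 0 ∨ d < U.pr k) (hi : d < i)
    (hd : U.ND i j) : (fold U d).ND i j :=
  ⟨le_of hn hd.1, fun m h1 h2 => ⟨(IT.s_le hi).trans_lt h1, fun k hk =>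
    have h3 : d < k := hi.trans_le (IT.le_s (hk ▸ h1))
    (drop_iff h3 (H k h3 (IT.s_lt (hk ▸ h2.1)))).not.2
      ((hd.2 m h1 (le_to (hi.trans h1) h2)).2 k hk)⟩⟩

theorem nd_to (hn : U.n ≤ d) (H : ∀ k, d < k → k < j → U.pr k = 0 ∨ d < U.pr k) (hd' : d < j)
    (hd : (fold U d).ND i j) : U.ND i j ∧ (i = 0 ∨ d < i) := by
  have h0 : i = 0 ∨ d < i := by
    refine (le_or_gt i d).imp_left fun h1 => by_contra fun h2 => ?_
    refine absurd (hd.2 (d + 1) (lt1 h1) ⟨IT.s_le hd', fun k k1 k2 k3 => ?_⟩).1 (lt_irrefl _)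
    have k4 := hd.1.2 k (h1.trans (IT.s_lt k1).le) k2 k3
    rw [pr_hi (IT.s_lt k1)] at k4 ⊢
    refine IT.s_le ((H k (IT.s_lt k1) k2).resolve_left fun k5 => h2 ?_)
    exact le_antisymm (k5 ▸ k4) zero_le
  refine ⟨⟨?_, fun m h1 h2 => ?_⟩, h0⟩
  · rcases h0 with rfl | h0
    exacts [IT.le_zero, le_to h0 hd.1]
  · obtain ⟨h3, h4⟩ := hd.2 m h1 (le_of hn h2)
    refine ⟨hn.trans_lt ((lt_add_one d).trans h3), fun k hk => ?_⟩
    subst hk
    have h5 : d < k := IT.s_lt (IT.le_s h3)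
    exact (drop_iff h5 (H k h5 (IT.s_lt h2.1))).not.1 (h4 k rfl)

theorem Ret.nd_of (h : Ret U d l) (hj : j ≤ l) (hi : d < i) (hd : U.ND i j) : (fold U d).ND i j :=
  Fold.nd_of h.n (fun _ h1 h2 => h.pr_ok h1 (h2.trans_le hj)) hi hd

theorem Ret.nd_to (h : Ret U d l) (hj : j ≤ l) (hd' : d < j) (hd : (fold U d).ND i j) :
    U.ND i j ∧ (i = 0 ∨ d < i) :=
  Fold.nd_to h.n (fun _ h1 h2 => h.pr_ok h1 (h2.trans_le hj)) hd' hd

variable [ActSt.{u}]

theorem Ret.phal (h : Ret U d l) : (fold U d).Phal := by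
  have hs := h.step
  have ht := h.tr.mono h.n h.lt.le
  have h0 := TreeSt.pm h.tr (zero_le (a := l))
  have h1 : U.st d = U.b 0 := h.pr ▸ Seg.st_eq hs h.nd
  have h2 : U.ka d < U.b 0 := h1 ▸ Seg.ka_lt_st hs
  have h3 : IsCard (U.E 0) (U.b 0 + 1) (U.ka d) := fun a a1 a2 => by
    rcases lt_or_ge a (U.ta d) with a3 | a3
    · exact h.pr ▸ (TreeSt.pred_ext ht hs.use hs.pred).card a a1 a3
    · exact h.pr ▸ (hs.pred.noproj a a3 (h1 ▸ a2)).le
  have h4 : IsCard (U.E (d + 1)) (U.b (d + 1) + 1) (U.ka d) := fun a a1 a2 => by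
    rcases lt_or_ge a (U.nu d) with a3 | a3
    · exact KL.rho_lt hs.agree a3 ▸ TA.act_card hs.use.act a a1 a3
    · exact (Seg.ka_lt_la hs).le.trans (TreeSt.card h.tr (lt_add_one d) (IT.s_le h.lt) a
        ((Seg.la_lt_nu hs).le.trans a3) a2)
  have h5 : Agree (U.E 0) (U.E (d + 1)) (U.ka d) :=
    KL.ag_trans (KL.ag_mono (h.pr ▸ (TreeSt.pred_agree ht hs.use hs.pred).1) (Seg.ka_lt_ta hs).le)
      (KL.ag_mono (KL.ag_symm hs.agree) ((Seg.ka_lt_la hs).trans (Seg.la_lt_nu hs)).le)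
  have h6 : U.ka d ≤ U.b (d + 1) := (Seg.ka_lt_la hs).le.trans
    (TreeSt.la_le h.tr h.lt (lt_add_one d).le (IT.s_le h.lt))
  have cs : ∀ i ≤ d + 1, i ≤ d ∨ i = d + 1 := fun i hi => hi.lt_or_eq.imp_left le1
  refine ⟨fun i hi => ?_, fun i hi x hx => ?_, fun i j h7 h8 => ?_, fun i hi => ?_, fun i hi => ?_,
    fun i j h7 h8 => ?_, fun i j h7 h8 => ?_, fun i j h7 h8 => ?_⟩
  · rcases cs i hi with hi | rfl
    · rwa [E_lo hi, b_lo hi]
    · rw [E_hi (lt_add_one d), b_hi (lt_add_one d)]; exact hs.pm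
  · rcases cs i hi with hi | rfl
    · rw [mp_lo hi]; rfl
    · rw [mp_hi (lt_add_one d)]; exact hs.id x (b_hi (lt_add_one d) ▸ hx)
  · rw [la_lo (le1 h8), la_lo (le1 (h7.trans h8))]
  · rw [la_lo (le1 hi), b_lo (le1 hi)]; exact h2.le
  · rw [la_lo (le1 hi), E_lo (le1 hi)]; exact TA.pas_of_card h0.toPM0 h2 h3
  · rw [la_lo (le1 (h7.trans_le h8)), E_lo (le1 (h7.trans_le h8))]
    rcases cs j h8 with hj | rfl
    · rw [E_lo hj]; exact fun _ _ => rfl
    · rwa [E_hi (lt_add_one d)]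
  · rw [la_lo (le1 (h7.trans_le h8))]
    rcases cs j h8 with hj | rfl
    · rw [b_lo hj]; exact h2.le
    · rwa [b_hi (lt_add_one d)]
  · rw [la_lo (le1 (h7.trans_le h8))]
    rcases cs j h8 with hj | rfl
    · rwa [E_lo hj, b_lo hj]
    · rwa [E_hi (lt_add_one d), b_hi (lt_add_one d)]

variable [KTreeSt.{u}]

theorem Ret.isTr (h : Ret U d l) : (fold U d).IsTr l := by
  refine ⟨h.phal, IT.s_le h.lt, fun j j1 j2 => ?_, fun c c1 c2 c3 => ?_⟩
  · have j0 : d < j := IT.s_lt j1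
    have j3 : d < j + 1 := lt1 j0.le
    have hs := h.tr.step j (h.n.trans j0.le) j2
    have hj := h.mono j0 j2.le
    have hp := h.pr_ok j0 j2
    refine ⟨?_, ?_, ?_, ?_, ?_, ?_, ?_, ?_, ?_, ?_, fun i hi hd x hx => ?_⟩ <;>
      simp only [nu_hi j0, ka_hi j0, ta_hi j0, e_hi j0, la_hi j0, pr_hi j0, st_hi j0, im_hi j0,
        E_hi j3, b_hi j3, mp_hi j3, E_hi j0, E_ok hp]
    · exact hj.use hs.use
    · exact hs.la
    · exact hj.pred hs.use hs.pred
    · exact hs.ult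
    · exact hs.b
    · exact hs.ext
    · exact hs.top
    · exact hs.agree
    · exact hs.pm
    · exact hs.id
    · obtain ⟨h1, h2⟩ := h.nd_to (IT.s_le j2) j3 hd
      rw [b_ok h2] at hx
      rw [hs.mp i hi h1 x hx]
      rcases hp with hp | hp
      · have : i = 0 := le_antisymm (hp ▸ h1.1.2 j hi (lt_add_one j) (h.n.trans j0.le)) zero_le
        subst this
        rw [hp, mp_lo zero_le, h.tr.phal.id 0 zero_le x hx]; rfl
      · rw [mp_hi hp]
  · have c0 : d < c := (lt_add_one d).trans c1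
    have c4 : U.n < c := h.n.trans_lt c0
    have hL := h.tr.lim c c4 c2 c3
    refine IT.Lim.intro ?_ ?_ ?_ (fun i hi hd => ?_) (fun i j hij hj hi hd x hx => ?_)
      fun y hy => ?_
    · obtain ⟨m, m1, m2, m3⟩ := Real.exists_nd h.tr c4 c2 c3 c0
      exact ⟨m, m2, h.nd_of c2 m1 m3⟩
    · rw [E_hi c0, b_hi c0]; exact hL.pm
    · rw [mp_hi c0, b_hi c0]; exact hL.id
    · obtain ⟨h1, h2⟩ := h.nd_to c2 c0 hd
      rw [E_hi c0, b_hi c0, mp_hi c0, E_ok h2, b_ok h2]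
      exact hL.strong hi h1
    · obtain ⟨h1, h2⟩ := h.nd_to c2 c0 hi
      obtain ⟨h3, h4⟩ := h.nd_to c2 c0 hd
      rw [b_ok h2] at hx
      rw [mp_hi c0, mp_hi c0, ← hL.comm hij hj h1 h3 x hx]
      rcases h4 with rfl | h4
      · obtain rfl : i = 0 := le_antisymm hij zero_le
        rw [mp_lo zero_le, h.tr.phal.id 0 zero_le x hx]; rfl
      · rw [mp_hi h4]
    · rw [b_hi c0] at hy
      obtain ⟨i, i1, i2, x, x1, rfl⟩ := hL.onto hy
      obtain ⟨m, m1, m2, m3⟩ := Real.exists_nd h.tr c4 c2 c3 (max_lt i1 c0)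
      have m4 := (le_max_left i d).trans m1.le
      have m5 := (le_max_right i d).trans_lt m1
      refine ⟨m, m2, h.nd_of c2 m5 m3, U.mp i m x, ?_, ?_⟩
      · rw [b_hi m5]
        exact le1 ((TreeSt.strong h.tr (m2.le.trans c2) (i2.cut m4 m3.1)).maps x (lt1 x1))
      · rw [mp_hi c0]; exact hL.comm m4 m2 i2 m3 x x1

/-- If the ultrapower of the first root is realisable, so is the folded phalanx. -/
theorem Ret.pii [HullSt.{u}] [CondSt.{u}] (h : Ret U d l) (hC : C.be = 0)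
    (hI : II C 0 (U.E (d + 1)) (U.b (d + 1))) : PII C g (fold U d) := by
  have hs := h.step
  have h1 : U.st d = U.b 0 := h.pr ▸ Seg.st_eq hs h.nd
  have cs : ∀ i ≤ d + 1, i ≤ d ∨ i = d + 1 := fun i hi => hi.lt_or_eq.imp_left le1
  have nd : ¬ d + 1 ≤ d := (lt_add_one d).not_ge
  refine pii_same hC hs.pm.toPM0 hI h.phal (fun i => if i ≤ d then U.im d else id)
    (fun i hi => ?_) (fun i hi => ?_) fun i j h7 h8 x hx => ?_
  · rcases cs i hi with hi | rfl
    · rw [if_pos hi, E_lo hi, b_lo hi, ← h1, ← h.pr]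
      exact KGoodSt.strong_good hs.ult.pm hs.ult.pm' hs.ult.toStrong
    · rw [if_neg nd, E_hi (lt_add_one d), b_hi (lt_add_one d)]
      exact KGoodSt.strong_good hs.pm.toPM0 hs.pm.toPM0 strong_id
  · rcases cs i hi with hi | rfl
    · rw [if_pos hi, b_lo hi, ← h1, hs.b]
    · rw [if_neg nd, b_hi (lt_add_one d)]; rfl
  · have hi : i ≤ d := le1 (h7.trans_le h8)
    rw [la_lo hi] at hx
    simp only [if_pos hi]
    split_ifs
    · rfl
    · exact (TA.im_fix hs hx).symm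

end Pool.Agent.KM.Fold
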