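import Pool.Agent.Lib.MP_5c0be7_lc.T.StCov
import Pool.Agent.Lib.MP_5c0be7_lc.T.Hx0
import Pool.Agent.Lib.MP_5c0be7_lc.T.Hull
import Pool.Agent.Lib.MP_5c0be7_lc.K.II

/-!
Project KM, block T2: existence of the countably closed hull.
-/

namespace Pool.Agent.KM

open Ordinal Cardinal Tr Set Filter

universe u

namespace HullXI

variable {W E1 Eb : Seq.{u}} {th b1 bb tau : Ordinal.{u}} {q r pi : Ordinal.{u} → Ordinal.{u}}

/-- The three predicates whose types are realised in the hull. -/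
def ty (W : Seq.{u}) (th : Ordinal.{u}) (i : ULift.{u + 1} ℕ) (x : Tr.{u}) : Prop :=
  if i.down = 0 then x.fst.lab < x.snd.lab
  else if i.down = 1 then opt (ev W x.fst.lab x.snd.fst x.snd.snd.fst) = x.snd.snd.snd
  else opt (ev W (th + 1) x.fst x.snd.fst) = x.snd.snd

theorem opt_inj {a b : Option Tr.{u}} (h : opt a = opt b) : a = b := by
  rw [← unopt_opt a, h, unopt_opt]

theorem lv_opt {o : Option Tr.{u}} {Z : Set Ordinal.{u}} (h : ∀ v, o = some v → v.lv ⊆ Z) :
    (opt o).lv ⊆ Z := by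
  cases o with
  | none => simp
  | some v => simpa using h v rfl

/-- A strong map followed by a type preserving map is strong. -/
theorem strong (h : Strong E1 (b1 + 1) W (th + 1) q) (h1 : ∀ x ≤ b1, r (q x) ≤ th)
    (h2 : r th = th)
    (h3 : ∀ i, ∀ x : Tr.{u}, x.lv ⊆ q '' Iic b1 → (ty W th i x ↔ ty W th i (x.map r))) :
    Strong E1 (b1 + 1) W (th + 1) (r ∘ q) := by
  have lv : ∀ x : Tr.{u}, In (b1 + 1) x → (x.map q).lv ⊆ q '' Iic b1 := fun x hx => by
    rw [lv_map]; exact image_mono fun a ha => KE.le1 (hx a ha)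
  have lo : ∀ a ≤ b1 + 1, ∀ c x, (opt ((ev E1 a c x).map (Tr.map q))).lv ⊆ q '' Iic b1 :=
    fun a ha c x => lv_opt fun v hv => by
      obtain ⟨w, hw, rfl⟩ := Option.map_eq_some_iff.1 hv
      exact lv w ((ev_in hw).mono ha)
  refine ⟨⟨fun x hx y hy hxy => ?_, fun a ha => KE.lt1 (h1 a (KE.le1 ha)), fun b hb => ?_,
    fun a ha c x hx => ?_⟩, fun c x hx => ?_⟩
  · have := (h3 ⟨0⟩ (node (leaf (q x)) (leaf (q y))) (by
      simp only [lv_node, lv_leaf, union_subset_iff, singleton_subset_iff]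
      exact ⟨⟨x, KE.le1 hx, rfl⟩, y, KE.le1 hy, rfl⟩)).1 (by simpa [ty] using h.mono hx hy hxy)
    simpa [ty] using this
  · obtain rfl := KE.s1inj hb
    simp only [Function.comp, TB.top_eq h.toWeak, h2]
  · have := (h3 ⟨1⟩ (node (leaf (q a)) (node c.erase (node (x.map q)
      (opt ((ev E1 a c x).map (Tr.map q)))))) (by
        simp only [lv_node, lv_leaf, union_subset_iff, singleton_subset_iff, lv_erase]
        exact ⟨⟨a, KE.le1 ha, rfl⟩, empty_subset _, lv x (hx.mono ha.le), lo a ha.le c x⟩)).1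
      (by simp [ty, h.comm a ha c x hx])
    simp only [ty, map_node, map_leaf, fst_node, snd_node, lab_leaf, KN.ev_cmap, ev_erase,
      map_opt, KN.mm, Option.map_map] at this
    rw [if_neg (by simp), if_pos trivial] at this
    rw [Function.comp_apply, opt_inj this]
    congr 1
    funext y
    exact KN.mm y
  · have := (h3 ⟨2⟩ (node c.erase (node (x.map q)
      (opt ((ev E1 (b1 + 1) c x).map (Tr.map q))))) (by
        simp only [lv_node, union_subset_iff, lv_erase]
        exact ⟨empty_subset _, lv x hx, lo _ le_rfl c x⟩)).1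
      (by simp [ty, h.commTop c x hx])
    simp only [ty, map_node, fst_node, snd_node, KN.ev_cmap, ev_erase,
      map_opt, KN.mm, Option.map_map] at this
    rw [if_neg (by simp), if_neg (by simp)] at this
    rw [opt_inj this]
    congr 1
    funext y
    exact KN.mm y

/-- The size of the hull. -/
theorem size {lam : Cardinal.{u}} (h0 : ℵ₀ < lam) (h1 : lam.IsStrongLimit)
    (h2 : lam.ord.cof = ℵ₀) (ht : tau < (Order.succ lam).ord) :
    ∃ O : Cardinal.{u}, Reg O ∧ ℵ₁ < O ∧ O < lam ∧ tau.cof < O := by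
  have hl := h1.isSuccLimit
  have a1 : tau.cof < lam := by
    refine lt_of_le_of_ne ((cof_le_card tau).trans (Order.le_of_lt_succ (lt_ord.1 ht))) fun e => ?_
    have := cof_ord_cof tau
    rw [e, h2] at this
    exact h0.ne this
  have a2 : ℵ₁ < lam := by rw [← succ_aleph0]; exact hl.succ_lt h0
  have a3 : ℵ₀ ≤ max tau.cof ℵ₁ := aleph0_lt_aleph_one.le.trans (le_max_right _ _)
  have a4 := cantor (max tau.cof ℵ₁)
  refine ⟨Order.succ (2 ^ max tau.cof ℵ₁), Reg.succ (a3.trans a4.le) ?_,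
    Order.lt_succ_of_le ((le_max_right _ _).trans a4.le),
    hl.succ_lt (h1.isStrongPrelimit (max_lt a1 a2)),
    Order.lt_succ_of_le ((le_max_left _ _).trans a4.le)⟩
  rw [← power_mul, mul_eq_left a3 a3 aleph0_ne_zero]

theorem hull [CondSt.{u}] [TypeSt.{u}] [AccSt.{u}] {V : Env.{u}} (H : V.Ok)
    (hn : IsNext V.W (V.th + 1) V.lam.ord tau) (ht : tau < V.P.t.ord) :
    ∃ Eb bb pi lb tb, Hx V Eb bb pi lb tb := by
  obtain ⟨O, hO, o1, o2, o3⟩ := size H.unc H.sl H.cf (H.t ▸ ht)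
  have G := H.good
  have t1 : tau < V.th := (ht.trans V.P.t_ord_lt).trans G.lt
  have t2 : tau < V.th + 1 := KE.lt1 t1.le
  have t3 : O.ord < V.lam.ord := ord_lt_ord.2 o2
  have t4 : V.lam.ord < V.th + 1 := hn.1.trans t2
  have t5 : ω₁ < O.ord := by rw [← ord_aleph 1]; exact ord_lt_ord.2 o1
  have t6 := AccSt.next_lim _ _ _ _ G.pm.ls hn t2
  obtain ⟨X, e, ⟨hl, ⟨sm, sub, -⟩, m1, m2, m3, un, ty'⟩, cut, -⟩ :=
    ex_cof hO isRegular_aleph_one aleph0_lt_aleph_one o1 (t3.trans t4).le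
      ((ae_hl hO V.W (lt_add_one V.th)).and ((ae_basic hO).and ((ae_mem hO t4).and
      ((ae_mem hO t2).and ((ae_mem hO (t5.trans (t3.trans t4))).and
      ((ae_unb hO t2.le t6.isSuccPrelimit o3).and (TypeSt.ae hO (I := ULift.{u + 1} ℕ)
        (mk_le_aleph0.trans_lt hO.lift.unc) (ty V.W V.th))))))))
  obtain ⟨p0, st, p1⟩ := hl.pull (lt_add_one V.th) G.pm.toPM0
  have b1 : col (V.th + 1) X V.th < O.ord :=
    col_lt_ord (lt_add_one _).le (sm.mono inter_subset_left)
  have w1 : unc (V.th + 1) X ω₁ = ω₁ := cut.unc_fix ((cut.2 _ t5).1 m3)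
  have lt : col (V.th + 1) X tau < col (V.th + 1) X V.th := (col_lt_col_iff m2).2 t1
  have ns : ¬ Suc (col (V.th + 1) X V.th) := TB.not_suc_down st.toWeak (lt_add_one _)
    (by rw [unc_col hl.mem]; exact G.toTall.not_suc)
  have mem : ∀ y ≤ col (V.th + 1) X V.th, unc (V.th + 1) X y ∈ X := fun y hy =>
    unc_mem_le hl.mem (lt_add_one _) hy
  refine ⟨_, _, _, col (V.th + 1) X V.lam.ord, col (V.th + 1) X tau,
    p1 G.pm, unc_strictMono, st, b1.trans t3, w1, lt_col_iff.2 ?_, unc_col m1, ?_, lt, ?_, ?_,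
    fun x hx => ?_, ?_⟩
  · rw [w1]; exact t5.trans t3
  · refine (Hx0.next_iff p0 G.pm.toPM0 st ns lt (col_mono (KE.le1 t4))).1 ?_
    rwa [unc_col m1, unc_col m2]
  · intro y hy
    rw [unc_col m2] at hy
    obtain ⟨x, x1, x2, x3⟩ := un y hy
    exact ⟨col (V.th + 1) X x, (col_lt_col_iff x1).2 x3, by rwa [unc_col x1]⟩
  · intro t ht hc y hy
    obtain ⟨s, -, s1, s2⟩ := exists_cof_seq t
    rw [hc, ord_aleph0] at s1 s2
    have hl' : Order.IsSuccLimit t := limit_of_cof hc.ge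
    by_contra hn'
    push Not at hn'
    have y1 : y < V.th + 1 := hy.trans (sub (mem t ht))
    obtain ⟨r, r1, r2, r3⟩ := ty' (insert y (unc (V.th + 1) X '' insert t (s '' Iio ω)))
      (((((IIp.ctb_Iic omega0_lt_omega_one).mono Iio_subset_Iic_self).image _).insert _).image
        _ |>.insert _) (by
        rintro z (rfl | ⟨x, rfl | ⟨i, hi, rfl⟩, rfl⟩)
        · exact y1
        · exact sub (mem _ ht)
        · exact sub (mem _ ((s1 i hi).le.trans ht))) univ countable_univ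
    have f : ∀ x ∈ insert t (s '' Iio ω), x ≤ t → r (unc (V.th + 1) X x) = unc (V.th + 1) X x :=
      fun x hx hx' => r2 _ (Or.inr ⟨x, hx, rfl⟩) (mem x (hx'.trans ht))
    have a1 := (r3 ⟨0⟩ trivial (node (leaf y) (leaf (unc (V.th + 1) X t))) (by
      simp only [lv_node, lv_leaf, union_subset_iff, singleton_subset_iff]
      exact ⟨Or.inl rfl, Or.inr ⟨t, Or.inl rfl, rfl⟩⟩)).1 (by simpa [ty] using hy)
    simp only [ty, map_node, map_leaf, fst_node, snd_node, lab_leaf, if_true,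
      f t (Or.inl rfl) le_rfl] at a1
    have a2 : col (V.th + 1) X (r y) < t := by
      rw [← unc_strictMono.lt_iff_lt (f := unc (V.th + 1) X), unc_col (r1 y (Or.inl rfl))]
      exact a1
    obtain ⟨i, hi, a3⟩ := s2 _ (hl'.add_one_lt a2)
    have a4 := (r3 ⟨0⟩ trivial (node (leaf y) (leaf (unc (V.th + 1) X (s i)))) (by
      simp only [lv_node, lv_leaf, union_subset_iff, singleton_subset_iff]
      exact ⟨Or.inl rfl, Or.inr ⟨s i, Or.inr ⟨i, hi, rfl⟩, rfl⟩⟩)).2 (by
      simp only [ty, map_node, map_leaf, fst_node, snd_node, lab_leaf, if_true,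
        f (s i) (Or.inr ⟨i, hi, rfl⟩) (s1 i hi).le]
      rw [← unc_col (th := V.th + 1) (r1 y (Or.inl rfl))]
      exact unc_strictMono (IT.s_lt a3))
    exact (hn' _ (s1 i hi)).not_gt (by simpa [ty] using a4)
  · rcases lt_or_ge x e with h | h
    · exact Or.inl (cut.unc_fix h)
    · exact Or.inr (b1.trans_le ((cut.le_unc (t3.trans t4).le).trans (unc_strictMono.monotone h)))
  · intro E1 c q hc hq
    obtain ⟨r, r1, r2, r3⟩ := ty' (q '' Iic c) ((IIp.ctb_Iic hc).image _)
      (image_subset_iff.2 fun x hx => hq.maps x (KE.lt1 hx)) univ countable_univ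
    have r4 : ∀ x ≤ c, r (q x) ∈ X := fun x hx => r1 _ ⟨x, hx, rfl⟩
    have e1 : q c = V.th := TB.top_eq hq.toWeak
    have r5 : r V.th = V.th := r2 _ ⟨c, mem_Iic.2 le_rfl, e1⟩ hl.mem
    have s1 := strong hq (fun x hx => KE.le1 (sub (r4 x hx))) r5 fun i => r3 i trivial
    refine ⟨col (V.th + 1) X ∘ r ∘ q, KE.strong_cancel st
      (KN.strong_congr s1 fun x hx => (unc_col (r4 x (KE.le1 hx))).symm)
      (fun a ha => KE.lt1 (col_mono (KE.le1 (sub (r4 a (KE.le1 ha)))))) fun b hb => ?_,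
      fun x hx y hy e => ?_⟩
    · obtain rfl := KE.s1inj hb
      simp only [Function.comp, e1, r5]
    · show col _ X (r (q x)) = y
      rw [r2 _ ⟨x, hx, rfl⟩ (e ▸ mem y hy), e, col_unc]

end HullXI

instance [CondSt.{u}] [TypeSt.{u}] [AccSt.{u}] : HullXSt.{u} :=
  ⟨fun H hn ht => HullXI.hull H hn ht⟩

end Pool.Agent.KM
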