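import Pool.Agent.Lib.MP_5c0be7_lc.T.StCov
import Pool.Agent.Lib.MP_5c0be7_lc.T.Tame

/-!
Project KM, block T3: the induction step of the covering argument.
-/

namespace Pool.Agent.KM

open Ordinal Cardinal Tr Set

universe u

namespace IndI

theorem ult_right {E E' E1 : Seq.{u}} {b k : Ordinal.{u}} {i : Ordinal.{u} → Ordinal.{u}}
    (H : Agree E' E1 (i b + 1)) (h : IsUlt E b k E' i) : IsUlt E b k E1 i where
  toStrong := KL.strong_right H h.toStrong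
  pm := h.pm
  pm' := KL.pm0_ag H h.pm'
  inf := h.inf
  lt := h.lt
  inc := fun t n ht hn h1 v hv h2 =>
    (KN.anm H (KN.in_map' h.maps hn)).1
      (h.inc t n ht hn h1 v hv ((KN.anm H (KN.in_map' h.maps ht)).2 h2))
  gen := fun y hy =>
    let ⟨f, a, h1, h2, h3⟩ := h.gen y hy
    ⟨f, a, h1, h2, KN.afv H (KN.in_map' h.maps h1) ▸ h3⟩

variable [BSt.{u}] [CovBSt.{u}] [UStepSt.{u}] [ChainSt.{u}] [LiftCSt.{u}] [SndSt.{u}] [WslSt.{u}]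
  [RetSt.{u}]

theorem step {S : Cov.{u}} {m t : Ordinal.{u}} (hS : S.Ok) (nx : S.Nx m t) (ib : S.IB m) :
    S.I m t := by
  refine ⟨CovBSt.pm hS nx (UStepSt.step hS nx ib), fun E b hU => ?_⟩
  by_cases h : S.pi t = t
  · exact Or.inl ⟨h, CovBSt.triv hS hU h⟩
  refine Or.inr ⟨lt_of_le_of_ne hS.hx.mono.le_apply (Ne.symm h), ?_⟩
  obtain ⟨F, g, L, ii, cd⟩ := LiftCSt.lift hS hU
  obtain ⟨q, ks⟩ | ⟨a, p, nd, -⟩ := SndSt.snd hS hU ib L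
  swap
  · exact absurd (WslSt.wsl hS nx p nd) h
  obtain ⟨-, -, tb, -⟩ := ChainSt.basic hS hU
  obtain ⟨-, -, -, -, -, -, h1, h2, -⟩ := CovBSt.nx hS nx
  have mt := nx.next.1
  have h3 : S.pi m < g t := L.ext m mt ▸
    (KE.w_lt L.ult.toWeak (KE.lt1 (mt.le.trans tb)) (KE.lt1 tb)).2 mt
  have h4 : g t ≤ g b := (KE.w_le L.ult.toWeak (KE.lt1 tb) (lt_add_one b)).2 tb
  obtain ⟨h5, h6⟩ := BSt.seg hS.env h1 h2 L.pm ii ks (h3.le.trans h4)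
    (KL.ag_mono L.ag (Order.add_one_le_iff.2 h3)) cd (RetSt.ret hS hU ib L)
  exact ⟨g, ⟨ult_right h6 L.ult, L.ext, L.cts, fun _ _ => rfl,
    KE.pm_mono hS.env.good.pm (add_le_add_left h5.le 1)⟩, h5,
    KL.rho_suc h6 ▸ DiagSt.gen_rho _ _ _ _ ks.gen⟩

end IndI

instance [BSt.{u}] [CovBSt.{u}] [UStepSt.{u}] [ChainSt.{u}] [LiftCSt.{u}] [SndSt.{u}] [WslSt.{u}]
    [RetSt.{u}] : IndSt.{u} := ⟨IndI.step⟩

end Pool.Agent.KM
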