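import Pool.Agent.Lib.MP_5c0be7_lc.T.QDec

/-!
Project KM, block T3: the hull embeds in a level of the last model of an extension of the tree.
-/

namespace Pool.Agent.KM

open Ordinal Tr Set KE KL

universe u

variable [TreeSt.{u}] [CmpSt.{u}] [BrSt.{u}] [KeySt.{u}] [KIISt.{u}] [KIterSt.{u}] [WinSt.{u}]
  [CutSt.{u}] [CompatSt.{u}] [SizeSt.{u}] [CovBSt.{u}] [ChainSt.{u}] [UnfUseSt.{u}] [KGoodSt.{u}]
  [HullSt.{u}] [CondSt.{u}] [ActSt.{u}]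

theorem KMainI.main {S : Cov.{u}} {k n m t a c : Ordinal.{u}} (ok : S.Ok) (nk : S.Nx k n)
    (nx : S.Nx m t) (hk : k < m) (ib : S.IB m) (pm : S.Pm m t a c) :
    ∃ (R : IT.{u}) (l e : Ordinal.{u}) (f : Ordinal.{u} → Ordinal.{u}),
      S.T.EqLt R (a + 1) ∧ a ≤ l ∧ R.IsTr l ∧ R.Normal l ∧
      (∀ j, a ≤ j → j < l → t < R.nu j ∧ R.nu j ≤ e ∧ n ≤ R.la j) ∧ e ≤ R.b l ∧
      Strong S.Eb (S.bb + 1) (R.E l) (e + 1) f ∧ (∀ x < n, f x = x) ∧ IsCard (R.E l) (e + 1) n := by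
  have nm : n ≤ m := QPhI.next_le nk.next nx.card hk
  have tb : t ≤ S.bb := (CovBSt.nx ok nx).1.trans ok.hx.lt.le
  have mt := nx.next.1
  obtain ⟨F, H⟩ := QPhI.ex ok (QPhI.fix ok) (nm.trans nx.le) (CovBSt.nx ok nk).2.2.2.2.2.1
    (fun m' t' n' h' => ib m' t' n' (h'.trans_le nm)) ((nm.trans mt.le).trans tb) le_rfl
  obtain ⟨R, l, V, r, D⟩ := Dec.dec (QPhI.decIn ok H (nm.trans nx.le) le_rfl pm.le
    (fun m' t' a' c' h' n' p' => CovBSt.pm_mono ok n' nx (h'.le.trans nm) p' pm)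
    (lt1 (nm.trans mt.le)) pm.ag fun i hi => ⟨lt1 (pm.lo i hi).2, (pm.lo i hi).2.trans tb⟩)
  obtain ⟨i, hi, e⟩ := H.all k n nk nk.next.1
  have e' : V.la i = n := (D.eV.la (s1lt hi)).trans e
  have ag : Agree (V.E r) (R.E l) (V.b r + 1) := by
    have := ag_symm D.co.agree
    rwa [min_eq_right D.b] at this
  have nr : F.n ≤ r := D.eV.n ▸ D.co.tr'.le
  have st := TreeSt.strong D.co.tr' le_rfl D.nd
  rw [D.eV.E (lt_add_one _), D.eV.b (lt_add_one _), H.E, H.b] at st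
  have cd : IsCard (R.E l) (V.b r + 1) n :=
    card_ag ag (e' ▸ TreeSt.card D.co.tr' (hi.trans_le nr) le_rfl)
  have n0 : R.n = 0 := D.eR.n.trans ok.eqT.n
  refine ⟨R, l, V.b r, V.mp F.n r, D.eR, D.le, D.co.tr, D.co.nor, fun j j1 j2 => ?_, D.b,
    strong_right ag st, fun x hx => TreeSt.fix D.co.tr' le_rfl D.nd hi x (e' ▸ hx), cd⟩
  have j0 : R.n ≤ j := n0 ▸ zero_le
  have h1 : t < R.nu j := IT.s_lt (D.nuR j j1 j2)
  have h2 := D.co.le j j0 j2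
  have St := D.co.tr.step j j0 j2
  obtain ⟨y, y1, y2, y3⟩ := ActSt.top
    ((TreeSt.pm D.co.tr j2.le).ls.mono (St.use.le.trans le_self_add)) St.use.act n
    ((nm.trans mt.le).trans_lt h1)
  rw [rho_lt (TreeSt.nu_agree D.co.tr D.co.nor j0 j2 le_rfl).1 y2, ← St.la] at y3
  exact ⟨h1, h2, (cd y y1 (lt1 (y2.le.trans h2))).trans y3⟩

instance : KMainSt.{u} := ⟨KMainI.main⟩

end Pool.Agent.KM
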