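import Pool.Agent.Lib.MP_5c0be7_lc.K.II

/-!
Project KM, block T3: a phalanx whose roots have good maps into levels of one realisable premouse
is realisable.
-/

namespace Pool.Agent.KM.LevII

open Ordinal Tr KE _root_.Pool.Agent.KM.Real Set IIp

universe u

variable {C : Cfg.{u}} {T : IT.{u}} {N : Seq.{u}} {B g g' : Ordinal.{u}}
  {s : Ordinal.{u} → Ordinal.{u} → Ordinal.{u}} [HullSt.{u}] [CondSt.{u}]

/-- The roots map into levels of `(N, B + 1)`; the maps agree below the exchange ordinals, and the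
level that receives root `j` sees all subsets of the images of these ordinals. -/
theorem pii (hN : PM0 N (B + 1)) (h : II C g' N B) (hT : T.Phal)
    (hG : ∀ i ≤ T.n, Good (T.E i) (T.b i) N (s i)) (hb : ∀ i ≤ T.n, s i (T.b i) ≤ B)
    (hg : ∀ i ≤ T.n, g ≤ T.b i) (hg' : ∀ i ≤ T.n, ∀ x ≤ T.b i, g ≤ x → g' ≤ s i x)
    (he : ∀ i j, i < j → j ≤ T.n → ∀ x < T.la i, s j x = s i x)
    (hp : ∀ i j, i < j → j ≤ T.n → ∀ x < T.la i, NoProj N (s j x) (s j (T.b j) + 1) (B + 1)) :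
    PII C g T := by
  intro T0 p g0 H hg0
  have hn : ∀ i ≤ T0.n, p i ≤ T.n := fun i hi => H.n ▸ H.mono.monotone hi
  have a := fun i (hi : i ≤ T0.n) => emb_good H hi (hT.pm _ (hn i hi)).toPM0
  have c : ∀ i ≤ T0.n, Good (T0.E i) (T0.b i) N (s (p i) ∘ p) := fun i hi =>
    good_comp (a i hi).2 ((a i hi).1 ▸ hG _ (hn i hi))
  obtain ⟨E1, b1, q, k1, k2, k3, k4, k5, k6⟩ := exists_hull hN
    (A := ⋃ i ∈ Iic T0.n, (s (p i) ∘ p) '' Iic (T0.b i))
    ((ctb_Iic H.cn).biUnion fun i hi => (ctb_Iic (H.ctb i hi)).image _) (by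
      intro y hy
      simp only [mem_iUnion] at hy
      obtain ⟨i, hi, x, hx, rfl⟩ := hy
      refine (le1 ((c i hi).maps x (lt1 hx))).trans ?_
      rw [Function.comp_apply, (a i hi).1]
      exact hb _ (hn i hi))
  obtain ⟨g1, hg1⟩ := exists_base k1 g'
  choose! f f1 f2 f3 using fun i (hi : i ≤ T0.n) => factor k1 k5 (c i hi)
    fun x hx => k6 (mem_biUnion (t := fun i => (s (p i) ∘ p) '' Iic (T0.b i)) hi ⟨x, hx, rfl⟩)
  obtain ⟨n, r, hR⟩ := h E1 b1 g1 q k2 k4 (KGoodSt.strong_good k4 (k3 ▸ hN) k5) k3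
    fun x _ => (hg1 x).1
  have fle : ∀ i ≤ T0.n, ∀ x ≤ T0.b i, f i x ≤ b1 := fun i hi x hx =>
    (le1 ((f1 i hi).maps x (lt1 hx))).trans (f2 i hi)
  have la : ∀ i < T0.n, ∀ x < T0.la i, p x < T.la (p i) := fun i hi x hx =>
    H.la i hi ▸ H.mono hx
  refine ⟨_, _, level_root (s := fun i => r ∘ f i) H.phal hR.ok
    (fun i hi => good_comp (f1 i hi) (good_restrict k4 (rz_pm hR) hR.good (f2 i hi)))
    (fun i hi => rz_le (c := f i (T0.b i)) hR (f2 i hi))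
    (fun i hi => H.mono.le_iff_le.1 ?_)
    (fun i hi x hx hx' => hR.base _ (fle i hi x hx) ((hg1 _).2 ?_))
    (fun i j hij hj x hx => congrArg r (k1.injective ?_)) fun i j hij hj x hx => ?_⟩
  · rw [hg0, (a i hi).1]
    exact hg _ (hn i hi)
  · rw [f3 i hi x hx]
    exact hg' _ (hn i hi) _ ((a i hi).1 ▸ H.mono.monotone hx) (hg0 ▸ H.mono.monotone hx')
  · rw [f3 j hj x (hx.le.trans (H.phal.le' i j hij hj)),
      f3 i (hij.le.trans hj) x (hx.le.trans (H.phal.le i (hij.trans_le hj)))]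
    exact he _ _ (H.mono hij) (hn j hj) _ (la i (hij.trans_le hj) x hx)
  · have hx' := hx.le.trans (H.phal.le' i j hij hj)
    rw [← hR.top]
    refine good_noProj hR.good (f2 j hj) fun y h1 h2 => ?_
    refine (strong_rho k5 (le1 h2) (fle j hj x hx')).1 ?_
    rw [f3 j hj x hx']
    refine hp _ _ (H.mono hij) (hn j hj) _ (la i (hij.trans_le hj) x hx) _ ?_
      (k3 ▸ lt1 (k1.monotone (le1 h2)))
    rw [← (a j hj).1]
    refine Order.add_one_le_iff.2 ?_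
    rw [show s (p j) (p (T0.b j)) = q (f j (T0.b j)) from (f3 j hj _ le_rfl).symm]
    exact k1 (Order.add_one_le_iff.1 h1)

/-- The same with cardinals: the image of each exchange ordinal is a cardinal of `(N, B + 1)`. -/
theorem pii_card (hN : PM0 N (B + 1)) (h : II C g' N B) (hT : T.Phal)
    (hG : ∀ i ≤ T.n, Good (T.E i) (T.b i) N (s i)) (hb : ∀ i ≤ T.n, s i (T.b i) ≤ B)
    (hg : ∀ i ≤ T.n, g ≤ T.b i) (hg' : ∀ i ≤ T.n, ∀ x ≤ T.b i, g ≤ x → g' ≤ s i x)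
    (he : ∀ i j, i < j → j ≤ T.n → ∀ x < T.la i, s j x = s i x)
    (hc : ∀ i j, i < j → j ≤ T.n → ∀ x < T.la i, s j (T.b j) = B ∨
      ∃ c, s j x < c ∧ c ≤ s j (T.b j) + 1 ∧ IsCard N (B + 1) c) : PII C g T :=
  pii hN h hT hG hb hg hg' he fun i j hij hj x hx a h1 h2 => by
    obtain h3 | ⟨c, h3, h4, h5⟩ := hc i j hij hj x hx
    · exact absurd h2 (not_lt.2 (h3 ▸ h1))
    · exact h3.trans_le (h5 a (h4.trans h1) h2)

/-- The case without a base. -/
theorem pii_zero (hN : PM0 N (B + 1)) (h : II C 0 N B) (hT : T.Phal)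
    (hG : ∀ i ≤ T.n, Good (T.E i) (T.b i) N (s i)) (hb : ∀ i ≤ T.n, s i (T.b i) ≤ B)
    (he : ∀ i j, i < j → j ≤ T.n → ∀ x < T.la i, s j x = s i x)
    (hc : ∀ i j, i < j → j ≤ T.n → ∀ x < T.la i, s j (T.b j) = B ∨
      ∃ c, s j x < c ∧ c ≤ s j (T.b j) + 1 ∧ IsCard N (B + 1) c) : PII C 0 T :=
  pii_card hN h hT hG hb (fun _ _ => zero_le) (fun _ _ _ _ _ => zero_le) he hc

end Pool.Agent.KM.LevII
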