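import Pool.Agent.Lib.MP_5c0be7_lc.T.Tame
import Pool.Agent.Lib.MP_5c0be7_lc.T.S5
import Pool.Agent.Lib.MP_5c0be7_lc.T.Str
import Pool.Agent.Lib.MP_5c0be7_lc.T.Tri
import Pool.Agent.Lib.MP_5c0be7_lc.L.UId

/-!
Project KM, block T3: a rigid good weasel has no tame map with small critical point into a weasel
that agrees with it past the image of the critical point.
-/

set_option autoImplicit false

namespace Pool.Agent.KM.Wea

open Ordinal Cardinal Tr Set KE KL IT Seg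

universe u

variable {P : Pa.{u}} {E E' : Seq.{u}} {th th' l m c z g : Ordinal.{u}} {T U : IT.{u}}
  {s : Ordinal.{u} → Ordinal.{u}}

theorem card_top (h : Tall P E th) (hc : IsCard E th c) : IsCard E (th + 1) c :=
  fun a h1 h2 => (le1 h2).eq_or_lt.elim (fun e => by subst e; rwa [h.rho]) (hc a h1)

/-- The least point moved by a map. -/
theorem least (h : c < s c) (hs : ∀ x ≤ c, x ≤ s x) :
    ∃ d ≤ c, d < s d ∧ ∀ x < d, s x = x := by
  obtain ⟨d, h1, h2⟩ := wellFounded_lt.has_min {x | x < s x} ⟨c, h⟩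
  have h3 : d ≤ c := not_lt.1 (h2 c h)
  exact ⟨d, h3, h1, fun x hx => le_antisymm (not_lt.1 fun e => h2 x e hx) (hs x (hx.le.trans h3))⟩

variable [TreeSt.{u}] [StrSt.{u}]

/-- A cardinal of a passive root below the indices is below the exchange ordinals. -/
theorem la_gt (h : T.IsTr l) (h0 : T.n = 0) (hp : Pas (T.E 0) (T.b 0))
    (hc : IsCard (T.E 0) (T.b 0 + 1) g) (hn : ∀ i < l, g < T.nu i) {i : Ordinal.{u}} (hi : i < l) :
    g < T.la i := by
  have hl : 0 < l := zero_le.trans_lt hi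
  have S := h.step 0 h0.le hl
  have p := TreeSt.pm h (zero_le (a := l))
  have h1 : T.nu 0 < T.b 0 := S.use.le.lt_of_ne fun e => act_not_pas S.use.act (e ▸ hp)
  have h2 := StrSt.nosup (pm_mono p (s1lt h1).le) (p.ls _ (s1lt h1)) S.use.act
  rw [← S.la] at h2
  exact ((hc _ (lt1 (hn 0 hl).le).le (s1lt h1)).trans_lt h2).trans_le
    (TreeSt.la_mono h zero_le hi)

theorem ag0 (h : T.IsTr l) (h0 : T.n = 0) (hp : Pas (T.E 0) (T.b 0))
    (hc : IsCard (T.E 0) (T.b 0 + 1) g) (hn : ∀ i < l, g < T.nu i) {i : Ordinal.{u}} (hi : i ≤ l) :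
    Agree (T.E 0) (T.E i) (g + 1) := by
  rcases (zero_le (a := i)).eq_or_lt with rfl | h1
  · exact fun _ _ => rfl
  · exact ag_mono (TreeSt.agree h h1 hi) (s_le (la_gt h h0 hp hc hn (h1.trans_le hi)))

/-- The first step of a branch that moves `c`. -/
theorem first' (h : T.IsTr l) (hd : T.ND 0 l) (hc : c ≤ T.b 0) (hm : T.mp 0 l c ≠ c) :
    ∃ d < l, T.n ≤ d ∧ T.pr d = 0 ∧ T.st d = T.b 0 ∧ T.ND (d + 1) l ∧ T.ka d ≤ c ∧
      ∀ x ≤ T.b 0, T.mp 0 l x = sg T d l x := by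
  have hl : 0 < l := pos_iff_ne_zero.2 fun e => hm (by subst e; exact mp_id h le_rfl hc)
  obtain ⟨d, d1, d2, d3, d4, d5, d6⟩ := first h hd hl
  exact ⟨d, d2, d1, d3, d4, d5,
    not_lt.1 fun e => hm ((d6 c hc).trans (sg_fix h d1 d2 d5 e)), d6⟩

variable [CmpSt.{u}] [OverSt.{u}] [FragSt.{u}] [KGoodSt.{u}] [KActSt.{u}]

theorem core (h : T.Coit l U m) (nT : T.n = 0) (nU : U.n = 0) (hT : Tall P (T.E 0) (T.b 0))
    (hU : Tall P (U.E 0) (U.b 0)) (dT : T.ND 0 l) (dU : U.ND 0 m) (hb : T.b l = U.b m)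
    (hs : Strong (T.E 0) (T.b 0 + 1) (U.E 0) (U.b 0 + 1) s) (hg : g < T.b 0) (hg' : g < U.b 0)
    (cT : IsCard (T.E 0) (T.b 0 + 1) g) (cU : IsCard (U.E 0) (U.b 0 + 1) g)
    (ha : Agree (T.E 0) (U.E 0) (g + 1)) (uT : ∀ i < l, g < T.nu i) (uU : ∀ j < m, g < U.nu j)
    (he : ∀ x < g, T.mp 0 l x = U.mp 0 m (s x)) (hf : ∀ x < c, s x = x) (hc : c < s c)
    (hcg : s c ≤ g) : False := by
  have sU := TreeSt.strong h.tr' le_rfl dU
  have cg : c < g := hc.trans_le hcg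
  have cb : c < T.b 0 := cg.trans hg
  have hcc : IsCard (T.E 0) (T.b 0 + 1) c ∧ LimC (U.E 0) (U.b 0 + 1) (s c) := by
    have e := TB.top_eq hs.toWeak
    have g0 := TB.strong_good hT.pm.toPM0 hU.pm.toPM0 hs
    have c0 : IsCard (T.E 0) (T.b 0 + 1) c :=
      card_top hT (Str.crit_card hs.toWeak hU.ls hf hc)
    obtain ⟨-, h2, h3⟩ := StrSt.limc g0 hT.pm.toPM0 (e ▸ hU.pm.toPM0) hT.not_suc cb
      (lt_add_one _).le hf hc (card_mono (card_ag ha (card_mono c0 (s1lt hg).le)) (lt1 hcg).le)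
    exact ⟨c0, card_top hU (e ▸ h2), h3⟩
  obtain ⟨d, d1, d2, d3, d4, d5, d6, d7⟩ := first' h.tr dT cb.le (by
    rw [he c cg]; exact (hc.trans_le (w_self sU.toWeak (lt1 (hcg.trans hg'.le)))).ne')
  have S := h.tr.step d d2 d1
  have la := la_gt h.tr nT hT.pas cT uT d1
  have k1 : T.ka d < g := d6.trans_lt cg
  have k2 : s (T.ka d) ≤ s c := (w_le hs.toWeak (lt1 (d6.trans cb.le)) (lt1 cb.le)).2 d6
  have k3 : T.la d ≤ U.mp 0 m (s (T.ka d)) := by
    rw [← he _ k1, d7 _ (d6.trans cb.le)]; exact la_le_sg h.tr d2 d1 d5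
  obtain ⟨j, j1, j2, j3, j4, j5, j6, j7⟩ := first' h.tr' dU ((k2.trans hcg).trans hg'.le)
    (((k2.trans hcg).trans_lt la).trans_le k3).ne'
  have S' := h.tr'.step j j2 j1
  have j8 : U.ka j ≤ U.b 0 := j6.trans ((k2.trans hcg).trans hg'.le)
  have k4 : T.ka d ≤ U.ka j := not_lt.1 fun e => by
    have e1 := he _ (e.trans k1)
    rw [hf _ (e.trans_le d6), j7 _ j8, d7 _ ((e.trans k1).le.trans hg.le),
      sg_fix h.tr d2 d1 d5 e] at e1
    exact (sg_move h.tr' j2 j1 j5).ne e1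
  have X := TreeSt.pred_ext (h.tr.mono d2 d1.le) S.use S.pred
  rw [d3] at X
  have tle : ∀ {y}, IsCard (T.E 0) (T.b 0 + 1) y → T.ka d < y → T.ta d ≤ y := fun hy e =>
    not_lt.1 fun e1 => by
      obtain ⟨a, a1, a2, a3⟩ := X.top _ e1
      exact ((hy a a1 (lt1 (a2.le.trans (d4 ▸ ta_le_st S)))).trans a3).not_gt e
  rcases d6.lt_or_eq with d6 | d6
  · have k5 : T.ka d = U.ka j := le_antisymm k4 (hf _ d6 ▸ j6)
    have t1 := tle hcc.1 d6
    refine CmpSt.nobranch h d2 d1 j2 j1 d5 j5 k5 fun Y a hY _ _ => ?_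
    have e1 : Y.map (sg T d l) = Y.map (sg U j m) := map_congr fun y hy => by
      have y1 := (hY y hy).trans_le t1
      rw [← d7 y (y1.trans cb).le, he y (y1.trans cg), hf y y1, j7 y ((y1.trans cg).trans hg').le]
    have h2 : In (T.b l + 1) (Y.map (sg T d l)) :=
      w_in (sg_strong h.tr d2 d1 d5).toWeak (hY.mono ((ta_le_st S).trans (lt_add_one _).le))
    show Nm (T.E l) (Y.map (sg T d l)) a ↔ Nm (U.E m) (Y.map (sg U j m)) a
    rw [← e1]
    exact KN.anm (ag_left h hb.le) h2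
  rw [d6] at k3 k4 j6
  rcases j6.lt_or_eq with j6 | j6
  · obtain ⟨-, o2, -⟩ := OverSt.ovl h.tr' h.nor' nU hU.pas hcc.2 (hcg.trans hg'.le)
      (fun i hi => hcg.trans_lt (uU i hi)) j1 j6
    refine StrSt.refl hs.toWeak hT.pm.toPM0 hU.pm.toPM0 hT.not_suc cb (lt_add_one _).le hf k4 j6 o2
      (small_ag (ag_mono (ag_trans (ag_symm (ag0 h.tr nT hT.pas cT uT d1.le)) ha) (lt1 cg.le).le)
        ?_)
    exact d6 ▸ (TreeSt.pm h.tr d1.le).small _ (lt1 S.use.le) _ _ _ S.use.act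
  · obtain ⟨f, a, y, f1, a1, f2, y1, y2⟩ := S.use.act.typeA (s c) (d6 ▸ hc)
      (S.la ▸ hcg.trans_lt la)
    rw [← S.la] at y2
    have t1 := tle cT k1
    have sD := (TreeSt.strong h.tr le_rfl d5).toWeak
    have fx := TreeSt.fix h.tr le_rfl d5 (lt_add_one d)
    have lb : T.la d ≤ T.b (d + 1) := TreeSt.la_le h.tr d1 (lt_add_one d).le (s_le d1)
    have f3 : In (T.st d + 1) f := f1.mono ((ta_le_st S).trans (lt_add_one _).le)
    have e1 : f.map (T.e d) = f.map (T.im d) := map_congr fun x hx => (S.ext x (f1 x hx)).symm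
    rw [← KN.afv S.agree (w_in S.use.act.weak f1), e1] at f2
    have a2 : In (T.la d) a := a1.mono (hcg.trans la.le)
    have e2 := KN.wfv sD (n := f.map (T.im d)) (S.b ▸ w_in S.ult.toWeak f3)
      (a2.mono (lb.trans (lt_add_one _).le))
    rw [f2, map_eq_self fun x hx => fx x (a2 x hx), Option.map_some, map_leaf, fx y y2,
      KN.afv (ag_left h hb.le) (w_in sD (S.b ▸ w_in S.ult.toWeak f3))] at e2
    have e3 : (f.map (T.im d)).map (T.mp (d + 1) l) = (f.map s).map (U.mp 0 m) := by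
      rw [map_map, map_map]
      exact map_congr fun x hx => by
        have x1 := (f1 x hx).trans_le t1
        exact (d7 x (x1.trans hg).le).symm.trans (he x x1)
    have fU : ∀ x < s c, U.mp 0 m x = x := fun x hx => by
      rw [j7 x (hx.le.trans (hcg.trans hg'.le))]; exact sg_fix h.tr' j2 j1 j5 (j6 ▸ hx)
    have e4 := KN.wfv sU.toWeak (n := f.map s) (w_in hs.toWeak (d4 ▸ f3))
      (a1.mono ((hcg.trans hg'.le).trans (lt_add_one _).le))
    rw [map_eq_self fun x hx => fU x (a1 x hx), ← e3, e2] at e4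
    obtain ⟨w, w1, w2⟩ := Option.map_eq_some_iff.1 e4.symm
    obtain ⟨x, rfl, x1⟩ := map_eq_leaf.1 w2
    rcases lt_or_ge x (s c) with x2 | x2
    · exact y1.not_gt (x1 ▸ (fU x x2).symm ▸ x2)
    · have x3 : x < U.b 0 + 1 := by simpa using UId.fv_in (w_in hs.toWeak (d4 ▸ f3)) w1
      exact (k3.trans ((w_le sU.toWeak (lt1 (hcg.trans hg'.le)) x3).2 x2)).not_gt (x1 ▸ y2)

/-- The comparison of a rigid good weasel with a tame image. -/
theorem weasel [S5St.{u}] (h : GoodW P E th)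
    (hr : ∀ E' th' i j, Tame P E th E' th' i → Tame P E th E' th' j → ∀ x < z, i x = j x)
    (h' : GoodW P E' th') (hs : Tame P E th E' th' s) (hz : g ≤ z) (hg : g < P.Om)
    (cT : IsCard E (th + 1) g) (cU : IsCard E' (th' + 1) g) (ha : Agree E E' (g + 1))
    (hc : c < s c) (hcg : s c ≤ g) : False := by
  have cb : c ≤ th := ((hc.trans_le hcg).trans (hg.trans h.lt)).le
  obtain ⟨d, d1, d2, d3⟩ := least hc fun x hx => w_self hs.toWeak (lt1 (hx.trans cb))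
  obtain ⟨T, l, U, m, eT, eU, co, n1, n2, u1, u2, hb, -, t1, t2⟩ := S5St.cmp P h h' ha
  have he := hr _ _ _ _ t1 (hs.comp h.toTall h'.toTall t2)
  have d4 := ((w_le hs.toWeak (lt1 (d1.trans cb)) (lt1 cb)).2 d1).trans hcg
  obtain rfl := S5I.E_eq eT
  obtain rfl := S5I.b_eq eT
  obtain rfl := S5I.E_eq eU
  obtain rfl := S5I.b_eq eU
  exact core co (S5I.n_eq eT) (S5I.n_eq eU) h.toTall h'.toTall n1 n2 hb hs.toStrong
    (hg.trans h.lt) (hg.trans h'.lt) cT cU ha (fun i hi => s_lt (u1 i hi))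
    (fun i hi => s_lt (u2 i hi)) (fun x hx => he x (hx.trans_le hz)) d3 d2 d4

omit [StrSt.{u}] [CmpSt.{u}] [OverSt.{u}] [FragSt.{u}] [KGoodSt.{u}] [KActSt.{u}] in
/-- The image of the first critical point of a branch is below the exchange ordinals. -/
theorem img_le {r d : Ordinal.{u}} (h : T.IsTr l) (d1 : T.n ≤ d) (d2 : d < l) (d3 : T.pr d = r)
    (hd : T.ND (d + 1) l) : ∀ y < sg T d l (T.ka d), ∃ j < l, y < T.la j := by
  have S := h.step d d1 d2
  have lb : T.la d ≤ T.b (d + 1) := TreeSt.la_le h d2 (lt_add_one d).le (s_le d2)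
  show ∀ y < T.mp (d + 1) l (T.im d (T.ka d)), _
  rw [im_ka S]
  refine TreeSt.ind (i := d + 1)
    (fun n => ∀ y < T.mp (d + 1) n (T.la d), ∃ j < n, y < T.la j) h ?_ ?_ ?_ l le_rfl hd
  · intro y hy
    rw [mp_id h (s_le d2) lb] at hy
    exact ⟨d, lt_add_one d, hy⟩
  · intro k k1 k2 k3 k4 k5 k6 ih y hy
    have S' := h.step k k1 k2
    have h1 : T.mp (d + 1) (T.pr k) (T.la d) ≤ T.ka k := le_of_forall_lt fun x hx =>
      let ⟨j, j1, j2⟩ := ih x hx
      j2.trans_le (S'.pred.min j j1)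
    rw [S'.mp _ k3 k4 _ lb] at hy
    refine ⟨k, lt_add_one k, hy.trans_le ?_⟩
    rw [← im_ka S']
    exact (w_le S'.ult.toWeak (lt1 (h1.trans (ka_lt_st S').le)) (lt1 (ka_lt_st S').le)).2 h1
  · intro c c1 c2 c3 c4 c5 ih y hy
    obtain ⟨n, n1, n2, n3, x, x1, rfl⟩ := TriI.below h c2 c3 c1 c4 c5 lb hy
    obtain ⟨j, j1, j2⟩ := ih n n1 n2 n3 x x1
    exact ⟨j, j1.trans n1, (TreeSt.fix h c3 n3 j1 x j2).symm ▸ j2⟩

omit [TreeSt.{u}] [StrSt.{u}] [CmpSt.{u}] [OverSt.{u}] [FragSt.{u}] [KActSt.{u}] in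
/-- The lift of a realisable premouse by a countably complete map. -/
theorem ult_oc [UltIISt.{u}] {C : Cfg.{u}} {a k t v : Ordinal.{u}} (pm : PM E (a + 1))
    (ii : II C 0 E a) (pm' : PM0 E' v) (X : Ext E k t E' v s) (h1 : t ≤ a)
    (np : NoProj E k t (a + 1)) (tc : TopCts E a k t s) (oc : OC E E' k t s) :
    ∃ F i, IsUlt E a k F i ∧ (∀ x < t, i x = s x) ∧ i t = v ∧ Agree F E' v ∧
      PM F (i a + 1) ∧ II C 0 F (i a) :=
  UltIISt.lift pm pm' X h1 np tc fun E0 a0 k0 t0 r Z a1 p0 st r1 r2 _ r3 hZ => by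
    have ra : r a0 = a := s1inj (st.top a0 rfl).symm
    have hc : (Iio a0).Countable := by
      rw [← Cardinal.le_aleph0_iff_set_countable, Cardinal.mk_Iio_ordinal, Cardinal.lift_le_aleph0,
        ← Order.lt_succ_iff, Cardinal.succ_aleph0, ← Cardinal.lt_ord, Cardinal.ord_aleph]
      exact a1
    obtain ⟨q, t1, t2⟩ := oc (Z ∪ r '' Iio a0) (hZ.union (hc.image r))
    refine ⟨E, r, q, ra ▸ pm.toPM0, ra ▸ ii, TB.strong_good p0 pm.toPM0 st,
      fun z hz h3 => r1 ▸ t1 z (Or.inl hz) h3, fun n w hn hw h3 => ?_⟩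
    rw [map_comp]
    refine t2 _ w (fun x hx => ?_) ?_ (hw.trans subset_union_left) h3
    · rw [lv_map] at hx
      obtain ⟨y, y1, rfl⟩ := hx
      exact Or.inr ⟨y, (hn y y1).trans_le r3, rfl⟩
    · exact r2 ▸ (w_in_iff st.toWeak (hn.mono (r3.trans le_self_add)) (lt1 r3)).2 hn

omit [TreeSt.{u}] [StrSt.{u}] [CmpSt.{u}] [OverSt.{u}] [FragSt.{u}] [KActSt.{u}] in
/-- The lift of a good weasel. -/
theorem lift [UltIISt.{u}] [LiftSt.{u}] {k t v : Ordinal.{u}} (h : GoodW P E th)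
    (pm' : PM0 E' v) (X : Ext E k t E' v s) (h1 : t ≤ th) (np : NoProj E k t (th + 1))
    (oc : OC E E' k t s) (hk : k < P.t.ord) (hv : s k < P.Om) :
    ∃ F i, IsUlt E th k F i ∧ (∀ x < t, i x = s x) ∧ i t = v ∧ Agree F E' v ∧
      GoodW P F (i th) ∧ Tame P E th F (i th) i := by
  obtain ⟨F, i, U, i1, i2, ag, pm, ii⟩ := ult_oc h.pm h.ii pm' X h1 np
    (fun _ _ _ A => absurd h.pas (act_not_pas A)) oc
  exact ⟨F, i, U, i1, i2, ag, LiftSt.lift P h U (hk.trans P.t_ord_lt) pm ii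
    (fun x hx e => absurd (e ▸ cof_le_card x) (not_le.2 (lt_ord.1 (hx.trans_lt hk))))
    fun x hx => TriI.ult_lt P.hO U (i1 k X.lt ▸ hv) (hx.trans h.lt).le hx⟩

/-- An iterate of a rigid good weasel has no countably complete lift back into the weasel. -/
theorem node [S5St.{u}] [UltIISt.{u}] [LiftSt.{u}] [WinSt.{u}] [KIISt.{u}] [KIterSt.{u}]
    {a k t v : Ordinal.{u}} (h : GoodW P E th)
    (hr : ∀ E' th' i j, Tame P E th E' th' i → Tame P E th E' th' j → ∀ x < z, i x = j x)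
    (eT : (IT.one E th).EqLt T 1) (hT : Low P T a) (ha : a < P.Om) (hd : T.ND 0 a)
    (hla : ∀ j < a, T.la j ≤ k) (X : Ext (T.E a) k t E v s) (h1 : t ≤ T.b a)
    (np : NoProj (T.E a) k t (T.b a + 1)) (oc : OC (T.E a) E k t s) (hk : k < P.t.ord)
    (hv : v ≤ th + 1) (hs : s k < P.Om) (hz : s k ≤ z) (hc : IsCard E (th + 1) (s k))
    (mv : 0 < a ∨ ∃ x ≤ k, x < s x) : False := by
  obtain ⟨g1, g2⟩ := WinSt.br P hT (S5I.roots eT h) (S5I.nii eT h hT.tr) ha (hd.root zero_le) hd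
    (S5I.good0 eT h)
  rw [S5I.E_eq eT, S5I.b_eq eT] at g2
  obtain ⟨F, i, U, i1, -, ag, g3, g4⟩ := lift g1 (pm0_mono h.pm.toPM0 hv) X h1 np oc hk hs
  have kb : k < T.b a := X.lt.trans_le h1
  have c1 : IsCard F (i (T.b a) + 1) (s k) := by
    have c0 : IsCard (T.E a) (T.b a) k := fun y y1 y2 => (lt_or_ge y t).elim (X.card y y1)
      fun y3 => (np y y3 (y2.trans (lt_add_one _))).le
    rw [← i1 k X.lt]
    exact card_top g3.toTall
      ((TB.strong_good g1.pm.toPM0 g3.pm.toPM0 g4.toStrong).card k k kb kb c0)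
  have key : ∃ c, c < (i ∘ T.mp 0 a) c ∧ (i ∘ T.mp 0 a) c ≤ s k := by
    rcases (zero_le (a := a)).eq_or_lt with rfl | h0
    · obtain ⟨x, x1, x2⟩ := mv.resolve_left (lt_irrefl _)
      refine ⟨x, ?_⟩
      rw [Function.comp, mp_id hT.tr le_rfl (x1.trans kb.le), i1 x (x1.trans_lt X.lt)]
      exact ⟨x2, (w_le X.weak (x1.trans_lt X.lt) X.lt).2 x1⟩
    · obtain ⟨d, d1, d2, d3, d4, d5, d6⟩ := first hT.tr hd h0
      have e := d6 _ (d4 ▸ (ka_lt_st (hT.tr.step d d1 d2)).le)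
      have h2 : sg T d a (T.ka d) ≤ k := le_of_forall_lt fun y hy =>
        let ⟨j, j1, j2⟩ := img_le hT.tr d1 d2 d3 d5 y hy
        j2.trans_le (hla j j1)
      refine ⟨T.ka d, ?_⟩
      rw [Function.comp, e, ← i1 k X.lt]
      exact ⟨(sg_move hT.tr d1 d2 d5).trans_le (w_self U.toWeak (lt1 (h2.trans kb.le))),
        (w_le U.toWeak (lt1 (h2.trans kb.le)) (lt1 kb.le)).2 h2⟩
  obtain ⟨c, c2, c3⟩ := key
  exact weasel h hr g3 (g2.comp h.toTall g1.toTall g4) hz hs hc c1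
    (ag_mono (ag_symm ag) (s_le (X.weak.maps k X.lt))) c2 c3

end Pool.Agent.KM.Wea
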