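import Pool.Agent.Lib.MP_5c0be7_lc.T.StCov
import Pool.Agent.Lib.MP_5c0be7_lc.T.Weasel

/-!
Project KM, block T3: the lift of the unfolding.
-/

namespace Pool.Agent.KM

open Ordinal Tr Set KE KL

universe u

variable [CovBSt.{u}] [ChainSt.{u}] [UltIISt.{u}] [KGoodSt.{u}]

theorem LiftCI.lift {S : Cov.{u}} {m t b : Ordinal.{u}} {E : Seq.{u}} (h : S.Ok)
    (hu : S.Unf m t E b) : ∃ F g, S.Lift m t E b F g ∧ S.P.II F (g b) ∧
      IsCard F (g b + 1) (S.pi m) := by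
  obtain ⟨nx, pm, tb, np, ag, tc⟩ := ChainSt.basic h hu
  obtain ⟨v, hv, X⟩ := CovBSt.ext h nx
  have ag' : Agree S.Eb E t := ag_symm (ag_mono ag (lt_add_one t).le)
  have X' := ext_left ag' X
  have h1 : S.pi t < S.th + 1 :=
    h.hx.str.maps t (((CovBSt.nx h nx).1.trans_lt h.hx.lt).trans (lt_add_one _))
  obtain ⟨F, g, U, g1, g2, a1, p1, ii⟩ := Wea.ult_oc pm (ChainSt.ii h hu)
    (pm0_mono h.env.good.pm.toPM0 (hv.trans h1.le)) X' tb np tc (oc_left ag' (CovBSt.oc h nx))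
  have G := TB.strong_good U.pm U.pm' U.toStrong
  have mb : m < b := X.lt.trans_le tb
  refine ⟨F, g, ⟨U, g1, fun y hy => ?_, g2 ▸ a1, p1⟩, ii, fun a a2 a3 => ?_⟩
  · obtain ⟨x, x1, x2⟩ := X.cof y (g2 ▸ hy)
    exact ⟨x, x1, (g1 x x1).symm ▸ x2⟩
  · rw [← g1 m X.lt] at a2 ⊢
    rcases (le1 a3).eq_or_lt with rfl | a4
    · exact (G.proj m U.lt).le
    · exact G.card m m mb mb (fun y y1 y2 => (lt_or_ge y t).elim (X'.card y y1)
        fun y3 => (np y y3 (y2.trans (lt_add_one _))).le) a a2 a4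

instance : LiftCSt.{u} := ⟨LiftCI.lift⟩

end Pool.Agent.KM
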