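import Pool.Agent.Lib.MP_5c0be7_lc.T.BrTame
import Pool.Agent.Lib.MP_5c0be7_lc.T.NM
import Pool.Agent.Lib.MP_5c0be7_lc.T.Tame

/-!
Project KM, block T1: ultrapowers of good weasels.
-/

namespace Pool.Agent.KM

namespace LiftI

open Ordinal Cardinal Tr Set KE

universe u

variable {P : Pa.{u}} {E E' : Seq.{u}} {th th' a b k x : Ordinal.{u}}
  {i : Ordinal.{u} → Ordinal.{u}} {g : Tr.{u}}

/-- A function on a small stratum is bounded. -/
theorem bdd {c : Cardinal.{u}} (h0 : ℵ₀ < c) (hk : k < c.ord) (hc : b.cof = c) (f : Tr.{u}) :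
    ∃ x < b, ∀ w y, In k w → fv E f w = some (leaf y) → y < b → y < x := by
  have h1 : HasCardinalLT {w : Tr.{u} | In k w} b.cof := by
    unfold HasCardinalLT
    rw [hc, Cardinal.lift_id'.{u, u + 1}]
    exact KL.mk_in_lt h0 hk
  have h0 : 0 < b := (limit_of_cof (hc ▸ h0.le)).pos
  classical
  obtain ⟨x, h2, h3⟩ := bdd_fam h1 (fun w => if ((fv E f w.1).getD .nil).lab < b then
    ((fv E f w.1).getD .nil).lab else 0) fun w => by split_ifs with h4; exacts [h4, h0]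
  refine ⟨x, h2, fun w y h4 h5 h6 => ?_⟩
  have h7 := h3 ⟨w, h4⟩
  simpa [h5, h6] using h7

/-- The function `g` maps the stratum `x` cofinally to `b`. -/
def Cf (E : Seq.{u}) (g : Tr.{u}) (b x : Ordinal.{u}) : Prop :=
  ∀ y < b, ∃ v, In x v ∧ ∃ z < b, fv E g v = some (leaf z) ∧ y ≤ z

theorem fn_dec : Fn.{u} fun E _ z => (opt (fv E z.snd.fst (opt (ev E z.snd.snd.fst.lab z.fst.fst
    (node z.fst.snd z.snd.snd.snd))).snd)).snd :=
  (Fn.fv Fn.id.snd.fst (Fn.ev (On.lab IsOp.id.snd.snd.fst) Fn.id.fst.fst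
    (Fn.id.fst.snd.pair Fn.id.snd.snd.snd)).snd).snd

/-- A successor stratum is not needed. -/
theorem Cf.pred (hE : LS E th) (hl : ¬ Suc th) (ha : a + 1 < th) (hg : In th g)
    (h : Cf E g b (a + 1)) : ∃ g', In th g' ∧ Cf E g' b a := by
  have hlim : Order.IsSuccLimit th := limit_of_not_suc hl (zero_le.trans_lt ha).ne'
  obtain ⟨p, p1, -, -, p2⟩ := (hE _ ha).1
  have hz : In th (node g (node (leaf (a + 1)) p)) := by simp [hg, ha, p1.mono ha.le]
  have hm : max a (node g (node (leaf (a + 1)) p)).ht < th :=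
    max_lt ((lt_add_one a).trans ha) (hz.ht_lt hlim)
  obtain ⟨f, f1, f2⟩ := fn_dec.named_lim hE hl hm ((in_ht _).mono (le_max_right _ _))
  refine ⟨f, f1, fun y hy => ?_⟩
  obtain ⟨v, v1, z, v2, v3, v4⟩ := h y hy
  obtain ⟨c, w, w1, w2⟩ := p2 v v1
  have w3 : In a (node c.erase w) := by simp [w1.mono (F3.rho_top E a)]
  refine ⟨node c.erase w, w3, z, v2, ?_, v4⟩
  have w4 : ev E (a + 1) c (node w p) = some v := w2
  rw [f2, if_pos (w3.mono (le_max_left _ _))]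
  simp [w4, v3]

theorem df_bd : Df.{u} fun E _ z => ∀ v, In z.snd.snd.fst.lab v → ∀ x < z.snd.fst.lab,
    fv E z.fst v = some (leaf x) → x < z.snd.snd.snd.lab := by
  repeat' first
    | exact Fn.id | exact IsOp.id | apply IsOp.fst | apply IsOp.snd | apply On.lab
    | apply Df.fv_leaf | apply Df.olt | apply Df.ball | apply Df.oall
    | apply Df.imp | apply Fn.fst | apply Fn.snd

/-- Continuity at the least cofinal stratum gives continuity at `b`. -/
theorem cts_disc (hE : LS E (th + 1)) (hE' : LS E' (th' + 1))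
    (h : Weak E (th + 1) E' (th' + 1) i) (hl : ¬ Suc th) (hb : b < th) (hx : x < th)
    (h0 : x ≠ 0) (hxl : ¬ Suc x) (hg : In th g) (H : Cf E g b x)
    (H' : ∀ x' < x, ∃ y < b, ∀ v z, In x' v → fv E g v = some (leaf z) → z < b → z < y)
    (hc : ContAt i x) : ContAt i b := by
  have hlim : Order.IsSuccLimit th := limit_of_not_suc hl (zero_le.trans_lt hb).ne'
  have hz : In th (node g (node (leaf b) (leaf x))) := by simp [hg, hb, hx]
  have h1 := (BrTameI.df_cof.weak_lim h hE hE' hl (hz.ht_lt hlim) le_self_add (in_ht _)).2 H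
  intro y hy
  obtain ⟨v, h2, z, h3, h4, h5⟩ := h1 y hy
  simp only [map_node, map_leaf, fst_node, snd_node, lab_leaf] at h2 h3 h4
  have h6 : Order.IsSuccLimit (i x) := limit_of_not_suc (TB.not_suc_up h (lt1 hx.le) hxl)
    ((pos_iff_ne_zero.2 h0).trans_le (w_self h (lt1 hx.le))).ne'
  obtain ⟨x', h7, h8⟩ := hc _ (h2.ht_lt h6)
  obtain ⟨y', h9, h10⟩ := H' x' h7
  have hz' : In th (node g (node (leaf b) (node (leaf x') (leaf y')))) := by
    simp [hg, hb, h7.trans hx, h9.trans hb]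
  have h11 := (df_bd.weak_lim h hE hE' hl (hz'.ht_lt hlim) le_self_add (in_ht _)).2
    fun v j1 z j2 j3 => h10 v z j1 j3 j2
  exact ⟨y', h9, h5.trans_lt (h11 v ((in_ht v).mono h8.le) z h3 h4)⟩

/-- Continuity at all points of cofinality `t`. -/
theorem cts [UltFactSt.{u}] [RegSt.{u}] (H : Tall P E th) (h : IsUlt E th k E' i)
    (hk : k < P.Om) (hc : ∀ x ≤ k, x.cof = P.t → ContAt i x) (hb : b < th) (ht : b.cof = P.t) :
    ContAt i b := by
  by_cases h1 : ∀ f, In (th + 1) f → ∃ x < b, ∀ w y, In k w → fv E f w = some (leaf y) → y < b →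
    y < x
  · exact UltFactSt.cts h hb.le h1
  push Not at h1
  obtain ⟨f, h2, h3⟩ := h1
  obtain ⟨g, h4, h5⟩ := RegSt.reg_fun E _ _ _ f H.pm.ls H.next (lt_add_one _) h2
  have h6 : k ∈ {x | ∃ g, In th g ∧ Cf E g b x} := ⟨g, h4, fun y hy => by
    obtain ⟨v, x, h9, h10, h11, h12⟩ := h3 y hy
    exact ⟨v, h9, x, h11, (h5 v _ (h9.mono hk.le)).2 ⟨h10, by simpa using h11.trans hb⟩, h12⟩⟩
  obtain ⟨g, h7, h8⟩ := csInf_mem ⟨k, h6⟩
  have h9 := csInf_le' h6
  have h10 : ∀ x' < sInf {x | ∃ g, In th g ∧ Cf E g b x}, ∀ g, In th g → ¬ Cf E g b x' :=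
    fun x' hx g j1 j2 => notMem_of_lt_csInf' hx ⟨g, j1, j2⟩
  generalize sInf {x | ∃ g, In th g ∧ Cf E g b x} = x at h8 h9 h10
  have hx : x < th := (h9.trans_lt hk).trans H.lt
  have h0 : x ≠ 0 := by
    rintro rfl
    obtain ⟨y, j1, j2⟩ := bdd (E := E) P.aleph0_lt_t
      (Cardinal.isSuccLimit_ord P.aleph0_lt_t.le).pos ht g
    obtain ⟨v, j3, z, j4, j5, j6⟩ := h8 y j1
    exact (j2 v z j3 j5 j4).not_ge j6
  have hxl : ¬ Suc x := by
    rintro ⟨a, rfl⟩
    obtain ⟨g', j1, j2⟩ := h8.pred (H.ls.mono le_self_add) H.not_suc hx h7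
    exact h10 a (lt_add_one a) g' j1 j2
  have h11 : ∀ x' < x, ∃ y < b, ∀ v z, In x' v → fv E g v = some (leaf z) → z < b → z < y :=
    fun x' j => by
      have j1 := h10 x' j g h7
      unfold Cf at j1
      push Not at j1
      obtain ⟨y, j2, j3⟩ := j1
      exact ⟨y, j2, fun v z j4 j5 j6 => j3 v j4 z j6 j5⟩
  refine cts_disc H.ls h.pm'.ls h.toWeak H.not_suc hb hx h0 hxl h7 h8 h11 (hc x h9 ?_)
  rw [← ht]
  exact NMI.disc_cof (E := E) (th := th) hxl h0 ⟨g, h7, fun y hy =>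
    let ⟨v, j1, z, j2, j3, j4⟩ := h8 y hy; ⟨v, z, j1, j3, j4, j2⟩, h11⟩

theorem lift [UltFactSt.{u}] [RegSt.{u}] [S3St.{u}] (G : GoodW P E th) (h : IsUlt E th k E' i)
    (hk : k < P.Om) (hp : PM E' (i th + 1)) (hi : P.II E' (i th))
    (hc : ∀ x ≤ k, x.cof = P.t → ContAt i x) (ho : ∀ x < P.Om, i x < P.Om) :
    GoodW P E' (i th) ∧ Tame P E th E' (i th) i := by
  have H := G.toTall
  have h1 : i P.Om = P.Om := le_antisymm (le_of_forall_lt fun y hy =>
    let ⟨x, j1, j2⟩ := UltFactSt.cts h H.lt.le (fun f _ => bdd P.aleph0_lt hk P.cof_Om f) y hy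
    j2.trans (ho x j1)) (w_self h.toWeak (lt1 H.lt.le))
  have M : Tame P E th E' (i th) i :=
    ⟨h.toStrong, h1, BrTameI.cof_up H.not_suc hp (UltFactSt.cof h),
      Fat.of_forall P.lim fun c j1 j2 => cts H h hk hc (j1.trans H.lt) j2,
      Fat.of_forall H.lim fun c j1 j2 => cts H h hk hc j1 j2⟩
  refine ⟨S3St.up P G hp hi M hk fun k' t j1 j2 j3 => ?_, M⟩
  have j4 : t ≤ th := j3.2.1.trans H.lt.le
  refine UltFactSt.cts h j4 fun f hf => ?_
  obtain ⟨a, j5, j6⟩ := RegSt.reg E _ _ _ f H.ls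
    (TB.next_ext H.ls (H.lt.le.trans le_self_add) j3 j2) (lt1 j4) hf
  exact ⟨a, j5, fun w y j7 j8 j9 => by simpa using j6 w _ (j7.mono j1) j8 (by simpa using j9)⟩

end LiftI

universe u

instance [UltFactSt.{u}] [RegSt.{u}] [S3St.{u}] : LiftSt.{u} :=
  ⟨fun _ _ _ _ _ _ G h hk hp hi hc ho => LiftI.lift G h hk hp hi hc ho⟩

end Pool.Agent.KM
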