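import Pool.Agent.Lib.MP_5c0be7_lc.T.GoodTh
import Pool.Agent.Lib.MP_5c0be7_lc.C.Easy
import Pool.Agent.Lib.MP_5c0be7_lc.K.GoodI
import Pool.Agent.Lib.MP_5c0be7_lc.F.ActI
import Pool.Agent.Lib.MP_5c0be7_lc.O.FO3

/-!
Project KM, block T: cofinal maps between limit levels that respect the oracle are strong.
-/

namespace Pool.Agent.KM.LimCof

open Ordinal Tr
open scoped Classical

universe u

variable {E E' : Seq.{u}} {g g' k t : Ordinal.{u}} {s e e' : Ordinal.{u} → Ordinal.{u}}

/-- The oracle of level `g` has names whose images name the oracle of level `g'`. -/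
def Orc (E : Seq.{u}) (g : Ordinal.{u}) (E' : Seq.{u}) (g' : Ordinal.{u})
    (s : Ordinal.{u} → Ordinal.{u}) : Prop :=
  ∀ m < g, ∃ n, In g n ∧ (∀ q, In m q → (Nm E n q ↔ ora E g q)) ∧
    ∀ q, In (s m) q → (Nm E' (n.map s) q ↔ ora E' g' q)

theorem par_lim (hg : ¬ Suc g) (hl : Lev E g) : par E g = node .nil .nil := by
  have h := ss_pp hl.1
  have e : pp E g = .nil := by
    generalize pp E g = p at h
    cases p with
    | nil => rfl
    | leaf a => exact h.2.2.1.elim
    | node l r =>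
      obtain ⟨a, rfl, -⟩ := h.2.2.1
      exact absurd (h.1 a (Or.inl rfl)) (not_lt.2 (hl.2 hg ▸ h.2.1 a (Or.inl rfl)))
  show node (pp E g) (witL _ g (pp E g)) = _
  rw [e]; rfl

/-- Evaluation at the limit level is evaluation of the translated code at a smaller level. -/
theorem trans (h : Weak E g E' g' s) (hg : ¬ Suc g) (hg' : ¬ Suc g') (ho : Orc E g E' g' s)
    {m : Ordinal.{u}} (hm : m < g) : ∃ a n, a < g ∧ m ≤ a ∧ In a n ∧
      (∀ c x, In m x → ev E a (decC c).tr.code (node n x) = ev E g c x) ∧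
      ∀ c x, In (s m) x → ev E' (s a) (decC c).tr.code (node (n.map s) x) = ev E' g' c x := by
  obtain ⟨n, h1, h2, h3⟩ := ho m hm
  have lim := limit_of_not_suc hg hm.ne_bot
  have ha : max m n.ht < g := max_lt hm (h1.ht_lt lim)
  have hn : In (max m n.ht) n := (in_ht n).mono (le_max_right _ _)
  refine ⟨_, n, ha, le_max_left _ _, hn, fun c x hx => ?_, fun c x hx => ?_⟩
  · rw [F3.tr_spec' hg (le_max_left _ _) hm.le hn h2 _ hx, ev_decC_code]
  · rw [F3.tr_spec' hg' ((KE.w_le h hm ha).2 (le_max_left _ _)) (h.maps m hm).le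
      ((KE.w_in_iff h h1 ha).2 hn) h3 _ hx, ev_decC_code]

theorem weak (h : Weak E g E' g' s) (hg : ¬ Suc g) (hg' : ¬ Suc g') (h0 : 0 < g) (e : s g = g')
    (ho : Orc E g E' g' s) : Weak E (g + 1) E' (s g + 1) s := by
  have lim := limit_of_not_suc hg h0.ne'
  refine ⟨fun x hx y hy hxy => ?_, fun a ha => ?_, fun a ha => by rw [KE.s1inj ha],
    fun a ha => ?_⟩
  · rcases (KE.le1 hy).eq_or_lt with rfl | hy'
    · exact e ▸ h.maps x hxy
    · exact h.mono (hxy.trans hy') hy' hxy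
  · rcases (KE.le1 ha).eq_or_lt with rfl | ha'
    · exact lt_add_one _
    · exact KE.lt1 (e ▸ (h.maps a ha').le)
  · rcases (KE.le1 ha).eq_or_lt with rfl | ha'
    · intro c x hx
      obtain ⟨b, n, h1, h2, h3, h4, h5⟩ := trans h hg hg' ho (hx.ht_lt lim)
      rw [e, ← h4 c x (in_ht x), ← h5 c _ ((KE.w_in_iff h hx (hx.ht_lt lim)).2 (in_ht x)),
        ← map_node, h.comm b h1 _ _ ((in_node ..).2 ⟨h3, (in_ht x).mono h2⟩)]
    · exact h.comm a ha'

/-- A name at the limit level is replaced by a name below it. -/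
theorem repl (h : Weak E g E' g' s) (hg : ¬ Suc g) (hg' : ¬ Suc g') (e : s g = g')
    (ho : Orc E g E' g' s) (hk : k < g) {t : Tr.{u}} (ht : In (g + 1) t) : ∃ r, In g r ∧
      (∀ v, In k v → (Nm E t v ↔ Nm E r v)) ∧
      ∀ v, In (s k) v → (Nm E' (t.map s) v ↔ Nm E' (r.map s) v) := by
  have h0 : 0 < g := lt_of_le_of_lt zero_le hk
  have lim := limit_of_not_suc hg h0.ne'
  have hw := weak h hg hg' h0 e ho
  have hp : In (g + 1) t.snd.snd := ht.snd.snd
  by_cases hb : ∃ b, t.fst = leaf b ∧ In b t.snd.snd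
  · obtain ⟨b, hb, hz⟩ := hb
    have hb1 : b ≤ g := KE.le1 (by simpa [hb] using ht.fst)
    rcases hb1.eq_or_lt with rfl | hb1
    · have hm : max k t.snd.snd.ht < b := max_lt hk (hz.ht_lt lim)
      have hz1 : In (max k t.snd.snd.ht) t.snd.snd := (in_ht _).mono (le_max_right _ _)
      obtain ⟨a, n, h1, h2, h3, h4, h5⟩ := trans h hg hg' ho hm
      obtain ⟨o, ho⟩ := IsOp.id.{u}.snd.fst.pair (IsOp.id.fst.pair IsOp.id.snd.snd)
      have l0 : (prec.{u} o (decC t.snd.fst).tr.code).lv = ∅ := by simp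
      refine ⟨node (leaf a) (node (prec o (decC t.snd.fst).tr.code) (node n t.snd.snd)),
        by simp [h1, in_of_lv l0, h3.mono h1.le, hz], fun v hv => ?_, fun v hv => ?_⟩
      · have hv1 := hv.mono (le_max_left k t.snd.snd.ht)
        simp only [NmL, hb, fst_node, snd_node, leaf.injEq, exists_eq_left']
        rw [ev_prec _ _ (by simp [hv1.mono h2, h3, hz1.mono h2]), ho]
        simp only [fst_node, snd_node]
        rw [h4 _ _ ((in_node ..).2 ⟨hv1, hz1⟩)]
      · have hv1 := hv.mono ((KE.w_le h hk hm).2 (le_max_left k t.snd.snd.ht))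
        have hz2 := (KE.w_in_iff h hz hm).2 hz1
        have h6 := (KE.w_le h hm h1).2 h2
        simp only [NmL, hb, map_fst, map_snd, map_node, map_leaf, fst_node, snd_node, leaf.injEq,
          exists_eq_left', ev_map_code]
        rw [ev_prec _ _ (by
          simp only [in_node]
          exact ⟨hv1.mono h6, (KE.w_in_iff h (h3.mono h1.le) h1).2 h3, hz2.mono h6⟩), ho]
        simp only [fst_node, snd_node]
        rw [h5 _ _ ((in_node ..).2 ⟨hv1, hz2⟩), e]
    · refine ⟨node (leaf b) (node t.snd.fst.erase t.snd.snd), by simp [hb1, hz.mono hb1.le],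
        fun v _ => ?_, fun v _ => ?_⟩ <;> simp [NmL, hb]
  · refine ⟨.nil, in_nil _, fun v _ => iff_of_false ?_ (by simp [NmL]),
      fun v _ => iff_of_false ?_ (by simp [NmL])⟩
    · rintro ⟨b, h1, h2⟩
      exact hb ⟨b, h1, (in_of_ev h2).snd⟩
    · rintro ⟨b', h1, h2⟩
      rw [map_fst, map_eq_leaf] at h1
      obtain ⟨b, h1, rfl⟩ := h1
      have h3 := (in_of_ev h2).snd
      simp only [snd_node, map_snd] at h3
      refine hb ⟨b, h1, (KE.w_in_iff hw hp (by simpa [h1] using ht.fst)).1 ?_⟩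
      simpa only [map_snd] using h3

/-- A cofinal weak map between limit levels that respects the oracle is strong one level up. -/
theorem cof (h : Weak E g E' g' s) (hg : ¬ Suc g) (hg' : ¬ Suc g') (h0 : 0 < g) (e : s g = g')
    (l : LS E (g + 1)) (l' : LS E' (g' + 1)) (hc : ∀ y < g', ∃ x < g, y < s x)
    (ho : Orc E g E' g' s) : Cof E g E' g' s := by
  have lim := limit_of_not_suc hg h0.ne'
  have hw := weak h hg hg' h0 e ho
  have r : rho E g = g := (l g (lt_add_one g)).2 hg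
  have r' : rho E' g' = g' := (l' g' (lt_add_one g')).2 hg'
  have st : ∀ a < g, Strong E (a + 1) E' (s a + 1) s := fun a ha =>
    KE.weak_restrict h (lim.add_one_lt ha)
  have s1 : ∀ a < g, ∃ p, SS E a p := fun a ha => (l a (KE.lt1 ha.le)).1
  have s2 : ∀ a < g, ∃ p, SS E' (s a) p := fun a ha => (l' _ (KE.lt1 (h.maps a ha).le)).1
  have hG : Good E g E' s := by
    refine ⟨hw, fun k hk => ?_, fun k t hk ht H a h1 h2 => ?_, fun k hk t n ht hn H v hv => ?_⟩
    · rw [e, r']; exact h.maps k (r ▸ hk)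
    · obtain ⟨x, h3, h4⟩ := hc a (e ▸ h2)
      have h5 : max x (max k t) < g := max_lt h3 (max_lt hk ht)
      exact GoodI.card (s1 _ h5) (s2 _ h5) (st _ h5) ((le_max_left _ _).trans (le_max_right _ _))
        ((le_max_right _ _).trans (le_max_right _ _)) (fun a h6 h7 => H a h6 (h7.trans h5)) a h1
        (h4.trans_le ((KE.w_le h h3 h5).2 (le_max_left _ _)))
    · rw [r] at hk
      obtain ⟨t1, t2, t3, t4⟩ := repl h hg hg' e ho hk ht
      obtain ⟨n1, n2, n3, n4⟩ := repl h hg hg' e ho hk hn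
      have h5 : max k (max t1.ht n1.ht) < g := max_lt hk (max_lt (t2.ht_lt lim) (n2.ht_lt lim))
      rw [t4 v hv, n4 v hv]
      exact GoodI.inc (s1 _ h5) (s2 _ h5) (st _ h5) (le_max_left _ _) t1 n1
        ((in_ht _).mono (((le_max_left _ _).trans (le_max_right _ _)).trans le_self_add))
        ((in_ht _).mono (((le_max_right _ _).trans (le_max_right _ _)).trans le_self_add))
        (fun w hw h6 => (n3 w hw).1 (H w hw ((t3 w hw).2 h6))) v hv
  have c2 : ∀ y < rho E' g', ∃ x < rho E g, y ≤ s x := fun y hy =>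
    let ⟨x, h1, h2⟩ := hc y (r' ▸ hy); ⟨x, r.symm ▸ h1, h2.le⟩
  subst e
  exact ⟨good_strong hG l l' (by
    rw [par_lim hg (l g (lt_add_one g)), par_lim hg' (l' _ (lt_add_one _))]; rfl) c2, c2⟩

/-- A weak map that carries one top extender to another with the same domain. -/
theorem act_cof (h : Weak E g E' g' s) (A : Act E g k t e) (A' : Act E' g' k t e') (hs : s g = g')
    (l : LS E (g + 1)) (l' : LS E' (g' + 1)) (hf : ∀ x < t, s x = x)
    (he : ∀ x < t, s (e x) = e' x) : Cof E g E' g' s := by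
  have hg := ActF.lim A
  have h0 : 0 < g := lt_of_le_of_lt zero_le A.dom
  have lim := limit_of_not_suc hg h0.ne'
  have l0 := l.mono (le_self_add (b := 1))
  have l0' := l'.mono (le_self_add (b := 1))
  refine cof h hg (ActF.lim A') h0 hs l l' (fun y hy => ?_) fun m hm => ?_
  · obtain ⟨x, h1, h2⟩ := A'.cof y hy
    exact ⟨e x, A.weak.maps x h1, he x h1 ▸ h2⟩
  obtain ⟨n, hn, H⟩ := F3.amen l0 A hm
  obtain ⟨a, a1, a2⟩ := A.cof m hm
  have ora1 : ∀ q : Tr.{u}, ora E g q ↔ In t q.fst ∧ q.snd = q.fst.map e := fun q =>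
    ActF.ora_iff A (x := q.fst) (y := q.snd)
  have ora2 : ∀ q : Tr.{u}, ora E' g' q ↔ In t q.fst ∧ q.snd = q.fst.map e' := fun q =>
    ActF.ora_iff A' (x := q.fst) (y := q.snd)
  have I := IsOp.id.{u}
  have S0 : ∀ q, In (s m) q → Nm E' (n.map s) q → In a q.fst := by
    have hz : In g (node (leaf m) (node (leaf a) n)) := by simp [hm, a1.trans A.dom, hn]
    have := (Df.ball (P := fun E _ q z => Nm E z.snd.snd q → In z.snd.fst.lab q.fst) (On.lab I.fst)
      ((Df.nm Fn.id.snd.snd.snd Fn.id.fst).imp (Df.in_ (On.lab I.snd.snd.fst)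
        Fn.id.fst.fst))).weak_lim h l0 l0' hg (hz.ht_lt lim) le_rfl (in_ht _)
    simp only [map_node, map_leaf, fst_node, snd_node, lab_leaf, hf a a1] at this
    refine this.2 fun q hq h1 y hy => ?_
    obtain ⟨h2, h3⟩ := (ora1 q).1 ((H q hq).1 h1)
    refine (KE.w_lt A.weak (h2 y hy) a1).1 (lt_trans (hq.snd _ ?_) a2)
    rw [h3, lv_map]
    exact ⟨y, hy, rfl⟩
  have S1 : ∀ x, In t x → ∀ q, In (s m) q → q.fst = x →
      (Nm E' (n.map s) q ↔ q.snd = x.map e') := fun x hx => by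
    have hz : In g (node (leaf m) (node n (node x (x.map e)))) := by
      simp [hm, hn, hx.mono A.dom.le, KE.w_in A.weak hx]
    have := (Df.ball (P := fun E _ q z => q.fst = z.snd.snd.fst →
      (Nm E z.snd.fst q ↔ q.snd = z.snd.snd.snd)) (On.lab I.fst)
      ((Df.eq Fn.id.fst.fst Fn.id.snd.snd.snd.fst).imp ((Df.nm Fn.id.snd.snd.fst Fn.id.fst).iff
        (Df.eq Fn.id.fst.snd Fn.id.snd.snd.snd.snd)))).weak_lim h l0 l0' hg (hz.ht_lt lim) le_rfl
        (in_ht _)
    simp only [map_node, map_leaf, fst_node, snd_node, lab_leaf, CU.map_fix hf hx, map_map,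
      map_congr (f := fun y => s (e y)) fun y hy => he y (hx y hy)] at this
    refine this.2 fun q hq h1 => ?_
    refine (H q hq).trans ?_
    rw [ora1, h1]
    exact and_iff_right hx
  refine ⟨n, hn, H, fun q hq => ⟨fun h1 => ?_, fun h1 => ?_⟩⟩
  · have h2 := (S0 q hq h1).mono a1.le
    exact (ora2 q).2 ⟨h2, (S1 _ h2 q hq rfl).1 h1⟩
  · exact (S1 _ ((ora2 q).1 h1).1 q hq rfl).2 ((ora2 q).1 h1).2

end Pool.Agent.KM.LimCof
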