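import Pool.Agent.Lib.MP_5c0be7_lc.T.Fold
import Pool.Agent.Lib.MP_5c0be7_lc.K.Pass
import Pool.Agent.Lib.MP_5c0be7_lc.K.Hull

/-!
Project KM, block T3: an extender that returns to the first root is realised over a premouse that
is linked to the second root through two extensions of one tree.
-/

set_option linter.unusedSectionVars false

namespace Pool.Agent.KM.Link

open Ordinal Tr KE Set _root_.Pool.Agent.KM.Real
open scoped Classical

universe u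

variable {C : Cfg.{u}} {T R1 R2 : IT.{u}} {E E' A W : Seq.{u}}
  {a a0 b c e1 g i j k l l1 l2 t th v x y : Ordinal.{u}} {e f r j1 : Ordinal.{u} → Ordinal.{u}}
  {N N0 : Cn.{u}} {n : Ordinal.{u} → Cn.{u}} {s : Ordinal.{u} → Ordinal.{u} → Ordinal.{u}}

theorem good_left (H : Agree E E' (b + 1)) (h : Good E b A f) : Good E' b A f where
  toWeak := KL.weak_left H h.toWeak
  proj k hk := h.proj k (KL.rho_lt H (lt_add_one _) ▸ hk)
  card k t h1 h2 h3 := h.card k t h1 h2 fun a h4 h5 => KL.rho_lt H (lt1 h5.le) ▸ h3 a h4 h5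
  inc k hk t n ht hn h1 := h.inc k (KL.rho_lt H (lt_add_one _) ▸ hk) t n ht hn fun w hw h2 =>
    (KN.anm H hn).2 (h1 w hw ((KN.anm H ht).1 h2))

theorem rz_left (H : Agree E E' (b + 1)) (h : Rz C g E b N f) : Rz C g E' b N f :=
  ⟨h.ok, good_left H h.good, h.top, h.base⟩

theorem trRz_congr (H : R2.EqLt R1 (a + 1)) (hT : R2.IsTr l) (hn : R2.n ≤ c) (hc : c ≤ a)
    (hl : c ≤ l) (h : TrRz C g R2 l n s) : TrRz C g R1 c n s := by
  have n1 : ∀ i ≤ R1.n, i < a + 1 := fun i hi => lt1 ((H.n ▸ hi).trans (hn.trans hc))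
  refine ⟨⟨fun i hi => ?_, fun i j k t x h1 h2 h3 h4 h5 h6 h7 h8 h9 h10 => ?_⟩, fun j hj => ?_⟩
  · rw [H.E (n1 i hi), H.b (n1 i hi)]; exact h.root.rz i (H.n ▸ hi)
  · have h0 : ∀ m ≤ i, R1.la m = R2.la m := fun m hm =>
      H.la ((IT.s_le (hm.trans_lt h1)).trans_lt (n1 j h2))
    rw [H.E (n1 j h2), H.b (n1 j h2)] at h8 h9
    rw [H.E (h1.trans (n1 j h2)), H.b (h1.trans (n1 j h2))] at h10
    exact h.root.ag i j k t x h1 (H.n ▸ h2) h3 h4 (fun m hm => h0 m hm.le ▸ h5 m hm)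
      (h0 i le_rfl ▸ h6) (h0 i le_rfl ▸ h7) h8 h9 h10
  · have j1 : j < a + 1 := lt1 (hj.trans hc)
    have hR := h.node j (hj.trans hl)
    refine ⟨by rw [H.E j1, H.b j1]; exact hR.rz, fun k h1 h2 => ?_, fun h1 h2 i hi hd => ?_⟩
    · rw [H.pr (h2 ▸ j1), H.st (h2 ▸ j1), H.im (h2 ▸ j1)]; exact hR.succ k (H.n ▸ h1) h2
    · rw [H.b (hi.trans j1), H.mp j1]
      exact hR.lim (H.n ▸ h1) h2 i hi ((H.nd_iff j1 hT (hj.trans hl)).1 hd)

variable [TreeSt.{u}] [KTreeSt.{u}] [KRealSt.{u}] [ActSt.{u}]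

/-- The first return is threaded into the realisation of the second root. -/
theorem first (hT : T.IsTr j) (hn : T.n = 1) (hC : T.Ctb j) (hA : T.Above (T.la 0) j)
    (hu : T.Use j v k t e) (hk : k < T.la 0) (h0 : Rz C (T.la 0) (T.E 0) (T.b 0) N0 r)
    (h1 : Rz C (T.la 0) (T.E 1) (T.b 1) N f) :
    ∃ q : Ordinal.{u} → Ordinal.{u}, (∀ z < e k, q z < f k) ∧ ∀ m w : Tr.{u}, In t m →
      In (e k) w → (Nm (T.E j) (m.map e) w ↔ Nm N.E (m.map f) (w.map q)) := by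
  have hR0 : RootRz C (T.la 0) T (fun i => if i = 0 then N0 else N)
      fun i => if i = 0 then r else f := by
    refine ⟨fun i hi => ?_, fun i j k t c h2 h3 h4 _ _ h5 => ?_⟩
    · rcases Phx.le_one' (hn ▸ hi) with rfl | rfl
      · simpa using h0
      · simpa using h1
    · obtain ⟨rfl, -⟩ := Phx.pair01 h2 (hn ▸ h3)
      exact absurd h5 h4.not_gt
  obtain ⟨n, s, hR, he⟩ := IterI.extend hT hA hC le_rfl hT.le (IterI.trRz_root hR0)
  obtain ⟨e1, e2⟩ := he 1 hn.ge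
  simp only [one_ne_zero, if_false] at e1 e2
  have j1 : 1 ≤ j := hn ▸ hT.le
  have j0 : 0 < j := zero_lt_one.trans_le j1
  obtain ⟨p, x, hp⟩ := TreeSt.pred_ex hT hu
  obtain rfl : p = 0 := by_contra fun h => absurd (hp.min 0 (pos_iff_ne_zero.2 h)) hk.not_ge
  have h2 : t ≤ T.la 0 := (TreeSt.pred_agree hT hu hp).2.2 j0
  have h3 := fun m (a1 : 0 < m) (a2 : m ≤ j) => TreeSt.pred_card hT hu hp a1 a2
  have h4 : ∀ m, 0 < m → m ≤ j → t ≤ T.b m := fun m a1 a2 =>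
    h2.trans (TreeSt.la_le hT j0 a1.le a2)
  have pj := (TreeSt.pm hT le_rfl).toPM0
  have hv : T.la 0 ≤ v := (hu.inc 0 j0).trans (TA.act_la hu.act).le
  have r1 := rz_res pj (hR.node j le_rfl).rz hu.le hv
  have q1 := res_eqv pj (hR.node j le_rfl).rz hu.le le_rfl hv hu.act.dom.le (h3 j j0 le_rfl)
  rw [rn_top (hR.node _ le_rfl).rz.top, rm_top (hR.node _ le_rfl).rz.top] at q1
  have q2 : Eqv (n j).E (s j) N.E f t := by
    rcases j1.eq_or_lt with rfl | j2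
    · rw [e1, e2]; exact IIp.eqv_of_eq fun _ _ => rfl
    have := eq_branch hT hA le_rfl hR.node j2 ⟨j1, fun d _ d2 d3 => Order.one_le_iff_pos.2
      (pos_iff_ne_zero.2 fun d4 => absurd (d4 ▸ TA.ka_lt (hT.step d d3 d2)) (hA d d3 d2).not_gt)⟩
      (fun m a1 a2 => ⟨hn ▸ a1, h3 m (zero_lt_one.trans a1) a2.1, h4 m (zero_lt_one.trans a1) a2.1,
        fun d d1 d2 => h2.trans (hA d d1 (IT.s_lt (d2 ▸ a2.1)))⟩) (h4 1 zero_lt_one j1) le_rfl
      (h3 1 zero_lt_one j1) fun h => absurd h (lt_irrefl _)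
    rwa [rn_top (hR.node _ j1).rz.top, rm_top (hR.node _ j1).rz.top, e1, e2] at this
  obtain ⟨q, k1, -, -, -, -, k2⟩ := Step.thread ∅ countable_empty (hu.le.trans_lt (hC j le_rfl))
    (pm0_mono pj (by gcongr; exact hu.le)) hu.act (rz_pm r1) r1.good
    (fun k' t' e' ha => (Cert.topOK r1.ok _ k' t' e' rfl (r1.top ▸ ha)).1)
    ((q1.trans q2).ag hu.act.lt)
  exact ⟨_, k1, k2⟩

/-- The data of two extensions of one tree. -/
structure Two (R1 R2 : IT.{u}) (a l1 l2 y e1 t : Ordinal.{u}) : Prop where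
  eq : R1.EqLt R2 (a + 1)
  tr1 : R1.IsTr l1
  tr2 : R2.IsTr l2
  n : R1.n = 0
  le1 : a ≤ l1
  le2 : a ≤ l2
  last : l2 = a ∨ ∃ i, a ≤ i ∧ l2 = i + 1 ∧ R2.pr i ≤ a ∧ t ≤ R2.ka i
  y1 : y ≤ R2.b l2
  y2 : t ≤ y
  y3 : IsCard (R2.E l2) (y + 1) t
  x1 : e1 ≤ R1.b l1
  x2 : t ≤ e1
  x3 : IsCard (R1.E l1) (e1 + 1) t
  new : a < l1 → t ≤ R1.la a

theorem card_trans (h : IsCard E c g) (h' : IsCard E b c) (hg : g ≤ c) : IsCard E b g :=
  fun z z1 z2 => (lt_or_ge z c).elim (h z z1) fun z3 => hg.trans (h' z z3 z2)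

theorem lev_eqv (hE : PM0 E (b + 1)) (h : Rz C 0 E b N f) (h1 : x ≤ b) (h2 : y ≤ b) (h3 : t ≤ x)
    (h4 : t ≤ y) (h5 : IsCard E (x + 1) t) (h6 : IsCard E (y + 1) t) :
    Eqv (rn C N f x).E (rm C N f x) (rn C N f y).E (rm C N f y) t := by
  rcases le_total x y with h7 | h7
  · exact res_eqv hE h h7 h2 zero_le h3 h6
  · exact (res_eqv hE h h7 h1 zero_le h4 h5).symm

/-- The level `y` of the last model of `R2` is attached to a common node. -/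
theorem Two.att (h : Two R1 R2 a l1 l2 y e1 t) (hR : TrRz C 0 R2 l2 n s) :
    ∃ N f c x, Rz C 0 (R2.E l2) y N f ∧ c ≤ a ∧ t ≤ x ∧ x ≤ R2.b c ∧ IsCard (R2.E c) (x + 1) t ∧
      (c < a → t ≤ R2.la c) ∧
      Eqv N.E f (rn C (n c) (s c) x).E (rm C (n c) (s c) x) t := by
  have hT := h.tr2
  have n2 : R2.n = 0 := h.eq.n.trans h.n
  have p2 := (TreeSt.pm hT le_rfl).toPM0
  have r2 := rz_res p2 (hR.node _ le_rfl).rz h.y1 zero_le
  rcases h.last with rfl | ⟨i, i1, rfl, i2, i3⟩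
  · exact ⟨_, _, _, y, r2, le_rfl, h.y2, h.y1, h.y3, fun h => absurd h (lt_irrefl _),
      IIp.eqv_of_eq fun _ _ => rfl⟩
  have i0 : R2.n ≤ i := n2 ▸ zero_le
  have hs := hT.step i i0 (lt_add_one i)
  have hi := hT.mono i0 (lt_add_one i).le
  have c1 : R2.pr i ≤ i + 1 := i2.trans h.le2
  have pc := (TreeSt.pm hT c1).toPM0
  have ag : Agree (R2.E (R2.pr i)) (R2.E (i + 1)) (R2.ta i) :=
    KL.ag_trans (TreeSt.pred_agree hi hs.use hs.pred).1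
      (KL.ag_mono (KL.ag_symm hs.agree) hs.use.act.dom.le)
  have k1 := Seg.ka_lt_ta hs
  have k2 := Seg.ka_lt_st hs
  have kc : IsCard (R2.E (R2.pr i)) (R2.st i + 1) (R2.ka i) := fun z z1 z2 => by
    rcases lt_or_ge z (R2.ta i) with z3 | z3
    · exact (TreeSt.pred_ext hi hs.use hs.pred).card z z1 z3
    · exact (hs.pred.noproj z z3 z2).le
  have k3 : R2.pr i < a → t ≤ R2.la (R2.pr i) := fun _ => i3.trans (TA.ka_lt hs).le
  rcases lt_or_ge y (R2.ka i) with k4 | k4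
  · have k5 : y ≤ R2.b (R2.pr i) := (k4.trans k2).le.trans hs.pred.st_le
    have k6 := KL.ag_mono ag (IT.s_le (k4.trans k1))
    exact ⟨_, _, _, y, rz_left k6 (rz_res pc (hR.node _ c1).rz k5 zero_le), i2, h.y2, k5,
      KL.card_ag (KL.ag_symm k6) h.y3, k3, IIp.eqv_of_eq fun _ _ => rfl⟩
  have k5 : IsCard (R2.E (i + 1)) (R2.ka i) t := KL.card_mono h.y3 (k4.trans (lt_add_one y).le)
  have k6 : IsCard (R2.E (i + 1)) (R2.b (i + 1) + 1) (R2.ka i) := fun z z1 z2 => by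
    rcases lt_or_ge z (R2.nu i) with z3 | z3
    · exact KL.rho_lt hs.agree z3 ▸ TA.act_card hs.use.act z z1 z3
    · exact (Seg.ka_lt_la hs).le.trans (TreeSt.card hT (lt_add_one i) le_rfl z
        ((Seg.la_lt_nu hs).le.trans z3) z2)
  have k7 := card_trans (KL.card_ag (KL.ag_mono (KL.ag_symm ag) k1.le) k5) kc i3
  have q1 := res_eqv p2 (hR.node _ le_rfl).rz h.y1 le_rfl zero_le h.y2 (card_trans k5 k6 i3)
  rw [rn_top (hR.node _ le_rfl).rz.top, rm_top (hR.node _ le_rfl).rz.top] at q1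
  exact ⟨_, _, _, R2.st i, r2, i2, i3.trans k2.le, hs.pred.st_le, k7, k3, q1.trans
    (step_eqv hT IT.above_zero i0 (lt_add_one i) (hR.node _ c1) (hR.node _ le_rfl) le_rfl
      hs.pred.st_le i3 k7)⟩

/-- Passengers go from a level of node `c` to a level of the last node. -/
theorem carry {B : Set Ordinal.{u}} (hT : T.IsTr l) (hC : T.Ctb l) (hn : T.n ≤ c) (hc : c ≤ l)
    (hR : TrRz C 0 T c n s) (hk : k < t) (x1 : t ≤ x) (x2 : x ≤ T.b c)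
    (x3 : IsCard (T.E c) (x + 1) t) (hl : c < l → t ≤ T.la c) (y1 : t ≤ y) (y2 : y ≤ T.b l)
    (y3 : IsCard (T.E l) (y + 1) t) (hB : B.Countable) (hb : ∀ z ∈ B, z < rm C (n c) (s c) x k) :
    ∃ N f q, Rz C 0 (T.E l) y N f ∧
      Car (rn C (n c) (s c) x).E (rm C (n c) (s c) x) N.E f k t B q := by
  have pc := (TreeSt.pm hT hc).toPM0
  have rc := (hR.node c le_rfl).rz
  rcases hc.eq_or_lt with rfl | hc'
  · exact ⟨_, _, _, rz_res pc rc y2 zero_le,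
      Pass.car_eqv (Pass.car_id hb) (lev_eqv pc rc x2 y2 x1 y1 x3 y3) hk⟩
  have ag := TreeSt.agree hT hc' le_rfl
  rcases lt_or_ge y (T.la c) with h1 | h1
  · have h2 := KL.ag_mono ag (IT.s_le h1)
    have h3 : y ≤ T.b c := h1.le.trans (TreeSt.la_le hT hc' le_rfl hc)
    exact ⟨_, _, _, rz_left h2 (rz_res pc rc h3 zero_le), Pass.car_eqv (Pass.car_id hb)
      (lev_eqv pc rc x2 h3 x1 y1 x3 (KL.card_ag (KL.ag_symm h2) y3)) hk⟩
  have hs := hT.step c hn hc'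
  have h2 : IsCard (T.E l) (T.la c) t := KL.card_mono y3 (h1.trans (lt_add_one y).le)
  have h3 := KL.card_ag (KL.ag_symm ag) h2
  have h4 : IsCard (T.E c) (T.nu c + 1) t := fun z z1 z2 => by
    rcases (le1 z2).lt_or_eq with z3 | rfl
    · exact card_trans h3 (hs.la ▸ ActSt.card (pm0_mono pc (hs.use.le.trans (lt_add_one _).le)).ls
        hs.use.act) (hl hc') z z1 z3
    · exact z1.trans (not_lt.1 fun z4 => TA.act_nsuc hs.use.act
        (KL.suc_of_rho (pc.ls _ (lt1 hs.use.le)) z4))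
  have q1 := lev_eqv pc rc x2 hs.use.le x1 ((hl hc').trans (Seg.la_lt_nu hs).le) x3 h4
  obtain ⟨n', s', q, k1, -, k2⟩ := Pass.pass hT IT.above_zero hC hn hc' hR hk (hl hc') h3 hB
    fun z hz => (q1 k hk).1 ▸ hb z hz
  have pl := (TreeSt.pm hT le_rfl).toPM0
  have q2 := res_eqv pl (k1.node _ le_rfl).rz y2 le_rfl zero_le y1
    (card_trans h2 (TreeSt.card hT hc' le_rfl) (hl hc'))
  rw [rn_top (k1.node _ le_rfl).rz.top, rm_top (k1.node _ le_rfl).rz.top] at q2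
  exact ⟨_, _, q, rz_res pl (k1.node _ le_rfl).rz y2 zero_le,
    Pass.car_eqv (Pass.eqv_car q1 k2) q2.symm hk⟩

/-- The countable case. -/
theorem Two.ctb (h : Two R1 R2 a l1 l2 y e1 t) (c1 : R1.Ctb l1) (c2 : R2.Ctb l2)
    (hR : RootRz C 0 R2 n s) (hk : k < t) :
    ∃ N f, Rz C 0 (R2.E l2) y N f ∧ ∀ B : Set Ordinal.{u}, B.Countable → (∀ z ∈ B, z < f k) →
      ∃ N' f' q, Rz C 0 (R1.E l1) e1 N' f' ∧ Car N.E f N'.E f' k t B q := by
  obtain ⟨n, s, hR, -⟩ := IterI.extend h.tr2 IT.above_zero c2 le_rfl h.tr2.le (IterI.trRz_root hR)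
  obtain ⟨N, f, c, x, h1, h2, h3, h4, h5, h6, h7⟩ := h.att hR
  refine ⟨N, f, h1, fun B hB hb => ?_⟩
  have n2 : R2.n ≤ c := (h.eq.n.trans h.n).le.trans zero_le
  rw [h.eq.b (lt1 h2)] at h4
  rw [h.eq.E (lt1 h2)] at h5
  obtain ⟨N', f', q, k1, k2⟩ := carry h.tr1 c1 (h.n.le.trans zero_le) (h2.trans h.le1)
    (trRz_congr h.eq.symm h.tr2 n2 h2 (h2.trans h.le2) hR) hk h3 h4 h5 (fun hc => by
      rcases h2.lt_or_eq with h8 | rfl
      · exact h.eq.la (s1lt h8) ▸ h6 h8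
      · exact h.new hc) h.x2 h.x1 h.x3 hB fun z hz => (h7 k hk).1 ▸ hb z hz
  exact ⟨N', f', q, k1, Pass.eqv_car h7 k2⟩

variable [CondSt.{u}]

/-- The joint hull of the two trees. -/
theorem Two.hull (h : Two R1 R2 a l1 l2 y e1 t) {X : Set Ordinal.{u}} (hX : X.Countable) :
    ∃ p T1 T2 a' l1' l2' y' e1' t' o, Two T1 T2 a' l1' l2' y' e1' t' ∧ IT.Emb T1 R1 p o (l1' + 1) ∧
      IT.Emb T2 R2 p o (l2' + 1) ∧ p l1' = l1 ∧ p l2' = l2 ∧ p y' = y ∧ p e1' = e1 ∧ p t' = t ∧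
      X ⊆ range p := by
  obtain ⟨p, o, hp, ho, c1, c2, ⟨a', a1, rfl⟩, ⟨l1', a2, rfl⟩, ⟨l2', a3, rfl⟩, ⟨y', -, rfl⟩,
    ⟨e1', -, rfl⟩, ⟨t', -, rfl⟩, a4⟩ := (R1.club_clo.and (R2.club_clo.and ((Club.mem a).and
      ((Club.mem l1).and ((Club.mem l2).and ((Club.mem y).and ((Club.mem e1).and
        ((Club.mem t).and (Club.sub hX))))))))).enum
  have s1 := Hull.succ hp c1 a2
  have s2 := Hull.succ hp c2 a3
  have e1 := Hull.emb hp c1 ho s1.1 (s1.2 ▸ lt1 h.tr1.le) fun j h1 h2 =>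
    h.tr1.mono h2 (KE.le1 (s1.2 ▸ h1))
  have e2 := Hull.emb hp c2 ho s2.1 (s2.2 ▸ lt1 h.tr2.le) fun j h1 h2 =>
    h.tr2.mono h2 (KE.le1 (s2.2 ▸ h1))
  have cd : ∀ {T : IT.{u}} {l z}, IT.Emb (T.pull p) T p o (l + 1) → p z ≤ T.b (p l) →
      IsCard (T.E (p l)) (p z + 1) (p t') →
      z ≤ (T.pull p).b l ∧ IsCard ((T.pull p).E l) (z + 1) t' := fun {T l z} e h1 h2 => by
    have h3 := e.b l ((lt_add_one l).trans e.co)
    have h4 := hp.le_iff_le.1 (h3 ▸ h1)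
    exact ⟨h4, Hull.card_down hp (strong_restrict (h3 ▸ e.str l (lt_add_one l)) h4) h2⟩
  refine ⟨p, _, _, a', l1', l2', y', e1', t', o, ⟨⟨congrArg (Function.invFun p) h.eq.n,
    fun i hi => congrArg (Nd.pull p) (h.eq.2 _ (lt1 (hp.monotone (KE.le1 hi))))⟩,
    e1.tr _ (lt_add_one _) (KE.le1 e1.lt), e2.tr _ (lt_add_one _) (KE.le1 e2.lt),
    hp.injective (by rw [e1.root.n, h.n, e1.root.fin 0 omega0_pos]), hp.le_iff_le.1 h.le1,
    hp.le_iff_le.1 h.le2, ?_, (cd e2 h.y1 h.y3).1, hp.le_iff_le.1 h.y2, (cd e2 h.y1 h.y3).2,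
    (cd e1 h.x1 h.x3).1, hp.le_iff_le.1 h.x2, (cd e1 h.x1 h.x3).2,
    fun k => hp.le_iff_le.1 (e1.la _ a1 ▸ h.new (hp k))⟩, e1, e2, rfl, rfl, rfl, rfl, rfl,
    a4.trans (image_subset_range _ _)⟩
  rcases h.last with k | ⟨i, i1, i2, i3, i4⟩
  · exact Or.inl (hp.injective k)
  obtain ⟨i', j1, j2, rfl⟩ := Hull.of_succ hp c2 a3 i2
  exact Or.inr ⟨i', hp.le_iff_le.1 i1, j2, hp.le_iff_le.1 (e2.pr _ j1 ▸ i3),
    hp.le_iff_le.1 (e2.ka _ j1 ▸ i4)⟩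

theorem fac {T0 : IT.{u}} {p : Ordinal.{u} → Ordinal.{u}} {o : Ordinal.{u}}
    (e : IT.Emb T0 T p o (l + 1)) (h : Good A b (T.E (p l)) f) (hb : f b ≤ T.b (p l))
    (hr : f '' Iic b ⊆ range p) : ∃ f', Good A b (T0.E l) f' ∧ ∀ x ≤ b, p (f' x) = f x := by
  have h3 := e.b l ((lt_add_one l).trans e.co)
  obtain ⟨f', h1, -, h2⟩ := IIp.factor e.root.mono (h3 ▸ e.str l (lt_add_one l)) h fun x hx => by
    obtain ⟨z, hz⟩ := hr ⟨x, hx, rfl⟩
    exact ⟨z, e.root.mono.le_iff_le.1 (by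
      rw [hz, h3]; exact (le1 (h.maps x (lt1 hx))).trans hb), hz⟩
  exact ⟨f', h1, h2⟩

variable [KIISt.{u}]

/-- The link lemma. -/
theorem link {w : Ordinal.{u}} (hC : C.be = 0) (hP : PII C 0 R2) (h : Two R1 R2 a l1 l2 y e1 w)
    (hT : T.IsTr j) (hn : T.n = 1) (hc : T.Ctb j) (hA : T.Above (T.la 0) j)
    (hu : T.Use j v k t e) (hk : k < T.la 0) (h0 : II C 0 (T.E 0) (T.b 0))
    (hf : Good (T.E 1) (T.b 1) (R2.E l2) f) (hy : f (T.b 1) = y) (ha : a0 < ω₁) (ht : t ≤ a0)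
    (hj : Good A a0 (R1.E l1) j1) (he : j1 a0 = e1) (hx : ∀ x < t, f x = j1 x ∧ f x < w) :
    ∃ G jj q, PM0 G (jj a0 + 1) ∧ II C 0 G (jj a0) ∧ Good A a0 G jj ∧
      (∀ z < e k, q z < jj k) ∧ ∀ m u : Tr.{u}, In t m → In (e k) u →
        (Nm (T.E j) (m.map e) u ↔ Nm G (m.map jj) (u.map q)) := by
  have j1' : 1 ≤ j := hn ▸ hT.le
  have j0 : 0 < j := zero_lt_one.trans_le j1'
  obtain ⟨p, T1, T2, a', l1', l2', y', e1', w', o, h', e1, e2, rfl, rfl, rfl, rfl, rfl, hX⟩ :=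
    h.hull (((IIp.ctb_Iic (hc 1 j1')).image f).union ((IIp.ctb_Iic ha).image j1))
  have hp := e1.root.mono
  obtain ⟨f', f1, f2⟩ := fac e2 hf (hy ▸ h.y1) (subset_union_left.trans hX)
  obtain ⟨j', g1, g2⟩ := fac e1 hj (he ▸ h.x1) (subset_union_right.trans hX)
  have t1 : t ≤ T.b 1 := by
    obtain ⟨p, x, hp⟩ := TreeSt.pred_ex hT hu
    obtain rfl : p = 0 := by_contra fun h => absurd (hp.min 0 (pos_iff_ne_zero.2 h)) hk.not_ge
    exact ((TreeSt.pred_agree hT hu hp).2.2 j0).trans (TreeSt.la_le hT j0 zero_le j1')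
  have q1 : ∀ x < t, f' x = j' x ∧ f' x < w' := fun x h1 => by
    rw [← hp.injective.eq_iff, ← hp.lt_iff_lt, f2 x (h1.le.trans t1), g2 x (h1.le.trans ht)]
    exact hx x h1
  obtain ⟨n, s, hR⟩ := hP T2 p 0 e2.root (e2.root.fin 0 omega0_pos)
  obtain ⟨N, r, r1, r2⟩ := h'.ctb (IterI.emb_ctb e1 (lt_add_one _))
    (IterI.emb_ctb e2 (lt_add_one _)) hR (q1 k hu.act.lt).2
  have z0 : ∀ {E b N f g}, Rz C 0 E b N f → Rz C g E b N f := fun h =>
    ⟨h.ok, h.good, h.top, fun _ _ _ => hC ▸ zero_le⟩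
  have p0 := (TreeSt.pm hT j0.le).toPM0
  obtain ⟨N0, r0, r3⟩ := h0 _ _ 0 id (hc 0 j0.le) p0 (KGoodSt.strong_good p0 p0 strong_id) rfl
    fun _ _ _ => zero_le
  have y1 : f' (T.b 1) = y' := hp.injective (by rw [f2 _ le_rfl, hy])
  have y2 : j' a0 = e1' := hp.injective (by rw [g2 _ le_rfl, he])
  obtain ⟨q, k1, k2⟩ := first hT hn hc hA hu hk (z0 r3)
    (z0 (IIp.rz_pre (g0 := 0) (y1 ▸ r1) f1 fun _ _ _ => zero_le))
  obtain ⟨N', r', q', k3, k4⟩ := r2 (q '' Iio (e k)) ((Step.ctb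
    ((TA.act_la hu.act).trans (hu.le.trans_lt (hc j le_rfl)))).image q) (by
      rintro _ ⟨z, hz, rfl⟩; exact k1 z hz)
  have k5 := IIp.rz_pre (g0 := 0) (y2 ▸ k3) g1 fun _ _ _ => zero_le
  refine ⟨N'.E, r' ∘ j', q' ∘ q, rz_pm k5, ?_, k5.good, fun z hz => ?_, fun m u hm hu' => ?_⟩
  · rw [k5.top, ← hC]; exact KIISt.cert k5.ok
  · rw [Function.comp_apply, Function.comp_apply, ← (q1 k hu.act.lt).1]
    exact k4.lt _ ⟨z, hz, rfl⟩
  · rw [k2 m u hm hu', map_comp, map_comp, map_comp, ← KN.map_eq (fun x h => (q1 x h).1) hm]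
    refine k4.nm _ _ (in_map fun z hz => (q1 z (hm z hz)).2) fun z hz => ?_
    rw [lv_map] at hz
    obtain ⟨z', h1, rfl⟩ := hz
    exact ⟨z', hu' z' h1, rfl⟩

end Pool.Agent.KM.Link
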