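import Pool.Agent.Lib.MP_5c0be7_lc.T.StCov
import Pool.Agent.Lib.MP_5c0be7_lc.K.Pass

/-!
Project KM, block T3: the hypothesis of the phalanx lemma for the lift. Statements.
-/

namespace Pool.Agent.KM

open Ordinal Cardinal Tr Set

universe u

/-- Countable parts of `W` and of a level of the lift go back along one thread. -/
class UBackSt : Prop where
  back : ∀ {S : Cov.{u}} {m t E b F g c} {W0 F0 : Seq.{u}} {a0 b0 p}, S.Ok → S.Unf m t E b →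
    S.Lift m t E b F g → m ≤ c → c ≤ b → a0 < ω₁ → b0 < ω₁ → StrictMono p → PM0 W0 (a0 + 1) →
    PM0 F0 (b0 + 1) → Strong W0 (a0 + 1) S.W (S.th + 1) p → Strong F0 (b0 + 1) F (g c + 1) p →
    ∃ w s, Strong W0 (a0 + 1) S.Eb (S.bb + 1) w ∧ Good F0 b0 E s ∧
      (∀ x ≤ a0, ∀ y ≤ S.bb, p x = S.pi y → w x = y) ∧
      (∀ x ≤ b0, ∀ y ≤ b, p x = g y → s x = y) ∧ ∀ x, p x < S.pi m → w x = s x

/-- A tree that ends with a critical point in `[k0, l)` stays below the images of `y`. -/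
class TruncSt : Prop where
  trunc : ∀ {W F : Seq.{u}} {th b l h y k0 j v k t e} {U : IT.{u}},
    (IT.two W th F b l).EqLt U 2 → U.IsTr j → U.Above l j → U.Use j v k t e → k0 ≤ k → k < l →
    l < h → y ≤ b → IsNext F (b + 1) h y → LimC F (b + 1) h → Pas F y →
    (∀ x, k0 ≤ x → x < h → ¬ StrongTo F h x) →
    (∀ k' t' e', Act F b k' t' e' → k' < k0 ∨ h ≤ k') →
    ∃ U' : IT.{u}, (IT.two W th F y l).EqLt U' 2 ∧ U'.IsTr j ∧ U'.Above l j ∧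
      U'.Use j v k t e ∧ U'.E j = U.E j

/-- The first return of a countable tree is realised over a model that embeds in `R1`. -/
class LinkSt : Prop where
  link : ∀ {C : Cfg.{u}} {W A : Seq.{u}} {R1 R2 T0 : IT.{u}} {th a l1 l2 n y e1 j0 v0 k0 t0 a0}
    {e0 s j1}, C.be = 0 → II C 0 W th → (IT.one W th).EqLt R1 1 → R1.EqLt R2 (a + 1) →
    R1.IsTr l1 → R2.IsTr l2 → a ≤ l1 → a ≤ l2 →
    (l2 = a ∨ ∃ i, a ≤ i ∧ l2 = i + 1 ∧ R2.pr i ≤ a ∧ n ≤ R2.ka i) → y ≤ R2.b l2 → n ≤ y →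
    IsCard (R2.E l2) (y + 1) n → e1 ≤ R1.b l1 → n ≤ e1 → IsCard (R1.E l1) (e1 + 1) n →
    (∀ j < a, R1.la j ≤ e1) → (∀ j, a ≤ j → j < l1 → n ≤ R1.la j ∧ R1.nu j ≤ e1) →
    T0.IsTr j0 → T0.n = 1 → T0.Ctb j0 → T0.Above (T0.la 0) j0 → T0.Use j0 v0 k0 t0 e0 →
    k0 < T0.la 0 → II C 0 (T0.E 0) (T0.b 0) → Good (T0.E 1) (T0.b 1) (R2.E l2) s →
    s (T0.b 1) = y → a0 < ω₁ → PM0 A (a0 + 1) → t0 ≤ a0 → Good A a0 (R1.E l1) j1 → j1 a0 = e1 →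
    (∀ x < t0, s x = j1 x ∧ s x < n) →
    ∃ G jj q, PM0 G (jj a0 + 1) ∧ II C 0 G (jj a0) ∧ Good A a0 G jj ∧
      (∀ z < e0 k0, q z < jj k0) ∧ ∀ m w : Tr.{u}, In t0 m → In (e0 k0) w →
        (Nm (T0.E j0) (m.map e0) w ↔ Nm G (m.map jj) (w.map q))

end Pool.Agent.KM
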