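import Pool.Agent.Lib.MP_5c0be7_lc.T.Link
import Pool.Agent.Lib.MP_5c0be7_lc.T.StRet

/-!
Project KM, block T3: the instance of the link lemma.
-/

namespace Pool.Agent.KM

open Ordinal

universe u

instance [TreeSt.{u}] [KTreeSt.{u}] [KRealSt.{u}] [ActSt.{u}] [CondSt.{u}] [KIISt.{u}] :
    LinkSt.{u} where
  link {C W A R1 R2 T0 th a l1 l2 n y e1 j0 v0 k0 t0 a0 e0 s j1} hC hW h1 h2 t1 t2 a1 a2 hl y1 y2
      y3 x1 x2 x3 _ hn hT n1 hc hA hu hk h0 hf hy ha _ ht hj he hx := by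
    have h3 : (IT.one W th).EqLt R2 1 := h1.trans (h2.mono (by simp))
    have h4 := t2.phal.pm 0 zero_le
    rw [h3.E zero_lt_one, h3.b zero_lt_one] at h4
    have h5 : PII C 0 (IT.one W th) := KIISt.one h4.toPM0 hW
    exact Link.link hC (IterI.pii_congr h5 (by simpa [IT.one] using h3))
      ⟨h2, t1, t2, h1.n, a1, a2, hl, y1, y2, y3, x1, x2, x3, fun h => (hn a le_rfl h).1⟩
      hT n1 hc hA hu hk h0 hf hy ha ht hj he hx

end Pool.Agent.KM
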