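import Pool.Agent.Lib.MP_5c0be7_lc.T.StEnd
import Pool.Agent.Lib.MP_5c0be7_lc.T.Tame
import Pool.Agent.Lib.MP_5c0be7_lc.K.II

/-!
Project KM, block T: premice that locally embed in levels of a realisable premouse.
-/

namespace Pool.Agent.KM.LocII

open Ordinal Tr KE Set IIp

universe u

variable {C : Cfg.{u}} {T : IT.{u}} {E W : Seq.{u}} {b i l th : Ordinal.{u}}
  {P : Ordinal.{u} → Prop}

variable [HullSt.{u}] [CondSt.{u}]

/-- A phalanx whose countable subphalanxes embed coherently in levels of a realisable premouse is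
realisable. -/
theorem pii_loc (hW : PM0 W (th + 1)) (hI : II C 0 W th)
    (H : ∀ T0 p, RootEmb T0 T p → ∃ s : Ordinal.{u} → Ordinal.{u} → Ordinal.{u},
      (∀ j ≤ T0.n, Good (T0.E j) (T0.b j) W (s j) ∧ s j (T0.b j) ≤ th) ∧
      ∀ i j, i < j → j ≤ T0.n → ∀ x < T0.la i,
        s j x = s i x ∧ NoProj W (s j x) (s j (T0.b j) + 1) (th + 1)) : PII C 0 T := by
  intro T0 p g0 hp hg
  obtain rfl : g0 = 0 := le_antisymm (hp.mono.le_apply.trans hg.le) zero_le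
  obtain ⟨s, h1, h2⟩ := H T0 p hp
  have mx : ∀ j ≤ T0.n, ∀ x ≤ T0.b j, s j x ≤ th := fun j hj x hx =>
    (le1 ((h1 j hj).1.maps x (lt1 hx))).trans (h1 j hj).2
  obtain ⟨E1, b1, q, k1, k2, k3, k4, k5, k6⟩ := exists_hull hW
    (A := ⋃ j ∈ Iic T0.n, s j '' Iic (T0.b j))
    ((ctb_Iic hp.cn).biUnion fun j hj => (ctb_Iic (hp.ctb j hj)).image _) (by
      simp only [iUnion_subset_iff, image_subset_iff]
      exact fun j hj x hx => mx j hj x hx)
  have h3 : ∀ j ≤ T0.n, ∃ f, Good (T0.E j) (T0.b j) E1 f ∧ f (T0.b j) ≤ b1 ∧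
      ∀ x ≤ T0.b j, q (f x) = s j x := fun j hj =>
    factor k1 k5 (h1 j hj).1 fun x hx => k6 (mem_biUnion hj ⟨x, hx, rfl⟩)
  choose! f f1 f2 f3 using h3
  obtain ⟨n, r, hR⟩ := hI E1 b1 0 q k2 k4 (KGoodSt.strong_good k4 (k3 ▸ hW) k5) k3
    fun _ _ _ => zero_le
  have fm : ∀ j ≤ T0.n, ∀ x ≤ T0.b j, f j x ≤ b1 := fun j hj x hx =>
    (le1 ((f1 j hj).maps x (lt1 hx))).trans (f2 j hj)
  refine ⟨_, _, level_root (s := fun j => r ∘ f j) hp.phal hR.ok (fun j hj => ?_)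
    (fun j hj => (Real.rz_le hR (f2 j hj) :)) (fun _ _ => zero_le)
    (fun j hj x hx _ => hR.base _ (fm j hj x hx) zero_le) (fun i j hij hj x hx => ?_)
    fun i j hij hj x hx => ?_⟩
  · refine good_comp (f1 j hj) ?_
    rcases (f2 j hj).eq_or_lt with e | e
    · exact e ▸ hR.good
    · exact TB.strong_good (pm0_mono k4 (s1lt e).le) (pm0_mono hR.ok.pm.toPM0
        (by gcongr; exact Real.rz_le hR e.le)) (weak_restrict hR.good.toWeak (s1lt e))
  · refine congrArg r (k1.injective ?_)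
    rw [f3 j hj x (hx.le.trans (hp.phal.le' i j hij hj)),
      f3 i (hij.le.trans hj) x (hx.le.trans (hp.phal.le i (hij.trans_le hj))), (h2 i j hij hj x hx).1]
  · have hx' := hx.le.trans (hp.phal.le' i j hij hj)
    rw [← hR.top]
    refine good_noProj hR.good (f2 j hj) fun a a1 a2 => ?_
    refine (KE.strong_rho k5 (le1 a2) (fm j hj x hx')).1 ?_
    rw [f3 j hj x hx']
    refine (h2 i j hij hj x hx).2 _ ?_ (k3 ▸ k5.maps a a2)
    rw [← f3 j hj _ le_rfl]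
    exact Order.add_one_le_iff.2 (k1 (Order.add_one_le_iff.1 a1))

omit [HullSt.{u}] [CondSt.{u}] in
/-- Countable strong substructures embed in levels. -/
theorem emb (h : LocEmb W P l E b) (hi : i < l) {E0 : Seq.{u}} {b0 : Ordinal.{u}}
    {p : Ordinal.{u} → Ordinal.{u}} (h0 : b0 < ω₁) (hp : Strong E0 (b0 + 1) E (b + 1) p) :
    ∃ a s, P a ∧ Strong E0 (b0 + 1) W (a + 1) s ∧ ∀ x, p x < i → s x = p x := by
  obtain ⟨a, s, h1, -, -, h2, -, h3⟩ := h (p '' Iic b0) ((ctb_Iic h0).image p)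
    (by rintro _ ⟨x, hx, rfl⟩; exact le1 (hp.maps x (lt1 hx))) i hi
  exact ⟨a, s ∘ p, h1, h3 E0 b0 p hp fun x hx => Or.inl ⟨x, hx, rfl⟩, fun x hx => h2 _ hx⟩

theorem ii (hW : PM0 W (th + 1)) (hI : II C 0 W th) (hP : ∀ a, P a → a ≤ th) (hl : 0 < l)
    (hE : PM0 E (b + 1)) (h : LocEmb W P l E b) : II C 0 E b := by
  intro E0 b0 g0 q h1 h2 h3 h4 _
  obtain ⟨E1, b1, p, k1, k2, k3, k4, k5, k6⟩ := exists_hull hE ((ctb_Iic h1).image q) (by
    rintro _ ⟨x, hx, rfl⟩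
    exact (le1 (h3.maps x (lt1 hx))).trans h4.le)
  obtain ⟨f, f1, -, f3⟩ := factor k1 k5 h3 fun x hx => k6 ⟨x, hx, rfl⟩
  obtain ⟨a, s, a1, a2, -⟩ := emb h hl k2 (k3 ▸ k5)
  have h5 : II C 0 E1 b1 := TB.ii_pre (level hW hI (hP a a1) zero_le) k4
    (pm0_mono hW (by gcongr; exact hP a a1)) a2
  exact h5 E0 b0 g0 f h1 h2 f1 (k1.injective (by rw [f3 _ le_rfl, h4, k3])) fun _ _ _ => zero_le

theorem pii (hW : PM0 W (th + 1)) (hI : II C 0 W th) (hP : ∀ a, P a → l ≤ a ∧ a ≤ th)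
    (hc : IsCard W (th + 1) l) (hi : i < l) (hT : (IT.two W th E b i).Phal)
    (h : LocEmb W P l E b) : PII C 0 (IT.two W th E b i) := by
  classical
  refine pii_loc hW hI fun T0 p hp => ?_
  have p0 : p 0 = 0 := hp.fin 0 omega0_pos
  have p1 : p 1 = 1 := hp.fin 1 one_lt_omega0
  have hn : T0.n = 1 := hp.mono.injective (hp.n.trans p1.symm)
  obtain ⟨a1, a2⟩ := emb_good (i := 0) hp zero_le (by rw [p0]; exact (hT.pm 0 zero_le).toPM0)
  have c1 := hp.str 1 hn.ge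
  rw [p0, two_b0] at a1
  rw [p0, two_E0] at a2
  rw [p1, two_b1, two_E1] at c1
  obtain ⟨a, s, s1, s2, s3⟩ := emb h hi (hp.ctb 1 hn.ge) c1
  have s4 := TB.top_eq s2.toWeak
  have cases : ∀ j ≤ T0.n, j = 0 ∨ j = 1 := fun j hj => Order.le_one_iff.1 (hn ▸ hj)
  refine ⟨fun j => if j = 0 then p else s, fun j hj => ?_, fun i' j hij hj x hx => ?_⟩
  · rcases cases j hj with rfl | rfl
    · simpa using ⟨a2, a1.le⟩
    · simpa using ⟨TB.strong_good (hp.phal.pm 1 hj).toPM0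
        (pm0_mono hW (by gcongr; exact (hP a s1).2)) s2, s4 ▸ (hP a s1).2⟩
  · rcases cases j hj with rfl | rfl
    · simp at hij
    obtain rfl : i' = 0 := Order.lt_one_iff.1 hij
    have h1 := hp.la 0 (hn ▸ zero_lt_one)
    rw [p0, two_la] at h1
    have h2 : p x < i := h1 ▸ hp.mono hx
    simp only [one_ne_zero, if_false, if_true, s3 x h2, s4, true_and]
    exact fun c c1 c2 => (h2.trans hi).trans_le (hc c ((hP a s1).1.trans (le_self_add.trans c1)) c2)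

end Pool.Agent.KM.LocII
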