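import Pool.Agent.Lib.MP_5c0be7_lc.T.LocII
import Pool.Agent.Lib.MP_5c0be7_lc.P.Phx
import Pool.Agent.Lib.MP_5c0be7_lc.K.IterI
import Pool.Agent.Lib.MP_5c0be7_lc.T.StCov

/-!
Project KM, block T: the first return to the first root of a phalanx with two roots.
-/

namespace Pool.Agent.KM.LocII

open Ordinal Tr KE Set
open scoped Classical

universe u

variable {C : Cfg.{u}} {U : IT.{u}} {S W : Seq.{u}} {b i j k l t v th : Ordinal.{u}}
  {e : Ordinal.{u} → Ordinal.{u}}

/-- The tree with a new first exchange ordinal. -/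
noncomputable def setLa (U : IT.{u}) (i : Ordinal.{u}) : IT.{u} :=
  ⟨U.n, fun x => { U.nd x with la := if x = 1 then i else (U.nd x).la }⟩

theorem la_zero : (setLa U i).la 0 = i := by simp [setLa, IT.la]

theorem la_pos (h : 0 < j) : (setLa U i).la j = U.la j := by
  have : j + 1 ≠ 1 := fun e => h.ne' (s1inj (e.trans (zero_add 1).symm))
  simp only [setLa, IT.la, this, if_false]

theorem la_le (h : i ≤ U.la 0) : (setLa U i).la j ≤ U.la j := by
  rcases (zero_le (a := j)).eq_or_lt with rfl | h1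
  · rwa [la_zero]
  · rw [la_pos h1]

theorem eqLt (h : (IT.two W th S b l).EqLt U 2) : (IT.two W th S b i).EqLt (setLa U i) 2 := by
  refine ⟨h.1, fun x hx => ?_⟩
  have h1 := h.2 x hx
  have h2 : x ≤ 1 := le1 (by rwa [one_add_one_eq_two])
  rcases Phx.le_one' h2 with rfl | rfl
  · simp only [setLa, h1]; simp [IT.two, Nd.root]
  · simp only [setLa, h1]; simp [IT.two, Nd.root]

theorem use (h : i ≤ U.la 0) (hu : U.Use j v k t e) : (setLa U i).Use j v k t e :=
  ⟨hu.act, hu.le, fun x hx => (la_le h).trans (hu.inc x hx),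
    fun x hx h1 => (la_le h).trans_lt (hu.inc' x hx h1)⟩

theorem isTr (hn : U.n = 1) (h : i ≤ U.la 0) (hp : (setLa U i).Phal) (ht : U.IsTr j)
    (ha : U.Above (U.la 0) j) : (setLa U i).IsTr j := by
  refine ⟨hp, ht.le, fun x x1 x2 => ?_, fun c c1 c2 c3 => ?_⟩
  · have s := ht.step x x1 x2
    have x0 : 0 < x := zero_lt_one.trans_le (hn ▸ x1)
    refine ⟨use h s.use, (la_pos x0).trans s.la, ⟨s.pred.le, fun h1 => ?_,
      fun y hy => (la_le h).trans (s.pred.min y hy), s.pred.ta_le, s.pred.st_le, s.pred.noproj,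
      s.pred.max⟩, s.ult, s.b, s.ext, s.top, s.agree, s.pm, s.id, s.mp⟩
    have h2 := s.pred.lt h1
    rcases (zero_le (a := U.pr x)).eq_or_lt with h3 | h3
    · exact absurd (h3 ▸ h2) (ha x x1 x2).not_gt
    · exact h2.trans_eq (la_pos h3).symm
  · have L := ht.lim c c1 c2 c3
    exact ⟨L.ex, L.lim, L.pm, L.id⟩

variable [TreeSt.{u}] [KIterSt.{u}]

/-- The ultrapower of the first root at the first return exists and is realisable. -/
theorem ret (hI : PII C 0 (IT.two W th S b i)) (hT : (IT.two W th S b i).Phal) (hi : i ≤ l)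
    (hc : IsCard W (th + 1) i) (hU : (IT.two W th S b l).EqLt U 2) (ht : U.IsTr j)
    (ha : U.Above l j) (hu : U.Use j v k t e) (hk : k < i) :
    ∃ G f, IsUlt W th k G f ∧ (∀ x < t, f x = e x) ∧ f t = v ∧ Agree G (U.E j) v ∧
      PM G (f th + 1) ∧ II C 0 G (f th) := by
  have hn : U.n = 1 := hU.1
  have hl : U.la 0 = l := (hU.la (by simp)).trans Phx.two_la
  have e1 := eqLt (i := i) hU
  have t1 : (setLa U i).IsTr j := isTr hn (hl ▸ hi) (e1.phal Phx.one_lt_two' hT) ht (hl ▸ ha)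
  have j1 : 1 ≤ j := hn ▸ ht.le
  have j0 : 0 < j := zero_lt_one.trans_le j1
  obtain ⟨V, v1, v2, v3⟩ := (KIterSt.iter hT hI).succ (setLa U i) j v k t e
    (by rw [Phx.two_n, one_add_one_eq_two]; exact e1) t1 IT.above_zero (use (hl ▸ hi) hu) zero_le
  have vn : V.n = 1 := v1.1.trans hn
  have e2 : (IT.two W th S b i).EqLt V 2 :=
    e1.trans (v1.mono (by rw [← one_add_one_eq_two]; gcongr))
  have s := v2.step j (vn ▸ j1) (lt_add_one j)
  have vE : V.E j = U.E j := v1.E (lt_add_one j)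
  have A := s.use.act
  rw [vE, v3] at A
  obtain ⟨k1, k2, k3⟩ := KL.act_uniq A hu.act
  have vl : V.la 0 = i := (e2.la (by simp)).trans Phx.two_la
  have vW : V.E 0 = W := (e2.E Phx.zero_lt_two').trans Phx.two_E0
  have vb : V.b 0 = th := (e2.b Phx.zero_lt_two').trans Phx.two_b0
  have p0 : V.pr j = 0 := le_antisymm
    (not_lt.1 fun h => (hk.trans_eq vl.symm).not_ge (k1 ▸ s.pred.min 0 h)) zero_le
  have tj := v2.mono (vn ▸ j1) (lt_add_one j).le
  have st : V.st j = th := by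
    refine le_antisymm (by simpa only [p0, vb] using s.pred.st_le) (not_lt.1 fun h => ?_)
    have h1 := s.pred.max (by simpa only [p0, vb] using h)
    rw [p0, vW, k1] at h1
    refine h1.not_gt ?_
    rcases lt_or_ge (V.st j + 1) i with h2 | h2
    · have h3 := TreeSt.agree tj j0 le_rfl
      rw [vl, vW, vE] at h3
      rw [KL.rho_lt h3 h2]
      refine hu.act.next _ ((k2 ▸ s.pred.ta_le).trans (lt_add_one _).le) (h2.trans_le ?_)
      exact (hi.trans (hl ▸ hu.inc 0 j0)).trans (hu.act.weak.maps _ hu.act.lt).le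
    · exact hk.trans_le (hc _ h2 (s1lt h))
  have u1 := s.ult
  have u2 := s.b
  have u3 := s.agree
  have u4 := s.top
  rw [p0, vW, st, k1] at u1
  rw [st] at u2
  rw [vE, v3] at u3
  rw [k2, v3] at u4
  exact ⟨_, _, u1, fun x hx => (s.ext x (k2 ▸ hx)).trans (k3 x (k2 ▸ hx)), u4, u3, u2 ▸ s.pm,
    u2 ▸ KIterSt.ii (IterI.pii_congr hI (by rw [Phx.two_n, one_add_one_eq_two]; exact e2)) v2
      IT.above_zero le_rfl⟩

omit [TreeSt.{u}] [KIterSt.{u}] in
/-- A realisable ultrapower gives the realisation of countable parts. -/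
theorem rzx {G N : Seq.{u}} {f : Ordinal.{u} → Ordinal.{u}} (hA : Act N v k t e)
    (h : IsUlt W th k G f) (h1 : ∀ x < t, f x = e x) (h2 : Agree G N v) (h3 : II C 0 G (f th)) :
    RzX C W th N k t e := by
  intro E0 a0 k0 t0 r Z _ p0 st r1 r2 r3 r4 _
  have ra : r a0 = th := TB.top_eq st.toWeak
  have m : ∀ x < t0, r x < t := fun x hx => r2 ▸ (w_lt st.toWeak (lt1 (hx.le.trans r4)) (lt1 r4)).2 hx
  refine ⟨G, f ∘ r, id, by simpa only [Function.comp_apply, ra] using h.pm',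
    by simpa only [Function.comp_apply, ra] using h3,
    TB.strong_good p0 h.pm' (strong_comp st h.toStrong), fun z _ hz => ?_, fun n w n1 _ _ => ?_⟩
  · simpa only [Function.comp_apply, r1, h1 k hA.lt, id] using hz
  · rw [map_eq_self (f := id) fun _ _ => rfl,
      KN.map_eq (s := f ∘ r) (s' := e ∘ r) (fun x hx => h1 _ (m x hx)) n1]
    exact (KN.anm h2 (KN.in_map' (fun x hx => hA.weak.maps _ (m x hx)) n1)).symm

omit [TreeSt.{u}] [KIterSt.{u}] in
theorem pas_vlim [ActSt.{u}] (h : PM0 S (b + 1)) (hl : VLim l) (hb : l ≤ b) : Pas S l :=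
  (h.act l (lt1 hb)).resolve_right fun ⟨_, _, _, A⟩ =>
    have L := (pm0_mono h (hb.trans (lt_add_one b).le)).ls
    let ⟨_, y1, y2, y3⟩ := hl.ex (A.weak.maps _ A.lt) L
    y2.not_ge (KL.top_le (ActSt.top L A) (KL.card_noProj y3 y1))

variable [HullSt.{u}] [CondSt.{u}] [ActSt.{u}]

theorem loc {V : Env.{u}} {Q : Ordinal.{u} → Prop} (h : V.Ok) (hS : PM S (b + 1))
    (hb : V.lam.ord ≤ b) (H : Agree S V.W V.lam.ord) (hQ : ∀ a, Q a → a ≤ V.th)
    (hL : LocEmb V.W Q V.lam.ord S b) :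
    V.P.II S b ∧ Agree S V.W (V.lam.ord + 1) ∧ Ret V.P.C V.W V.th S b V.lam.ord := by
  have hv : VLim V.lam.ord := ⟨by rw [Cardinal.lt_ord, card_omega0]; exact h.unc, fun a ha =>
    Cardinal.ord_lt_ord.2 (h.sl.isSuccLimit.succ_lt (Cardinal.lt_ord.1 ha))⟩
  have hW := h.good.pm
  have l1 : V.lam.ord < V.th :=
    ((Cardinal.ord_lt_ord.2 (h.t ▸ Order.lt_succ _)).trans V.P.t_ord_lt).trans h.good.lt
  have hL' : LocEmb V.W (fun a => V.lam.ord ≤ a ∧ a ≤ V.th) V.lam.ord S b := fun Y y1 y2 i hi => by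
    obtain ⟨a, s, s1, s2, s3, s4, s5, s6⟩ := hL (insert b Y) (y1.insert b)
      (insert_subset (mem_Iic.2 le_rfl) y2) i hi
    refine ⟨a, s, ⟨?_, hQ a s1⟩, s2, s3, s4,
      s5.mono (union_subset_union_left _ (insert_subset_insert (subset_insert _ _))),
      fun E0 b0 q q1 q2 => s6 E0 b0 q q1 fun x hx => (q2 x hx).imp (mem_insert_of_mem _)
        fun h1 => h1.mono (union_subset_union_left _ (subset_insert _ _))⟩
    rw [← s2, ← s3]
    exact s5.monotoneOn (by simp) (by simp) hb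
  refine ⟨ii hW.toPM0 h.good.ii hQ (omega0_pos.trans hv.1) hS.toPM0 hL,
    TB.ag_succ H (TB.pas_eq (pas_vlim hS.toPM0 hv hb) (pas_vlim hW.toPM0 hv l1.le)),
    fun U j v k t e u1 u2 u3 u4 hk => ?_⟩
  have i1 := (le_max_left k ω).trans_lt (TB.lt_succ_card _)
  have i2 := hv.2 _ (max_lt hk hv.1)
  have i3 := TB.succ_isCard (le_max_right k ω) hW.ls
  have hT := Phx.phal_two hW hS (i2.trans l1).le (i2.le.trans hb)
    (TB.pas_of_card hW.toPM0 (s1lt (i2.trans l1)) i3) (KL.ag_mono (KL.ag_symm H) i2.le)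
    (TB.succ_isCard (le_max_right k ω) hS.ls)
  obtain ⟨G, f, g1, g2, -, g3, -, g4⟩ := ret
    (pii hW.toPM0 h.good.ii (fun _ h => h) (hv.isCard hW.ls) i2 hT hL') hT i2.le i3 u1 u2 u3 u4 i1
  exact rzx u4.act g1 g2 g3 g4

instance : LocSt.{u} := ⟨loc⟩

end Pool.Agent.KM.LocII
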