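import Pool.Agent.Lib.MP_5c0be7_lc.T.St
import Pool.Agent.Lib.MP_5c0be7_lc.C.Br
import Pool.Agent.Lib.MP_5c0be7_lc.K.Loc

/-!
Project KM, block T1: an extender that overlaps a limit cardinal has a strong critical point.
-/

namespace Pool.Agent.KM

open Ordinal Tr IT

universe u

namespace Over

variable {T : IT.{u}} {E : Seq.{u}} {l j a v k t : Ordinal.{u}} {e : Ordinal.{u} → Ordinal.{u}}

/-- A cardinal below the index is at most the image of the critical point. -/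
theorem le_la [ActSt.{u}] (L : LS E v) (h : Act E v k t e) (hc : IsCard E v a) (ha : a < v) :
    a ≤ e k :=
  let ⟨x, h1, h2, h3⟩ := ActSt.top L h a ha; (hc x h1 h2).trans h3

theorem dom_lt (h : Act E v k t e) (hc : LimC E v a) (hk : k < a) : t < a := by
  obtain ⟨y, h1, h2, h3⟩ := hc.2 k hk
  refine lt_of_le_of_lt (not_lt.1 fun h4 => ?_) h2
  obtain ⟨x, h5, h6, h7⟩ := h.top y h4
  rcases lt_or_ge x a with h8 | h8
  · exact absurd ((h3 x h5 h8).trans h7) h1.not_ge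
  · exact absurd ((hc.1 x h8 (h6.trans h.dom)).trans h7) hk.not_ge

theorem limc_ag {E' : Seq.{u}} {d : Ordinal.{u}} (h : LimC E d k) (H : Agree E E' d) (hk : k ≤ d) :
    LimC E' d k :=
  ⟨KL.card_ag H h.1, fun x hx => let ⟨y, h1, h2, h3⟩ := h.2 x hx
    ⟨y, h1, h2, KL.card_ag (KL.ag_mono H hk) h3⟩⟩

theorem limc_mono {d d' : Ordinal.{u}} (h : LimC E d k) (hd : d' ≤ d) : LimC E d' k :=
  ⟨KL.card_mono h.1 hd, h.2⟩

variable [TreeSt.{u}] [ActSt.{u}]

theorem all (hT : T.IsTr l) (h0 : T.n = 0) (hc : LimC (T.E 0) (T.b 0 + 1) a)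
    (hn : ∀ i < l, a < T.nu i) (hl : 0 < l) (hj : j ≤ l) :
    Agree (T.E 0) (T.E j) a ∧ LimC (T.E j) (T.b j + 1) a := by
  rcases (zero_le (a := j)).eq_or_lt with rfl | h1
  · exact ⟨fun _ _ => rfl, hc⟩
  have s := hT.step 0 h0.le hl
  have h2 := s.use.le.trans (lt_add_one _).le
  have h3 : a ≤ T.la 0 := s.la ▸ le_la (KE.pm_mono (TreeSt.pm hT zero_le) h2).ls s.use.act
    (KL.card_mono hc.1 h2) (hn 0 hl)
  have h4 := TreeSt.agree hT h1 hj
  have h5 := KL.ag_mono h4 h3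
  refine ⟨h5, fun x x1 x2 => ?_, fun x hx => ?_⟩
  · rcases lt_or_ge x (T.la 0) with h6 | h6
    · exact KL.card_ag h4 (KL.card_mono hc.1
        ((TreeSt.la_le hT hl le_rfl zero_le).trans (lt_add_one _).le)) x x1 h6
    · exact h3.trans (TreeSt.card hT h1 hj x h6 x2)
  · obtain ⟨y, y1, y2, y3⟩ := hc.2 x hx
    exact ⟨y, y1, y2, KL.card_ag h5 y3⟩

variable [FragSt.{u}]

theorem low (hT : T.IsTr l) (h0 : T.n = 0) (hc : LimC (T.E 0) (T.b 0 + 1) a)
    (hn : ∀ i < l, a < T.nu i) (hl : 0 < l) (hj : j ≤ l) (h : Act (T.E j) v k t e)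
    (hv : v < T.b j) (ha : a < v) (hk : k < a) : StrongTo (T.E 0) a k := by
  obtain ⟨h1, h2⟩ := all hT h0 hc hn hl hj
  have p := TreeSt.pm hT hj
  have h3 := hv.le.trans (lt_add_one _).le
  have h4 := limc_mono h2 h3
  exact FragSt.congr (KL.ag_symm h1) (FragSt.strong p.toPM0 hv h h2.1 (dom_lt h h4 hk)
    (le_la (KE.pm_mono p h3).ls h h4.1 ha))

theorem ovl [KActSt.{u}] [StrSt.{u}] (hT : T.IsTr l) (h0 : T.n = 0) (hp : Pas (T.E 0) (T.b 0))
    (hc : LimC (T.E 0) (T.b 0 + 1) a) (hn : ∀ i < l, a < T.nu i) (hj : j < l) (hk : T.ka j < a) :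
    Small (T.E 0) (T.ka j) ∧ StrongTo (T.E 0) a (T.ka j) ∧ LimC (T.E 0) a (T.ka j) := by
  have hl : 0 < l := zero_le.trans_lt hj
  have n0 : ∀ i, T.n ≤ i := fun i => h0 ▸ zero_le
  have s := hT.step j (n0 j) hj
  have p := TreeSt.pm hT hj.le
  obtain ⟨h1, h2⟩ := all hT h0 hc hn hl hj.le
  have A := s.use.act
  refine ⟨KL.small_ag (KL.ag_mono (KL.ag_symm h1) hk.le) (p.small _ (lt_s s.use.le) _ _ _ A), ?_,
    limc_ag (limc_mono (StrSt.crit (KE.pm_mono p (lt_s s.use.le).le).ls A) (hn j hj).le)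
      (KL.ag_symm h1) hk.le⟩
  rcases s.use.le.lt_or_eq with h3 | h3
  · exact low hT h0 hc hn hl hj.le A h3 (hn j hj) hk
  rw [h3] at A
  have hJ := hT.mono (n0 j) hj.le
  rcases TreeSt.last hT hj.le with ⟨r, r1, r2⟩ | ⟨d, d1, d2, d3, d4⟩
  · obtain rfl : r = 0 := le_antisymm (h0 ▸ r1.1) zero_le
    have h4 := TreeSt.strong hT hj.le r2
    have h5 := KE.s1inj (h4.top _ rfl)
    rw [h5] at h4 A p
    obtain ⟨k0, t0, e0, h6, -⟩ :=
      KActSt.good_act_down (TreeSt.pm hT zero_le).toPM0 p.toPM0 h4 le_rfl A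
    exact absurd hp (KL.act_not_pas h6)
  · have s' := hT.step d d1 (d2.trans hj)
    have hp' := s'.pred.le.trans (d2.trans hj).le
    have h4 := KE.strong_comp (CU.step_strong s') (TreeSt.strong hJ le_rfl d4)
    have h5 := KE.s1inj (h4.top _ rfl)
    rw [h5] at h4 A p
    obtain ⟨k0, t0, e0, h6, h7, -⟩ := KActSt.good_act_down s'.ult.pm p.toPM0 h4 le_rfl A
    have h8 : a ≤ T.ka d := not_lt.1 fun h8 => by
      obtain ⟨g1, g2⟩ := all hT h0 hc hn hl hp'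
      obtain ⟨g3, g4⟩ := all hT h0 hc hn hl (d2.trans hj).le
      have g5 := s'.pred.max d3
      have g6 : T.st d + 1 < a := not_le.1 fun g6 =>
        ((g2.1 _ g6 (KE.s1lt d3)).trans g5).not_gt h8
      rw [KL.rho_lt (KL.ag_trans (KL.ag_symm g1) g3) g6] at g5
      exact g5.not_gt (s'.use.act.next _ (s'.pred.ta_le.trans (lt_add_one _).le)
        (g6.trans (hn d (d2.trans hj))))
    have h9 : k0 = T.ka j := by
      have := KE.w_self h4.toWeak (h6.lt.trans (h6.dom.trans (lt_add_one _)))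
      rw [← h7, CU.seg_fix hJ d1 d2 d4 k0 ((h7 ▸ this).trans_lt (hk.trans_le h8))]
    exact h9 ▸ low hT h0 hc hn hl hp' h6 d3
      (h8.trans_lt (s'.use.act.lt.trans_le s'.pred.ta_le)) (h9 ▸ hk)

end Over

instance [TreeSt.{u}] [ActSt.{u}] [FragSt.{u}] [KActSt.{u}] [StrSt.{u}] : OverSt.{u} :=
  ⟨fun h1 _ h2 h3 h4 _ => Over.ovl h1 h2 h3 h4⟩

end Pool.Agent.KM
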