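import Pool.Agent.Lib.MP_5c0be7_lc.T.LiftX
import Pool.Agent.Lib.MP_5c0be7_lc.C.KeyK
import Pool.Agent.Lib.MP_5c0be7_lc.C.Br
import Pool.Agent.Lib.MP_5c0be7_lc.P.Seg
import Pool.Agent.Lib.MP_5c0be7_lc.P.St

/-!
Project KM, block T3: models of a tree above a drop are sound above the exchange ordinals.
-/

namespace Pool.Agent.KM.PmKS

open Ordinal Tr Set KE KL IT Seg

universe u

variable {T : IT.{u}} {l i k a m t c : Ordinal.{u}} {p : Tr.{u}}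

variable [TreeSt.{u}]

/-- Generation goes up along a branch. -/
theorem gen_br (h : T.IsTr l) (hp : In (T.b i + 1) p)
    (h0 : ∀ y, In (T.b i + 1) y → ∃ c v, (∀ x ∈ v.lv, ∃ j < i, x < T.la j) ∧
      ev (T.E i) (T.b i + 1) c (node v p) = some y) :
    ∀ n ≤ l, T.ND i n → ∀ y, In (T.b n + 1) y → ∃ c v, (∀ x ∈ v.lv, ∃ j < n, x < T.la j) ∧
      ev (T.E n) (T.b n + 1) c (node v (p.map (T.mp i n))) = some y := by
  intro n hn hd
  have il : i ≤ l := hd.le.trans hn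
  refine TreeSt.ind (i := i) (fun n => ∀ y, In (T.b n + 1) y → ∃ c v,
    (∀ x ∈ v.lv, ∃ j < n, x < T.la j) ∧
      ev (T.E n) (T.b n + 1) c (node v (p.map (T.mp i n))) = some y) h ?_ ?_ ?_ n hn hd
  · rwa [map_eq_self fun x hx => mp_id h il (le1 (hp x hx))]
  · intro k k1 k2 k3 k4 k5 k6 ih y hy
    have S := h.step k k1 k2
    have e := st_eq S k6
    have w := (TreeSt.strong h ((h.pr_le k1 k2).trans k2.le) k5).toWeak
    have g : Gen (T.E (T.pr k)) (T.st k + 1) (T.ka k) (p.map (T.mp i (T.pr k))) := fun y hy => by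
      rw [e] at hy ⊢
      obtain ⟨c, v, v1, v2⟩ := ih y hy
      exact ⟨c, v, fun x hx => let ⟨j, j1, j2⟩ := v1 x hx; j2.trans_le (S.pred.min j j1), v2⟩
    obtain ⟨c, v, v1, v2⟩ := LiftXI.gen_ult S.ult (e ▸ w_in w hp) g y (S.b ▸ hy)
    rw [im_ka S] at v1
    refine ⟨c, v, fun x hx => ⟨k, lt_add_one k, v1 x hx⟩, ?_⟩
    rw [map_map, ← S.b] at v2
    rwa [map_congr fun x hx => S.mp i k3 k4 x (le1 (hp x hx))]
  · intro c c1 c2 c3 c4 c5 ih y hy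
    have L := h.lim c c2 c3 c1
    obtain ⟨n, n1, n2, n3, y0, y1, rfl⟩ := CU.lim_tree h c3 L c4 c5 hy
    obtain ⟨d, v, v1, v2⟩ := ih n n1 n2 n3 y0 y1
    have e := (L.strong n1 n3).commTop d _ (in_of_ev_eq v2)
    rw [v2, map_node, map_map, map_eq_self fun x hx =>
      let ⟨j, j1, j2⟩ := v1 x hx; TreeSt.fix h c3 n3 j1 x j2] at e
    refine ⟨d, v, fun x hx => let ⟨j, j1, j2⟩ := v1 x hx; ⟨j, j1.trans n1, j2⟩, ?_⟩
    rwa [← map_congr fun x hx => L.comm n2 n1 c5 n3 x (le1 (hp x hx))]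

variable [BrSt.{u}]

/-- The model above a drop. -/
theorem drop (h : T.IsTr a) (hn : T.n ≤ k) (hk : k < a) (hd : T.Drop k) (hN : T.ND (k + 1) a)
    (hl : ∀ i < a, T.la i ≤ m) (hm : m ≤ T.b a + 1) : ∃ p, KS (T.E a) (T.b a + 1) m p := by
  have S := h.step k hn hk
  have C := BrSt.core h hn hk hd hN
  obtain ⟨p, p1, -, p2, p3⟩ := C.sound.1
  have r : rho (T.E (T.pr k)) (T.st k + 1) ≤ T.ka k := S.pred.max hd
  have g : Gen (T.E (T.pr k)) (T.st k + 1) (T.ka k) p := fun y hy =>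
    let ⟨c, v, v1, v2⟩ := p3 y hy
    ⟨c, v, v1.mono r, v2⟩
  have g1 := LiftXI.gen_ult S.ult p1 g
  rw [im_ka S, ← S.b] at g1
  have g2 := gen_br h (S.b ▸ w_in S.ult.toWeak p1) (fun y hy =>
    let ⟨c, v, v1, v2⟩ := g1 y hy
    ⟨c, v, fun x hx => ⟨k, lt_add_one k, v1 x hx⟩, v2⟩) a le_rfl hN
  rw [map_map] at g2
  have s := CU.solid_map C.pm.ls C.pm'.ls C.toCof p1 p2
  have i1 := (w_in C.toWeak p1).of_subset fun x hx => ((Key.lv_cut (k := m) s x).1 hx).1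
  refine ⟨_, i1, fun x hx => ((Key.lv_cut s x).1 hx).2, Key.solid_cut s,
    F3.gen_change (fun y hy => ?_) le_rfl hm i1
      fun x hx => (lt_or_ge x m).imp id fun h1 => (Key.lv_cut s x).2 ⟨hx, h1⟩⟩
  obtain ⟨c, v, v1, v2⟩ := g2 y hy
  exact ⟨c, v, fun x hx => let ⟨j, j1, j2⟩ := v1 x hx; j2.trans_le (hl j j1), v2⟩

/-- The level to which an extender with critical point `m` is applied. -/
theorem lvl (h : T.IsTr a) (h0 : T.n = 0) (hl : ∀ i < a, T.la i ≤ m) (ht : m < t)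
    (L : Lvl (T.E a) (T.b a) m t c) :
    (∃ p, KS (T.E a) (c + 1) m p) ∨ (c = T.b a ∧ T.ND 0 a) := by
  have hm : m ≤ c + 1 := (ht.le.trans L.ta_le).trans le_self_add
  rcases L.st_le.lt_or_eq with h1 | rfl
  · obtain ⟨p, hp⟩ := ((TreeSt.pm h le_rfl).ls _ (s1lt h1)).1
    exact Or.inl ⟨_, CU.KS.of_ss hp (L.max h1) hm⟩
  · rcases TreeSt.last h le_rfl with ⟨r, r1, r2⟩ | ⟨k, k1, k2, k3, k4⟩
    · obtain rfl : r = 0 := le_antisymm (h0 ▸ r1.1) zero_le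
      exact Or.inr ⟨rfl, r2⟩
    · exact Or.inl (drop h k1 k2 k3 k4 hl hm)

end Pool.Agent.KM.PmKS
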