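import Pool.Agent.Lib.MP_5c0be7_lc.T.Use1
import Pool.Agent.Lib.MP_5c0be7_lc.T.LimCof
import Pool.Agent.Lib.MP_5c0be7_lc.T.Tame
import Pool.Agent.Lib.MP_5c0be7_lc.T.StCov
import Pool.Agent.Lib.MP_5c0be7_lc.T.S5
import Pool.Agent.Lib.MP_5c0be7_lc.L.St

/-!
Project KM, block T: recognition of branch maps for unfolded premice.
-/

namespace Pool.Agent.KM.Use

open Ordinal Tr
open scoped Classical

universe u

variable {E E' P N E1 E2 E3 : Seq.{u}} {a b c d g v m m' t t' b2 : Ordinal.{u}} {T : IT.{u}}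
  {e e' i k s : Ordinal.{u} → Ordinal.{u}}

theorem noProj_up (h : Strong E (b + 1) E' (s b + 1) s) (l : LS E (b + 1)) (l' : LS E' (s b + 1))
    (hm : m < t) (ht : t ≤ b) (hn : NoProj E m t (b + 1)) :
    NoProj E' (s m) (s t) (s b + 1) := fun a h1 h2 => by
  rcases (KE.le1 h2).eq_or_lt with rfl | h2
  · exact (KE.strong_rho h le_rfl (hm.le.trans ht)).2 (hn b ht (lt_add_one b))
  · have h3 := (IT.s_le hm).trans ht
    exact ((KE.w_lt h.toWeak (KE.lt1 (hm.le.trans ht)) (KE.lt1 h3)).2 (lt_add_one m)).trans_le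
      (GoodI.card (l b (lt_add_one b)).1 (l' _ (lt_add_one _)).1 h h3 ht
        (fun x x1 x2 => IT.s_le (hn x x1 (x2.trans (lt_add_one b)))) a h1 h2)

theorem not_onto (h : Weak E (b + 1) E' d k) (hm : m ≤ b) (f : ∀ x < m, k x = x) (mv : m < k m) :
    ¬ ∃ x ≤ b, k x = m := fun ⟨x, x1, x2⟩ => by
  rcases lt_or_ge x m with h3 | h3
  · rw [f x h3] at x2
    exact h3.ne x2
  · exact absurd (x2 ▸ (KE.w_le h (KE.lt1 hm) (KE.lt1 x1)).2 h3) (not_le.2 mv)

/-- The image of the length of an extender without cutpoints is not overlapped. -/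
theorem img_lt (A : Act E g m t e) (A' : Act N v m t e') (hk : Weak E g P d k)
    (hs : Weak N v P d s) (f : ∀ x < e' m, s x = x) (he : ∀ x < t, s (e' x) = k (e x))
    (hm : k m = m) : ∀ x < e m, k x < e' m := by
  intro x
  induction x using WellFoundedLT.induction with
  | ind x ih =>
  intro hx
  have g1 : e m < g := A.weak.maps m A.lt
  have g2 : e' m < v := A'.weak.maps m A'.lt
  rcases le_or_gt x m with h1 | h1
  · exact ((KE.w_le hk (hx.trans g1) (A.lt.trans A.dom)).2 h1).trans_lt (hm.symm ▸ A'.move)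
  obtain ⟨z, y, w, h2, h3, h4, h5, h6⟩ := A.typeA x h1 hx
  have h7 : In (e' m) (y.map k) := KE.in_map fun u hu => ih u (h3 u hu) ((h3 u hu).trans hx)
  have h8 := KN.wfv hk (KE.w_in A.weak h2) (h3.mono (hx.trans g1).le)
  have h9 := KN.wfv hs (KE.w_in A'.weak h2) (h7.mono g2.le)
  rw [CU.map_fix f h7, map_map, map_congr fun u hu => he u (h2 u hu), ← map_map, h8, h4] at h9
  obtain ⟨r, r1, r2⟩ := Option.map_eq_some_iff.1 h9.symm
  obtain ⟨u, rfl, r3⟩ := map_eq_leaf.1 r2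
  have r4 : u < v := by
    unfold fv at r1
    split_ifs at r1 with r5
    have r7 := (KE.w_in A'.weak h2).fst
    rw [r5] at r7
    exact lt_trans (by simpa using ev_in r1) ((in_leaf _ _).1 r7)
  have r6 : u < e' m := (KE.w_lt hs r4 g2).1 (by
    rw [r3, he m A.lt]
    exact (KE.w_lt hk (h6.trans g1) g1).2 h6)
  rw [f u r6] at r3
  exact ((KE.w_le hk (hx.trans g1) (h6.trans g1)).2 h5).trans_lt (r3 ▸ r6)

/-- The first map has its range in the range of the second one. -/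
theorem img_in (A : Act E g m t e) (A' : Act N v m t e') (l : LS E g) (hk : Weak E g P d k)
    (hs : Weak N v P d s) (f : ∀ x < e' m, s x = x) (he : ∀ x < t, s (e' x) = k (e x))
    (hm : k m = m) : ∀ y < g, ∃ w < v, s w = k y := by
  intro y hy
  obtain ⟨x, x1, -, x2, -, x3⟩ := ActF.cof2 l A hy
  have x4 := A.weak.maps x x1
  have x5 := A'.weak.maps x x1
  have hp : pp E (e x) = (pp E x).map e := (Fn.pp On.top).weak_lim A.weak (l.mono A.dom.le) l
    (ActF.lim_dom l A) x1 le_rfl (in_nil x)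
  obtain ⟨q, z, h1, h2⟩ := (ss_pp (l _ x4).1).2.2.2 (leaf y) (by simpa using x2)
  have h3 : In (e' m) (z.map k) :=
    KE.in_map fun u hu => img_lt A A' hk hs f he hm u ((h1 u hu).trans_le x3)
  have h4 := (in_pp E x).mono x1.le
  have h5 := hk.comm _ x4 q _ (in_of_ev_eq h2)
  have h6 := KN.wev hs x5 q (y := node (z.map k) ((pp E x).map e'))
    ((in_node ..).2 ⟨h3.mono (A'.weak.maps m A'.lt).le, KE.w_in A'.weak h4⟩)
  rw [h2, hp, map_node, map_map] at h5
  rw [map_node, CU.map_fix f h3, map_map e', map_congr fun u hu => he u (h4 u hu), he x x1,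
    h5] at h6
  obtain ⟨r, r1, r2⟩ := Option.map_eq_some_iff.1 h6.symm
  obtain ⟨u, rfl, r3⟩ := map_eq_leaf.1 r2
  exact ⟨u, lt_trans (by simpa using ev_in r1) x5, r3⟩

/-- The factor map between the active levels. -/
theorem fold (A : Act E g m t e) (A' : Act N v m t e') (l : LS E (g + 1)) (l' : LS N (v + 1))
    (hk : Weak E g P d k) (hs : Weak N v P d s) (f : ∀ x < e' m, s x = x)
    (he : ∀ x < t, s (e' x) = k (e x)) (hf : ∀ x < t, k x = x) :
    ∃ r, Cof E g N v r ∧ (∀ x < g, s (r x) = k x) ∧ ∀ x < e m, r x = k x ∧ k x < e' m := by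
  have l0 := l.mono (le_self_add (b := 1))
  have hm := hf m A.lt
  choose! w w1 w2 using img_in A A' l0 hk hs f he hm
  have g1 : e m < g := A.weak.maps m A.lt
  have g2 : e' m < v := A'.weak.maps m A'.lt
  let r := fun y => if y < g then w y else v
  have r1 : ∀ y < g, r y < v ∧ s (r y) = k y := fun y hy => by
    simp only [r, if_pos hy]; exact ⟨w1 y hy, w2 y hy⟩
  have r2 : ∀ x < e m, r x = k x ∧ k x < e' m := fun x hx =>
    have h1 := img_lt A A' hk hs f he hm x hx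
    ⟨hs.mono.injOn (r1 x (hx.trans g1)).1 (h1.trans g2)
      ((r1 x (hx.trans g1)).2.trans (f _ h1).symm), h1⟩
  refine ⟨r, LimCof.act_cof (KE.weak_cancel hs (KN.weak_congr hk fun x hx => (r1 x hx).2.symm)
    (fun x hx => (r1 x hx).1) fun x hx => absurd ⟨x, hx⟩ (ActF.lim A)) A A' (if_neg (lt_irrefl g))
    l l' (fun x hx => (r2 x (hx.trans (ActF.lt l0 A))).1.trans (hf x hx)) fun x hx => ?_,
    fun x hx => (r1 x hx).2, r2⟩
  exact hs.mono.injOn (r1 _ (A.weak.maps x hx)).1 (A'.weak.maps x hx)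
    ((r1 _ (A.weak.maps x hx)).2.trans (he x hx).symm)

variable [TreeSt.{u}] [UltFactSt.{u}]

/-- The unfolding step. -/
theorem step (pas : ∀ i ≤ T.n, Pas (T.E i) (T.b i)) (hn : T.n ≤ a) (U1 : UseP T a m t E1 g)
    (A : Act E1 g m' t' e) (hm : t' ≤ m) (ht : t < g) (U2 : UseP T a m' t' E2 b2)
    (ag : Agree E2 E1 t') (ult : IsUlt E2 b2 m' E3 i) (ext : ∀ x < t', i x = e x) (top : i t' = g)
    (ag3 : Agree E3 E1 g) : UseP T a m t E3 (i b2) := by
  have l1 := U1.pm.ls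
  have l0 := l1.mono (le_self_add (b := 1))
  have mm : m' < m := A.lt.trans_le hm
  have ml : m < e m' :=
    let ⟨x, x1, x2, x3⟩ := ActF.top l0 A t ht
    (U1.nx.2.2.2 x x1 (x2.trans (lt_add_one g))).trans_le x3
  have gb : g ≤ i b2 := top ▸ (KE.w_le ult.toWeak (KE.lt1 U2.le) (lt_add_one _)).2 U2.le
  have np : NoProj E3 m g (i b2 + 1) := fun x x1 x2 => ml.trans (by
    have := noProj_up ult.toStrong ult.pm.ls ult.pm'.ls A.lt U2.le U2.nx.2.2.2
    rw [top, ext m' A.lt] at this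
    exact this x x1 x2)
  have p1 : PP E1 g E3 (i b2 + 1) m := fun X hX => CU.named_agree (F3.acc np hX) ag3
  have p2 : PP E2 (b2 + 1) E3 (i b2 + 1) m' := fun X hX => CU.Named.mono' (CU.named_agree
    (F3.acc A.next (CU.pp_mono p1 mm.le X hX)) (KL.ag_symm ag)) (U2.le.trans le_self_add)
  have fi : ∀ x < m', i x = x := fun x hx => (ext x (hx.trans A.lt)).trans (A.fix x hx)
  refine ⟨ult.pm', ⟨U1.nx.1, ht.le.trans (gb.trans le_self_add),
    KL.topC_ag (KL.ag_mono (KL.ag_symm ag3) ht.le) U1.nx.2.2.1, fun x x1 x2 =>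
      (lt_or_ge x g).elim (fun x3 => KL.rho_lt ag3 x3 ▸ U1.nx.2.2.2 x x1 (x3.trans (lt_add_one g)))
        fun x3 => np x x3 x2⟩, ht.le.trans gb,
    (CU.rho_le_of_pp ult.toStrong (fun x hx => fi x (hx.trans_le U2.rho))
      (CU.pp_mono p2 U2.rho)).trans (U2.rho.trans mm.le),
    fun U l s k eq tr nor al sl dr hk f mv hp => ?_⟩
  have g1 : e m' < g := A.weak.maps m' A.lt
  obtain ⟨j, j1, j2, j3, j4, r, r1, r2, r3⟩ := U2.use U l s (k ∘ i) eq tr nor al sl dr
    (CU.cof_comp (UltFactSt.cof ult) hk)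
    (fun x hx => by rw [Function.comp, fi x hx, f x (hx.trans mm)])
    (by rw [Function.comp, ext m' A.lt]
        exact A.move.trans_le (KE.w_self hk.toWeak (KE.lt1 (g1.le.trans gb))))
    (CU.pp_trans p2 (CU.pp_mono hp mm.le))
  have jl := j2.trans_le sl
  have S := tr.step j j1 jl
  have A' := S.use.act
  have la := S.la
  rw [j3, j4] at A'
  rw [j3] at la
  have pj := (TreeSt.pm tr jl.le).toPM0
  have lj := pj.ls.mono (IT.s_le (IT.lt_s S.use.le))
  obtain ⟨q, q1, q2, q3⟩ := fold A A' l1 lj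
    (KL.weak_left ag3 (wlim hk.toWeak (gb.trans le_self_add) (ActF.lim A))) r1 (la ▸ r2)
    (fun x hx => by rw [r3 x hx, Function.comp, ext x hx]) fun x hx => f x (hx.trans_le hm)
  have fq : ∀ x < m, q x = x := fun x hx => (q3 x (hx.trans ml)).1.trans (f x hx)
  have mq : m < q m := (q3 m ml).1 ▸ mv
  have mla : m < U.la j := la ▸ mv.trans (q3 m ml).2
  have pq : PP E1 (g + 1) (U.E j) (U.nu j + 1) m := fun X hX => by
    have c : IsCard (U.E j) (U.nu j + 1) (U.la j) := fun x x1 x2 => by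
      rcases (KE.le1 x2).eq_or_lt with rfl | x3
      · rw [(lj _ x2).2 (ActF.lim A')]; exact x1
      · exact la ▸ ActF.card (lj.mono le_self_add) A' x (la ▸ x1) x3
    exact CU.Named.mono' (p1 X (hp X (CU.named_push (CU.Named.mono' (F3.acc_card c mla hX)
      (Seg.la_lt_nu S).le) r1 (mla.trans (Seg.la_lt_nu S)).le
      fun x hx => r2 x (hx.trans mla)))) le_self_add
  have mg : m ≤ g := (ml.trans g1).le
  have nb : U.nu j = U.b j := S.use.le.eq_or_lt.resolve_right fun h1 =>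
    not_onto q1.toWeak mg fq mq (CU.uns q1.toStrong lj U1.rho mg fq pq
      (pj.ls _ (KE.s1lt h1)).1 m (mla.trans (Seg.la_lt_nu S)).le)
  have dj : U.Dr j := (TreeSt.last tr jl.le).resolve_left fun ⟨x, x1, x2⟩ => by
    have x3 : x < a + 1 := KE.lt1 ((eq.n ▸ x1.1 : x ≤ T.n).trans hn)
    have st := TreeSt.strong tr jl.le x2
    have e1 := TB.top_eq st.toWeak
    have := TB.pas_up (TreeSt.pm tr (x2.le.trans jl.le)).toPM0 (e1 ▸ pj) (e1 ▸ st) le_rfl
      (by rw [eq.E x3, eq.b x3]; exact pas x (eq.n ▸ x1.1))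
    rw [e1, ← nb] at this
    exact KL.act_not_pas A' this
  obtain ⟨n, n1, n2, n3, n4, z, z1, z2, z3⟩ := U1.use U l j q eq tr nor al jl.le dj (nb ▸ q1) fq mq
    (nb ▸ pq)
  have S1 := tr.step n n1 (n2.trans jl)
  have lim := ActF.lim S1.use.act
  have z4 : Weak (U.E n) (U.nu n) (U.E j) (U.nu j) z := ⟨z1.mono, fun x hx =>
    have h1 := not_suc_iff.1 lim x hx
    (z1.mono hx h1 (lt_add_one x)).trans_le (nb ▸ KE.le1 (z1.maps _ h1)),
    fun x hx => absurd ⟨x, hx⟩ lim, z1.comm⟩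
  refine ⟨n, n1, n2.trans j2, n3, n4, r ∘ z, KE.weak_comp z4 r1, fun x hx => ?_, fun x hx => ?_⟩
  · rw [Function.comp, z2 x hx, r2 x (hx.trans_le (TreeSt.la_mono tr n2.le jl))]
  · rw [Function.comp, z3 x hx, q2 x (hx.trans ht)]

variable {S : Cov.{u}} [CovBSt.{u}] [BrSt.{u}] [KeySt.{u}] [CompatSt.{u}]

omit [TreeSt.{u}] [UltFactSt.{u}] [CovBSt.{u}] [BrSt.{u}] [KeySt.{u}] [CompatSt.{u}] in
theorem unf_basic (h : S.Unf m t E b) :
    S.Nx m t ∧ (∃ a c, S.Pm m t a c) ∧ Agree E S.Eb t := by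
  cases h with
  | good nx pm _ => exact ⟨nx, ⟨_, _, pm⟩, KL.ag_mono pm.ag le_self_add⟩
  | bad nx pm _ _ _ _ _ _ _ ag _ =>
    exact ⟨nx, ⟨_, _, pm⟩, KL.ag_trans (KL.ag_mono ag pm.lvl.ta_le) (KL.ag_mono pm.ag le_self_add)⟩

omit [UltFactSt.{u}] [CovBSt.{u}] in
/-- The model at `m`, if it is small. -/
theorem pm_use (hS : S.Ok) (nx : S.Nx m t) (pm : S.Pm m t a c) (hc : c < S.P.Om) :
    UseP S.T a m t (S.T.E a) c := by
  have tr := hS.coit.tr.mono (S5I.n_eq hS.eqT ▸ zero_le) pm.le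
  refine base tr (fun i hi => (pm.lo i hi).1) ⟨nx.next.1, pm.lvl.ta_le.trans le_self_add,
    KL.topC_ag (KL.ag_symm (KL.ag_mono pm.ag le_self_add)) nx.next.2.2.1, pm.lvl.noproj⟩
    pm.lvl.ta_le (pm.lvl.st_le.lt_or_eq.imp (fun h => ⟨h, pm.lvl.max h⟩) fun h => ⟨h, ?_⟩)
  refine (TreeSt.last tr le_rfl).resolve_left fun ⟨r, r1, r2⟩ => ?_
  obtain rfl := S5I.root_eq hS.eqT r1
  have st := (TreeSt.strong tr le_rfl r2).toWeak
  have := (KE.w_self st (lt_add_one _)).trans (KE.le1 (st.maps _ (lt_add_one _)))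
  rw [S5I.b_eq hS.eqT, ← h] at this
  exact absurd (hS.env.good.lt.trans_le this) hc.not_gt

/-- Small unfoldings have the recognition property. -/
theorem unf (hS : S.Ok) (h : S.Unf m t E b) (hb : b < S.P.Om) (pm : S.Pm m t a c) :
    UseP S.T a m t E b := by
  induction h generalizing a c with
  | good nx pm' _ =>
    obtain ⟨rfl, rfl⟩ := CovBSt.pm_uniq hS nx pm pm'
    exact pm_use hS nx pm hb
  | @bad m t a c m1 t1 b1 H j E1 E nx pm' act le _ prev ult ext top ag _ ih =>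
    obtain ⟨rfl, rfl⟩ := CovBSt.pm_uniq hS nx pm pm'
    obtain ⟨n1, ⟨a1, c1, p1⟩, g1⟩ := unf_basic prev
    have U2 := mono (ih ((KE.w_self ult.toWeak (lt_add_one _)).trans_lt hb) p1) IT.EqLt.refl
      (CovBSt.pm_mono hS n1 nx (act.lt.le.trans le) p1 pm)
    have n0 := S5I.n_eq hS.eqT
    refine step (fun i hi => ?_) (n0 ▸ zero_le) (pm_use hS nx pm (lt_of_le_of_lt (top ▸
      (KE.w_le ult.toWeak (KE.lt1 U2.le) (lt_add_one _)).2 U2.le) hb)) act le
      (pm.lvl.ta_le.lt_of_ne fun e => ?_) U2 (KL.ag_trans g1 (KL.ag_symm (KL.ag_mono pm.ag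
        (le.trans (nx.next.1.le.trans le_self_add))))) ult ext top ag
    · obtain rfl : i = 0 := le_antisymm (n0 ▸ hi) zero_le
      exact (S5I.good0 hS.eqT hS.env.good).pas
    · subst e
      exact KL.act_not_pas act fun x y => pm.ag _ (lt_add_one _) ▸ (CovBSt.nx hS nx).2.2.2.2.1 x y

end Pool.Agent.KM.Use
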