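import Pool.Agent.Lib.MP_5c0be7_lc.T.QPh
import Pool.Agent.Lib.MP_5c0be7_lc.T.Dec
import Pool.Agent.Lib.MP_5c0be7_lc.T.Use2

/-!
Project KM, block T3: the phalanx of the unfolded models is compared with the tree on the weasel.
-/

namespace Pool.Agent.KM

open Ordinal Cardinal Tr Set KE KL

universe u

/-- Maps from an unfolded model into models above a drop begin with an extender of the tree. -/
class UnfUseSt : Prop where
  unf : ∀ {S : Cov.{u}} {m t E b a c}, S.Ok → S.Unf m t E b → b < S.P.Om → S.Pm m t a c →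
    UseP S.T a m t E b

instance [TreeSt.{u}] [UltFactSt.{u}] [CovBSt.{u}] [BrSt.{u}] [KeySt.{u}] [CompatSt.{u}] :
    UnfUseSt.{u} := ⟨Use.unf⟩

namespace QPhI

variable {S : Cov.{u}} {a h h0 e i k m t : Ordinal.{u}} {F : IT.{u}}

theorem fix (ok : S.Ok) : ∀ t ≤ S.bb, S.pi t = t → ∀ x < t, S.pi x = x := fun _ ht h x hx =>
  (ok.hx.gap x (hx.le.trans ht)).resolve_right (not_lt.2 ((h ▸ ok.hx.mono hx).le.trans ht))

theorem lam_lt (ok : S.Ok) : S.lam.ord < S.P.t.ord := by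
  rw [ok.env.t]; exact ord_lt_ord.2 (Order.lt_succ _)

theorem lam_lt_om (ok : S.Ok) : S.lam.ord < S.P.Om := (lam_lt ok).trans (ord_lt_ord.2 S.P.h2)

variable [CovBSt.{u}]

/-- Every infinite cardinal of the hull below `h` is below an exchange ordinal. -/
theorem low (ok : S.Ok) (H : QPh S h e F) (hl : h ≤ S.lb) (hk : ω ≤ k) (hh : k < h)
    (hc : IsCard S.Eb (S.bb + 1) k) : ∃ i < F.n, ∃ t, S.Nx k t ∧ F.la i = t := by
  obtain ⟨t, nx⟩ := CovBSt.succ ok hk (hh.le.trans hl) hc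
  obtain ⟨i, h1, h2⟩ := H.all k t nx hh
  exact ⟨i, h1, t, nx, h2⟩

variable [ChainSt.{u}] [UnfUseSt.{u}]

/-- The hypotheses of the comparison lemma. -/
theorem decIn (ok : S.Ok) (H : QPh S h e F) (hl : h ≤ S.lb) (hb : e ≤ S.bb) (ha : a ≤ S.l)
    (hp : ∀ m t a' c, m < h → S.Nx m t → S.Pm m t a' c → a' ≤ a) (hh : h < h0)
    (ag : Agree (S.T.E a) S.Eb h0) (nu : ∀ i < a, S.T.nu i < h0 ∧ S.T.nu i ≤ e) :
    DecIn S.P S.W S.th S.T a F h0 := by
  have n0 : S.T.n ≤ a := ok.eqT.n ▸ zero_le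
  have lb : S.lb < S.lam.ord := ((CovBSt.top ok).next.1.trans ok.hx.lt).trans ok.hx.sm
  have hb' : h < S.lam.ord := hl.trans_lt lb
  refine ⟨ok.env.good, ok.env.rig, ok.eqT, ok.coit.tr.mono n0 ha, ok.coit.nor.mono ha, H.phal,
    H.pii, H.n.trans_lt (hb'.trans (lam_lt_om ok)), fun i hi =>
      ⟨(H.la i hi).trans (hb'.trans (lam_lt ok)).le, (H.la i hi).trans_lt hh⟩,
    H.b ▸ (hb.trans_lt ok.hx.sm).trans (lam_lt_om ok), fun i hi => ?_, H.E ▸ ag, H.b ▸ nu⟩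
  obtain ⟨m, hm, hu, ⟨⟨a', c, pm⟩, hI⟩, -⟩ := H.root i hi
  obtain ⟨nx, -, -, -, a1, -⟩ := ChainSt.basic ok hu
  rcases hI _ _ hu with ⟨-, h1⟩ | ⟨-, g, L, h1, h2⟩
  · exact Or.inl h1
  have N := CovBSt.nx ok nx
  have sm : F.b i < S.P.Om :=
    ((w_self L.ult.toWeak (lt_add_one _)).trans le_self_add).trans_lt
      (lev_lt S.P.reg.unc (ok.env.good.pm.ls _ (s1lt h1))
        ((h2.trans N.2.2.2.2.2.2.1).trans_lt (lam_lt_om ok)))
  refine Or.inr ⟨sm, m, Use.mono (UnfUseSt.unf ok hu sm pm) IT.EqLt.refl (hp _ _ _ _ hm nx pm),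
    fun k k1 k2 k3 => ?_⟩
  obtain ⟨j, j1, t, n', j2⟩ := low ok H hl k1.le (k2.trans hm) fun y y1 y2 => by
    rcases lt_or_ge y m with y3 | y3
    · rw [← rho_lt a1 (y3.trans (nx.next.1.trans (lt_add_one _)))]
      exact k3 y y1 (y3.trans nx.next.1)
    · exact k2.le.trans (nx.card y y3 y2)
  have j3 : F.la j < F.la i := j2 ▸ (next_le n'.next nx.card k2).trans_lt nx.next.1
  refine ⟨j, not_le.1 fun c => ?_, j2 ▸ n'.next.1⟩
  rcases c.eq_or_lt with rfl | c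
  · exact lt_irrefl _ j3
  · exact absurd (H.phal.mono i j c j1) (not_le.2 j3)

end QPhI

end Pool.Agent.KM
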