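import Pool.Agent.Lib.MP_5c0be7_lc.T.StCov
import Pool.Agent.Lib.MP_5c0be7_lc.T.LevII
import Pool.Agent.Lib.MP_5c0be7_lc.K.Loc

/-!
Project KM, block T3: the phalanx of the unfolded models, closed by a level of the hull.
-/

namespace Pool.Agent.KM

open Ordinal Tr Set KE KL

universe u

/-- The roots below the last one are the unfolded models at the cardinals below `h`; the last
root is the level `e + 1` of the hull. -/
structure QPh (S : Cov.{u}) (h e : Ordinal.{u}) (F : IT.{u}) : Prop where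
  phal : F.Phal
  pii : PII S.P.C 0 F
  E : F.E F.n = S.Eb
  b : F.b F.n = e
  n : F.n ≤ h
  root : ∀ i < F.n, ∃ m, m < h ∧ S.Unf m (F.la i) (F.E i) (F.b i) ∧ S.I m (F.la i) ∧
    ∀ j < i, F.la j ≤ m
  all : ∀ m t, S.Nx m t → m < h → ∃ i < F.n, F.la i = t
  la : ∀ i < F.n, F.la i ≤ h

namespace QPhI

variable {S : Cov.{u}} {h e m m' t t' : Ordinal.{u}}

/-- The successor of a cardinal is below every larger cardinal. -/
theorem next_le {E : Seq.{u}} {d : Ordinal.{u}} (N : IsNext E d m t) (c : IsCard E d m')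
    (hm : m < m') : t ≤ m' :=
  top_le N.2.2.1 (noProj_mono (card_noProj c hm) N.2.1)

variable [CovBSt.{u}] [ChainSt.{u}] [KGoodSt.{u}]

/-- The map of an unfolded model into a level of the weasel. -/
theorem lev (ok : S.Ok) (fx : ∀ t ≤ S.bb, S.pi t = t → ∀ x < t, S.pi x = x) {E : Seq.{u}}
    {b : Ordinal.{u}} (hu : S.Unf m t E b) (hI : S.I m t) :
    ∃ s, Good E b S.W s ∧ s b ≤ S.th ∧ ∀ x < t, s x = S.pi x := by
  have pm := ok.env.good.pm.toPM0
  have nx := (ChainSt.basic ok hu).1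
  rcases hI.2 E b hu with ⟨h1, rfl, rfl⟩ | ⟨-, g, L, h1, -⟩
  · exact ⟨id, KGoodSt.strong_good pm pm strong_id, le_rfl, fun x hx =>
      (fx t ((CovBSt.nx ok nx).1.trans ok.hx.lt.le) h1 x hx).symm⟩
  · exact ⟨g, KGoodSt.strong_good L.ult.pm L.ult.pm' L.ult.toStrong, h1.le, L.ext⟩

theorem ex [HullSt.{u}] [CondSt.{u}] (ok : S.Ok)
    (fx : ∀ t ≤ S.bb, S.pi t = t → ∀ x < t, S.pi x = x) (hl : h ≤ S.lb)
    (hc : IsCard S.Eb (S.bb + 1) h) (hI : S.IB h) (he : h ≤ e) (hbb : e ≤ S.bb) :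
    ∃ F, QPh S h e F := by
  classical
  let A : Set Ordinal.{u} := {m | ω ≤ m ∧ IsCard S.Eb (S.bb + 1) m}
  let n := hb h A
  have hm : ∀ i < n, unc h A i < h := fun i hi => lt_hb_iff.1 hi
  have key : ∀ i < n, ∃ t E b s, S.Nx (unc h A i) t ∧ S.Unf (unc h A i) t E b ∧
      Good E b S.W s ∧ s b ≤ S.th ∧ ∀ x < t, s x = S.pi x := fun i hi => by
    have a : unc h A i ∈ A := unc_mem hi
    obtain ⟨t, nx⟩ := CovBSt.succ ok a.1 ((hm i hi).le.trans hl) a.2
    obtain ⟨E, b, hu⟩ := ChainSt.ex ok nx fun m' t' n' h' => (hI m' t' n' (h'.trans_lt (hm i hi))).1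
    obtain ⟨s, hs⟩ := lev ok fx hu (hI _ _ nx (hm i hi))
    exact ⟨t, E, b, s, nx, hu, hs⟩
  choose! t E b s nx hu gd sb sx using key
  let nd : Ordinal.{u} → Nd.{u} := fun i => Nd.root (if i < n then E i else S.Eb)
    (if i < n then b i else e) (t (pred i))
  let F : IT.{u} := ⟨n, nd⟩
  have eE : ∀ i < n, F.E i = E i := fun i hi => if_pos hi
  have eb : ∀ i < n, F.b i = b i := fun i hi => if_pos hi
  have eE' : F.E n = S.Eb := if_neg (lt_irrefl n)
  have eb' : F.b n = e := if_neg (lt_irrefl n)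
  have el : ∀ i, F.la i = t i := fun i => congrArg t (pred_add_one i)
  have th : ∀ i < n, t i ≤ h := fun i hi => next_le (nx i hi).next hc (hm i hi)
  have tm : ∀ i j, i < j → j < n → t i ≤ unc h A j := fun i j hij hj =>
    next_le (nx i (hij.trans hj)).next (nx j hj).card (unc_strictMono hij)
  have tt : ∀ i j, i < j → j < n → t i < t j := fun i j hij hj =>
    (tm i j hij hj).trans_lt (nx j hj).next.1
  have B := fun i (hi : i < n) => ChainSt.basic ok (hu i hi)
  have N := fun i (hi : i < n) => CovBSt.nx ok (nx i hi)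
  have pb : S.pi S.bb = S.th := (s1inj (ok.hx.str.top _ rfl)).symm
  have ph : F.Phal := by
    refine ⟨fun i hi => ?_, fun _ _ _ _ => rfl, fun i j hij hj => ?_, fun i hi => ?_,
      fun i hi => ?_, fun i j hij hj => ?_, fun i j hij hj => ?_, fun i j hij hj => ?_⟩
    · rcases lt_or_eq_of_le hi with hi | rfl
      · rw [eE i hi, eb i hi]; exact (B i hi).2.1
      · rw [eE', eb']; exact pm_mono ok.hx.pm (by gcongr)
    · rw [el, el]; exact (tt i j hij hj).le
    · rw [el, eb i hi]; exact (B i hi).2.2.1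
    · rw [el, eE i hi]
      intro x y hxy
      rw [(B i hi).2.2.2.2.1 _ (lt_add_one _)] at hxy
      exact (N i hi).2.2.2.2.1 x y hxy
    · have hi : i < n := hij.trans_le hj
      have a := ag_mono (B i hi).2.2.2.2.1 (le_self_add (b := 1))
      rw [el, eE i hi]
      rcases lt_or_eq_of_le hj with hj | rfl
      · rw [eE j hj]
        exact ag_trans a (ag_symm (ag_mono (B j hj).2.2.2.2.1
          ((tt i j hij hj).le.trans le_self_add)))
      · rwa [eE']
    · rw [el]
      rcases lt_or_eq_of_le hj with hj | rfl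
      · rw [eb j hj]; exact (tt i j hij hj).le.trans (B j hj).2.2.1
      · rw [eb']; exact (th i hij).trans he
    · have hi : i < n := hij.trans_le hj
      have c := (N i hi).2.2.2.2.2.1
      rw [el]
      rcases lt_or_eq_of_le hj with hj | rfl
      · rw [eE j hj, eb j hj]
        intro a a1 a2
        rcases lt_or_ge a (t j) with a3 | a3
        · rw [rho_lt (B j hj).2.2.2.2.1 (a3.trans (lt_add_one _))]
          exact c a a1 (lt1 (a3.le.trans ((N j hj).1.trans ok.hx.lt.le)))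
        · exact (tm i j hij hj).trans ((B j hj).2.2.2.1 a a3 a2).le
      · rw [eE', eb']; exact card_mono c (by gcongr)
  let r : Ordinal.{u} → Ordinal.{u} → Ordinal.{u} := fun i => if i < n then s i else S.pi
  have r1 : ∀ i < n, r i = s i := fun i hi => if_pos hi
  have r2 : r n = S.pi := if_neg (lt_irrefl n)
  have rx : ∀ i j, i < n → i ≤ j → j ≤ n → ∀ x ≤ t i, (i < j ∨ x < t i) → r j x = S.pi x :=
    fun i j hi hij hj x hx hx' => by
      rcases lt_or_eq_of_le hj with hj | rfl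
      · rw [r1 j hj]
        refine sx j hj x ?_
        rcases hij.eq_or_lt with rfl | hij
        · exact hx'.resolve_left (lt_irrefl _)
        · exact hx.trans_lt (tt i j hij hj)
      · rw [r2]
  have wpm := ok.env.good.pm.toPM0
  have st : Strong S.Eb (e + 1) S.W (S.pi e + 1) S.pi :=
    strong_restrict (pb ▸ ok.hx.str) hbb
  have pe : S.pi e ≤ S.th := pb ▸ ok.hx.mono.monotone hbb
  have gd' : ∀ i ≤ n, Good (F.E i) (F.b i) S.W (r i) := fun i hi => by
    rcases lt_or_eq_of_le hi with hi | rfl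
    · rw [eE i hi, eb i hi, r1 i hi]; exact gd i hi
    · rw [eE', eb', r2]
      exact KGoodSt.strong_good (pm0_mono ok.hx.pm.toPM0 (by gcongr)) (pm0_mono wpm (by gcongr)) st
  refine ⟨F, ph, LevII.pii_zero wpm ok.env.good.ii ph gd' (fun i hi => ?_)
    (fun i j hij hj x hx => ?_) (fun i j hij hj x hx => Or.inr ?_), eE', eb', hb_le,
    fun i hi => ⟨unc h A i, hm i hi, ?_, ?_, fun j hj => el j ▸ tm j i hj hi⟩,
    fun m t' n' hm' => ?_, fun i hi => el i ▸ th i hi⟩
  · rcases lt_or_eq_of_le hi with hi | rfl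
    · rw [eb i hi, r1 i hi]; exact sb i hi
    · rw [eb', r2]; exact pe
  · have hi : i < n := hij.trans_le hj
    rw [el] at hx
    rw [rx i j hi hij.le hj x hx.le (Or.inr hx), rx i i hi le_rfl hi.le x hx.le (Or.inr hx)]
  · have hi : i < n := hij.trans_le hj
    rw [el] at hx
    obtain ⟨t2, n2⟩ := CovBSt.succ ok ((nx i hi).inf.trans (nx i hi).next.1.le)
      ((th i hi).trans hl) (N i hi).2.2.2.2.2.1
    refine ⟨S.pi (t i), ?_, ?_, (CovBSt.nx ok n2).2.2.2.2.2.2.2.1⟩
    · rw [rx i j hi hij.le hj x hx.le (Or.inr hx)]; exact ok.hx.mono hx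
    · rw [← rx i j hi hij.le hj _ le_rfl (Or.inl hij)]
      exact ((gd' j hj).maps _ (lt1 (el i ▸ ph.le' i j hij hj))).le
  · rw [el, eE i hi, eb i hi]; exact hu i hi
  · rw [el]; exact hI _ _ (nx i hi) (hm i hi)
  · have a : m ∈ A := ⟨n'.inf, n'.card⟩
    have c := col_lt_hb a hm'
    refine ⟨_, c, ?_⟩
    have := (nx _ c).next
    rw [unc_col a] at this
    rw [el]
    exact le_antisymm (top_le this.2.2.1 (noProj_mono n'.next.2.2.2 this.2.1))
      (top_le n'.next.2.2.1 (noProj_mono this.2.2.2 n'.next.2.1))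

end QPhI

end Pool.Agent.KM
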