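import Pool.Agent.Lib.MP_5c0be7_lc.T.StRet
import Pool.Agent.Lib.MP_5c0be7_lc.T.Hx0
import Pool.Agent.Lib.MP_5c0be7_lc.T.IILim
import Pool.Agent.Lib.MP_5c0be7_lc.T.Fold
import Pool.Agent.Lib.MP_5c0be7_lc.T.Cts
import Pool.Agent.Lib.MP_5c0be7_lc.T.CovB
import Pool.Agent.Lib.MP_5c0be7_lc.K.IterI
import Pool.Agent.Lib.MP_5c0be7_lc.K.II
import Pool.Agent.Lib.MP_5c0be7_lc.K.Hull1

/-!
Project KM, block T3: the hypothesis of the phalanx lemma holds for the lift.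
-/

namespace Pool.Agent.KM

open Ordinal Cardinal Tr Set KE

universe u

namespace RetI

variable {S : Cov.{u}} {T R U : IT.{u}} {E F : Seq.{u}}
  {a b c c0 h i j k k0 l m t t' v y : Ordinal.{u}} {e g : Ordinal.{u} → Ordinal.{u}}

/-- Passive limit levels are cofinal in a successor cardinal of uncountable cofinality. -/
theorem low [ActSt.{u}] [StrSt.{u}] (P : PM E (b + 1)) (N : IsNext E (b + 1) h v)
    (hc : IsCard E (b + 1) h) (hv : v ≤ b) (h0 : ℵ₀ < v.cof) (ha : a < v) :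
    ∃ x, a < x ∧ x < v ∧ ¬ Suc x ∧ Pas E x := by
  have hl := limit_of_cof h0.le
  have hu : Unb {x | rho E x ≤ h} v := fun x hx =>
    let ⟨y, h1, h2, h3⟩ := N.2.2.1 _ (hl.add_one_lt hx); ⟨y, h3, Order.add_one_le_iff.1 h1, h2⟩
  obtain ⟨x, ⟨h1, h2⟩, h3, h4⟩ := (Clb.of_unb hu).unb h0 _ (max_lt ha N.1)
  have hx : x + 1 < b + 1 := s1lt (h4.trans_le hv)
  refine ⟨x, (le_max_left _ _).trans_lt h3, h4, not_suc_of_limit (h2.limit h1),
    (P.act x ((lt_add_one x).trans hx)).resolve_right fun ⟨k, t, e, A⟩ => ?_⟩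
  obtain ⟨z, z1, z2, z3⟩ := h2 _ (A.weak.maps k A.lt)
  have h5 := hc _ (((le_max_right _ _).trans h3.le).trans le_self_add) hx
  exact (h5.trans_lt (StrSt.nosup (pm_mono P hx.le) (P.ls _ hx) A)).not_ge
    ((ActSt.card (P.ls.mono ((lt_add_one x).trans hx).le) A z z2.le z3).trans z1)

/-- Absence of strong ordinals in an interval goes up. -/
theorem nostr_up {d d' : Ordinal.{u}} (W : Weak E d F d' g) (L : LS E d) (L' : LS F d')
    (hv : ¬ Suc v) (hh : h < v) (hd : v ≤ d) (hk : k < h)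
    (H : ∀ x, k ≤ x → x < h → ¬ StrongTo E h x) : ∀ x, g k ≤ x → x < g h → ¬ StrongTo F (g h) x :=
  fun x h1 h2 h3 => by
  obtain ⟨y, y1, y2, y3⟩ := ((Df.oex (Q := fun E b y w => w.lab ≤ y ∧ StrongTo E b y) On.top
    ((Df.ole (On.lab IsOp.id.snd) (On.lab IsOp.id.fst)).and
      (Df.strongTo On.top (On.lab IsOp.id.fst)))).weak_lim (z := leaf k) W L L' hv hh hd
    (by simpa using hk)).1 ⟨x, h2, by simpa using h1, h3⟩
  exact H y y2 y1 y3

variable [TreeSt.{u}]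

/-- The critical point of a step is a cardinal of the next model. -/
theorem ka_card (hT : T.IsTr l) (hn : T.n ≤ i) (hi : i < l) :
    IsCard (T.E (i + 1)) (T.b (i + 1) + 1) (T.ka i) := fun z z1 z2 => by
  have s := hT.step i hn hi
  have A := s.use.act
  rcases lt_or_ge z (T.nu i) with h1 | h1
  · rw [KL.rho_lt s.agree h1]
    exact (lt_or_ge z (T.ta i)).elim (A.card z z1) fun h2 => (A.next z h2 h1).le
  · have h2 : T.la i < T.nu i := s.la ▸ A.weak.maps _ A.lt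
    exact (s.la ▸ A.move.le : T.ka i ≤ T.la i).trans (TreeSt.card hT (lt_add_one i)
      (Order.add_one_le_iff.2 hi) z (h2.le.trans h1) z2)

/-- The first return to the first root. -/
theorem ret0 (hT : T.IsTr j) (hn : T.n = 1) (hu : T.Use j v k t e) (hk : k < T.la 0)
    (hc : IsCard (T.E 0) (T.b 0 + 1) (T.la 0)) :
    t ≤ T.la 0 ∧ IsCard (T.E 0) (T.b 0 + 1) k ∧ IsNext (T.E 0) (T.b 0 + 1) k t := by
  have h0 : 0 < j := zero_lt_one.trans_le (hn ▸ hT.le)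
  have A := hu.act
  have ag := TreeSt.agree hT h0 le_rfl
  have lv : T.la 0 < v := (hu.inc 0 h0).trans_lt (A.weak.maps _ A.lt)
  have h1 : t ≤ T.la 0 := KL.top_le A.top (KL.noProj_mono (KL.card_noProj
    (TreeSt.card hT h0 le_rfl) hk) (A.dom.le.trans (lt1 hu.le).le))
  have np : NoProj (T.E 0) k t (T.b 0 + 1) := fun z z1 z2 => (lt_or_ge z (T.la 0)).elim
    (fun h2 => KL.rho_lt ag h2 ▸ A.next z z1 (h2.trans lv)) fun h2 => hk.trans_le (hc z h2 z2)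
  exact ⟨h1, fun z z1 z2 => (lt_or_ge z t).elim
    (fun h2 => KL.rho_lt ag (h2.trans_le h1) ▸ A.card z z1 h2) fun h2 => (np z h2 z2).le,
    A.lt, h1.trans (lt1 (hT.phal.le 0 (hn ▸ zero_lt_one))).le,
    KL.topC_ag (KL.ag_symm (KL.ag_mono ag h1)) A.top, np⟩

variable [KHullSt.{u}] [KIISt.{u}] [CovBSt.{u}] [ChainSt.{u}] [KMainSt.{u}] [UBackSt.{u}]
  [LinkSt.{u}]

/-- The tree lives on the image of a level whose countable parts go into the last model of `R`. -/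
theorem core (ok : S.Ok) (un : S.Unf m t E b) (ib : S.IB m) (L : S.Lift m t E b F g)
    (hp : S.Pm m t a c0) (hy : y ≤ m) (hky : k < S.pi y) (hR : S.T.EqLt R (a + 1)) (hal : a ≤ l)
    (tR : R.IsTr l) (st : ∀ i, a ≤ i → i < l → y ≤ R.ka i ∧ R.pr i ≤ a)
    (la : l = a ∨ ∃ i, a ≤ i ∧ l = i + 1) (hm : m < c) (hc : c ≤ b)
    (tar : ∀ (F0 : Seq.{u}) b0 s, b0 < ω₁ → Good F0 b0 E s → s b0 = c → ∃ s', Good F0 b0 E s' ∧
      (∀ x < b0, s' x = s x) ∧ s' b0 ≤ c ∧ s' b0 ≤ R.b l ∧ Agree E (R.E l) (s' b0 + 1))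
    (hU : (IT.two S.W S.th F (g c) (S.pi m)).EqLt U 2) (tU : U.IsTr j) (ab : U.Above (S.pi m) j)
    (us : U.Use j v k t' e) : RzX S.P.C S.W S.th (U.E j) k t' e := by
  intro E0 a0 k0 t0 r Z ha0 pE0 hr hk0 ht0 hlt hle hZ
  obtain ⟨nx, pE, tb, np, agE, -⟩ := ChainSt.basic ok un
  have pW := ok.env.good.pm
  have pB := ok.hx.pm
  have mb := CovBI.m_lt ok nx
  have two : ∀ {i : Ordinal.{u}}, i ≤ 1 → U.nd i = (IT.two S.W S.th F (g c) (S.pi m)).nd i :=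
    fun h => hU.2 _ (h.trans_lt one_lt_two)
  have nU : U.n = 1 := hU.1
  have E0U : U.E 0 = S.W := (congrArg Nd.E (two zero_le)).trans IIp.two_E0
  have b0U : U.b 0 = S.th := (congrArg Nd.b (two zero_le)).trans IIp.two_b0
  have E1U : U.E 1 = F := (congrArg Nd.E (two le_rfl)).trans IIp.two_E1
  have b1U : U.b 1 = g c := (congrArg Nd.b (two le_rfl)).trans IIp.two_b1
  have laU : U.la 0 = S.pi m :=
    (congrArg Nd.la (two (zero_add (1 : Ordinal.{u})).le)).trans IIp.two_la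
  obtain ⟨T0, p, o, d, em, hd, hA, -⟩ := KHullSt.hull (T := U) (c := j + 1)
    (Z ∪ r '' Iic a0 ∪ {v, j, S.pi y}) (fun _ => ∅) (lt1 tU.le)
    (fun i h1 h2 => Real.isTr_mono tU h2 (le1 h1))
    ((hZ.union ((IIp.ctb_Iic ha0).image r)).union (Set.toFinite _).countable)
    fun _ => countable_empty
  have sm := em.root.mono
  obtain ⟨v0, -, rfl⟩ := hA (show v ∈ _ by simp)
  obtain ⟨j0, -, rfl⟩ := hA (show j ∈ _ by simp)
  obtain ⟨y0, -, hy0⟩ := hA (show S.pi y ∈ _ by simp)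
  have jd : j0 < d := sm.lt_iff_lt.1 (hd ▸ lt_add_one _)
  have p0 : p 0 = 0 := em.root.fin 0 omega0_pos
  have p1 : p 1 = 1 := em.root.fin 1 one_lt_omega0
  have n0 : T0.n = 1 := sm.injective (em.root.n.trans (nU.trans p1.symm))
  have d1 : 1 < d := n0 ▸ em.lt
  have d0 : 0 < d := zero_lt_one.trans d1
  have tT : T0.IsTr j0 := em.tr j0 jd (sm.le_iff_le.1 (em.root.n ▸ tU.le))
  obtain ⟨k1, t1, e0, u0, rfl, rfl, he⟩ := KHullSt.use em jd us
  have sW := em.str 0 d0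
  have sF := em.str 1 d1
  have pW0 := (em.pm0 0 d0).toPM0
  have pF0 := (em.pm0 1 d1).toPM0
  rw [p0, E0U, b0U] at sW
  rw [p1, E1U, b1U] at sF
  have pl : p (T0.la 0) = S.pi m := by rw [em.la 0 (d0.trans em.co), p0, laU]
  have pa := TB.top_eq sW.toWeak
  have pb := TB.top_eq sF.toWeak
  have ct := IterI.emb_ctb em jd
  have j1 : 1 ≤ j0 := n0 ▸ tT.le
  obtain ⟨w, s, sw, gs, c1, c2, c3⟩ := UBackSt.back ok un L hm.le hc (ct 0 zero_le) (ct 1 j1) sm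
    pW0 pF0 sW sF
  have pim : S.pi m < S.th := CovT.pi_top ok ▸ ok.hx.mono mb
  have piy : S.pi y ≤ S.pi m := ok.hx.mono.monotone hy
  have lb0 : T0.la 0 < T0.b 0 := sm.lt_iff_lt.1 (pl ▸ pa ▸ pim)
  have gm : g m = S.pi m := L.ext m nx.next.1
  have lb1 : T0.la 0 < T0.b 1 := sm.lt_iff_lt.1 (by
    rw [pl, pb, ← gm]; exact L.ult.mono (lt1 (hm.le.trans hc)) (lt1 hc) hm)
  have yl : y0 ≤ T0.la 0 := sm.le_iff_le.1 (pl ▸ hy0 ▸ piy)
  have ky : k1 < y0 := sm.lt_iff_lt.1 (hy0 ▸ hky)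
  have kl := ky.trans_le yl
  obtain ⟨tl, cd, nt⟩ := ret0 tT n0 u0 kl
    (Hx0.card_down sW lb0.le (pl ▸ (CovBSt.nx ok nx).2.2.2.2.2.2.2.1))
  have lim0 : ¬ Suc (T0.b 0) := TB.not_suc_down sW.toWeak (lt_add_one _)
    (pa ▸ ok.env.good.toTall.not_suc)
  have tb0 := tl.trans_lt lb0
  have kb0 := kl.trans lb0
  have ky' : w k1 < y := c1 y0 (yl.trans lb0.le) y (hy.trans mb.le) hy0 ▸
    sw.mono (lt1 kb0.le) (lt1 (yl.trans lb0.le)) ky
  have km := ky'.trans_le hy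
  have nx1 : S.Nx (w k1) (w t1) := ⟨u0.act.big.le.trans (w_self sw.toWeak (lt1 kb0.le)),
    km.le.trans nx.le, Hx0.card_up pW0 pB.toPM0 sw lim0 kb0 cd,
    (Hx0.next_iff pW0 pB.toPM0 sw lim0 tb0 kb0.le).2 nt⟩
  have nm := Str.next_le nx1.next nx.card km
  have nt' := nm.trans nx.next.1.le
  obtain ⟨R1, l1, e1, f, q1, q2, q3, -, q5, q6, q7, q8, q9⟩ := KMainSt.main ok nx1 nx km ib hp
  obtain ⟨s', g1, g2, g3, g4, g5⟩ := tar _ _ s (ct 1 j1) gs (c2 _ le_rfl c hc pb)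
  have ms : m < s' (T0.b 1) := by
    rw [← c2 _ lb1.le m (hm.le.trans hc) (pl.trans gm.symm), ← g2 _ lb1]
    exact g1.mono (lt1 lb1.le) (lt1 le_rfl) lb1
  have cE : IsCard E (b + 1) (w t1) := fun z z1 z2 => (lt_or_ge z (t + 1)).elim
    (fun h => KL.rho_lt agE h ▸ CovBI.t_card ok nx1 z z1 (lt1 ((le1 h).trans (CovT.t_lt ok nx).le)))
    fun h => nm.trans (np z (le_self_add.trans h) z2).le
  have fb := TB.top_eq q7.toWeak
  have me : m ≤ e1 := mb.le.trans (fb ▸ w_self q7.toWeak (lt_add_one _))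
  have pR1 : PM0 (R1.E l1) (e1 + 1) := pm0_mono (TreeSt.pm q3 le_rfl).toPM0 (by gcongr)
  have wa := TB.top_eq sw.toWeak
  have sc := strong_comp sw q7
  have wt : ∀ x < t1, w x < w t1 := fun x hx => sw.mono (lt1 (hx.le.trans tb0.le)) (lt1 tb0.le) hx
  obtain ⟨G, jj, q, r1, r2, r3, r4, r5⟩ := LinkSt.link (C := S.P.C) (n := w t1) rfl ok.env.good.ii
    ⟨q1.1.trans ok.eqT.1, fun i hi => (q1.2 i (hi.trans_le le_add_self)).trans (ok.eqT.2 i hi)⟩
    ⟨hR.1.trans q1.1.symm, fun i hi => (hR.2 i hi).trans (q1.2 i hi).symm⟩ q3 tR q2 hal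
    (la.imp_right fun ⟨i, h1, h2⟩ => ⟨i, h1, h2, (st i h1 (h2 ▸ lt_add_one i)).2, by
      subst h2
      have h3 := ka_card tR ((hR.1.trans (CovT.nT ok)).le.trans zero_le) (lt_add_one i)
      refine KL.top_le (KL.topC_ag (KL.ag_trans (KL.ag_symm (KL.ag_mono agE
        (nt'.trans le_self_add))) (KL.ag_mono g5 (nm.trans (lt1 ms.le).le))) nx1.next.2.2.1)
        (KL.noProj_mono (KL.card_noProj h3 (ky'.trans_le (st i h1 (lt_add_one i)).1))
          (nm.trans (lt1 (ms.le.trans g4)).le))⟩)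
    g4 (nm.trans ms.le) (KL.card_ag g5 (KL.card_mono cE (by gcongr; exact g3.trans hc))) q6
    (nm.trans me) q9
    (fun i hi => (congrArg Nd.la (q1.2 _ (s1lt hi))).le.trans ((hp.lo i hi).1.trans me))
    (fun i h1 h2 => ⟨(q5 i h1 h2).2.2, (q5 i h1 h2).2.1⟩) tT n0 ct
    (IterI.emb_above em pl ab jd.le le_rfl) u0 kl
    (KIISt.pre (g' := 0) (pa ▸ ok.env.good.ii) (TB.strong_good pW0 pW.toPM0 sW)
      fun _ _ _ => zero_le)
    (Fold.good_right g5 g1) rfl (ct 0 zero_le) pW0 tb0.le (TB.strong_good pW0 pR1 sc)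
    (TB.top_eq sc.toWeak) fun x hx => by
      have h1 := hx.trans_le tl
      rw [g2 x (h1.trans lb1), ← c3 x (pl ▸ sm h1)]
      exact ⟨(q8 _ (wt x hx)).symm, wt x hx⟩
  have ra := TB.top_eq hr.toWeak
  obtain ⟨r', f1, -, f3⟩ := IIp.factor sm (pa ▸ sW) (TB.strong_good pE0 pW.toPM0 hr)
    fun x hx => by
      obtain ⟨z, -, hz⟩ := hA (show r x ∈ _ from Or.inl (Or.inr ⟨x, hx, rfl⟩))
      exact ⟨z, sm.le_iff_le.1 (hz ▸ pa ▸ le1 (hr.maps x (lt1 hx))), hz⟩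
  have e1 : r' a0 = T0.b 0 := sm.injective ((f3 a0 le_rfl).trans (ra.trans pa.symm))
  have e2 : r' k0 = k1 := sm.injective ((f3 k0 (hlt.le.trans hle)).trans hk0)
  have e3 : r' t0 = t1 := sm.injective ((f3 t0 hle).trans ht0)
  have rt : ∀ x < t0, r' x < t1 := fun x hx =>
    e3 ▸ f1.mono (lt1 (hx.le.trans hle)) (lt1 hle) hx
  have iv : ∀ z ∈ Z, p (Function.invFun p z) = z := fun z hz =>
    let ⟨x, _, hx⟩ := hA (Or.inl (Or.inl hz)); Function.invFun_eq ⟨x, hx⟩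
  have ek := he k1 u0.act.lt
  rw [← e1] at r1 r2 r3
  refine ⟨G, jj ∘ r', q ∘ Function.invFun p, r1, r2, good_comp f1 r3, fun z hz h1 => ?_,
    fun n x h1 h2 h3 => ?_⟩
  · rw [Function.comp_apply, Function.comp_apply, e2]
    exact r4 _ (sm.lt_iff_lt.1 (by rwa [iv z hz, ek]))
  · have x1 : (x.map (Function.invFun p)).map p = x := by
      rw [KN.mm]; exact map_eq_self fun z hz => iv z (h2 hz)
    have x2 : In (e0 k1) (x.map (Function.invFun p)) := by rwa [← Hull.in_iff sm, x1, ek]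
    have x3 : In t1 (n.map r') := KN.in_map' rt h1
    have ev : ∀ z < t1, e0 z < T0.b j0 + 1 := fun z hz => (u0.act.weak.maps z hz).trans (lt1 u0.le)
    rw [← KN.mm, ← KN.mm (s := r'), ← KN.mm (s := Function.invFun p), ← r5 _ _ x3 x2,
      ← KN.wnm (em.str j0 jd).toWeak (KN.in_map' ev x3) (x2.mono (ev _ u0.act.lt).le), x1, KN.mm,
      KN.mm, KN.mm, KN.map_eq (s := e ∘ r) (s' := (p ∘ e0) ∘ r') (fun z hz => by
        simp only [Function.comp_apply, he _ (rt z hz), f3 z (hz.le.trans hle)]) h1]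

theorem ret [TruncSt.{u}] [ActSt.{u}] [StrSt.{u}] [FragSt.{u}] [CritSt.{u}] [UltFactSt.{u}]
    (ok : S.Ok) (un : S.Unf m t E b) (ib : S.IB m) (L : S.Lift m t E b F g) :
    Ret S.P.C S.W S.th F (g b) (S.pi m) := by
  intro U j v k t' e hU tU ab us hk
  obtain ⟨nx, pE, tb, np, agE, -⟩ := ChainSt.basic ok un
  obtain ⟨a, c, hp⟩ : ∃ a c, S.Pm m t a c := by cases un <;> exact ⟨_, _, ‹_›⟩
  have hy : sInf {x | k < S.pi x} ≤ m := csInf_le' hk
  have hky : k < S.pi (sInf {x | k < S.pi x}) := csInf_mem (s := {x | k < S.pi x}) ⟨m, hk⟩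
  obtain ⟨R, l, hR, hal, tR, st, la, ⟨h1, h2⟩ | ⟨x, k0, t0, H, h1, A, h2, h3, h4, h5, h6, h7, N, h8⟩⟩ :=
    ChainSt.alt ok un hp hy
  · exact core ok un ib L hp hy hky hR hal tR st la (nx.next.1.trans_le tb) le_rfl
      (fun _ _ s _ q1 q2 => ⟨s, q1, fun _ _ => rfl, q2.le, q2 ▸ h1, q2 ▸ h2⟩) hU tU ab us
  have pR := TreeSt.pm tR le_rfl
  have lR : LS (R.E l) x := pR.ls.mono (lt1 h1).le
  have xl := limit_of_cof h4.le
  have xs := not_suc_of_limit xl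
  have hx := N.1
  have hb := hx.le.trans h5
  have cd : IsCard E (b + 1) (H k0) := fun z z1 z2 => (lt_or_ge z x).elim
    (fun q => KL.rho_lt h6 q ▸ ActSt.card lR A z z1 q) fun q => (N.2.2.2 z q z2).le
  have lc : ∀ z < H k0, ∃ y, z < y ∧ y < H k0 ∧ IsCard E (H k0) y := fun z hz =>
    let ⟨y, y1, y2, y3⟩ := CritSt.crit_lim _ _ _ _ _ _ (lR.mono A.dom.le) lR A.toExt A.fix A.move
      (StrSt.crit lR A).1 z hz
    ⟨y, y1, y2, KL.card_ag (KL.ag_symm (KL.ag_mono h6 hx.le)) (KL.card_mono y3 hx.le)⟩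
  have ns : ∀ z, k0 ≤ z → z < H k0 → ¬ StrongTo E (H k0) z := fun z z1 z2 z3 =>
    FragSt.small (pm0_mono pR.toPM0 (lt1 h1).le) A (pR.small x (lt1 h1) _ _ _ A) z1 z2
      (FragSt.congr (KL.ag_mono h6 hx.le) z3)
  have km : k0 < m := h2.trans_le hy
  have gk : g k0 = S.pi k0 := L.ext k0 (km.trans nx.next.1)
  have gm : g m = S.pi m := L.ext m nx.next.1
  have sg := L.ult.toStrong
  have pF := L.pm.toPM0
  have NF : IsNext F (g b + 1) (g (H k0)) (g x) := CtsI.next_up pE.toPM0 pF sg N h5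
    (UltFactSt.cts L.ult h5 fun f hf =>
      let ⟨z, z1, z2⟩ := RegSt.reg _ _ _ _ f pE.ls N (lt1 h5) hf
      ⟨z, z1, fun w y hw q1 q2 => by simpa using z2 w _ (hw.mono h3.le) q1 (by simpa using q2)⟩)
  have mono : ∀ {z z'}, z ≤ b → z' ≤ b → (g z ≤ g z' ↔ z ≤ z') := fun q1 q2 =>
    w_le sg.toWeak (lt1 q1) (lt1 q2)
  obtain ⟨U', q1, q2, q3, q4, q5⟩ := TruncSt.trunc (h := g (H k0)) (y := g x) (k0 := g k0) hU tU ab
    us (gk ▸ not_lt.1 fun q => h2.not_ge (csInf_le' q)) hk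
    (gm ▸ not_le.1 fun q => h3.not_ge ((mono hb (h3.le.trans hb)).1 q)) ((mono h5 le_rfl).2 h5) NF
    ⟨IIp.card_up (TB.strong_good pE.toPM0 pF sg) cd (N.2.2.2 b h5 (lt_add_one b))
      fun z z1 z2 => absurd z2 z1.not_gt,
      (Str.lim_iff sg.toWeak pE.ls pF.ls xs hx (lt1 h5).le).2 lc⟩
    (TB.pas_up pE.toPM0 pF sg h5 h7)
    (nostr_up sg.toWeak pE.ls pF.ls xs hx (lt1 h5).le A.move ns) fun k' t' e' B => by
      obtain ⟨k1, t1, e1, B1, rfl, -⟩ := KActSt.good_act_down pE.toPM0 pF sg le_rfl B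
      have kb := (B1.lt.trans B1.dom).le
      exact (h8 _ _ _ B1).imp (fun q => not_le.1 fun q' =>
        q.not_ge ((mono (A.move.le.trans hb) kb).1 q')) (mono hb kb).2
  rw [← q5]
  refine core ok un ib L hp hy hky hR hal tR st la (h3.trans hx) h5 (fun F0 b0 s c1 c2 c3 => ?_)
    q1 q2 q3 q4
  subst c3
  obtain ⟨z, z1, z2⟩ := bdd_fam (small_Iio (IILimI.card_lt h4 c1)) (fun w : Iio b0 => s w.1)
    fun w => c2.mono (lt1 (le_of_lt w.2)) (lt1 le_rfl) w.2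
  obtain ⟨y, y1, y2, y3, y4⟩ := low pE N cd h5 h4 z1
  have e1 : Function.update s b0 y b0 = y := Function.update_self ..
  exact ⟨_, IILimI.lower c2 y3 xs y2 y4 h7 fun w hw => (z2 ⟨w, hw⟩).trans y1,
    fun w hw => Function.update_of_ne hw.ne .., e1.le.trans y2.le, e1.le.trans (y2.le.trans h1),
    e1.symm ▸ KL.ag_mono h6 (Order.add_one_le_iff.2 y2)⟩

end RetI

instance [TreeSt.{u}] [KHullSt.{u}] [KIISt.{u}] [CovBSt.{u}] [ChainSt.{u}] [KMainSt.{u}]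
    [UBackSt.{u}] [LinkSt.{u}] [TruncSt.{u}] [ActSt.{u}] [StrSt.{u}] [FragSt.{u}] [CritSt.{u}]
    [UltFactSt.{u}] : RetSt.{u} := ⟨RetI.ret⟩

end Pool.Agent.KM
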