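import Pool.Agent.Lib.MP_5c0be7_lc.T.Tame
import Pool.Agent.Lib.MP_5c0be7_lc.T.Refl
import Pool.Agent.Lib.MP_5c0be7_lc.C.Easy
import Pool.Agent.Lib.MP_5c0be7_lc.P.Th
import Pool.Agent.Lib.MP_5c0be7_lc.K.Step
import Pool.Agent.Lib.MP_5c0be7_lc.L.Agree

/-!
Project KM, block T1: the stack over a weasel exists.
-/

namespace Pool.Agent.KM.S2I

open Ordinal Cardinal Tr Set Filter Order TB

universe u

variable {P : Pa.{u}} {E F G W : Seq.{u}} {b c th : Ordinal.{u}}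

variable [CondSt.{u}] [KIISt.{u}]

/-- A premouse whose hulls collapse to levels of the weasel is a member. -/
theorem core (hW : PM W (P.Om + 1)) (iW : P.II W P.Om) (hG : PM G (c + 1)) (hc : P.Om ≤ c)
    (ag : Agree G W P.Om) (gen : Gen G (c + 1) P.Om .nil)
    (H : ∀ᶠ X in P.ae (c + 1), ∀ e, Cut P.O X e →
      Agree (pull (unc (c + 1) X) G) W (col (c + 1) X c + 1)) : Memb P G c := by
  have hl := lt_add_one c
  have hth : P.O.ord ≤ c + 1 := hc.trans hl.le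
  have key : ∀ Y : Set Ordinal.{u}, Sm P.O Y → Y ⊆ Iio (c + 1) → ∃ X e, Y ⊆ X ∧ c ∈ X ∧
      Cut P.O X e ∧ col (c + 1) X c + 1 < P.Om ∧
      Strong W (col (c + 1) X c + 1) G (c + 1) (unc (c + 1) X) := fun Y h1 h2 => by
    obtain ⟨X, e, ⟨⟨⟨a1, a2⟩, a3⟩, a4, -⟩, he, -⟩ := ex_cof P.reg P.ht P.aleph0_lt_t P.h2 hth
      ((((ae_sub P.reg h1 h2).and H).and (ae_hl P.reg G hl)).and (ae_basic P.reg))
    exact ⟨X, e, a1, a3.mem, he, P.lim.add_one_lt (col_lt_ord hl.le (a4.mono inter_subset_left)),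
      KL.strong_left (a2 e he) (a3.pull hl hG.toPM0).2.1⟩
  refine PreM.memb ⟨hG, fun E0 b0 g0 k hb0 hE0 hk hkb _ => ?_, hc, in_nil _, trivial, by simp, gen⟩
    (le_of_forall_lt fun k hk => CU.lt_rho_of (hk.trans_le hth) fun x hx => ?_)
  · subst hkb
    have hm : ∀ z ≤ b0, k z ≤ k b0 := fun z hz => KE.le1 (hk.maps z (KE.lt1 hz))
    obtain ⟨X, e, h1, h0, -, h2, h3⟩ := key (k '' Iic b0)
      (Sm.of_countable P.reg (Countable.image (by
        rw [← Iio_insert]; exact (Step.ctb hb0).insert b0) _))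
      (image_subset_iff.2 fun z hz => KE.lt1 (hm z hz))
    have hf : Good E0 b0 W (col (k b0 + 1) X ∘ k) :=
      KE.good_cancel (s' := unc (k b0 + 1) X) (by simpa [unc_col h0] using h3)
        (KE.good_congr hk fun z hz => unc_col (h1 ⟨z, hz, rfl⟩)) fun z hz => col_mono (hm z hz)
    exact ii_lev iW hW.toPM0 ((lt_add_one _).trans h2).le E0 b0 g0 _ hb0 hE0 hf rfl
      fun _ _ _ => zero_le
  · obtain ⟨X, e, h1, h0, he, h2, h3⟩ := key (Iic k ∪ x.lv)
      ((sm_Iio.2 (P.lim.add_one_lt hk)).mono (fun _ h => KE.lt1 h) |>.union P.reg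
        (Sm.of_countable P.reg x.lv_finite.countable))
      (union_subset (fun _ h => (lt_of_le_of_lt h hk).trans_le hth) hx)
    have hke : k < e := (he.2 k hk).1 (h1 (Or.inl (le_refl k)))
    have hec : k ≤ col (c + 1) X c + 1 :=
      (hke.le.trans ((he.col_ord hth).ge.trans (col_mono hc))).trans le_self_add
    have h4 := PT.th_up (E := W) (P.lim.add_one_lt h2) (hec.trans le_self_add)
      (in_col_succ (th := c + 1) (X := X) hx)
    refine F3.named_congr (F3.named_mono (PT.named_ag (KL.ag_symm ag) h4) hth le_rfl)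
      fun q hq => ?_
    rw [← CU.th_map h3 hec (fun _ h => he.unc_fix (h.trans hke)) (in_col_succ hx) hq,
      unc_col_tr (subset_union_right.trans h1)]

omit [CondSt.{u}] [KIISt.{u}] in
theorem pas_Om [ActSt.{u}] (hW : PM0 W (P.Om + 1)) : Pas W P.Om :=
  Refl.pas_of_cof hW (fun a ha => ⟨a, le_rfl, ha, KE.rho_le.trans ha.le⟩) P.cof_Om.ge

/-- The weasel itself is a member. -/
theorem base [ActSt.{u}] (hW : PM W (P.Om + 1)) (iW : P.II W P.Om) : Memb P W P.Om := by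
  have hl := lt_add_one P.Om
  refine core hW iW hW le_rfl (fun _ _ => rfl) (DiagSt.gen_top _ _) ?_
  filter_upwards [ae_hl P.reg W hl, ae_cut_clb P.reg hl.le (vlim_clb P)] with X H hv e he
  have h1 := he.col_ord hl.le
  have h2 := he.unc_cut hl.le (Or.inl H.mem)
  obtain ⟨h3, h4, -⟩ := H.pull hl hW.toPM0
  rw [show col (P.Om + 1) X P.Om = e from h1] at h3 h4 ⊢
  refine ag_succ (AgreeSt.of_fix h3 hW.toPM0 h4.toWeak le_self_add fun _ => he.unc_fix)
    (pas_eq (fun x y => ?_) (pas_of_card hW.toPM0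
      ((P.lim.add_one_lt he.1).trans hl) ((hv e he).isCard hW.ls)))
  rw [pull, h2]
  exact pas_Om hW.toPM0 _ _

variable [CndSt.{u}] [FragSt.{u}]

omit [CondSt.{u}] [KIISt.{u}] [CndSt.{u}] [FragSt.{u}] in
theorem pm_pas (h : PM E c) (hp : Pas E c) (hl : Lev E c) : PM E (c + 1) :=
  ⟨⟨fun a ha => (KE.le1 ha).eq_or_lt.elim (fun e => e ▸ hl) (h.ls a),
    fun a ha => (KE.le1 ha).eq_or_lt.elim (fun e => Or.inl (e ▸ hp)) (h.act a)⟩,
    fun a ha k t e A => (KE.le1 ha).eq_or_lt.elim (fun e => absurd (e ▸ hp) (KL.act_not_pas A))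
      fun h1 => h.small a h1 k t e A⟩

/-- The next level over a member is a member. -/
theorem succ (hW : PM W (P.Om + 1)) (iW : P.II W P.Om) (h : Memb P F b) (ag : Agree F W P.Om) :
    Memb P (KL.pas F (b + 1)) (b + 1) ∧ Agree (KL.pas F (b + 1)) W P.Om := by
  have a1 : Agree F (KL.pas F (b + 1)) (b + 1) := KL.pas_ag
  have hm := h.ag a1
  have hle := h.le.trans (le_self_add (b := 1))
  have a2 := KL.ag_trans (KL.ag_mono (KL.ag_symm a1) hle) ag
  have hl := lt_add_one (b + 1)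
  have hb := (lt_add_one b).trans hl
  refine ⟨core hW iW (pm_pas hm.pm KL.pas_pas hm.lev) hle a2
    (hm.rho ▸ DiagSt.gen_succ _ _ hm.lev) ?_, a2⟩
  filter_upwards [ae_hl P.reg (KL.pas F (b + 1)) hb, ae_mem P.reg hl, ae_basic P.reg,
    Refl.ae_lc P.reg (Refl.lc_om P) (hle.trans hl.le)] with X H m ⟨sm, _⟩ hL e he
  have h1 : col (b + 1 + 1) X (b + 1) = col (b + 1 + 1) X b + 1 :=
    eq_of_forall_lt_iff fun a => by
      rw [lt_col_iff, lt_add_one_iff, lt_add_one_iff, ← not_lt, ← not_lt, ← col_lt_col_iff H.mem,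
        col_unc]
  have h2 : col (b + 1 + 1) X (b + 1) < P.Om := col_lt_ord hl.le (sm.mono inter_subset_left)
  refine ag_succ (h1 ▸ KL.ag_trans (Refl.hl_agree hm hb H he (hL e he).uc)
    (KL.ag_mono a2 (h1 ▸ h2.le))) (pas_eq (fun x y => ?_)
      (h1 ▸ pas_suc hW.toPM0 (h1 ▸ h2.trans (lt_add_one _))))
  rw [pull, unc_col m]
  exact KL.pas_pas _ _

variable [ReflSt.{u}] [ActSt.{u}]

/-- The union of all members. -/
theorem stack (hW : PM W (P.Om + 1)) (iW : P.II W P.Om) :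
    ∃ E th, Agree E W P.Om ∧ Stk P E th ∧ Pas E th ∧ Full P E th := by
  classical
  have hne : {c | ∀ F b, Memb P F b → Agree F W P.Om → b < c}.Nonempty :=
    ⟨(Order.succ P.O).ord, fun F b h _ => (lt_add_one b).trans
      (KL.lev_lt (P.aleph0_lt.trans (lt_succ _)) h.lev
        (h.proj.trans_lt (ord_lt_ord.2 (lt_succ _))))⟩
  obtain ⟨th, h1, h2⟩ := wellFounded_lt.has_min _ hne
  have h3 : ∀ a < th, ∃ F b, Memb P F b ∧ Agree F W P.Om ∧ a ≤ b := fun a ha => by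
    by_contra! c
    exact h2 a c ha
  choose! N n m1 m2 m3 using h3
  obtain ⟨E, hE⟩ : ∃ E : Seq.{u}, E = fun a x y => a < th ∧ N a a x y := ⟨_, rfl⟩
  have h4 : ∀ F b, Memb P F b → Agree F W P.Om → Agree F E (b + 1) := fun F b h ag v hv => by
    have hv' := (KE.le1 hv).trans_lt (h1 F b h ag)
    have ag' := KL.ag_trans ag (KL.ag_symm (m2 v hv'))
    have : F v = N v v := (le_total b (n v)).elim
      (fun c => ReflSt.lin P h (m1 v hv') ag' c v hv)
      fun c => (ReflSt.lin P (m1 v hv') h (KL.ag_symm ag') c v (KE.lt1 (m3 v hv'))).symm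
    funext x y
    simp [hE, hv', this]
  have h5 := base hW iW
  have h6 : Agree E W P.Om := KL.ag_symm (KL.ag_mono (h4 _ _ h5 fun _ _ => rfl) le_self_add)
  have h7 : ∀ a < th, n a + 1 < th := fun a ha =>
    let ⟨c1, c2⟩ := succ hW iW (m1 a ha) (m2 a ha); h1 _ _ c1 c2
  have h8 : ∀ a < th, Memb P E (n a) := fun a ha => (m1 a ha).ag (h4 _ _ (m1 a ha) (m2 a ha))
  refine ⟨E, th, h6, ⟨KL.pm_of_loc fun a ha => ⟨E, KE.pm_mono (h8 a ha).pm
    (add_le_add_left (m3 a ha) 1), fun _ _ => rfl⟩,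
    fun a ha => ii_lev (h8 a ha).ii (h8 a ha).pm.toPM0 (m3 a ha), h1 _ _ h5 fun _ _ => rfl,
    not_suc_iff.2 fun a ha => (add_le_add_left (m3 a ha) 1).trans_lt (h7 a ha),
    fun a ha => ⟨_, (m3 a ha).trans le_self_add, h7 a ha, (h8 a ha).proj⟩⟩,
    fun x y c => by simp [hE] at c, fun F b h ag => h1 F b h (KL.ag_trans ag h6)⟩

omit [CondSt.{u}] [KIISt.{u}] [CndSt.{u}] [ReflSt.{u}] in
/-- A stack of large cofinality is a weasel. -/
theorem tall [IILimSt.{u}] (h : Stk P E th) (hp : Pas E th) (hc : P.O ≤ th.cof) : Tall P E th := by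
  have h0 := P.aleph0_lt.trans_le hc
  have hl := Refl.stk_limit h
  refine ⟨pm_pas h.pm hp (AmenSt.lev_pas _ _ h.lim hp),
    IILimSt.lim h0 hp fun a ha => ?_, hp, h.lt, h.top, hc⟩
  have hu : Unb {x | rho E x ≤ P.Om} th := fun x hx =>
    let ⟨y, h1, h2, h3⟩ := h.top _ (hl.add_one_lt hx); ⟨y, h3, add_one_le_iff.1 h1, h2⟩
  obtain ⟨c, ⟨h1, h2⟩, h3, h4⟩ := (Clb.of_unb hu).unb h0 _ (max_lt ha h.lt)
  exact ⟨c, (le_max_left _ _).trans_lt h3, h4, not_suc_of_limit (h2.limit h1),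
    Refl.pas_of_top h.pm (hl.add_one_lt h4) (Refl.lc_om P).uc ((le_max_right _ _).trans_lt h3)
      fun x hx => let ⟨y, c1, c2, c3⟩ := h2 x hx; ⟨y, c2.le, c3, c1⟩, h.ii c h4⟩

end Pool.Agent.KM.S2I
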