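import Pool.Agent.Lib.MP_5c0be7_lc.T.Snd2
import Pool.Agent.Lib.MP_5c0be7_lc.T.LiftRho
import Pool.Agent.Lib.MP_5c0be7_lc.C.KeyK
import Pool.Agent.Lib.MP_5c0be7_lc.P.Th
import Pool.Agent.Lib.MP_5c0be7_lc.T.Str

/-!
Project KM, block T3: the lift of an unfolded premouse is sound above the image of the cardinal.
-/

namespace Pool.Agent.KM.Snd

open Ordinal Tr Set CU

universe u

variable {EP E1 EQ ES1 ES E E' : Seq.{u}} {g k t m b b' γ d : Ordinal.{u}}
  {H i j j1 s : Ordinal.{u} → Ordinal.{u}} {p p1 s0 : Tr.{u}}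

/-- Soundness above a cardinal goes up along a lift. -/
theorem lift_ks (h : KS E (b + 1) m p) (V : IsUlt E b m E' j) :
    KS E' (j b + 1) (j m) (p.map j) := by
  refine ⟨KE.w_in V.toWeak h.mem, fun a ha => ?_,
    solid_map V.pm.ls V.pm'.ls (UltFactSt.cof V) h.mem h.solid, gen_ult V h.gen⟩
  rw [lv_map] at ha
  obtain ⟨x, hx, rfl⟩ := ha
  exact (KE.w_le V.toWeak (KE.lt1 (V.lt.le.trans (rho_le _ _))) (h.mem x hx)).2 (h.ge x hx)

/-- Names of stage sets go up along strong maps. -/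
theorem stage (h : Strong E (b + 1) E' (b' + 1) s) {c x n : Tr.{u}} {a : Ordinal.{u}}
    (hk : k < rho E b) (ha : a < rho E b) (hx : In (b + 1) x) (hn : In (rho E b) n)
    (H : ∀ w, In k w → (Nm E n w ↔ Conv E b c (node w x) a)) :
    ∀ w, In (s k) w → (Nm E' (n.map s) w ↔ Conv E' b' c (node w (x.map s)) (s a)) := by
  have I := IsOp.id.{u}
  have hr := rho_le E b
  have h8 := (in_rho_map h (hn.mono (hr.trans le_self_add))).2 hn
  have := ((RD.ball I.fst ((RD.nm I.fst.snd.snd.snd I.fst.fst).iff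
    (RD.conv I.snd.snd.fst (I.fst.fst.pair I.snd)))).elem h c hx
    (y := node (leaf k) (node (leaf a) n)) (by simp [hk, ha, hn])).2
  simp only [map_node, map_leaf, fst_node, snd_node, leaf.injEq, forall_eq',
    exists_eq_left'] at this
  exact fun w hw => (and_iff_right (h8.fst.mono (rho_le _ _))).symm.trans
    (this (fun v hv => (and_iff_right (hn.fst.mono hr)).trans (H v hv)) w hw)

/-- Concatenation of lists. -/
def app : Tr.{u} → Tr.{u} → Tr.{u}
  | node l r, x => node l (app r x)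
  | _, x => x

theorem lv_app (h : Solid E d p) (j : Ordinal.{u} → Ordinal.{u}) (x : Tr.{u}) :
    (app (p.map j) x).lv = (p.map j).lv ∪ x.lv := by
  induction p with
  | nil => simp [app]
  | leaf a => exact h.elim
  | node l r _ ih =>
    obtain ⟨_, -, -, -, h⟩ := h
    simp [app, ih h, union_assoc]

theorem hl_tree {q w : Tr.{u}} (hm : m ≤ d) (hq : In d q)
    (h : ∀ a ∈ w.lv, Hl E d m q (leaf a)) : Hl E d m q w := by
  induction w with
  | nil => exact Hl.base hm hq (in_nil _)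
  | leaf a => exact h a rfl
  | node l r ihl ihr => exact (ihl fun a ha => h a (Or.inl ha)).pair (ihr fun a ha => h a (Or.inr ha))

namespace Cx

variable (C : Cx EP E1 EQ ES1 ES g k t m b H i j j1)
include C

/-- Witnesses for the lower part of the parameter. -/
theorem wit (hs : Cof ES1 (j1 b) ES (j (i b)) s) (s1 : ∀ x ≤ b, s (j1 x) = j (i x))
    (s2 : ∀ z < j k, s z = z) (ag : Agree ES1 ES (j1 b + 1)) (lt : j1 b < j t)
    (hp : In (j1 b + 1) p1) (tγ : t ≤ γ) (hγ : γ < H k) (hs0 : In (H k) s0)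
    (hN : Named EP (g + 1) γ (Th EP (g + 1) s0)) :
    Named ES (j (i b) + 1) (j γ) (Th ES (j (i b) + 1) (node (s0.map j) (p1.map s))) := by
  have γg := hγ.trans C.lg
  have s0g := hs0.mono C.lg.le
  obtain ⟨n0, h0, h1⟩ := C.psi γg s0g hN
  have key := fun n v => C.lifted hs.toWeak s1 s2 tγ γg s0g h0 h1 (n := n) (v := v)
  have e := C.jj k C.kt
  have kb := C.kt.le.trans C.tb
  have nx := CtsI.next_up C.V1.pm C.V1.pm' C.V1.toStrong C.next C.tb C.cts
  have hk := (lt_rho_map C.V1.toStrong kb).2 C.V1.lt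
  have sk : s (j k) = j (H k) := by rw [← e, s1 k kb, C.ik]
  have l1 := C.V1.pm'.ls
  rw [e] at nx hk
  generalize j1 t = τ at key nx
  generalize j1 b = B at hs ag lt hp nx hk l1
  have hr := rho_le ES1 B
  have τr : τ ≤ rho ES1 B := Str.next_le nx (AccSt.card_rho _ _ (l1.mono le_self_add)) hk
  have lim : ¬ Suc (j g) := fun ⟨a, ha⟩ => by
    have := C.V.comm g C.g1 topc .nil (in_nil _)
    rw [ev_topc_lim (ActF.lim C.act), ha, ev_topc (by simp)] at this
    cases this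
  have lim' := limit_of_not_suc lim (C.jlt C.lg le_rfl).ne_bot
  have Bg : B + 1 < j g := (Order.add_one_le_iff.2 lt).trans_lt (C.jlt C.act.dom le_rfl)
  have jγ := C.jlt γg le_rfl
  have jg : j g ≤ j (i b) := (KE.w_le C.V.toWeak C.g1 (lt_add_one _)).2 C.gb
  have I := IsOp.id.{u}
  obtain ⟨m1, m2, m3⟩ := ((RD.eq I.fst I.snd.fst).and (RD.conv I I.snd.snd)).ex
  obtain ⟨o, ho⟩ := I.fst.fst.pair (I.fst.snd.pair I.snd)
  have m4 : ∀ c a x, a ≤ B → In (B + 1) x →
      ((ev ES (B + 1) (m1 c) (node (leaf a) x)).isSome ↔ a < rho ES1 B ∧ Conv ES1 B c x a) :=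
    fun c a x ha hx => by
      rw [← KL.ev_suc ag _ le_rfl, m3 c ES1 B _ (by simp [hx, KE.lt1 ha])]
      simp
  have hT : Df.{u} fun E _ z => ∃ a < z.snd.fst.lab, ∃ n, In z.snd.snd.fst.lab n ∧
      (∀ w, In z.snd.snd.snd.fst.lab w → (Nm E n w ↔ (ev E z.snd.fst.lab (m1 (prec o z.fst.fst))
        (node (leaf a) (node w z.snd.snd.snd.snd.fst))).isSome = true)) ∧
      (ev E z.snd.fst.lab ltr (leaf a)).isSome = true ∧
        Nm E z.snd.snd.snd.snd.snd (node n z.fst.snd) := by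
    refine Df.congr (A := fun E _ z => ∃ y, In z.snd.fst.lab y ∧ (∃ a, y = leaf a) ∧
      ∃ n, In z.snd.snd.fst.lab n ∧
      (∀ w, In z.snd.snd.snd.fst.lab w → (Nm E n w ↔ (ev E z.snd.fst.lab (m1 (prec o z.fst.fst))
        (node y (node w z.snd.snd.snd.snd.fst))).isSome = true)) ∧
      (ev E z.snd.fst.lab ltr y).isSome = true ∧
        Nm E z.snd.snd.snd.snd.snd (node n z.fst.snd)) ?_ fun _ _ _ _ =>
      ⟨fun ⟨_, h1, ⟨a, h2⟩, h3⟩ => ⟨a, by simpa [h2] using h1, h2 ▸ h3⟩,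
        fun ⟨a, h1, h2⟩ => ⟨leaf a, by simpa using h1, ⟨a, rfl⟩, h2⟩⟩
    have hc : Fn.{u} fun _ _ w => m1 (prec o w.snd.snd.snd.fst.fst) :=
      Fn.op (m2.comp (IsOp.cmp _ I.snd.snd.snd.fst.fst (IsOp.const (erase_of_lv (lv_opc _)))))
    repeat' first
      | exact hc | exact Fn.const (erase_of_lv lv_ltr)
      | exact Fn.id | exact IsOp.id | apply IsOp.fst | apply IsOp.snd | apply On.lab
      | apply Df.ev_some | apply Df.bex | apply Df.ball | apply Df.and | apply Df.iff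
      | apply Df.nm | apply Df.isleaf | apply Fn.pair | apply Fn.fst | apply Fn.snd
  have z1 : In (j g) (node (leaf (B + 1)) (node (leaf τ) (node (leaf (j k))
      (node p1 (n0.map j))))) := by
    simp [Bg, nx.2.1.trans_lt Bg, C.jlt (C.kt.trans C.act.dom) le_rfl, hp.mono Bg.le,
      C.jin h0 le_rfl]
  refine Named.congr' (Named.mono' (df_named hT (C.V.pm'.ls.mono (jg.trans le_self_add)) lim
    (max_lt jγ (z1.ht_lt lim')) (le_max_left _ _) ((in_ht _).mono (le_max_right _ _)))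
    (jg.trans le_self_add)) fun q hq => ?_
  have w1 : In (s (j k)) (node q.snd (s0.map j)) :=
    sk ▸ (in_node _ _ _).2 ⟨hq.snd.mono (C.jlt hγ C.lg.le).le, C.jin hs0 C.lg.le⟩
  have w2 : In (j (i b) + 1) (node (node q.snd (s0.map j)) (p1.map s)) :=
    (in_node _ _ _).2 ⟨(sk ▸ w1).mono ((C.jlt C.lg le_rfl).le.trans (jg.trans le_self_add)),
      KE.w_in hs.toWeak hp⟩
  have e1 : Th ES (j (i b) + 1) (node (s0.map j) (p1.map s)) q ↔ (ev ES (j (i b) + 1)
      (prec o q.fst) (node (node q.snd (s0.map j)) (p1.map s))).isSome := by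
    rw [ev_prec _ _ w2, ho]; rfl
  have kB : j k ≤ B + 1 := hk.le.trans (hr.trans le_self_add)
  have nτ : ∀ n w, In τ n → (Nm ES1 n w ↔ Nm ES n w) := fun n w hn => KN.anm ag (hn.mono nx.2.1)
  simp only [fst_node, snd_node, lab_leaf]
  rw [e1, ev_iff_conv' hs hk w2]
  generalize prec o q.fst = c
  constructor
  · rintro ⟨a, a1, n, n1, n2, a2, n3⟩
    rw [← KL.ev_suc ag _ le_rfl, ev_ltr_leaf] at a2
    refine ⟨a, a2, (stage hs.toStrong hk a2 hp (n1.mono τr) (fun w hw => ?_) _ w1).1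
      ((key n _ n1 hq.snd).1 n3)⟩
    rw [nτ n w n1, n2 w hw, m4 c a _ (KE.le1 a1) (by simp [hp, hw.mono kB])]
    exact and_iff_right a2
  · rintro ⟨a, a2, h2⟩
    obtain ⟨n, n1, n2⟩ := AccSt.acc ES1 _ _ τ _ nx.2.2.2 (Named.mono'
      ((RD.conv I.snd (I.fst.fst.pair I.snd)).named l1 c hk hp (y := leaf a) (by simpa using a2))
      (hr.trans le_self_add))
    simp only [fst_node, snd_node, leaf.injEq, exists_eq_left'] at n2
    refine ⟨a, KE.lt1 (a2.le.trans hr), n, n1, fun w hw => ?_, ?_, (key n _ n1 hq.snd).2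
      ((stage hs.toStrong hk a2 hp (n1.mono τr) n2 _ w1).2 h2)⟩
    · rw [← nτ n w n1, m4 c a _ (a2.le.trans hr) (by simp [hp, hw.mono kB])]
      exact (n2 w hw).trans (and_iff_right a2).symm
    · rwa [← KL.ev_suc ag _ le_rfl, ev_ltr_leaf]

/-- The lift is generated by the two parameters. -/
theorem gen (hs : Strong ES1 (j1 b + 1) ES (j (i b) + 1) s) (s1 : ∀ x ≤ b, s (j1 x) = j (i x))
    (s2 : ∀ z < j k, s z = z) (g1 : Gen ES1 (j1 b + 1) (j k) p1) (g0 : Gen EP (g + 1) m p)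
    (hp : In g p) {q : Tr.{u}} (hq : In (j (i b) + 1) q) (q0 : (p.map j).lv ⊆ q.lv)
    (q1 : (p1.map s).lv ⊆ q.lv) : Gen ES (j (i b) + 1) (j m) q := by
  have mg := (C.ml.trans C.lg).le
  have jg : ∀ x ≤ g, j x ≤ j (i b) + 1 := fun x hx => (C.V.maps x (hx.trans_lt C.g1)).le
  have hm := jg m mg
  have par : ∀ a ∈ q.lv, Hl ES (j (i b) + 1) (j m) q (leaf a) := fun a => (Hl.par hq).lab
  have km := C.jle (C.kt.le.trans C.tm) mg
  have h1 : ∀ x ≤ b, Hl ES (j (i b) + 1) (j m) q (leaf (j (i x))) := fun x hx => by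
    obtain ⟨c, v, h2, h3⟩ := g1 (leaf (j1 x)) (by simpa using C.V1.maps x (KE.lt1 hx))
    have h4 := hs.commTop c _ (in_of_ev_eq h3)
    rw [h3, map_node, map_fix s2 h2, Option.map_some, map_leaf, s1 x hx] at h4
    exact ((Hl.base hm hq (h2.mono km)).pair (hl_tree hm hq fun a ha => par a (q1 ha))).app h4
  have h2 : ∀ x < m, Hl ES (j (i b) + 1) (j m) q (leaf (j x)) := fun x hx =>
    Hl.base hm hq (by simpa using C.jlt hx mg)
  have up : ∀ x : Tr.{u}, x.lv ⊆ {y | Hl ES (j (i b) + 1) (j m) q (leaf (j y))} →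
      Hl ES (j (i b) + 1) (j m) q (x.map j) := fun x hx => hl_tree hm hq fun a ha => by
    rw [lv_map] at ha
    obtain ⟨y, hy, rfl⟩ := ha
    exact hx hy
  have dn : ∀ x : Tr.{u}, Hl ES (j (i b) + 1) (j m) q (x.map j) →
      x.lv ⊆ {y | Hl ES (j (i b) + 1) (j m) q (leaf (j y))} := fun x hx y hy =>
    hx.lab (lv_map j x ▸ mem_image_of_mem j hy)
  have clo : Clo EP g {y | Hl ES (j (i b) + 1) (j m) q (leaf (j y))} := fun a a1 a2 c x w hx hw => by
    rw [← KN.ev_agree C.a2 a2] at hw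
    have h3 := C.V.comm a (a2.trans C.g1) c x (in_of_ev_eq hw)
    rw [hw, ← ev_erase, ← ev_callc (C.V.maps a (a2.trans C.g1)) _ (in_erase _ c)] at h3
    exact dn w ((Hl.pair a1 ((Hl.base hm hq (in_erase _ c)).pair (up x hx))).app h3)
  have h3 : ∀ x < g, Hl ES (j (i b) + 1) (j m) q (leaf (j x)) := fun x hx => by
    obtain ⟨c, v, h4, h5⟩ := g0 (leaf x) (by simpa using hx.le)
    have := act_clo C.pm.ls C.act clo (fun y hy => h2 y (lt_of_lt_of_le hy C.tm))
      (fun y hy => C.ih y hy ▸ h1 y (hy.le.trans C.tb)) ((in_node _ _ _).2 ⟨h4.mono mg, hp⟩)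
      (union_subset (fun y hy => h2 y (h4 y hy)) fun y hy =>
        par _ (q0 (lv_map j p ▸ mem_image_of_mem j hy))) h5 (mem_singleton x)
    exact this.resolve_left hx.ne
  intro x hx
  obtain ⟨c, z, a, z1, a1, e1⟩ := ult_tree C.V hx
  obtain ⟨c', z', a', z2, a2, e2⟩ := ult_tree C.U z1
  have e3 := C.V.commTop c' _ (in_of_ev_eq e2)
  rw [e2] at e3
  refine ((Hl.base hm hq a1).pair ((up _ (union_subset (fun y hy => h3 y ((a2 y hy).trans
    (C.ik ▸ C.lg))) fun y hy => ?_)).app e3)).app e1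
  rw [lv_map] at hy
  obtain ⟨y, hy, rfl⟩ := hy
  exact h1 y (KE.le1 (z2 y hy))

/-- The lift of the unfolding is sound above the image of `m`. -/
theorem snd (h0 : KS EP (g + 1) m p) (h1 : KS ES1 (j1 b + 1) (j k) p1)
    (ag : Agree ES1 ES (j1 b + 1)) (lt : j1 b < j t) : ∃ q, KS ES (j (i b) + 1) (j m) q := by
  obtain ⟨s, hs, s1, s2⟩ := C.star
  have kb := C.kt.le.trans C.tb
  have mg := (C.ml.trans C.lg).le
  have pl : In (H k) p := fun a ha => by
    by_contra hn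
    obtain ⟨r, r1, r2⟩ := F3.solid_tail h0.solid ha
    exact F3.diag (F3.gen_change (ActF.gen C.pm.ls C.act) (not_lt.1 hn) (h0.mem a ha).le
      (h0.mem.of_subset (r1 ▸ sep_subset _ _)) (by simp)) r2
  have r1 := KE.w_in hs.toWeak h1.mem
  have r2 : ∀ a ∈ (p1.map s).lv, j (H k) ≤ a := fun a ha => by
    rw [lv_map] at ha
    obtain ⟨y, hy, rfl⟩ := ha
    rw [← C.ik, ← s1 k kb]
    exact (KE.w_le hs.toWeak (C.V1.maps k (KE.lt1 kb)) (h1.mem y hy)).2 (C.jj k C.kt ▸ h1.ge y hy)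
  have jp : ∀ {x : Tr.{u}}, In (H k) x → In (j (i b) + 1) (x.map j) := fun hx =>
    KE.w_in C.V.toWeak (hx.mono (C.lg.trans C.g1).le)
  have sol : ∀ x : Tr.{u}, In (H k) x → (∀ a ∈ x.lv, m ≤ a) → Solid EP (g + 1) x →
      Solid ES (j (i b) + 1) (app (x.map j) (p1.map s)) := fun x => by
    induction x with
    | nil => exact fun _ _ _ => solid_map C.V1.pm'.ls C.V.pm'.ls hs h1.mem h1.solid
    | leaf a => exact fun _ _ h => h.elim
    | node l r _ ih =>
      rintro x1 x2 ⟨γ, rfl, x3, x4, x5⟩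
      have γ1 : γ < H k := by simpa using x1.fst
      refine ⟨j γ, rfl, fun a ha => ?_, ?_, ih x1.snd (fun a ha => x2 a (Or.inr ha)) x5⟩
      · rw [lv_app x5] at ha
        rcases ha with ha | ha
        · rw [lv_map] at ha
          obtain ⟨y, hy, rfl⟩ := ha
          exact C.jlt (x3 y hy) ((x1.snd y hy).trans C.lg).le
        · exact (C.jlt γ1 C.lg.le).trans_le (r2 a ha)
      · exact PT.th_lv (C.wit hs s1 s2 ag lt h1.mem (C.tm.trans (x2 γ (Or.inl rfl))) γ1 x1.snd x4)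
          le_rfl (C.V.maps γ ((γ1.trans C.lg).trans C.g1)) ((in_node _ _ _).2 ⟨jp x1.snd, r1⟩)
          fun a ha => Or.inr ((lv_app x5 j _).le ha)
  have lv := lv_app h0.solid j (p1.map s)
  have q1 : In (j (i b) + 1) (app (p.map j) (p1.map s)) := fun a ha =>
    (lv ▸ ha).elim (jp pl a) (r1 a)
  refine ⟨_, q1, fun a ha => (lv ▸ ha).elim (fun ha => ?_) fun ha =>
    (C.jlt C.ml C.lg.le).le.trans (r2 a ha), sol p pl h0.ge h0.solid,
    C.gen hs.toStrong s1 s2 h1.gen h0.gen (pl.mono C.lg.le) q1 (lv ▸ subset_union_left)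
      (lv ▸ subset_union_right)⟩
  rw [lv_map] at ha
  obtain ⟨y, hy, rfl⟩ := ha
  exact C.jle (h0.ge y hy) ((pl y hy).trans C.lg).le

end Cx

end Pool.Agent.KM.Snd
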