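import Pool.Agent.Lib.MP_5c0be7_lc.F.ActI
import Pool.Agent.Lib.MP_5c0be7_lc.O.F3c
import Pool.Agent.Lib.MP_5c0be7_lc.O.FO3
import Pool.Agent.Lib.MP_5c0be7_lc.C.Easy

/-!
Project KM, block T3: the graph of an extender map on one level; sets closed under an extender
are closed under the level above the extender.
-/

namespace Pool.Agent.KM.Snd

open Ordinal Tr Set

universe u

variable {E E0 : Seq.{u}} {g k t a a' L : Ordinal.{u}} {H s : Ordinal.{u} → Ordinal.{u}}
  {p q x w z : Tr.{u}} {Z : Set Ordinal.{u}}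

/-- The data of two levels with parameters. -/
def gz (k a : Ordinal.{u}) (p : Tr.{u}) (a' : Ordinal.{u}) (p' : Tr.{u}) : Tr.{u} :=
  node (leaf k) (node (node (leaf a) p) (node (leaf a') p'))

/-- The two components of `q` are the values of one term at two levels. -/
def Gr (E : Seq.{u}) (z q : Tr.{u}) : Prop :=
  ∃ w, In z.fst.lab w ∧
    ev E z.snd.fst.fst.lab w.fst (node w.snd z.snd.fst.snd) = some q.fst ∧
    ev E z.snd.snd.fst.lab w.fst (node w.snd z.snd.snd.snd) = some q.snd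

theorem df_gr : Df.{u} fun E _ w => Gr E w.snd w.fst := by
  unfold Gr
  repeat' first
    | exact Fn.id | exact IsOp.id | apply IsOp.fst | apply IsOp.snd | apply On.lab
    | apply Df.ev_eq | apply Df.bex | apply Df.and | apply Fn.pair | apply Fn.fst | apply Fn.snd

theorem gz_map (s : Ordinal.{u} → Ordinal.{u}) (p' : Tr.{u}) :
    (gz k a p a' p').map s = gz (s k) (s a) (p.map s) (s a') (p'.map s) := rfl

theorem gr_iff (h : Comm E0 a E a' s) (e : ev E0 a = ev E a) (hf : ∀ y < k, s y = y)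
    (hg : Gen E a k p) : Gr E (gz k a p a' (p.map s)) q ↔ In a q.fst ∧ q.snd = q.fst.map s := by
  have key : ∀ c v r, In k v → ev E a c (node v p) = some r →
      ev E a' c (node v (p.map s)) = some (r.map s) := fun c v r hv h1 => by
    have := h c _ (in_of_ev_eq h1)
    rwa [e, h1, map_node, CU.map_fix hf hv] at this
  simp only [Gr, gz, fst_node, snd_node, lab_leaf]
  constructor
  · rintro ⟨w, h1, h2, h3⟩
    exact ⟨ev_in h2, Option.some.inj (h3.symm.trans (key _ _ _ h1.snd h2))⟩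
  · rintro ⟨h1, h2⟩
    obtain ⟨c, v, h3, h4⟩ := hg _ h1
    exact ⟨node c.erase v, by simpa using h3, by simpa using h4,
      by simpa [h2] using key c v _ h3 h4⟩

/-- `Z` is closed under the levels below `g` that belong to it. -/
def Clo (E : Seq.{u}) (g : Ordinal.{u}) (Z : Set Ordinal.{u}) : Prop :=
  ∀ a ∈ Z, a < g → ∀ c x w : Tr.{u}, x.lv ⊆ Z → ev E a c x = some w → w.lv ⊆ Z

theorem Clo.fn (h : Clo E g Z) {f : TF.{u}} (hf : Fn f) (l : LS E g)
    (hL : ∀ n : ℕ, L + n ∈ Z ∧ L + n < g) (hz : In L z) (hZ : z.lv ⊆ Z) : (f E L z).lv ⊆ Z := by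
  obtain ⟨n, ⟨c, -, h1⟩, -⟩ := hf
  refine h _ (hL n).1 (hL n).2 c z _ hZ ?_
  rw [h1 E L z (l.mono (hL n).2.le), if_pos hz]

theorem par_lim (l : Lev E g) (hg : ¬ Suc g) : par E g = node .nil .nil := by
  have : pp E g = .nil := DiagSt.ss_unique E g _ _ (ss_pp l.1) ⟨by simp, by simp, trivial,
    fun t ht => ⟨opc .fst, t, ht.mono (l.2 hg).ge, ev_opc _ (by simpa using ht)⟩⟩
  show node (pp E g) (witL _ _ (pp E g)) = _
  rw [this]; rfl

/-- A set that is closed under an extender and under the levels below its index is closed under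
the level above the index. -/
theorem act_clo (l : LS E (g + 1)) (A : Act E g k t H) (h : Clo E g Z) (h1 : Iio t ⊆ Z)
    (h2 : ∀ y < t, H y ∈ Z) {c : Tr.{u}} (hx : In g x) (hZ : x.lv ⊆ Z)
    (hw : ev E (g + 1) c x = some w) : w.lv ⊆ insert g Z := by
  have l' := l.mono (lt_add_one g).le
  have hg := ActF.lim A
  have lim := limit_of_not_suc hg (A.dom.trans_le' zero_le).ne'
  have hx1 := hx.mono (lt_add_one g).le
  rw [ev_succ hx1] at hw
  obtain ⟨y, w0, y1, y2, rfl⟩ := sev_some.1 hw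
  rw [(l g (lt_add_one g)).2 hg] at y1
  have X1 := in_dn E hx1
  have X2 : (dn E g x).lv ⊆ Z := by
    rw [dn_eq, par_lim (l g (lt_add_one g)) hg]
    simpa using (lv_enc_subset _ _).trans hZ
  generalize hX : dn E g x = X at y2 X1 X2
  obtain ⟨a, a1, a2, a3, a4, -⟩ := ActF.cof2 l' A (max_lt (y1.1.1.ht_lt lim) (X1.ht_lt lim))
  have iy : In (H a) y := (in_ht y).mono ((le_max_left _ _).trans a3.le)
  have iX : In (H a) X := (in_ht X).mono ((le_max_right _ _).trans a3.le)
  have hN : ∀ n : ℕ, H a + n ∈ Z ∧ H a + n < g := fun n => by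
    have h3 := add_nat_lt (ActF.lim_dom l' A) a1 n
    rw [← A.weak.add_nat n h3]
    exact ⟨h2 _ h3, A.weak.maps _ h3⟩
  have hN' : ∀ m n : ℕ, H a + m + n ∈ Z ∧ H a + m + n < g := fun m n => by
    rw [add_assoc, ← Nat.cast_add]; exact hN _
  have aH : a ≤ H a := KE.w_self A.weak a1
  have p1 := in_pp E a
  have p2 : In (H a) ((pp E a).map H) := (A.weak.in_map a1 (p1.mono a1.le)).2 p1
  have p3 : ((pp E a).map H).lv ⊆ Z := by
    rw [lv_map]; rintro _ ⟨y, hy, rfl⟩; exact h2 y ((p1 y hy).trans a1)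
  have gen : Gen E a k (pp E a) := fun t ht =>
    let ⟨c, v, h3, h4⟩ := (ss_pp (l' a (a1.trans A.dom)).1).2.2.2 t ht; ⟨c, v, h3.mono a4, h4⟩
  obtain ⟨m, c1, c2, c3⟩ := df_gr.{u}.name
  set z := gz k a (pp E a) (H a) ((pp E a).map H) with hz
  have H1 := lt_add_one (H a)
  have z1 : In (H a + 1) z := by
    simp [hz, gz, (a2.trans_le aH).trans H1, aH.trans_lt H1, p2.mono H1.le,
      p1.mono (aH.trans H1.le)]
  have z2 : z.lv ⊆ Z := by
    have := (hN 0).1
    simp only [hz, gz, lv_node, lv_leaf, union_subset_iff, singleton_subset_iff]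
    exact ⟨h1 A.lt, ⟨h1 a1, fun y hy => h1 ((p1 y hy).trans a1)⟩, by simpa using this, p3⟩
  set n := node (leaf (H a + 1 + m)) (node c1 z) with hn
  have e1 : H a + 1 + m = H a + (1 + m : ℕ) := by rw [Nat.cast_add, Nat.cast_one, add_assoc]
  have e2 : H a + 1 + m + 1 = H a + (1 + m + 1 : ℕ) := by rw [add_succ_cast, e1]
  have e3 : H a + 1 + m + 1 + 1 = H a + (1 + m + 1 + 1 : ℕ) := by rw [add_succ_cast, e2]
  generalize hG : H a + 1 + m + 1 = G at e2 e3
  have G0 : H a + 1 + m < G := hG ▸ lt_add_one _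
  have G1 : H a + 1 ≤ G := le_self_add.trans G0.le
  have G2 : H a ≤ G := H1.le.trans G1
  have G3 := lt_add_one G
  have n1 : In G n := by simp [hn, G0, in_of_lf c2, z1.mono G1]
  have n2 : n.lv ⊆ Z := by
    simp only [hn, lv_node, lv_leaf, union_subset_iff, singleton_subset_iff, erase_eq_self.1 c2]
    exact ⟨e1 ▸ (hN _).1, empty_subset _, z2⟩
  have n3 : ∀ q, In (H a) q → (Nm E n q ↔ ora E g q) := fun q hq => by
    rw [hn, c3 E _ z q (l'.mono (e1 ▸ (hN _).2.le))]
    simp only [fst_node, snd_node, in_node, hq.mono H1.le, z1, true_and]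
    rw [hz, gr_iff (A.weak.comm a a1) rfl A.fix gen]
    simp only [ora, hg, not_false_eq_true, true_and, ActF.rel_iff A]
    exact and_congr_left fun e => ⟨fun i => i.mono a1.le,
      fun i => (A.weak.in_map a1 i).1 (e ▸ hq.snd)⟩
  have tr : ∀ c x, In (H a) x → ev E G (bop .tr c) (node n x) = ev E g c x := fun c x i => by
    rw [← ev_decC_code g c]
    exact F3.tr_spec' hg G2 (A.weak.maps a a1).le n1 n3 (decC c) i
  have I := IsOp.id.{u}
  have hO : Df.{u} fun E _ w => (ev E w.snd.fst.lab (bop .tr w.fst.fst)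
      (node w.snd.snd.fst (node w.fst.snd w.snd.snd.snd))).isSome = true :=
    Df.ev_some (On.lab I.snd.fst) (Fn.id.fst.fst.bop .tr)
      (Fn.id.snd.snd.fst.pair (Fn.id.fst.snd.pair Fn.id.snd.snd.snd))
  have hF := ((Df.in_ (On.lab I.snd.fst) Fn.id.fst).and (Df.eq ((Fn.drun (body c) hO).pre
    (I.fst.pair I.snd.snd)) Fn.nil).not).least
  have hb : ∀ y, In (H a) y → drun (body c) (fun q => (ev E G (bop .tr q.fst)
      (node n (node q.snd X))).isSome = true) y = bod E g (body c) x y := fun y i => by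
    rw [bod_eq, hX]
    exact drun_congr _ i fun q hq => by rw [tr _ _ (by simp [hq.snd, iX])]; rfl
  have h3 := h.fn hF l' (L := G + 1) (z := node (leaf (H a)) (node (leaf G) (node n X)))
    (fun j => e3 ▸ hN' _ j) (by simp [G2.trans_lt G3, n1.mono G3.le, iX.mono (G2.trans G3.le)])
    (by
      simp only [lv_node, lv_leaf, union_subset_iff, singleton_subset_iff]
      exact ⟨by simpa using (hN 0).1, e2 ▸ (hN _).1, n2, X2⟩)
  simp only [fst_node, snd_node, lab_leaf] at h3
  have h0 : Tr.IsLeast (fun t => In (G + 1) t ∧ In (H a) t ∧ ¬ drun (body c) (fun q =>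
      (ev E G (bop .tr q.fst) (node n (node q.snd X))).isSome = true) t = .nil) y :=
    ⟨⟨iy.mono (G2.trans G3.le), iy, by rw [hb y iy]; exact y1.1.2⟩,
      fun s k1 k2 => y1.2 s k1 ⟨k1.in y1.1.1, hb s k2.2.1 ▸ k2.2.2⟩⟩
  rw [least_eq_some.2 h0] at h3
  have h4 : y.lv ⊆ Z := by simpa [opt] using h3
  have h5 : (bod E g (body c) x y).lv ⊆ y.lv := lv_drun _ _ _
  rw [← tr _ _ ((in_node _ _ _).2 ⟨(iy.of_subset h5).snd, iX⟩)] at y2
  have h6 := h G (e2 ▸ (hN _).1) (e2 ▸ (hN _).2) _ _ _ (by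
    simp only [lv_node, union_subset_iff]
    exact ⟨n2, (lv_snd _).trans (h5.trans h4), X2⟩) y2
  exact (lv_dec _ _).trans (insert_subset_insert h6)

end Pool.Agent.KM.Snd
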