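import Pool.Agent.Lib.MP_5c0be7_lc.T.Snd1
import Pool.Agent.Lib.MP_5c0be7_lc.T.GoodTh
import Pool.Agent.Lib.MP_5c0be7_lc.T.Cts
import Pool.Agent.Lib.MP_5c0be7_lc.C.Pres
import Pool.Agent.Lib.MP_5c0be7_lc.C.DefAct
import Pool.Agent.Lib.MP_5c0be7_lc.L.Real
import Pool.Agent.Lib.MP_5c0be7_lc.L.Agree

/-!
Project KM, block T3: the map between the lift of a premouse and the lift of its ultrapower by a
foreign extender; the lifted measures.
-/

namespace Pool.Agent.KM.Snd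

open Ordinal Tr Set CU

universe u

variable {EP E1 EQ ES1 ES : Seq.{u}} {g k t m b γ : Ordinal.{u}}
  {H i j j1 s : Ordinal.{u} → Ordinal.{u}} {p p1 s0 : Tr.{u}}

/-- `EQ` is the ultrapower of `E1` by the top extender of `EP`; `ES` and `ES1` are lifts of `EQ`
and `E1` by maps that agree on the domain of the extender. -/
structure Cx (EP E1 EQ ES1 ES : Seq.{u}) (g k t m b : Ordinal.{u})
    (H i j j1 : Ordinal.{u} → Ordinal.{u}) : Prop where
  pm : PM0 EP (g + 1)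
  act : Act EP g k t H
  tm : t ≤ m
  ml : m < H k
  U : IsUlt E1 b k EQ i
  tb : t ≤ b
  np : NoProj E1 k t (b + 1)
  ih : ∀ x < t, i x = H x
  it : i t = g
  a1 : Agree E1 EP t
  a2 : Agree EQ EP g
  V : IsUlt EQ (i b) m ES j
  V1 : IsUlt E1 b k ES1 j1
  jj : ∀ x < t, j1 x = j x
  ag : Agree ES1 ES (j1 t)

theorem strong_par {E E' : Seq.{u}} {b b' : Ordinal.{u}} (h : Strong E (b + 1) E' (b' + 1) s) :
    par E' b' = (par E b).map s := by
  have := h.commTop parc .nil (by simp)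
  rw [map_nil, ev_parc (by simp), ev_parc (by simp)] at this
  exact Option.some.inj this

namespace Cx

variable (C : Cx EP E1 EQ ES1 ES g k t m b H i j j1)
include C

theorem kt : k < t := C.act.lt
theorem t1 : t < b + 1 := KE.lt1 C.tb
theorem ik : i k = H k := C.ih k C.kt
theorem lg : H k < g := C.act.weak.maps k C.kt
theorem gb : g ≤ i b := C.it ▸ (KE.w_le C.U.toWeak C.t1 (lt_add_one b)).2 C.tb
theorem g1 : g < i b + 1 := KE.lt1 C.gb
theorem fix : ∀ x < k, i x = x := fun x hx => (C.ih x (hx.trans C.kt)).trans (C.act.fix x hx)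
theorem ag1 : Agree E1 EQ t := KL.ag_trans C.a1 (KL.ag_symm (KL.ag_mono C.a2 C.act.dom.le))
theorem jlt {x y} (h : x < y) (hy : y ≤ g) : j x < j y :=
  C.V.mono (h.trans (hy.trans_lt C.g1)) (hy.trans_lt C.g1) h
theorem jle {x y} (h : x ≤ y) (hy : y ≤ g) : j x ≤ j y :=
  h.lt_or_eq.elim (fun h => (C.jlt h hy).le) fun e => e ▸ le_rfl
theorem jin {y} {x : Tr.{u}} (h : In y x) (hy : y ≤ g) : In (j y) (x.map j) :=
  KE.in_map fun z hz => C.jlt (h z hz) hy
theorem next : IsNext E1 (b + 1) k t :=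
  ⟨C.kt, C.t1.le, KL.topC_ag (KL.ag_symm C.a1) C.act.top, C.np⟩

theorem cts : Cts j1 t := UltFactSt.cts C.V1 C.tb fun f hf =>
  let ⟨a, h1, h2⟩ := RegSt.reg E1 _ k t f C.U.pm.ls C.next C.t1 hf
  ⟨a, h1, fun w y hw e hy => by simpa using h2 w _ hw e (by simpa using hy)⟩

/-- The map between the lifts. -/
theorem star : ∃ s, Cof ES1 (j1 b) ES (j (i b)) s ∧ (∀ x ≤ b, s (j1 x) = j (i x)) ∧
    ∀ z < j k, s z = z := by
  have st := KE.strong_comp C.U.toStrong C.V.toStrong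
  have gd : Good E1 b ES (j ∘ i) := KGoodSt.strong_good C.U.pm C.V.pm' st
  have gj := KGoodSt.strong_good C.V.pm C.V.pm' C.V.toStrong
  have e := C.jj k C.kt
  have h1 : ∀ z < j1 k, id z < (j ∘ i) k := fun z hz =>
    (e ▸ hz).trans (C.jlt (C.ik ▸ C.act.move) (C.ik ▸ C.lg.le))
  obtain ⟨s, s1, s2, s3⟩ := RealSt.real C.V1 gd C.V.pm' h1 (RealSt.thread C.V1 gd C.tb C.np h1
    fun n a hn ha => by
      have n1 := hn.mono C.t1.le
      have n2 := hn.mono (C.act.dom.le.trans C.g1.le)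
      have n3 := KE.w_in C.U.toWeak n1
      have hk : k < rho EQ (i b) := (C.kt.trans_le C.tm).trans C.V.lt
      have h2 : ∀ v, In k v → (Nm EQ n v ↔ Nm EQ (n.map i) v) := fun v hv => by
        rw [← KN.anm C.ag1 hn, ← KN.wnm C.U.toWeak n1 (hv.mono (C.kt.trans C.t1).le),
          map_fix C.fix hv]
      rw [KN.anm C.ag ((KE.w_in_iff C.V1.toWeak n1 C.t1).2 hn), KN.map_eq C.jj hn, KE.map_comp,
        show a.map id = a from map_id' a]
      exact ⟨gj.inc k hk _ _ n2 n3 (fun v hv => (h2 v hv).1) a (e ▸ ha),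
        gj.inc k hk _ _ n3 n2 (fun v hv => (h2 v hv).2) a (e ▸ ha)⟩)
  have top : s (j1 b) = j (i b) := s2 b le_rfl
  have cf : ∀ y < rho ES (j (i b)), ∃ x < rho ES1 (j1 b), y ≤ s x := fun y hy => by
    obtain ⟨x, h2, h3⟩ := (cof_comp (UltFactSt.cof C.U) (UltFactSt.cof C.V)).cof y hy
    have h4 := h2.le.trans (rho_le _ _)
    exact ⟨j1 x, (lt_rho_map C.V1.toStrong h4).2 h2, (s2 x h4).symm ▸ h3⟩
  have := good_strong s1 C.V1.pm'.ls (top ▸ C.V.pm'.ls) (by
    rw [top, strong_par st, strong_par C.V1.toStrong, map_map]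
    exact map_congr fun a ha => (s2 a (in_par E1 b a ha).le).symm) (top ▸ cf)
  exact ⟨s, ⟨top ▸ this, cf⟩, s2, fun z hz => s3 z (e ▸ hz)⟩

/-- The measures of the extender for a parameter with a named theory. -/
theorem psi (hγ : γ < g) (hs0 : In g s0) (hN : Named EP (g + 1) γ (Th EP (g + 1) s0)) :
    ∃ n0, In g n0 ∧ ∀ w, In γ w →
      (Nm EP n0 w ↔ In t w.fst ∧ Nm EP (w.fst.map H) (node w.snd s0)) := by
  have I := IsOp.id.{u}
  obtain ⟨m0, -, hm⟩ := ((DefAct.rd_ora.sub (I.snd.fst.fst.pair I.fst)).and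
    (RD.nm I.fst (I.snd.fst.snd.pair I.snd.snd))).ex
  have hr : rho EP g = g := (C.pm.ls g (lt_add_one g)).2 (ActF.lim C.act)
  have := AccSt.room EP g γ _ (C.pm.ls.mono le_self_add) (hr.symm ▸ hγ)
    (F3.named_of_th (c := m0 .nil) (A := fun w => In t w.fst ∧
      Nm EP (w.fst.map H) (node w.snd s0)) hN fun w hw => by
      have w1 := hw.mono hγ.le
      rw [hm .nil EP g _ ((in_node _ _ _).2 ⟨w1.mono le_self_add, hs0.mono le_self_add⟩)]
      simp only [fst_node, snd_node, hr]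
      constructor
      · rintro ⟨y, h1, h2, -, h3⟩
        rw [enc_eq_nil ((in_node _ _ _).2 ⟨w1.fst, h1⟩), dec_enc, ActF.ora_iff C.act] at h2
        exact ⟨h2.1, h2.2 ▸ h3⟩
      · rintro ⟨h1, h2⟩
        have h3 := KE.w_in C.act.weak h1
        refine ⟨_, h3, ?_, h3.fst, h2⟩
        rw [enc_eq_nil ((in_node _ _ _).2 ⟨w1.fst, h3⟩), dec_enc, ActF.ora_iff C.act]
        exact ⟨h1, rfl⟩)
  rwa [hr] at this

/-- The lifted measures are the measures of the map between the lifts. -/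
theorem lifted (hs : Weak ES1 (j1 b + 1) ES (j (i b) + 1) s) (s1 : ∀ x ≤ b, s (j1 x) = j (i x))
    (s2 : ∀ z < j k, s z = z) (tγ : t ≤ γ) (hγ : γ < g) (hs0 : In g s0) {n0 : Tr.{u}}
    (h0 : In g n0) (h1 : ∀ w, In γ w →
      (Nm EP n0 w ↔ In t w.fst ∧ Nm EP (w.fst.map H) (node w.snd s0))) {n v : Tr.{u}}
    (hn : In (j1 t) n) (hv : In (j γ) v) :
    Nm ES (n0.map j) (node n v) ↔ Nm ES (n.map s) (node v (s0.map j)) := by
  have lP := C.pm.ls.mono (lt_add_one g).le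
  have hg := ActF.lim C.act
  have lim := limit_of_not_suc hg (C.act.dom.trans_le' zero_le).ne'
  obtain ⟨x, x1, x2⟩ : ∃ x < t, In (j1 x) n := by
    rcases ht_cases n with ⟨e, -⟩ | ⟨z, h2, h3⟩
    · exact ⟨k, C.kt, in_of_lv e _⟩
    · obtain ⟨x, h4, h5⟩ := C.cts z (hn z h2)
      exact ⟨x, h4, ht_le_iff.1 (h3 ▸ Order.add_one_le_iff.2 h5)⟩
  obtain ⟨a, a0, a1, a2⟩ := C.next.2.2.1 (max x k) (max_lt x1 C.kt)
  have ab := a1.le.trans C.tb
  have a3 := KE.lt1 ab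
  have ag := a1.trans C.act.dom
  have ia : i a < g := C.it ▸ C.U.mono a3 C.t1 a1
  have ai : a ≤ i a := KE.w_self C.U.toWeak a3
  have ja := C.jj a a1
  have na : In (j a) n :=
    x2.mono (ja ▸ (KE.w_le C.V1.toWeak (x1.trans C.t1) a3).2 ((le_max_left _ _).trans a0))
  have p1 := in_pp E1 a
  have p2 : In (i a) ((pp E1 a).map i) := (KE.w_in_iff C.U.toWeak (p1.mono a3.le) a3).2 p1
  have e1 : ev E1 a = ev EQ a := KN.ev_agree C.ag1 a1
  have gen : Gen EQ a k (pp E1 a) := fun t ht =>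
    let ⟨c, v, h3, h4⟩ := (ss_pp (C.U.pm.ls a a3).1).2.2.2 t ht; ⟨c, v, h3.mono a2, e1 ▸ h4⟩
  generalize pp E1 a = p at p1 p2 gen
  have I := IsOp.id.{u}
  have hD : Df.{u} fun E B z => Gen E z.fst.snd.fst.fst.lab z.fst.fst.lab z.fst.snd.fst.snd ∧
      ∀ q, In B q → Gr E z.fst q → ∀ v, In z.snd.fst.lab v →
        (Nm E z.snd.snd.fst (node q.fst v) ↔ Nm E q.snd (node v z.snd.snd.snd)) :=
    (Df.gen (On.lab I.fst.snd.fst.fst) (On.lab I.fst.fst) Fn.id.fst.snd.fst.snd).and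
      (Df.all' (P := fun E _ q z => Gr E z.fst q → ∀ v, In z.snd.fst.lab v →
        (Nm E z.snd.snd.fst (node q.fst v) ↔ Nm E q.snd (node v z.snd.snd.snd)))
        ((df_gr.pre (I.fst.pair I.snd.fst)).imp (Df.ball (P := fun E _ v w =>
          Nm E w.snd.snd.snd.fst (node w.fst.fst v) ↔ Nm E w.fst.snd (node v w.snd.snd.snd.snd))
          (On.lab I.snd.snd.fst)
          ((Df.nm Fn.id.snd.snd.snd.snd.fst (Fn.id.snd.fst.fst.pair Fn.id.fst)).iff
            (Df.nm Fn.id.snd.fst.snd (Fn.id.fst.pair Fn.id.snd.snd.snd.snd.snd))))))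
  have z1 : In g (node (gz k a p (i a) (p.map i)) (node (leaf γ) (node n0 s0))) := by
    simp [gz, C.kt.trans C.act.dom, ag, ia, hγ, h0, hs0, p1.mono ag.le, p2.mono ia.le]
  have hB := z1.ht_lt lim
  have z2 := in_ht (node (gz k a p (i a) (p.map i)) (node (leaf γ) (node n0 s0)))
  generalize ht _ = B at hB z2
  have iB : i a < B := by simpa [gz] using z2.fst.snd.snd.fst
  obtain ⟨d1, d2⟩ := (hD.weak_lim C.V.toWeak C.V.pm.ls C.V.pm'.ls hg hB C.g1.le z2).2
    ⟨gen, fun q _ hq v hv => by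
      simp only [fst_node, snd_node, lab_leaf] at hq hv ⊢
      obtain ⟨q1, q2⟩ := (gr_iff (C.U.comm a a3) e1 C.fix gen).1 hq
      have q3 := q1.mono a1.le
      rw [KN.anm C.a2 h0, h1 _ ((in_node _ _ _).2 ⟨q3.mono tγ, hv⟩), q2, KN.map_eq C.ih q3,
        KN.anm C.a2 (KE.w_in C.act.weak q3)]
      simp [q3]⟩
  simp only [map_node, map_leaf, gz_map, fst_node, snd_node, lab_leaf] at d1 d2
  have j1a : j1 a < j1 t := C.V1.mono a3 C.t1 a1
  have cm := hs.comm (j1 a) (C.V1.maps a a3)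
  have e2 := KN.ev_agree C.ag j1a
  have e3 : (p.map i).map j = (p.map j).map s := by
    rw [map_map, map_map]
    refine map_congr fun y hy => ?_
    have h2 := (p1 y hy).trans a1
    show j (i y) = s (j y)
    rw [← C.jj y h2, s1 y (h2.le.trans C.tb)]
  rw [s1 a ab, ja] at cm
  rw [ja] at e2
  have n1 : In (j (i a)) (n.map s) := by
    rw [← s1 a ab]
    exact (KE.w_in_iff hs ((ja ▸ na).mono (C.V1.maps a a3).le) (C.V1.maps a a3)).2 (ja ▸ na)
  have jB := (C.jlt iB hB.le).le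
  exact d2 (node n (n.map s)) ((in_node _ _ _).2 ⟨na.mono ((C.jle ai ia.le).trans jB), n1.mono jB⟩)
    (e3 ▸ (gr_iff cm e2 s2 d1).2 ⟨na, rfl⟩) v hv

end Cx

end Pool.Agent.KM.Snd
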