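import Pool.Agent.Lib.MP_5c0be7_lc.T.StCov
import Pool.Agent.Lib.MP_5c0be7_lc.T.PmKS
import Pool.Agent.Lib.MP_5c0be7_lc.T.Snd
import Pool.Agent.Lib.MP_5c0be7_lc.T.S5
import Pool.Agent.Lib.MP_5c0be7_lc.T.Tame
import Pool.Agent.Lib.MP_5c0be7_lc.F.ActI

/-!
Project KM, block T3: the lift of the unfolding is sound above the image of the cardinal.
-/

namespace Pool.Agent.KM

open Ordinal Tr Set KE KL IT

universe u

namespace SndI

variable [TreeSt.{u}] [BrSt.{u}] [CovBSt.{u}] [ChainSt.{u}]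

theorem snd {S : Cov.{u}} {m t b : Ordinal.{u}} {E F : Seq.{u}} {g} (h : S.Ok)
    (hu : S.Unf m t E b) (ib : S.IB m) (L : S.Lift m t E b F g) :
    (∃ q, KS F (g b + 1) (S.pi m) q) ∨ ∃ a, S.Pm m t a (S.T.b a) ∧ S.T.ND 0 a ∧ E = S.T.E a ∧
      b = S.T.b a := by
  have n0 := S5I.n_eq h.eqT
  obtain ⟨nx, -, tb, -, -, -⟩ := ChainSt.basic h hu
  have mt : m < t := nx.next.1
  have tr : ∀ {a c}, S.Pm m t a c → S.T.IsTr a := fun pm => h.coit.tr.mono (n0 ▸ zero_le) pm.le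
  have key : ∀ {a c}, S.Pm m t a c → _ := fun pm =>
    PmKS.lvl (tr pm) n0 (fun i hi => (pm.lo i hi).1) mt pm.lvl
  rw [← L.ext m mt]
  cases hu with
  | good _ pm _ =>
    exact (key pm).imp (fun ⟨_, hp⟩ => ⟨_, Snd.lift_ks hp L.ult⟩)
      fun ⟨e, hd⟩ => ⟨_, e ▸ pm, hd, rfl, e⟩
  | @bad _ _ a c m1 t1 b1 H j E1 _ _ pm act le disc prev ult ext top ag _ =>
    have p0 := (TreeSt.pm (tr pm) le_rfl).toPM0
    obtain ⟨p, hp⟩ := (key pm).resolve_right fun ⟨e, hd⟩ => by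
      have st := TreeSt.strong (tr pm) le_rfl hd
      have e1 := TB.top_eq st.toWeak
      refine act_not_pas act (e ▸ e1 ▸ TB.pas_up (TreeSt.pm (tr pm) zero_le).toPM0 (e1 ▸ p0)
        (e1 ▸ st) le_rfl ?_)
      rw [S5I.E_eq h.eqT, S5I.b_eq h.eqT]
      exact h.env.good.pas
    obtain ⟨nx1, -, tb1, np1, ag1, -⟩ := ChainSt.basic h prev
    have p1 := pm0_mono p0 (s_le (lt1 pm.lvl.st_le))
    have t1t : t1 < t := le.trans_lt mt
    have ml : m < H m1 := not_le.1 fun e => by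
      rcases pm.lvl.ta_le.lt_or_eq with h1 | rfl
      · obtain ⟨x, x1, x2, x3⟩ := ActSt.top (pm0_mono p1 (lt_add_one c).le).ls act t h1
        exact (pm.lvl.noproj x x1 (x2.trans (lt_add_one c))).not_ge (x3.trans e)
      · exact act_not_pas act fun x y => pm.ag t (lt_add_one t) ▸ (CovBSt.nx h nx).2.2.2.2.1 x y
    obtain ⟨-, g1, L1, l1, l2⟩ := ((ib m1 t1 nx1 (act.lt.trans_le le)).2 _ _ prev).resolve_left
      fun e => (CovBSt.cof h nx1 disc).2.ne' e.1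
    have l3 : g1 b1 + 1 < S.pi t1 := not_le.1 fun e =>
      ((CovBSt.nx h nx1).2.2.2.2.2.2.2.2.2.2.2 _ e (s1lt l1)).not_ge l2
    have e1 : g m1 = S.pi m1 := L.ext _ (act.lt.trans t1t)
    have e2 : g t1 = S.pi t1 := L.ext _ t1t
    have a1 : Agree S.W F (g1 b1 + 1) := ag_mono (ag_symm L.ag) (l3.le.trans (e2 ▸
      (w_le L.ult.toWeak (t1t.trans (lt1 tb)) (lt1 tb)).2 t1t.le))
    have l4 : g1 t1 ≤ g1 b1 := (w_le L1.ult.toWeak (lt1 tb1) (lt_add_one b1)).2 tb1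
    obtain ⟨q, hq⟩ := (h.env.good.pm.ls _ (s1lt l1)).1
    have l5 : S.pi m1 ≤ g1 b1 + 1 := L1.ext _ act.lt ▸
      (L1.ult.maps m1 (lt1 (act.lt.le.trans tb1))).le
    exact Or.inl (Snd.Cx.snd ⟨p1, act, le, ml, ult, tb1, np1, ext, top,
      ag_trans (ag_mono ag1 (lt_add_one t1).le) (ag_symm (ag_mono pm.ag (lt1 t1t.le).le)), ag, L.ult,
      L1.ult, fun x hx => (L1.ext x hx).trans (L.ext x (hx.trans t1t)).symm,
      ag_mono a1 (l4.trans le_self_add)⟩ hp (e1 ▸ CU.KS.of_ss hq l2 l5) a1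
      (e2 ▸ (lt_add_one _).trans l3))

end SndI

instance [TreeSt.{u}] [BrSt.{u}] [CovBSt.{u}] [ChainSt.{u}] :
    SndSt.{u} := ⟨SndI.snd⟩

end Pool.Agent.KM
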