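import Pool.Agent.Lib.MP_5c0be7_lc.T.St

/-!
Project KM, block T1: the reflection step of S3. Statement.
-/

namespace Pool.Agent.KM

open Ordinal Tr

universe u

/-- A member of the stack that collapses `th'` is approximated by images of levels of the
source. -/
class S3RefSt : Prop where
  ref : ∀ (P : Pa.{u}) {E E' F : Seq.{u}} {th th' r x y : Ordinal.{u}} {s}, Tall P E th →
    Tall P E' th' → Tame P E th E' th' s → Memb P F r → Agree F E' th' → th' ≤ r →
    NoProj F P.Om th' (r + 1) → x < P.Om → y < th →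
    ∃ (b : Ordinal.{u}) (k : Ordinal.{u} → Ordinal.{u}), P.Om ≤ b ∧ y ≤ b ∧ b < th ∧
      rho E (b + 1) ≤ P.Om ∧ Good E' (s b) F k ∧ k (s b) = r ∧ (∀ z ≤ P.Om, k z = z) ∧
      k (s y) = s y ∧ (pp E' (s b + 1)).map k = pp F (r + 1) ∧
      ∀ c v, In x v → ev F (r + 1) c (node v (pp F (r + 1))) =
        (ev E' (s b + 1) c (node v (pp E' (s b + 1)))).map (Tr.map k)

end Pool.Agent.KM
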