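import Pool.Agent.Lib.MP_5c0be7_lc.T.Cts
import Pool.Agent.Lib.MP_5c0be7_lc.T.Over
import Pool.Agent.Lib.MP_5c0be7_lc.F.CmpT

/-!
Project KM, block T3: truncation of the last root of a tree at a successor cardinal.
-/

set_option linter.unusedSectionVars false

namespace Pool.Agent.KM.Trunc

open Ordinal Tr IT Set
open scoped Classical

universe u

variable {T : IT.{u}} {E E' : Seq.{u}} {l i j a b b' c g g' h m p q v k t : Ordinal.{u}}
  {e s : Ordinal.{u} → Ordinal.{u}}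

theorem val_up (p : LS E (b + 1)) (p' : LS E' (b' + 1)) (h : Strong E (b + 1) E' (b' + 1) s)
    (ha : a ≤ b) (hk : k ≤ b) {f g : Tr.{u}} (hf : In (b + 1) f) (hg : In (b + 1) g)
    (H : ∀ w, In a w → In k w.fst → fv E f w.fst = some w.snd → fv E g w.fst = some w.snd)
    {w : Tr.{u}} (hw : In (s a) w) (hw' : In (s k) w.fst)
    (h1 : fv E' (f.map s) w.fst = some w.snd) : fv E' (g.map s) w.fst = some w.snd := by
  by_contra h2
  have I := IsOp.id.{u}
  have hv : ∀ {o : Tr.{u} → Tr.{u}}, IsOp o → CF fun E b z => tv (call (ev E) b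
      (node (o z).fst (node (o z).snd.fst (node z.fst.fst (o z).snd.snd))) =
        node .nil z.fst.snd) := fun ho =>
    (CF.op (ho.fst.pair (ho.snd.fst.pair (I.fst.fst.pair ho.snd.snd)))).call.eq
      (CF.op (IsOp.nil.pair I.fst.snd))
  have o1 := CF.op (I.snd.fst.fst.bd I.fst)
  have o2 := CF.op (I.snd.fst.snd.bd I.fst.fst)
  have hA := (o1.and o2).and ((hv I.snd.snd.fst).and (hv I.snd.snd.snd).not)
  have hx : In (b + 1) (node (node (leaf a) (leaf k)) (node f g)) := by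
    simp [hf, hg, lt_s ha, lt_s hk]
  obtain ⟨w, -, ⟨g0, g1⟩, g2, g3⟩ := hA.down h.commTop (p b (lt_add_one b)).1
    (p' _ (lt_add_one _)).1 hx (KE.w_in h.toWeak hx) (t' := w)
    (hw.mono (h.maps a (lt_s ha)).le) (by
      simp only [map_node, map_leaf, fst_node, snd_node]
      rw [LosPm.call_fv (KE.w_in h.toWeak hf), LosPm.call_fv (KE.w_in h.toWeak hg), opt_eq_node,
        opt_eq_node]
      exact ⟨⟨⟨_, rfl, hw⟩, _, rfl, hw'⟩, h1, h2⟩)
  simp only [fst_node, snd_node] at g0 g1 g2 g3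
  rw [LosPm.call_fv hf, opt_eq_node] at g2
  rw [LosPm.call_fv hg, opt_eq_node] at g3
  exact g3 (H w (by simpa using g0) (by simpa using g1) g2)

/-- An ultrapower cut at the image of a successor cardinal is an ultrapower. -/
theorem ult_cut (h : IsUlt E b k E' s) (hn : IsNext E (b + 1) g' g) (hg : g ≤ b) (hk : k < g)
    (hc : IsCard E (b + 1) k) : IsUlt E g k E' s := by
  rcases hg.eq_or_lt with rfl | hg'
  · exact h
  have k1 : k ≤ g' := not_lt.1 fun h1 =>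
    let ⟨a, a1, a2, a3⟩ := hn.2.2.1 k hk
    h1.not_ge ((hc a a1 (a2.trans_le hn.2.1)).trans a3)
  have m : s g < s b := h.mono (lt_s hg) (lt_add_one b) hg'
  refine ⟨KE.strong_restrict h.toStrong hg, KE.pm0_mono h.pm (by gcongr),
    KE.pm0_mono h.pm' (by gcongr), h.inf, k1.trans_lt (hn.2.2.2 g le_rfl (lt_s hg)),
    fun x y h1 h2 => h.inc x y (h1.mono (by gcongr)) (h2.mono (by gcongr)), fun y hy => ?_⟩
  obtain ⟨f, a, f1, a1, e1⟩ := h.gen y (hy.trans m)
  obtain ⟨f', f2, f3⟩ := RegSt.reg_fun E (b + 1) g' g f h.pm.ls hn (lt_s hg) f1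
  exact ⟨f', a, f2.mono (lt_add_one g).le, a1, val_up h.pm.ls h.pm'.ls h.toStrong hg
    (hk.le.trans hg) f1 (f2.mono (lt_s hg).le)
    (fun w w1 w2 w3 => (f3 _ _ (w2.mono k1)).2 ⟨w3, w1.snd⟩) (w := node a (leaf y))
    ((in_node _ _ _).2 ⟨a1.mono (h.mono (lt_s (hk.le.trans hg)) (lt_s hg) hk).le,
      (in_leaf _ _).2 hy⟩) a1 e1⟩

/-- The height of node `j` after the truncation. -/
noncomputable def tb (T : IT.{u}) (g j : Ordinal.{u}) : Ordinal.{u} :=
  if T.ND T.n j then T.mp T.n j g else T.b j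

/-- The truncated tree. -/
noncomputable def trunc (T : IT.{u}) (g : Ordinal.{u}) : IT.{u} :=
  ⟨T.n, fun x => { T.nd x with b := tb T g x, st := min (T.nd x).st (tb T g (T.nd x).pr) }⟩

theorem b_eq : (trunc T g).b j = tb T g j := rfl
theorem st_eq : (trunc T g).st j = min (T.st j) (tb T g (T.pr j)) := rfl
theorem tb_nd (h : T.ND T.n j) : tb T g j = T.mp T.n j g := if_pos h
theorem tb_not (h : ¬ T.ND T.n j) : tb T g j = T.b j := if_neg h

/-- The hypotheses of the truncation. -/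
structure Ok (T : IT.{u}) (l g' g : Ordinal.{u}) : Prop where
  tr : T.IsTr l
  nx : IsNext (T.E T.n) (T.b T.n + 1) g' g
  le : g ≤ T.b T.n
  la : ∀ i < T.n, T.la i ≤ g
  nu : ∀ j, T.n ≤ j → j < l → T.ND T.n j → T.nu j ≤ T.mp T.n j g

theorem Ok.mono (h : Ok T l g' g) (h1 : T.n ≤ j) (h2 : j ≤ l) : Ok T j g' g :=
  ⟨h.tr.mono h1 h2, h.nx, h.le, h.la, fun i i1 i2 => h.nu i i1 (i2.trans_le h2)⟩

variable [TreeSt.{u}] [CtsSt.{u}]

omit [CtsSt.{u}] in
theorem Ok.tb_le (h : Ok T l g' g) (hj : j ≤ l) : tb T g j ≤ T.b j := by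
  unfold tb; split_ifs with h1
  exacts [CmpT.mp_le h.tr hj h1 h.le, le_rfl]

theorem Ok.next (h : Ok T l g' g) (hj : j ≤ l) (hd : T.ND T.n j) :
    IsNext (T.E j) (T.b j + 1) (T.mp T.n j g') (tb T g j) :=
  tb_nd (g := g) hd ▸ (CtsSt.next h.tr hj hd h.nx h.le).2

theorem Ok.card [AccSt.{u}] (h : Ok T l g' g) (hj : j ≤ l) (hd : T.ND T.n j) :
    IsCard (T.E j) (T.b j + 1) (tb T g j) :=
  AccSt.next_card _ _ _ _ (TreeSt.pm h.tr hj).ls (h.next hj hd)

omit [CtsSt.{u}] in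
theorem Ok.nu_le (h : Ok T l g' g) (h1 : T.n ≤ j) (h2 : j < l) : T.nu j ≤ tb T g j := by
  unfold tb; split_ifs with h3
  exacts [h.nu j h1 h2 h3, (h.tr.step j h1 h2).use.le]

omit [CtsSt.{u}] in
theorem Ok.top (h : Ok T l g' g) : tb T g T.n = g :=
  (tb_nd ND.refl).trans (CmpT.mp_id h.tr h.tr.le h.le)

/-- The level to which an extender is applied. -/
theorem Ok.pred [AccSt.{u}] (h : Ok T j g' g) (hu : T.Use j v k t e) (hv : v ≤ tb T g j)
    (hp : T.Pred j k t p q) :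
    t ≤ tb T g p ∧ (q < T.b p → q < tb T g p) := by
  have h1 : t ≤ tb T g p := by
    by_cases hd : T.ND T.n p
    · rcases hp.le.eq_or_lt with rfl | h2
      · exact hu.act.dom.le.trans hv
      · exact ((TreeSt.pred_agree h.tr hu hp).2.2 h2).trans
          ((CmpT.la_lt_nu h.tr hd.le h2).le.trans (h.nu_le hd.le h2))
    · rw [tb_not hd]; exact hp.ta_le.trans hp.st_le
  refine ⟨h1, fun h2 => ?_⟩
  by_cases hd : T.ND T.n p
  · exact not_le.1 fun h3 => (hu.act.lt.trans_le h1).not_ge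
      ((h.card hp.le hd _ (h3.trans (lt_add_one _).le) (KE.s1lt h2)).trans (hp.max h2))
  · rwa [tb_not hd]

variable [AccSt.{u}]

theorem Ok.step (h : Ok T l g' g) (h1 : T.n ≤ j) (h2 : j < l) :
    T.ta j ≤ tb T g (T.pr j) ∧ (T.Drop j → T.st j < tb T g (T.pr j)) :=
  have s := h.tr.step j h1 h2
  (h.mono h1 h2.le).pred s.use (h.nu_le h1 h2) s.pred

theorem Ok.drop (h : Ok T l g' g) (h1 : T.n ≤ j) (h2 : j < l) : (trunc T g).Drop j ↔ T.Drop j := by
  show min (T.st j) (tb T g (T.pr j)) < tb T g (T.pr j) ↔ _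
  rw [min_lt_iff, lt_self_iff_false, or_false]
  exact ⟨fun h3 => h3.trans_le (h.tb_le ((h.tr.pr_le h1 h2).trans h2.le)), (h.step h1 h2).2⟩

theorem Ok.nd (h : Ok T l g' g) (hj : j ≤ l) : (trunc T g).ND i j ↔ T.ND i j :=
  and_congr_right fun _ => forall_congr' fun _ => forall₂_congr fun _ hm => and_congr_right
    fun hn => forall₂_congr fun _ hk => not_congr
      (h.drop (le_s (hk ▸ hn)) (s_lt (hk ▸ hm.1.trans hj)))

omit [CtsSt.{u}] [AccSt.{u}] in
/-- The branch maps respect the new heights. -/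
theorem Ok.mp (h : Ok T l g' g) (hj : j ≤ l) (hd : T.ND i j) : T.mp i j (tb T g i) = tb T g j := by
  by_cases h1 : T.ND T.n i
  · rw [tb_nd h1, tb_nd (h1.trans hd), TreeSt.comp h.tr hj h1 hd g h.le]
  · have h2 : T.ND T.n j → i < T.n := fun h2 => not_le.1 fun h3 => h1 (h2.cut h3 hd.1)
    rw [tb_not h1, tb_not fun h3 => (lt_irrefl _ (hd.2 _ (h2 h3) h3.1).1)]
    exact (KE.s1inj ((TreeSt.strong h.tr hj hd).top _ rfl)).symm

omit [CtsSt.{u}] [AccSt.{u}] in
theorem Ok.strong (h : Ok T l g' g) (hj : j ≤ l) (hd : T.ND i j) :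
    Strong (T.E i) (tb T g i + 1) (T.E j) (tb T g j + 1) (T.mp i j) := by
  have h1 := TreeSt.strong h.tr hj hd
  rw [KE.s1inj (h1.top _ rfl)] at h1
  exact h.mp hj hd ▸ KE.strong_restrict h1 (h.tb_le (hd.le.trans hj))

omit [CtsSt.{u}] [AccSt.{u}] in
theorem Ok.pm (h : Ok T l g' g) (hj : j ≤ l) : PM (T.E j) (tb T g j + 1) :=
  KE.pm_mono (TreeSt.pm h.tr hj) (by gcongr; exact h.tb_le hj)

omit [TreeSt.{u}] [CtsSt.{u}] [AccSt.{u}] in
theorem use (hu : T.Use j v k t e) (hv : v ≤ tb T g j) : (trunc T g).Use j v k t e :=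
  ⟨hu.act, hv, hu.inc, hu.inc'⟩

omit [CtsSt.{u}] [AccSt.{u}] in
theorem Ok.phal (h : Ok T l g' g) : (trunc T g).Phal := by
  have P := h.tr.phal
  have lo : ∀ i < T.n, tb T g i = T.b i := fun i hi => tb_not fun h1 => hi.not_ge h1.le
  have le : ∀ i ≤ T.n, tb T g i ≤ T.b i := fun i hi => h.tb_le (hi.trans h.tr.le)
  refine ⟨fun i hi => h.pm (hi.trans h.tr.le), fun i hi x hx => P.id i hi x (hx.trans (le i hi)),
    P.mono, fun i hi => (P.le i hi).trans (lo i hi).ge, P.pas, P.agree, fun i j h1 h2 => ?_,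
    fun i j h1 h2 => KL.card_mono (P.card i j h1 h2) (by rw [b_eq]; gcongr; exact le j h2)⟩
  rcases h2.eq_or_lt with rfl | h3
  · exact (h.la i h1).trans h.top.ge
  · exact (P.le' i j h1 h2).trans (lo j h3).ge

/-- The truncation is a tree. -/
theorem Ok.isTr (h : Ok T l g' g) : (trunc T g).IsTr l := by
  refine ⟨h.phal, h.tr.le, fun j (j1 : T.n ≤ j) j2 => ?_, fun c (c1 : T.n < c) c2 c3 => ?_⟩
  · have s := h.tr.step j j1 j2
    have hJ := h.tr.mono j1 j2.le
    obtain ⟨p1, p2⟩ := h.step j1 j2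
    have pl := s.pred.le.trans j2.le
    have key : IsUlt (T.E (T.pr j)) (min (T.st j) (tb T g (T.pr j))) (T.ka j) (T.E (j + 1))
        (T.im j) ∧ tb T g (j + 1) = T.im j (min (T.st j) (tb T g (T.pr j))) := by
      by_cases hd : T.Drop j
      · rw [min_eq_left (p2 hd).le, tb_not fun h3 => (h3.2 _ (lt_s j1) Le.refl).2 j rfl hd]
        exact ⟨s.ult, s.b⟩
      have nd := nd_pr j1 (TreeSt.pred_le hJ s.use s.pred) hd
      have st := CU.st_eq s hd
      have tl := h.tb_le pl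
      rw [min_eq_right (st ▸ tl), ← h.mp (s_le j2) nd, s.mp _ s.pred.le nd _ tl,
        CmpT.mp_id h.tr pl tl]
      refine ⟨?_, rfl⟩
      by_cases h3 : T.ND T.n (T.pr j)
      · refine ult_cut s.ult (st ▸ h.next pl h3) (st ▸ tl) (s.use.act.lt.trans_le p1)
          fun a a1 a2 => (lt_or_ge a (T.ta j)).elim
            ((TreeSt.pred_ext hJ s.use s.pred).card a a1) fun a3 => (s.pred.noproj a a3 a2).le
      · rw [tb_not h3, ← st]; exact s.ult
    refine ⟨use s.use (h.nu_le j1 j2), s.la, ⟨s.pred.le, s.pred.lt, s.pred.min,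
      le_min s.pred.ta_le p1, min_le_right _ _,
      KL.noProj_mono s.pred.noproj (by rw [st_eq]; gcongr; exact min_le_left _ _), fun h3 => ?_⟩,
      key.1, key.2, s.ext, s.top, s.agree, h.pm (s_le j2),
      fun x hx => s.id x (hx.trans (h.tb_le (s_le j2))), fun i hi hd x hx =>
        s.mp i hi ((h.nd (s_le j2)).1 hd) x (hx.trans (h.tb_le (hi.trans j2.le)))⟩
    have h4 := (h.drop j1 j2).1 h3
    rw [st_eq, min_eq_left (p2 h4).le]
    exact s.pred.max h4
  · have L := h.tr.lim c c1 c2 c3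
    refine Lim.intro (let ⟨m, m1, m2⟩ := L.ex; ⟨m, m1, (h.nd c2).2 m2⟩) (h.pm c2)
      (fun x hx => L.id x (hx.trans (h.tb_le c2))) (fun i _ hd => h.strong c2 ((h.nd c2).1 hd))
      (fun i j hij hj hi hd x hx => L.comm hij hj ((h.nd c2).1 hi) ((h.nd c2).1 hd) x
        (hx.trans (h.tb_le ((hij.trans hj.le).trans c2)))) fun y hy => ?_
    obtain ⟨i, i1, i2, x, x1, rfl⟩ := L.onto (hy.trans (h.tb_le c2))
    refine ⟨i, i1, (h.nd c2).2 i2, x, not_lt.1 fun h1 => hy.not_gt ?_, rfl⟩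
    rw [b_eq, ← h.mp c2 i2]
    exact (CmpT.mp_lt h.tr c2 i2 (h.tb_le (i1.le.trans c2)) x1).2 h1

end Pool.Agent.KM.Trunc
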