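import Pool.Agent.Lib.MP_5c0be7_lc.T.Trunc
import Pool.Agent.Lib.MP_5c0be7_lc.T.StRet
import Pool.Agent.Lib.MP_5c0be7_lc.P.Phx
import Pool.Agent.Lib.MP_5c0be7_lc.P.Seg

/-!
Project KM, block T3: a tree stays below the images of a cardinal that the critical point of a
later extender is not strong up to.
-/

set_option linter.unusedSectionVars false

namespace Pool.Agent.KM.Trunc

open Ordinal Tr IT Set

universe u

variable {T U : IT.{u}} {W S : Seq.{u}} {l l0 i j a b d g h v k t th : Ordinal.{u}}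
  {e : Ordinal.{u} → Ordinal.{u}}

variable [TreeSt.{u}]

theorem n_le_pr (hT : T.IsTr j) (hA : T.Above l0 j) (hl : ∀ i < T.n, T.la i ≤ l0) (h1 : T.n ≤ i)
    (h2 : i < j) : T.n ≤ T.pr i := not_lt.1 fun h3 =>
  (((hT.step i h1 h2).pred.lt (h3.trans_le h1)).trans_le (hl _ h3)).not_ge (hA i h1 h2)

theorem mp_fix (hT : T.IsTr j) (hA : T.Above l0 j) (hd : T.ND i j) {x} (hx : x < l0)
    (hb : x ≤ T.b i) : T.mp i j x = x := by
  rcases hd.le.eq_or_lt with rfl | h1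
  · exact Seg.mp_id hT le_rfl hb
  · obtain ⟨c, c1, c2, -, -, c3, c4⟩ := Seg.first hT hd h1
    exact (c4 x hb).trans (Seg.sg_fix hT c1 c2 c3 (hx.trans_le (hA c c1 c2)))

/-- A step whose predecessor lies on the branch of an intermediate node does not drop. -/
theorem not_drop (hT : T.IsTr j) (h1 : T.n ≤ i) (h2 : i < j) (h3 : T.pr i < d) (h4 : d ≤ i)
    (hd : T.ND (T.pr i) d) : ¬ T.Drop i := fun hdr => by
  have s := hT.step i h1 h2
  have hI := hT.mono h1 h2.le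
  have hD := hT.mono (hd.n_lt h3).le (h4.trans h2.le)
  have st := TreeSt.strong hD le_rfl hd
  have b1 := KE.s1inj (st.top _ rfl)
  obtain ⟨c, c1, c2, c3, -, c4, c5⟩ := Seg.first hD hd h3
  have kb := (Seg.ka_lt_st s).le.trans s.pred.st_le
  have fx : T.mp (T.pr i) d (T.ka i) = T.ka i := (c5 _ kb).trans (Seg.sg_fix hD c1 c2 c4
    (TreeSt.pred_ka hI s.use s.pred c1 (c3 ▸ (hD.pr_le c1 c2)) (c2.trans_le h4)).1)
  have h5 := TreeSt.pred_card hI s.use s.pred h3 h4 _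
    ((s.pred.ta_le.trans (lt_add_one _).le).trans (KE.w_self st.toWeak (KE.s1lt hdr)))
    (st.maps _ (KE.s1lt hdr))
  rw [b1] at st
  have h6 := (KE.strong_rho st (s_le hdr) kb).1 (fx.symm ▸ s.use.act.lt.trans_le h5)
  exact h6.not_ge (s.pred.max hdr)

variable [ActSt.{u}] [FragSt.{u}] [KActSt.{u}]

theorem top_down (hT : T.IsTr j) (hA : T.Above l0 j) (hd : T.ND T.n j) (hk : k < l0)
    (A : Act (T.E j) (T.b j) k t e) : ∃ t1 e1, Act (T.E T.n) (T.b T.n) k t1 e1 := by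
  have st := TreeSt.strong hT le_rfl hd
  have p := (TreeSt.pm hT le_rfl).toPM0
  have b1 := KE.s1inj (st.top _ rfl)
  rw [b1] at st A p
  obtain ⟨k0, t0, e0, h1, h2, -⟩ :=
    KActSt.good_act_down (TreeSt.pm hT hT.le).toPM0 p st le_rfl A
  have kb := (h1.lt.trans h1.dom).le
  have h3 := KE.w_self st.toWeak (lt_s kb)
  rw [mp_fix hT hA hd ((h2 ▸ h3).trans_lt hk) kb] at h2
  exact ⟨t0, e0, h2 ▸ h1⟩

/-- If an index above the cardinal `a` is used at a node of the main branch, then later critical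
points below the exchange ordinals are strong up to `a`. -/
theorem ov (hT : T.IsTr j) (hA : T.Above l0 j) (hl : ∀ i < T.n, T.la i ≤ l0)
    (hu : T.Use j v k t e) (hk : k < l0) (hn : ∀ t1 e1, ¬ Act (T.E T.n) (T.b T.n) k t1 e1)
    (hd : T.ND T.n d) (hj : d ≤ j) (hc : IsCard (T.E d) (T.b d + 1) a) (ht : t < a)
    (h1 : d < j → a < T.nu d) (h2 : d = j → a < v) : StrongTo (T.E d) a k := by
  have pm := fun {x} (hx : x ≤ j) => TreeSt.pm hT hx
  have h3 : d < j → a ≤ T.la d := fun h => by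
    have s := hT.step d hd.le h
    have h4 := s.use.le.trans (lt_add_one _).le
    exact s.la ▸ Over.le_la (KE.pm_mono (pm hj) h4).ls s.use.act (KL.card_mono hc h4) (h1 h)
  have all : ∀ x, d ≤ x → x ≤ j → Agree (T.E x) (T.E d) a ∧ IsCard (T.E x) (T.b x + 1) a := by
    intro x x1 x2
    rcases x1.eq_or_lt with rfl | x1
    · exact ⟨fun _ _ => rfl, hc⟩
    have x3 := x1.trans_le x2
    have h4 := TreeSt.agree hT x1 x2
    refine ⟨KL.ag_symm (KL.ag_mono h4 (h3 x3)), fun y y1 y2 => ?_⟩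
    rcases lt_or_ge y (T.la d) with h5 | h5
    · exact KL.card_ag h4 (KL.card_mono hc
        ((TreeSt.la_le hT x3 le_rfl hj).trans (lt_add_one _).le)) y y1 h5
    · exact (h3 x3).trans (TreeSt.card hT x1 x2 y h5 y2)
  have low : ∀ x v t e, d ≤ x → x ≤ j → Act (T.E x) v k t e → v < T.b x → a < v → t < a →
      StrongTo (T.E d) a k := fun x v t e x1 x2 A v1 v2 t1 => by
    obtain ⟨a1, a2⟩ := all x x1 x2
    have h4 := v1.le.trans (lt_add_one _).le
    exact FragSt.congr a1 (FragSt.strong (pm x2).toPM0 v1 A a2 t1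
      (Over.le_la (KE.pm_mono (pm x2) h4).ls A (KL.card_mono a2 h4) v2))
  have av : a < v := hj.eq_or_lt.elim h2 fun h =>
    ((h3 h).trans (hu.inc d h)).trans_lt (hu.act.weak.maps _ hu.act.lt)
  rcases hu.le.lt_or_eq with h4 | rfl
  · exact low j v t e hj le_rfl hu.act h4 av ht
  have A := hu.act
  rcases TreeSt.last hT le_rfl with ⟨r, r1, r2⟩ | ⟨c, c1, c2, c3, c4⟩
  · obtain rfl : r = T.n := le_antisymm r1.1 (not_lt.1 fun h => by
      obtain ⟨c, c1, c2, c3, -⟩ := TreeSt.next hT le_rfl r2 (h.trans_le hT.le)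
      exact h.not_ge (c3 ▸ n_le_pr hT hA hl c1 c2))
    exact let ⟨t1, e1, B⟩ := top_down hT hA r2 hk A; absurd B (hn t1 e1)
  have s := hT.step c c1 c2
  have hC := hT.mono c1 c2.le
  have dc : d ≤ c := not_lt.1 fun h =>
    (hd.2 _ (lt_s c1) (c4.1.cut (s_le h) hj)).2 c rfl c3
  have np := n_le_pr hT hA hl c1 c2
  have dp : d ≤ T.pr c := not_lt.1 fun h => not_drop hT c1 c2 h dc
    (hd.tail np ((TreeSt.pred_le hC s.use s.pred).cut h.le dc)) c3
  have pj := s.pred.le.trans_lt c2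
  have st := Seg.sg_strong hT c1 c2 c4
  have p := (pm le_rfl).toPM0
  have b1 := KE.s1inj (st.top _ rfl)
  rw [b1] at st A p
  obtain ⟨k0, t0, e0, g1, g2, g3, -⟩ := KActSt.good_act_down s.ult.pm p st le_rfl A
  have g4 := KE.w_self st.toWeak (lt_s (g1.lt.trans g1.dom).le)
  rw [Seg.sg_fix hT c1 c2 c4 (((g2 ▸ g4).trans_lt hk).trans_le (hA c c1 c2))] at g2
  refine low _ _ t0 e0 dp pj.le (g2 ▸ g1) c3 ?_
    ((g3 ▸ KE.w_self st.toWeak (lt_s g1.dom.le)).trans_lt ht)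
  have g5 := TreeSt.pred_st hC s.use s.pred
  refine ((h3 (dp.trans_lt pj)).trans (TreeSt.la_mono hT dp pj)).trans_lt
    ((CmpT.la_lt_nu hT np pj).trans_le ?_)
  exact s.pred.le.eq_or_lt.elim (fun h => h.symm ▸ g5.1 h) (g5.2 np)

variable [KGoodSt.{u}] [StrSt.{u}] [CtsSt.{u}] [AccSt.{u}]

/-- The hypotheses of the truncation hold if `k` is not strong up to `h`. -/
theorem ok (hT : T.IsTr j) (hA : T.Above l0 j) (hl : ∀ i < T.n, T.la i ≤ l0)
    (hu : T.Use j v k t e) (hk : k < l0) (hh : l0 ≤ h) (ht : t < h)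
    (hc : IsCard (T.E T.n) (T.b T.n + 1) h) (hg : IsNext (T.E T.n) (T.b T.n + 1) h g)
    (hb : g ≤ T.b T.n) (hn : ∀ t1 e1, ¬ Act (T.E T.n) (T.b T.n) k t1 e1)
    (hs : ¬ StrongTo (T.E T.n) h k) : Ok T j h g ∧ v ≤ tb T g j := by
  have p0 := (TreeSt.pm hT hT.le).toPM0
  have hb' := hg.1.trans_le hb
  have key : ∀ d ≤ j, T.ND T.n d → (d < j → T.mp T.n d g < T.nu d) →
      (d = j → T.mp T.n d g < v) → False := fun d hj hd h1 h2 => by
    have st := TreeSt.strong hT hj hd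
    have p := (TreeSt.pm hT hj).toPM0
    have b1 := KE.s1inj (st.top _ rfl)
    have G := KGoodSt.strong_good p0 (b1 ▸ p) (b1 ▸ st)
    have m := (CmpT.mp_lt hT hj hd hb'.le hb).2 hg.1
    have h3 := ov hT hA hl hu hk hn hd hj (a := T.mp T.n d h) (fun x x1 x2 => by
      rcases (le_s x2).lt_or_eq with x3 | rfl
      · exact G.card h h hb' hb' (fun y y1 y2 => hc y y1 (lt_s y2.le)) x x1 (b1 ▸ x3)
      · exact (b1 ▸ G.proj h (hg.2.2.2 _ hb (lt_add_one _))).le)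
      (ht.trans_le (KE.w_self st.toWeak (lt_s hb'.le))) (fun h => m.trans (h1 h))
      fun h => m.trans (h2 h)
    have lim : ¬ Suc g := fun ⟨y, hy⟩ => by
      obtain ⟨x, x1, x2, x3⟩ := hg.2.2.1 y (hy ▸ lt_add_one y)
      obtain rfl : x = y := le_antisymm (le_s (hy ▸ x2)) x1
      exact (lt_add_one x).not_ge (((hy ▸ le_rfl : x + 1 ≤ g).trans
        (AccSt.next_card _ _ _ _ p0.ls hg g le_rfl (lt_s hb))).trans (hy ▸ DiagSt.rho_top _ _))
    refine hs ((StrSt.weak st.toWeak p0.ls p.ls lim hg.1 hg.2.1 (hk.trans_le hh)).1 ?_)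
    rwa [mp_fix (hT.mono hd.le hj) (hA.mono hj) hd hk ((hk.trans_le hh).trans hb').le]
  refine ⟨⟨hT, hg, hb, fun i hi => (hl i hi).trans (hh.trans hg.1.le), fun d _ d2 hd =>
    not_lt.1 fun h1 => key d d2.le hd (fun _ => h1) fun h2 => absurd h2 d2.ne⟩, ?_⟩
  by_cases hd : T.ND T.n j
  · rw [tb_nd hd]
    exact not_lt.1 fun h1 => key j le_rfl hd (fun h2 => absurd h2 (lt_irrefl _)) fun _ => h1
  · rw [tb_not hd]; exact hu.le

/-- Truncation. -/
theorem ex (hT : T.IsTr j) (hA : T.Above l0 j) (hl : ∀ i < T.n, T.la i ≤ l0)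
    (hu : T.Use j v k t e) (hk : k < l0) (hh : l0 ≤ h) (ht : t < h)
    (hc : IsCard (T.E T.n) (T.b T.n + 1) h) (hg : IsNext (T.E T.n) (T.b T.n + 1) h g)
    (hb : g ≤ T.b T.n) (hn : ∀ t1 e1, ¬ Act (T.E T.n) (T.b T.n) k t1 e1)
    (hs : ¬ StrongTo (T.E T.n) h k) :
    ∃ T1 : IT.{u}, T1.n = T.n ∧ T1.IsTr j ∧ T1.Above l0 j ∧ T1.Use j v k t e ∧
      (∀ i, T1.E i = T.E i ∧ T1.la i = T.la i) ∧ (∀ i ≤ j, T1.b i ≤ T.b i) ∧
      (∀ i < T.n, T1.b i = T.b i) ∧ T1.b T.n = g := by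
  obtain ⟨h1, h2⟩ := ok hT hA hl hu hk hh ht hc hg hb hn hs
  exact ⟨trunc T g, rfl, h1.isTr, hA, use hu h2, fun _ => ⟨rfl, rfl⟩, fun i hi => h1.tb_le hi,
    fun i hi => tb_not fun h3 => hi.not_ge h3.le, h1.top⟩

theorem two {k0 : Ordinal.{u}} (hU : (IT.two W th S b l).EqLt U 2) (hT : U.IsTr j)
    (hA : U.Above l j) (hu : U.Use j v k t e) (h0 : k0 ≤ k) (hk : k < l) (hh : l < h) (hb : g ≤ b)
    (hg : IsNext S (b + 1) h g) (hc : IsCard S (b + 1) h)
    (hs : ∀ x, k0 ≤ x → x < h → ¬ StrongTo S h x)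
    (hn : ∀ k' t' e', Act S b k' t' e' → k' < k0 ∨ h ≤ k') :
    ∃ U' : IT.{u}, (IT.two W th S g l).EqLt U' 2 ∧ U'.IsTr j ∧ U'.Above l j ∧
      U'.Use j v k t e ∧ U'.E j = U.E j := by
  have n1 : U.n = 1 := hU.1
  have la : U.la 0 = l := (hU.la (by simp)).trans Phx.two_la
  have e1 : U.E U.n = S := n1 ▸ (hU.E Phx.one_lt_two').trans Phx.two_E1
  have b1 : U.b U.n = b := n1 ▸ (hU.b Phx.one_lt_two').trans Phx.two_b1
  have ht : t ≤ l := by
    obtain ⟨p, q, hp⟩ := TreeSt.pred_ex hT hu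
    obtain rfl : p = 0 := le_antisymm
      (not_lt.1 fun h => (hk.trans_eq la.symm).not_ge (hp.min 0 h)) zero_le
    exact la ▸ (TreeSt.pred_agree hT hu hp).2.2 (zero_lt_one.trans_le (n1 ▸ hT.le))
  obtain ⟨h1, h2⟩ := ok (g := g) hT hA (fun i hi => by rw [Phx.lt_one' (hi.trans_eq n1), la]) hu hk hh.le
    (ht.trans_lt hh) (by rwa [e1, b1]) (by rwa [e1, b1]) (by rwa [b1])
    (fun t1 x A => (hn k t1 x (by rwa [e1, b1] at A)).elim h0.not_gt (hk.trans hh).not_ge)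
    (by rw [e1]; exact hs k h0 (hk.trans hh))
  refine ⟨trunc U g, ⟨n1, fun x hx => ?_⟩, h1.isTr, hA, use hu h2, rfl⟩
  have h3 := hU.2 x hx
  rcases Phx.le_one' (le_s (by rwa [one_add_one_eq_two])) with rfl | rfl
  · have h4 : tb U g 0 = th := (tb_not fun h => (n1 ▸ h.le : (1 : Ordinal.{u}) ≤ 0).not_gt
      zero_lt_one).trans ((hU.b hx).trans Phx.two_b0)
    simp only [trunc, h3, h4]; simp [IT.two, Nd.root]
  · have h4 : tb U g 1 = g := n1 ▸ h1.top
    simp only [trunc, h3, h4]; simp [IT.two, Nd.root]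

instance : TruncSt.{u} :=
  ⟨fun h1 h2 h3 h4 h5 h6 h7 h8 h9 hc _ => two h1 h2 h3 h4 h5 h6 h7 h8 h9 hc.1⟩

end Pool.Agent.KM.Trunc
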