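import Pool.Agent.Lib.MP_5c0be7_lc.T.QDec
import Pool.Agent.Lib.MP_5c0be7_lc.T.Tame
import Pool.Agent.Lib.MP_5c0be7_lc.F.TreeA

/-!
Project KM, block T3: the hull does not move in the comparison (U).
-/

set_option linter.unusedSectionVars false

namespace Pool.Agent.KM

open Ordinal Tr Set IT

universe u

namespace UStepI

variable {S : Cov.{u}} {a c m t l : Ordinal.{u}} {R : IT.{u}} [TreeSt.{u}] [CovBSt.{u}]

theorem nT (h : S.Ok) : S.T.n = 0 := h.eqT.n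
theorem nU (h : S.Ok) : S.U.n = 0 := h.eqU.n
theorem EU (h : S.Ok) : S.U.E 0 = S.Eb := h.eqU.E zero_lt_one
theorem bU (h : S.Ok) : S.U.b 0 = S.bb := h.eqU.b zero_lt_one

theorem act (h : S.Ok) (h0 : 0 < S.mu) :
    Act S.Eb (S.U.nu 0) (S.U.ka 0) (S.U.ta 0) (S.U.e 0) ∧ S.U.nu 0 ≤ S.bb :=
  have := (h.coit.tr'.step 0 (nU h).le h0).use
  ⟨EU h ▸ this.act, bU h ▸ this.le⟩

theorem last (h : S.Ok) (h0 : 0 < S.mu) : Agree (S.T.E S.l) S.Eb (S.U.nu 0) ∧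
    Pas (S.T.E S.l) (S.U.nu 0) ∧ S.U.nu 0 ≤ S.T.b S.l := by
  obtain ⟨h1, h2, h3, -⟩ := TreeSt.nu_agree h.coit.tr' h.coit.nor' (nU h).le h0 le_rfl
  have h4 := h.coit.le' 0 (nU h).le h0
  have h5 : S.U.nu 0 < min (S.T.b S.l) (S.U.b S.mu) + 1 := KE.lt1 (le_min h4 h3)
  refine ⟨fun v hv => (h.coit.agree v (hv.trans h5)).trans (EU h ▸ h1 v hv).symm, ?_, h4⟩
  rw [Pas, h.coit.agree _ h5]
  exact h2

theorem nu_gt (h : S.Ok) (h0 : 0 < S.mu) (nx : S.Nx m t) (pm : S.Pm m t a c) : t < S.U.nu 0 := by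
  refine not_le.1 fun hv => ?_
  obtain ⟨h1, -⟩ := act h h0
  have h2 : S.U.nu 0 < t := hv.lt_of_ne fun e =>
    TA.act_npas h1 (e ▸ (CovBSt.nx h nx).2.2.2.2.1)
  refine TA.act_npas h1 ?_
  rw [Pas, ← pm.ag _ (KE.lt1 hv)]
  rcases pm.le.eq_or_lt with e | e
  · rw [e]; exact (last h h0).2.1
  · rw [TreeSt.agree h.coit.tr e le_rfl _ (h2.trans_le (pm.hi e))]
    exact (last h h0).2.1

theorem lt_nu (h : S.Ok) (h0 : 0 < S.mu) (nx : S.Nx m t) (ib : S.IB m) : m < S.U.nu 0 := by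
  refine not_le.1 fun hv => ?_
  obtain ⟨h1, h2⟩ := act h h0
  have h3 : S.U.nu 0 < m := hv.lt_of_ne fun e => TA.act_npas h1 (e ▸ (CovBSt.nx h nx).2.2.2.1)
  have h4 : S.lb < S.tb := h.hx.nx.1
  have h5 := (CovBSt.first h ((h.hx.w1lt.trans (h4.trans h.hx.lt)).le) h.hx.w1).2 h0
  obtain ⟨m', t', n', h6, h7⟩ := CovBSt.cover h h5.le (h3.trans_le (nx.le.trans h4.le))
  obtain ⟨⟨a, c, pm⟩, -⟩ := ib m' t' n' (h6.trans_lt h3)
  exact (nu_gt h h0 n' pm).not_gt h7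

/-- The stage at which the first disagreement is the first index used on the hull. -/
theorem fail (h : S.Ok) (h0 : 0 < S.mu) : ∃ a ≤ S.l, (∀ i < a, S.T.nu i < S.U.nu 0) ∧
    Agree (S.T.E a) S.Eb (S.U.nu 0) ∧ (a < S.l → S.U.nu 0 ≤ S.T.nu a) ∧
    S.T.E a (S.U.nu 0) ≠ S.Eb (S.U.nu 0) := by
  obtain ⟨h1, h2, h3⟩ := last h h0
  have h4 : S.T.E S.l (S.U.nu 0) ≠ S.Eb (S.U.nu 0) := fun e =>
    TA.act_npas (act h h0).1 (by rw [Pas, ← e]; exact h2)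
  by_cases hx : ∃ i, i < S.l ∧ S.U.nu 0 ≤ S.T.nu i
  · obtain ⟨a, ⟨h5, h6⟩, h7⟩ := wellFounded_lt.has_min {i | i < S.l ∧ S.U.nu 0 ≤ S.T.nu i} hx
    have h8 := (TreeSt.nu_agree h.coit.tr h.coit.nor ((nT h).le.trans zero_le) h5 le_rfl).1
    refine ⟨a, h5.le, fun i hi => not_le.1 fun k => h7 i ⟨hi.trans h5, k⟩ hi,
      fun v hv => (h8 v (hv.trans_le h6)).trans (h1 v hv), fun _ => h6, ?_⟩
    rcases h6.eq_or_lt with e | e
    · have := h.coit.ne a 0 ((nT h).le.trans zero_le) h5 (nU h).le h0 e.symm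
      rwa [← e, EU h] at this
    · rwa [h8 _ e]
  · exact ⟨S.l, le_rfl, fun i hi => not_le.1 fun k => hx ⟨i, hi, k⟩, h1,
      fun k => absurd k (lt_irrefl _), h4⟩

/-- A level of the hull that projects to `m` and contains `v`. -/
theorem level (h : S.Ok) (nx : S.Nx m t) {v : Ordinal.{u}} (h1 : m < v) (hv : v < t) :
    ∃ c, v ≤ c ∧ c + 1 < t ∧ rho S.Eb (c + 1) = m ∧ Lev S.Eb (c + 1) := by
  obtain ⟨k1, -, k2, -⟩ := CovBSt.nx h nx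
  have h2 : v + 1 < t := not_suc_iff.1 k2 v hv
  obtain ⟨d, h3, h4, h5⟩ := nx.next.2.2.1 _ h2
  have h6 : m < d := h1.trans (Order.add_one_le_iff.1 h3)
  have h7 : d < S.bb + 1 := h4.trans_le nx.next.2.1
  obtain ⟨c, rfl⟩ := KL.suc_of_rho (h.hx.pm.ls d h7) (h5.trans_lt h6)
  exact ⟨c, KE.s1le h3, h4, le_antisymm h5 (nx.card _ h6.le h7), h.hx.pm.ls _ h7⟩

theorem lam_lt (h : S.Ok) : S.lam.ord < S.P.t.ord := by
  rw [h.env.t]; exact Cardinal.ord_lt_ord.2 (Order.lt_succ _)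

theorem fx (h : S.Ok) : ∀ t ≤ S.bb, S.pi t = t → ∀ x < t, S.pi x = x := fun _ ht e x hx =>
  (h.hx.gap x (hx.le.trans ht)).resolve_right (not_lt.2 (((h.hx.mono hx).trans_eq e).le.trans ht))

/-- Cardinals of the hull below the bound of the phalanx occur. -/
theorem occ {F : IT.{u}} {E : Seq.{u}} {e k d : Ordinal.{u}} (h : S.Ok) (q : QPh S m e F)
    (hm : m ≤ S.lb) (hk : ω < k) (hd : k < d) (hdm : d ≤ m) (cd : IsCard S.Eb (S.bb + 1) d)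
    (ag : Agree E S.Eb d) (hc : IsCard E d k) : ∃ i < F.n, k < F.la i ∧ F.la i ≤ d := by
  have h1 : IsCard S.Eb (S.bb + 1) k := fun x x1 x2 => (lt_or_ge x d).elim
    (KL.card_ag ag hc x x1) fun x3 => hd.le.trans (cd x x3 x2)
  obtain ⟨t, nx⟩ := CovBSt.succ h hk.le ((hd.trans_le hdm).le.trans hm) h1
  obtain ⟨i, hi, e⟩ := q.all k t nx (hd.trans_le hdm)
  exact ⟨i, hi, e ▸ nx.next.1, e ▸ QPhI.next_le nx.next cd hd⟩

variable [ChainSt.{u}]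

/-- The phalanx of the unfoldings satisfies the hypotheses of the comparison lemma. -/
theorem decIn {F : IT.{u}} {e v : Ordinal.{u}} (h : S.Ok) (q : QPh S m e F) (hm : m ≤ S.lb)
    (hu : ∀ {m t E b a c}, S.Unf m t E b → b < S.P.Om → S.Pm m t a c → UseP S.T a m t E b)
    (he : e ≤ S.bb) (hv : ∀ i < F.n, F.la i < v) (ha : a ≤ S.l)
    (hn : ∀ i < a, S.T.nu i < v ∧ S.T.nu i ≤ e) (hn' : a < S.l → m < S.T.nu a)
    (ag : Agree (S.T.E a) S.Eb v) : DecIn S.P S.W S.th S.T a F v := by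
  have l1 := (lam_lt h).trans S.P.t_ord_lt
  have l2 : m < S.lam.ord := (hm.trans_lt (h.hx.nx.1.trans h.hx.lt)).trans h.hx.sm
  refine ⟨h.env.good, h.env.rig, h.eqT, h.coit.tr.mono ((nT h).le.trans zero_le) ha,
    h.coit.nor.mono ha, q.phal, q.pii, (q.n.trans_lt l2).trans l1,
    fun i hi => ⟨((q.la i hi).trans_lt (l2.trans (lam_lt h))).le, hv i hi⟩,
    q.b ▸ (he.trans_lt h.hx.sm).trans l1, fun i hi => ?_, q.E ▸ ag, q.b ▸ hn⟩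
  obtain ⟨m', h1, un, ⟨⟨a', c, pm⟩, I⟩, -⟩ := q.root i hi
  obtain ⟨-, k⟩ | ⟨-, g, L, g1, g2⟩ := I _ _ un
  · exact Or.inl k
  obtain ⟨nx, -, -, -, ag', -⟩ := ChainSt.basic h un
  obtain ⟨-, -, -, -, -, -, k1, -⟩ := CovBSt.nx h nx
  have h2 : F.b i < S.P.Om := ((KE.w_self L.ult.toWeak (lt_add_one _)).trans le_self_add).trans_lt
    (KL.lev_lt S.P.aleph0_lt (h.env.good.pm.ls _ (KE.s1lt g1)) ((g2.trans k1).trans_lt l1))
  have h3 : a' ≤ a := not_lt.1 fun k =>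
    (hn' (k.trans_le pm.le)).not_ge ((pm.lo a k).2.trans (q.la i hi))
  refine Or.inr ⟨h2, m', Use.mono (hu un h2 pm) IT.EqLt.refl h3, fun k k2 k3 k4 => ?_⟩
  obtain ⟨j, j1, j2, j3⟩ := occ h q hm k2 k3 h1.le nx.card
    (KL.ag_mono ag' (nx.next.1.le.trans le_self_add)) (KL.card_mono k4 nx.next.1.le)
  refine ⟨j, not_le.1 fun k5 => (j3.trans_lt nx.next.1).not_ge ?_, j2⟩
  exact k5.eq_or_lt.elim (fun e => (e ▸ le_rfl)) fun k6 => q.phal.mono i j k6 j1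

variable [CmpSt.{u}] [BrSt.{u}] [KeySt.{u}] [KIISt.{u}] [KIterSt.{u}] [WinSt.{u}] [CutSt.{u}]
  [CompatSt.{u}] [SizeSt.{u}] [KGoodSt.{u}] [HullSt.{u}] [CondSt.{u}]

theorem step (h : S.Ok) (nx : S.Nx m t) (ib : S.IB m) (h0 : 0 < S.mu)
    (hu : ∀ {m t E b a c}, S.Unf m t E b → b < S.P.Om → S.Pm m t a c → UseP S.T a m t E b) :
    t < S.U.nu 0 := by
  refine not_le.1 fun hv => ?_
  have h1 := (act h h0).1
  have h2 := lt_nu h h0 nx ib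
  obtain ⟨c, c1, c2, c3, c4⟩ := level h nx h2 (hv.lt_of_ne fun e =>
    TA.act_npas h1 (e ▸ (CovBSt.nx h nx).2.2.2.2.1))
  have c5 : c ≤ S.bb := KE.s1le (c2.le.trans nx.next.2.1)
  obtain ⟨F, q⟩ := QPhI.ex h (fx h) nx.le nx.card ib (h2.le.trans c1) c5
  obtain ⟨a, a1, a2, a3, a4, a5⟩ := fail h h0
  have D := decIn h q nx.le hu c5 (fun i hi => (q.la i hi).trans_lt h2) a1
    (fun i hi => ⟨a2 i hi, (a2 i hi).le.trans c1⟩) (fun k => h2.trans_le (a4 k)) a3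
  refine a5 (q.E ▸ (Dec.act (m := m) D ?_ ?_ (fun k k1 k2 k3 => ?_) (q.b ▸ c1) ?_).2)
  · rw [q.E, q.b]; exact c4
  · rw [q.E, q.b]; exact c3.le
  · rw [q.E, q.b] at k3
    obtain ⟨i, i1, i2, -⟩ := occ h q nx.le k1 k2 le_rfl nx.card (fun _ _ => rfl)
      (KL.card_mono k3 ((h2.le.trans c1).trans le_self_add))
    exact ⟨i, i1, i2⟩
  · rw [q.E]; exact TA.act_npas h1

end UStepI

instance [TreeSt.{u}] [CovBSt.{u}] [ChainSt.{u}] [CmpSt.{u}] [BrSt.{u}] [KeySt.{u}] [KIISt.{u}]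
    [KIterSt.{u}] [WinSt.{u}] [CutSt.{u}] [CompatSt.{u}] [SizeSt.{u}] [KGoodSt.{u}] [HullSt.{u}]
    [CondSt.{u}] [UnfUseSt.{u}] : UStepSt.{u} :=
  ⟨fun h nx ib h0 => UStepI.step h nx ib h0 (UnfUseSt.unf h)⟩

end Pool.Agent.KM
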