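import Pool.Agent.Lib.MP_5c0be7_lc.T.StRet
import Pool.Agent.Lib.MP_5c0be7_lc.K.Hull1
import Pool.Agent.Lib.MP_5c0be7_lc.K.Loc
import Pool.Agent.Lib.MP_5c0be7_lc.K.II

/-!
Project KM, block T3: a hull of an ultrapower is embedded in the domain of the ultrapower along a
thread.
-/

namespace Pool.Agent.KM.UltBack

open Ordinal Tr Set Function KE

universe u

variable {E F E0 F0 : Seq.{u}} {b b0 k k0 t : Ordinal.{u}} {g g0 p q : Ordinal.{u} → Ordinal.{u}}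

theorem fix_fin (hq : StrictMono q) (h : ∀ n : ℕ, (n : Ordinal.{u}) ∈ range q) (n : ℕ) :
    q n = n := by
  induction n with
  | zero =>
    obtain ⟨x, hx⟩ := h 0
    rw [Nat.cast_zero] at hx ⊢
    obtain rfl : x = 0 := le_antisymm (hx ▸ hq.le_apply) zero_le
    exact hx
  | succ n ih =>
    obtain ⟨x, hx⟩ := h (n + 1)
    rw [Nat.cast_succ] at hx ⊢
    obtain rfl : x = n + 1 := le_antisymm (hx ▸ hq.le_apply)
      (Order.add_one_le_iff.2 (hq.lt_iff_lt.1 (by rw [ih, hx]; exact lt_add_one _)))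
    exact hx

variable [KEvSt.{u}] [KGoodSt.{u}]

/-- Ultrapowers are reflected, with different collapsing maps on the two sides. -/
theorem isUlt_down (hp : StrictMono p) (h : IsUlt E (q b0) (q k0) F g) (hk : ω ≤ k0)
    (hk' : k0 ≤ b0) (hi : ∀ x ≤ b0, p (g0 x) = g (q x)) (hE : PM0 E0 (b0 + 1))
    (hF : PM0 F0 (g0 b0 + 1)) (hs : Strong E0 (b0 + 1) E (q b0 + 1) q)
    (hs' : Strong F0 (g0 b0 + 1) F (g (q b0) + 1) p)
    (hg : ∀ y < g0 b0, ∃ f a : Tr.{u}, In (b0 + 1) f ∧ In (g (q k0)) (a.map p) ∧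
      fv F ((f.map q).map g) (a.map p) = some (leaf (p y))) : IsUlt E0 b0 k0 F0 g0 := by
  have h2 : ∀ a < b0 + 1, g0 a < g0 b0 + 1 := fun a ha => lt1 (hp.le_iff_le.1 (by
    rw [hi a (le1 ha), hi b0 le_rfl]; exact le1 (h.maps _ (hs.maps a ha))))
  have h3 : Strong E0 (b0 + 1) F0 (g0 b0 + 1) g0 :=
    strong_cancel hs' (strong_congr (strong_comp hs h.toStrong)
      fun z hz => hi z (le1 hz)) h2 fun c hc => by rw [s1inj hc]
  have h4 : k0 < rho E0 b0 := (strong_rho hs le_rfl hk').1 h.lt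
  refine ⟨h3, hE, hF, hk, h4, (KGoodSt.strong_good hE hF h3).inc k0 h4, fun y hy => ?_⟩
  obtain ⟨f, a, h8, h6, h7⟩ := hg y hy
  rw [← hi k0 hk', Hull.in_iff hp] at h6
  refine ⟨f, a, h8, h6, ?_⟩
  rw [KN.mm, ← KN.map_eq (s := p ∘ g0) (s' := g ∘ q) (fun z hz => hi z (le1 hz)) h8, ← KN.mm,
    KN.wfv hs'.toWeak (KN.in_map' h2 h8) (h6.mono (h2 k0 (lt1 hk')).le)] at h7
  obtain ⟨w, h9, h10⟩ := Option.map_eq_some_iff.1 h7
  obtain ⟨z, rfl, h11⟩ := map_eq_leaf.1 h10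
  rw [h9, hp.injective h11]

variable [HullSt.{u}] [CondSt.{u}]

/-- A sufficiently closed hull of an ultrapower is the ultrapower of a hull. -/
theorem hull (h : IsUlt E b k F g) (tb : t ≤ b) :
    ∃ G : Tr.{u} → Set Ordinal.{u}, (∀ x, (G x).Countable) ∧
      ∀ (p : Ordinal.{u} → Ordinal.{u}) (F0 : Seq.{u}) c0, StrictMono p →
        (∀ x, In (c0 + 1) x → G (x.map p) ⊆ range p) → PM0 F0 (c0 + 1) →
        Strong F0 (c0 + 1) F (g b + 1) p →
        ∃ E0 b0 k0 t0 q g0, StrictMono q ∧ q b0 = b ∧ q k0 = k ∧ q t0 = t ∧ g0 b0 = c0 ∧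
          Strong E0 (b0 + 1) E (b + 1) q ∧ IsUlt E0 b0 k0 F0 g0 ∧
          (∀ x ≤ b0, p (g0 x) = g (q x)) ∧ ∀ y ≤ b, g y ∈ range p → ∃ x ≤ b0, q x = y := by
  have kb : k ≤ b := h.lt.le.trans KE.rho_le
  choose! f a hf ha hv using h.gen
  refine ⟨fun x => (range (fun n : ℕ => g n) ∪ {g k, g t}) ∪
    (((f x.lab).map g).lv ∪ (a x.lab).lv), fun x => ((countable_range _).union
      (Set.toFinite _).countable).union ((lv_finite _).union (lv_finite _)).countable,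
    fun p F0 c0 hp hG pm hs => ?_⟩
  have top : p c0 = g b := s1inj (hs.top c0 rfl).symm
  obtain ⟨q, b0, hq, q1, q2, q3⟩ := HullSt.enum (E := E) (b := b)
    (Z := {y | y ≤ b ∧ g y ∈ range p}) (fun _ hy => hy.1) fun y hy => by
      refine ⟨le1 (HullSt.lt hy), ?_⟩
      obtain ⟨c, x, x1, x2⟩ := hy
      obtain ⟨x0, x3, x4⟩ := Hull.exists_map (p := p) (y := x.map g) (S := Iic c0) (by
        rw [lv_map]
        rintro _ ⟨z, z1, rfl⟩
        obtain ⟨z2, z0, z3⟩ := x1 z1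
        exact ⟨z0, hp.le_iff_le.1 (by rw [z3, top]; exact le1 (h.maps z (lt1 z2))), z3⟩)
      have e1 := h.commTop c x fun z hz => lt1 (x1 hz).1
      have e2 := hs.commTop c x0 fun z hz => lt1 (x3 hz)
      rw [x4, e1, x2] at e2
      obtain ⟨w, -, w2⟩ := Option.map_eq_some_iff.1 e2.symm
      obtain ⟨z, -, z1⟩ := map_eq_leaf.1 w2
      exact ⟨z, z1⟩
  have hZ : ∀ y ≤ b, g y ∈ range p → ∃ x ≤ b0, q x = y := fun y y1 y2 => by
    have : y ∈ q '' Iic b0 := q2 ▸ ⟨y1, y2⟩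
    exact this
  have hi : ∀ x ≤ b0, p (invFun p (g (q x))) = g (q x) := fun x hx => by
    have : q x ∈ q '' Iic b0 := mem_image_of_mem q hx
    rw [q2] at this
    exact invFun_eq this.2
  have G0 := hG .nil (in_nil _)
  obtain ⟨k0, k1, rfl⟩ := hZ k kb (G0 (by simp))
  obtain ⟨t0, -, rfl⟩ := hZ t tb (G0 (by simp))
  subst q1
  obtain ⟨pm0, st0, -⟩ := CondSt.strong hq h.pm q3
  have e0 : invFun p (g (q b0)) = c0 := hp.injective ((hi b0 le_rfl).trans top.symm)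
  subst e0
  refine ⟨_, b0, k0, t0, q, fun x => invFun p (g (q x)), hq, rfl, rfl, rfl, rfl, st0,
    isUlt_down hp h (not_lt.1 fun h5 => ?_) k1 hi pm0 pm st0 hs fun y hy => ?_, hi, hZ⟩
  · obtain ⟨n, rfl⟩ := lt_omega0.1 h5
    refine h.inf.not_gt ((fix_fin hq (fun m => ?_) n).trans_lt h5)
    obtain ⟨x, -, x1⟩ := hZ m ((natCast_lt_omega0 m).le.trans (h.inf.trans kb))
      (G0 (Or.inl (Or.inl ⟨m, rfl⟩)))
    exact ⟨x, x1⟩
  · have y1 : p y < g (q b0) := top ▸ hp hy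
    have G1 := hG (leaf y) (by simpa using lt1 hy.le)
    simp only [map_leaf, lab_leaf, union_subset_iff] at G1
    obtain ⟨f0, f1, f2⟩ := Hull.exists_map (p := q) (y := f (p y)) (S := Iic b0) fun z hz =>
      hZ z (le1 (hf _ y1 z hz)) (G1.2.1 (by rw [lv_map]; exact mem_image_of_mem g hz))
    obtain ⟨a0, -, a2⟩ := Hull.exists_map (p := p) (y := a (p y)) (S := univ)
      (image_univ.symm ▸ G1.2.2)
    exact ⟨f0, a0, fun z hz => lt1 (f1 hz), a2 ▸ ha _ y1, by rw [f2, a2]; exact hv _ y1⟩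

variable [RealSt.{u}]

/-- A sufficiently closed hull of an ultrapower goes back to the domain along a thread `w`. -/
theorem back (h : IsUlt E b k F g) (tb : t ≤ b) (np : NoProj E k t (b + 1)) :
    ∃ G : Tr.{u} → Set Ordinal.{u}, (∀ x, (G x).Countable) ∧
      ∀ (p : Ordinal.{u} → Ordinal.{u}) (F0 : Seq.{u}) c0, StrictMono p →
        (∀ x, In (c0 + 1) x → G (x.map p) ⊆ range p) → PM0 F0 (c0 + 1) →
        Strong F0 (c0 + 1) F (g b + 1) p → (g k ∈ range p ∧ g t ∈ range p) ∧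
        ∀ w : Ordinal.{u} → Ordinal.{u}, (∀ z, p z < g k → w z < k) →
          (∀ n0 n a : Tr.{u}, In t n → n0.map p = n.map g → In (g k) (a.map p) →
            (Nm F0 n0 a ↔ Nm E n (a.map w))) →
          ∃ s, Good F0 c0 E s ∧ s c0 = b ∧ (∀ x, p x < g k → s x = w x) ∧
            ∀ x, ∀ y ≤ b, p x = g y → s x = y := by
  obtain ⟨G, G1, G2⟩ := hull h tb
  refine ⟨G, G1, fun p F0 c0 hp hG pm hs => ?_⟩
  obtain ⟨E0, b0, k0, t0, q, g0, hq, rfl, rfl, rfl, rfl, st, U, hi, hZ⟩ := G2 p F0 c0 hp hG pm hs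
  have t1 : t0 ≤ b0 := hq.le_iff_le.1 tb
  have k1 : k0 ≤ b0 := U.lt.le.trans KE.rho_le
  refine ⟨⟨⟨_, hi k0 k1⟩, ⟨_, hi t0 t1⟩⟩, fun w w1 w2 => ?_⟩
  have gd := KGoodSt.strong_good U.pm h.pm st
  have w3 : ∀ z < g0 k0, w z < q k0 := fun z hz => w1 z (hi k0 k1 ▸ hp hz)
  obtain ⟨s, s1, s2, s3⟩ := RealSt.real U gd h.pm w3 (RealSt.thread U gd t1
    (fun c c1 c2 => (strong_rho st (le1 c2) k1).1
      (np _ (hq.monotone c1) (lt1 (hq.monotone (le1 c2))))) w3 fun n a n1 a1 =>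
      w2 _ _ a ((Hull.in_iff hq).2 n1) (by
        rw [KN.mm, KN.mm]; exact map_congr fun z hz => hi z ((n1 z hz).le.trans t1))
        (hi k0 k1 ▸ (Hull.in_iff hp).2 a1))
  refine ⟨s, s1, s2 b0 le_rfl, fun x hx => s3 x (hp.lt_iff_lt.1 (hi k0 k1 ▸ hx)),
    fun x y y1 e => ?_⟩
  obtain ⟨z, z1, rfl⟩ := hZ y y1 ⟨x, e⟩
  obtain rfl : x = g0 z := hp.injective (e.trans (hi z z1).symm)
  exact s2 z z1

omit [KEvSt.{u}] [KGoodSt.{u}] [HullSt.{u}] [CondSt.{u}] [RealSt.{u}] in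
theorem map_back {w : Ordinal.{u} → Ordinal.{u}} {n0 n : Tr.{u}} (e : n0.map p = n.map g)
    (h : ∀ x, ∀ y ∈ n.lv, p x = g y → w x = y) : n0.map w = n := by
  induction n0 generalizing n with
  | nil => exact ((map_eq_nil g n).1 e.symm).symm
  | leaf x =>
    obtain ⟨y, rfl, e1⟩ := map_eq_leaf.1 e.symm
    exact congrArg leaf (h x y (by simp) e1.symm)
  | node l r ihl ihr =>
    cases n with
    | node l' r' =>
      simp only [map_node, node.injEq] at e ⊢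
      exact ⟨ihl e.1 fun x y hy => h x y (Or.inl hy), ihr e.2 fun x y hy => h x y (Or.inr hy)⟩
    | _ => simp at e

/-- The form used in the covering argument: `W0` and `F0` are hulls of `W` and of the lift `F`
with the same collapse `p`, and `w` is the map of `Hx.back`. -/
theorem cov [CovBSt.{u}] [ChainSt.{u}] {S : Cov.{u}} {m : Ordinal.{u}} (ok : S.Ok)
    (un : S.Unf m t E b) (L : S.Lift m t E b F g) :
    ∃ G : Tr.{u} → Set Ordinal.{u}, (∀ x, (G x).Countable) ∧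
      ∀ (p w : Ordinal.{u} → Ordinal.{u}) (W0 F0 : Seq.{u}) a0 c0, StrictMono p →
        (∀ x, In (c0 + 1) x → G (x.map p) ⊆ range p) → PM0 F0 (c0 + 1) →
        Strong F0 (c0 + 1) F (g b + 1) p → Strong W0 (a0 + 1) S.W (S.th + 1) p →
        Strong W0 (a0 + 1) S.Eb (S.bb + 1) w → (∀ x ≤ a0, ∀ y ≤ S.bb, p x = S.pi y → w x = y) →
        ∃ s m0, p m0 = S.pi m ∧ m0 < a0 ∧ m0 < c0 ∧ w m0 = m ∧ Good F0 c0 E s ∧ s c0 = b ∧
          (∀ x ≤ m0, s x = w x) ∧ ∀ x, ∀ y ≤ b, p x = g y → s x = y := by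
  obtain ⟨nx, -, tb, np, ag, -⟩ := ChainSt.basic ok un
  obtain ⟨G, G1, G2⟩ := back L.ult tb np
  refine ⟨G, G1, fun p w W0 F0 a0 c0 hp hG pm hs hW hw hb => ?_⟩
  obtain ⟨⟨⟨m0, m1⟩, -⟩, H⟩ := G2 p F0 c0 hp hG pm hs
  have mt := nx.next.1
  have tbb : t < S.bb := (CovBSt.nx ok nx).1.trans_lt ok.hx.lt
  have pa : p a0 = S.th := s1inj (hW.top a0 rfl).symm
  have pc : p c0 = g b := s1inj (hs.top c0 rfl).symm
  have pb : S.pi S.bb = S.th := s1inj (ok.hx.str.top _ rfl).symm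
  have gm := L.ext m mt
  have lo : ∀ {x y}, y < t → p x = g y → x < a0 ∧ x < c0 := fun {x y} y1 e =>
    ⟨hp.lt_iff_lt.1 (by rw [e, L.ext y y1, pa, ← pb]; exact ok.hx.mono (y1.trans tbb)),
      hp.lt_iff_lt.1 (by
        rw [e, pc]; exact L.ult.mono (lt1 (y1.le.trans tb)) (lt_add_one b) (y1.trans_le tb))⟩
  have bk : ∀ x, ∀ y < t, p x = g y → w x = y := fun x y y1 e =>
    hb x (lo y1 e).1.le y (y1.trans tbb).le (L.ext y y1 ▸ e)
  have wm := bk m0 m mt m1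
  obtain ⟨s, s1, s2, s3, s4⟩ := H w (fun z hz => by
    have z1 : z < m0 := hp.lt_iff_lt.1 (m1 ▸ hz)
    exact wm ▸ hw.mono (lt1 (z1.trans (lo mt m1).1).le) (lt1 (lo mt m1).1.le) z1)
    fun n0 n a n1 e a1 => by
      have a2 : In m0 a := (Hull.in_iff hp).1 (m1 ▸ a1)
      have n2 : ∀ x ∈ n0.lv, x < a0 ∧ x < c0 := fun x hx => by
        have : p x ∈ (n.map g).lv := e ▸ (by rw [lv_map]; exact mem_image_of_mem p hx)
        rw [lv_map] at this
        obtain ⟨y, y1, y2⟩ := this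
        exact lo (n1 y y1) y2.symm
      have n3 : In (a0 + 1) n0 := fun x hx => lt1 (n2 x hx).1.le
      have a3 : In (a0 + 1) a := a2.mono (lt1 (lo mt m1).1.le).le
      rw [← KN.wnm hs.toWeak (fun x hx => lt1 (n2 x hx).2.le) (a2.mono (lt1 (lo mt m1).2.le).le),
        KN.anm L.ag (e ▸ (w_in_iff L.ult.toWeak (n1.mono (lt1 tb).le) (lt1 tb)).2 n1),
        KN.wnm hW.toWeak n3 a3, ← KN.wnm hw.toWeak n3 a3,
        map_back e fun x y hy => bk x y (n1 y hy), KN.anm ag (n1.mono le_self_add)]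
  refine ⟨s, m0, gm ▸ m1, (lo mt m1).1, (lo mt m1).2, wm, s1, s2, fun x hx => ?_, s4⟩
  rcases hx.eq_or_lt with rfl | hx
  · exact (s4 _ m (mt.le.trans tb) m1).trans wm.symm
  · exact s3 x (m1 ▸ hp hx)

omit [KGoodSt.{u}] [HullSt.{u}] [RealSt.{u}] in
/-- Closed sets collapse to strong substructures. -/
theorem club_pull (hE : PM0 E (b + 1)) : Club fun Z => ∀ (p : Ordinal.{u} → Ordinal.{u}) o,
    StrictMono p → p '' Iio o = Z → ∃ c < o, p c = b ∧ PM0 (pull p E) (c + 1) ∧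
      Strong (pull p E) (c + 1) E (b + 1) p :=
  ((Club.mem b).and (Club.sk fun x y => ev E (b + 1) x.fst x.snd = some y)).mono
    fun Z h p o hp e => by
      subst e
      obtain ⟨⟨c, c1, rfl⟩, h2⟩ := h
      have H := CondSt.strong hp hE fun q x y x1 x2 z hz => by
        obtain ⟨y', y1, y2⟩ := h2 (node q.erase (x.map p)) (by
          simp only [lv_node, lv_erase, empty_union, lv_map]
          exact image_mono fun a ha => (le1 (x1 a ha)).trans_lt c1)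
          ⟨y, (congrFun (ev_code_congr (decC_congr (erase_erase q)) _) _).trans x2⟩
        obtain rfl : y = y' := Option.some.inj
          (x2.symm.trans ((congrFun (ev_code_congr (decC_congr (erase_erase q)) _) _).symm.trans y2))
        obtain ⟨a, -, rfl⟩ := y1 hz
        exact ⟨a, hp.le_iff_le.1 (le1 (KEvSt.ev_in x2 _ hz)), rfl⟩
      exact ⟨c, c1, rfl, H.1, H.2.1⟩

omit [KGoodSt.{u}] [HullSt.{u}] [CondSt.{u}] [RealSt.{u}] in
/-- A strong map factors through a strong substructure that contains its range. -/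
theorem factor {c : Ordinal.{u}} (hp : StrictMono p) (h : Strong F0 (c + 1) E (b + 1) p)
    (h' : Strong E0 (b0 + 1) E (b + 1) q) (hr : ∀ x ≤ b0, q x ∈ range p) :
    Strong E0 (b0 + 1) F0 (c + 1) (invFun p ∘ q) ∧ invFun p (q b0) = c ∧
      ∀ x ≤ b0, p (invFun p (q x)) = q x := by
  have e : ∀ x ≤ b0, p (invFun p (q x)) = q x := fun x hx => invFun_eq (hr x hx)
  have pc : p c = b := s1inj (h.top c rfl).symm
  have qb : q b0 = b := s1inj (h'.top b0 rfl).symm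
  have e0 : invFun p (q b0) = c := hp.injective (by rw [e b0 le_rfl, pc, qb])
  exact ⟨strong_cancel h (strong_congr h' fun z hz => e z (le1 hz)) (fun a ha => lt1
    (hp.le_iff_le.1 (by rw [comp_apply, e a (le1 ha), pc]; exact le1 (h'.maps a ha))))
    fun a ha => by rw [← s1inj ha, comp_apply, e0], e0, e⟩

/-- Countable substructures of `W` and of a level of the lift go back to the hull and to the
unfolding, by maps that agree on the common part up to `pi m`. -/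
theorem ex [CovBSt.{u}] [ChainSt.{u}] {S : Cov.{u}} {m a0 c : Ordinal.{u}} {W0 : Seq.{u}}
    {p1 : Ordinal.{u} → Ordinal.{u}} (ok : S.Ok) (un : S.Unf m t E b) (L : S.Lift m t E b F g)
    (hc : c ≤ b) (ha : a0 < ω₁) (hb : b0 < ω₁) (hW : Strong W0 (a0 + 1) S.W (S.th + 1) p)
    (hF : Strong F0 (b0 + 1) F (g c + 1) p1) (pm : PM0 F0 (b0 + 1)) :
    ∃ w s, Strong W0 (a0 + 1) S.Eb (S.bb + 1) w ∧ Good F0 b0 E s ∧ s b0 = c ∧
      (∀ x ≤ a0, ∀ y ≤ S.bb, p x = S.pi y → w x = y) ∧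
      (∀ x ≤ b0, ∀ y ≤ b, p1 x = g y → s x = y) ∧
      ∀ x ≤ a0, ∀ x1 ≤ b0, p x = p1 x1 → p x ≤ S.pi m → w x = s x1 := by
  obtain ⟨G, G1, G2⟩ := cov ok un L
  obtain ⟨r, o, hr, ho, ⟨⟨⟨c1, c2⟩, c3⟩, c4⟩, c5⟩ := (((((Club.clo G1).and
    (club_pull ok.env.good.pm.toPM0)).and (club_pull L.ult.pm')).and
    (Club.sub ((IIp.ctb_Iic ha).image p))).and (Club.sub ((IIp.ctb_Iic hb).image p1))).enum
  obtain ⟨a1, a2, -, -, a4⟩ := c2 r o hr rfl
  obtain ⟨b1, b2, b5, b3, b4⟩ := c3 r o hr rfl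
  obtain ⟨d, -, d1⟩ := c5 ⟨b0, self_mem_Iic, rfl⟩
  have d2 : r d = g c := d1.trans (s1inj (hF.top b0 rfl).symm)
  have d3 : d ≤ b1 := hr.le_iff_le.1 (by rw [d2, b5]; exact le1 (L.ult.maps c (lt1 hc)))
  obtain ⟨f1, -, f3⟩ := factor hr a4 hW fun x hx => image_subset_range _ _ (c4 ⟨x, hx, rfl⟩)
  obtain ⟨g1, g2, g3⟩ := factor hr (strong_restrict (b5 ▸ b4) d3) (d2 ▸ hF)
    fun x hx => image_subset_range _ _ (c5 ⟨x, hx, rfl⟩)
  obtain ⟨w, w1, w2⟩ := ok.hx.back _ a1 r (a2.trans ho) a4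
  obtain ⟨s, m0, s1, -, -, -, s2, s3, s4, s5⟩ := G2 r w _ _ a1 b1 hr (fun x hx =>
    (c1 _ (by rw [lv_map]; exact image_mono fun a ha => (le1 (hx a ha)).trans_lt b2)).trans
      (image_subset_range _ _)) b3 b4 a4 w1 w2
  subst g2
  refine ⟨_, s ∘ invFun r ∘ p1, strong_comp f1 w1, good_comp (KGoodSt.strong_good pm
    (pm0_mono b3 (by gcongr; exact d3)) g1) (Real.good_restrict b3 (s3 ▸ L.ult.pm) s2 d3),
    s5 _ c hc d2, fun x hx y hy e => w2 _ (le1 (f1.maps x (lt1 hx))) y hy ((f3 x hx).trans e),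
    fun x hx y hy e => s5 _ y hy ((g3 x hx).trans e), fun x hx x1 h1 e h2 => ?_⟩
  simp only [comp_apply, ← e]
  exact (s4 _ (hr.le_iff_le.1 (by rw [f3 x hx, s1]; exact h2))).symm

instance [CovBSt.{u}] [ChainSt.{u}] : UBackSt.{u} where
  back {S m t E b F g c W0 F0 a0 b0 p} ok un L mc hc ha hb hp _ pm hW hF := by
    obtain ⟨w, s, h1, h2, -, h3, h4, h5⟩ := ex ok un L hc ha hb hW hF pm
    obtain ⟨nx, -, tb, -⟩ := ChainSt.basic ok un
    refine ⟨w, s, h1, h2, h3, h4, fun x hx => h5 x (hp.le_iff_le.1 ?_) x (hp.le_iff_le.1 ?_) rfl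
      hx.le⟩
    · rw [s1inj (hW.top a0 rfl).symm]
      exact hx.le.trans (le1 (ok.hx.str.maps m
        (lt1 (nx.next.1.le.trans ((CovBSt.nx ok nx).1.trans ok.hx.lt.le)))))
    · rw [s1inj (hF.top b0 rfl).symm]
      exact hx.le.trans (L.ext m nx.next.1 ▸
        (w_le L.ult.toWeak (lt1 (mc.trans hc)) (lt1 hc)).2 mc)

end Pool.Agent.KM.UltBack
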