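import Pool.Agent.Lib.MP_5c0be7_lc.T.St
import Pool.Agent.Lib.MP_5c0be7_lc.K.Hull
import Pool.Agent.Lib.MP_5c0be7_lc.K.II
import Pool.Agent.Lib.MP_5c0be7_lc.L.RealWf

/-!
Project KM, block T1: lifts whose countable parts are realised are wellfounded and realisable.
-/

namespace Pool.Agent.KM.UltII

open Ordinal Tr Set Function

universe u

variable {C : Cfg.{u}} {E E1 E' : Seq.{u}} {a b k t v o : Ordinal.{u}}
  {e i p : Ordinal.{u} → Ordinal.{u}}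

/-- The hypothesis on the countable parts. -/
def Hyp (C : Cfg.{u}) (E E1 : Seq.{u}) (a k t : Ordinal.{u}) (e : Ordinal.{u} → Ordinal.{u}) :
    Prop :=
  ∀ (E0 : Seq.{u}) a0 k0 t0 r (Z : Set Ordinal.{u}), a0 < ω₁ → PM0 E0 (a0 + 1) →
    Strong E0 (a0 + 1) E (a + 1) r → r k0 = k → r t0 = t → k0 < t0 → t0 ≤ a0 → Z.Countable →
    ∃ G j th, PM0 G (j a0 + 1) ∧ II C 0 G (j a0) ∧ Good E0 a0 G j ∧
      (∀ z ∈ Z, z < e k → th z < j k0) ∧ ∀ n w : Tr.{u}, In t0 n → w.lv ⊆ Z → In (e k) w →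
        (Nm E1 (n.map (e ∘ r)) w ↔ Nm G (n.map j) (w.map th))

/-- Sets closed under evaluation at level `d`. -/
theorem club_ev (E : Seq.{u}) (d : Ordinal.{u}) :
    Club fun Z => ∀ c x y : Tr.{u}, x.lv ⊆ Z → ev E d c x = some y → y.lv ⊆ Z :=
  (Club.sk fun x y => ev E d x.fst x.snd = some y).mono fun _ h c x y hx hy => by
    obtain ⟨w, h1, h2⟩ := h (node c.erase x) (by simpa using hx) ⟨y, by simpa using hy⟩
    simp only [fst_node, snd_node, ev_erase, hy, Option.some.injEq] at h2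
    exact h2 ▸ h1

theorem pull_str [CondSt.{u}] (hp : StrictMono p) (hb : b < o) (hE : PM0 E (p b + 1))
    (hc : ∀ c x y : Tr.{u}, x.lv ⊆ p '' Iio o → ev E (p b + 1) c x = some y → y.lv ⊆ p '' Iio o) :
    PM0 (pull p E) (b + 1) ∧ Strong (pull p E) (b + 1) E (p b + 1) p := by
  refine (fun h => ⟨h.1, h.2.1⟩) (CondSt.strong hp hE fun c x y hx h z hz => ?_)
  obtain ⟨z0, -, rfl⟩ := hc c _ y (by
    rw [lv_map]; exact image_mono fun w hw => (KE.le1 (hx w hw)).trans_lt hb) h hz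
  exact ⟨z0, hp.le_iff_le.1 (KE.le1 (ev_in h _ hz)), rfl⟩

variable [KEvSt.{u}] [KGoodSt.{u}] [HullSt.{u}] [CondSt.{u}]

omit [KGoodSt.{u}] in
theorem uwf (hE : PM0 E (a + 1)) (hk : k < t) (ht : t ≤ a) (hn : NoProj E k t (a + 1))
    (H : Hyp C E E1 a k t e) : UWf E (a + 1) k t E1 e := by
  rintro ⟨s, hs⟩
  choose h1 h2 h3 h4 w h5 h6 h7 using hs
  obtain ⟨E0, a0, r, hr, ha0, rfl, p0, st, hA⟩ := IIp.exists_hull hE
    (A := insert k (insert t (⋃ m, (node (s m).2 (w m)).lv)))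
    (((countable_iUnion fun m => (lv_finite _).countable).insert t).insert k) (by
      rintro x (rfl | rfl | hx)
      · exact hk.le.trans ht
      · exact ht
      · obtain ⟨m, hm | hm⟩ := mem_iUnion.1 hx
        · exact KE.le1 (h4 m x hm)
        · exact (h5 m x hm).le.trans ht)
  obtain ⟨k0, hk0, rfl⟩ := hA (Or.inl rfl)
  obtain ⟨t0, ht0, rfl⟩ := hA (Or.inr (Or.inl rfl))
  have ex : ∀ m, ∃ y : Tr.{u}, y.lv ⊆ Iic a0 ∧ y.map r = node (s m).2 (w m) := fun m =>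
    Hull.exists_map fun x hx => hA (Or.inr (Or.inr (mem_iUnion.2 ⟨m, hx⟩)))
  choose y hy1 hy using ex
  have hf : ∀ m, (y m).fst.map r = (s m).2 := fun m => by simp only [← map_fst, hy, fst_node]
  have hw : ∀ m, (y m).snd.map r = w m := fun m => by simp only [← map_snd, hy, snd_node]
  have hin : ∀ m, In (a0 + 1) (y m) := fun m x hx => KE.lt1 (hy1 m hx)
  obtain ⟨G, j, th, -, -, hj, g1, g2⟩ := H E0 a0 k0 t0 r (⋃ m, (s m).1.lv) ha0 p0 st rfl rfl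
    (hr.lt_iff_lt.1 hk) ht0 (countable_iUnion fun m => (lv_finite _).countable)
  have g3 : ∀ m, In (j k0) ((s m).1.map th) := fun m =>
    KE.in_map fun z hz => g1 z (mem_iUnion.2 ⟨m, hz⟩) (h2 m z hz)
  refine RealWf.wf (E1 := G) (e := j) hj
    ((KE.strong_rho st le_rfl hk0).1 (hn _ ht (lt_add_one _))) (le_add_right ht0)
    (fun Z _ => ⟨id, fun _ _ h => h, fun n a _ _ _ _ h => by
      rwa [map_eq_self (f := id) fun _ _ => rfl]⟩)
    ⟨fun m => ((s m).1.map th, (y m).fst), fun m => ?_⟩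
  have g5 : In t0 (y m).snd := by rw [← Hull.in_iff hr, hw]; exact h5 m
  refine ⟨g3 _, g3 _, (hin _).fst, (hin _).fst, (y m).snd, g5, ?_, fun z hz h8 => ?_⟩
  · refine (g2 _ (node (s (m + 1)).1 (s m).1) g5 ?_ ((in_node _ _ _).2 ⟨h1 m, h2 m⟩)).1 ?_
    · rintro x (hx | hx)
      exacts [mem_iUnion.2 ⟨_, hx⟩, mem_iUnion.2 ⟨_, hx⟩]
    · rw [← KN.mm, hw]; exact h6 m
  · have hz' : In (a0 + 1) z := hz.mono (le_add_right hk0)
    obtain ⟨c, d, h9, h10, h11⟩ := h7 m (z.map r) ((Hull.in_iff hr).2 hz)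
      (hw m ▸ (KN.wnm st.toWeak (hin m).snd hz').2 h8)
    rw [← hf, map_fst, KN.wfv st.toWeak (hin _).fst hz'.fst] at h9
    rw [← hf, map_snd, KN.wfv st.toWeak (hin _).fst hz'.snd] at h10
    obtain ⟨_, h12, h13⟩ := Option.map_eq_some_iff.1 h9
    obtain ⟨_, h14, h15⟩ := Option.map_eq_some_iff.1 h10
    obtain ⟨c, rfl, rfl⟩ := map_eq_leaf.1 h13
    obtain ⟨d, rfl, rfl⟩ := map_eq_leaf.1 h15
    exact ⟨c, d, h12, h14, hr.lt_iff_lt.1 h11⟩

omit [HullSt.{u}] in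
theorem ii [RealSt.{u}] (hU : IsUlt E a k E' i) (hk : k < t) (ht : t ≤ a)
    (hn : NoProj E k t (a + 1)) (he : ∀ x < t, i x = e x) (hv : ∀ x < t, e x < v)
    (hag : Agree E' E1 v) (H : Hyp C E E1 a k t e) : II C 0 E' (i a) := by
  intro F b0 g0 q hb0 pF hq hqb _
  obtain ⟨p, o, hp, ho, hA, hw, ⟨a0, ha0, rfl⟩, ⟨k0, hk0, rfl⟩, ⟨t0, ht0, rfl⟩, hi, c1, c2, c3⟩ :=
    ((Club.sub ((IIp.ctb_Iic hb0).image q)).and ((Club.sub (IIp.ctb_Iic omega0_lt_omega_one)).and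
      ((Club.mem a).and ((Club.mem k).and ((Club.mem t).and ((Club.fn1 i).and
      ((club_ev E (a + 1)).and ((club_ev E' (i a + 1)).and (Club.sk fun x y => In (a + 1) y.fst ∧
        In (i k) y.snd ∧ fv E' (y.fst.map i) y.snd = some x))))))))).enum
  have f1 : ∀ x < o, p (invFun p (i (p x))) = i (p x) ∧ invFun p (i (p x)) < o := fun x hx =>
    Hull.pq hp (hi _ (Hull.mem hx))
  set f : Ordinal.{u} → Ordinal.{u} := fun x => invFun p (i (p x)) with hf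
  have fa : p (f a0) = i (p a0) := (f1 a0 ha0).1
  have fx : ∀ x ≤ a0, p (f x) = i (p x) := fun x hx => (f1 x (hx.trans_lt ha0)).1
  have kt : k0 < t0 := hp.lt_iff_lt.1 hk
  have ta : t0 ≤ a0 := hp.le_iff_le.1 ht
  obtain ⟨p0, s0⟩ := pull_str hp ha0 hU.pm c1
  obtain ⟨p1, s1⟩ := pull_str (b := f a0) hp (f1 a0 ha0).2 (fa ▸ hU.pm') (fa ▸ c2)
  have pw : ∀ x < ω, p x = x := by
    intro x hx
    induction x using WellFoundedLT.induction with
    | ind x ih =>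
      obtain ⟨z, -, hz⟩ := hw (show x ∈ Iic ω from hx.le)
      rcases (show z ≤ x from hz ▸ hp.le_apply).eq_or_lt with rfl | h
      · exact hz
      · exact absurd (hz.symm.trans (ih z h (h.trans hx))) h.ne'
  have U0 : IsUlt (pull p E) a0 k0 (pull p E') f :=
    Hull.isUlt_down hp pw hU fx p0 p1 s0 (fa ▸ s1) fun y hy => by
      obtain ⟨g, c, h1⟩ := hU.gen (p y) (fa ▸ hp hy)
      obtain ⟨z, h2, h3⟩ := c3 (leaf (p y))
        (by simpa using Hull.mem (hy.trans (f1 a0 ha0).2)) ⟨node g c, h1⟩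
      obtain ⟨z, -, rfl⟩ := Hull.exists_map h2
      exact ⟨z.fst, z.snd, by simpa only [map_fst, map_snd] using h3⟩
  obtain ⟨G, j, th, pG, iG, hj, g1, g2⟩ := H _ a0 k0 t0 p (p '' Iio o) (ha0.trans ho) p0 s0 rfl rfl
    kt ta ((Step.ctb ho).image p)
  have ka : f k0 ≤ f a0 := KE.le1 (U0.maps k0 (KE.lt1 (kt.le.trans ta)))
  have fk : p (f k0) = e (p k0) := (fx k0 (kt.le.trans ta)).trans (he _ hk)
  have t1 : ∀ z < f k0, (th ∘ p) z < j k0 := fun z hz =>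
    g1 _ (Hull.mem (hz.trans (f1 k0 hk0).2)) (fk ▸ hp hz)
  obtain ⟨s, hs, h1, -⟩ := RealSt.real U0 hj pG t1 (RealSt.thread U0 hj ta
    (fun c h1 h2 => (KE.strong_rho s0 (KE.le1 h2) (kt.le.trans ta)).1
      (hn _ (hp.monotone h1) (KE.lt1 (hp.monotone (KE.le1 h2))))) t1 fun n w h1 h2 => by
      rw [← KN.wnm s1.toWeak (KE.w_in U0.toWeak (h1.mono (le_add_right ta)))
        (h2.mono (le_add_right ka)), KN.mm, KN.map_eq (s := p ∘ f) (s' := e ∘ p)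
        (fun x hx => (fx x (hx.le.trans ta)).trans (he _ (hp hx))) h1,
        KN.anm hag (KN.in_map' (s := e ∘ p) (fun x hx => hv _ (hp hx)) h1), ← KN.mm w]
      refine g2 n _ h1 ?_ (fk ▸ (Hull.in_iff hp).2 h2)
      rw [lv_map]
      exact image_mono fun x hx => (h2 x hx).trans (f1 k0 hk0).2)
  obtain ⟨m, m1, -, m2⟩ := IIp.factor hp s1 hq fun x hx => by
    obtain ⟨z, -, hz⟩ := hA ⟨x, hx, rfl⟩
    exact ⟨z, hp.le_iff_le.1 (by rw [hz, fa, ← hqb]; exact KE.le1 (hq.maps x (KE.lt1 hx))), hz⟩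
  have mb : m b0 = f a0 := hp.injective (by rw [m2 _ le_rfl, hqb, fa])
  exact iG F b0 g0 (s ∘ m) hb0 pF (KE.good_comp m1 (mb ▸ hs))
    (by rw [comp_apply, mb, h1 _ le_rfl]) fun _ _ _ => zero_le

instance [RealSt.{u}] [UltSt.{u}] : UltIISt.{u} where
  lift hE h1 hx ht hn hc H := by
    obtain ⟨E', i, hU, he, hv, hag, hp⟩ := UltSt.ult hE.toPM0 h1 hx ht hn hc
      (uwf hE.toPM0 hx.lt ht hn H)
    exact ⟨E', i, hU, he, hv, hag, hp hE, ii hU hx.lt ht hn he hx.weak.maps hag H⟩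

end Pool.Agent.KM.UltII
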