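import Pool.Agent.Lib.MP_5c0be7_lc.P.Seg
import Pool.Agent.Lib.MP_5c0be7_lc.C.Easy
import Pool.Agent.Lib.MP_5c0be7_lc.F.CmpA
import Pool.Agent.Lib.MP_5c0be7_lc.F.ActI

/-!
Project KM, block T: a map into a model of a normal tree is recognised as a branch map.
-/

namespace Pool.Agent.KM

open Ordinal Tr

universe u

/-- The branch of `s` drops. -/
def IT.Dr (T : IT.{u}) (s : Ordinal.{u}) : Prop :=
  ∃ k, T.n ≤ k ∧ k < s ∧ T.Drop k ∧ T.ND (k + 1) s

/-- Below `t` the map `k` into `(d, P)` factors through an extender used before node `l`. -/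
def IT.Fac (T : IT.{u}) (l m t : Ordinal.{u}) (P : Seq.{u}) (d : Ordinal.{u})
    (k : Ordinal.{u} → Ordinal.{u}) : Prop :=
  ∃ j, T.n ≤ j ∧ j < l ∧ T.ka j = m ∧ T.ta j = t ∧ ∃ s, Weak (T.E j) (T.nu j) P d s ∧
    (∀ x < T.la j, s x = x) ∧ ∀ x < t, s (T.e j x) = k x

/-- Every cofinal map with critical point `m` from `(b + 1, E)` into a model above a drop of a
normal extension of `T` below `a + 1` begins with an extender of the tree. -/
structure UseP (T : IT.{u}) (a m t : Ordinal.{u}) (E : Seq.{u}) (b : Ordinal.{u}) : Prop where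
  pm : PM0 E (b + 1)
  nx : IsNext E (b + 1) m t
  le : t ≤ b
  rho : rho E (b + 1) ≤ m
  use : ∀ (U : IT.{u}) l s k, T.EqLt U (a + 1) → U.IsTr l → U.Normal l → a ≤ l → s ≤ l → U.Dr s →
    Cof E b (U.E s) (U.b s) k → (∀ x < m, k x = x) → m < k m →
    PP E (b + 1) (U.E s) (U.b s + 1) m → U.Fac s m t (U.E s) (U.b s + 1) k

namespace Use

variable {E E' P : Seq.{u}} {a a' b c d d' i j j' l m s t x : Ordinal.{u}} {T U : IT.{u}}
  {k K K' : Ordinal.{u} → Ordinal.{u}}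

theorem wlim (h : Weak E d E' d' k) (hc : c ≤ d) (hl : ¬ Suc c) : Weak E c E' d' k :=
  ⟨h.mono.mono fun _ ha => lt_of_lt_of_le ha hc, fun a ha => h.maps a (ha.trans_le hc),
    fun b hb => absurd ⟨b, hb⟩ hl, fun b hb => h.comm b (hb.trans_le hc)⟩

theorem mono (h : UseP T a m t E b) (e : T.EqLt U (a + 1)) (ha : a ≤ a') : UseP U a' m t E b :=
  ⟨h.pm, h.nx, h.le, h.rho, fun V l s k e' h1 h2 h3 =>
    h.use V l s k (e.trans (e'.mono (IT.s_le (IT.lt_s ha)))) h1 h2 (ha.trans h3)⟩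

/-- The measures of a used extender are read in the target of a factor map. -/
theorem nm_fac (S : T.Step j) (h : Weak (T.E j) (T.nu j) P d K) (hf : ∀ x < T.la j, K x = x)
    (he : ∀ x < T.ta j, K (T.e j x) = k x) {X y : Tr.{u}} (hX : In (T.ta j) X)
    (hy : In (T.la j) y) : Nm (T.E j) (X.map (T.e j)) y ↔ Nm P (X.map k) y := by
  rw [← KN.wnm h (KE.w_in S.use.act.weak hX) (hy.mono (Seg.la_lt_nu S).le), CU.map_fix hf hy,
    map_map, map_congr fun z hz => he z (hX z hz)]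

theorem nu_le (S : T.Step j) : T.nu j ≤ T.b (j + 1) := by
  rw [S.b, ← S.top]
  exact (KE.w_le S.ult.toWeak (KE.lt1 (Seg.ta_le_st S)) (lt_add_one _)).2 (Seg.ta_le_st S)

/-- A map from the ultrapower restricts to the extender. -/
theorem w_nu (S : T.Step j) (h : Weak (T.E (j + 1)) (T.b (j + 1) + 1) P d K) :
    Weak (T.E j) (T.nu j) P d K :=
  KL.weak_left S.agree (wlim h ((nu_le S).trans le_self_add) (ActF.lim S.use.act))

theorem la_le_b (S : T.Step j) : T.la j ≤ T.b (j + 1) := (Seg.la_lt_nu S).le.trans (nu_le S)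

theorem im_fix (S : T.Step j) (hx : x < T.ka j) : T.im j x = x :=
  (S.ext x (hx.trans (Seg.ka_lt_ta S))).trans (S.use.act.fix x hx)

variable [TreeSt.{u}]

theorem next (h : T.IsTr l) (hn : T.n ≤ j) (hj : j < l) :
    IsNext (T.E (T.pr j)) (T.st j + 1) (T.ka j) (T.ta j) :=
  have S := h.step j hn hj
  ⟨Seg.ka_lt_ta S, (Seg.ta_le_st S).trans le_self_add,
    (TreeSt.pred_ext (h.mono hn hj.le) S.use S.pred).top, S.pred.noproj⟩

theorem ag_pr (h : T.IsTr l) (hn : T.n ≤ j) (hj : j < l) :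
    Agree (T.E (T.pr j)) (T.E j) (T.ta j) :=
  have S := h.step j hn hj
  (TreeSt.pred_agree (h.mono hn hj.le) S.use S.pred).1

theorem pr_le (h : T.IsTr l) (hn : T.n ≤ j) (hj : j < l) : T.Le (T.pr j) j :=
  have S := h.step j hn hj
  TreeSt.pred_le (h.mono hn hj.le) S.use S.pred

/-- A final segment of a branch begins with the extender of its first step. -/
theorem fac_sg (h : T.IsTr l) (hn : T.n ≤ j) (hj : j < l) (hd : T.ND (j + 1) l)
    (N : IsNext E (b + 1) m t) (ht : t ≤ b) (hb : T.st j = b) (ag : Agree (T.E (T.pr j)) E (b + 1))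
    (he : ∀ x ≤ b, Seg.sg T j l x = k x) (hf : ∀ x < m, k x = x) (hm : m < k m) :
    T.Fac l m t (T.E l) (T.b l + 1) k := by
  have S := h.step j hn hj
  have e1 : T.ka j = m := by
    rcases lt_trichotomy (T.ka j) m with h1 | h1 | h1
    · have := Seg.sg_move h hn hj hd
      rw [he _ (hb ▸ (Seg.ka_lt_st S).le), hf _ h1] at this
      exact absurd this (lt_irrefl _)
    · exact h1
    · rw [← he m (N.1.le.trans ht), Seg.sg_fix h hn hj hd h1] at hm
      exact absurd hm (lt_irrefl _)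
  have e2 : T.ta j = t := by
    have := next h hn hj
    rw [hb, e1] at this
    exact CmpA.next_uniq (KL.next_ag ag this) N
  refine ⟨j, hn, hj, e1, e2, _, w_nu S (TreeSt.strong h le_rfl hd).toWeak,
    TreeSt.fix h le_rfl hd (lt_add_one j), fun x hx => ?_⟩
  rw [← S.ext x (e2 ▸ hx)]
  exact he x (hx.le.trans ht)

variable [CompatSt.{u}]

theorem first_le (h : T.IsTr l) (hn : T.n ≤ j) (hj : j < l) (hn' : T.n ≤ j') (hj' : j' < l)
    (hb : T.st j = T.st j') (ag : Agree (T.E (T.pr j)) (T.E (T.pr j')) (T.st j + 1))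
    (w : Weak (T.E (j + 1)) (T.b (j + 1) + 1) P d K)
    (w' : Weak (T.E (j' + 1)) (T.b (j' + 1) + 1) P d K') (f : ∀ x < T.la j, K x = x)
    (f' : ∀ x < T.la j', K' x = x) (he : ∀ x ≤ T.st j, K (T.im j x) = K' (T.im j' x))
    (hk : T.ka j = T.ka j') (hl : T.la j ≤ T.la j') : T.nu j = T.nu j' := by
  have S := h.step j hn hj
  have S' := h.step j' hn' hj'
  have e2 : T.ta j = T.ta j' := by
    have := next h hn' hj'
    rw [← hb, ← hk] at this
    exact CmpA.next_uniq (KL.next_ag ag (next h hn hj)) this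
  have A' := S'.use.act
  rw [← hk, ← e2] at A'
  have ls : ∀ i, T.n ≤ i → i < l → LS (T.E i) (T.nu i) := fun i i1 i2 =>
    (TreeSt.pm h i2.le).ls.mono ((h.step i i1 i2).use.le.trans le_self_add)
  refine (CompatSt.eq (ls j hn hj) (ls j' hn' hj') S.use.act A' (by rwa [← S.la, hk, ← S'.la])
    (fun X y hX hy => ?_) ?_).1
  · rw [← S.la] at hy
    rw [nm_fac (k := fun x => K (T.im j x)) S (w_nu S w) f (fun x hx => by rw [S.ext x hx]) hX hy,
      nm_fac (k := fun x => K (T.im j x)) S' (w_nu S' w') f' (fun x hx => by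
        rw [← S'.ext x hx, he x (hb ▸ hx.le.trans (Seg.ta_le_st S'))]) (e2 ▸ hX) (hy.mono hl)]
  · exact KL.ag_trans (KL.ag_trans (KL.ag_symm (ag_pr h hn hj))
      (KL.ag_mono ag ((Seg.ta_le_st S).trans le_self_add))) (e2 ▸ ag_pr h hn' hj')

/-- Two factorisations of a map through steps of a normal tree are equal. -/
theorem same_first (h : T.IsTr l) (nor : T.Normal l) (hn : T.n ≤ j) (hj : j < l) (hn' : T.n ≤ j')
    (hj' : j' < l) (hb : T.st j = T.st j')
    (ag : Agree (T.E (T.pr j)) (T.E (T.pr j')) (T.st j + 1))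
    (w : Weak (T.E (j + 1)) (T.b (j + 1) + 1) P d K)
    (w' : Weak (T.E (j' + 1)) (T.b (j' + 1) + 1) P d K') (f : ∀ x < T.la j, K x = x)
    (f' : ∀ x < T.la j', K' x = x) (he : ∀ x ≤ T.st j, K (T.im j x) = K' (T.im j' x)) :
    j = j' ∧ ∀ y ≤ T.b (j + 1), K y = K' y := by
  have S := h.step j hn hj
  have S' := h.step j' hn' hj'
  have hk : T.ka j = T.ka j' := by
    rcases lt_trichotomy (T.ka j) (T.ka j') with h1 | h1 | h1
    · have := he _ (Seg.ka_lt_st S).le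
      rw [Seg.im_ka S, im_fix S' h1, f' _ (h1.trans (Seg.ka_lt_la S'))] at this
      exact absurd (this ▸ KE.w_self w (KE.lt1 (la_le_b S))) (not_le.2 (Seg.ka_lt_la S))
    · exact h1
    · have := he _ (hb ▸ (Seg.ka_lt_st S').le)
      rw [Seg.im_ka S', im_fix S h1, f _ (h1.trans (Seg.ka_lt_la S))] at this
      exact absurd (this ▸ KE.w_self w' (KE.lt1 (la_le_b S'))) (not_le.2 (Seg.ka_lt_la S'))
  have e : T.nu j = T.nu j' := (le_total _ _).elim
    (first_le h hn hj hn' hj' hb ag w w' f f' he hk) fun hl =>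
    (first_le h hn' hj' hn hj hb.symm (hb ▸ KL.ag_symm ag) w' w f' f
      (fun x hx => (he x (hb ▸ hx)).symm) hk.symm hl).symm
  obtain rfl : j = j' := by
    rcases lt_trichotomy j j' with h1 | h1 | h1
    · exact absurd e (nor _ _ hn h1 hj').ne
    · exact h1
    · exact absurd e (nor _ _ hn' h1 hj).ne'
  refine ⟨rfl, fun y hy => ?_⟩
  rw [S.b] at hy w w'
  rcases hy.eq_or_lt with rfl | hy
  · exact he _ le_rfl
  obtain ⟨g, z, h1, h2, h3⟩ := S.ult.gen y hy
  rw [Seg.im_ka S] at h2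
  have h4 := KE.w_in S.ult.toWeak h1
  have h5 : In (T.im j (T.st j) + 1) z := h2.mono ((S.b ▸ la_le_b S).trans le_self_add)
  have h6 := KN.wfv w h4 h5
  have h7 := KN.wfv w' h4 h5
  rw [CU.map_fix f h2, map_map, map_congr fun x hx => he x (KE.le1 (h1 x hx)), h3] at h6
  rw [CU.map_fix f' h2, map_map, h6, h3] at h7
  simpa using h7

/-- A factorisation through a branch map follows the branch. -/
theorem seq (h : T.IsTr l) (nor : T.Normal l) (ha : a ≤ l) (hs : s ≤ l) (h1 : T.ND i a)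
    (h2 : T.ND i s) (w : Weak (T.E a) (T.b a + 1) (T.E s) (T.b s + 1) k)
    (f : ∀ j < a, ∀ x < T.la j, k x = x) (he : ∀ x ≤ T.b i, k (T.mp i a x) = T.mp i s x) :
    T.ND a s ∧ ∀ x ≤ T.b a, k x = T.mp a s x := by
  have key := TreeSt.ind (i := i)
    (fun y => T.ND y a → T.ND y s ∧ ∀ x ≤ T.b y, k (T.mp y a x) = T.mp y s x) h (fun _ => ⟨h2, he⟩)
    (fun j hn hj _ _ _ hd ih hy => ?_) (fun y y1 y2 y3 y4 y5 ih hy => ?_) a ha h1 IT.ND.refl
  · exact ⟨key.1, fun x hx => by rw [← key.2 x hx, Seg.mp_id h ha hx]⟩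
  · have S := h.step j hn hj
    have hp := IT.nd_pr hn (pr_le h hn hj) hd
    have ja : j < a := IT.s_lt hy.le
    obtain ⟨p1, p2⟩ := ih (hp.trans hy)
    have hb := Seg.st_eq S hd
    have w1 := KE.weak_comp (TreeSt.strong h ha hy).toWeak w
    have f1 : ∀ x < T.la j, (k ∘ T.mp (j + 1) a) x = x := fun x hx => by
      rw [Function.comp, TreeSt.fix h ha hy (lt_add_one j) x hx, f j ja x hx]
    have e1 : ∀ x ≤ T.st j, (k ∘ T.mp (j + 1) a) (T.im j x) = T.mp (T.pr j) s x := fun x hx => by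
      rw [hb] at hx
      rw [← p2 x hx, ← TreeSt.comp h ha hp hy x hx, S.mp _ S.pred.le hp x hx,
        Seg.mp_id h (S.pred.le.trans hj.le) hx]
      rfl
    have ps : T.pr j < s := p1.le.lt_of_ne fun e => by
      have := e1 _ (Seg.ka_lt_st S).le
      rw [Seg.im_ka S, ← e, Seg.mp_id h (S.pred.le.trans hj.le)
        ((Seg.ka_lt_st S).le.trans S.pred.st_le)] at this
      exact absurd (this ▸ KE.w_self w1 (KE.lt1 (la_le_b S))) (not_le.2 (Seg.ka_lt_la S))
    have hs' := h.mono (p1.n_lt ps).le hs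
    obtain ⟨j', n', j1, j2, j3, j4, j5⟩ := Seg.first hs' p1 ps
    obtain ⟨rfl, e2⟩ := same_first h nor hn hj n' (j1.trans_le hs) (hb.trans j3.symm)
      (by rw [j2]; exact fun _ _ => rfl) w1 (TreeSt.strong h hs j4).toWeak f1
      (TreeSt.fix h hs j4 (lt_add_one j')) fun x hx => (e1 x hx).trans (j5 x (hb ▸ hx))
    exact ⟨j4, e2⟩
  · have hy' : ∀ z < y, ∃ m, z < m ∧ m < y ∧ T.ND m s := fun z hz => by
      obtain ⟨m, m1, m2, m3⟩ := TreeSt.cof y2 y1 (fun j j1 j2 => h.mono j2 (j1.le.trans y3)) _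
        (max_lt hz y4)
      have m4 : i ≤ m := (le_max_right _ _).trans m1.le
      have m5 := y5.tail m4 m3
      exact ⟨m, (le_max_left _ _).trans_lt m1, m2, (ih m m2 m4 m5 (m5.trans hy)).1⟩
    have ys : y ≤ s := le_of_forall_lt fun z hz =>
      let ⟨_, m1, _, m3⟩ := hy' z hz; m1.trans_le m3.le
    have n1 : T.ND y s := h2.tail y4.le (IT.le_closed ys fun z hz =>
      let ⟨m, m1, m2, m3⟩ := hy' z hz; ⟨m, m1, m2.le, m3.1⟩)
    refine ⟨n1, fun x hx => ?_⟩
    have L := h.lim y y2 y3 y1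
    obtain ⟨m, m1, m2, z, z1, rfl⟩ := L.onto hx
    have m3 : max m i < y := max_lt m1 y4
    have m4 : T.ND (max m i) y := by
      rcases le_total m i with e | e
      · rwa [max_eq_right e]
      · rwa [max_eq_left e]
    have m5 := m2.cut (le_max_left m i) m4.1
    have z2 : T.mp m (max m i) z ≤ T.b (max m i) :=
      KE.le1 ((TreeSt.strong h (m3.le.trans y3) m5).maps z (KE.lt1 z1))
    rw [← TreeSt.comp h y3 m5 m4 z z1, TreeSt.comp h ha m4 hy _ z2, TreeSt.comp h hs m4 n1 _ z2]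
    exact (ih _ m3 (le_max_right _ _) m4 (m4.trans hy)).2 _ z2

omit [TreeSt.{u}] [CompatSt.{u}] in
theorem core_comp {E0 : Seq.{u}} {b0 b' : Ordinal.{u}} (h : CoreMap E0 b0 E b K)
    (hk : Cof E b E' b' k) (pm : PM0 E' (b' + 1)) (hr : rho E0 (b0 + 1) ≤ m)
    (f : ∀ x < m, k x = x) (hp : PP E (b + 1) E' (b' + 1) m) : CoreMap E0 b0 E' b' (k ∘ K) :=
  ⟨CU.cof_comp h.toCof hk, h.pm, pm, h.sound, fun x hx => by
    rw [Function.comp, h.fix x hx, f x (hx.trans_le hr)], CU.pp_trans h.pp (CU.pp_mono hp hr)⟩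

omit [TreeSt.{u}] [CompatSt.{u}] in
theorem dr_eq (e : T.EqLt U (a + 1)) (h : T.IsTr a) (hd : T.Dr a) : U.Dr a :=
  let ⟨j, h1, h2, h3, h4⟩ := hd
  ⟨j, e.n ▸ h1, h2, (e.drop_iff (KE.s1lt h2) (h.pr_le h1 h2)).2 h3,
    (e.nd_iff (lt_add_one a) h le_rfl).2 h4⟩

variable [BrSt.{u}] [KeySt.{u}]

/-- A level of the model at `a` that projects to `m`, or the whole model above a drop. -/
theorem base (h : T.IsTr a) (hl : ∀ i < a, T.la i ≤ m) (N : IsNext (T.E a) (c + 1) m t)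
    (ht : t ≤ c) (hc : (c < T.b a ∧ rho (T.E a) (c + 1) ≤ m) ∨ (c = T.b a ∧ T.Dr a)) :
    UseP T a m t (T.E a) c := by
  have pm := (TreeSt.pm h le_rfl).toPM0
  have cb : c ≤ T.b a := hc.elim (·.1.le) (·.1.le)
  have pm' := KE.pm0_mono pm (IT.s_le (IT.lt_s cb))
  refine ⟨pm', N, ht, hc.elim (·.2) fun ⟨e, j, h1, h2, h3, h4⟩ => ?_,
    fun U l s k e tr nor al sl ⟨j, n1, j1, d1, d2⟩ hk f mv hp => ?_⟩
  · have C := BrSt.core h h1 h2 h3 h4
    rw [e]
    exact (CU.rho_le_of_pp C.toStrong C.fix C.pp).trans (((h.step j h1 h2).pred.max h3).trans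
      ((Seg.ka_lt_la (h.step j h1 h2)).le.trans (hl j h2)))
  have ts := tr.mono (n1.trans j1.le) sl
  have C := BrSt.core ts n1 j1 d1 d2
  have ps := (TreeSt.pm ts le_rfl).toPM0
  rcases hc with ⟨h1, h2⟩ | ⟨rfl, h2⟩
  · obtain ⟨e1, e2, e3⟩ := KeySt.key C ⟨hk, pm', ps, pm.ls _ (KE.s1lt h1),
      fun x hx => f x (hx.trans_le h2), CU.pp_mono hp h2⟩
    exact fac_sg ts n1 j1 d2 N ht e1 (e1 ▸ e2) (fun x hx => e3 x (e1 ▸ hx)) f mv
  obtain ⟨i, n2, i1, d3, d4⟩ := dr_eq e h h2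
  have la : ∀ i < a, U.la i ≤ m := fun i hi => e.la (KE.s1lt hi) ▸ hl i hi
  rw [← e.E (lt_add_one a), ← e.b (lt_add_one a)] at hk hp N
  rw [← e.b (lt_add_one a)] at ht
  have ta := tr.mono (n2.trans i1.le) al
  have S := ta.step i n2 i1
  obtain ⟨e1, e2, e3⟩ := KeySt.key (core_comp (BrSt.core ta n2 i1 d3 d4) hk ps
    ((S.pred.max d3).trans ((Seg.ka_lt_la S).le.trans (la i i1))) f hp) C
  obtain ⟨rfl, e4⟩ := same_first tr nor n2 (i1.trans_le al) n1 (j1.trans_le sl) e1 e2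
    (KE.weak_comp (TreeSt.strong tr al d4).toWeak hk.toWeak) (TreeSt.strong tr sl d2).toWeak
    (fun x hx => by
      rw [Function.comp, TreeSt.fix tr al d4 (lt_add_one i) x hx, f x (hx.trans_le (la i i1))])
    (TreeSt.fix tr sl d2 (lt_add_one j)) e3
  obtain ⟨n3, e5⟩ := seq tr nor al sl d4 d2 hk.toWeak
    (fun j hj x hx => f x (hx.trans_le (la j hj))) e4
  have mb : m ≤ U.b a := N.1.le.trans ht
  have as : a < s := n3.le.lt_of_ne fun e => by
    rw [e5 m mb, ← e, Seg.mp_id tr al mb] at mv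
    exact lt_irrefl _ mv
  obtain ⟨j, j2, j3, j4, j5, j6, j7⟩ := Seg.first ts n3 as
  exact fac_sg ts j2 j3 j6 N ht j5 (by rw [j4]; exact fun _ _ => rfl)
    (fun x hx => (j7 x hx).symm.trans (e5 x hx).symm) f mv

end Use

end Pool.Agent.KM
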