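import Pool.Agent.Lib.MP_5c0be7_lc.T.Use2
import Pool.Agent.Lib.MP_5c0be7_lc.T.QDec

/-!
Project KM, block T3: the recognition property of unfoldings, as used by the comparisons.
-/

namespace Pool.Agent.KM

universe u

variable [TreeSt.{u}] [UltFactSt.{u}] [CovBSt.{u}] [BrSt.{u}] [KeySt.{u}] [CompatSt.{u}]

instance : UnfUseSt.{u} := ⟨Use.unf⟩

end Pool.Agent.KM
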