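import Pool.Agent.Lib.MP_5c0be7_lc.T.StCov
import Pool.Agent.Lib.MP_5c0be7_lc.T.Weasel

/-!
Project KM, block T3: the weasel case of the covering argument.
-/

namespace Pool.Agent.KM

namespace WslI

open Ordinal Cardinal Tr Set KE

universe u

variable [TreeSt.{u}] [StrSt.{u}] [CmpSt.{u}] [OverSt.{u}] [FragSt.{u}] [KGoodSt.{u}] [KActSt.{u}]
  [S5St.{u}] [UltIISt.{u}] [LiftSt.{u}] [WinSt.{u}] [KIISt.{u}] [KIterSt.{u}] [CovBSt.{u}]

/-- In the weasel case nothing has moved up to `m`. -/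
theorem triv {S : Cov.{u}} {m t a : Ordinal.{u}} (h : S.Ok) (nx : S.Nx m t)
    (pm : S.Pm m t a (S.T.b a)) (nd : S.T.ND 0 a) : a = 0 ∧ ∀ x ≤ m, S.pi x = x := by
  obtain ⟨h1, -, -, -, -, -, h2, h3, -⟩ := CovBSt.nx h nx
  obtain ⟨v, h4, X⟩ := CovBSt.ext h nx
  obtain ⟨h5, h6⟩ := CovBSt.pm_low h nx pm
  have h7 : S.lam.ord < S.P.t.ord := by rw [h.env.t]; exact ord_lt_ord.2 (Order.lt_succ _)
  have h8 := h7.trans S.P.t_ord_lt
  have ag : Agree S.Eb (S.T.E a) t := KL.ag_mono (KL.ag_symm pm.ag) le_self_add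
  have key := Wea.node h.env.good h.env.rig h.eqT h5 (h6.trans h8) nd (fun j hj => (pm.lo j hj).1)
    (KL.ext_left ag X) pm.lvl.ta_le pm.lvl.noproj (KL.oc_left ag (CovBSt.oc h nx))
    ((h.hx.mono.le_apply.trans h2).trans_lt h7)
    (h4.trans (h.hx.str.maps t (lt1 (h1.trans h.hx.lt.le))).le) (h2.trans_lt h8)
    (h2.trans h7.le) h3
  exact ⟨by_contra fun e => key (Or.inl (pos_iff_ne_zero.2 e)), fun x hx =>
    le_antisymm (not_lt.1 fun e => key (Or.inr ⟨x, hx, e⟩)) h.hx.mono.le_apply⟩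

theorem wsl {S : Cov.{u}} {m t a : Ordinal.{u}} (h : S.Ok) (nx : S.Nx m t)
    (pm : S.Pm m t a (S.T.b a)) (nd : S.T.ND 0 a) : S.pi t = t := by
  obtain ⟨rfl, h1⟩ := triv h nx pm nd
  have h2 := (CovBSt.nx h nx).2.2.2.2.2.2.2.2
  have h3 := pm.lvl.noproj
  rw [S5I.E_eq h.eqT, S5I.b_eq h.eqT] at h3
  rw [h1 m le_rfl] at h2
  exact le_antisymm (KL.top_le h2.2.2.1 (KL.noProj_mono h3 h2.2.1)) h.hx.mono.le_apply

end WslI

universe u

instance [TreeSt.{u}] [StrSt.{u}] [CmpSt.{u}] [OverSt.{u}] [FragSt.{u}] [KGoodSt.{u}] [KActSt.{u}]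
    [S5St.{u}] [UltIISt.{u}] [LiftSt.{u}] [WinSt.{u}] [KIISt.{u}] [KIterSt.{u}] [CovBSt.{u}] :
    WslSt.{u} := ⟨WslI.wsl⟩

end Pool.Agent.KM
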